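import Mathlib

/-!
Definitions for the theorem on conic bundles over the plane with discriminant curve of degree nine.
`X = {(x, A) : A x = 0, tr (B_i A) = 0 (i = 0, 1, 2), x . N(A) = 0}` in `P^2 x P(Mat_3)`,
with `N(A)_j = sum n_j(s, t) A_s A_t` quadratic.
-/

namespace Pool.Agent.Work.D9

open MvPolynomial Matrix

section

variable {S : Type*} [CommRing S]

/-- the matrix with rows `lᵀ B_i` -/
def rows (B : Fin 3 → Matrix (Fin 3) (Fin 3) S) (l : Fin 3 → S) : Matrix (Fin 3) (Fin 3) S :=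
  Matrix.of fun i j => ∑ r, l r * B i r j

/-- `tr (B_i A)` -/
def trB (B : Fin 3 → Matrix (Fin 3) (Fin 3) S) (i : Fin 3) (A : Matrix (Fin 3) (Fin 3) S) : S :=
  ∑ r, ∑ c, B i r c * A c r

/-- `x . N(A, A')`, with `N_j(A, A') = sum n_j(s, t) A_s A'_t` -/
def qf (n : Fin 3 → Fin 3 × Fin 3 → Fin 3 × Fin 3 → S) (x : Fin 3 → S)
    (A A' : Matrix (Fin 3) (Fin 3) S) : S :=
  ∑ j, x j * ∑ s, ∑ t, n j s t * A s.1 s.2 * A' t.1 t.2

/-- the quadratic vector `N(A)` -/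
def Nrow (n : Fin 3 → Fin 3 × Fin 3 → Fin 3 × Fin 3 → S) (A : Matrix (Fin 3) (Fin 3) S) :
    Fin 3 → S := fun j => ∑ s, ∑ t, n j s t * A s.1 s.2 * A t.1 t.2

/-- the equations of `X` -/
structure IsPt (B : Fin 3 → Matrix (Fin 3) (Fin 3) S)
    (n : Fin 3 → Fin 3 × Fin 3 → Fin 3 × Fin 3 → S) (x : Fin 3 → S)
    (A : Matrix (Fin 3) (Fin 3) S) : Prop where
  ker : A *ᵥ x = 0
  tr : ∀ i, trB B i A = 0
  quad : qf n x A A = 0

/-- the fibre of `X` over `x` is a smooth conic in a plane -/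
structure SmoothFibre (B : Fin 3 → Matrix (Fin 3) (Fin 3) S)
    (n : Fin 3 → Fin 3 × Fin 3 → Fin 3 × Fin 3 → S) (x : Fin 3 → S) : Prop where
  surj : ∀ y z : Fin 3 → S, ∃ A : Matrix (Fin 3) (Fin 3) S, A *ᵥ x = y ∧ ∀ i, trB B i A = z i
  nondeg : ∀ A : Matrix (Fin 3) (Fin 3) S, A *ᵥ x = 0 → (∀ i, trB B i A = 0) →
    (∀ A' : Matrix (Fin 3) (Fin 3) S, A' *ᵥ x = 0 → (∀ i, trB B i A' = 0) →
      qf n x A A' + qf n x A' A = 0) → A = 0

/-- the points of the plane over which the conic has a point -/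
def Split (B : Fin 3 → Matrix (Fin 3) (Fin 3) S)
    (n : Fin 3 → Fin 3 × Fin 3 → Fin 3 × Fin 3 → S) : Set (Fin 3 → S) :=
  {x | x ≠ 0 ∧ ∃ A : Matrix (Fin 3) (Fin 3) S, A ≠ 0 ∧ IsPt B n x A}

/-- a point `(x, A)` as a point of an affine space -/
def join (x : Fin 3 → S) (A : Matrix (Fin 3) (Fin 3) S) : Fin 3 ⊕ (Fin 3 × Fin 3) → S :=
  Sum.elim x fun s => A s.1 s.2

end

end Pool.Agent.Work.D9
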