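import Mathlib
import Pool.Agent.Work.MP_b62148_ag.D9.Defs

/-!
Explicit data attached to a point `l` of the curve of jumping lines `det (rows B l) = 0`.
`xi, et, ze, om` are constant auxiliary vectors.
-/

namespace Pool.Agent.Work.D9

open MvPolynomial Matrix

section pipe

variable {S : Type*} [CommRing S] (B : Fin 3 → Matrix (Fin 3) (Fin 3) S)
  (n : Fin 3 → Fin 3 × Fin 3 → Fin 3 × Fin 3 → S) (xi et ze om l : Fin 3 → S)

/-- right kernel of `rows B l` -/
def pp : Fin 3 → S := adjugate (rows B l) *ᵥ xi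

/-- left kernel of `rows B l` -/
def mm : Fin 3 → S := et ᵥ* adjugate (rows B l)

/-- the combination of the `B_i` killed by `l` on the left -/
def Bm : Matrix (Fin 3) (Fin 3) S := ∑ i, mm B et l i • B i

/-- right kernel of `Bm` -/
def aa : Fin 3 → S := adjugate (Bm B et l) *ᵥ ze

/-- `et . adj(R) xi` -/
def kap : S := et ⬝ᵥ pp B xi l

/-- `(ze . l) kap` -/
def lam : S := (ze ⬝ᵥ l) * kap B xi et l

/-- the rank one element of the net -/
def vv : Matrix (Fin 3) (Fin 3) S := vecMulVec (pp B xi l) l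

/-- `N(v)` -/
def om1 : Fin 3 → S := Nrow n (vv B xi l)

/-- `w × l` -/
def xx (w : Fin 3 → S) : Fin 3 → S := w ⨯₃ l

/-- the perturbed invertible matrix -/
def Rp : Matrix (Fin 3) (Fin 3) S := rows B l + (ze ⬝ᵥ l) • vecMulVec xi et

/-- solution of `lᵀ B_i g = - lam (wᵀ B_i a)` -/
def gg (w : Fin 3 → S) : Fin 3 → S :=
  - (adjugate (Rp B xi et ze l) *ᵥ fun i => ∑ r, ∑ c, w r * B i r c * aa B et ze l c)

/-- the element of the plane `W` attached to `w` -/
def yy (w : Fin 3 → S) : Matrix (Fin 3) (Fin 3) S :=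
  lam B xi et ze l • vecMulVec (aa B et ze l) w + vecMulVec (gg B xi et ze l w) l

/-- symmetrised form -/
def sf (x : Fin 3 → S) (A A' : Matrix (Fin 3) (Fin 3) S) : S := qf n x A A' + qf n x A' A

/-- coefficients of the cubic `A2 w2 w0² + (B0 w1² + B1 w1 w2 + B2 w2²) w0 + (C0 w1³ + ...)` -/
def A2 : S := qf n (xx l om) (vv B xi l) (vv B xi l)

def B0 : S := sf n (xx l (om1 B n xi l)) (vv B xi l) (yy B xi et ze l (om1 B n xi l))

def B1 : S := sf n (xx l (om1 B n xi l)) (vv B xi l) (yy B xi et ze l om) +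
  sf n (xx l om) (vv B xi l) (yy B xi et ze l (om1 B n xi l))

def B2 : S := sf n (xx l om) (vv B xi l) (yy B xi et ze l om)

def C0 : S := qf n (xx l (om1 B n xi l)) (yy B xi et ze l (om1 B n xi l))
  (yy B xi et ze l (om1 B n xi l))

def C1 : S := qf n (xx l om) (yy B xi et ze l (om1 B n xi l)) (yy B xi et ze l (om1 B n xi l)) +
  sf n (xx l (om1 B n xi l)) (yy B xi et ze l (om1 B n xi l)) (yy B xi et ze l om)

def C2 : S := qf n (xx l (om1 B n xi l)) (yy B xi et ze l om) (yy B xi et ze l om) +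
  sf n (xx l om) (yy B xi et ze l (om1 B n xi l)) (yy B xi et ze l om)

def C3 : S := qf n (xx l om) (yy B xi et ze l om) (yy B xi et ze l om)

/-- the quartic `disc(s)` -/
def quart (s : S) : S :=
  B0 B n xi et ze l ^ 2 +
  (2 * B0 B n xi et ze l * B1 B n xi et ze om l - 4 * A2 B n xi om l * C0 B n xi et ze l) * s +
  (B1 B n xi et ze om l ^ 2 + 2 * B0 B n xi et ze l * B2 B n xi et ze om l -
    4 * A2 B n xi om l * C1 B n xi et ze om l) * s ^ 2 +
  (2 * B1 B n xi et ze om l * B2 B n xi et ze om l -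
    4 * A2 B n xi om l * C2 B n xi et ze om l) * s ^ 3 +
  (B2 B n xi et ze om l ^ 2 - 4 * A2 B n xi om l * C3 B n xi et ze om l) * s ^ 4

end pipe

/-- Intrinsic data: `p, m` right and left kernel of `rows B l`, `a` right kernel of `sum m_i B_i`,
`x = N(v) × l` with `v = p ⊗ l`, and `y = a ⊗ N(v) + g ⊗ l` in the net. -/
structure Cfg {S : Type*} [CommRing S] (B : Fin 3 → Matrix (Fin 3) (Fin 3) S)
    (n : Fin 3 → Fin 3 × Fin 3 → Fin 3 × Fin 3 → S) (l p m a g : Fin 3 → S) : Prop where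
  l0 : l ≠ 0
  p0 : p ≠ 0
  m0 : m ≠ 0
  a0 : a ≠ 0
  hp : rows B l *ᵥ p = 0
  hm : m ᵥ* rows B l = 0
  ha : (∑ i, m i • B i) *ᵥ a = 0
  x0 : Nrow n (vecMulVec p l) ⨯₃ l ≠ 0
  tr : ∀ i, trB B i (vecMulVec a (Nrow n (vecMulVec p l)) + vecMulVec g l) = 0

section cfg

variable {S : Type*} [CommRing S] (n : Fin 3 → Fin 3 × Fin 3 → Fin 3 × Fin 3 → S)
  (l p a g : Fin 3 → S)

/-- coefficient deciding whether `v` is a flex -/
def flexval : S := sf n (Nrow n (vecMulVec p l) ⨯₃ l) (vecMulVec p l)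
  (vecMulVec a (Nrow n (vecMulVec p l)) + vecMulVec g l)

/-- leading coefficient of the cubic on the tangent line -/
def endval : S := qf n (Nrow n (vecMulVec p l) ⨯₃ l)
  (vecMulVec a (Nrow n (vecMulVec p l)) + vecMulVec g l)
  (vecMulVec a (Nrow n (vecMulVec p l)) + vecMulVec g l)

end cfg

end Pool.Agent.Work.D9
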