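import Mathlib
import Pool.Agent.Work.MP_b62148_ag.D9.Pipe

/-!
Naturality of the explicit data under ring homomorphisms.
-/

namespace Pool.Agent.Work.D9

open MvPolynomial Matrix

section

variable {S T : Type*} [CommRing S] [CommRing T] (φ : S →+* T)
  (B : Fin 3 → Matrix (Fin 3) (Fin 3) S)
  (n : Fin 3 → Fin 3 × Fin 3 → Fin 3 × Fin 3 → S) (xi et ze om l : Fin 3 → S)

/-- base change of the matrices -/
def mB : Fin 3 → Matrix (Fin 3) (Fin 3) T := fun i => (B i).map φ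

/-- base change of the quadratic form -/
def mN : Fin 3 → Fin 3 × Fin 3 → Fin 3 × Fin 3 → T := fun j s t => φ (n j s t)

theorem map_rows : (rows B l).map φ = rows (mB φ B) (φ ∘ l) := by
  ext i j
  simp [rows, mB]

theorem map_cross (x y : Fin 3 → S) : φ ∘ (x ⨯₃ y) = (φ ∘ x) ⨯₃ (φ ∘ y) := by
  funext i
  simp only [cross_apply, Function.comp]
  fin_cases i <;> simp

theorem map_dot (x y : Fin 3 → S) : φ (x ⬝ᵥ y) = (φ ∘ x) ⬝ᵥ (φ ∘ y) := by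
  simp [dotProduct]

theorem map_mulVec (M : Matrix (Fin 3) (Fin 3) S) (x : Fin 3 → S) :
    φ ∘ (M *ᵥ x) = (M.map φ) *ᵥ (φ ∘ x) := by
  funext i
  exact RingHom.map_mulVec φ M x i

theorem map_vecMul (M : Matrix (Fin 3) (Fin 3) S) (x : Fin 3 → S) :
    φ ∘ (x ᵥ* M) = (φ ∘ x) ᵥ* (M.map φ) := by
  funext i
  exact RingHom.map_vecMul φ M x i

theorem map_adj (M : Matrix (Fin 3) (Fin 3) S) : (adjugate M).map φ = adjugate (M.map φ) :=
  RingHom.map_adjugate φ M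

theorem map_vecMulVec (x y : Fin 3 → S) :
    (vecMulVec x y).map φ = vecMulVec (φ ∘ x) (φ ∘ y) := by
  ext i j
  simp [vecMulVec_apply]

theorem map_trB (i : Fin 3) (A : Matrix (Fin 3) (Fin 3) S) :
    φ (trB B i A) = trB (mB φ B) i (A.map φ) := by
  simp [trB, mB]

theorem map_qf (x : Fin 3 → S) (A A' : Matrix (Fin 3) (Fin 3) S) :
    φ (qf n x A A') = qf (mN φ n) (φ ∘ x) (A.map φ) (A'.map φ) := by
  simp [qf, mN]

theorem map_Nrow (A : Matrix (Fin 3) (Fin 3) S) :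
    φ ∘ Nrow n A = Nrow (mN φ n) (A.map φ) := by
  funext j
  simp [Nrow, mN]

theorem map_pp : φ ∘ pp B xi l = pp (mB φ B) (φ ∘ xi) (φ ∘ l) := by
  unfold pp
  rw [map_mulVec, map_adj, map_rows]

theorem map_mm : φ ∘ mm B et l = mm (mB φ B) (φ ∘ et) (φ ∘ l) := by
  unfold mm
  rw [map_vecMul, map_adj, map_rows]

theorem map_Bm : (Bm B et l).map φ = Bm (mB φ B) (φ ∘ et) (φ ∘ l) := by
  ext i j
  have h := fun r => congrFun (map_mm φ B et l) r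
  simp only [Function.comp] at h
  simp only [Bm, Matrix.map_apply, Matrix.sum_apply, Matrix.smul_apply, smul_eq_mul, map_sum,
    map_mul, h]
  rfl

theorem map_aa : φ ∘ aa B et ze l = aa (mB φ B) (φ ∘ et) (φ ∘ ze) (φ ∘ l) := by
  unfold aa
  rw [map_mulVec, map_adj, map_Bm]

theorem map_kap : φ (kap B xi et l) = kap (mB φ B) (φ ∘ xi) (φ ∘ et) (φ ∘ l) := by
  unfold kap
  rw [map_dot, map_pp]

theorem map_lam : φ (lam B xi et ze l) = lam (mB φ B) (φ ∘ xi) (φ ∘ et) (φ ∘ ze) (φ ∘ l) := by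
  unfold lam
  rw [map_mul, map_dot, map_kap]

theorem map_vv : (vv B xi l).map φ = vv (mB φ B) (φ ∘ xi) (φ ∘ l) := by
  unfold vv
  rw [map_vecMulVec, map_pp]

theorem map_om1 : φ ∘ om1 B n xi l = om1 (mB φ B) (mN φ n) (φ ∘ xi) (φ ∘ l) := by
  unfold om1
  rw [map_Nrow, map_vv]

theorem map_xx (w : Fin 3 → S) : φ ∘ xx l w = xx (φ ∘ l) (φ ∘ w) := by
  unfold xx
  rw [map_cross]

theorem map_Rp : (Rp B xi et ze l).map φ = Rp (mB φ B) (φ ∘ xi) (φ ∘ et) (φ ∘ ze) (φ ∘ l) := by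
  unfold Rp
  rw [← map_rows, ← map_dot, ← map_vecMulVec]
  ext i j
  simp

theorem map_gg (w : Fin 3 → S) : φ ∘ gg B xi et ze l w =
    gg (mB φ B) (φ ∘ xi) (φ ∘ et) (φ ∘ ze) (φ ∘ l) (φ ∘ w) := by
  unfold gg
  have h1 : φ ∘ (-(adjugate (Rp B xi et ze l) *ᵥ fun i => ∑ r, ∑ c, w r * B i r c *
      aa B et ze l c)) = -(φ ∘ (adjugate (Rp B xi et ze l) *ᵥ fun i => ∑ r, ∑ c, w r * B i r c *
      aa B et ze l c)) := by
    funext i; simp
  rw [h1, map_mulVec, map_adj, map_Rp, ← map_aa]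
  congr 2
  funext i
  simp [mB]

theorem map_yy (w : Fin 3 → S) : (yy B xi et ze l w).map φ =
    yy (mB φ B) (φ ∘ xi) (φ ∘ et) (φ ∘ ze) (φ ∘ l) (φ ∘ w) := by
  unfold yy
  rw [← map_lam, ← map_aa, ← map_gg, ← map_vecMulVec, ← map_vecMulVec]
  ext i j
  simp

theorem map_sf (x : Fin 3 → S) (A A' : Matrix (Fin 3) (Fin 3) S) :
    φ (sf n x A A') = sf (mN φ n) (φ ∘ x) (A.map φ) (A'.map φ) := by
  unfold sf
  rw [map_add, map_qf, map_qf]

theorem map_A2 : φ (A2 B n xi om l) = A2 (mB φ B) (mN φ n) (φ ∘ xi) (φ ∘ om) (φ ∘ l) := by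
  unfold A2
  rw [map_qf, map_xx, map_vv]

theorem map_B0 : φ (B0 B n xi et ze l) =
    B0 (mB φ B) (mN φ n) (φ ∘ xi) (φ ∘ et) (φ ∘ ze) (φ ∘ l) := by
  unfold B0
  rw [map_sf, map_xx, map_vv, map_yy, map_om1]

theorem map_B1 : φ (B1 B n xi et ze om l) =
    B1 (mB φ B) (mN φ n) (φ ∘ xi) (φ ∘ et) (φ ∘ ze) (φ ∘ om) (φ ∘ l) := by
  unfold B1
  rw [map_add, map_sf, map_sf, map_xx, map_xx, map_vv, map_yy, map_yy, map_om1]

theorem map_B2 : φ (B2 B n xi et ze om l) =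
    B2 (mB φ B) (mN φ n) (φ ∘ xi) (φ ∘ et) (φ ∘ ze) (φ ∘ om) (φ ∘ l) := by
  unfold B2
  rw [map_sf, map_xx, map_vv, map_yy]

theorem map_C0 : φ (C0 B n xi et ze l) =
    C0 (mB φ B) (mN φ n) (φ ∘ xi) (φ ∘ et) (φ ∘ ze) (φ ∘ l) := by
  unfold C0
  rw [map_qf, map_xx, map_yy, map_om1]

theorem map_C1 : φ (C1 B n xi et ze om l) =
    C1 (mB φ B) (mN φ n) (φ ∘ xi) (φ ∘ et) (φ ∘ ze) (φ ∘ om) (φ ∘ l) := by
  unfold C1
  rw [map_add, map_sf, map_qf, map_xx, map_xx, map_yy, map_yy, map_om1]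

theorem map_C2 : φ (C2 B n xi et ze om l) =
    C2 (mB φ B) (mN φ n) (φ ∘ xi) (φ ∘ et) (φ ∘ ze) (φ ∘ om) (φ ∘ l) := by
  unfold C2
  rw [map_add, map_sf, map_qf, map_xx, map_xx, map_yy, map_yy, map_om1]

theorem map_C3 : φ (C3 B n xi et ze om l) =
    C3 (mB φ B) (mN φ n) (φ ∘ xi) (φ ∘ et) (φ ∘ ze) (φ ∘ om) (φ ∘ l) := by
  unfold C3
  rw [map_qf, map_xx, map_yy]

theorem map_det_rows : φ (rows B l).det = (rows (mB φ B) (φ ∘ l)).det := by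
  rw [← map_rows]
  exact RingHom.map_det φ _

end

end Pool.Agent.Work.D9
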