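import Mathlib
import Pool.Agent.Work.MP_b62148_ag.D9.Defs
import Pool.Agent.Work.MP_b62148_ag.D9.Maps

/-!
The condition that the fibre over the first coordinate point is a smooth conic is open.
-/

namespace Pool.Agent.Work.D9.OF

open MvPolynomial Matrix

section

variable {S : Type*} [CommRing S]

/-- the six linear equations at `x` -/
def six (B : Fin 3 → Matrix (Fin 3) (Fin 3) S) (x : Fin 3 → S) :
    Matrix (Fin 3 ⊕ Fin 3) (Fin 3 × Fin 3) S :=
  Matrix.of fun a s => Sum.elim (fun i => if s.1 = i then x s.2 else 0)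
    (fun i => B i s.2 s.1) a

/-- the symmetric matrix of the quadratic form at `x` -/
def sym (n : Fin 3 → Fin 3 × Fin 3 → Fin 3 × Fin 3 → S) (x : Fin 3 → S) :
    Matrix (Fin 3 × Fin 3) (Fin 3 × Fin 3) S :=
  Matrix.of fun s t => ∑ j, x j * (n j s t + n j t s)

/-- the bordered matrix -/
def bord (B : Fin 3 → Matrix (Fin 3) (Fin 3) S)
    (n : Fin 3 → Fin 3 × Fin 3 → Fin 3 × Fin 3 → S) (x : Fin 3 → S) :
    Matrix ((Fin 3 × Fin 3) ⊕ (Fin 3 ⊕ Fin 3)) ((Fin 3 × Fin 3) ⊕ (Fin 3 ⊕ Fin 3)) S :=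
  Matrix.fromBlocks (sym n x) (six B x)ᵀ (six B x) 0

lemma six_mulVec (B : Fin 3 → Matrix (Fin 3) (Fin 3) S) (x : Fin 3 → S)
    (A : Matrix (Fin 3) (Fin 3) S) :
    six B x *ᵥ (fun s => A s.1 s.2) = Sum.elim (A *ᵥ x) (fun i => trB B i A) := by
  funext a
  rcases a with i | i
  · simp only [six, mulVec, dotProduct, Matrix.of_apply, Sum.elim_inl]
    rw [Fintype.sum_prod_type, Finset.sum_eq_single i]
    · simp [mul_comm]
    · intro b _ hb
      simp [hb]
    · simp
  · simp only [six, mulVec, dotProduct, Matrix.of_apply, Sum.elim_inr, trB]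
    rw [Fintype.sum_prod_type, Finset.sum_comm]

lemma sym_dot (n : Fin 3 → Fin 3 × Fin 3 → Fin 3 × Fin 3 → S) (x : Fin 3 → S)
    (A A' : Matrix (Fin 3) (Fin 3) S) :
    (fun s : Fin 3 × Fin 3 => A s.1 s.2) ⬝ᵥ (sym n x *ᵥ fun s => A' s.1 s.2)
      = qf n x A A' + qf n x A' A := by
  have key : ∀ f : Fin 3 → Fin 3 × Fin 3 → Fin 3 × Fin 3 → S,
      ∑ s, ∑ t, ∑ j, f j s t = ∑ j, ∑ s, ∑ t, f j s t := by
    intro f
    calc ∑ s, ∑ t, ∑ j, f j s t = ∑ s, ∑ j, ∑ t, f j s t :=
          Finset.sum_congr rfl fun s _ => Finset.sum_comm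
      _ = ∑ j, ∑ s, ∑ t, f j s t := Finset.sum_comm
  have h1 : (fun s : Fin 3 × Fin 3 => A s.1 s.2) ⬝ᵥ (sym n x *ᵥ fun s => A' s.1 s.2)
      = ∑ s : Fin 3 × Fin 3, ∑ t : Fin 3 × Fin 3, ∑ j,
        (x j * (n j s t * A s.1 s.2 * A' t.1 t.2) + x j * (n j t s * A' t.1 t.2 * A s.1 s.2)) := by
    simp only [dotProduct, mulVec, sym, Matrix.of_apply, Finset.mul_sum, Finset.sum_mul]
    refine Finset.sum_congr rfl fun s _ => Finset.sum_congr rfl fun t _ =>
      Finset.sum_congr rfl fun j _ => by ring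
  rw [h1, key (fun j s t => x j * (n j s t * A s.1 s.2 * A' t.1 t.2)
    + x j * (n j t s * A' t.1 t.2 * A s.1 s.2))]
  simp only [Finset.sum_add_distrib, qf, Finset.mul_sum]
  congr 1
  refine Finset.sum_congr rfl fun j _ => ?_
  rw [Finset.sum_comm]

lemma six_map {T : Type*} [CommRing T] (φ : S →+* T) (B : Fin 3 → Matrix (Fin 3) (Fin 3) S)
    (x : Fin 3 → S) : (six B x).map φ = six (mB φ B) (φ ∘ x) := by
  ext a s
  rcases a with i | i
  · simp [six, apply_ite φ]
  · simp [six, mB]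

lemma sym_map {T : Type*} [CommRing T] (φ : S →+* T)
    (n : Fin 3 → Fin 3 × Fin 3 → Fin 3 × Fin 3 → S) (x : Fin 3 → S) :
    (sym n x).map φ = sym (mN φ n) (φ ∘ x) := by
  ext s t
  simp [sym, mN]

lemma bord_map {T : Type*} [CommRing T] (φ : S →+* T) (B : Fin 3 → Matrix (Fin 3) (Fin 3) S)
    (n : Fin 3 → Fin 3 × Fin 3 → Fin 3 × Fin 3 → S) (x : Fin 3 → S) :
    (bord B n x).map φ = bord (mB φ B) (mN φ n) (φ ∘ x) := by
  unfold bord
  rw [Matrix.fromBlocks_map, six_map, sym_map, ← six_map, Matrix.transpose_map]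
  congr 1
  ext a b
  simp

end

section field

variable {F : Type*} [Field F]

/-- if the bordered determinant does not vanish, then the fibre is a smooth conic -/
theorem smooth_of_bord (B : Fin 3 → Matrix (Fin 3) (Fin 3) F)
    (n : Fin 3 → Fin 3 × Fin 3 → Fin 3 × Fin 3 → F) (x : Fin 3 → F)
    (h : (bord B n x).det ≠ 0) : SmoothFibre B n x := by
  have hsurj : ∀ (c : Fin 3 × Fin 3 → F) (d : Fin 3 ⊕ Fin 3 → F),
      ∃ (A : Matrix (Fin 3) (Fin 3) F) (w : Fin 3 ⊕ Fin 3 → F),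
        sym n x *ᵥ (fun s => A s.1 s.2) + (six B x)ᵀ *ᵥ w = c ∧
        Sum.elim (A *ᵥ x) (fun i => trB B i A) = d := by
    intro c d
    have hu : IsUnit (bord B n x) := (Matrix.isUnit_iff_isUnit_det _).mpr (isUnit_iff_ne_zero.mpr h)
    obtain ⟨v, hv⟩ := (Matrix.mulVec_surjective_iff_isUnit.mpr hu) (Sum.elim c d)
    refine ⟨Matrix.of fun r s => v (Sum.inl (r, s)), fun a => v (Sum.inr a), ?_, ?_⟩
    · funext s
      have h1 := congrFun hv (Sum.inl s)
      rw [Sum.elim_inl] at h1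
      rw [← h1]
      unfold bord
      rw [Matrix.fromBlocks_mulVec, Sum.elim_inl]
      rfl
    · rw [← six_mulVec]
      funext a
      have h1 := congrFun hv (Sum.inr a)
      rw [Sum.elim_inr] at h1
      rw [← h1]
      unfold bord
      rw [Matrix.fromBlocks_mulVec, Sum.elim_inr, Matrix.zero_mulVec, add_zero]
      rfl
  refine ⟨?_, ?_⟩
  · intro y z
    obtain ⟨A, w, -, h2⟩ := hsurj 0 (Sum.elim y z)
    refine ⟨A, ?_, ?_⟩
    · funext i
      exact congrFun h2 (Sum.inl i)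
    · intro i
      exact congrFun h2 (Sum.inr i)
  · intro A hA1 hA2 hA3
    ext r c
    obtain ⟨A', w, h1, h2⟩ := hsurj (Pi.single (r, c) 1) 0
    have hA' : A' *ᵥ x = 0 := by
      funext i
      exact congrFun h2 (Sum.inl i)
    have hB' : ∀ i, trB B i A' = 0 := fun i => congrFun h2 (Sum.inr i)
    have h3 : (fun s : Fin 3 × Fin 3 => A s.1 s.2) ⬝ᵥ
        (sym n x *ᵥ (fun s => A' s.1 s.2) + (six B x)ᵀ *ᵥ w)
        = (fun s : Fin 3 × Fin 3 => A s.1 s.2) ⬝ᵥ Pi.single (r, c) 1 := by rw [h1]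
    rw [dotProduct_add, sym_dot, hA3 A' hA' hB', zero_add, dotProduct_mulVec, vecMul_transpose,
      six_mulVec, hA1, dotProduct_single_one] at h3
    have h4 : (Sum.elim (0 : Fin 3 → F) fun i => trB B i A) = 0 := by
      funext a
      rcases a with i | i
      · rfl
      · exact hA2 i
    rw [h4, zero_dotProduct] at h3
    exact h3.symm

/-- the matrices of the witness -/
def wB (F : Type*) [Field F] : Fin 3 → Matrix (Fin 3) (Fin 3) F :=
  fun i => Matrix.of fun r c => if r = 1 ∧ c = i then 1 else 0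

/-- the quadratic vector of the witness -/
def wn (F : Type*) [Field F] : Fin 3 → Fin 3 × Fin 3 → Fin 3 × Fin 3 → F :=
  fun j s t => if j = 0 ∧ s = t ∧ s.2 = 2 then 1 else 0

theorem bord_witness [CharZero F] : (bord (wB F) (wn F) (Pi.single 0 1)).det ≠ 0 := by
  intro h0
  obtain ⟨v, hv0, hv⟩ := Matrix.exists_mulVec_eq_zero_iff.mpr h0
  apply hv0
  set A : Matrix (Fin 3) (Fin 3) F := Matrix.of fun r s => v (Sum.inl (r, s)) with hA
  set w : Fin 3 ⊕ Fin 3 → F := fun a => v (Sum.inr a) with hw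
  have e1 : ∀ s, (sym (wn F) (Pi.single 0 1) *ᵥ (fun s => A s.1 s.2)) s
      + ((six (wB F) (Pi.single 0 1))ᵀ *ᵥ w) s = 0 := by
    intro s
    have h1 := congrFun hv (Sum.inl s)
    unfold bord at h1
    rw [Matrix.fromBlocks_mulVec, Sum.elim_inl] at h1
    exact h1
  have e2 : (Sum.elim (A *ᵥ Pi.single 0 1) (fun i => trB (wB F) i A) : Fin 3 ⊕ Fin 3 → F) = 0 := by
    rw [← six_mulVec]
    funext a
    have h1 := congrFun hv (Sum.inr a)
    unfold bord at h1
    rw [Matrix.fromBlocks_mulVec, Sum.elim_inr, Matrix.zero_mulVec, add_zero] at h1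
    exact h1
  have c0 : ∀ i, A i 0 = 0 := by
    intro i
    have h1 := congrFun e2 (Sum.inl i)
    rw [Sum.elim_inl, Matrix.mulVec_single_one] at h1
    exact h1
  have c1 : ∀ i, A i 1 = 0 := by
    intro i
    have h1 := congrFun e2 (Sum.inr i)
    rw [Sum.elim_inr] at h1
    rw [← Pi.zero_apply (M := fun _ => F) (Sum.inr i : Fin 3 ⊕ Fin 3), ← h1]
    fin_cases i <;> simp [trB, wB, Fin.sum_univ_three]
  have c2 : ∀ i, A i 2 = 0 := by
    intro i
    have h1 := e1 (i, 2)
    simp only [sym, six, wn, wB, mulVec, dotProduct, Matrix.of_apply, Matrix.transpose_apply,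
      Fintype.sum_prod_type, Fin.sum_univ_three, Fintype.sum_sum_type] at h1
    fin_cases i <;> simp at h1 <;> simpa using h1
  have d0 : ∀ i, w (Sum.inl i) = 0 := by
    intro i
    have h1 := e1 (i, 0)
    simp only [sym, six, wn, wB, mulVec, dotProduct, Matrix.of_apply, Matrix.transpose_apply,
      Fintype.sum_prod_type, Fin.sum_univ_three, Fintype.sum_sum_type] at h1
    fin_cases i <;> simpa using h1
  have d1 : ∀ i, w (Sum.inr i) = 0 := by
    intro i
    have h1 := e1 (i, 1)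
    simp only [sym, six, wn, wB, mulVec, dotProduct, Matrix.of_apply, Matrix.transpose_apply,
      Fintype.sum_prod_type, Fin.sum_univ_three, Fintype.sum_sum_type] at h1
    fin_cases i <;> simpa using h1
  funext a
  rcases a with ⟨i, j⟩ | i | i
  · fin_cases j
    · exact c0 i
    · exact c1 i
    · exact c2 i
  · exact d0 i
  · exact d1 i

end field

section generic

/-- the index set of the coefficients -/
abbrev Ix := (Fin 3 × Fin 3 × Fin 3) ⊕ (Fin 3 × (Fin 3 × Fin 3) × (Fin 3 × Fin 3))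

/-- the parameters as a point of an affine space -/
def prm {S : Type*} (B : Fin 3 → Matrix (Fin 3) (Fin 3) S)
    (n : Fin 3 → Fin 3 × Fin 3 → Fin 3 × Fin 3 → S) : Ix → S :=
  Sum.elim (fun t => B t.1 t.2.1 t.2.2) (fun t => n t.1 t.2.1 t.2.2)

/-- the bordered determinant of the generic parameters -/
noncomputable def PhiF : MvPolynomial Ix ℚ :=
  (bord (fun i => Matrix.of fun r c => X (Sum.inl (i, r, c)))
    (fun j s t => X (Sum.inr (j, s, t))) (Pi.single 0 1)).det

theorem aeval_PhiF {F : Type*} [Field F] [Algebra ℚ F] (B : Fin 3 → Matrix (Fin 3) (Fin 3) F)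
    (n : Fin 3 → Fin 3 × Fin 3 → Fin 3 × Fin 3 → F) :
    aeval (prm B n) PhiF = (bord B n (Pi.single 0 1)).det := by
  unfold PhiF
  rw [← AlgHom.coe_toRingHom, RingHom.map_det, RingHom.mapMatrix_apply, bord_map]
  congr 2
  · funext i
    ext r c
    simp [mB, prm]
  · funext j s t
    simp [mN, prm]
  · funext i
    simp only [Function.comp]
    by_cases h : i = 0
    · subst h; simp
    · simp [h]

/-- (F): the smoothness of the fibre over the first coordinate point is open -/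
theorem open_fibre : PhiF ≠ 0 ∧ ∀ (F : Type*) [Field F] [CharZero F] [Algebra ℚ F]
    (B : Fin 3 → Matrix (Fin 3) (Fin 3) F) (n : Fin 3 → Fin 3 × Fin 3 → Fin 3 × Fin 3 → F),
    aeval (prm B n) PhiF ≠ 0 → SmoothFibre B n (Pi.single 0 1) := by
  refine ⟨?_, ?_⟩
  · intro h0
    apply bord_witness (F := ℚ)
    rw [← aeval_PhiF, h0, map_zero]
  · intro F _ _ _ B n h
    rw [aeval_PhiF] at h
    exact smooth_of_bord B n _ h

end generic

end Pool.Agent.Work.D9.OF
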