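import Mathlib
import Pool.Agent.Work.MP_b62148_ag.D9.OpenF

/-!
The discriminant form of `X`: the bordered determinant is a form of degree nine, the fibre over `x`
is a smooth conic exactly where it does not vanish, and if its zero curve is smooth, then `X` is
smooth.
-/

namespace Pool.Agent.Work.D9.DS

open MvPolynomial Matrix OF

section basic

variable {S T : Type*} [CommRing S] [CommRing T]

/-- the discriminant form -/
noncomputable def disc (B : Fin 3 → Matrix (Fin 3) (Fin 3) S)
    (n : Fin 3 → Fin 3 × Fin 3 → Fin 3 × Fin 3 → S) : MvPolynomial (Fin 3) S :=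
  (bord (mB (C : S →+* MvPolynomial (Fin 3) S) B) (mN (C : S →+* MvPolynomial (Fin 3) S) n) X).det

theorem hom_disc (φ : S →+* T) (f : MvPolynomial (Fin 3) S →+* T) (x : Fin 3 → T)
    (hC : ∀ a, f (C a) = φ a) (hX : ∀ i, f (X i) = x i)
    (B : Fin 3 → Matrix (Fin 3) (Fin 3) S) (n : Fin 3 → Fin 3 × Fin 3 → Fin 3 × Fin 3 → S) :
    f (disc B n) = (bord (mB φ B) (mN φ n) x).det := by
  unfold disc
  rw [RingHom.map_det, RingHom.mapMatrix_apply, bord_map]
  have h1 : mB f (mB (C : S →+* MvPolynomial (Fin 3) S) B) = mB φ B := by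
    funext i
    ext r c
    simp [mB, hC]
  have h2 : mN f (mN (C : S →+* MvPolynomial (Fin 3) S) n) = mN φ n := by
    funext j s t
    simp [mN, hC]
  have h3 : f ∘ (X : Fin 3 → MvPolynomial (Fin 3) S) = x := by
    funext i
    exact hX i
  rw [h1, h2, h3]

theorem eval_disc (B : Fin 3 → Matrix (Fin 3) (Fin 3) S)
    (n : Fin 3 → Fin 3 × Fin 3 → Fin 3 × Fin 3 → S) (x : Fin 3 → S) :
    eval x (disc B n) = (bord B n x).det := by
  have h := hom_disc (RingHom.id S) (eval x) x (fun a => by simp) (fun i => by simp) B n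
  have h1 : mB (RingHom.id S) B = B := by
    funext i
    ext r c
    simp [mB]
  have h2 : mN (RingHom.id S) n = n := by
    funext j s t
    simp [mN]
  rw [h1, h2] at h
  exact h

theorem map_disc (φ : S →+* T) (B : Fin 3 → Matrix (Fin 3) (Fin 3) S)
    (n : Fin 3 → Fin 3 × Fin 3 → Fin 3 × Fin 3 → S) :
    map φ (disc B n) = disc (mB φ B) (mN φ n) := by
  have h := hom_disc ((C : T →+* MvPolynomial (Fin 3) T).comp φ)
    (map φ : MvPolynomial (Fin 3) S →+* MvPolynomial (Fin 3) T) X (fun a => by simp)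
    (fun i => by simp) B n
  rw [h]
  rfl

theorem det_hom' {A τ m : Type*} [CommRing A] [Fintype m] [DecidableEq m]
    (M : Matrix m m (MvPolynomial τ A)) (r c : m → ℤ) (D : ℕ) (hD : ∑ a, r a + ∑ a, c a = D)
    (h : ∀ a b, M a b = 0 ∨ ∃ d : ℕ, (M a b).IsHomogeneous d ∧ (d : ℤ) = r a + c b) :
    M.det.IsHomogeneous D := by
  rw [Matrix.det_apply]
  refine IsHomogeneous.sum _ _ _ fun σ _ => ?_
  rw [Units.smul_def]
  have h0 : (∏ i, M (σ i) i).IsHomogeneous D := by
    by_cases hz : ∃ i, M (σ i) i = 0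
    · obtain ⟨i, hi⟩ := hz
      have h1 : ∏ i, M (σ i) i = 0 := Finset.prod_eq_zero (Finset.mem_univ i) hi
      rw [h1]
      exact isHomogeneous_zero _ _ _
    · push Not at hz
      choose d hd hd' using fun i => (h (σ i) i).resolve_left (hz i)
      have h1 := IsHomogeneous.prod Finset.univ (fun i => M (σ i) i) d fun i _ => hd i
      have h2 : ∑ i, d i = D := by
        have h3 : ((∑ i, d i : ℕ) : ℤ) = D := by
          push_cast
          rw [Finset.sum_congr rfl fun i _ => hd' i, Finset.sum_add_distrib,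
            Equiv.sum_comp σ r, hD]
        exact_mod_cast h3
      rw [h2] at h1
      exact h1
  have h2 : (∏ i, M (σ i) i) ∈ homogeneousSubmodule τ A D := h0
  exact zsmul_mem h2 _

theorem disc_hom (B : Fin 3 → Matrix (Fin 3) (Fin 3) S)
    (n : Fin 3 → Fin 3 × Fin 3 → Fin 3 × Fin 3 → S) : (disc B n).IsHomogeneous 9 := by
  unfold disc
  refine det_hom' _ (Sum.elim (fun _ => 1) (Sum.elim (fun _ => 1) (fun _ => 0)))
    (Sum.elim (fun _ => 0) (Sum.elim (fun _ => 0) (fun _ => -1))) 9 ?_ ?_
  · simp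
  · rintro (s | i | i) (t | k | k)
    · right
      refine ⟨1, ?_, by simp⟩
      show (∑ j, X j * (C (n j s t) + C (n j t s)) : MvPolynomial (Fin 3) S).IsHomogeneous 1
      refine IsHomogeneous.sum _ _ _ fun j _ => ?_
      exact (isHomogeneous_X S j).mul ((isHomogeneous_C _ _).add (isHomogeneous_C _ _))
    · right
      refine ⟨1, ?_, by simp⟩
      show (if s.1 = k then X s.2 else 0 : MvPolynomial (Fin 3) S).IsHomogeneous 1
      split_ifs
      · exact isHomogeneous_X _ _
      · exact isHomogeneous_zero _ _ _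
    · right
      exact ⟨0, isHomogeneous_C _ _, by simp⟩
    · right
      refine ⟨1, ?_, by simp⟩
      show (if t.1 = i then X t.2 else 0 : MvPolynomial (Fin 3) S).IsHomogeneous 1
      split_ifs
      · exact isHomogeneous_X _ _
      · exact isHomogeneous_zero _ _ _
    · left; rfl
    · left; rfl
    · right
      exact ⟨0, isHomogeneous_C _ _, by simp⟩
    · left; rfl
    · left; rfl

theorem bord_add (B : Fin 3 → Matrix (Fin 3) (Fin 3) S)
    (n : Fin 3 → Fin 3 × Fin 3 → Fin 3 × Fin 3 → S) (x e : Fin 3 → S) (t : S)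
    (a b : (Fin 3 × Fin 3) ⊕ (Fin 3 ⊕ Fin 3)) :
    bord B n (fun i => x i + t * e i) a b = bord B n x a b + t * bord 0 n e a b := by
  have h6 : ∀ (a : Fin 3 ⊕ Fin 3) (s : Fin 3 × Fin 3),
      six B (fun i => x i + t * e i) a s = six B x a s + t * six 0 e a s := by
    intro a s
    rcases a with a | a
    · simp only [six, Matrix.of_apply, Sum.elim_inl]
      split_ifs <;> ring
    · simp [six]
  rcases a with a | a <;> rcases b with b | b
  · simp only [bord, Matrix.fromBlocks_apply₁₁, sym, Matrix.of_apply, Finset.mul_sum,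
      ← Finset.sum_add_distrib]
    exact Finset.sum_congr rfl fun j _ => by ring
  · simp only [bord, Matrix.fromBlocks_apply₁₂, Matrix.transpose_apply]
    exact h6 b a
  · simp only [bord, Matrix.fromBlocks_apply₂₁]
    exact h6 a b
  · simp [bord]

end basic

section field

variable {F : Type*} [Field F]

/-- a vector of the kernel of the bordered matrix -/
theorem bord_ker (B : Fin 3 → Matrix (Fin 3) (Fin 3) F)
    (n : Fin 3 → Fin 3 × Fin 3 → Fin 3 × Fin 3 → F) (x : Fin 3 → F)
    (A : Matrix (Fin 3) (Fin 3) F) (w : Fin 3 ⊕ Fin 3 → F) :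
    bord B n x *ᵥ Sum.elim (fun s => A s.1 s.2) w =
      Sum.elim (sym n x *ᵥ (fun s => A s.1 s.2) + (six B x)ᵀ *ᵥ w) (six B x *ᵥ fun s => A s.1 s.2) := by
  unfold bord
  rw [Matrix.fromBlocks_mulVec, Matrix.zero_mulVec, add_zero]
  rfl

theorem smoothFibre_iff (B : Fin 3 → Matrix (Fin 3) (Fin 3) F)
    (n : Fin 3 → Fin 3 × Fin 3 → Fin 3 × Fin 3 → F) (x : Fin 3 → F) :
    SmoothFibre B n x ↔ eval x (disc B n) ≠ 0 := by
  rw [eval_disc]
  refine ⟨fun h h0 => ?_, smooth_of_bord B n x⟩
  obtain ⟨v, hv0, hv⟩ := Matrix.exists_mulVec_eq_zero_iff.mpr h0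
  apply hv0
  set A : Matrix (Fin 3) (Fin 3) F := Matrix.of fun r s => v (Sum.inl (r, s)) with hA
  set w : Fin 3 ⊕ Fin 3 → F := fun a => v (Sum.inr a) with hw
  have hv' : v = Sum.elim (fun s => A s.1 s.2) w := by
    funext a
    rcases a with a | a <;> rfl
  rw [hv', bord_ker, six_mulVec] at hv
  have e1 : sym n x *ᵥ (fun s => A s.1 s.2) + (six B x)ᵀ *ᵥ w = 0 := by
    funext s
    exact congrFun hv (Sum.inl s)
  have e2 : ∀ a, (Sum.elim (A *ᵥ x) (fun i => trB B i A) : Fin 3 ⊕ Fin 3 → F) a = 0 :=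
    fun a => congrFun hv (Sum.inr a)
  have hdot : ∀ A' : Matrix (Fin 3) (Fin 3) F,
      (fun s : Fin 3 × Fin 3 => A' s.1 s.2) ⬝ᵥ ((six B x)ᵀ *ᵥ w) =
        (Sum.elim (A' *ᵥ x) (fun i => trB B i A')) ⬝ᵥ w := by
    intro A'
    rw [dotProduct_mulVec, vecMul_transpose, six_mulVec]
  have hA0 : A = 0 := by
    refine h.nondeg A ?_ ?_ ?_
    · funext i
      exact e2 (Sum.inl i)
    · intro i
      exact e2 (Sum.inr i)
    · intro A' h1 h2
      have h3 : (fun s : Fin 3 × Fin 3 => A' s.1 s.2) ⬝ᵥ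
          (sym n x *ᵥ (fun s => A s.1 s.2) + (six B x)ᵀ *ᵥ w) = 0 := by
        rw [e1, dotProduct_zero]
      rw [dotProduct_add, sym_dot, hdot, h1] at h3
      have h4 : (Sum.elim (0 : Fin 3 → F) fun i => trB B i A') = 0 := by
        funext a
        rcases a with i | i
        · rfl
        · exact h2 i
      rw [h4, zero_dotProduct, add_zero] at h3
      rw [add_comm]
      exact h3
  have hw0 : w = 0 := by
    rw [hA0] at e1
    have h1 : sym n x *ᵥ (fun s : Fin 3 × Fin 3 => (0 : Matrix (Fin 3) (Fin 3) F) s.1 s.2) = 0 := by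
      have : (fun s : Fin 3 × Fin 3 => (0 : Matrix (Fin 3) (Fin 3) F) s.1 s.2) = 0 := rfl
      rw [this, Matrix.mulVec_zero]
    rw [h1, zero_add] at e1
    funext a
    obtain ⟨A', h2, h3⟩ := h.surj (fun i => (Pi.single a 1 : Fin 3 ⊕ Fin 3 → F) (Sum.inl i))
      (fun i => (Pi.single a 1 : Fin 3 ⊕ Fin 3 → F) (Sum.inr i))
    have h4 := hdot A'
    rw [e1, dotProduct_zero] at h4
    have h5 : (Sum.elim (A' *ᵥ x) (fun i => trB B i A') : Fin 3 ⊕ Fin 3 → F) = Pi.single a 1 := by
      funext b
      rcases b with i | i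
      · exact congrFun h2 i
      · exact h3 i
    rw [h5, single_one_dotProduct] at h4
    exact h4.symm
  rw [hv', hA0, hw0]
  funext a
  rcases a with a | a <;> rfl

/-- derivative of the restriction to a line in a coordinate direction -/
theorem pderiv_line {τ : Type*} [DecidableEq τ] (P : MvPolynomial τ F) (x : τ → F) (j : τ) :
    ((P.eval₂ Polynomial.C
      (fun i => Polynomial.C (x i) + Polynomial.X * Polynomial.C ((Pi.single j (1 : F) : τ → F) i))).derivative).eval
        0 = eval x (pderiv j P) := by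
  have h0 : ∀ P : MvPolynomial τ F, (P.eval₂ Polynomial.C
      (fun i => Polynomial.C (x i) + Polynomial.X * Polynomial.C ((Pi.single j (1 : F) : τ → F) i))).eval 0 =
        eval x P := by
    intro P
    induction P using MvPolynomial.induction_on with
    | C a => simp
    | add p q hp hq => rw [eval₂_add, Polynomial.eval_add, hp, hq, map_add]
    | mul_X p i hp =>
      rw [eval₂_mul, Polynomial.eval_mul, hp, map_mul, eval₂_X, eval_X]
      simp
  induction P using MvPolynomial.induction_on with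
  | C a => simp
  | add p q hp hq =>
    rw [eval₂_add, Polynomial.derivative_add, Polynomial.eval_add, hp, hq, map_add, map_add]
  | mul_X p i hp =>
    have h1 := h0 p
    rw [eval₂_mul, Polynomial.derivative_mul, Polynomial.eval_add, Polynomial.eval_mul,
      Polynomial.eval_mul, hp, h1, eval₂_X, Derivation.leibniz, pderiv_X, map_add]
    by_cases hi : i = j
    · rw [hi]
      simp
      ring
    · simp [hi]
      ring

/-- the derivative of the determinant of a symmetric matrix at a singular point -/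
theorem sing {m : Type*} [Fintype m] [DecidableEq m] (M H : Matrix m m F)
    (hM : ∀ a b, M a b = M b a) (hH : ∀ a b, H a b = H b a) (v : m → F) (hv : v ≠ 0)
    (h1 : M *ᵥ v = 0) (h2 : v ⬝ᵥ (H *ᵥ v) = 0) :
    ((Matrix.of fun a b => Polynomial.C (M a b) + Polynomial.X * Polynomial.C (H a b)).det.derivative).eval
      0 = 0 := by
  obtain ⟨i₀, hi₀⟩ := Function.ne_iff.1 hv
  set Mt : Matrix m m (Polynomial F) :=
    Matrix.of fun a b => Polynomial.C (M a b) + Polynomial.X * Polynomial.C (H a b) with hMt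
  set u : m → Polynomial F := fun k => Polynomial.C ((H *ᵥ v) k) with hu
  have a1 : (Mt.updateCol i₀ (fun k => ∑ i, Polynomial.C (v i) • Mt k i)).det =
      Polynomial.C (v i₀) • Mt.det := det_updateCol_sum Mt i₀ fun i => Polynomial.C (v i)
  have a2 : (fun k => ∑ i, Polynomial.C (v i) • Mt k i) = (Polynomial.X : Polynomial F) • u := by
    funext k
    have h3 : ∑ i, M k i * v i = 0 := congrFun h1 k
    have h4 : ∀ i, Polynomial.C (v i) • Mt k i =
        Polynomial.C (M k i * v i) + Polynomial.X * Polynomial.C (H k i * v i) := by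
      intro i
      simp only [hMt, Matrix.of_apply, smul_eq_mul, map_mul]
      ring
    rw [Finset.sum_congr rfl fun i _ => h4 i, Finset.sum_add_distrib, ← map_sum, h3, map_zero,
      zero_add, ← Finset.mul_sum, ← map_sum]
    rfl
  rw [a2, det_updateCol_smul] at a1
  set M' := Mt.updateCol i₀ u with hM'
  have b1 : (M'.updateRow i₀ (∑ k, Polynomial.C (v k) • M' k)).det =
      Polynomial.C (v i₀) • M'.det := det_updateRow_sum M' i₀ fun i => Polynomial.C (v i)
  have b2 : ∑ k, Polynomial.C (v k) • M' k =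
      (Polynomial.X : Polynomial F) • (fun c => if c = i₀ then 0 else u c) := by
    funext c
    rw [Finset.sum_apply, Pi.smul_apply, smul_eq_mul]
    by_cases hc : c = i₀
    · rw [if_pos hc, mul_zero, hc]
      have h4 : ∀ k, (Polynomial.C (v k) • M' k) i₀ = Polynomial.C (v k * (H *ᵥ v) k) := by
        intro k
        rw [Pi.smul_apply, hM', updateCol_self, smul_eq_mul, hu, map_mul]
      rw [Finset.sum_congr rfl fun k _ => h4 k, ← map_sum]
      have h5 : ∑ k, v k * (H *ᵥ v) k = 0 := h2
      rw [h5, map_zero]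
    · rw [if_neg hc]
      have h4 : ∀ k, (Polynomial.C (v k) • M' k) c =
          Polynomial.C (M c k * v k) + Polynomial.X * Polynomial.C (H c k * v k) := by
        intro k
        rw [Pi.smul_apply, hM', updateCol_ne hc, hMt, Matrix.of_apply, smul_eq_mul, hM k c, hH k c]
        simp only [map_mul]
        ring
      have h3 : ∑ i, M c i * v i = 0 := congrFun h1 c
      rw [Finset.sum_congr rfl fun i _ => h4 i, Finset.sum_add_distrib, ← map_sum, h3, map_zero,
        zero_add, ← Finset.mul_sum, ← map_sum]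
      rfl
  rw [b2, det_updateRow_smul] at b1
  set N := (M'.updateRow i₀ (fun c => if c = i₀ then 0 else u c)).det
  have h3 : Polynomial.C (v i₀ ^ 2) * Mt.det = Polynomial.X ^ 2 * N := by
    rw [smul_eq_mul] at a1 b1
    rw [map_pow]
    linear_combination (-Polynomial.C (v i₀)) * a1 - Polynomial.X * b1
  have h4 := congrArg (fun p => (Polynomial.derivative p).eval 0) h3
  simp only [Polynomial.derivative_mul, Polynomial.derivative_X_pow, Polynomial.derivative_C,
    Polynomial.eval_add, Polynomial.eval_mul, Polynomial.eval_C, Polynomial.eval_pow,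
    Polynomial.eval_X, zero_mul, zero_add] at h4
  have h5 : v i₀ ^ 2 ≠ 0 := pow_ne_zero 2 hi₀
  have h6 : v i₀ ^ 2 * (Polynomial.derivative Mt.det).eval 0 = 0 := by
    rw [h4]
    simp
  exact (mul_eq_zero.1 h6).resolve_left h5

/-- the partial derivative of the discriminant at a point with a kernel vector -/
theorem pderiv_disc_zero (B : Fin 3 → Matrix (Fin 3) (Fin 3) F)
    (n : Fin 3 → Fin 3 × Fin 3 → Fin 3 × Fin 3 → F) (x : Fin 3 → F)
    (A : Matrix (Fin 3) (Fin 3) F) (w : Fin 3 ⊕ Fin 3 → F)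
    (hv : A ≠ 0 ∨ w ≠ 0)
    (e1 : sym n x *ᵥ (fun s => A s.1 s.2) + (six B x)ᵀ *ᵥ w = 0)
    (e2 : six B x *ᵥ (fun s => A s.1 s.2) = 0) (j : Fin 3)
    (e3 : 2 * (∑ s, ∑ t, n j s t * A s.1 s.2 * A t.1 t.2) + 2 * ∑ i, w (Sum.inl i) * A i j = 0) :
    eval x (pderiv j (disc B n)) = 0 := by
  classical
  rw [← pderiv_line]
  let H : Matrix ((Fin 3 × Fin 3) ⊕ (Fin 3 ⊕ Fin 3)) ((Fin 3 × Fin 3) ⊕ (Fin 3 ⊕ Fin 3)) F :=
    bord 0 n (Pi.single j 1)
  have hsymm : ∀ (B : Fin 3 → Matrix (Fin 3) (Fin 3) F) (x : Fin 3 → F) a b,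
      bord B n x a b = bord B n x b a := by
    intro B x a b
    rcases a with a | a <;> rcases b with b | b
    · show (∑ j, x j * (n j a b + n j b a)) = ∑ j, x j * (n j b a + n j a b)
      exact Finset.sum_congr rfl fun j _ => by rw [add_comm]
    · rfl
    · rfl
    · rfl
  set v : (Fin 3 × Fin 3) ⊕ (Fin 3 ⊕ Fin 3) → F := Sum.elim (fun s => A s.1 s.2) w with hvdef
  have h1 : bord B n x *ᵥ v = 0 := by
    rw [hvdef, bord_ker, e1, e2]
    funext a
    rcases a with a | a <;> rfl
  have h2 : v ⬝ᵥ (H *ᵥ v) = 0 := by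
    have h3 : H *ᵥ v = Sum.elim (sym n (Pi.single j 1) *ᵥ (fun s => A s.1 s.2) +
        (six 0 (Pi.single j 1))ᵀ *ᵥ w) (six 0 (Pi.single j 1) *ᵥ fun s => A s.1 s.2) :=
      bord_ker _ _ _ _ _
    rw [h3, hvdef, sumElim_dotProduct_sumElim, dotProduct_add, sym_dot, dotProduct_mulVec,
      vecMul_transpose, six_mulVec]
    have h4 : (Sum.elim (A *ᵥ Pi.single j 1) (fun i => trB (0 : Fin 3 → Matrix (Fin 3) (Fin 3) F) i A)
        : Fin 3 ⊕ Fin 3 → F) ⬝ᵥ w = ∑ i, w (Sum.inl i) * A i j := by
      rw [dotProduct, Fintype.sum_sum_type]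
      have h5 : ∑ i : Fin 3, (Sum.elim (A *ᵥ Pi.single j 1)
          (fun i => trB (0 : Fin 3 → Matrix (Fin 3) (Fin 3) F) i A) : Fin 3 ⊕ Fin 3 → F) (Sum.inr i) *
          w (Sum.inr i) = 0 := by
        refine Finset.sum_eq_zero fun i _ => ?_
        simp [trB]
      rw [h5, add_zero]
      refine Finset.sum_congr rfl fun i _ => ?_
      rw [Sum.elim_inl, Matrix.mulVec_single_one, mul_comm]
      rfl
    rw [dotProduct_comm w, h4]
    have h6 : qf n (Pi.single j 1) A A = ∑ s, ∑ t, n j s t * A s.1 s.2 * A t.1 t.2 := by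
      unfold qf
      rw [Finset.sum_eq_single j]
      · rw [Pi.single_eq_same, one_mul]
      · intro b _ hb
        rw [Pi.single_eq_of_ne hb, zero_mul]
      · simp
    rw [h6]
    linear_combination e3
  have hv0 : v ≠ 0 := by
    intro h0
    rcases hv with h | h
    · apply h
      ext r c
      exact congrFun h0 (Sum.inl (r, c))
    · apply h
      funext a
      exact congrFun h0 (Sum.inr a)
  have key := sing (bord B n x) H (hsymm B x) (hsymm 0 _) v hv0 h1 h2
  have h7 : (disc B n).eval₂ Polynomial.C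
      (fun i => Polynomial.C (x i) + Polynomial.X * Polynomial.C ((Pi.single j (1 : F) : Fin 3 → F) i)) =
      (Matrix.of fun a b => Polynomial.C (bord B n x a b) + Polynomial.X * Polynomial.C (H a b)).det := by
    have h8 := hom_disc (Polynomial.C : F →+* Polynomial F) (eval₂Hom Polynomial.C
      (fun i => Polynomial.C (x i) + Polynomial.X * Polynomial.C ((Pi.single j (1 : F) : Fin 3 → F) i)))
      (fun i => Polynomial.C (x i) + Polynomial.X * Polynomial.C ((Pi.single j (1 : F) : Fin 3 → F) i))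
      (fun a => by simp) (fun i => by simp) B n
    refine h8.trans ?_
    congr 1
    apply Matrix.ext
    intro a b
    rw [bord_add, Matrix.of_apply]
    have h9 := congrFun (congrFun (bord_map (Polynomial.C : F →+* Polynomial F) B n x) a) b
    have h10 := congrFun (congrFun (bord_map (Polynomial.C : F →+* Polynomial F) 0 n
      (Pi.single j 1)) a) b
    have h11 : mB (Polynomial.C : F →+* Polynomial F) 0 = 0 := by
      funext i
      ext r c
      simp [mB]
    rw [h11] at h10
    rw [Matrix.map_apply] at h9 h10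
    rw [h9, h10]
    rfl
  rw [h7]
  exact key

theorem surj_of_left {m p : Type*} [Fintype m] [Fintype p] [DecidableEq m] [DecidableEq p]
    (J : Matrix m p F) (h : ∀ u : m → F, u ᵥ* J = 0 → u = 0) : Function.Surjective J.mulVec := by
  have hT : LinearMap.range J.mulVecLin = ⊤ := by
    by_contra hne
    obtain ⟨f, hf0, hf⟩ := Submodule.exists_le_ker_of_lt_top (LinearMap.range J.mulVecLin)
      (lt_top_iff_ne_top.2 hne)
    have hfe : ∀ y : m → F, f y = ∑ a, y a * f (Pi.single a 1) := by
      intro y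
      conv_lhs => rw [← Finset.univ_sum_single y]
      rw [map_sum]
      refine Finset.sum_congr rfl fun a _ => ?_
      have h3 : (Pi.single a (y a) : m → F) = y a • Pi.single a 1 := by
        rw [← Pi.single_smul, smul_eq_mul, mul_one]
      rw [h3, map_smul, smul_eq_mul]
    have h1 : (fun a => f (Pi.single a 1)) = 0 := by
      apply h
      funext b
      have h2 : J.mulVecLin (Pi.single b 1) ∈ LinearMap.ker f := hf ⟨_, rfl⟩
      rw [LinearMap.mem_ker, Matrix.mulVecLin_apply, Matrix.mulVec_single_one, hfe] at h2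
      show ∑ a, f (Pi.single a 1) * J a b = 0
      rw [← h2]
      exact Finset.sum_congr rfl fun a _ => mul_comm _ _
    apply hf0
    apply LinearMap.ext
    intro y
    rw [hfe]
    refine Finset.sum_eq_zero fun a _ => ?_
    have := congrFun h1 a
    simp only [Pi.zero_apply] at this
    rw [this, mul_zero]
  intro y
  have : y ∈ LinearMap.range J.mulVecLin := by rw [hT]; trivial
  obtain ⟨x, hx⟩ := this
  exact ⟨x, hx⟩

/-- if the discriminant curve is smooth at `x` or does not contain `x`, the linear equations are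
independent -/
theorem surj_of_disc (B : Fin 3 → Matrix (Fin 3) (Fin 3) F)
    (n : Fin 3 → Fin 3 × Fin 3 → Fin 3 × Fin 3 → F) (x : Fin 3 → F)
    (h : ∃ j, eval x (pderiv j (disc B n)) ≠ 0) (y z : Fin 3 → F) :
    ∃ A : Matrix (Fin 3) (Fin 3) F, A *ᵥ x = y ∧ ∀ i, trB B i A = z i := by
  classical
  obtain ⟨j, hj⟩ := h
  have hs : Function.Surjective (six B x).mulVec := by
    refine surj_of_left _ fun u hu => ?_
    by_contra hne
    apply hj
    refine pderiv_disc_zero B n x 0 u (Or.inr hne) ?_ ?_ j ?_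
    · have h1 : (fun s : Fin 3 × Fin 3 => (0 : Matrix (Fin 3) (Fin 3) F) s.1 s.2) = 0 := rfl
      rw [h1, Matrix.mulVec_zero, zero_add, Matrix.mulVec_transpose]
      exact hu
    · have h1 : (fun s : Fin 3 × Fin 3 => (0 : Matrix (Fin 3) (Fin 3) F) s.1 s.2) = 0 := rfl
      rw [h1, Matrix.mulVec_zero]
    · simp
  obtain ⟨v, hv⟩ := hs (Sum.elim y z)
  have h1 : v = fun s : Fin 3 × Fin 3 => (Matrix.of fun r c => v (r, c)) s.1 s.2 := rfl
  rw [h1, six_mulVec] at hv
  refine ⟨Matrix.of fun r c => v (r, c), ?_, ?_⟩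
  · funext i
    exact congrFun hv (Sum.inl i)
  · intro i
    exact congrFun hv (Sum.inr i)

/-- if the discriminant curve is smooth, then `X` is smooth: the derivative of the seven equations
is onto at every point -/
theorem smooth_of_disc (B : Fin 3 → Matrix (Fin 3) (Fin 3) F)
    (n : Fin 3 → Fin 3 × Fin 3 → Fin 3 × Fin 3 → F) (x : Fin 3 → F)
    (h : ∃ j, eval x (pderiv j (disc B n)) ≠ 0)
    (A : Matrix (Fin 3) (Fin 3) F) (hA0 : A ≠ 0) (hA : IsPt B n x A) (y z : Fin 3 → F) (c : F) :
    ∃ (x' : Fin 3 → F) (A' : Matrix (Fin 3) (Fin 3) F),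
      A' *ᵥ x + A *ᵥ x' = y ∧ (∀ i, trB B i A' = z i) ∧
        qf n x' A A + (qf n x A' A + qf n x A A') = c := by
  classical
  obtain ⟨j, hj⟩ := h
  let J : Matrix ((Fin 3 ⊕ Fin 3) ⊕ Unit) (Fin 3 ⊕ (Fin 3 × Fin 3)) F :=
    Matrix.fromBlocks (Matrix.of fun a k => Sum.elim (fun i => A i k) (fun _ => 0) a) (six B x)
      (Matrix.of fun _ k => ∑ s, ∑ t, n k s t * A s.1 s.2 * A t.1 t.2)
      (Matrix.of fun _ s => (sym n x *ᵥ fun s => A s.1 s.2) s)
  have hJ : Function.Surjective J.mulVec := by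
    refine surj_of_left _ fun u hu => ?_
    by_contra hne
    apply hj
    set w : Fin 3 ⊕ Fin 3 → F := fun a => u (Sum.inl a) with hw
    set γ : F := u (Sum.inr ()) with hγ
    have c1 : ∀ k, (∑ i, w (Sum.inl i) * A i k) +
        γ * ∑ s, ∑ t, n k s t * A s.1 s.2 * A t.1 t.2 = 0 := by
      intro k
      have h1 := congrFun hu (Sum.inl k)
      have h2 : (u ᵥ* J) (Sum.inl k) = ∑ a, u a * J a (Sum.inl k) := rfl
      rw [h2, Fintype.sum_sum_type, Fintype.sum_sum_type] at h1
      simpa [J] using h1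
    have c2 : (six B x)ᵀ *ᵥ w + γ • (sym n x *ᵥ fun s => A s.1 s.2) = 0 := by
      funext s
      have h1 := congrFun hu (Sum.inr s)
      have h2 : (u ᵥ* J) (Sum.inr s) = ∑ a, u a * J a (Sum.inr s) := rfl
      rw [h2, Fintype.sum_sum_type] at h1
      have h3 : ((six B x)ᵀ *ᵥ w) s = ∑ a, w a * six B x a s := by
        rw [Matrix.mulVec_transpose]
        rfl
      have h4 : ∑ a₂ : Unit, u (Sum.inr a₂) * J (Sum.inr a₂) (Sum.inr s) =
          γ * (sym n x *ᵥ fun s => A s.1 s.2) s := by
        rw [Finset.univ_unique, Finset.sum_singleton]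
        rfl
      rw [h4] at h1
      rw [Pi.add_apply, h3]
      exact h1
    have hvec : (fun s : Fin 3 × Fin 3 => (γ • A) s.1 s.2) = γ • fun s : Fin 3 × Fin 3 => A s.1 s.2 := rfl
    refine pderiv_disc_zero B n x (γ • A) w ?_ ?_ ?_ j ?_
    · by_contra hcon
      push Not at hcon
      obtain ⟨h1, h2⟩ := hcon
      have hγ0 : γ = 0 := (smul_eq_zero.1 h1).resolve_right hA0
      apply hne
      funext a
      rcases a with a | a
      · exact congrFun h2 a
      · exact hγ0
    · rw [hvec, Matrix.mulVec_smul, add_comm]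
      exact c2
    · rw [hvec, Matrix.mulVec_smul, six_mulVec, hA.ker]
      have h4 : (Sum.elim (0 : Fin 3 → F) fun i => trB B i A) = 0 := by
        funext a
        rcases a with i | i
        · rfl
        · exact hA.tr i
      rw [h4, smul_zero]
    · have h1 := c1 j
      simp only [Matrix.smul_apply, smul_eq_mul]
      have h2 : ∑ s : Fin 3 × Fin 3, ∑ t : Fin 3 × Fin 3, n j s t * (γ * A s.1 s.2) * (γ * A t.1 t.2)
          = γ * (γ * ∑ s, ∑ t, n j s t * A s.1 s.2 * A t.1 t.2) := by
        simp only [Finset.mul_sum]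
        refine Finset.sum_congr rfl fun s _ => Finset.sum_congr rfl fun t _ => by ring
      have h3 : ∑ i, w (Sum.inl i) * (γ * A i j) = γ * ∑ i, w (Sum.inl i) * A i j := by
        rw [Finset.mul_sum]
        exact Finset.sum_congr rfl fun i _ => by ring
      rw [h2, h3]
      linear_combination (2 * γ) * h1
  obtain ⟨v, hv⟩ := hJ (Sum.elim (Sum.elim y z) fun _ => c)
  set x' : Fin 3 → F := fun k => v (Sum.inl k) with hx'
  set A' : Matrix (Fin 3) (Fin 3) F := Matrix.of fun r c => v (Sum.inr (r, c)) with hA'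
  have hv' : v = Sum.elim x' (fun s => A' s.1 s.2) := by
    funext a
    rcases a with a | a <;> rfl
  rw [hv'] at hv
  have e : J *ᵥ Sum.elim x' (fun s => A' s.1 s.2) =
      Sum.elim ((Matrix.of fun a k => Sum.elim (fun i => A i k) (fun _ => 0) a) *ᵥ x' +
        six B x *ᵥ fun s => A' s.1 s.2)
      ((Matrix.of fun _ k => ∑ s, ∑ t, n k s t * A s.1 s.2 * A t.1 t.2) *ᵥ x' +
        (Matrix.of fun _ s => (sym n x *ᵥ fun s => A s.1 s.2) s) *ᵥ fun s => A' s.1 s.2) := by
    show Matrix.fromBlocks _ _ _ _ *ᵥ _ = _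
    rw [Matrix.fromBlocks_mulVec]
    rfl
  rw [e, six_mulVec] at hv
  refine ⟨x', A', ?_, ?_, ?_⟩
  · funext i
    have h1 := congrFun hv (Sum.inl (Sum.inl i))
    simp only [Sum.elim_inl, Pi.add_apply] at h1
    rw [← h1, Pi.add_apply, add_comm]
    rfl
  · intro i
    have h1 := congrFun hv (Sum.inl (Sum.inr i))
    simp only [Sum.elim_inl, Sum.elim_inr, Pi.add_apply] at h1
    rw [← h1]
    simp [mulVec, dotProduct]
  · have h1 := congrFun hv (Sum.inr ())
    simp only [Sum.elim_inr, Pi.add_apply] at h1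
    rw [← h1]
    have h2 : ((Matrix.of fun (_ : Unit) (k : Fin 3) =>
        ∑ s : Fin 3 × Fin 3, ∑ t : Fin 3 × Fin 3, n k s t * A s.1 s.2 * A t.1 t.2) *ᵥ x') () =
        qf n x' A A := by
      simp only [mulVec, dotProduct, Matrix.of_apply, qf]
      exact Finset.sum_congr rfl fun k _ => mul_comm _ _
    have h3 : ((Matrix.of fun (_ : Unit) (s : Fin 3 × Fin 3) =>
        (sym n x *ᵥ fun s => A s.1 s.2) s) *ᵥ fun s => A' s.1 s.2) () =
        qf n x A' A + qf n x A A' := by
      rw [← sym_dot, dotProduct_comm]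
      rfl
    rw [h2, h3]

end field

end Pool.Agent.Work.D9.DS
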