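import Mathlib

/-!
The elimination principle: for a family of forms whose coefficients are polynomials in parameters,
if at one rational parameter point the forms have only the trivial common zero, then one nonzero
polynomial in the parameters decides the same at every parameter point at which it does not vanish.
-/

namespace Pool.Agent.Work.D9.EL

open MvPolynomial

section Macaulay

variable {τ : Type*} [Fintype τ] [DecidableEq τ]

theorem exists_big {M N : ℕ} (hM : M = Fintype.card τ * N) [Nonempty τ]
    (f : τ →₀ ℕ) (hf : f ∈ Finset.finsuppAntidiag (Finset.univ : Finset τ) M) : ∃ j, N ≤ f j := by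
  by_contra hcon
  push Not at hcon
  rw [Finset.mem_finsuppAntidiag] at hf
  have h1 : ∑ j, f j < ∑ _j : τ, N :=
    Finset.sum_lt_sum_of_nonempty Finset.univ_nonempty fun j _ => hcon j
  rw [Finset.sum_const, Finset.card_univ, smul_eq_mul, ← hM] at h1
  exact absurd hf.1 (ne_of_lt h1)

theorem eval₂_sum {A Ω : Type*} [CommRing A] [CommRing Ω] (φ : A →+* Ω) (M : ℕ)
    (P : MvPolynomial τ A) (hP : P.IsHomogeneous M) (x : τ → Ω) :
    ∑ g : (Finset.finsuppAntidiag (Finset.univ : Finset τ) M),
      φ (coeff (g : τ →₀ ℕ) P) * ∏ i, x i ^ (g : τ →₀ ℕ) i = eval₂ φ x P := by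
  rw [eval₂_eq', Finset.sum_coe_sort (Finset.finsuppAntidiag (Finset.univ : Finset τ) M)
    (fun g => φ (coeff g P) * ∏ i, x i ^ g i)]
  symm
  refine Finset.sum_subset ?_ ?_
  · intro g hg
    rw [Finset.mem_finsuppAntidiag]
    have h1 := hP (mem_support_iff.1 hg)
    refine ⟨?_, Finset.subset_univ _⟩
    rw [← h1, Finsupp.weight_apply, Finsupp.sum_fintype]
    · simp
    · simp
  · intro g _ hg
    rw [notMem_support_iff.1 hg, map_zero, zero_mul]

/-- the Macaulay matrix for forms specialising to the powers of the variables -/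
theorem mac_open {A κ : Type*} [CommRing A] [CommRing κ] [Nontrivial κ] (ψ : A →+* κ) (N : ℕ)
    (hN : 0 < N) (G : τ → MvPolynomial τ A) (hG : ∀ j, (G j).IsHomogeneous N)
    (hψ : ∀ j, map ψ (G j) = X j ^ N) :
    ∃ Φ : A, ψ Φ = 1 ∧ ∀ (Ω : Type*) [Field Ω] (φ : A →+* Ω), φ Φ ≠ 0 → ∀ x : τ → Ω,
      (∀ j, eval₂ φ x (G j) = 0) → x = 0 := by
  classical
  rcases isEmpty_or_nonempty τ with he | he
  · exact ⟨1, map_one ψ, fun Ω _ φ _ x _ => Subsingleton.elim _ _⟩
  set M := Fintype.card τ * N with hM
  have hM0 : 0 < M := Nat.mul_pos Fintype.card_pos hN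
  let I := (Finset.finsuppAntidiag (Finset.univ : Finset τ) M)
  choose ii hii using fun f : I => exists_big hM (f : τ →₀ ℕ) f.2
  let P : I → MvPolynomial τ A := fun f =>
    monomial ((f : τ →₀ ℕ) - Finsupp.single (ii f) N) 1 * G (ii f)
  have hdeg : ∀ f : I, (f : τ →₀ ℕ).degree = M := by
    intro f
    have := (Finset.mem_finsuppAntidiag.1 f.2).1
    rw [Finsupp.degree_eq_sum]
    exact this
  have hsplit : ∀ f : I, ((f : τ →₀ ℕ) - Finsupp.single (ii f) N) + Finsupp.single (ii f) N
      = (f : τ →₀ ℕ) := by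
    intro f
    apply tsub_add_cancel_of_le
    rw [Finsupp.single_le_iff]
    exact hii f
  have hPhom : ∀ f : I, (P f).IsHomogeneous M := by
    intro f
    have h1 : (monomial ((f : τ →₀ ℕ) - Finsupp.single (ii f) N) (1 : A)).IsHomogeneous
        (((f : τ →₀ ℕ) - Finsupp.single (ii f) N).degree) :=
      isHomogeneous_monomial _ rfl
    have h2 := h1.mul (hG (ii f))
    have h3 : ((f : τ →₀ ℕ) - Finsupp.single (ii f) N).degree + N = M := by
      rw [← hdeg f]
      conv_rhs => rw [← hsplit f]
      rw [map_add, Finsupp.degree_single]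
    rw [h3] at h2
    exact h2
  let mac : Matrix I I A := Matrix.of fun f g => coeff (g : τ →₀ ℕ) (P f)
  have hmacψ : mac.map ψ = 1 := by
    ext f g
    have h1 : map ψ (P f) = monomial (f : τ →₀ ℕ) 1 := by
      show map ψ (monomial ((f : τ →₀ ℕ) - Finsupp.single (ii f) N) 1 * G (ii f)) = _
      rw [map_mul, hψ, map_monomial, map_one, X_pow_eq_monomial, monomial_mul, one_mul, hsplit]
    show ψ (coeff (g : τ →₀ ℕ) (P f)) = _
    rw [← coeff_map, h1, coeff_monomial, Matrix.one_apply]
    by_cases hfg : f = g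
    · rw [if_pos hfg, if_pos (by rw [hfg])]
    · rw [if_neg hfg, if_neg (fun h => hfg (Subtype.ext h))]
  refine ⟨mac.det, ?_, ?_⟩
  · rw [RingHom.map_det]
    show (mac.map ψ).det = 1
    rw [hmacψ, Matrix.det_one]
  · intro Ω _ φ hφ x hx
    have h1 : (mac.map φ).mulVec (fun g : I => ∏ i, x i ^ (g : τ →₀ ℕ) i) = 0 := by
      funext f
      have h2 : (mac.map φ).mulVec (fun g : I => ∏ i, x i ^ (g : τ →₀ ℕ) i) f
          = ∑ g : I, φ (coeff (g : τ →₀ ℕ) (P f)) * ∏ i, x i ^ (g : τ →₀ ℕ) i := rfl
      rw [h2, eval₂_sum φ M (P f) (hPhom f) x]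
      show eval₂ φ x (monomial ((f : τ →₀ ℕ) - Finsupp.single (ii f) N) 1 * G (ii f)) = 0
      rw [eval₂_mul, hx, mul_zero]
    have h2 : (fun g : I => ∏ i, x i ^ (g : τ →₀ ℕ) i) = 0 := by
      by_contra hne
      apply hφ
      rw [RingHom.map_det]
      exact Matrix.exists_mulVec_eq_zero_iff.1 ⟨_, hne, h1⟩
    funext j
    have hj : Finsupp.single j M ∈ Finset.finsuppAntidiag (Finset.univ : Finset τ) M := by
      rw [Finset.mem_finsuppAntidiag]
      refine ⟨?_, Finset.subset_univ _⟩
      rw [Finset.sum_eq_single j]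
      · simp
      · intro b _ hb
        rw [Finsupp.single_eq_of_ne hb]
      · simp
    have h3 := congrFun h2 ⟨_, hj⟩
    have h4 : ∏ i, x i ^ (Finsupp.single j M) i = x j ^ M := by
      rw [Finset.prod_eq_single j]
      · simp
      · intro b _ hb
        rw [Finsupp.single_eq_of_ne hb, pow_zero]
      · simp
    have h5 : x j ^ M = 0 := by
      rw [← h4]; exact h3
    exact pow_eq_zero_iff (by omega) |>.1 h5

end Macaulay

section

variable {τ : Type*} {k : Type*} [CommRing k]

theorem hom_comp_mul (M d : ℕ) (c F : MvPolynomial τ k) (hF : F.IsHomogeneous d) :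
    homogeneousComponent M (c * F) = (if d ≤ M then homogeneousComponent (M - d) c else 0) * F := by
  classical
  conv_lhs => rw [← sum_homogeneousComponent c]
  rw [Finset.sum_mul, map_sum]
  have h1 : ∀ i, homogeneousComponent M (homogeneousComponent i c * F)
      = if i + d = M then homogeneousComponent i c * F else 0 := by
    intro i
    have h2 := (homogeneousComponent_isHomogeneous i c).mul hF
    rw [homogeneousComponent_of_mem ((mem_homogeneousSubmodule _ _).2 h2)]
    by_cases h : i + d = M
    · rw [if_pos h, if_pos h.symm]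
    · rw [if_neg h, if_neg (Ne.symm h)]
  rw [Finset.sum_congr rfl fun i _ => h1 i]
  by_cases hd : d ≤ M
  · rw [if_pos hd]
    by_cases hm : M - d ∈ Finset.range (c.totalDegree + 1)
    · rw [Finset.sum_eq_single (M - d)]
      · rw [if_pos (by omega)]
      · intro b _ hb
        rw [if_neg (by omega)]
      · intro h
        exact absurd hm h
    · rw [Finset.sum_eq_zero, homogeneousComponent_eq_zero, zero_mul]
      · rw [Finset.mem_range] at hm
        omega
      · intro i hi
        rw [if_neg]
        intro h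
        apply hm
        have : i = M - d := by omega
        rw [← this]
        exact hi
  · rw [if_neg hd, zero_mul]
    refine Finset.sum_eq_zero fun i _ => ?_
    rw [if_neg (by omega)]

end

/-- the elimination principle -/
theorem elim {k σ τ ι : Type*} [Field k] [Finite τ]
    (F : ι → MvPolynomial τ (MvPolynomial σ k))
    (d : ι → ℕ) (hF : ∀ i, (F i).IsHomogeneous (d i)) (w : σ → k)
    (K : Type*) [Field K] [Algebra k K] [IsAlgClosed K]
    (h : ∀ x : τ → K, (∀ i, aeval x (map (eval w) (F i)) = 0) → x = 0) :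
    ∃ Φ : MvPolynomial σ k, eval w Φ = 1 ∧
      ∀ (Ω : Type*) [Field Ω] (φ : MvPolynomial σ k →+* Ω), φ Φ ≠ 0 → ∀ x : τ → Ω,
        (∀ i, eval₂ φ x (F i) = 0) → x = 0 := by
  classical
  have := Fintype.ofFinite τ
  set Fw : ι → MvPolynomial τ k := fun i => map (eval w) (F i) with hFw
  have hFwh : ∀ i, (Fw i).IsHomogeneous (d i) := fun i => (hF i).map (eval w)
  let I : Ideal (MvPolynomial τ k) := Ideal.span (Set.range Fw)
  have hX : ∀ j : τ, ∃ m : ℕ, (X j : MvPolynomial τ k) ^ m ∈ I := by
    intro j
    have h1 : (X j : MvPolynomial τ k) ∈ vanishingIdeal k (zeroLocus K I) := by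
      rw [mem_vanishingIdeal_iff]
      intro x hx
      have h2 : x = 0 := by
        apply h
        intro i
        exact (mem_zeroLocus_iff.1 hx) _ (Ideal.subset_span ⟨i, rfl⟩)
      rw [aeval_X, h2, Pi.zero_apply]
    rw [vanishingIdeal_zeroLocus_eq_radical] at h1
    exact h1
  choose m hm using hX
  set M := ∑ j, m j + 1 with hM
  have hXM : ∀ j : τ, (X j : MvPolynomial τ k) ^ M ∈ I := by
    intro j
    have h1 : m j ≤ M := by
      have := Finset.single_le_sum (f := m) (fun i _ => Nat.zero_le _) (Finset.mem_univ j)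
      omega
    have h2 : (X j : MvPolynomial τ k) ^ M = X j ^ (M - m j) * X j ^ m j := by
      rw [← pow_add]
      congr 1
      omega
    rw [h2]
    exact I.mul_mem_left _ (hm j)
  have hc : ∀ j : τ, ∃ c : ι →₀ MvPolynomial τ k, (c.sum fun i a => a * Fw i) = X j ^ M := by
    intro j
    exact Finsupp.mem_ideal_span_range_iff_exists_finsupp.1 (hXM j)
  choose c hc using hc
  let c' : τ → ι → MvPolynomial τ k := fun j i =>
    if d i ≤ M then homogeneousComponent (M - d i) (c j i) else 0
  let G : τ → MvPolynomial τ (MvPolynomial σ k) := fun j =>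
    ∑ i ∈ (c j).support, map C (c' j i) * F i
  have hG : ∀ j, (G j).IsHomogeneous M := by
    intro j
    refine IsHomogeneous.sum _ _ _ fun i _ => ?_
    show (map C (if d i ≤ M then homogeneousComponent (M - d i) (c j i) else 0) * F i).IsHomogeneous M
    by_cases hd : d i ≤ M
    · rw [if_pos hd]
      have h1 := ((homogeneousComponent_isHomogeneous (M - d i) (c j i)).map
        (C : k →+* MvPolynomial σ k)).mul (hF i)
      rw [Nat.sub_add_cancel hd] at h1
      exact h1
    · rw [if_neg hd, map_zero, zero_mul]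
      exact isHomogeneous_zero _ _ _
  have hψ : ∀ j, map (eval w) (G j) = X j ^ M := by
    intro j
    show map (eval w) (∑ i ∈ (c j).support, map C (c' j i) * F i) = _
    rw [map_sum]
    have h1 : ∀ i, map (eval w) (map C (c' j i) * F i) = c' j i * Fw i := by
      intro i
      rw [map_mul, map_map]
      have h2 : (eval w).comp (C : k →+* MvPolynomial σ k) = RingHom.id k := by
        ext a
        simp
      rw [h2, map_id]
    rw [Finset.sum_congr rfl fun i _ => h1 i]
    have h3 : ∀ i, c' j i * Fw i = homogeneousComponent M (c j i * Fw i) := by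
      intro i
      rw [hom_comp_mul M (d i) (c j i) (Fw i) (hFwh i)]
    rw [Finset.sum_congr rfl fun i _ => h3 i, ← map_sum]
    have h4 : ∑ i ∈ (c j).support, c j i * Fw i = X j ^ M := hc j
    rw [h4, homogeneousComponent_of_mem
      ((mem_homogeneousSubmodule _ _).2 ((isHomogeneous_X_pow (R := k) j M))), if_pos rfl]
  obtain ⟨Φ, h1, h2⟩ := mac_open (eval w) M (by omega) G hG hψ
  refine ⟨Φ, h1, fun Ω _ φ hφ x hx => h2 Ω φ hφ x fun j => ?_⟩
  show eval₂Hom φ x (∑ i ∈ (c j).support, map C (c' j i) * F i) = 0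
  rw [map_sum]
  refine Finset.sum_eq_zero fun i _ => ?_
  have h3 : eval₂Hom φ x (F i) = 0 := hx i
  rw [map_mul, h3, mul_zero]

end Pool.Agent.Work.D9.EL
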