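import Mathlib

/-!
Module (c2) of D9, first part: ternary quadratic forms with a rational point.
-/

namespace Pool.Agent.Work.D9.MC

open MvPolynomial Matrix

section forms

variable {R : Type*} [CommRing R]

/-- the quadratic form of a matrix -/
def qq (Q : Matrix (Fin 3) (Fin 3) R) (t : Fin 3 → R) : R := t ⬝ᵥ (Q *ᵥ t)

/-- its polar form -/
def bb (Q : Matrix (Fin 3) (Fin 3) R) (t t' : Fin 3 → R) : R := t ⬝ᵥ ((Q + Qᵀ) *ᵥ t')

lemma bb_comm (Q : Matrix (Fin 3) (Fin 3) R) (t t' : Fin 3 → R) : bb Q t t' = bb Q t' t := by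
  simp only [bb, dotProduct, mulVec, Fin.sum_univ_three, Matrix.add_apply, Matrix.transpose_apply]
  ring

lemma qq_comb (Q : Matrix (Fin 3) (Fin 3) R) (a t : Fin 3 → R) (x y : R) :
    qq Q (x • a + y • t) = x ^ 2 * qq Q a + x * y * bb Q a t + y ^ 2 * qq Q t := by
  simp only [qq, bb, dotProduct, mulVec, Fin.sum_univ_three, Matrix.add_apply,
    Matrix.transpose_apply, Pi.add_apply, Pi.smul_apply, smul_eq_mul]
  ring

lemma bb_self (Q : Matrix (Fin 3) (Fin 3) R) (a : Fin 3 → R) : bb Q a a = 2 * qq Q a := by
  simp only [qq, bb, dotProduct, mulVec, Fin.sum_univ_three, Matrix.add_apply,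
    Matrix.transpose_apply]
  ring

lemma bb_smul_right (Q : Matrix (Fin 3) (Fin 3) R) (a t : Fin 3 → R) (y : R) :
    bb Q a (y • t) = y * bb Q a t := by
  simp only [bb, dotProduct, mulVec, Fin.sum_univ_three, Pi.smul_apply, smul_eq_mul]
  ring

lemma bb_add_right (Q : Matrix (Fin 3) (Fin 3) R) (a t t' : Fin 3 → R) :
    bb Q a (t + t') = bb Q a t + bb Q a t' := by
  simp only [bb, dotProduct, mulVec, Fin.sum_univ_three, Pi.add_apply]
  ring

/-- the parametrisation of the cone from the point `a` -/
def yy (Q : Matrix (Fin 3) (Fin 3) R) (a t : Fin 3 → R) : Fin 3 → R :=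
  qq Q t • a + (-bb Q a t) • t

lemma qq_yy (Q : Matrix (Fin 3) (Fin 3) R) (a t : Fin 3 → R) (ha : qq Q a = 0) :
    qq Q (yy Q a t) = 0 := by
  rw [yy, qq_comb, ha]
  ring

lemma qq_map {R' : Type*} [CommRing R'] (f : R →+* R') (Q : Matrix (Fin 3) (Fin 3) R)
    (t : Fin 3 → R) : qq (Q.map f) (fun i => f (t i)) = f (qq Q t) := by
  simp only [qq, dotProduct, mulVec, Fin.sum_univ_three, Matrix.map_apply, map_add, map_mul]

lemma bb_map {R' : Type*} [CommRing R'] (f : R →+* R') (Q : Matrix (Fin 3) (Fin 3) R)
    (t t' : Fin 3 → R) : bb (Q.map f) (fun i => f (t i)) (fun i => f (t' i)) = f (bb Q t t') := by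
  simp only [bb, dotProduct, mulVec, Fin.sum_univ_three, Matrix.map_apply, map_add, map_mul,
    Matrix.add_apply, Matrix.transpose_apply]

lemma yy_map {R' : Type*} [CommRing R'] (f : R →+* R') (Q : Matrix (Fin 3) (Fin 3) R)
    (a t : Fin 3 → R) (i : Fin 3) :
    yy (Q.map f) (fun i => f (a i)) (fun i => f (t i)) i = f (yy Q a t i) := by
  simp only [yy, Pi.add_apply, Pi.smul_apply, smul_eq_mul, qq_map, bb_map, map_add, map_mul,
    map_neg]

end forms

section field

variable {F : Type*} [Field F]

/-- a non degenerate form: nothing is orthogonal to everything -/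
lemma nondeg_exists (Q : Matrix (Fin 3) (Fin 3) F) (hQ : (Q + Qᵀ).det ≠ 0) (a : Fin 3 → F)
    (ha : a ≠ 0) : ∃ t, bb Q a t ≠ 0 := by
  by_contra hcon
  push Not at hcon
  apply hQ
  rw [← Matrix.exists_vecMul_eq_zero_iff]
  refine ⟨a, ha, ?_⟩
  funext i
  have h1 := hcon (Pi.single i 1)
  unfold bb at h1
  rw [Matrix.mulVec_single_one] at h1
  rw [Pi.zero_apply, ← h1]
  rfl

/-- in a non degenerate ternary form an isotropic vector orthogonal to an isotropic vector is
proportional to it -/
lemma isotropic_prop (Q : Matrix (Fin 3) (Fin 3) F) (hQ : (Q + Qᵀ).det ≠ 0) [CharZero F]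
    (a w : Fin 3 → F) (ha : a ≠ 0) (haq : qq Q a = 0) (hwq : qq Q w = 0) (haw : bb Q a w = 0) :
    ∃ κ : F, w = κ • a := by
  have haa : bb Q a a = 0 := by rw [bb_self, haq, mul_zero]
  have hww : bb Q w w = 0 := by rw [bb_self, hwq, mul_zero]
  have hwa : bb Q w a = 0 := by rw [bb_comm, haw]
  have key : ∀ z : Fin 3 → F, (Matrix.of ![a, w, z]).det = 0 := by
    intro z
    have h1 : ((Matrix.of ![a, w, z]) * (Q + Qᵀ) * (Matrix.of ![a, w, z])ᵀ).det = 0 := by
      have hent : ∀ i j : Fin 3, ((Matrix.of ![a, w, z]) * (Q + Qᵀ) * (Matrix.of ![a, w, z])ᵀ) i j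
          = bb Q (![a, w, z] i) (![a, w, z] j) := by
        intro i j
        rw [Matrix.mul_assoc]
        simp only [bb, dotProduct, mulVec, Fin.sum_univ_three, Matrix.mul_apply,
          Matrix.transpose_apply, Matrix.of_apply]
      rw [Matrix.det_fin_three]
      simp only [hent]
      simp only [Matrix.cons_val_zero, Matrix.cons_val_one, Matrix.cons_val, haa, haw, hwa, hww]
      ring
    rw [Matrix.det_mul, Matrix.det_mul, Matrix.det_transpose] at h1
    have h2 : (Matrix.of ![a, w, z]).det ^ 2 * (Q + Qᵀ).det = 0 := by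
      rw [← h1]; ring
    rcases mul_eq_zero.mp h2 with h3 | h3
    · exact pow_eq_zero_iff (two_ne_zero) |>.mp h3
    · exact absurd h3 hQ
  have h0 := key (Pi.single 0 1)
  have h1 := key (Pi.single 1 1)
  have h2 := key (Pi.single 2 1)
  simp [Matrix.det_fin_three] at h0 h1 h2
  obtain ⟨i, hi⟩ : ∃ i, a i ≠ 0 := by
    by_contra hcon
    push Not at hcon
    exact ha (funext hcon)
  refine ⟨w i / a i, ?_⟩
  funext j
  rw [Pi.smul_apply, smul_eq_mul]
  field_simp
  fin_cases i <;> fin_cases j <;> simp only [Fin.mk_zero, Fin.mk_one, Fin.reduceFinMk, Fin.isValue] <;>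
    first
      | linear_combination (0 : F)
      | linear_combination h0
      | linear_combination -h0
      | linear_combination h1
      | linear_combination -h1
      | linear_combination h2
      | linear_combination -h2

/-- the discriminant of the restriction to lines parallel to `v` is not identically zero -/
lemma disc_exists (Q : Matrix (Fin 3) (Fin 3) F) (hQ : (Q + Qᵀ).det ≠ 0) [CharZero F]
    (v : Fin 3 → F) (hv : qq Q v ≠ 0) : ∃ u, bb Q v u ^ 2 - 4 * qq Q v * qq Q u ≠ 0 := by
  by_contra hcon
  push Not at hcon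
  obtain ⟨u, hu0, hvu⟩ : ∃ u : Fin 3 → F, u ≠ 0 ∧ bb Q v u = 0 := by
    let c : Fin 3 → F := vecMul v (Q + Qᵀ)
    have hc : ∀ u, bb Q v u = c ⬝ᵥ u := by
      intro u
      simp only [bb, c]
      rw [Matrix.dotProduct_mulVec]
    by_cases h01 : c 0 = 0 ∧ c 1 = 0
    · refine ⟨![1, 0, 0], ?_, ?_⟩
      · intro h
        have := congrFun h 0
        simp at this
      · rw [hc]
        simp [dotProduct, Fin.sum_univ_three, h01.1]
    · refine ⟨![c 1, -c 0, 0], ?_, ?_⟩
      · intro h
        apply h01
        have h1 := congrFun h 0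
        have h2 := congrFun h 1
        simp at h1 h2
        exact ⟨h2, h1⟩
      · rw [hc]
        simp [dotProduct, Fin.sum_univ_three]
        ring
  have hqu : qq Q u = 0 := by
    have h1 := hcon u
    rw [hvu] at h1
    have h2 : 4 * qq Q v * qq Q u = 0 := by linear_combination -h1
    have h4 : (4 : F) * qq Q v ≠ 0 := mul_ne_zero (by norm_num) hv
    exact (mul_eq_zero.mp h2).resolve_left h4
  obtain ⟨z, hz⟩ := nondeg_exists Q hQ u hu0
  apply hz
  have h1 := hcon (u + z)
  have h2 := hcon z
  have h3 : qq Q (u + z) = qq Q u + bb Q u z + qq Q z := by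
    have := qq_comb Q u z 1 1
    simp only [one_smul, one_pow, one_mul] at this
    exact this
  rw [bb_add_right, h3, hvu, hqu] at h1
  have h4 : (4 : F) * qq Q v ≠ 0 := mul_ne_zero (by norm_num) hv
  have h5 : 4 * qq Q v * bb Q u z = 0 := by linear_combination h2 - h1
  exact (mul_eq_zero.mp h5).resolve_left h4

end field

section cone

variable {L K : Type*} [Field L] [CharZero L] [Field K] [Algebra L K] [IsAlgClosed K]

/-- A polynomial vanishing at the rational points of a smooth split conic vanishes on the cone. -/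
theorem cone_zero (Q : Matrix (Fin 3) (Fin 3) L) (hQ : (Q + Qᵀ).det ≠ 0)
    (a : Fin 3 → L) (ha : a ≠ 0) (haq : qq Q a = 0) (g : MvPolynomial (Fin 3) L)
    (hg : ∀ w : Fin 3 → L, w ≠ 0 → qq Q w = 0 → eval w g = 0)
    (w : Fin 3 → K) (hw : qq (Q.map (algebraMap L K)) w = 0) : aeval w g = 0 := by
  have : CharZero K := charZero_of_injective_algebraMap (algebraMap L K).injective
  have hQK : (Q.map (algebraMap L K) + (Q.map (algebraMap L K))ᵀ).det ≠ 0 := by
    have h1 : Q.map (algebraMap L K) + (Q.map (algebraMap L K))ᵀ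
        = (Q + Qᵀ).map (algebraMap L K) := by
      ext i j
      simp
    rw [h1]
    have h2 := RingHom.map_det (algebraMap L K) (Q + Qᵀ)
    rw [RingHom.mapMatrix_apply] at h2
    rw [← h2]
    intro h3
    exact hQ ((map_eq_zero _).mp h3)
  set aK : Fin 3 → K := fun i => algebraMap L K (a i) with haK
  have haK0 : aK ≠ 0 := by
    intro h
    apply ha
    funext i
    have := congrFun h i
    simpa [haK] using this
  have haqK : qq (Q.map (algebraMap L K)) aK = 0 := by
    rw [haK, qq_map, haq, map_zero]
  by_cases hb : bb (Q.map (algebraMap L K)) aK w = 0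
  · -- the tangent case
    obtain ⟨κ, hκ⟩ := isotropic_prop _ hQK aK w haK0 haqK hw hb
    let gκ : Polynomial L := aeval (fun i => Polynomial.C (a i) * Polynomial.X) g
    have hev : ∀ c : L, gκ.eval c = eval (c • a) g := by
      intro c
      show Polynomial.eval c (aeval (fun i => Polynomial.C (a i) * Polynomial.X) g) = _
      rw [← Polynomial.coe_evalRingHom, MvPolynomial.aeval_def, MvPolynomial.eval,
        ← MvPolynomial.coe_eval₂Hom, ← RingHom.comp_apply]
      congr 1
      apply MvPolynomial.ringHom_ext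
      · intro r
        simp
      · intro j
        simp only [RingHom.comp_apply, coe_eval₂Hom, eval₂_X, Polynomial.coe_evalRingHom,
          Polynomial.eval_mul, Polynomial.eval_C, Polynomial.eval_X, Pi.smul_apply, smul_eq_mul]
        ring
    have h0 : Polynomial.X * gκ = 0 := by
      apply Polynomial.funext
      intro c
      rw [Polynomial.eval_mul, Polynomial.eval_X, Polynomial.eval_zero, hev]
      by_cases hc : c = 0
      · rw [hc, zero_mul]
      · rw [hg (c • a) (smul_ne_zero hc ha) ?_, mul_zero]
        have := qq_comb Q a a c 0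
        rw [zero_smul, add_zero] at this
        rw [this, haq]
        ring
    have h1 : gκ = 0 := (mul_eq_zero.mp h0).resolve_left Polynomial.X_ne_zero
    have h2 : aeval w g = Polynomial.aeval κ gκ := by
      show _ = Polynomial.aeval κ (aeval (fun i => Polynomial.C (a i) * Polynomial.X) g)
      rw [hκ, ← AlgHom.comp_apply]
      congr 1
      apply MvPolynomial.algHom_ext
      intro i
      rw [AlgHom.comp_apply, aeval_X, aeval_X, map_mul, Polynomial.aeval_C, Polynomial.aeval_X,
        Pi.smul_apply, smul_eq_mul, mul_comm]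
    rw [h2, h1, map_zero]
  · -- the general case
    let Y : Fin 3 → MvPolynomial (Fin 3) L :=
      yy (Q.map (C : L →+* MvPolynomial (Fin 3) L)) (fun i => C (a i)) X
    have hYe : ∀ (t : Fin 3 → L) (i : Fin 3), eval t (Y i) = yy Q a t i := by
      intro t i
      have := yy_map (eval t) (Q.map (C : L →+* MvPolynomial (Fin 3) L)) (fun i => C (a i)) X i
      show eval t (yy (Q.map (C : L →+* MvPolynomial (Fin 3) L)) (fun i => C (a i)) X i) = _
      have h1 : (Q.map (C : L →+* MvPolynomial (Fin 3) L)).map (eval t) = Q := by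
        ext i j
        rw [Matrix.map_apply, Matrix.map_apply, eval_C]
      rw [← this, h1]
      simp only [eval_C, eval_X]
    have hYa : ∀ (t : Fin 3 → K) (i : Fin 3), aeval t (Y i)
        = yy (Q.map (algebraMap L K)) aK t i := by
      intro t i
      have := yy_map ((aeval t : MvPolynomial (Fin 3) L →ₐ[L] K) : MvPolynomial (Fin 3) L →+* K)
        (Q.map (C : L →+* MvPolynomial (Fin 3) L)) (fun i => C (a i)) X i
      show aeval t (yy (Q.map (C : L →+* MvPolynomial (Fin 3) L)) (fun i => C (a i)) X i) = _
      rw [RingHom.coe_coe] at this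
      have h1 : (Q.map (C : L →+* MvPolynomial (Fin 3) L)).map (aeval t : MvPolynomial (Fin 3) L →ₐ[L] K)
          = Q.map (algebraMap L K) := by
        ext i j
        rw [Matrix.map_apply, Matrix.map_apply, Matrix.map_apply, MvPolynomial.aeval_C]
      rw [← this, h1]
      simp only [MvPolynomial.aeval_C, aeval_X, haK]
    have hprod : ∀ j, Y j * aeval Y g = 0 := by
      intro j
      apply MvPolynomial.funext
      intro t
      have h1 : eval t (aeval Y g) = eval (yy Q a t) g := by
        rw [MvPolynomial.aeval_def, MvPolynomial.eval, ← MvPolynomial.coe_eval₂Hom,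
          ← RingHom.comp_apply]
        congr 1
        apply MvPolynomial.ringHom_ext
        · intro r
          simp
        · intro i
          have := hYe t i
          rw [MvPolynomial.eval] at this
          rw [RingHom.comp_apply, eval₂Hom_X', eval_X]
          exact this
      rw [map_mul, map_zero, h1, hYe]
      by_cases hy : yy Q a t = 0
      · rw [hy]; simp
      · rw [hg _ hy (qq_yy Q a t haq), mul_zero]
    have hY0 : ∃ j, Y j ≠ 0 := by
      by_contra hcon
      push Not at hcon
      obtain ⟨t, ht⟩ := nondeg_exists Q hQ a ha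
      have h1 : yy Q a t = 0 := by
        funext i
        rw [← hYe, hcon i, map_zero, Pi.zero_apply]
      have h2 : bb Q a (yy Q a t) = 0 := by
        rw [h1]
        have := bb_smul_right Q a 0 0
        rw [zero_smul, zero_mul] at this
        exact this
      rw [yy, bb_add_right, bb_smul_right, bb_smul_right, bb_self, haq] at h2
      have h3 : bb Q a t ^ 2 = 0 := by linear_combination -h2
      exact ht (pow_eq_zero_iff (two_ne_zero) |>.mp h3)
    obtain ⟨j, hj⟩ := hY0
    have hgY : aeval Y g = 0 := (mul_eq_zero.mp (hprod j)).resolve_left hj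
    obtain ⟨μ, hμ⟩ := IsAlgClosed.exists_pow_nat_eq
      (-(bb (Q.map (algebraMap L K)) aK w)⁻¹) (n := 2) (by norm_num)
    have hyw : yy (Q.map (algebraMap L K)) aK (μ • w) = w := by
      rw [yy, bb_smul_right]
      have h1 : qq (Q.map (algebraMap L K)) (μ • w) = 0 := by
        have := qq_comb (Q.map (algebraMap L K)) w w μ 0
        rw [zero_smul, add_zero] at this
        rw [this, hw]
        ring
      rw [h1, zero_smul, zero_add, smul_smul]
      have h2 : -(μ * bb (Q.map (algebraMap L K)) aK w) * μ = 1 := by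
        have h3 : -(μ * bb (Q.map (algebraMap L K)) aK w) * μ
            = -(μ ^ 2 * bb (Q.map (algebraMap L K)) aK w) := by ring
        rw [h3, hμ]
        field_simp
      rw [h2, one_smul]
    have h4 : aeval w g = aeval (μ • w) (aeval Y g) := by
      rw [← AlgHom.comp_apply]
      congr 1
      apply MvPolynomial.algHom_ext
      intro i
      rw [AlgHom.comp_apply, aeval_X, aeval_X, hYa, hyw]
    rw [h4, hgY, map_zero]

end cone

end Pool.Agent.Work.D9.MC
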