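import Mathlib
import Pool.Agent.Work.MP_b62148_ag.D9.Defs
import Pool.Agent.Work.MP_b62148_ag.D9.Conic

/-!
Module (c2) of D9, second part: division by the conic and the parametrisation of the fibres.
-/

namespace Pool.Agent.Work.D9.MC

open MvPolynomial Matrix

/-- the unknowns: entries of a matrix; also the index set of the nine equations -/
abbrev I9 := Fin 3 × Fin 3

section division

variable {L K σ τ : Type*} [Field L] [Field K] [Algebra L K]

/-- division with remainder by a quadratic, applied to a polynomial in linear expressions -/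
theorem division (al be ga : MvPolynomial τ L) (p0 p1 : σ → MvPolynomial τ L)
    (G : MvPolynomial σ L) :
    ∃ (N : ℕ) (r1 r0 : MvPolynomial τ L), ∀ (ψ : MvPolynomial τ L →ₐ[L] K) (s : K),
      ψ al * s ^ 2 + ψ be * s + ψ ga = 0 →
      ψ al ^ N * aeval (fun j => ψ (p0 j) + s * ψ (p1 j)) G = ψ r1 * s + ψ r0 := by
  induction G using MvPolynomial.induction_on with
  | C c =>
    refine ⟨0, 0, C c, fun ψ s _ => ?_⟩
    rw [pow_zero, one_mul, MvPolynomial.aeval_C, map_zero, zero_mul, zero_add]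
    exact (ψ.commutes c).symm
  | add p q hp hq =>
    obtain ⟨N, r1, r0, h⟩ := hp
    obtain ⟨N', r1', r0', h'⟩ := hq
    refine ⟨N + N', al ^ N' * r1 + al ^ N * r1', al ^ N' * r0 + al ^ N * r0', fun ψ s hs => ?_⟩
    have e1 := h ψ s hs
    have e2 := h' ψ s hs
    simp only [map_add, map_mul, map_pow]
    rw [pow_add]
    linear_combination (ψ al) ^ N' * e1 + (ψ al) ^ N * e2
  | mul_X p j hp =>
    obtain ⟨N, r1, r0, h⟩ := hp
    refine ⟨N + 1, -(r1 * p1 j * be) + al * (r1 * p0 j + r0 * p1 j),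
      -(r1 * p1 j * ga) + al * (r0 * p0 j), fun ψ s hs => ?_⟩
    have e1 := h ψ s hs
    simp only [map_add, map_mul, map_neg, aeval_X]
    rw [pow_succ]
    linear_combination (ψ al * (ψ (p0 j) + s * ψ (p1 j))) * e1 + ψ r1 * ψ (p1 j) * hs

end division

section eqmat

variable {S : Type*} [CommRing S]

/-- the nine linear equations: `A x`, `tr (B_i A)` and three functionals `θ` -/
def eqMat (B : Fin 3 → Matrix (Fin 3) (Fin 3) S) (θ : Fin 3 → I9 → S) (x : Fin 3 → S) :
    Matrix I9 I9 S :=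
  Matrix.of fun a s => ![if s.1 = a.2 then x s.2 else 0, B a.2 s.2 s.1, θ a.2 s] a.1

lemma eqMat_mulVec (B : Fin 3 → Matrix (Fin 3) (Fin 3) S) (θ : Fin 3 → I9 → S) (x : Fin 3 → S)
    (A : Matrix (Fin 3) (Fin 3) S) (a : I9) :
    (eqMat B θ x *ᵥ fun s => A s.1 s.2) a
      = ![(A *ᵥ x) a.2, trB B a.2 A, ∑ s, θ a.2 s * A s.1 s.2] a.1 := by
  obtain ⟨i, j⟩ := a
  fin_cases i
  · simp only [eqMat, mulVec, dotProduct, Matrix.of_apply]
    rw [Fintype.sum_prod_type]
    rw [Finset.sum_eq_single j]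
    · simp [mul_comm]
    · intro b _ hb
      simp [hb]
    · simp
  · simp only [eqMat, mulVec, dotProduct, Matrix.of_apply, trB]
    rw [Fintype.sum_prod_type, Finset.sum_comm]
    simp
  · simp [eqMat, mulVec, dotProduct, Matrix.of_apply]

/-- the `i`-th basis vector of the solutions of the six equations -/
def bas (B : Fin 3 → Matrix (Fin 3) (Fin 3) S) (θ : Fin 3 → I9 → S) (x : Fin 3 → S)
    (i : Fin 3) : Matrix (Fin 3) (Fin 3) S :=
  Matrix.of fun r c => (eqMat B θ x).adjugate (r, c) (2, i)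

/-- combination of the basis vectors -/
def lin (B : Fin 3 → Matrix (Fin 3) (Fin 3) S) (θ : Fin 3 → I9 → S) (x t : Fin 3 → S) :
    Matrix (Fin 3) (Fin 3) S := ∑ i, t i • bas B θ x i

lemma eqMat_bas (B : Fin 3 → Matrix (Fin 3) (Fin 3) S) (θ : Fin 3 → I9 → S) (x : Fin 3 → S)
    (i : Fin 3) (a : I9) :
    (eqMat B θ x *ᵥ fun s => bas B θ x i s.1 s.2) a
      = if a = (2, i) then (eqMat B θ x).det else 0 := by
  have h := congrFun (congrFun (Matrix.mul_adjugate (eqMat B θ x)) a) (2, i)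
  rw [Matrix.mul_apply] at h
  rw [Matrix.smul_apply, Matrix.one_apply, smul_eq_mul, mul_ite, mul_one, mul_zero] at h
  rw [← h]
  simp only [mulVec, dotProduct, bas, Matrix.of_apply, Prod.mk.eta]

lemma bas_ker (B : Fin 3 → Matrix (Fin 3) (Fin 3) S) (θ : Fin 3 → I9 → S) (x : Fin 3 → S)
    (i : Fin 3) : bas B θ x i *ᵥ x = 0 := by
  funext j
  have h := eqMat_bas B θ x i (0, j)
  rw [eqMat_mulVec] at h
  simpa using h

lemma bas_tr (B : Fin 3 → Matrix (Fin 3) (Fin 3) S) (θ : Fin 3 → I9 → S) (x : Fin 3 → S)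
    (i j : Fin 3) : trB B j (bas B θ x i) = 0 := by
  have h := eqMat_bas B θ x i (1, j)
  rw [eqMat_mulVec] at h
  simpa using h

lemma bas_theta (B : Fin 3 → Matrix (Fin 3) (Fin 3) S) (θ : Fin 3 → I9 → S) (x : Fin 3 → S)
    (i j : Fin 3) : ∑ s, θ j s * bas B θ x i s.1 s.2 = if j = i then (eqMat B θ x).det else 0 := by
  have h := eqMat_bas B θ x i (2, j)
  rw [eqMat_mulVec] at h
  simpa using h

lemma lin_apply (B : Fin 3 → Matrix (Fin 3) (Fin 3) S) (θ : Fin 3 → I9 → S) (x t : Fin 3 → S)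
    (r c : Fin 3) : lin B θ x t r c = ∑ i, t i * bas B θ x i r c := by
  simp [lin, Matrix.sum_apply]

lemma trB_add (B : Fin 3 → Matrix (Fin 3) (Fin 3) S) (i : Fin 3) (A A' : Matrix (Fin 3) (Fin 3) S) :
    trB B i (A + A') = trB B i A + trB B i A' := by
  simp only [trB, Matrix.add_apply, mul_add, Finset.sum_add_distrib]

lemma trB_smul (B : Fin 3 → Matrix (Fin 3) (Fin 3) S) (i : Fin 3) (c : S)
    (A : Matrix (Fin 3) (Fin 3) S) : trB B i (c • A) = c * trB B i A := by
  simp only [trB, Matrix.smul_apply, smul_eq_mul, Finset.mul_sum]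
  refine Finset.sum_congr rfl fun r _ => Finset.sum_congr rfl fun s _ => by ring

lemma lin_ker (B : Fin 3 → Matrix (Fin 3) (Fin 3) S) (θ : Fin 3 → I9 → S) (x t : Fin 3 → S) :
    lin B θ x t *ᵥ x = 0 := by
  simp only [lin, Fin.sum_univ_three, Matrix.add_mulVec, Matrix.smul_mulVec, bas_ker, smul_zero,
    add_zero]

lemma lin_tr (B : Fin 3 → Matrix (Fin 3) (Fin 3) S) (θ : Fin 3 → I9 → S) (x t : Fin 3 → S)
    (j : Fin 3) : trB B j (lin B θ x t) = 0 := by
  simp only [lin, Fin.sum_univ_three, trB_add, trB_smul, bas_tr, mul_zero, add_zero]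

lemma lin_theta (B : Fin 3 → Matrix (Fin 3) (Fin 3) S) (θ : Fin 3 → I9 → S) (x t : Fin 3 → S)
    (j : Fin 3) : ∑ s : I9, θ j s * lin B θ x t s.1 s.2 = t j * (eqMat B θ x).det := by
  have h1 : ∀ s : I9, θ j s * lin B θ x t s.1 s.2
      = ∑ i, t i * (θ j s * bas B θ x i s.1 s.2) := by
    intro s
    rw [lin_apply, Finset.mul_sum]
    exact Finset.sum_congr rfl fun i _ => by ring
  simp only [h1]
  rw [Finset.sum_comm]
  simp only [← Finset.mul_sum, bas_theta]
  simp

lemma lin_add (B : Fin 3 → Matrix (Fin 3) (Fin 3) S) (θ : Fin 3 → I9 → S) (x t t' : Fin 3 → S) :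
    lin B θ x (t + t') = lin B θ x t + lin B θ x t' := by
  simp only [lin, Pi.add_apply, add_smul, Finset.sum_add_distrib]

lemma lin_smul (B : Fin 3 → Matrix (Fin 3) (Fin 3) S) (θ : Fin 3 → I9 → S) (x t : Fin 3 → S)
    (c : S) : lin B θ x (c • t) = c • lin B θ x t := by
  simp only [lin, Pi.smul_apply, smul_eq_mul, Finset.smul_sum, mul_smul]

/-- the Gram matrix (not symmetrised) of the fibre -/
def gram (B : Fin 3 → Matrix (Fin 3) (Fin 3) S) (θ : Fin 3 → I9 → S)
    (n : Fin 3 → I9 → I9 → S) (x : Fin 3 → S) : Matrix (Fin 3) (Fin 3) S :=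
  Matrix.of fun i j => qf n x (bas B θ x i) (bas B θ x j)

lemma qf_add_left (n : Fin 3 → I9 → I9 → S) (x : Fin 3 → S) (A A' A'' : Matrix (Fin 3) (Fin 3) S) :
    qf n x (A + A') A'' = qf n x A A'' + qf n x A' A'' := by
  simp only [qf, Matrix.add_apply, mul_add, add_mul, Finset.sum_add_distrib]

lemma qf_add_right (n : Fin 3 → I9 → I9 → S) (x : Fin 3 → S)
    (A A' A'' : Matrix (Fin 3) (Fin 3) S) :
    qf n x A (A' + A'') = qf n x A A' + qf n x A A'' := by
  simp only [qf, Matrix.add_apply, mul_add, Finset.sum_add_distrib]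

lemma qf_smul_left (n : Fin 3 → I9 → I9 → S) (x : Fin 3 → S) (c : S)
    (A A' : Matrix (Fin 3) (Fin 3) S) : qf n x (c • A) A' = c * qf n x A A' := by
  simp only [qf, Matrix.smul_apply, smul_eq_mul, Finset.mul_sum]
  refine Finset.sum_congr rfl fun j _ => Finset.sum_congr rfl fun s _ =>
    Finset.sum_congr rfl fun t _ => by ring

lemma qf_smul_right (n : Fin 3 → I9 → I9 → S) (x : Fin 3 → S) (c : S)
    (A A' : Matrix (Fin 3) (Fin 3) S) : qf n x A (c • A') = c * qf n x A A' := by
  simp only [qf, Matrix.smul_apply, smul_eq_mul, Finset.mul_sum]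
  refine Finset.sum_congr rfl fun j _ => Finset.sum_congr rfl fun s _ =>
    Finset.sum_congr rfl fun t _ => by ring

lemma qf_lin (B : Fin 3 → Matrix (Fin 3) (Fin 3) S) (θ : Fin 3 → I9 → S)
    (n : Fin 3 → I9 → I9 → S) (x t t' : Fin 3 → S) :
    qf n x (lin B θ x t) (lin B θ x t') = t ⬝ᵥ (gram B θ n x *ᵥ t') := by
  simp only [lin, Fin.sum_univ_three, qf_add_left, qf_add_right, qf_smul_left, qf_smul_right,
    dotProduct, mulVec, gram, Matrix.of_apply]
  ring

lemma qf_lin_self (B : Fin 3 → Matrix (Fin 3) (Fin 3) S) (θ : Fin 3 → I9 → S)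
    (n : Fin 3 → I9 → I9 → S) (x t : Fin 3 → S) :
    qf n x (lin B θ x t) (lin B θ x t) = qq (gram B θ n x) t := by
  rw [qf_lin]; rfl

end eqmat

section mapping

variable {S S' : Type*} [CommRing S] [CommRing S'] (f : S →+* S')

lemma eqMat_map (B : Fin 3 → Matrix (Fin 3) (Fin 3) S) (θ : Fin 3 → I9 → S) (x : Fin 3 → S) :
    (eqMat B θ x).map f = eqMat (fun i => (B i).map f) (fun i s => f (θ i s)) (fun i => f (x i)) := by
  ext a s
  obtain ⟨i, j⟩ := a
  fin_cases i <;> simp [eqMat, apply_ite f]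

lemma det_map' (B : Fin 3 → Matrix (Fin 3) (Fin 3) S) (θ : Fin 3 → I9 → S) (x : Fin 3 → S) :
    f (eqMat B θ x).det
      = (eqMat (fun i => (B i).map f) (fun i s => f (θ i s)) (fun i => f (x i))).det := by
  rw [RingHom.map_det, RingHom.mapMatrix_apply, eqMat_map]

lemma bas_map (B : Fin 3 → Matrix (Fin 3) (Fin 3) S) (θ : Fin 3 → I9 → S) (x : Fin 3 → S)
    (i r c : Fin 3) :
    bas (fun i => (B i).map f) (fun i s => f (θ i s)) (fun i => f (x i)) i r c
      = f (bas B θ x i r c) := by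
  have h := RingHom.map_adjugate f (eqMat B θ x)
  rw [RingHom.mapMatrix_apply, RingHom.mapMatrix_apply, eqMat_map] at h
  have h2 := congrFun (congrFun h (r, c)) (2, i)
  rw [Matrix.map_apply] at h2
  unfold bas
  rw [Matrix.of_apply, Matrix.of_apply, h2]

lemma lin_map (B : Fin 3 → Matrix (Fin 3) (Fin 3) S) (θ : Fin 3 → I9 → S) (x t : Fin 3 → S)
    (r c : Fin 3) :
    lin (fun i => (B i).map f) (fun i s => f (θ i s)) (fun i => f (x i)) (fun i => f (t i)) r c
      = f (lin B θ x t r c) := by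
  simp only [lin_apply, map_sum, map_mul, bas_map]

lemma qf_map (n : Fin 3 → I9 → I9 → S) (x : Fin 3 → S) (A A' : Matrix (Fin 3) (Fin 3) S) :
    qf (fun j s t => f (n j s t)) (fun i => f (x i)) (A.map f) (A'.map f) = f (qf n x A A') := by
  simp only [qf, map_sum, map_mul, Matrix.map_apply]

lemma gram_map (B : Fin 3 → Matrix (Fin 3) (Fin 3) S) (θ : Fin 3 → I9 → S)
    (n : Fin 3 → I9 → I9 → S) (x : Fin 3 → S) :
    gram (fun i => (B i).map f) (fun i s => f (θ i s)) (fun j s t => f (n j s t))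
      (fun i => f (x i)) = (gram B θ n x).map f := by
  ext i j
  simp only [gram, Matrix.of_apply, Matrix.map_apply]
  rw [← qf_map]
  congr 1 <;> (ext r c; rw [bas_map, Matrix.map_apply])

end mapping

section solve

variable {F : Type*} [Field F]

/-- a solution of the six equations is a combination of the basis vectors -/
lemma eq_lin (B : Fin 3 → Matrix (Fin 3) (Fin 3) F) (θ : Fin 3 → I9 → F) (x : Fin 3 → F)
    (hΔ : (eqMat B θ x).det ≠ 0) (A : Matrix (Fin 3) (Fin 3) F) (hA : A *ᵥ x = 0)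
    (hB : ∀ i, trB B i A = 0) :
    A = lin B θ x (fun j => (∑ s : I9, θ j s * A s.1 s.2) / (eqMat B θ x).det) := by
  set t : Fin 3 → F := fun j => (∑ s : I9, θ j s * A s.1 s.2) / (eqMat B θ x).det with ht
  have hinj : Function.Injective (eqMat B θ x).mulVec := by
    rw [Matrix.mulVec_injective_iff_isUnit, Matrix.isUnit_iff_isUnit_det]
    exact isUnit_iff_ne_zero.mpr hΔ
  have h1 : (fun s : I9 => A s.1 s.2) = fun s : I9 => lin B θ x t s.1 s.2 := by
    apply hinj
    funext a
    rw [eqMat_mulVec, eqMat_mulVec]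
    obtain ⟨i, j⟩ := a
    fin_cases i
    · simp [hA, lin_ker]
    · simp [hB, lin_tr]
    · simp only [Fin.reduceFinMk, Matrix.cons_val]
      rw [lin_theta, ht]
      field_simp
  ext r c
  exact congrFun h1 (r, c)

/-- there are functionals completing the six equations at a point of surjectivity -/
lemma exists_theta (B : Fin 3 → Matrix (Fin 3) (Fin 3) F) (x : Fin 3 → F)
    (hs : ∀ y z : Fin 3 → F, ∃ A : Matrix (Fin 3) (Fin 3) F, A *ᵥ x = y ∧ ∀ i, trB B i A = z i) :
    ∃ θ : Fin 3 → I9 → F, (eqMat B θ x).det ≠ 0 := by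
  classical
  let Ψ : (I9 → F) →ₗ[F] (Fin 3 → F) × (Fin 3 → F) :=
    { toFun := fun A => ((Matrix.of fun r c => A (r, c)) *ᵥ x,
        fun i => trB B i (Matrix.of fun r c => A (r, c)))
      map_add' := by
        intro A A'
        have h1 : (Matrix.of fun r c => (A + A') (r, c))
            = (Matrix.of fun r c => A (r, c)) + (Matrix.of fun r c => A' (r, c)) := rfl
        rw [h1, Matrix.add_mulVec]
        simp only [trB_add]
        rfl
      map_smul' := by
        intro c A
        have h1 : (Matrix.of fun r c' => (c • A) (r, c'))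
            = c • (Matrix.of fun r c => A (r, c)) := rfl
        rw [h1, Matrix.smul_mulVec]
        simp only [trB_smul]
        rfl }
  have hΨ : Function.Surjective Ψ := by
    rintro ⟨y, z⟩
    obtain ⟨A, hA, hB⟩ := hs y z
    refine ⟨fun s => A s.1 s.2, ?_⟩
    show (A *ᵥ x, fun i => trB B i A) = (y, z)
    rw [hA]
    congr 1
    exact funext hB
  have hdim : Module.finrank F (LinearMap.ker Ψ) = 3 := by
    have h1 := LinearMap.finrank_range_add_finrank_ker Ψ
    rw [LinearMap.range_eq_top.mpr hΨ, finrank_top] at h1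
    have h2 : Module.finrank F ((Fin 3 → F) × (Fin 3 → F)) = 6 := by
      rw [Module.finrank_prod, Module.finrank_fin_fun]
    have h3 : Module.finrank F (I9 → F) = 9 := by
      rw [Module.finrank_fintype_fun_eq_card]
      simp
    omega
  let e : LinearMap.ker Ψ ≃ₗ[F] (Fin 3 → F) :=
    LinearEquiv.ofFinrankEq _ _ (by rw [hdim, Module.finrank_fin_fun])
  obtain ⟨T, hT⟩ := LinearMap.exists_extend (e : LinearMap.ker Ψ →ₗ[F] (Fin 3 → F))
  refine ⟨fun i s => T (Pi.single s 1) i, ?_⟩
  intro hdet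
  obtain ⟨A, hA0, hA⟩ := Matrix.exists_mulVec_eq_zero_iff.mpr hdet
  apply hA0
  have hval := eqMat_mulVec B (fun i s => T (Pi.single s 1) i) x (Matrix.of fun r c => A (r, c))
  have hA' : (eqMat B (fun i s => T (Pi.single s 1) i) x *ᵥ
      fun s => (Matrix.of fun r c => A (r, c)) s.1 s.2) = 0 := hA
  rw [hA'] at hval
  have hker : A ∈ LinearMap.ker Ψ := by
    rw [LinearMap.mem_ker]
    show ((Matrix.of fun r c => A (r, c)) *ᵥ x,
        fun i => trB B i (Matrix.of fun r c => A (r, c))) = 0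
    refine Prod.ext ?_ ?_
    · funext j
      have := hval (0, j)
      simpa using this.symm
    · funext j
      have := hval (1, j)
      simpa using this.symm
  have hTA : T A = 0 := by
    funext j
    have h1 := hval (2, j)
    simp only [Pi.zero_apply, Matrix.cons_val, Matrix.of_apply] at h1
    have h2 : T A j = ∑ s : I9, T (Pi.single s 1) j * A s := by
      conv_lhs => rw [← Finset.univ_sum_single A]
      rw [map_sum, Finset.sum_apply]
      refine Finset.sum_congr rfl fun s _ => ?_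
      have h3 : (Pi.single s (A s) : I9 → F) = A s • Pi.single s 1 := by
        rw [← Pi.single_smul, smul_eq_mul, mul_one]
      rw [h3, map_smul, Pi.smul_apply, smul_eq_mul, mul_comm]
    rw [h2, Pi.zero_apply, ← h1]
  have h4 : T A = e ⟨A, hker⟩ := by
    have := LinearMap.congr_fun hT ⟨A, hker⟩
    exact this
  rw [h4] at hTA
  have h5 := e.map_eq_zero_iff.mp hTA
  exact congrArg Subtype.val h5

end solve

end Pool.Agent.Work.D9.MC
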