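import Mathlib
import Pool.Agent.Work.MP_b62148_ag.D9.Defs
import Pool.Agent.Work.MP_b62148_ag.D9.Conic
import Pool.Agent.Work.MP_b62148_ag.D9.Fibre

/-!
Module (c2) of D9: from a dense set of split conics to the density of the points of `X`.
-/

namespace Pool.Agent.Work.D9.MC

open MvPolynomial Matrix

section base

variable {L : Type*} [Field L] (T : Type*) [CommRing T] [Algebra L T]

/-- base change of the matrices -/
def BB (B : Fin 3 → Matrix (Fin 3) (Fin 3) L) : Fin 3 → Matrix (Fin 3) (Fin 3) T :=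
  fun i => (B i).map (algebraMap L T)

/-- base change of the functionals -/
def TH (θ : Fin 3 → I9 → L) : Fin 3 → I9 → T := fun i s => algebraMap L T (θ i s)

/-- base change of the quadratic forms -/
def NN (n : Fin 3 → I9 → I9 → L) : Fin 3 → I9 → I9 → T := fun j s t => algebraMap L T (n j s t)

variable {T} {T' : Type*} [CommRing T'] [Algebra L T'] (ψ : T →ₐ[L] T')

lemma BB_map (B : Fin 3 → Matrix (Fin 3) (Fin 3) L) :
    (fun i => (BB T B i).map (ψ : T →+* T')) = BB T' B := by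
  funext i
  ext r c
  simp [BB]

lemma TH_map (θ : Fin 3 → I9 → L) :
    (fun i s => (ψ : T →+* T') (TH T θ i s)) = TH T' θ := by
  funext i s
  simp [TH]

lemma NN_map (n : Fin 3 → I9 → I9 → L) :
    (fun j s t => (ψ : T →+* T') (NN T n j s t)) = NN T' n := by
  funext j s t
  simp [NN]

variable (T) in
/-- the determinant of the nine equations -/
def Dl (B : Fin 3 → Matrix (Fin 3) (Fin 3) L) (θ : Fin 3 → I9 → L) (x : Fin 3 → T) : T :=
  (eqMat (BB T B) (TH T θ) x).det

variable (T) in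
/-- the combinations of basis vectors -/
def Ln (B : Fin 3 → Matrix (Fin 3) (Fin 3) L) (θ : Fin 3 → I9 → L) (x t : Fin 3 → T) :
    Matrix (Fin 3) (Fin 3) T := lin (BB T B) (TH T θ) x t

variable (T) in
/-- the Gram matrix -/
def Gr (B : Fin 3 → Matrix (Fin 3) (Fin 3) L) (θ : Fin 3 → I9 → L) (n : Fin 3 → I9 → I9 → L)
    (x : Fin 3 → T) : Matrix (Fin 3) (Fin 3) T := gram (BB T B) (TH T θ) (NN T n) x

variable (B : Fin 3 → Matrix (Fin 3) (Fin 3) L) (θ : Fin 3 → I9 → L) (n : Fin 3 → I9 → I9 → L)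

lemma Dl_map (x : Fin 3 → T) : ψ (Dl T B θ x) = Dl T' B θ (fun i => ψ (x i)) := by
  have h := det_map' (ψ : T →+* T') (BB T B) (TH T θ) x
  rw [BB_map ψ, TH_map ψ] at h
  exact h

lemma Ln_map (x t : Fin 3 → T) (r c : Fin 3) :
    ψ (Ln T B θ x t r c) = Ln T' B θ (fun i => ψ (x i)) (fun i => ψ (t i)) r c := by
  have h := lin_map (ψ : T →+* T') (BB T B) (TH T θ) x t r c
  rw [BB_map ψ, TH_map ψ] at h
  exact h.symm

lemma Gr_map (x : Fin 3 → T) :
    (Gr T B θ n x).map (ψ : T →+* T') = Gr T' B θ n (fun i => ψ (x i)) := by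
  have h := gram_map (ψ : T →+* T') (BB T B) (TH T θ) (NN T n) x
  rw [BB_map ψ, TH_map ψ, NN_map ψ] at h
  exact h.symm

lemma qqGr_map (x t : Fin 3 → T) :
    ψ (qq (Gr T B θ n x) t) = qq (Gr T' B θ n (fun i => ψ (x i))) (fun i => ψ (t i)) := by
  rw [← Gr_map ψ]
  exact (qq_map (ψ : T →+* T') _ t).symm

lemma bbGr_map (x t t' : Fin 3 → T) :
    ψ (bb (Gr T B θ n x) t t')
      = bb (Gr T' B θ n (fun i => ψ (x i))) (fun i => ψ (t i)) (fun i => ψ (t' i)) := by
  rw [← Gr_map ψ]
  exact (bb_map (ψ : T →+* T') _ t t').symm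

/-- the discriminant -/
def ds (x : Fin 3 → T) : T := (Gr T B θ n x + (Gr T B θ n x)ᵀ).det

lemma ds_map (x : Fin 3 → T) : ψ (ds B θ n x) = ds B θ n (fun i => ψ (x i)) := by
  unfold ds
  rw [← Gr_map ψ]
  have h := RingHom.map_det (ψ : T →+* T') (Gr T B θ n x + (Gr T B θ n x)ᵀ)
  rw [RingHom.mapMatrix_apply] at h
  have h2 : (Gr T B θ n x + (Gr T B θ n x)ᵀ).map (ψ : T →+* T')
      = (Gr T B θ n x).map (ψ : T →+* T') + ((Gr T B θ n x).map (ψ : T →+* T'))ᵀ := by
    ext i j
    simp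
  rw [h2] at h
  exact h

end base

section generic

variable {L Ω : Type*} [Field L] [Field Ω] [Algebra L Ω]

/-- a nonzero polynomial over an extension does not vanish at all points over the base -/
lemma exists_point [Infinite L] {σ : Type*} (p : MvPolynomial σ Ω) (hp : p ≠ 0) :
    ∃ y : σ → L, eval (fun i => algebraMap L Ω (y i)) p ≠ 0 := by
  by_contra hcon
  push Not at hcon
  apply hp
  apply funext_set (fun _ => Set.range (algebraMap L Ω))
    (fun _ => Set.infinite_range_of_injective (algebraMap L Ω).injective)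
  intro x hx
  rw [map_zero]
  have hx' : ∀ i, ∃ z, algebraMap L Ω z = x i := fun i => hx i (Set.mem_univ i)
  choose y hy using hx'
  have := hcon y
  rwa [funext hy] at this

/-- functionals over the base field -/
lemma exists_theta_base [Infinite L] (B : Fin 3 → Matrix (Fin 3) (Fin 3) L) (x₀ : Fin 3 → Ω)
    (hs : ∀ y z : Fin 3 → Ω, ∃ A : Matrix (Fin 3) (Fin 3) Ω, A *ᵥ x₀ = y ∧
      ∀ i, trB (BB Ω B) i A = z i) :
    ∃ θ : Fin 3 → I9 → L, Dl Ω B θ x₀ ≠ 0 := by
  obtain ⟨θ₁, hθ₁⟩ := exists_theta (BB Ω B) x₀ hs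
  let p : MvPolynomial (Fin 3 × I9) Ω :=
    (eqMat (fun i => (BB Ω B i).map (C : Ω →+* MvPolynomial (Fin 3 × I9) Ω))
      (fun i s => X (i, s)) (fun i => C (x₀ i))).det
  have hp : ∀ y : Fin 3 × I9 → Ω, eval y p = (eqMat (BB Ω B) (fun i s => y (i, s)) x₀).det := by
    intro y
    have h := det_map' (eval y)
      (fun i => (BB Ω B i).map (C : Ω →+* MvPolynomial (Fin 3 × I9) Ω))
      (fun i s => X (i, s)) (fun i => C (x₀ i))
    show eval y (eqMat (fun i => (BB Ω B i).map (C : Ω →+* MvPolynomial (Fin 3 × I9) Ω))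
      (fun i s => X (i, s)) (fun i => C (x₀ i))).det = _
    rw [h]
    simp only [eval_X, eval_C]
    congr 2
    funext i
    ext r c
    rw [Matrix.map_apply, Matrix.map_apply, eval_C]
  have hp0 : p ≠ 0 := by
    intro h0
    apply hθ₁
    have := hp (fun s => θ₁ s.1 s.2)
    rw [h0, map_zero] at this
    exact this.symm
  obtain ⟨y, hy⟩ := exists_point (L := L) p hp0
  refine ⟨fun i s => y (i, s), ?_⟩
  rw [hp] at hy
  exact hy

end generic

section main

variable {L : Type*} [Field L]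
variable (B : Fin 3 → Matrix (Fin 3) (Fin 3) L) (θ : Fin 3 → I9 → L) (n : Fin 3 → I9 → I9 → L)

lemma Ln_pt {F : Type*} [Field F] [Algebra L F] (x : Fin 3 → F) (t : Fin 3 → F)
    (ht : qq (Gr F B θ n x) t = 0) : IsPt (BB F B) (NN F n) x (Ln F B θ x t) where
  ker := lin_ker _ _ _ _
  tr := fun i => lin_tr _ _ _ _ i
  quad := by
    show qf (NN F n) x (lin _ _ _ _) (lin _ _ _ _) = 0
    rw [qf_lin_self]
    exact ht

lemma Ln_ne {F : Type*} [Field F] [Algebra L F] (x : Fin 3 → F) (hx : Dl F B θ x ≠ 0)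
    (t : Fin 3 → F) (ht : t ≠ 0) : Ln F B θ x t ≠ 0 := by
  intro h0
  apply ht
  funext j
  have h := lin_theta (BB F B) (TH F θ) x t j
  have h1 : lin (BB F B) (TH F θ) x t = 0 := h0
  rw [h1] at h
  simp only [Matrix.zero_apply, mul_zero, Finset.sum_const_zero] at h
  rcases mul_eq_zero.mp h.symm with h2 | h2
  · exact h2
  · exact absurd h2 hx

/-- every point of a fibre over a good `x` has coordinates -/
lemma exists_coord {F : Type*} [Field F] [Algebra L F] (x : Fin 3 → F) (hx : Dl F B θ x ≠ 0)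
    (A : Matrix (Fin 3) (Fin 3) F) (hA : IsPt (BB F B) (NN F n) x A) :
    ∃ t : Fin 3 → F, A = Ln F B θ x t ∧ qq (Gr F B θ n x) t = 0 := by
  have h := eq_lin (BB F B) (TH F θ) x hx A hA.ker hA.tr
  refine ⟨_, h, ?_⟩
  have h2 := hA.quad
  rw [h] at h2
  rw [qf_lin_self] at h2
  exact h2

/-- the discriminant does not vanish at a smooth fibre -/
lemma ds_ne {F : Type*} [Field F] [Algebra L F] (x : Fin 3 → F) (hx : Dl F B θ x ≠ 0)
    (hs : SmoothFibre (BB F B) (NN F n) x) : ds B θ n x ≠ 0 := by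
  intro h0
  obtain ⟨t, ht0, ht⟩ := Matrix.exists_mulVec_eq_zero_iff.mpr h0
  apply Ln_ne B θ x hx t ht0
  apply hs.nondeg
  · exact lin_ker _ _ _ _
  · exact fun i => lin_tr _ _ _ _ i
  · intro A' hA' hB'
    have h := eq_lin (BB F B) (TH F θ) x hx A' hA' hB'
    rw [h]
    show qf (NN F n) x (lin _ _ _ _) (lin _ _ _ _) + qf (NN F n) x (lin _ _ _ _) (lin _ _ _ _) = 0
    rw [qf_lin, qf_lin]
    set t' : Fin 3 → F := fun j => (∑ s : I9, TH F θ j s * A' s.1 s.2) /
      (eqMat (BB F B) (TH F θ) x).det with ht'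
    have h1 : t' ⬝ᵥ ((Gr F B θ n x + (Gr F B θ n x)ᵀ) *ᵥ t) = 0 := by
      rw [ht, dotProduct_zero]
    rw [Matrix.add_mulVec, dotProduct_add] at h1
    have h2 : t' ⬝ᵥ ((Gr F B θ n x)ᵀ *ᵥ t) = t ⬝ᵥ (Gr F B θ n x *ᵥ t') := by
      rw [Matrix.mulVec_transpose, dotProduct_comm, Matrix.dotProduct_mulVec]
    rw [h2] at h1
    show t ⬝ᵥ (Gr F B θ n x *ᵥ t') + t' ⬝ᵥ (Gr F B θ n x *ᵥ t) = 0
    rw [add_comm]
    exact h1

/-- a direction in which the generic conic is not zero -/
lemma exists_dir [CharZero L] (hds : ds B θ n (X : Fin 3 → MvPolynomial (Fin 3) L) ≠ 0) :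
    ∃ v : Fin 3 → L, qq (Gr (MvPolynomial (Fin 3) L) B θ n X) (fun i => C (v i)) ≠ 0 := by
  by_contra hcon
  push Not at hcon
  apply hds
  unfold ds
  have h0 : Gr (MvPolynomial (Fin 3) L) B θ n X + (Gr (MvPolynomial (Fin 3) L) B θ n X)ᵀ = 0 := by
    ext1 i j
    set Q := Gr (MvPolynomial (Fin 3) L) B θ n X with hQ
    have hs : ∀ k : Fin 3, qq Q (Pi.single k 1) = 0 := by
      intro k
      have := hcon (Pi.single k 1)
      have h1 : (fun i => (C ((Pi.single k 1 : Fin 3 → L) i) : MvPolynomial (Fin 3) L))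
          = Pi.single k 1 := by
        funext i
        by_cases h : i = k
        · subst h; simp
        · simp [h]
      rwa [h1] at this
    have hij : qq Q (Pi.single i 1 + Pi.single j 1) = 0 := by
      have := hcon (Pi.single i 1 + Pi.single j 1)
      have h1 : (fun i' => (C ((Pi.single i 1 + Pi.single j 1 : Fin 3 → L) i') :
          MvPolynomial (Fin 3) L)) = Pi.single i 1 + Pi.single j 1 := by
        funext i'
        rw [Pi.add_apply, Pi.add_apply, map_add]
        congr 1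
        · by_cases h : i' = i
          · subst h; simp
          · simp [h]
        · by_cases h : i' = j
          · subst h; simp
          · simp [h]
      rwa [h1] at this
    have h2 := qq_comb Q (Pi.single i 1) (Pi.single j 1) 1 1
    simp only [one_smul, one_pow, one_mul] at h2
    rw [hij, hs i, hs j, zero_add, add_zero] at h2
    have h3 : bb Q (Pi.single i 1) (Pi.single j 1) = (Q + Qᵀ) i j := by
      unfold bb
      rw [Matrix.mulVec_single_one, single_one_dotProduct]
      rfl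
    rw [← h3, ← h2]
    rfl
  rw [h0]
  exact Matrix.det_zero

end main

end Pool.Agent.Work.D9.MC
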