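import Mathlib

/-!
Module (c1) of D9: a polynomial vanishing on infinitely many planes is zero.
-/

namespace Pool.Agent.Work.D9.MC

open MvPolynomial Matrix

/-- the restriction of a polynomial to a line `u + t e_i` -/
noncomputable def lineRes {L : Type*} [Field L] (G : MvPolynomial (Fin 3) L) (u : Fin 3 → L)
    (i : Fin 3) : Polynomial L :=
  aeval (fun j => Polynomial.C (u j) + if j = i then Polynomial.X else 0) G

lemma lineRes_eval {L : Type*} [Field L] (G : MvPolynomial (Fin 3) L) (u : Fin 3 → L)
    (i : Fin 3) (t : L) :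
    (lineRes G u i).eval t = eval (u + Pi.single i t) G := by
  unfold lineRes
  rw [← Polynomial.coe_evalRingHom, MvPolynomial.aeval_def, MvPolynomial.eval, ← MvPolynomial.coe_eval₂Hom,
    ← RingHom.comp_apply]
  congr 1
  apply MvPolynomial.ringHom_ext
  · intro r
    simp
  · intro j
    by_cases h : j = i
    · subst h; simp
    · simp [h]

/-- (c1) A polynomial vanishing on infinitely many planes through the origin is zero. -/
theorem planes {L : Type*} [Field L] [CharZero L] (G : MvPolynomial (Fin 3) L)
    (S : Set (Fin 3 → L)) (hS : S.Infinite)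
    (hpair : ∀ l ∈ S, ∀ l' ∈ S, ∀ c : L, l = c • l' → l = l')
    (h : ∀ l ∈ S, ∀ x : Fin 3 → L, l ⬝ᵥ x = 0 → eval x G = 0) : G = 0 := by
  classical
  by_contra hG
  obtain ⟨u, hu⟩ : ∃ u : Fin 3 → L, eval u G ≠ 0 := by
    by_contra hcon
    push Not at hcon
    exact hG (MvPolynomial.funext (fun x => by rw [hcon x, map_zero]))
  have hlu : ∀ l ∈ S, l ⬝ᵥ u ≠ 0 := fun l hl h0 => hu (h l hl u h0)
  have hne : ∀ i, lineRes G u i ≠ 0 := by
    intro i h0
    apply hu
    have := lineRes_eval G u i 0
    rw [h0] at this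
    simpa using this.symm
  let F : Fin 3 → Finset L := fun i =>
    insert 0 ((lineRes G u i).roots.toFinset.image (fun t => -1 / t))
  have hmem : ∀ l ∈ S, (fun i => l i / (l ⬝ᵥ u)) ∈ Fintype.piFinset F := by
    intro l hl
    rw [Fintype.mem_piFinset]
    intro i
    by_cases hli : l i = 0
    · simp [F, hli]
    · refine Finset.mem_insert_of_mem (Finset.mem_image.mpr ⟨-(l ⬝ᵥ u) / l i, ?_, ?_⟩)
      · rw [Multiset.mem_toFinset, Polynomial.mem_roots (hne i), Polynomial.IsRoot.def,
          lineRes_eval]
        apply h l hl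
        rw [dotProduct_add, dotProduct_single]
        field_simp
        ring
      · have := hlu l hl
        field_simp
  apply hS
  refine Set.Finite.of_finite_image (f := fun l : Fin 3 → L => fun i => l i / (l ⬝ᵥ u)) ?_ ?_
  · refine (Fintype.piFinset F).finite_toSet.subset ?_
    rintro _ ⟨l, hl, rfl⟩
    exact hmem l hl
  · intro l hl l' hl' hll
    apply hpair l hl l' hl' ((l ⬝ᵥ u) / (l' ⬝ᵥ u))
    funext i
    have h1 := congrFun hll i
    simp only at h1
    have h2 := hlu l hl
    have h3 := hlu l' hl'
    rw [Pi.smul_apply, smul_eq_mul]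
    field_simp at h1 ⊢
    linear_combination h1

end Pool.Agent.Work.D9.MC
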