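import Mathlib
import Pool.Agent.Work.MP_b62148_ag.D9.Defs
import Pool.Agent.Work.MP_b62148_ag.D9.Planes
import Pool.Agent.Work.MP_b62148_ag.D9.Dense

/-!
Module (c) of D9: from infinitely many planes to the zero polynomial, and from a dense set of split
conics to the density of the points of `X`.
-/

namespace Pool.Agent.Work.D9.MC

open MvPolynomial Matrix

section step

variable {L K : Type*} [Field L] [Field K] [Algebra L K]
variable (B : Fin 3 → Matrix (Fin 3) (Fin 3) L) (θ : Fin 3 → I9 → L) (n : Fin 3 → I9 → I9 → L)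

/-- division by the conic, at points -/
lemma exists_div (v : Fin 3 → L) (G : MvPolynomial (Fin 3 ⊕ I9) L) :
    ∃ (N : ℕ) (r1 r0 : MvPolynomial (Fin 3 ⊕ Fin 3) L), ∀ (x u : Fin 3 → K) (s : K),
      qq (Gr K B θ n x) (u + s • fun i => algebraMap L K (v i)) = 0 →
      qq (Gr K B θ n x) (fun i => algebraMap L K (v i)) ^ N *
        aeval (join x (Ln K B θ x (u + s • fun i => algebraMap L K (v i)))) G
      = aeval (Sum.elim x u) r1 * s + aeval (Sum.elim x u) r0 := by
  let T := MvPolynomial (Fin 3 ⊕ Fin 3) L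
  let xS : Fin 3 → T := fun i => X (Sum.inl i)
  let uS : Fin 3 → T := fun i => X (Sum.inr i)
  let vS : Fin 3 → T := fun i => C (v i)
  obtain ⟨N, r1, r0, h⟩ := division (K := K) (qq (Gr T B θ n xS) vS) (bb (Gr T B θ n xS) uS vS)
    (qq (Gr T B θ n xS) uS) (Sum.elim xS (fun s => Ln T B θ xS uS s.1 s.2))
    (Sum.elim (fun _ => 0) (fun s => Ln T B θ xS vS s.1 s.2)) G
  refine ⟨N, r1, r0, fun x u s hs => ?_⟩
  have hx : (fun i => (aeval (Sum.elim x u) : T →ₐ[L] K) (xS i)) = x := by
    funext i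
    simp [xS]
  have hu : (fun i => (aeval (Sum.elim x u) : T →ₐ[L] K) (uS i)) = u := by
    funext i
    simp [uS]
  have hv : (fun i => (aeval (Sum.elim x u) : T →ₐ[L] K) (vS i)) = fun i => algebraMap L K (v i) := by
    funext i
    exact MvPolynomial.aeval_C _ _
  have h1 := h (aeval (Sum.elim x u)) s
  rw [qqGr_map, bbGr_map, qqGr_map, hx, hu, hv] at h1
  have hq : qq (Gr K B θ n x) (u + s • fun i => algebraMap L K (v i))
      = qq (Gr K B θ n x) (fun i => algebraMap L K (v i)) * s ^ 2
        + bb (Gr K B θ n x) u (fun i => algebraMap L K (v i)) * s + qq (Gr K B θ n x) u := by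
    have := qq_comb (Gr K B θ n x) u (fun i => algebraMap L K (v i)) 1 s
    rw [one_smul] at this
    rw [this]
    ring
  have h2 := h1 (by rw [← hq]; exact hs)
  rw [← h2]
  congr 2
  apply congrArg
  funext j
  rcases j with j | j
  · simp [join, xS]
  · simp only [join, Sum.elim_inr]
    rw [Ln_map, Ln_map, hx, hu, hv]
    have h3 : Ln K B θ x (u + s • fun i => algebraMap L K (v i))
        = Ln K B θ x u + s • Ln K B θ x (fun i => algebraMap L K (v i)) := by
      unfold Ln
      rw [lin_add, lin_smul]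
    rw [h3]
    rfl

/-- the remainders vanish over a good split point -/
lemma rem_zero [CharZero L] [IsAlgClosed K] (v : Fin 3 → L) (G : MvPolynomial (Fin 3 ⊕ I9) L)
    (hG : ∀ (x : Fin 3 → L) (A : Matrix (Fin 3) (Fin 3) L), x ≠ 0 → A ≠ 0 → IsPt B n x A →
      eval (join x A) G = 0)
    (N : ℕ) (r1 r0 : MvPolynomial (Fin 3 ⊕ Fin 3) L)
    (hdiv : ∀ (x u : Fin 3 → K) (s : K),
      qq (Gr K B θ n x) (u + s • fun i => algebraMap L K (v i)) = 0 →
      qq (Gr K B θ n x) (fun i => algebraMap L K (v i)) ^ N *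
        aeval (join x (Ln K B θ x (u + s • fun i => algebraMap L K (v i)))) G
      = aeval (Sum.elim x u) r1 * s + aeval (Sum.elim x u) r0)
    (x : Fin 3 → L) (hx : x ∈ Split B n) (hΔ : Dl L B θ x ≠ 0) (hds : ds B θ n x ≠ 0)
    (hv : qq (Gr L B θ n x) v ≠ 0) (u : Fin 3 → L)
    (hu : bb (Gr L B θ n x) v u ^ 2 - 4 * qq (Gr L B θ n x) v * qq (Gr L B θ n x) u ≠ 0) :
    eval (Sum.elim x u) r1 = 0 ∧ eval (Sum.elim x u) r0 = 0 := by
  have : CharZero K := charZero_of_injective_algebraMap (algebraMap L K).injective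
  have hBL : BB L B = B := by
    funext i
    ext r c
    simp [BB]
  have hNL : NN L n = n := by
    funext i s t
    simp [NN]
  obtain ⟨hx0, A, hA0, hA⟩ := hx
  have hA' : IsPt (BB L B) (NN L n) x A := by rw [hBL, hNL]; exact hA
  obtain ⟨a, ha, haq⟩ := exists_coord B θ n x hΔ A hA'
  have ha0 : a ≠ 0 := by
    intro h
    apply hA0
    rw [ha, h]
    ext r c
    show lin _ _ _ _ r c = 0
    rw [lin_apply]
    simp
  -- the polynomial on the fibre
  let P := MvPolynomial (Fin 3) L
  let g : P := aeval (join (fun i => C (x i)) (Ln P B θ (fun i => C (x i)) X)) G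
  have hgK : ∀ w : Fin 3 → K, aeval w g
      = aeval (join (fun i => algebraMap L K (x i)) (Ln K B θ (fun i => algebraMap L K (x i)) w)) G := by
    intro w
    show aeval w (aeval (join (fun i => C (x i)) (Ln P B θ (fun i => C (x i)) X)) G) = _
    rw [← AlgHom.comp_apply]
    congr 1
    apply MvPolynomial.algHom_ext
    intro j
    rw [AlgHom.comp_apply, aeval_X, aeval_X]
    rcases j with j | j
    · simp only [join, Sum.elim_inl]
      exact MvPolynomial.aeval_C _ _
    · simp only [join, Sum.elim_inr]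
      rw [Ln_map]
      congr 2
      · funext i; exact MvPolynomial.aeval_C _ _
      · funext i; exact aeval_X _ _
  have hgL : ∀ w : Fin 3 → L, eval w g = eval (join x (Ln L B θ x w)) G := by
    intro w
    have h1 : eval w g = (aeval w : MvPolynomial (Fin 3) L →ₐ[L] L) g := rfl
    rw [h1]
    show aeval w (aeval (join (fun i => C (x i)) (Ln P B θ (fun i => C (x i)) X)) G) = _
    have h2 : eval (join x (Ln L B θ x w)) G
        = (aeval (join x (Ln L B θ x w)) : MvPolynomial (Fin 3 ⊕ I9) L →ₐ[L] L) G := rfl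
    rw [h2, ← AlgHom.comp_apply]
    congr 1
    apply MvPolynomial.algHom_ext
    intro j
    rw [AlgHom.comp_apply, aeval_X, aeval_X]
    rcases j with j | j
    · simp only [join, Sum.elim_inl]
      exact MvPolynomial.aeval_C _ _
    · simp only [join, Sum.elim_inr]
      rw [Ln_map]
      congr 2
      · funext i; exact MvPolynomial.aeval_C _ _
      · funext i; exact aeval_X _ _
  have hcone : ∀ w : Fin 3 → K,
      qq (Gr K B θ n (fun i => algebraMap L K (x i))) w = 0 → aeval w g = 0 := by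
    intro w hw
    apply cone_zero (Gr L B θ n x) hds a ha0 haq g ?_ w ?_
    · intro w' hw0 hw'
      rw [hgL]
      apply hG x _ hx0 (Ln_ne B θ x hΔ w' hw0)
      have := Ln_pt B θ n x w' hw'
      rwa [hBL, hNL] at this
    · have h1 := Gr_map (Algebra.ofId L K) B θ n x
      have h2 : (Gr L B θ n x).map (algebraMap L K)
          = Gr K B θ n (fun i => algebraMap L K (x i)) := h1
      rw [h2]
      exact hw
  -- two roots
  set xK : Fin 3 → K := fun i => algebraMap L K (x i) with hxK
  set uK : Fin 3 → K := fun i => algebraMap L K (u i) with huK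
  set vK : Fin 3 → K := fun i => algebraMap L K (v i) with hvK
  have hal : qq (Gr K B θ n xK) vK = algebraMap L K (qq (Gr L B θ n x) v) :=
    (qqGr_map (Algebra.ofId L K) B θ n x v).symm
  have hga : qq (Gr K B θ n xK) uK = algebraMap L K (qq (Gr L B θ n x) u) :=
    (qqGr_map (Algebra.ofId L K) B θ n x u).symm
  have hbe : bb (Gr K B θ n xK) uK vK = algebraMap L K (bb (Gr L B θ n x) v u) := by
    rw [bb_comm]
    exact (bbGr_map (Algebra.ofId L K) B θ n x v u).symm
  set al : K := algebraMap L K (qq (Gr L B θ n x) v) with hal'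
  set be : K := algebraMap L K (bb (Gr L B θ n x) v u) with hbe'
  set ga : K := algebraMap L K (qq (Gr L B θ n x) u) with hga'
  have hal0 : al ≠ 0 := by
    rw [hal']
    intro h
    exact hv ((map_eq_zero _).mp h)
  have hD : be ^ 2 - 4 * al * ga ≠ 0 := by
    intro h
    apply hu
    apply (algebraMap L K).injective
    rw [map_zero, ← h, hal', hbe', hga']
    rw [map_sub, map_pow, map_mul, map_mul, map_ofNat]
  obtain ⟨δ, hδ⟩ := IsAlgClosed.exists_pow_nat_eq (be ^ 2 - 4 * al * ga) (n := 2) (by norm_num)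
  have hδ0 : δ ≠ 0 := by
    intro h
    apply hD
    rw [← hδ, h]
    ring
  have hq : ∀ s : K, qq (Gr K B θ n xK) (uK + s • vK) = al * s ^ 2 + be * s + ga := by
    intro s
    have := qq_comb (Gr K B θ n xK) uK vK 1 s
    rw [one_smul] at this
    rw [this, hal, hga, hbe]
    ring
  have hroot : ∀ s : K, al * s ^ 2 + be * s + ga = 0 →
      aeval (Sum.elim xK uK) r1 * s + aeval (Sum.elim xK uK) r0 = 0 := by
    intro s hs
    have h1 := hdiv xK uK s (by rw [hq]; exact hs)
    rw [← h1]
    have h2 := hcone (uK + s • vK) (by rw [hq]; exact hs)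
    rw [hgK] at h2
    rw [h2, mul_zero]
  have e1 := hroot ((-be + δ) / (2 * al)) (by field_simp; linear_combination hδ)
  have e2 := hroot ((-be - δ) / (2 * al)) (by field_simp; linear_combination hδ)
  have h1 : aeval (Sum.elim xK uK) r1 = 0 := by
    have h3 : aeval (Sum.elim xK uK) r1 * (δ / al) = 0 := by
      have h4 : (-be + δ) / (2 * al) - (-be - δ) / (2 * al) = δ / al := by
        field_simp; ring
      rw [← h4]
      linear_combination e1 - e2
    rcases mul_eq_zero.mp h3 with h5 | h5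
    · exact h5
    · exact absurd h5 (div_ne_zero hδ0 hal0)
  have h0 : aeval (Sum.elim xK uK) r0 = 0 := by
    rw [h1] at e1
    linear_combination e1
  have hval : ∀ r : MvPolynomial (Fin 3 ⊕ Fin 3) L,
      aeval (Sum.elim xK uK) r = algebraMap L K (eval (Sum.elim x u) r) := by
    intro r
    have h3 : (Sum.elim xK uK : Fin 3 ⊕ Fin 3 → K)
        = fun j => algebraMap L K ((Sum.elim x u : Fin 3 ⊕ Fin 3 → L) j) := by
      funext j
      rcases j with j | j <;> rfl
    have h4 := MvPolynomial.aeval_algebraMap_apply K (Sum.elim x u) r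
    rw [h3]
    exact h4
  rw [hval] at h1 h0
  exact ⟨(map_eq_zero _).mp h1, (map_eq_zero _).mp h0⟩

end step

lemma aeval_Xfun {L F : Type*} [Field L] [Field F] [Algebra L F] (x : Fin 3 → F) :
    (fun i => (aeval x : MvPolynomial (Fin 3) L →ₐ[L] F) (X i)) = x :=
  funext fun _ => aeval_X _ _

/-- (c2), with an auxiliary algebraically closed field -/
theorem dense_core {L Ω : Type*} (K : Type*) [Field L] [CharZero L] [Field Ω] [Algebra L Ω]
    [Field K] [Algebra L K] [Algebra Ω K] [IsScalarTower L Ω K] [IsAlgClosed K]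
    (B : Fin 3 → Matrix (Fin 3) (Fin 3) L) (n : Fin 3 → Fin 3 × Fin 3 → Fin 3 × Fin 3 → L)
    (hT : ∀ G : MvPolynomial (Fin 3) L, (∀ x ∈ Split B n, eval x G = 0) → G = 0)
    (x₀ : Fin 3 → Ω)
    (hx₀ : SmoothFibre (fun i => (B i).map (algebraMap L Ω))
      (fun j s t => algebraMap L Ω (n j s t)) x₀)
    (G : MvPolynomial (Fin 3 ⊕ (Fin 3 × Fin 3)) L)
    (hG : ∀ (x : Fin 3 → L) (A : Matrix (Fin 3) (Fin 3) L), x ≠ 0 → A ≠ 0 → IsPt B n x A →
      eval (join x A) G = 0) :
    ∃ h : MvPolynomial (Fin 3) L, h ≠ 0 ∧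
      ∀ (x : Fin 3 → Ω) (A : Matrix (Fin 3) (Fin 3) Ω),
        IsPt (fun i => (B i).map (algebraMap L Ω)) (fun j s t => algebraMap L Ω (n j s t)) x A →
        aeval x h * aeval (join x A) G = 0 := by
  obtain ⟨θ, hθ⟩ := exists_theta_base B x₀ hx₀.surj
  let P := MvPolynomial (Fin 3) L
  -- the three open conditions
  have hΔ0 : Dl P B θ X ≠ 0 := by
    intro h0
    apply hθ
    have := Dl_map (aeval x₀ : P →ₐ[L] Ω) B θ X
    rw [h0, map_zero] at this
    rw [this]
    congr 1
    funext i
    exact (aeval_X _ _).symm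
  have hds0 : ds B θ n (X : Fin 3 → P) ≠ 0 := by
    intro h0
    have h1 := ds_ne B θ n x₀ hθ hx₀
    apply h1
    have := ds_map (aeval x₀ : P →ₐ[L] Ω) B θ n X
    rw [h0, map_zero] at this
    rw [this]
    congr 1
    funext i
    exact (aeval_X _ _).symm
  obtain ⟨v, hv0⟩ := exists_dir B θ n hds0
  set al : P := qq (Gr P B θ n X) (fun i => C (v i)) with hal
  obtain ⟨N, r1, r0, hdiv⟩ := exists_div (K := K) B θ n v G
  -- evaluation of the conditions at rational points
  have eΔ : ∀ x : Fin 3 → L, eval x (Dl P B θ X) = Dl L B θ x := by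
    intro x
    have := Dl_map (aeval x : P →ₐ[L] L) B θ X
    rw [aeval_Xfun] at this
    exact this
  have eds : ∀ x : Fin 3 → L, eval x (ds B θ n (X : Fin 3 → P)) = ds B θ n x := by
    intro x
    have := ds_map (aeval x : P →ₐ[L] L) B θ n X
    rw [aeval_Xfun] at this
    exact this
  have eal : ∀ x : Fin 3 → L, eval x al = qq (Gr L B θ n x) v := by
    intro x
    have := qqGr_map (aeval x : P →ₐ[L] L) B θ n X (fun i => C (v i))
    rw [aeval_Xfun] at this
    have h2 : (fun i => (aeval x : P →ₐ[L] L) (C (v i))) = v := by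
      funext i
      exact MvPolynomial.aeval_C _ _
    rw [h2] at this
    exact this
  -- the remainders vanish
  let T := MvPolynomial (Fin 3 ⊕ Fin 3) L
  let xS : Fin 3 → T := fun i => X (Sum.inl i)
  let uS : Fin 3 → T := fun i => X (Sum.inr i)
  let vS : Fin 3 → T := fun i => C (v i)
  let DS : T := bb (Gr T B θ n xS) vS uS ^ 2 - 4 * qq (Gr T B θ n xS) vS * qq (Gr T B θ n xS) uS
  have eDS : ∀ x u : Fin 3 → L, eval (Sum.elim x u) DS
      = bb (Gr L B θ n x) v u ^ 2 - 4 * qq (Gr L B θ n x) v * qq (Gr L B θ n x) u := by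
    intro x u
    have hx : (fun i => (aeval (Sum.elim x u) : T →ₐ[L] L) (xS i)) = x := by
      funext i; simp [xS]
    have hu : (fun i => (aeval (Sum.elim x u) : T →ₐ[L] L) (uS i)) = u := by
      funext i; simp [uS]
    have hv : (fun i => (aeval (Sum.elim x u) : T →ₐ[L] L) (vS i)) = v := by
      funext i
      exact MvPolynomial.aeval_C _ _
    show (aeval (Sum.elim x u) : T →ₐ[L] L) DS = _
    simp only [DS]
    rw [map_sub, map_pow, map_mul, map_mul, map_ofNat, bbGr_map, qqGr_map, qqGr_map, hx, hu, hv]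
  have hDS0 : DS ≠ 0 := by
    intro h0
    have h1 : ds B θ n (X : Fin 3 → P) * al ≠ 0 := mul_ne_zero hds0 hv0
    apply h1
    apply MvPolynomial.funext
    intro x
    rw [map_mul, eds, eal, map_zero]
    by_contra hcon
    obtain ⟨h2, h3⟩ := mul_ne_zero_iff.mp hcon
    obtain ⟨u, hu⟩ := disc_exists (Gr L B θ n x) h2 v h3
    apply hu
    rw [← eDS, h0, map_zero]
  have hrem : ∀ r : T, (∀ x ∈ Split B n, Dl L B θ x ≠ 0 → ds B θ n x ≠ 0 →
      qq (Gr L B θ n x) v ≠ 0 → ∀ u : Fin 3 → L, eval (Sum.elim x u) DS ≠ 0 →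
      eval (Sum.elim x u) r = 0) → r = 0 := by
    intro r hr
    have h1 : r * DS = 0 := by
      apply MvPolynomial.funext
      intro y
      let x : Fin 3 → L := fun i => y (Sum.inl i)
      let u : Fin 3 → L := fun i => y (Sum.inr i)
      have hy : y = Sum.elim x u := by
        funext j
        rcases j with j | j <;> rfl
      let PL : P := aeval (Sum.elim X (fun i => C (u i)) : Fin 3 ⊕ Fin 3 → P) (r * DS)
      have hPL : ∀ x' : Fin 3 → L, eval x' PL = eval (Sum.elim x' u) (r * DS) := by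
        intro x'
        show (aeval x' : P →ₐ[L] L) (aeval (Sum.elim X (fun i => C (u i)) : Fin 3 ⊕ Fin 3 → P)
          (r * DS)) = (aeval (Sum.elim x' u) : T →ₐ[L] L) (r * DS)
        rw [← AlgHom.comp_apply]
        congr 1
        apply MvPolynomial.algHom_ext
        intro j
        rw [AlgHom.comp_apply, aeval_X, aeval_X]
        rcases j with j | j
        · simp
        · rw [Sum.elim_inr, Sum.elim_inr]
          exact MvPolynomial.aeval_C _ _
      have hzero : PL * (Dl P B θ X * ds B θ n (X : Fin 3 → P) * al) = 0 := by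
        apply hT
        intro x' hx'
        rw [map_mul, map_mul, map_mul, eΔ, eds, eal, hPL, map_mul]
        by_contra hcon
        obtain ⟨h2, h3⟩ := mul_ne_zero_iff.mp hcon
        obtain ⟨h4, h5⟩ := mul_ne_zero_iff.mp h3
        obtain ⟨h6, h7⟩ := mul_ne_zero_iff.mp h4
        obtain ⟨h8, h9⟩ := mul_ne_zero_iff.mp h2
        exact h8 (hr x' hx' h6 h7 h5 u h9)
      have hPL0 : PL = 0 := (mul_eq_zero.mp hzero).resolve_right
        (mul_ne_zero (mul_ne_zero hΔ0 hds0) hv0)
      rw [hy, ← hPL, hPL0, map_zero, map_zero]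
    exact (mul_eq_zero.mp h1).resolve_right hDS0
  have hr1 : r1 = 0 := hrem r1 (fun x hx h1 h2 h3 u hu =>
    (rem_zero (K := K) B θ n v G hG N r1 r0 hdiv x hx h1 h2 h3 u (by rw [← eDS]; exact hu)).1)
  have hr0 : r0 = 0 := hrem r0 (fun x hx h1 h2 h3 u hu =>
    (rem_zero (K := K) B θ n v G hG N r1 r0 hdiv x hx h1 h2 h3 u (by rw [← eDS]; exact hu)).2)
  -- conclusion
  refine ⟨Dl P B θ X * al, mul_ne_zero hΔ0 hv0, fun x A hA => ?_⟩
  rw [map_mul]
  have hΔx : aeval x (Dl P B θ X) = Dl Ω B θ x := by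
    have := Dl_map (aeval x : P →ₐ[L] Ω) B θ X
    rw [aeval_Xfun] at this
    exact this
  have halx : aeval x al = qq (Gr Ω B θ n x) (fun i => algebraMap L Ω (v i)) := by
    have := qqGr_map (aeval x : P →ₐ[L] Ω) B θ n X (fun i => C (v i))
    rw [aeval_Xfun] at this
    have h2 : (fun i => (aeval x : P →ₐ[L] Ω) (C (v i))) = fun i => algebraMap L Ω (v i) := by
      funext i
      exact MvPolynomial.aeval_C _ _
    rw [h2] at this
    exact this
  by_cases h1 : Dl Ω B θ x = 0
  · rw [hΔx, h1, zero_mul, zero_mul]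
  obtain ⟨w, hw, hwq⟩ := exists_coord B θ n x h1 A hA
  let ι : Ω →ₐ[L] K := IsScalarTower.toAlgHom L Ω K
  have hιL : ∀ l : L, ι (algebraMap L Ω l) = algebraMap L K l := fun l => ι.commutes l
  have hιinj : Function.Injective ι := ι.toRingHom.injective
  have h2 := hdiv (fun i => ι (x i)) (fun i => ι (w i)) 0 (by
    rw [zero_smul, add_zero, ← qqGr_map ι, hwq, map_zero])
  rw [hr1, hr0, map_zero, zero_mul, add_zero, zero_smul, add_zero] at h2
  have h3 : (join (fun i => ι (x i)) (Ln K B θ (fun i => ι (x i)) (fun i => ι (w i))) :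
      Fin 3 ⊕ I9 → K) = fun j => ι (join x A j) := by
    funext j
    rcases j with j | j
    · rfl
    · show Ln K B θ (fun i => ι (x i)) (fun i => ι (w i)) j.1 j.2 = ι (A j.1 j.2)
      rw [hw, Ln_map]
  have h4 : aeval (fun j => ι (join x A j)) G = ι (aeval (join x A) G) := by
    rw [← AlgHom.comp_apply, MvPolynomial.comp_aeval]
  have h5 : qq (Gr K B θ n fun i => ι (x i)) (fun i => algebraMap L K (v i)) = ι (aeval x al) := by
    rw [halx, qqGr_map]
    simp only [hιL]
  rw [h3, h4, h5, ← map_pow, ← map_mul] at h2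
  have h6 : aeval x al ^ N * aeval (join x A) G = 0 := by
    apply hιinj
    rw [h2, map_zero]
  rcases mul_eq_zero.mp h6 with h7 | h7
  · have h8 : aeval x al = 0 := by
      by_contra h9
      exact pow_ne_zero N h9 h7
    rw [h8, mul_zero, zero_mul]
  · rw [h7, mul_zero]

/-- (c2) If the points over which the conic has a point are dense in the plane and some fibre over
an extension is a smooth conic, then the points of `X` are dense (over an open set of the plane). -/
theorem dense_of_split {L Ω : Type*} [Field L] [CharZero L] [Field Ω] [Algebra L Ω]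
    (B : Fin 3 → Matrix (Fin 3) (Fin 3) L) (n : Fin 3 → Fin 3 × Fin 3 → Fin 3 × Fin 3 → L)
    (hT : ∀ G : MvPolynomial (Fin 3) L, (∀ x ∈ Split B n, eval x G = 0) → G = 0)
    (x₀ : Fin 3 → Ω)
    (hx₀ : SmoothFibre (fun i => (B i).map (algebraMap L Ω))
      (fun j s t => algebraMap L Ω (n j s t)) x₀)
    (G : MvPolynomial (Fin 3 ⊕ (Fin 3 × Fin 3)) L)
    (hG : ∀ (x : Fin 3 → L) (A : Matrix (Fin 3) (Fin 3) L), x ≠ 0 → A ≠ 0 → IsPt B n x A →
      eval (join x A) G = 0) :
    ∃ h : MvPolynomial (Fin 3) L, h ≠ 0 ∧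
      ∀ (x : Fin 3 → Ω) (A : Matrix (Fin 3) (Fin 3) Ω),
        IsPt (fun i => (B i).map (algebraMap L Ω)) (fun j s t => algebraMap L Ω (n j s t)) x A →
        aeval x h * aeval (join x A) G = 0 :=
  dense_core (AlgebraicClosure Ω) B n hT x₀ hx₀ G hG

end Pool.Agent.Work.D9.MC
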