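import Mathlib
import Pool.Agent.Work.MP_b62148_ag.D9.ModC

/-!
Module (c2') of D9: every point of `X` over a point of the plane at which the six linear equations
are independent and the conic is not the whole plane is in the closure of the rational points.
-/

namespace Pool.Agent.Work.D9.MC

open MvPolynomial Matrix

/-- (c2'), with an auxiliary algebraically closed field, and chosen functionals and direction -/
theorem dense_core2 {L Ω : Type*} (K : Type*) [Field L] [CharZero L] [Field Ω] [Algebra L Ω]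
    [Field K] [Algebra L K] [Algebra Ω K] [IsScalarTower L Ω K] [IsAlgClosed K]
    (B : Fin 3 → Matrix (Fin 3) (Fin 3) L) (n : Fin 3 → Fin 3 × Fin 3 → Fin 3 × Fin 3 → L)
    (hT : ∀ G : MvPolynomial (Fin 3) L, (∀ x ∈ Split B n, eval x G = 0) → G = 0)
    (θ : Fin 3 → I9 → L) (hΔ0 : Dl (MvPolynomial (Fin 3) L) B θ X ≠ 0)
    (hds0 : ds B θ n (X : Fin 3 → MvPolynomial (Fin 3) L) ≠ 0) (v : Fin 3 → L)
    (hv0 : qq (Gr (MvPolynomial (Fin 3) L) B θ n X) (fun i => C (v i)) ≠ 0)
    (G : MvPolynomial (Fin 3 ⊕ (Fin 3 × Fin 3)) L)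
    (hG : ∀ (x : Fin 3 → L) (A : Matrix (Fin 3) (Fin 3) L), x ≠ 0 → A ≠ 0 → IsPt B n x A →
      eval (join x A) G = 0)
    (x : Fin 3 → Ω) (A : Matrix (Fin 3) (Fin 3) Ω)
    (hA : IsPt (BB Ω B) (NN Ω n) x A) (h1 : Dl Ω B θ x ≠ 0)
    (h1v : qq (Gr Ω B θ n x) (fun i => algebraMap L Ω (v i)) ≠ 0) :
    aeval (join x A) G = 0 := by
  let P := MvPolynomial (Fin 3) L
  set al : P := qq (Gr P B θ n X) (fun i => C (v i)) with hal
  obtain ⟨N, r1, r0, hdiv⟩ := exists_div (K := K) B θ n v G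
  -- evaluation of the conditions at rational points
  have eΔ : ∀ x : Fin 3 → L, eval x (Dl P B θ X) = Dl L B θ x := by
    intro x
    have := Dl_map (aeval x : P →ₐ[L] L) B θ X
    rw [aeval_Xfun] at this
    exact this
  have eds : ∀ x : Fin 3 → L, eval x (ds B θ n (X : Fin 3 → P)) = ds B θ n x := by
    intro x
    have := ds_map (aeval x : P →ₐ[L] L) B θ n X
    rw [aeval_Xfun] at this
    exact this
  have eal : ∀ x : Fin 3 → L, eval x al = qq (Gr L B θ n x) v := by
    intro x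
    have := qqGr_map (aeval x : P →ₐ[L] L) B θ n X (fun i => C (v i))
    rw [aeval_Xfun] at this
    have h2 : (fun i => (aeval x : P →ₐ[L] L) (C (v i))) = v := by
      funext i
      exact MvPolynomial.aeval_C _ _
    rw [h2] at this
    exact this
  -- the remainders vanish
  let T := MvPolynomial (Fin 3 ⊕ Fin 3) L
  let xS : Fin 3 → T := fun i => X (Sum.inl i)
  let uS : Fin 3 → T := fun i => X (Sum.inr i)
  let vS : Fin 3 → T := fun i => C (v i)
  let DS : T := bb (Gr T B θ n xS) vS uS ^ 2 - 4 * qq (Gr T B θ n xS) vS * qq (Gr T B θ n xS) uS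
  have eDS : ∀ x u : Fin 3 → L, eval (Sum.elim x u) DS
      = bb (Gr L B θ n x) v u ^ 2 - 4 * qq (Gr L B θ n x) v * qq (Gr L B θ n x) u := by
    intro x u
    have hx : (fun i => (aeval (Sum.elim x u) : T →ₐ[L] L) (xS i)) = x := by
      funext i; simp [xS]
    have hu : (fun i => (aeval (Sum.elim x u) : T →ₐ[L] L) (uS i)) = u := by
      funext i; simp [uS]
    have hv : (fun i => (aeval (Sum.elim x u) : T →ₐ[L] L) (vS i)) = v := by
      funext i
      exact MvPolynomial.aeval_C _ _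
    show (aeval (Sum.elim x u) : T →ₐ[L] L) DS = _
    simp only [DS]
    rw [map_sub, map_pow, map_mul, map_mul, map_ofNat, bbGr_map, qqGr_map, qqGr_map, hx, hu, hv]
  have hDS0 : DS ≠ 0 := by
    intro h0
    have h1 : ds B θ n (X : Fin 3 → P) * al ≠ 0 := mul_ne_zero hds0 hv0
    apply h1
    apply MvPolynomial.funext
    intro x
    rw [map_mul, eds, eal, map_zero]
    by_contra hcon
    obtain ⟨h2, h3⟩ := mul_ne_zero_iff.mp hcon
    obtain ⟨u, hu⟩ := disc_exists (Gr L B θ n x) h2 v h3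
    apply hu
    rw [← eDS, h0, map_zero]
  have hrem : ∀ r : T, (∀ x ∈ Split B n, Dl L B θ x ≠ 0 → ds B θ n x ≠ 0 →
      qq (Gr L B θ n x) v ≠ 0 → ∀ u : Fin 3 → L, eval (Sum.elim x u) DS ≠ 0 →
      eval (Sum.elim x u) r = 0) → r = 0 := by
    intro r hr
    have h1 : r * DS = 0 := by
      apply MvPolynomial.funext
      intro y
      let x : Fin 3 → L := fun i => y (Sum.inl i)
      let u : Fin 3 → L := fun i => y (Sum.inr i)
      have hy : y = Sum.elim x u := by
        funext j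
        rcases j with j | j <;> rfl
      let PL : P := aeval (Sum.elim X (fun i => C (u i)) : Fin 3 ⊕ Fin 3 → P) (r * DS)
      have hPL : ∀ x' : Fin 3 → L, eval x' PL = eval (Sum.elim x' u) (r * DS) := by
        intro x'
        show (aeval x' : P →ₐ[L] L) (aeval (Sum.elim X (fun i => C (u i)) : Fin 3 ⊕ Fin 3 → P)
          (r * DS)) = (aeval (Sum.elim x' u) : T →ₐ[L] L) (r * DS)
        rw [← AlgHom.comp_apply]
        congr 1
        apply MvPolynomial.algHom_ext
        intro j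
        rw [AlgHom.comp_apply, aeval_X, aeval_X]
        rcases j with j | j
        · simp
        · rw [Sum.elim_inr, Sum.elim_inr]
          exact MvPolynomial.aeval_C _ _
      have hzero : PL * (Dl P B θ X * ds B θ n (X : Fin 3 → P) * al) = 0 := by
        apply hT
        intro x' hx'
        rw [map_mul, map_mul, map_mul, eΔ, eds, eal, hPL, map_mul]
        by_contra hcon
        obtain ⟨h2, h3⟩ := mul_ne_zero_iff.mp hcon
        obtain ⟨h4, h5⟩ := mul_ne_zero_iff.mp h3
        obtain ⟨h6, h7⟩ := mul_ne_zero_iff.mp h4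
        obtain ⟨h8, h9⟩ := mul_ne_zero_iff.mp h2
        exact h8 (hr x' hx' h6 h7 h5 u h9)
      have hPL0 : PL = 0 := (mul_eq_zero.mp hzero).resolve_right
        (mul_ne_zero (mul_ne_zero hΔ0 hds0) hv0)
      rw [hy, ← hPL, hPL0, map_zero, map_zero]
    exact (mul_eq_zero.mp h1).resolve_right hDS0
  have hr1 : r1 = 0 := hrem r1 (fun x hx h1 h2 h3 u hu =>
    (rem_zero (K := K) B θ n v G hG N r1 r0 hdiv x hx h1 h2 h3 u (by rw [← eDS]; exact hu)).1)
  have hr0 : r0 = 0 := hrem r0 (fun x hx h1 h2 h3 u hu =>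
    (rem_zero (K := K) B θ n v G hG N r1 r0 hdiv x hx h1 h2 h3 u (by rw [← eDS]; exact hu)).2)
  -- conclusion
  have halx : aeval x al = qq (Gr Ω B θ n x) (fun i => algebraMap L Ω (v i)) := by
    have := qqGr_map (aeval x : P →ₐ[L] Ω) B θ n X (fun i => C (v i))
    rw [aeval_Xfun] at this
    have h2 : (fun i => (aeval x : P →ₐ[L] Ω) (C (v i))) = fun i => algebraMap L Ω (v i) := by
      funext i
      exact MvPolynomial.aeval_C _ _
    rw [h2] at this
    exact this
  obtain ⟨w, hw, hwq⟩ := exists_coord B θ n x h1 A hA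
  let ι : Ω →ₐ[L] K := IsScalarTower.toAlgHom L Ω K
  have hιL : ∀ l : L, ι (algebraMap L Ω l) = algebraMap L K l := fun l => ι.commutes l
  have hιinj : Function.Injective ι := ι.toRingHom.injective
  have h2 := hdiv (fun i => ι (x i)) (fun i => ι (w i)) 0 (by
    rw [zero_smul, add_zero, ← qqGr_map ι, hwq, map_zero])
  rw [hr1, hr0, map_zero, zero_mul, add_zero, zero_smul, add_zero] at h2
  have h3 : (join (fun i => ι (x i)) (Ln K B θ (fun i => ι (x i)) (fun i => ι (w i))) :
      Fin 3 ⊕ I9 → K) = fun j => ι (join x A j) := by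
    funext j
    rcases j with j | j
    · rfl
    · show Ln K B θ (fun i => ι (x i)) (fun i => ι (w i)) j.1 j.2 = ι (A j.1 j.2)
      rw [hw, Ln_map]
  have h4 : aeval (fun j => ι (join x A j)) G = ι (aeval (join x A) G) := by
    rw [← AlgHom.comp_apply, MvPolynomial.comp_aeval]
  have h5 : qq (Gr K B θ n fun i => ι (x i)) (fun i => algebraMap L K (v i)) = ι (aeval x al) := by
    rw [halx, qqGr_map]
    simp only [hιL]
  rw [h3, h4, h5, ← map_pow, ← map_mul] at h2
  have h6 : aeval x al ^ N * aeval (join x A) G = 0 := by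
    apply hιinj
    rw [h2, map_zero]
  rcases mul_eq_zero.mp h6 with h7 | h7
  · exfalso
    apply h1v
    rw [← halx]
    by_contra h9
    exact pow_ne_zero N h9 h7
  · exact h7


section two

variable {L Ω : Type*} [Field L] [Field Ω] [Algebra L Ω]

/-- functionals over the base field, for two points -/
lemma exists_theta_two [Infinite L] (B : Fin 3 → Matrix (Fin 3) (Fin 3) L) (x₀ x₁ : Fin 3 → Ω)
    (hs₀ : ∀ y z : Fin 3 → Ω, ∃ A : Matrix (Fin 3) (Fin 3) Ω, A *ᵥ x₀ = y ∧
      ∀ i, trB (BB Ω B) i A = z i)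
    (hs₁ : ∀ y z : Fin 3 → Ω, ∃ A : Matrix (Fin 3) (Fin 3) Ω, A *ᵥ x₁ = y ∧
      ∀ i, trB (BB Ω B) i A = z i) :
    ∃ θ : Fin 3 → I9 → L, Dl Ω B θ x₀ ≠ 0 ∧ Dl Ω B θ x₁ ≠ 0 := by
  let p : (Fin 3 → Ω) → MvPolynomial (Fin 3 × I9) Ω := fun x =>
    (eqMat (fun i => (BB Ω B i).map (C : Ω →+* MvPolynomial (Fin 3 × I9) Ω))
      (fun i s => X (i, s)) (fun i => C (x i))).det
  have hp : ∀ (x : Fin 3 → Ω) (y : Fin 3 × I9 → Ω),
      eval y (p x) = (eqMat (BB Ω B) (fun i s => y (i, s)) x).det := by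
    intro x y
    have h := det_map' (eval y)
      (fun i => (BB Ω B i).map (C : Ω →+* MvPolynomial (Fin 3 × I9) Ω))
      (fun i s => X (i, s)) (fun i => C (x i))
    show eval y (eqMat (fun i => (BB Ω B i).map (C : Ω →+* MvPolynomial (Fin 3 × I9) Ω))
      (fun i s => X (i, s)) (fun i => C (x i))).det = _
    rw [h]
    simp only [eval_X, eval_C]
    congr 2
    funext i
    ext r c
    rw [Matrix.map_apply, Matrix.map_apply, eval_C]
  have hp0 : ∀ x : Fin 3 → Ω, (∀ y z : Fin 3 → Ω, ∃ A : Matrix (Fin 3) (Fin 3) Ω, A *ᵥ x = y ∧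
      ∀ i, trB (BB Ω B) i A = z i) → p x ≠ 0 := by
    intro x hs h0
    obtain ⟨θ₁, hθ₁⟩ := exists_theta (BB Ω B) x hs
    apply hθ₁
    have := hp x (fun s => θ₁ s.1 s.2)
    rw [h0, map_zero] at this
    exact this.symm
  obtain ⟨y, hy⟩ := exists_point (L := L) (p x₀ * p x₁) (mul_ne_zero (hp0 x₀ hs₀) (hp0 x₁ hs₁))
  rw [map_mul] at hy
  obtain ⟨h0, h1⟩ := mul_ne_zero_iff.mp hy
  rw [hp] at h0 h1
  exact ⟨fun i s => y (i, s), h0, h1⟩

/-- a nonzero quadratic form over an extension does not vanish on all vectors over the base -/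
lemma exists_dir_base [Infinite L] (Q : Matrix (Fin 3) (Fin 3) Ω) (t : Fin 3 → Ω)
    (ht : qq Q t ≠ 0) : ∃ v : Fin 3 → L, qq Q (fun i => algebraMap L Ω (v i)) ≠ 0 := by
  let p : MvPolynomial (Fin 3) Ω := qq (Q.map (C : Ω →+* MvPolynomial (Fin 3) Ω)) X
  have hp : ∀ y : Fin 3 → Ω, eval y p = qq Q y := by
    intro y
    have h := qq_map (eval y) (Q.map (C : Ω →+* MvPolynomial (Fin 3) Ω)) X
    show eval y (qq (Q.map (C : Ω →+* MvPolynomial (Fin 3) Ω)) X) = _
    rw [← h]
    congr 1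
    · ext r c
      rw [Matrix.map_apply, Matrix.map_apply, eval_C]
    · funext i
      exact eval_X _
  have hp0 : p ≠ 0 := by
    intro h0
    apply ht
    rw [← hp, h0, map_zero]
  obtain ⟨y, hy⟩ := exists_point (L := L) p hp0
  exact ⟨y, by rw [← hp]; exact hy⟩

end two

/-- (c2') If the points over which the conic has a point are dense in the plane and some fibre over
an extension is a smooth conic, then every point of `X` over a point at which the linear equations
are independent and the conic is not the whole plane is in the closure of the points over the base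
field. -/
theorem dense_of_split' {L Ω : Type*} [Field L] [CharZero L] [Field Ω] [Algebra L Ω]
    (B : Fin 3 → Matrix (Fin 3) (Fin 3) L) (n : Fin 3 → Fin 3 × Fin 3 → Fin 3 × Fin 3 → L)
    (hT : ∀ G : MvPolynomial (Fin 3) L, (∀ x ∈ Split B n, eval x G = 0) → G = 0)
    (x₀ : Fin 3 → Ω)
    (hx₀ : SmoothFibre (fun i => (B i).map (algebraMap L Ω))
      (fun j s t => algebraMap L Ω (n j s t)) x₀)
    (G : MvPolynomial (Fin 3 ⊕ (Fin 3 × Fin 3)) L)
    (hG : ∀ (x : Fin 3 → L) (A : Matrix (Fin 3) (Fin 3) L), x ≠ 0 → A ≠ 0 → IsPt B n x A →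
      eval (join x A) G = 0)
    (x : Fin 3 → Ω) (A : Matrix (Fin 3) (Fin 3) Ω)
    (hA : IsPt (fun i => (B i).map (algebraMap L Ω)) (fun j s t => algebraMap L Ω (n j s t)) x A)
    (hs : ∀ y z : Fin 3 → Ω, ∃ A' : Matrix (Fin 3) (Fin 3) Ω, A' *ᵥ x = y ∧
      ∀ i, trB (fun i => (B i).map (algebraMap L Ω)) i A' = z i)
    (hq : ∃ A' : Matrix (Fin 3) (Fin 3) Ω, A' *ᵥ x = 0 ∧
      (∀ i, trB (fun i => (B i).map (algebraMap L Ω)) i A' = 0) ∧
      qf (fun j s t => algebraMap L Ω (n j s t)) x A' A' ≠ 0) :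
    aeval (join x A) G = 0 := by
  obtain ⟨θ, hθ, hθx⟩ := exists_theta_two B x₀ x hx₀.surj hs
  let P := MvPolynomial (Fin 3) L
  have hΔ0 : Dl P B θ X ≠ 0 := by
    intro h0
    apply hθ
    have := Dl_map (aeval x₀ : P →ₐ[L] Ω) B θ X
    rw [h0, map_zero] at this
    rw [this]
    congr 1
    funext i
    exact (aeval_X _ _).symm
  have hds0 : ds B θ n (X : Fin 3 → P) ≠ 0 := by
    intro h0
    have h1 := ds_ne B θ n x₀ hθ hx₀
    apply h1
    have := ds_map (aeval x₀ : P →ₐ[L] Ω) B θ n X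
    rw [h0, map_zero] at this
    rw [this]
    congr 1
    funext i
    exact (aeval_X _ _).symm
  obtain ⟨A', hA1, hA2, hA3⟩ := hq
  have hlin := eq_lin (BB Ω B) (TH Ω θ) x hθx A' hA1 hA2
  obtain ⟨v, hv⟩ := exists_dir_base (L := L) (Gr Ω B θ n x)
    (fun j => (∑ s : I9, TH Ω θ j s * A' s.1 s.2) / (eqMat (BB Ω B) (TH Ω θ) x).det) (by
      intro h0
      apply hA3
      rw [hlin]
      show qf (NN Ω n) x (lin _ _ _ _) (lin _ _ _ _) = 0
      rw [qf_lin_self]
      exact h0)
  have hv0 : qq (Gr P B θ n X) (fun i => C (v i)) ≠ 0 := by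
    intro h0
    apply hv
    have := qqGr_map (aeval x : P →ₐ[L] Ω) B θ n X (fun i => C (v i))
    rw [h0, map_zero, aeval_Xfun] at this
    have h2 : (fun i => (aeval x : P →ₐ[L] Ω) (C (v i))) = fun i => algebraMap L Ω (v i) := by
      funext i
      exact MvPolynomial.aeval_C _ _
    rw [h2] at this
    exact this.symm
  exact dense_core2 (AlgebraicClosure Ω) B n hT θ hΔ0 hds0 v hv0 G hG x A hA hθx hv

end Pool.Agent.Work.D9.MC
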