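import Mathlib
import Pool.Agent.Work.MP_b62148_ag.D9.ModC2
import Pool.Agent.Work.MP_b62148_ag.D9.OpenF
import Pool.Agent.Work.MP_b62148_ag.D9.Elim

/-!
For general `(B, n)` no fibre of `X` over the plane is a plane: the quadratic form does not vanish
identically on the solutions of the six linear equations, for every point of the plane.
-/

namespace Pool.Agent.Work.D9.NP

open MvPolynomial Matrix MC OF

section homog

variable {A τ : Type*} [CommRing A]

theorem det_hom {m : Type*} [Fintype m] [DecidableEq m] (M : Matrix m m (MvPolynomial τ A))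
    (δ : m → ℕ) (h : ∀ a b, (M a b).IsHomogeneous (δ a)) : M.det.IsHomogeneous (∑ a, δ a) := by
  rw [Matrix.det_apply]
  refine IsHomogeneous.sum _ _ _ fun σ _ => ?_
  have h1 : (∏ i, M (σ i) i).IsHomogeneous (∑ i, δ (σ i)) :=
    IsHomogeneous.prod _ _ _ fun i _ => h (σ i) i
  rw [Equiv.sum_comp σ δ] at h1
  rw [Units.smul_def]
  have h2 : (∏ i, M (σ i) i) ∈ homogeneousSubmodule τ A (∑ a, δ a) := h1
  exact zsmul_mem h2 _

theorem bas_hom (B : Fin 3 → Matrix (Fin 3) (Fin 3) A) (θ : Fin 3 → I9 → A) (i r c : Fin 3) :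
    (bas (mB (C : A →+* MvPolynomial (Fin 3) A) B) (fun i s => C (θ i s)) X i r c).IsHomogeneous
      3 := by
  unfold bas
  rw [Matrix.of_apply, Matrix.adjugate_apply]
  have h0 : (∑ a : I9, if a.1 = 0 then 1 else 0) = 3 := by
    rw [Fintype.sum_prod_type]
    simp [Fin.sum_univ_three]
  have key : ∀ (M : Matrix I9 I9 (MvPolynomial (Fin 3) A)),
      (∀ a b, (M a b).IsHomogeneous (if a.1 = 0 then 1 else 0)) → M.det.IsHomogeneous 3 := by
    intro M hM
    have := det_hom M _ hM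
    rwa [h0] at this
  refine key _ ?_
  rintro ⟨a, j⟩ ⟨s, t⟩
  by_cases ha : ((a, j) : I9) = (2, i)
  · rw [ha, Matrix.updateRow_self]
    have : (if ((2 : Fin 3), i).1 = 0 then 1 else 0) = 0 := by simp
    rw [this]
    by_cases hs : ((s, t) : I9) = (r, c)
    · rw [hs, Pi.single_eq_same]
      exact isHomogeneous_one _ _
    · rw [Pi.single_eq_of_ne hs]
      exact isHomogeneous_zero _ _ _
  · rw [Matrix.updateRow_ne ha]
    fin_cases a
    · by_cases hs : s = j
      · simp only [eqMat, Matrix.of_apply, Fin.zero_eta, Matrix.cons_val_zero, if_pos hs]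
        exact isHomogeneous_X _ _
      · simp only [eqMat, Matrix.of_apply, Fin.zero_eta, Matrix.cons_val_zero, if_neg hs]
        exact isHomogeneous_zero _ _ _
    · simp only [eqMat, mB, Matrix.of_apply, Matrix.map_apply]
      exact isHomogeneous_C _ _
    · simp only [eqMat, Matrix.of_apply]
      exact isHomogeneous_C _ _

theorem qf_hom (n : Fin 3 → I9 → I9 → A) (M M' : Matrix (Fin 3) (Fin 3) (MvPolynomial (Fin 3) A))
    (h : ∀ r c, (M r c).IsHomogeneous 3) (h' : ∀ r c, (M' r c).IsHomogeneous 3) :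
    (qf (mN (C : A →+* MvPolynomial (Fin 3) A) n) X M M').IsHomogeneous 7 := by
  unfold qf
  refine IsHomogeneous.sum _ _ _ fun j _ => ?_
  have h1 : (∑ s : I9, ∑ t : I9, mN (C : A →+* MvPolynomial (Fin 3) A) n j s t * M s.1 s.2 *
      M' t.1 t.2).IsHomogeneous 6 := by
    refine IsHomogeneous.sum _ _ _ fun s _ => IsHomogeneous.sum _ _ _ fun t _ => ?_
    exact ((isHomogeneous_C (Fin 3) (n j s t)).mul (h s.1 s.2)).mul (h' t.1 t.2)
  exact (isHomogeneous_X A j).mul h1

end homog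

section generic

/-- generic matrices -/
noncomputable def gB : Fin 3 → Matrix (Fin 3) (Fin 3) (MvPolynomial Ix ℚ) :=
  fun i => Matrix.of fun r c => X (Sum.inl (i, r, c))

/-- generic quadratic forms -/
noncomputable def gN : Fin 3 → I9 → I9 → MvPolynomial Ix ℚ := fun j s t => X (Sum.inr (j, s, t))

/-- the family of forms of degree seven -/
noncomputable def fam (a : (Fin 3 → I9 → ℚ) × Fin 3 × Fin 3) :
    MvPolynomial (Fin 3) (MvPolynomial Ix ℚ) :=
  qf (mN (C : MvPolynomial Ix ℚ →+* MvPolynomial (Fin 3) (MvPolynomial Ix ℚ)) gN) X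
      (bas (mB C gB) (fun i s => C (C (a.1 i s))) X a.2.1)
      (bas (mB C gB) (fun i s => C (C (a.1 i s))) X a.2.2) +
    qf (mN (C : MvPolynomial Ix ℚ →+* MvPolynomial (Fin 3) (MvPolynomial Ix ℚ)) gN) X
      (bas (mB C gB) (fun i s => C (C (a.1 i s))) X a.2.2)
      (bas (mB C gB) (fun i s => C (C (a.1 i s))) X a.2.1)

theorem fam_hom (a : (Fin 3 → I9 → ℚ) × Fin 3 × Fin 3) : (fam a).IsHomogeneous 7 := by
  unfold fam
  refine IsHomogeneous.add (qf_hom _ _ _ ?_ ?_) (qf_hom _ _ _ ?_ ?_)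
  all_goals
    intro r c
    exact bas_hom gB (fun i s => C (a.1 i s)) _ r c

theorem eval_fam {Ω : Type*} [Field Ω] [Algebra ℚ Ω] (φ : MvPolynomial Ix ℚ →+* Ω)
    (hφ : ∀ q : ℚ, φ (C q) = algebraMap ℚ Ω q) (x : Fin 3 → Ω)
    (a : (Fin 3 → I9 → ℚ) × Fin 3 × Fin 3) :
    eval₂ φ x (fam a) =
      qf (mN φ gN) x (bas (mB φ gB) (TH Ω a.1) x a.2.1) (bas (mB φ gB) (TH Ω a.1) x a.2.2) +
      qf (mN φ gN) x (bas (mB φ gB) (TH Ω a.1) x a.2.2) (bas (mB φ gB) (TH Ω a.1) x a.2.1) := by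
  have hb : ∀ i, (bas (mB (C : MvPolynomial Ix ℚ →+* MvPolynomial (Fin 3) (MvPolynomial Ix ℚ)) gB)
      (fun i s => C (C (a.1 i s))) X i).map (eval₂Hom φ x) = bas (mB φ gB) (TH Ω a.1) x i := by
    intro i
    ext r c
    rw [Matrix.map_apply, ← bas_map]
    have h1 : (fun i => (mB (C : MvPolynomial Ix ℚ →+* MvPolynomial (Fin 3) (MvPolynomial Ix ℚ))
        gB i).map (eval₂Hom φ x)) = mB φ gB := by
      funext i
      ext r c
      simp [mB]
    have h2 : (fun (i : Fin 3) (s : I9) => eval₂Hom φ x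
        (C (C (a.1 i s)) : MvPolynomial (Fin 3) (MvPolynomial Ix ℚ))) = TH Ω a.1 := by
      funext i s
      rw [coe_eval₂Hom, eval₂_C, hφ]
      rfl
    have h3 : (fun i => eval₂Hom φ x (X i : MvPolynomial (Fin 3) (MvPolynomial Ix ℚ))) = x := by
      funext i
      simp
    rw [h1, h2, h3]
  have hn : mN (eval₂Hom φ x) (mN (C : MvPolynomial Ix ℚ →+*
      MvPolynomial (Fin 3) (MvPolynomial Ix ℚ)) gN) = mN φ gN := by
    funext j s t
    simp [mN]
  have hx : (eval₂Hom φ x) ∘ (X : Fin 3 → MvPolynomial (Fin 3) (MvPolynomial Ix ℚ)) = x := by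
    funext i
    simp
  show eval₂Hom φ x (fam a) = _
  unfold fam
  rw [map_add, map_qf, map_qf, hb, hb, hn, hx]

end generic

section plane

variable {Ω : Type*} [Field Ω]

/-- from the family to the quadratic form -/
theorem form_zero (h2 : (2 : Ω) ≠ 0) (B : Fin 3 → Matrix (Fin 3) (Fin 3) Ω)
    (n : Fin 3 → I9 → I9 → Ω) (θ : Fin 3 → I9 → Ω) (x : Fin 3 → Ω) (hΔ : (eqMat B θ x).det ≠ 0)
    (h : ∀ i j, qf n x (bas B θ x i) (bas B θ x j) + qf n x (bas B θ x j) (bas B θ x i) = 0)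
    (A : Matrix (Fin 3) (Fin 3) Ω) (hA : A *ᵥ x = 0) (hB : ∀ i, trB B i A = 0) :
    qf n x A A = 0 := by
  have h1 := eq_lin B θ x hΔ A hA hB
  set t : Fin 3 → Ω := fun j => (∑ s : I9, θ j s * A s.1 s.2) / (eqMat B θ x).det
  rw [h1]
  have h3 : 2 * qf n x (lin B θ x t) (lin B θ x t) = 0 := by
    simp only [lin, Fin.sum_univ_three, qf_add_left, qf_add_right, qf_smul_left, qf_smul_right]
    linear_combination (t 0 * t 0) * h 0 0 + (t 1 * t 1) * h 1 1 + (t 2 * t 2) * h 2 2 +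
      (2 * t 0 * t 1) * h 0 1 + (2 * t 0 * t 2) * h 0 2 + (2 * t 1 * t 2) * h 1 2
  exact (mul_eq_zero.1 h3).resolve_left h2

/-- from a nonzero value of the family to a vector -/
theorem exists_form_ne (B : Fin 3 → Matrix (Fin 3) (Fin 3) Ω)
    (n : Fin 3 → I9 → I9 → Ω) (θ : Fin 3 → I9 → Ω) (x : Fin 3 → Ω) (i j : Fin 3)
    (h : qf n x (bas B θ x i) (bas B θ x j) + qf n x (bas B θ x j) (bas B θ x i) ≠ 0) :
    ∃ A : Matrix (Fin 3) (Fin 3) Ω, A *ᵥ x = 0 ∧ (∀ i, trB B i A = 0) ∧ qf n x A A ≠ 0 := by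
  by_contra hcon
  push Not at hcon
  have h1 := hcon (bas B θ x i) (bas_ker B θ x i) (bas_tr B θ x i)
  have h2 := hcon (bas B θ x j) (bas_ker B θ x j) (bas_tr B θ x j)
  have h3 := hcon (bas B θ x i + bas B θ x j)
    (by rw [Matrix.add_mulVec, bas_ker, bas_ker, add_zero])
    (fun k => by rw [trB_add, bas_tr, bas_tr, add_zero])
  apply h
  rw [qf_add_left, qf_add_right, qf_add_right] at h3
  linear_combination h3 - h1 - h2

end plane

section witness

/-- antisymmetric matrices -/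
def wB' (F : Type*) [CommRing F] : Fin 3 → Matrix (Fin 3) (Fin 3) F :=
  ![!![0, 0, 0; 0, 0, 1; 0, -1, 0], !![0, 0, -1; 0, 0, 0; 1, 0, 0], !![0, 1, 0; -1, 0, 0; 0, 0, 0]]

/-- the quadratic vector `(A₂₂², A₀₀², A₁₁²)` -/
def wn' (F : Type*) [CommRing F] : Fin 3 → I9 → I9 → F :=
  fun j s t => if s = t ∧ s.1 = s.2 ∧ s.1 = j + 2 then 1 else 0

theorem trB_w {F : Type*} [CommRing F] (A : Matrix (Fin 3) (Fin 3) F) :
    trB (wB' F) 0 A = A 2 1 - A 1 2 ∧ trB (wB' F) 1 A = A 0 2 - A 2 0 ∧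
      trB (wB' F) 2 A = A 1 0 - A 0 1 := by
  refine ⟨?_, ?_, ?_⟩
  all_goals
    simp [trB, wB', Fin.sum_univ_three]
    try ring

theorem qf_w {F : Type*} [CommRing F] (x : Fin 3 → F) (A : Matrix (Fin 3) (Fin 3) F) :
    qf (wn' F) x A A = x 0 * A 2 2 ^ 2 + x 1 * A 0 0 ^ 2 + x 2 * A 1 1 ^ 2 := by
  simp [qf, wn', Fin.sum_univ_three, Fintype.sum_prod_type]
  ring

theorem surj_w {F : Type*} [Field F] (h2 : (2 : F) ≠ 0) (x : Fin 3 → F) (hx : x ≠ 0)
    (y z : Fin 3 → F) :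
    ∃ A : Matrix (Fin 3) (Fin 3) F, A *ᵥ x = y ∧ ∀ i, trB (wB' F) i A = z i := by
  obtain ⟨v, hv⟩ : ∃ v : Fin 3 → F, v 0 * x 0 + v 1 * x 1 + v 2 * x 2 = 1 := by
    obtain ⟨j, hj⟩ := Function.ne_iff.1 hx
    refine ⟨Pi.single j (x j)⁻¹, ?_⟩
    have hj' : x j ≠ 0 := hj
    have h1 : ∑ i, (Pi.single j (x j)⁻¹ : Fin 3 → F) i * x i = 1 := by
      rw [Finset.sum_eq_single j]
      · rw [Pi.single_eq_same, inv_mul_cancel₀ hj']
      · intro b _ hb
        rw [Pi.single_eq_of_ne hb, zero_mul]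
      · simp
    rwa [Fin.sum_univ_three] at h1
  obtain ⟨h, hh⟩ : ∃ h : F, h * 2 = 1 := ⟨2⁻¹, inv_mul_cancel₀ h2⟩
  let K : Matrix (Fin 3) (Fin 3) F := !![0, -(h * z 2), h * z 1; h * z 2, 0, -(h * z 0);
    -(h * z 1), h * z 0, 0]
  obtain ⟨y', hy'⟩ : ∃ y' : Fin 3 → F, ∀ i, y' i + (K *ᵥ x) i = y i :=
    ⟨fun i => y i - (K *ᵥ x) i, fun i => by ring⟩
  refine ⟨K + Matrix.of fun r c => y' r * v c + v r * y' c -
    (y' 0 * x 0 + y' 1 * x 1 + y' 2 * x 2) * (v r * v c), ?_, ?_⟩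
  · rw [Matrix.add_mulVec]
    funext i
    rw [Pi.add_apply]
    have h1 : ((Matrix.of fun r c => y' r * v c + v r * y' c -
        (y' 0 * x 0 + y' 1 * x 1 + y' 2 * x 2) * (v r * v c)) *ᵥ x) i = y' i := by
      simp only [mulVec, dotProduct, Matrix.of_apply, Fin.sum_univ_three]
      linear_combination (y' i - v i * (y' 0 * x 0 + y' 1 * x 1 + y' 2 * x 2)) * hv
    rw [h1, add_comm]
    exact hy' i
  · obtain ⟨t0, t1, t2⟩ := trB_w (K + Matrix.of fun r c => y' r * v c + v r * y' c -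
      (y' 0 * x 0 + y' 1 * x 1 + y' 2 * x 2) * (v r * v c))
    intro i
    fin_cases i
    · refine t0.trans ?_
      simp only [K, Matrix.add_apply, Matrix.of_apply, Matrix.cons_val', Matrix.cons_val_zero,
        Matrix.cons_val_one, Matrix.cons_val, Fin.zero_eta]
      linear_combination z 0 * hh
    · refine t1.trans ?_
      simp only [K, Matrix.add_apply, Matrix.of_apply, Matrix.cons_val', Matrix.cons_val_zero,
        Matrix.cons_val_one, Matrix.cons_val, Fin.mk_one]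
      linear_combination z 1 * hh
    · refine t2.trans ?_
      simp only [K, Matrix.add_apply, Matrix.of_apply, Matrix.cons_val', Matrix.cons_val_zero,
        Matrix.cons_val_one, Matrix.cons_val, Fin.reduceFinMk]
      linear_combination z 2 * hh

theorem zero_w {F : Type*} [Field F] (h2 : (2 : F) ≠ 0) (x : Fin 3 → F)
    (h : ∀ A : Matrix (Fin 3) (Fin 3) F, A *ᵥ x = 0 → (∀ i, trB (wB' F) i A = 0) →
      qf (wn' F) x A A = 0) : x = 0 := by
  have key : ∀ A : Matrix (Fin 3) (Fin 3) F, A *ᵥ x = 0 → A 2 1 = A 1 2 → A 0 2 = A 2 0 →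
      A 1 0 = A 0 1 → x 0 * A 2 2 ^ 2 + x 1 * A 0 0 ^ 2 + x 2 * A 1 1 ^ 2 = 0 := by
    intro A hA h0 h1 h2
    rw [← qf_w]
    obtain ⟨t0, t1, t2⟩ := trB_w A
    refine h A hA fun i => ?_
    fin_cases i
    · refine t0.trans ?_
      rw [h0, sub_self]
    · refine t1.trans ?_
      rw [h1, sub_self]
    · refine t2.trans ?_
      rw [h2, sub_self]
  have p2 : x 0 * x 1 ^ 4 + x 2 ^ 5 = 0 := by
    have := key !![0, 0, 0; 0, x 2 ^ 2, -(x 1 * x 2); 0, -(x 1 * x 2), x 1 ^ 2]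
      (by
        funext i
        fin_cases i <;> simp [mulVec, dotProduct, Fin.sum_univ_three] <;> ring)
      (by simp) (by simp) (by simp)
    simp only [Matrix.of_apply, Matrix.cons_val', Matrix.cons_val_zero,
        Matrix.cons_val_one, Matrix.cons_val] at this
    linear_combination this
  have p0 : x 1 * x 2 ^ 4 + x 0 ^ 5 = 0 := by
    have := key !![x 2 ^ 2, 0, -(x 0 * x 2); 0, 0, 0; -(x 0 * x 2), 0, x 0 ^ 2]
      (by
        funext i
        fin_cases i <;> simp [mulVec, dotProduct, Fin.sum_univ_three] <;> ring)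
      (by simp) (by simp) (by simp)
    simp only [Matrix.of_apply, Matrix.cons_val', Matrix.cons_val_zero,
        Matrix.cons_val_one, Matrix.cons_val] at this
    linear_combination this
  have p1 : x 2 * x 0 ^ 4 + x 1 ^ 5 = 0 := by
    have := key !![x 1 ^ 2, -(x 0 * x 1), 0; -(x 0 * x 1), x 0 ^ 2, 0; 0, 0, 0]
      (by
        funext i
        fin_cases i <;> simp [mulVec, dotProduct, Fin.sum_univ_three] <;> ring)
      (by simp) (by simp) (by simp)
    simp only [Matrix.of_apply, Matrix.cons_val', Matrix.cons_val_zero,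
        Matrix.cons_val_one, Matrix.cons_val] at this
    linear_combination this
  have q : 2 * (x 0 * x 1 * x 2) ^ 5 = 0 := by
    linear_combination (x 1 ^ 5 * x 2 ^ 5) * p0 - (x 2 ^ 5 * (x 1 * x 2 ^ 4)) * p1 +
      (x 1 * x 2 ^ 4 * (x 2 * x 0 ^ 4)) * p2
  have q' : x 0 * x 1 * x 2 = 0 :=
    pow_eq_zero_iff (n := 5) (by norm_num) |>.1 ((mul_eq_zero.1 q).resolve_left h2)
  have z5 : ∀ a : F, a ^ 5 = 0 → a = 0 := fun a ha => pow_eq_zero_iff (by norm_num) |>.1 ha
  have hz : x 0 = 0 ∧ x 1 = 0 ∧ x 2 = 0 := by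
    rcases mul_eq_zero.1 q' with h0 | h0
    · rcases mul_eq_zero.1 h0 with h0 | h0
      · rw [h0] at p1 p2
        exact ⟨h0, z5 _ (by linear_combination p1), z5 _ (by linear_combination p2)⟩
      · rw [h0] at p0 p2
        exact ⟨z5 _ (by linear_combination p0), h0, z5 _ (by linear_combination p2)⟩
    · rw [h0] at p0 p1
      exact ⟨z5 _ (by linear_combination p0), z5 _ (by linear_combination p1), h0⟩
  funext i
  fin_cases i
  · exact hz.1
  · exact hz.2.1
  · exact hz.2.2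

end witness

/-- For general `(B, n)` no fibre is a plane. -/
theorem noplane_generic : ∃ Φ : MvPolynomial Ix ℚ, Φ ≠ 0 ∧
    ∀ (Ω : Type*) [Field Ω] [CharZero Ω] [Algebra ℚ Ω] (B : Fin 3 → Matrix (Fin 3) (Fin 3) Ω)
      (n : Fin 3 → I9 → I9 → Ω), aeval (prm B n) Φ ≠ 0 → ∀ x : Fin 3 → Ω, x ≠ 0 →
      ∃ A : Matrix (Fin 3) (Fin 3) Ω, A *ᵥ x = 0 ∧ (∀ i, trB B i A = 0) ∧ qf n x A A ≠ 0 := by
  obtain ⟨Φ, h1, h2⟩ := EL.elim fam (fun _ => 7) fam_hom (prm (wB' ℚ) (wn' ℚ))
    (AlgebraicClosure ℚ) (by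
      intro x hx
      by_contra hne
      have h2' : (2 : AlgebraicClosure ℚ) ≠ 0 := two_ne_zero
      set φ : MvPolynomial Ix ℚ →+* AlgebraicClosure ℚ :=
        (algebraMap ℚ (AlgebraicClosure ℚ)).comp (eval (prm (wB' ℚ) (wn' ℚ))) with hφ
      have hφC : ∀ q : ℚ, φ (C q) = algebraMap ℚ (AlgebraicClosure ℚ) q := by
        intro q
        rw [hφ, RingHom.comp_apply, eval_C]
      have hx' : ∀ i, eval₂ φ x (fam i) = 0 := by
        intro i
        have := hx i
        rw [aeval_def, eval₂_map] at this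
        exact this
      have hB1 : mB φ gB = wB' (AlgebraicClosure ℚ) := by
        funext i
        ext r c
        show φ (X (Sum.inl (i, r, c))) = _
        rw [hφ, RingHom.comp_apply, eval_X]
        show algebraMap ℚ (AlgebraicClosure ℚ) (wB' ℚ i r c) = _
        fin_cases i <;> fin_cases r <;> fin_cases c <;> simp [wB']
      have hN1 : mN φ gN = wn' (AlgebraicClosure ℚ) := by
        funext j s t
        show φ (X (Sum.inr (j, s, t))) = _
        rw [hφ, RingHom.comp_apply, eval_X]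
        show algebraMap ℚ (AlgebraicClosure ℚ) (wn' ℚ j s t) = _
        unfold wn'
        split_ifs
        · exact map_one _
        · exact map_zero _
      have hB2 : BB (AlgebraicClosure ℚ) (wB' ℚ) = wB' (AlgebraicClosure ℚ) := by
        funext i
        ext r c
        show algebraMap ℚ (AlgebraicClosure ℚ) (wB' ℚ i r c) = _
        fin_cases i <;> fin_cases r <;> fin_cases c <;> simp [wB']
      have hs : ∀ y z : Fin 3 → AlgebraicClosure ℚ,
          ∃ A : Matrix (Fin 3) (Fin 3) (AlgebraicClosure ℚ), A *ᵥ x = y ∧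
            ∀ i, trB (BB (AlgebraicClosure ℚ) (wB' ℚ)) i A = z i := by
        rw [hB2]
        exact surj_w h2' x hne
      obtain ⟨θ, hθ, -⟩ := exists_theta_two (wB' ℚ) x x hs hs
      have hθ' : (eqMat (wB' (AlgebraicClosure ℚ)) (TH (AlgebraicClosure ℚ) θ) x).det ≠ 0 := by
        rw [← hB2]
        exact hθ
      apply hne
      refine zero_w h2' x fun A hA hB => form_zero h2' _ _ _ x hθ' (fun i j => ?_) A hA hB
      have := hx' (θ, i, j)
      rw [eval_fam φ hφC, hB1, hN1] at this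
      exact this)
  refine ⟨Φ, ?_, ?_⟩
  · intro h0
    rw [h0, map_zero] at h1
    exact zero_ne_one h1
  · intro Ω _ _ _ B n hΦ x hx
    by_contra hcon
    apply hx
    refine h2 Ω (aeval (prm B n)).toRingHom hΦ x fun a => ?_
    rw [eval_fam _ (fun q => by
      show aeval (prm B n) (C q) = _
      rw [MvPolynomial.aeval_C])]
    have hB1 : mB (aeval (prm B n)).toRingHom gB = B := by
      funext i
      ext r c
      show aeval (prm B n) (X (Sum.inl (i, r, c))) = _
      rw [aeval_X]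
      rfl
    have hN1 : mN (aeval (prm B n)).toRingHom gN = n := by
      funext j s t
      show aeval (prm B n) (X (Sum.inr (j, s, t))) = _
      rw [aeval_X]
      rfl
    rw [hB1, hN1]
    by_contra hne
    exact hcon (exists_form_ne B n _ x _ _ hne)

end Pool.Agent.Work.D9.NP
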