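import Mathlib
import Pool.Agent.Work.MP_b62148_ag.D9.Disc
import Pool.Agent.Work.MP_b62148_ag.D9.NoPlane

/-!
A member with a smooth discriminant curve: antisymmetric `B_i` and
`N = (A₁₁² + A₁₂ A₂₂, A₂₂² + A₂₀ A₀₀, A₀₀² + A₀₁ A₁₁)`.
-/

namespace Pool.Agent.Work.D9.DW

open MvPolynomial Matrix OF DS NP

section frame

/-- exchange of two blocks -/
def sw (α β : Type*) : Equiv.Perm ((α ⊕ β) ⊕ α) where
  toFun := Sum.elim (Sum.elim Sum.inr (fun b => Sum.inl (Sum.inr b))) (fun a => Sum.inl (Sum.inl a))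
  invFun := Sum.elim (Sum.elim Sum.inr (fun b => Sum.inl (Sum.inr b)))
    (fun a => Sum.inl (Sum.inl a))
  left_inv := by rintro ((a | b) | a) <;> rfl
  right_inv := by rintro ((a | b) | a) <;> rfl

variable {R : Type*} [CommRing R] {α β γ : Type*} [Fintype α] [Fintype β] [DecidableEq α]
  [DecidableEq β]

theorem det_border (a : Matrix α α R) (b : Matrix α β R) (c : Matrix β α R) (g : Matrix β β R)
    (r r' : Matrix α α R) :
    ((Equiv.Perm.sign (sw α β) : ℤ) : R) *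
      (fromBlocks (fromBlocks a b c g) (fromRows r' 0) (fromCols r 0) 0).det =
      r'.det * g.det * r.det := by
  rw [← Matrix.det_permute' (sw α β)]
  have h : (fromBlocks (fromBlocks a b c g) (fromRows r' 0) (fromCols r 0) 0).submatrix id
      (sw α β) = fromBlocks (fromBlocks r' b 0 g) (fromRows a c) 0 r := by
    ext i j
    rcases i with (i | i) | i <;> rcases j with (j | j) | j <;> rfl
  rw [h, det_fromBlocks_zero₂₁, det_fromBlocks_zero₂₁]

/-- determinant of a bordered matrix in a frame adapted to the kernel of the border -/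
theorem det_frame [Fintype γ] [DecidableEq γ] (Q : Matrix γ γ R) (S : Matrix α γ R)
    (f : α ⊕ β ≃ γ) (T : Matrix γ (α ⊕ β) R) (hT : ∀ a b, (S * T) a (Sum.inr b) = 0) :
    ((Equiv.Perm.sign (sw α β) : ℤ) : R) * ((T.submatrix f id).det ^ 2 *
      (fromBlocks Q Sᵀ S 0).det) =
      (Matrix.of fun a b => (S * T) a (Sum.inl b)).det ^ 2 *
        (Matrix.of fun a b => (Tᵀ * Q * T) (Sum.inr a) (Sum.inr b)).det := by
  set r : Matrix α α R := Matrix.of fun a b => (S * T) a (Sum.inl b) with hr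
  have hST : S * T = fromCols r 0 := by
    ext a b
    rcases b with b | b
    · rfl
    · rw [hT]; rfl
  set T' := T.submatrix f id with hT'
  let P : Matrix ((α ⊕ β) ⊕ α) ((α ⊕ β) ⊕ α) R := fromBlocks T' 0 0 1
  have hP : P.det = T'.det := by
    show (fromBlocks T' 0 0 1).det = _
    rw [det_fromBlocks_zero₂₁, det_one, mul_one]
  let M : Matrix (γ ⊕ α) (γ ⊕ α) R := fromBlocks Q Sᵀ S 0
  let M' : Matrix ((α ⊕ β) ⊕ α) ((α ⊕ β) ⊕ α) R :=
    fromBlocks (Q.submatrix f f) (Sᵀ.submatrix f id) (S.submatrix id f) 0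
  have hM : M'.det = M.det := by
    rw [← det_submatrix_equiv_self (f.sumCongr (Equiv.refl α)) M]
    congr 1
    ext i j
    rcases i with i | i <;> rcases j with j | j <;> rfl
  have h1 : T'ᵀ * Q.submatrix f f * T' = Tᵀ * Q * T := by
    rw [hT']
    have e1 : (T.submatrix f id)ᵀ = Tᵀ.submatrix id f := rfl
    rw [e1, Matrix.submatrix_mul_equiv, Matrix.submatrix_mul_equiv]
    rfl
  have h2 : S.submatrix id f * T' = S * T := by
    rw [hT', Matrix.submatrix_mul_equiv]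
    rfl
  have h3 : T'ᵀ * Sᵀ.submatrix f id = (S * T)ᵀ := by
    rw [← h2, transpose_mul]
    rfl
  have hK : Pᵀ * M' * P = fromBlocks (fromBlocks (Matrix.toBlocks₁₁ (Tᵀ * Q * T))
      (Matrix.toBlocks₁₂ (Tᵀ * Q * T)) (Matrix.toBlocks₂₁ (Tᵀ * Q * T))
      (Matrix.toBlocks₂₂ (Tᵀ * Q * T))) (fromRows rᵀ 0) (fromCols r 0) 0 := by
    show (fromBlocks T' 0 0 1)ᵀ * fromBlocks (Q.submatrix f f) (Sᵀ.submatrix f id)
      (S.submatrix id f) 0 * fromBlocks T' 0 0 1 = _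
    rw [fromBlocks_transpose, fromBlocks_multiply, fromBlocks_multiply, fromBlocks_toBlocks]
    have z1 : ((0 : Matrix (α ⊕ β) α R))ᵀ = 0 := rfl
    have z2 : ((0 : Matrix α (α ⊕ β) R))ᵀ = 0 := rfl
    have e4 : (fromRows rᵀ 0 : Matrix (α ⊕ β) α R) = (S * T)ᵀ := by
      rw [hST]
      ext i j
      rcases i with i | i <;> rfl
    rw [e4, ← hST]
    simp only [z1, z2, Matrix.zero_mul, Matrix.mul_zero, add_zero, transpose_one, Matrix.one_mul,
      Matrix.mul_one, zero_add]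
    rw [h1, h2, h3]
  have h4 := det_border (Matrix.toBlocks₁₁ (Tᵀ * Q * T)) (Matrix.toBlocks₁₂ (Tᵀ * Q * T))
    (Matrix.toBlocks₂₁ (Tᵀ * Q * T)) (Matrix.toBlocks₂₂ (Tᵀ * Q * T)) r rᵀ
  rw [← hK, det_mul, det_mul, det_transpose, det_transpose, hP, hM] at h4
  have h5 : (Matrix.of fun a b => (Tᵀ * Q * T) (Sum.inr a) (Sum.inr b)) =
      Matrix.toBlocks₂₂ (Tᵀ * Q * T) := rfl
  rw [h5]
  have h6 : ((Equiv.Perm.sign (sw α β) : ℤ) : R) * (T'.det ^ 2 * M.det) =
      ((Equiv.Perm.sign (sw α β) : ℤ) : R) * (T'.det * M.det * T'.det) := by ring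
  show ((Equiv.Perm.sign (sw α β) : ℤ) : R) * (T'.det ^ 2 * M.det) = _
  rw [h6, h4]
  ring

end frame

section witness

/-- coefficients of the witness -/
def vnZ (j : Fin 3) (s t : Fin 3 × Fin 3) : ℤ :=
  if (j, s, t) = (0, (1, 1), (1, 1)) then 1 else
  if (j, s, t) = (0, (1, 2), (2, 2)) then 1 else
  if (j, s, t) = (1, (2, 2), (2, 2)) then 1 else
  if (j, s, t) = (1, (2, 0), (0, 0)) then 1 else
  if (j, s, t) = (2, (0, 0), (0, 0)) then 1 else
  if (j, s, t) = (2, (0, 1), (1, 1)) then 1 else 0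

/-- the same over a ring -/
def vn (R : Type*) [CommRing R] : Fin 3 → Fin 3 × Fin 3 → Fin 3 × Fin 3 → R :=
  fun j s t => (vnZ j s t : R)

variable {R : Type*} [CommRing R]

theorem qf_vn (x : Fin 3 → R) (A A' : Matrix (Fin 3) (Fin 3) R) : qf (vn R) x A A' =
    x 0 * (A 1 1 * A' 1 1 + A 1 2 * A' 2 2) + x 1 * (A 2 2 * A' 2 2 + A 2 0 * A' 0 0) +
    x 2 * (A 0 0 * A' 0 0 + A 0 1 * A' 1 1) := by
  simp [qf, vn, vnZ, Fintype.sum_prod_type, Fin.sum_univ_three]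
  ring

/-- the nonic -/
def non (x : Fin 3 → R) : R :=
  -2 * (x 0 ^ 9 + x 1 ^ 9 + x 2 ^ 9) + 2 * (x 0 * x 1 * x 2) * (x 0 ^ 6 + x 1 ^ 6 + x 2 ^ 6) -
    18 * (x 0 * x 1 * x 2) * (x 0 ^ 3 * x 1 ^ 3 + x 1 ^ 3 * x 2 ^ 3 + x 2 ^ 3 * x 0 ^ 3) +
    12 * (x 0 * x 1 * x 2) ^ 2 * (x 0 ^ 3 + x 1 ^ 3 + x 2 ^ 3) + 22 * (x 0 * x 1 * x 2) ^ 3

/-- the frame -/
def fr (x : Fin 3 → R) : (Fin 3 ⊕ Fin 3) ⊕ Fin 3 → Matrix (Fin 3) (Fin 3) R :=
  Sum.elim (Sum.elim ![!![1, 0, 0; 0, 0, 0; 0, 0, 0], !![0, 1, 0; 1, 0, 0; 0, 0, 0],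
      !![0, 0, 1; 0, 0, 0; 1, 0, 0]]
    ![!![0, 0, 0; 0, 0, 0; 0, 1, 0], !![0, 0, 1; 0, 0, 0; 0, 0, 0], !![0, 0, 0; 1, 0, 0; 0, 0, 0]])
    ![!![x 2 ^ 2, 0, -(x 0 * x 2); 0, 0, 0; -(x 0 * x 2), 0, x 0 ^ 2],
      !![-(2 * (x 1 * x 2)), x 0 * x 2, x 0 * x 1; x 0 * x 2, 0, -(x 0 ^ 2);
        x 0 * x 1, -(x 0 ^ 2), 0],
      !![x 1 ^ 2, -(x 0 * x 1), 0; -(x 0 * x 1), x 0 ^ 2, 0; 0, 0, 0]]

/-- the order of the entries -/
def od : (Fin 3 ⊕ Fin 3) ⊕ Fin 3 → Fin 3 × Fin 3 :=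
  Sum.elim (Sum.elim ![(0, 0), (0, 1), (2, 0)] ![(2, 1), (0, 2), (1, 0)])
    ![(2, 2), (1, 2), (1, 1)]

theorem od_bij : Function.Bijective od := by
  decide

/-- the order of the entries, as an equivalence -/
noncomputable def ode : (Fin 3 ⊕ Fin 3) ⊕ Fin 3 ≃ Fin 3 × Fin 3 := Equiv.ofBijective od od_bij

/-- the frame as a matrix -/
def frT (x : Fin 3 → R) : Matrix (Fin 3 × Fin 3) ((Fin 3 ⊕ Fin 3) ⊕ Fin 3) R :=
  Matrix.of fun s c => fr x c s.1 s.2

theorem det_frT (x : Fin 3 → R) : ((frT x).submatrix ode id).det = -(x 0 ^ 6) := by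
  have h : (frT x).submatrix ode id = fromBlocks (fromBlocks 1 0
      (Matrix.of fun i j => frT x (od (Sum.inl (Sum.inr i))) (Sum.inl (Sum.inl j))) 1)
      (Matrix.of fun i j => frT x (od (Sum.inl i)) (Sum.inr j)) 0
      (Matrix.diagonal ![x 0 ^ 2, -(x 0 ^ 2), x 0 ^ 2]) := by
    ext i j
    rcases i with (i | i) | i <;> rcases j with (j | j) | j
    · show fr x (Sum.inl (Sum.inl j)) (od (Sum.inl (Sum.inl i))).1
        (od (Sum.inl (Sum.inl i))).2 = (1 : Matrix (Fin 3) (Fin 3) R) i j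
      fin_cases i <;> fin_cases j <;> simp [fr, od]
    · show fr x (Sum.inl (Sum.inr j)) (od (Sum.inl (Sum.inl i))).1
        (od (Sum.inl (Sum.inl i))).2 = 0
      fin_cases i <;> fin_cases j <;> simp [fr, od]
    · rfl
    · rfl
    · show fr x (Sum.inl (Sum.inr j)) (od (Sum.inl (Sum.inr i))).1
        (od (Sum.inl (Sum.inr i))).2 = (1 : Matrix (Fin 3) (Fin 3) R) i j
      fin_cases i <;> fin_cases j <;> simp [fr, od]
    · rfl
    · show fr x (Sum.inl (Sum.inl j)) (od (Sum.inr i)).1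
        (od (Sum.inr i)).2 = 0
      fin_cases i <;> fin_cases j <;> simp [fr, od]
    · show fr x (Sum.inl (Sum.inr j)) (od (Sum.inr i)).1
        (od (Sum.inr i)).2 = 0
      fin_cases i <;> fin_cases j <;> simp [fr, od]
    · show fr x (Sum.inr j) (od (Sum.inr i)).1
        (od (Sum.inr i)).2 = Matrix.diagonal ![x 0 ^ 2, -(x 0 ^ 2), x 0 ^ 2] i j
      fin_cases i <;> fin_cases j <;> simp [fr, od]
  rw [h, det_fromBlocks_zero₂₁, det_fromBlocks_zero₁₂, det_one, det_diagonal,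
    Fin.prod_univ_three]
  simp
  ring

theorem six_frT (x : Fin 3 → R) (a : Fin 3 ⊕ Fin 3) (c : (Fin 3 ⊕ Fin 3) ⊕ Fin 3) :
    (six (wB' R) x * frT x) a c =
      (Sum.elim (fr x c *ᵥ x) (fun i => trB (wB' R) i (fr x c)) : Fin 3 ⊕ Fin 3 → R) a := by
  rw [← six_mulVec]
  rfl

theorem ker_fr (x : Fin 3 → R) (a : Fin 3 ⊕ Fin 3) (b : Fin 3) :
    (six (wB' R) x * frT x) a (Sum.inr b) = 0 := by
  rw [six_frT]
  rcases a with a | a
  · show (fr x (Sum.inr b) *ᵥ x) a = 0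
    fin_cases b <;> fin_cases a <;> simp [fr, mulVec, dotProduct, Fin.sum_univ_three] <;> ring
  · show trB (wB' R) a (fr x (Sum.inr b)) = 0
    fin_cases a
    · refine (trB_w _).1.trans ?_
      fin_cases b <;> simp [fr]
    · refine (trB_w _).2.1.trans ?_
      fin_cases b <;> simp [fr]
    · refine (trB_w _).2.2.trans ?_
      fin_cases b <;> simp [fr]

theorem det_six_fr (x : Fin 3 → R) :
    (Matrix.of fun a b => (six (wB' R) x * frT x) a (Sum.inl b)).det = x 0 ^ 3 := by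
  have h : (Matrix.of fun a b => (six (wB' R) x * frT x) a (Sum.inl b)) =
      fromBlocks !![x 0, x 1, x 2; 0, x 0, 0; 0, 0, x 0]
        (Matrix.of fun a b => (six (wB' R) x * frT x) (Sum.inl a) (Sum.inl (Sum.inr b))) 0 1 := by
    ext a b
    rw [Matrix.of_apply]
    rcases a with a | a <;> rcases b with b | b
    · rw [six_frT]
      show (fr x (Sum.inl (Sum.inl b)) *ᵥ x) a = !![x 0, x 1, x 2; 0, x 0, 0; 0, 0, x 0] a b
      fin_cases b <;> fin_cases a <;> simp [fr, mulVec, dotProduct, Fin.sum_univ_three]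
    · rfl
    · rw [six_frT]
      show trB (wB' R) a (fr x (Sum.inl (Sum.inl b))) = 0
      fin_cases a
      · refine (trB_w _).1.trans ?_
        fin_cases b <;> simp [fr]
      · refine (trB_w _).2.1.trans ?_
        fin_cases b <;> simp [fr]
      · refine (trB_w _).2.2.trans ?_
        fin_cases b <;> simp [fr]
    · rw [six_frT]
      show trB (wB' R) a (fr x (Sum.inl (Sum.inr b))) = (1 : Matrix (Fin 3) (Fin 3) R) a b
      fin_cases a
      · refine (trB_w _).1.trans ?_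
        fin_cases b <;> simp [fr]
      · refine (trB_w _).2.1.trans ?_
        fin_cases b <;> simp [fr]
      · refine (trB_w _).2.2.trans ?_
        fin_cases b <;> simp [fr]
  rw [h, det_fromBlocks_zero₂₁, det_one, mul_one, det_fin_three]
  simp
  ring

theorem gram_fr (x : Fin 3 → R) (a b : Fin 3) :
    ((frT x)ᵀ * sym (vn R) x * frT x) (Sum.inr a) (Sum.inr b) =
      qf (vn R) x (fr x (Sum.inr a)) (fr x (Sum.inr b)) +
        qf (vn R) x (fr x (Sum.inr b)) (fr x (Sum.inr a)) := by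
  rw [← sym_dot, Matrix.mul_assoc]
  rfl

theorem det_gram_fr (x : Fin 3 → R) :
    (Matrix.of fun a b => ((frT x)ᵀ * sym (vn R) x * frT x) (Sum.inr a) (Sum.inr b)).det =
      x 0 ^ 6 * non x := by
  rw [det_fin_three]
  simp only [Matrix.of_apply, gram_fr, qf_vn]
  simp [fr, non]
  ring

theorem det_bord_w (x : Fin 3 → R) : x 0 ^ 12 *
    (((Equiv.Perm.sign (sw (Fin 3 ⊕ Fin 3) (Fin 3)) : ℤ) : R) *
      (bord (wB' R) (vn R) x).det - non x) = 0 := by
  have h := det_frame (sym (vn R) x) (six (wB' R) x) ode (frT x) (ker_fr x)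
  rw [det_frT, det_six_fr, det_gram_fr] at h
  have h2 : (bord (wB' R) (vn R) x).det =
      (fromBlocks (sym (vn R) x) (six (wB' R) x)ᵀ (six (wB' R) x) 0).det := rfl
  rw [h2]
  linear_combination h

end witness

end Pool.Agent.Work.D9.DW
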