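import Mathlib
import Pool.Agent.Work.MP_b62148_ag.D9.DiscWit

/-!
For general `(B, n)` the discriminant curve of `X` is smooth of degree nine.
-/

namespace Pool.Agent.Work.D9.DG

open MvPolynomial Matrix OF DS NP DW

section algebra

variable {F : Type*} [Field F] [CharZero F]

/-- the quadratic polynomial whose roots are the cubes of the coordinates of a singular point -/
def EE (a b e T : F) : F :=
  -3 * (-3 * a + 11 * e) * T ^ 2 +
    3 * ((3 * a ^ 2 - 3 * b - 2 * e * a - 6 * e ^ 2) + a * (-3 * a + 11 * e)) * T +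
    e * (-a ^ 2 + 11 * b - 12 * e * a - 24 * e ^ 2)

theorem two (x y z : F) (h : x ^ 3 = y ^ 3)
    (Ex : EE (x ^ 3 + y ^ 3 + z ^ 3) (x ^ 3 * y ^ 3 + y ^ 3 * z ^ 3 + z ^ 3 * x ^ 3) (x * y * z)
      (x ^ 3) = 0)
    (Ez : EE (x ^ 3 + y ^ 3 + z ^ 3) (x ^ 3 * y ^ 3 + y ^ 3 * z ^ 3 + z ^ 3 * x ^ 3) (x * y * z)
      (z ^ 3) = 0) : x = 0 ∧ y = 0 ∧ z = 0 := by
  by_cases hy : y = 0
  · have hx : x = 0 := by
      rw [hy] at h
      exact pow_eq_zero_iff (n := 3) (by norm_num) |>.1 (by rw [h]; ring)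
    refine ⟨hx, hy, ?_⟩
    rw [hx, hy] at Ez
    have h1 : 9 * z ^ 9 = 0 := by
      unfold EE at Ez
      linear_combination Ez
    have h2 : z ^ 9 = 0 := (mul_eq_zero.1 h1).resolve_left (by norm_num)
    exact pow_eq_zero_iff (n := 9) (by norm_num) |>.1 h2
  · exfalso
    obtain ⟨t, ht⟩ : ∃ t, t * y = x * z := ⟨x * z / y, div_mul_cancel₀ _ hy⟩
    have hy3 : y ^ 3 ≠ 0 := pow_ne_zero 3 hy
    have ht3 : t ^ 3 = z ^ 3 := by
      apply mul_right_cancel₀ hy3
      have h1 : (t * y) ^ 3 = (x * z) ^ 3 := by rw [ht]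
      linear_combination h1 + z ^ 3 * h
    have ha : x ^ 3 + y ^ 3 + z ^ 3 = 2 * y ^ 3 + t ^ 3 := by rw [h, ht3]; ring
    have hb : x ^ 3 * y ^ 3 + y ^ 3 * z ^ 3 + z ^ 3 * x ^ 3 = y ^ 6 + 2 * y ^ 3 * t ^ 3 := by
      rw [h, ht3]; ring
    have he : x * y * z = y ^ 2 * t := by linear_combination (-y) * ht
    rw [ha, hb, he, h] at Ex
    rw [ha, hb, he, ← ht3] at Ez
    by_cases hw : t ^ 3 = y ^ 3
    · have ht0 : t ≠ 0 := by
        intro h0
        apply hy3
        rw [← hw, h0]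
        ring
      have h1 : (6 * (y ^ 2 * t) * y ^ 4) * (12 * y ^ 2 - 9 * y * t - 4 * t ^ 2) = 0 := by
        unfold EE at Ex
        linear_combination Ex + (y ^ 2 * t ^ 4 + 12 * y ^ 4 * t ^ 2 - 44 * y ^ 5 * t +
          9 * y ^ 6) * hw
      have h2 : 12 * y ^ 2 - 9 * y * t - 4 * t ^ 2 = 0 :=
        (mul_eq_zero.1 h1).resolve_left (by
          refine mul_ne_zero (mul_ne_zero (by norm_num) (mul_ne_zero (pow_ne_zero 2 hy) ht0))
            (pow_ne_zero 4 hy))
      have h3 : 361 * y ^ 4 = 0 := by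
        linear_combination (-1657 * y - 516 * t) * hw +
          (-108 * y ^ 2 - 124 * y * t - 129 * t ^ 2) * h2
      exact (pow_ne_zero 4 hy) ((mul_eq_zero.1 h3).resolve_left (by norm_num))
    · have h1 : 3 * (y ^ 3 - t ^ 3) * (3 * y ^ 6 + 7 * y ^ 5 * t - 6 * y ^ 4 * t ^ 2 +
          3 * y ^ 3 * t ^ 3 - 2 * y ^ 2 * t ^ 4 + 3 * t ^ 6) = 0 := by
        unfold EE at Ex Ez
        linear_combination Ex - Ez
      have hne : 3 * (y ^ 3 - t ^ 3) ≠ 0 :=
        mul_ne_zero (by norm_num) (sub_ne_zero.2 fun h => hw h.symm)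
      have h2 := (mul_eq_zero.1 h1).resolve_left hne
      have ht0 : t ≠ 0 := by
        intro h0
        rw [h0] at h2
        have h3 : 3 * y ^ 6 = 0 := by linear_combination h2
        exact (pow_ne_zero 6 hy) ((mul_eq_zero.1 h3).resolve_left (by norm_num))
      have h3 : (y ^ 2 * t) * (7 * y ^ 6 - 24 * y ^ 5 * t - 42 * y ^ 4 * t ^ 2 +
          51 * y ^ 3 * t ^ 3 - 12 * y ^ 2 * t ^ 4 - 9 * y * t ^ 5 - t ^ 6) = 0 := by
        unfold EE at Ex
        linear_combination Ex - (3 * y ^ 3) * h2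
      have h4 := (mul_eq_zero.1 h3).resolve_left (mul_ne_zero (pow_ne_zero 2 hy) ht0)
      have h5 : 9993042 * t ^ 11 = 0 := by
        linear_combination (3330151 * t ^ 5 + 259616 * y * t ^ 4 + 4685489 * y ^ 2 * t ^ 3 +
          988499 * y ^ 3 * t ^ 2 - 841502 * y ^ 4 * t + 83146 * y ^ 5) * h2 +
          (-2589 * t ^ 5 + 802149 * y * t ^ 4 + 207892 * y ^ 2 * t ^ 3 + 807863 * y ^ 3 * t ^ 2 +
          155324 * y ^ 4 * t - 35634 * y ^ 5) * h4
      exact (pow_ne_zero 11 ht0) ((mul_eq_zero.1 h5).resolve_left (by norm_num))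

theorem core (x y z : F)
    (Ex : EE (x ^ 3 + y ^ 3 + z ^ 3) (x ^ 3 * y ^ 3 + y ^ 3 * z ^ 3 + z ^ 3 * x ^ 3) (x * y * z)
      (x ^ 3) = 0)
    (Ey : EE (x ^ 3 + y ^ 3 + z ^ 3) (x ^ 3 * y ^ 3 + y ^ 3 * z ^ 3 + z ^ 3 * x ^ 3) (x * y * z)
      (y ^ 3) = 0)
    (Ez : EE (x ^ 3 + y ^ 3 + z ^ 3) (x ^ 3 * y ^ 3 + y ^ 3 * z ^ 3 + z ^ 3 * x ^ 3) (x * y * z)
      (z ^ 3) = 0) : x = 0 ∧ y = 0 ∧ z = 0 := by
  by_cases hxy : x ^ 3 = y ^ 3
  · exact two x y z hxy Ex Ez
  by_cases hyz : y ^ 3 = z ^ 3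
  · have h1 := two y z x hyz (by
      rw [← Ey]; unfold EE; ring) (by rw [← Ex]; unfold EE; ring)
    exact ⟨h1.2.2, h1.1, h1.2.1⟩
  by_cases hzx : z ^ 3 = x ^ 3
  · have h1 := two z x y hzx (by
      rw [← Ez]; unfold EE; ring) (by rw [← Ey]; unfold EE; ring)
    exact ⟨h1.2.1, h1.2.2, h1.1⟩
  exfalso
  set u := x ^ 3 with hu
  set v := y ^ 3 with hv
  set w := z ^ 3 with hw
  have huvw : u * v * w = (x * y * z) ^ 3 := by rw [hu, hv, hw]; ring
  set e := x * y * z with he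
  set a := u + v + w with ha
  set b := u * v + v * w + w * u with hb
  set Fb := -3 * a + 11 * e with hFb
  set Fa := 3 * a ^ 2 - 3 * b - 2 * e * a - 6 * e ^ 2 with hFa
  set Fe := -a ^ 2 + 11 * b - 12 * e * a - 24 * e ^ 2 with hFe
  have c1 : Fa + w * Fb = 0 := by
    have h1 : 3 * (u - v) * (Fa + w * Fb) = 0 := by
      unfold EE at Ex Ey
      rw [hFa, hFb, ha]
      rw [ha] at Ex Ey
      linear_combination Ex - Ey
    exact (mul_eq_zero.1 h1).resolve_left (mul_ne_zero (by norm_num) (sub_ne_zero.2 hxy))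
  have c2 : Fa + u * Fb = 0 := by
    have h1 : 3 * (v - w) * (Fa + u * Fb) = 0 := by
      unfold EE at Ey Ez
      rw [hFa, hFb, ha]
      rw [ha] at Ey Ez
      linear_combination Ey - Ez
    exact (mul_eq_zero.1 h1).resolve_left (mul_ne_zero (by norm_num) (sub_ne_zero.2 hyz))
  have c3 : Fb = 0 := by
    have h1 : (w - u) * Fb = 0 := by linear_combination c1 - c2
    exact (mul_eq_zero.1 h1).resolve_left (sub_ne_zero.2 hzx)
  have c4 : Fa = 0 := by rw [c3, mul_zero, add_zero] at c1; exact c1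
  have c5 : e * Fe = 0 := by
    have h1 : -3 * Fb * u ^ 2 + 3 * (Fa + a * Fb) * u + e * Fe = 0 := Ex
    rw [c3, c4] at h1
    linear_combination h1
  rcases mul_eq_zero.1 c5 with h0 | h0
  · have a0 : a = 0 := by
      rw [hFb, h0] at c3
      have h1 : (3 : F) * a = 0 := by linear_combination -c3
      exact (mul_eq_zero.1 h1).resolve_left (by norm_num)
    have b0 : b = 0 := by
      rw [hFa, h0, a0] at c4
      have h1 : (3 : F) * b = 0 := by linear_combination -c4
      exact (mul_eq_zero.1 h1).resolve_left (by norm_num)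
    have z3 : ∀ s : F, (s - u) * (s - v) * (s - w) = s ^ 3 := by
      intro s
      have h1 : (s - u) * (s - v) * (s - w) = s ^ 3 - a * s ^ 2 + b * s - u * v * w := by
        rw [ha, hb]; ring
      rw [h1, a0, b0, huvw, h0]
      ring
    have u0 : u = 0 := by
      have := z3 u
      rw [sub_self, zero_mul, zero_mul] at this
      exact pow_eq_zero_iff (n := 3) (by norm_num) |>.1 this.symm
    have v0 : v = 0 := by
      have := z3 v
      rw [sub_self, mul_zero, zero_mul] at this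
      exact pow_eq_zero_iff (n := 3) (by norm_num) |>.1 this.symm
    exact hxy (by rw [u0, v0])
  · have h1 : 474 * e ^ 2 = 0 := by
      have h2 : 474 * e ^ 2 = 27 * Fe + 99 * Fa + (90 * a + 156 * e) * Fb := by
        rw [hFe, hFa, hFb]; ring
      rw [h2, h0, c4, c3]
      ring
    have e0 : e = 0 :=
      pow_eq_zero_iff (n := 2) (by norm_num) |>.1 ((mul_eq_zero.1 h1).resolve_left (by norm_num))
    rw [hFb, e0] at c3
    have a0 : a = 0 := by
      have h1 : (3 : F) * a = 0 := by linear_combination -c3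
      exact (mul_eq_zero.1 h1).resolve_left (by norm_num)
    rw [hFa, e0, a0] at c4
    have b0 : b = 0 := by
      have h1 : (3 : F) * b = 0 := by linear_combination -c4
      exact (mul_eq_zero.1 h1).resolve_left (by norm_num)
    have z3 : ∀ s : F, (s - u) * (s - v) * (s - w) = s ^ 3 := by
      intro s
      have h1 : (s - u) * (s - v) * (s - w) = s ^ 3 - a * s ^ 2 + b * s - u * v * w := by
        rw [ha, hb]; ring
      rw [h1, a0, b0, huvw, e0]
      ring
    have u0 : u = 0 := by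
      have := z3 u
      rw [sub_self, zero_mul, zero_mul] at this
      exact pow_eq_zero_iff (n := 3) (by norm_num) |>.1 this.symm
    have v0 : v = 0 := by
      have := z3 v
      rw [sub_self, mul_zero, zero_mul] at this
      exact pow_eq_zero_iff (n := 3) (by norm_num) |>.1 this.symm
    exact hxy (by rw [u0, v0])

end algebra

section nonic

variable {F : Type*} [Field F] [CharZero F]

omit [CharZero F] in
theorem eval_non (x : Fin 3 → F) : eval x (non (X : Fin 3 → MvPolynomial (Fin 3) F)) = non x := by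
  simp [non]

omit [CharZero F] in
theorem pderiv_num (j : Fin 3) (m : ℕ) : pderiv j ((m : ℕ) : MvPolynomial (Fin 3) F) = 0 :=
  Derivation.map_natCast _ _

omit [CharZero F] in
theorem pd (x : Fin 3 → F) (j : Fin 3) :
    eval x (pderiv j (non (X : Fin 3 → MvPolynomial (Fin 3) F))) * x j =
      -2 * EE (x 0 ^ 3 + x 1 ^ 3 + x 2 ^ 3)
        (x 0 ^ 3 * x 1 ^ 3 + x 1 ^ 3 * x 2 ^ 3 + x 2 ^ 3 * x 0 ^ 3) (x 0 * x 1 * x 2)
        (x j ^ 3) := by
  have n2 : ∀ j : Fin 3, pderiv j (2 : MvPolynomial (Fin 3) F) = 0 := fun j => pderiv_num j 2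
  have n12 : ∀ j : Fin 3, pderiv j (12 : MvPolynomial (Fin 3) F) = 0 := fun j => pderiv_num j 12
  have n18 : ∀ j : Fin 3, pderiv j (18 : MvPolynomial (Fin 3) F) = 0 := fun j => pderiv_num j 18
  have n22 : ∀ j : Fin 3, pderiv j (22 : MvPolynomial (Fin 3) F) = 0 := fun j => pderiv_num j 22
  unfold non EE
  fin_cases j
  · simp [Derivation.leibniz, Derivation.leibniz_pow, pderiv_X, n2, n12, n18, n22]
    ring
  · simp [Derivation.leibniz, Derivation.leibniz_pow, pderiv_X, n2, n12, n18, n22]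
    ring
  · simp [Derivation.leibniz, Derivation.leibniz_pow, pderiv_X, n2, n12, n18, n22]
    ring

theorem non_smooth (x : Fin 3 → F)
    (h : ∀ j, eval x (pderiv j (non (X : Fin 3 → MvPolynomial (Fin 3) F))) = 0) : x = 0 := by
  have h1 : ∀ j, EE (x 0 ^ 3 + x 1 ^ 3 + x 2 ^ 3)
        (x 0 ^ 3 * x 1 ^ 3 + x 1 ^ 3 * x 2 ^ 3 + x 2 ^ 3 * x 0 ^ 3) (x 0 * x 1 * x 2)
        (x j ^ 3) = 0 := by
    intro j
    have h2 := pd x j
    rw [h j, zero_mul] at h2
    exact (mul_eq_zero.1 h2.symm).resolve_left (by norm_num)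
  obtain ⟨a, b, c⟩ := core (x 0) (x 1) (x 2) (h1 0) (h1 1) (h1 2)
  funext j
  fin_cases j
  · exact a
  · exact b
  · exact c

theorem disc_w : ∃ c : F, c ≠ 0 ∧ C c * disc (wB' F) (vn F) = non X := by
  refine ⟨((Equiv.Perm.sign (sw (Fin 3 ⊕ Fin 3) (Fin 3)) : ℤ) : F), ?_, ?_⟩
  · exact_mod_cast (Units.ne_zero (Equiv.Perm.sign (sw (Fin 3 ⊕ Fin 3) (Fin 3))))
  · have h1 : (X 0 : MvPolynomial (Fin 3) F) ^ 12 *
        (C ((Equiv.Perm.sign (sw (Fin 3 ⊕ Fin 3) (Fin 3)) : ℤ) : F) * disc (wB' F) (vn F) -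
          non X) = 0 := by
      apply MvPolynomial.funext
      intro x
      rw [map_mul, map_sub, map_mul, map_pow, eval_X, eval_C, eval_disc, eval_non, map_zero]
      exact det_bord_w x
    have h2 := (mul_eq_zero.1 h1).resolve_left (pow_ne_zero 12 (X_ne_zero 0))
    exact sub_eq_zero.1 h2

theorem disc_w_smooth (x : Fin 3 → F)
    (h : ∀ j, eval x (pderiv j (disc (wB' F) (vn F))) = 0) : x = 0 := by
  obtain ⟨c, -, hc⟩ := disc_w (F := F)
  apply non_smooth
  intro j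
  rw [← hc, Derivation.leibniz]
  simp [h j]

end nonic

theorem eval₂_pd {K : Type*} [Field K] (φ : MvPolynomial Ix ℚ →+* K) (x : Fin 3 → K)
    (j : Fin 3) :
    eval₂ φ x (pderiv j (disc gB gN)) = eval x (pderiv j (disc (mB φ gB) (mN φ gN))) := by
  rw [← map_disc, pderiv_map, eval_map]

/-- The discriminant curve is smooth for general `(B, n)`. -/
theorem disc_generic : ∃ Φ : MvPolynomial Ix ℚ, Φ ≠ 0 ∧
    ∀ (Ω : Type*) [Field Ω] [Algebra ℚ Ω] (B : Fin 3 → Matrix (Fin 3) (Fin 3) Ω)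
      (n : Fin 3 → Fin 3 × Fin 3 → Fin 3 × Fin 3 → Ω), aeval (prm B n) Φ ≠ 0 →
      ∀ x : Fin 3 → Ω, x ≠ 0 → ∃ j, eval x (pderiv j (disc B n)) ≠ 0 := by
  obtain ⟨Φ, h1, h2⟩ := EL.elim (fun j : Fin 3 => pderiv j (disc gB gN)) (fun _ => 8)
    (fun j => (disc_hom gB gN).pderiv) (prm (wB' ℚ) (vn ℚ)) (AlgebraicClosure ℚ) (by
      intro x hx
      set φ : MvPolynomial Ix ℚ →+* AlgebraicClosure ℚ :=
        (algebraMap ℚ (AlgebraicClosure ℚ)).comp (eval (prm (wB' ℚ) (vn ℚ))) with hφ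
      have hB1 : mB φ gB = wB' (AlgebraicClosure ℚ) := by
        funext i
        ext r c
        show φ (X (Sum.inl (i, r, c))) = _
        rw [hφ, RingHom.comp_apply, eval_X]
        show algebraMap ℚ (AlgebraicClosure ℚ) (wB' ℚ i r c) = _
        fin_cases i <;> fin_cases r <;> fin_cases c <;> simp [wB']
      have hN1 : mN φ gN = vn (AlgebraicClosure ℚ) := by
        funext j s t
        show φ (X (Sum.inr (j, s, t))) = _
        rw [hφ, RingHom.comp_apply, eval_X]
        show algebraMap ℚ (AlgebraicClosure ℚ) (vn ℚ j s t) = _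
        simp [vn]
      apply disc_w_smooth
      intro j
      have := hx j
      rw [aeval_def, eval₂_map] at this
      rw [← hB1, ← hN1, ← eval₂_pd]
      exact this)
  refine ⟨Φ, ?_, ?_⟩
  · intro h0
    rw [h0, map_zero] at h1
    exact zero_ne_one h1
  · intro Ω _ _ B n hΦ x hx
    by_contra hcon
    push Not at hcon
    apply hx
    refine h2 Ω (aeval (prm B n)).toRingHom hΦ x fun j => ?_
    have hB1 : mB (aeval (prm B n)).toRingHom gB = B := by
      funext i
      ext r c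
      show aeval (prm B n) (X (Sum.inl (i, r, c))) = _
      rw [aeval_X]
      rfl
    have hN1 : mN (aeval (prm B n)).toRingHom gN = n := by
      funext j s t
      show aeval (prm B n) (X (Sum.inr (j, s, t))) = _
      rw [aeval_X]
      rfl
    rw [eval₂_pd, hB1, hN1]
    exact hcon j

end Pool.Agent.Work.D9.DG
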