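import Mathlib
import Pool.Agent.Work.MP_b62148_ag.D9.Defs

/-!
The smoothness of the fibre over a given point is an open condition on the coefficients.
-/

namespace Pool.Agent.Work.D9

open MvPolynomial Matrix

section bord

variable {S : Type*} [CommRing S]

/-- the linear equations of the fibre over `x`: `A x = 0` and `tr (B_i A) = 0` -/
def linEq (B : Fin 3 → Matrix (Fin 3) (Fin 3) S) (x : Fin 3 → S) :
    Matrix (Fin 3 ⊕ Fin 3) (Fin 3 × Fin 3) S :=
  Matrix.of fun u s => Sum.elim (fun i => if s.1 = i then x s.2 else 0) (fun i => B i s.2 s.1) u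

/-- the symmetric matrix of the quadratic form -/
def symQ (n : Fin 3 → Fin 3 × Fin 3 → Fin 3 × Fin 3 → S) (x : Fin 3 → S) :
    Matrix (Fin 3 × Fin 3) (Fin 3 × Fin 3) S :=
  Matrix.of fun s t => ∑ j, x j * (n j s t + n j t s)

/-- the bordered matrix of the conic over `x` -/
def bord (B : Fin 3 → Matrix (Fin 3) (Fin 3) S)
    (n : Fin 3 → Fin 3 × Fin 3 → Fin 3 × Fin 3 → S) (x : Fin 3 → S) :
    Matrix ((Fin 3 × Fin 3) ⊕ (Fin 3 ⊕ Fin 3)) ((Fin 3 × Fin 3) ⊕ (Fin 3 ⊕ Fin 3)) S :=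
  Matrix.fromBlocks (symQ n x) (linEq B x)ᵀ (linEq B x) 0

theorem linEq_mulVec_inl (B : Fin 3 → Matrix (Fin 3) (Fin 3) S) (x : Fin 3 → S)
    (A : Matrix (Fin 3) (Fin 3) S) (i : Fin 3) :
    (linEq B x *ᵥ fun s => A s.1 s.2) (Sum.inl i) = (A *ᵥ x) i := by
  simp only [linEq, Matrix.mulVec, dotProduct, Matrix.of_apply, Sum.elim_inl,
    Fintype.sum_prod_type, Fin.sum_univ_three]
  fin_cases i <;> simp <;> ring

theorem linEq_mulVec_inr (B : Fin 3 → Matrix (Fin 3) (Fin 3) S) (x : Fin 3 → S)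
    (A : Matrix (Fin 3) (Fin 3) S) (i : Fin 3) :
    (linEq B x *ᵥ fun s => A s.1 s.2) (Sum.inr i) = trB B i A := by
  simp only [linEq, Matrix.mulVec, dotProduct, Matrix.of_apply, Sum.elim_inr, trB,
    Fintype.sum_prod_type, Fin.sum_univ_three]
  ring

theorem symQ_form (n : Fin 3 → Fin 3 × Fin 3 → Fin 3 × Fin 3 → S) (x : Fin 3 → S)
    (A A' : Matrix (Fin 3) (Fin 3) S) :
    (fun s : Fin 3 × Fin 3 => A s.1 s.2) ⬝ᵥ (symQ n x *ᵥ fun s => A' s.1 s.2) =
      qf n x A A' + qf n x A' A := by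
  have h1 : qf n x A A' = ∑ s : Fin 3 × Fin 3, ∑ t : Fin 3 × Fin 3,
      A s.1 s.2 * ((∑ j, x j * n j s t) * A' t.1 t.2) := by
    unfold qf
    simp_rw [Finset.mul_sum]
    rw [Finset.sum_comm]
    refine Finset.sum_congr rfl fun s _ => ?_
    rw [Finset.sum_comm]
    refine Finset.sum_congr rfl fun t _ => ?_
    rw [Finset.sum_mul, Finset.mul_sum]
    refine Finset.sum_congr rfl fun j _ => ?_
    ring
  have h2 : qf n x A' A = ∑ s : Fin 3 × Fin 3, ∑ t : Fin 3 × Fin 3,
      A s.1 s.2 * ((∑ j, x j * n j t s) * A' t.1 t.2) := by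
    unfold qf
    simp_rw [Finset.mul_sum]
    rw [Finset.sum_comm]
    have h3 : ∀ y : Fin 3 × Fin 3, (∑ x_1 : Fin 3, ∑ i : Fin 3 × Fin 3,
        x x_1 * (n x_1 y i * A' y.1 y.2 * A i.1 i.2)) =
        ∑ i : Fin 3 × Fin 3, ∑ j : Fin 3, x j * (n j y i * A' y.1 y.2 * A i.1 i.2) := by
      intro y
      rw [Finset.sum_comm]
    simp_rw [h3]
    rw [Finset.sum_comm]
    refine Finset.sum_congr rfl fun s _ => ?_
    refine Finset.sum_congr rfl fun t _ => ?_
    rw [Finset.sum_mul, Finset.mul_sum]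
    refine Finset.sum_congr rfl fun j _ => ?_
    ring
  rw [h1, h2, ← Finset.sum_add_distrib]
  simp only [dotProduct, Matrix.mulVec, symQ, Matrix.of_apply]
  refine Finset.sum_congr rfl fun s _ => ?_
  rw [← Finset.sum_add_distrib, Finset.mul_sum]
  refine Finset.sum_congr rfl fun t _ => ?_
  rw [← mul_add, ← add_mul, ← Finset.sum_add_distrib]
  simp only [mul_add]

theorem map_bord {T : Type*} [CommRing T] (φ : S →+* T)
    (B : Fin 3 → Matrix (Fin 3) (Fin 3) S)
    (n : Fin 3 → Fin 3 × Fin 3 → Fin 3 × Fin 3 → S) (x : Fin 3 → S) :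
    (bord B n x).map φ = bord (fun i => (B i).map φ) (fun j s t => φ (n j s t))
      (fun i => φ (x i)) := by
  ext u v
  rcases u with s | i | i <;> rcases v with t | j | j <;>
    simp [bord, linEq, symQ, apply_ite φ]

end bord

section field

variable {F : Type*} [Field F] (B : Fin 3 → Matrix (Fin 3) (Fin 3) F)
  (n : Fin 3 → Fin 3 × Fin 3 → Fin 3 × Fin 3 → F) (x : Fin 3 → F)

theorem smoothFibre_of_bord (h : (bord B n x).det ≠ 0) : SmoothFibre B n x := by
  have hu : IsUnit (bord B n x).det := isUnit_iff_ne_zero.mpr h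
  have hsol : ∀ (u : Fin 3 × Fin 3 → F) (w : Fin 3 ⊕ Fin 3 → F),
      ∃ (A : Matrix (Fin 3) (Fin 3) F) (m : Fin 3 ⊕ Fin 3 → F),
        (symQ n x *ᵥ fun s => A s.1 s.2) + (linEq B x)ᵀ *ᵥ m = u ∧
        (linEq B x *ᵥ fun s => A s.1 s.2) = w := by
    intro u w
    set z := (bord B n x)⁻¹ *ᵥ (Sum.elim u w) with hz
    have h1 : bord B n x *ᵥ z = Sum.elim u w := by
      rw [hz, Matrix.mulVec_mulVec, Matrix.mul_nonsing_inv _ hu, Matrix.one_mulVec]
    refine ⟨Matrix.of fun i j => z (Sum.inl (i, j)), fun i => z (Sum.inr i), ?_, ?_⟩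
    · have h2 : ∀ s, (bord B n x *ᵥ z) (Sum.inl s) = u s := fun s => by rw [h1]; rfl
      funext s
      rw [← h2 s, bord, Matrix.fromBlocks_mulVec]
      rfl
    · have h2 : ∀ s, (bord B n x *ᵥ z) (Sum.inr s) = w s := fun s => by rw [h1]; rfl
      funext s
      rw [← h2 s, bord, Matrix.fromBlocks_mulVec]
      simp only [Sum.elim_inr, Matrix.zero_mulVec, add_zero]
      rfl
  refine ⟨fun y z => ?_, fun A hA ht hq => ?_⟩
  · obtain ⟨A, m, -, h2⟩ := hsol 0 (Sum.elim y z)
    refine ⟨A, ?_, ?_⟩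
    · funext i
      rw [← linEq_mulVec_inl B x A i, h2]
      rfl
    · intro i
      rw [← linEq_mulVec_inr B x A i, h2]
      rfl
  · have hFA : (linEq B x *ᵥ fun s => A s.1 s.2) = 0 := by
      funext u
      rcases u with i | i
      · rw [linEq_mulVec_inl, hA]; rfl
      · rw [linEq_mulVec_inr, ht]; rfl
    ext i j
    obtain ⟨A', m, h1, h2⟩ := hsol (Pi.single (i, j) 1) 0
    have h3 : (fun s : Fin 3 × Fin 3 => A s.1 s.2) ⬝ᵥ
        ((symQ n x *ᵥ fun s => A' s.1 s.2) + (linEq B x)ᵀ *ᵥ m) = A i j := by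
      rw [h1, dotProduct_single, mul_one]
    rw [← h3, dotProduct_add, symQ_form, Matrix.dotProduct_mulVec, Matrix.vecMul_transpose, hFA,
      zero_dotProduct, add_zero]
    refine hq A' ?_ ?_
    · funext i
      rw [← linEq_mulVec_inl B x A' i, h2]; rfl
    · intro i
      rw [← linEq_mulVec_inr B x A' i, h2]; rfl

end field

/-- coefficients of `(B, n)` -/
abbrev Par : Type := (Fin 3 × Fin 3 × Fin 3) ⊕ (Fin 3 × (Fin 3 × Fin 3) × (Fin 3 × Fin 3))

/-- the point of the parameter space given by `(B, n)` -/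
def par {S : Type*} (B : Fin 3 → Matrix (Fin 3) (Fin 3) S)
    (n : Fin 3 → Fin 3 × Fin 3 → Fin 3 × Fin 3 → S) : Par → S :=
  Sum.elim (fun t => B t.1 t.2.1 t.2.2) (fun t => n t.1 t.2.1 t.2.2)

/-- non zero if the fibre over `(1 : 0 : 0)` is smooth -/
noncomputable def fibPoly : MvPolynomial Par ℚ :=
  (bord (fun i => Matrix.of fun r c => (X (Sum.inl (i, r, c)) : MvPolynomial Par ℚ))
    (fun j s t => X (Sum.inr (j, s, t))) ![1, 0, 0]).det

theorem aeval_fibPoly {F : Type*} [Field F] [Algebra ℚ F] (B : Fin 3 → Matrix (Fin 3) (Fin 3) F)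
    (n : Fin 3 → Fin 3 × Fin 3 → Fin 3 × Fin 3 → F) :
    aeval (par B n) fibPoly = (bord B n ![1, 0, 0]).det := by
  have h := RingHom.map_det (aeval (par B n) : MvPolynomial Par ℚ →ₐ[ℚ] F).toRingHom
    (bord (fun i => Matrix.of fun r c => (X (Sum.inl (i, r, c)) : MvPolynomial Par ℚ))
    (fun j s t => X (Sum.inr (j, s, t))) ![1, 0, 0])
  rw [RingHom.mapMatrix_apply, map_bord] at h
  refine h.trans ?_
  congr 1
  have e1 : (fun i => (Matrix.of fun r c => (X (Sum.inl (i, r, c)) : MvPolynomial Par ℚ)).map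
      (aeval (par B n) : MvPolynomial Par ℚ →ₐ[ℚ] F).toRingHom) = B := by
    funext i
    ext r c
    simp [par]
  have e2 : (fun j s t => (aeval (par B n) : MvPolynomial Par ℚ →ₐ[ℚ] F).toRingHom
      (X (Sum.inr (j, s, t)))) = n := by
    funext j s t
    simp [par]
  have e3 : (fun i => (aeval (par B n) : MvPolynomial Par ℚ →ₐ[ℚ] F).toRingHom
      ((![1, 0, 0] : Fin 3 → MvPolynomial Par ℚ) i)) = ![1, 0, 0] := by
    funext i
    fin_cases i <;> simp
  rw [e1, e2, e3]

theorem fibPoly_ne_zero : fibPoly ≠ 0 := by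
  intro h0
  set B : Fin 3 → Matrix (Fin 3) (Fin 3) ℚ := fun i => Matrix.of fun r j =>
    if r = 1 ∧ j = i then 1 else 0 with hB
  set n : Fin 3 → Fin 3 × Fin 3 → Fin 3 × Fin 3 → ℚ := fun j s t =>
    if j = 0 ∧ s = t ∧ s.2 = 2 then 1 else 0 with hn
  have h1 := aeval_fibPoly B n
  rw [h0, map_zero] at h1
  obtain ⟨v, hv, hv0⟩ := Matrix.exists_mulVec_eq_zero_iff.mpr h1.symm
  apply hv
  have k1 : ∀ i, v (Sum.inl (i, 0)) = 0 := by
    intro i
    have := congrFun hv0 (Sum.inr (Sum.inl i))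
    simp only [bord, Matrix.mulVec, dotProduct, Fintype.sum_sum_type, Fintype.sum_prod_type,
      Matrix.fromBlocks_apply₂₁, Matrix.fromBlocks_apply₂₂, Matrix.zero_apply, zero_mul,
      Finset.sum_const_zero, add_zero, linEq, Matrix.of_apply, Sum.elim_inl,
      Fin.sum_univ_three, Pi.zero_apply] at this
    fin_cases i <;> simpa using this
  have k2 : ∀ i, v (Sum.inl (i, 1)) = 0 := by
    intro i
    have := congrFun hv0 (Sum.inr (Sum.inr i))
    simp only [bord, Matrix.mulVec, dotProduct, Fintype.sum_sum_type, Fintype.sum_prod_type,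
      Matrix.fromBlocks_apply₂₁, Matrix.fromBlocks_apply₂₂, Matrix.zero_apply, zero_mul,
      Finset.sum_const_zero, add_zero, linEq, Matrix.of_apply, Sum.elim_inr,
      Fin.sum_univ_three, Pi.zero_apply, hB] at this
    fin_cases i <;> simpa using this
  have k3 : ∀ s : Fin 3 × Fin 3, (∑ t : Fin 3 × Fin 3, symQ n ![1, 0, 0] s t * v (Sum.inl t)) +
      (∑ i, linEq B ![1, 0, 0] (Sum.inl i) s * v (Sum.inr (Sum.inl i)) +
      ∑ i, linEq B ![1, 0, 0] (Sum.inr i) s * v (Sum.inr (Sum.inr i))) = 0 := by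
    intro s
    have := congrFun hv0 (Sum.inl s)
    simpa [bord, Matrix.mulVec, dotProduct, Fintype.sum_sum_type] using this
  have kS : ∀ s t : Fin 3 × Fin 3, symQ n ![1, 0, 0] s t =
      if s = t ∧ s.2 = 2 then 2 else 0 := by
    intro s t
    simp only [symQ, Matrix.of_apply, Fin.sum_univ_three, hn]
    by_cases h : s = t
    · subst h
      by_cases h2 : s.2 = 2
      · simp [h2]; norm_num
      · simp [h2]
    · have h' : ¬ t = s := fun e => h e.symm
      simp [h, h']
  have k3' : ∀ i j : Fin 3, (if j = 2 then 2 * v (Sum.inl (i, j)) else 0) +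
      (![1, 0, 0] : Fin 3 → ℚ) j * v (Sum.inr (Sum.inl i)) +
      (if j = 1 then v (Sum.inr (Sum.inr i)) else 0) = 0 := by
    intro i j
    have h := k3 (i, j)
    have s1 : (∑ t : Fin 3 × Fin 3, symQ n ![1, 0, 0] (i, j) t * v (Sum.inl t)) =
        if j = 2 then 2 * v (Sum.inl (i, j)) else 0 := by
      rw [Finset.sum_eq_single (i, j)]
      · rw [kS]
        by_cases hj : j = 2 <;> simp [hj]
      · intro t _ ht
        rw [kS, if_neg, zero_mul]
        exact fun e => ht e.1.symm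
      · intro hh
        exact absurd (Finset.mem_univ _) hh
    have s2 : (∑ t, linEq B ![1, 0, 0] (Sum.inl t) (i, j) * v (Sum.inr (Sum.inl t))) =
        (![1, 0, 0] : Fin 3 → ℚ) j * v (Sum.inr (Sum.inl i)) := by
      rw [Finset.sum_eq_single i]
      · simp [linEq]
      · intro t _ ht
        have : ¬ i = t := fun e => ht e.symm
        simp [linEq, this]
      · intro hh
        exact absurd (Finset.mem_univ _) hh
    have s3 : (∑ t, linEq B ![1, 0, 0] (Sum.inr t) (i, j) * v (Sum.inr (Sum.inr t))) =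
        if j = 1 then v (Sum.inr (Sum.inr i)) else 0 := by
      rw [Finset.sum_eq_single i]
      · by_cases hj : j = 1 <;> simp [linEq, hB, hj]
      · intro t _ ht
        have : ¬ i = t := fun e => ht e.symm
        simp [linEq, hB, this]
      · intro hh
        exact absurd (Finset.mem_univ _) hh
    rw [s1, s2, s3] at h
    rw [add_assoc]
    exact h
  funext u
  rcases u with ⟨i, j⟩ | i | i
  · fin_cases j
    · exact k1 i
    · exact k2 i
    · have := k3' i 2
      simpa using this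
  · have := k3' i 0
    simpa using this
  · have := k3' i 1
    simpa using this

theorem smoothFibre_of_fibPoly {F : Type*} [Field F] [Algebra ℚ F]
    (B : Fin 3 → Matrix (Fin 3) (Fin 3) F)
    (n : Fin 3 → Fin 3 × Fin 3 → Fin 3 × Fin 3 → F) (h : aeval (par B n) fibPoly ≠ 0) :
    SmoothFibre B n ![1, 0, 0] :=
  smoothFibre_of_bord B n _ (by rw [← aeval_fibPoly]; exact h)

end Pool.Agent.Work.D9
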