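import Mathlib
import Pool.Agent.Work.MP_b62148_ag.D9.Pipe

/-!
Module (b) of D9: explicit algebra.
-/

namespace Pool.Agent.Work.D9

open MvPolynomial Matrix

section ring

variable {S : Type*} [CommRing S]

theorem mulVec_ext_fin3 (A : Matrix (Fin 3) (Fin 3) S) (x : Fin 3 → S) (i : Fin 3) :
    (A *ᵥ x) i = A i 0 * x 0 + A i 1 * x 1 + A i 2 * x 2 := by
  simp [Matrix.mulVec, dotProduct, Fin.sum_univ_three]

theorem det_add_rank_one (R : Matrix (Fin 3) (Fin 3) S) (c : S) (ξ η : Fin 3 → S) :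
    (R + c • vecMulVec ξ η).det = R.det + c * (η ⬝ᵥ (adjugate R *ᵥ ξ)) := by
  rw [Matrix.adjugate_fin_three, Matrix.det_fin_three, Matrix.det_fin_three]
  simp [Matrix.mulVec, dotProduct, Fin.sum_univ_three, vecMulVec_apply]
  ring

theorem vecMul_adj_add_rank_one (R : Matrix (Fin 3) (Fin 3) S) (c : S) (ξ η : Fin 3 → S) :
    η ᵥ* adjugate (R + c • vecMulVec ξ η) = η ᵥ* adjugate R := by
  rw [Matrix.adjugate_fin_three, Matrix.adjugate_fin_three]
  ext i
  fin_cases i <;>
    simp [Matrix.vecMul, dotProduct, Fin.sum_univ_three, vecMulVec_apply] <;>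
    ring

theorem trB_vecMulVec (B : Fin 3 → Matrix (Fin 3) (Fin 3) S) (i : Fin 3) (p l : Fin 3 → S) :
    trB B i (vecMulVec p l) = (rows B l *ᵥ p) i := by
  simp [trB, rows, Matrix.mulVec, dotProduct, Fin.sum_univ_three, vecMulVec_apply]
  ring

theorem trB_add (B : Fin 3 → Matrix (Fin 3) (Fin 3) S) (i : Fin 3)
    (A A' : Matrix (Fin 3) (Fin 3) S) : trB B i (A + A') = trB B i A + trB B i A' := by
  simp [trB, mul_add, Finset.sum_add_distrib]

theorem trB_smul (B : Fin 3 → Matrix (Fin 3) (Fin 3) S) (i : Fin 3) (c : S)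
    (A : Matrix (Fin 3) (Fin 3) S) : trB B i (c • A) = c * trB B i A := by
  simp only [trB, Matrix.smul_apply, smul_eq_mul, Finset.mul_sum]
  refine Finset.sum_congr rfl fun r _ => Finset.sum_congr rfl fun c' _ => ?_
  ring

theorem rows_mulVec_pp (B : Fin 3 → Matrix (Fin 3) (Fin 3) S) (xi l : Fin 3 → S)
    (hD : (rows B l).det = 0) : rows B l *ᵥ pp B xi l = 0 := by
  rw [pp, Matrix.mulVec_mulVec, Matrix.mul_adjugate, hD]
  simp

theorem trB_vv (B : Fin 3 → Matrix (Fin 3) (Fin 3) S) (xi l : Fin 3 → S)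
    (hD : (rows B l).det = 0) (i : Fin 3) : trB B i (vv B xi l) = 0 := by
  rw [vv, trB_vecMulVec, rows_mulVec_pp B xi l hD]
  rfl

theorem vecMul_rows_mm (B : Fin 3 → Matrix (Fin 3) (Fin 3) S) (et l : Fin 3 → S)
    (hD : (rows B l).det = 0) : mm B et l ᵥ* rows B l = 0 := by
  rw [mm, Matrix.vecMul_vecMul, Matrix.adjugate_mul, hD]
  simp

/-- `lᵀ (sum m_i B_i) = mᵀ R` -/
theorem vecMul_comb (B : Fin 3 → Matrix (Fin 3) (Fin 3) S) (m l : Fin 3 → S) :
    l ᵥ* (∑ i, m i • B i) = m ᵥ* rows B l := by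
  ext j
  simp [rows, Matrix.vecMul, dotProduct, Fin.sum_univ_three, Matrix.add_apply]
  ring

theorem det_Bm_mul (B : Fin 3 → Matrix (Fin 3) (Fin 3) S) (et l : Fin 3 → S)
    (hD : (rows B l).det = 0) (z : Fin 3 → S) : (z ⬝ᵥ l) * (Bm B et l).det = 0 := by
  have h1 : l ᵥ* Bm B et l = 0 := by
    rw [Bm, vecMul_comb, vecMul_rows_mm B et l hD]
  have h2 : (Bm B et l).det • l = 0 := by
    have : l ᵥ* (Bm B et l * adjugate (Bm B et l)) = 0 := by
      rw [← Matrix.vecMul_vecMul, h1, Matrix.zero_vecMul]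
    rw [Matrix.mul_adjugate, Matrix.vecMul_smul, Matrix.vecMul_one] at this
    exact this
  have h3 : z ⬝ᵥ ((Bm B et l).det • l) = 0 := by rw [h2, dotProduct_zero]
  rw [dotProduct_smul, smul_eq_mul] at h3
  rw [mul_comm]; exact h3

theorem Bm_mulVec_aa (B : Fin 3 → Matrix (Fin 3) (Fin 3) S) (et ze l : Fin 3 → S) :
    Bm B et l *ᵥ aa B et ze l = (Bm B et l).det • ze := by
  rw [aa, Matrix.mulVec_mulVec, Matrix.mul_adjugate, Matrix.smul_mulVec, Matrix.one_mulVec]

/-- `R g = - lam (wᵀ B_i a)` -/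
theorem rows_mulVec_gg (B : Fin 3 → Matrix (Fin 3) (Fin 3) S) (xi et ze l : Fin 3 → S)
    (hD : (rows B l).det = 0) (w : Fin 3 → S) (i : Fin 3) :
    (rows B l *ᵥ gg B xi et ze l w) i =
      - (lam B xi et ze l * ∑ r, ∑ c, w r * B i r c * aa B et ze l c) := by
  set f : Fin 3 → S := fun i => ∑ r, ∑ c, w r * B i r c * aa B et ze l c with hf
  have hR : rows B l = Rp B xi et ze l - (ze ⬝ᵥ l) • vecMulVec xi et := by
    rw [Rp]; simp
  have hdet : (Rp B xi et ze l).det = lam B xi et ze l := by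
    rw [Rp, det_add_rank_one, hD, zero_add]
    rfl
  have hmf : mm B et l ⬝ᵥ f = w ⬝ᵥ (Bm B et l *ᵥ aa B et ze l) := by
    simp only [hf, Bm, Matrix.mulVec, dotProduct, Fin.sum_univ_three, Matrix.add_apply,
      Matrix.smul_apply, smul_eq_mul]
    ring
  have hmf0 : (ze ⬝ᵥ l) * (mm B et l ⬝ᵥ f) = 0 := by
    rw [hmf, Bm_mulVec_aa, dotProduct_smul, smul_eq_mul, ← mul_assoc, det_Bm_mul B et l hD,
      zero_mul]
  have h1 : rows B l *ᵥ gg B xi et ze l w = - (lam B xi et ze l • f) := by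
    have h2 : rows B l *ᵥ gg B xi et ze l w
        = - (rows B l *ᵥ (adjugate (Rp B xi et ze l) *ᵥ f)) := by
      rw [gg, Matrix.mulVec_neg]
    have h3 : Rp B xi et ze l *ᵥ (adjugate (Rp B xi et ze l) *ᵥ f) = lam B xi et ze l • f := by
      rw [Matrix.mulVec_mulVec, Matrix.mul_adjugate, Matrix.smul_mulVec, Matrix.one_mulVec, hdet]
    have h4 : ((ze ⬝ᵥ l) • vecMulVec xi et) *ᵥ (adjugate (Rp B xi et ze l) *ᵥ f) = 0 := by
      have h5 : et ⬝ᵥ (adjugate (Rp B xi et ze l) *ᵥ f) = mm B et l ⬝ᵥ f := by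
        rw [Matrix.dotProduct_mulVec, Rp, vecMul_adj_add_rank_one]
        rfl
      rw [Matrix.smul_mulVec, Matrix.vecMulVec_mulVec, h5]
      ext j
      simp only [Pi.smul_apply, MulOpposite.smul_eq_mul_unop, MulOpposite.unop_op, smul_eq_mul,
        Pi.zero_apply]
      linear_combination (xi j) * hmf0
    rw [h2]
    congr 1
    rw [hR, Matrix.sub_mulVec, h3, h4, sub_zero]
  rw [h1]
  simp [hf]

theorem trB_yy (B : Fin 3 → Matrix (Fin 3) (Fin 3) S) (xi et ze l : Fin 3 → S)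
    (hD : (rows B l).det = 0) (w : Fin 3 → S) (i : Fin 3) :
    trB B i (yy B xi et ze l w) = 0 := by
  rw [yy, trB_add, trB_smul, trB_vecMulVec B i (gg B xi et ze l w) l,
    rows_mulVec_gg B xi et ze l hD]
  simp only [trB, vecMulVec_apply, Fin.sum_univ_three]
  ring

/-- trilinearity of `qf` -/
theorem qf_add_left (n : Fin 3 → Fin 3 × Fin 3 → Fin 3 × Fin 3 → S) (x x' : Fin 3 → S)
    (A A' : Matrix (Fin 3) (Fin 3) S) :
    qf n (x + x') A A' = qf n x A A' + qf n x' A A' := by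
  simp [qf, add_mul, Finset.sum_add_distrib]

theorem qf_smul_left (n : Fin 3 → Fin 3 × Fin 3 → Fin 3 × Fin 3 → S) (c : S) (x : Fin 3 → S)
    (A A' : Matrix (Fin 3) (Fin 3) S) :
    qf n (c • x) A A' = c * qf n x A A' := by
  simp [qf, Finset.mul_sum, mul_assoc]

theorem qf_add_mid (n : Fin 3 → Fin 3 × Fin 3 → Fin 3 × Fin 3 → S) (x : Fin 3 → S)
    (A A' C : Matrix (Fin 3) (Fin 3) S) :
    qf n x (A + A') C = qf n x A C + qf n x A' C := by
  simp [qf, add_mul, mul_add, Finset.sum_add_distrib]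

theorem qf_smul_mid (n : Fin 3 → Fin 3 × Fin 3 → Fin 3 × Fin 3 → S) (c : S) (x : Fin 3 → S)
    (A A' : Matrix (Fin 3) (Fin 3) S) :
    qf n x (c • A) A' = c * qf n x A A' := by
  simp only [qf, Matrix.smul_apply, smul_eq_mul, Finset.mul_sum]
  refine Finset.sum_congr rfl fun j _ => Finset.sum_congr rfl fun s _ =>
    Finset.sum_congr rfl fun t _ => ?_
  ring

theorem qf_add_right (n : Fin 3 → Fin 3 × Fin 3 → Fin 3 × Fin 3 → S) (x : Fin 3 → S)
    (A A' C : Matrix (Fin 3) (Fin 3) S) :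
    qf n x C (A + A') = qf n x C A + qf n x C A' := by
  simp [qf, mul_add, Finset.sum_add_distrib]

theorem qf_smul_right (n : Fin 3 → Fin 3 × Fin 3 → Fin 3 × Fin 3 → S) (c : S) (x : Fin 3 → S)
    (A A' : Matrix (Fin 3) (Fin 3) S) :
    qf n x A (c • A') = c * qf n x A A' := by
  simp only [qf, Matrix.smul_apply, smul_eq_mul, Finset.mul_sum]
  refine Finset.sum_congr rfl fun j _ => Finset.sum_congr rfl fun s _ =>
    Finset.sum_congr rfl fun t _ => ?_
  ring

theorem qf_self (n : Fin 3 → Fin 3 × Fin 3 → Fin 3 × Fin 3 → S) (x : Fin 3 → S)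
    (A : Matrix (Fin 3) (Fin 3) S) : qf n x A A = x ⬝ᵥ Nrow n A := rfl

theorem Nrow_smul (n : Fin 3 → Fin 3 × Fin 3 → Fin 3 × Fin 3 → S) (c : S)
    (A : Matrix (Fin 3) (Fin 3) S) : Nrow n (c • A) = c ^ 2 • Nrow n A := by
  ext j
  simp only [Nrow, Matrix.smul_apply, smul_eq_mul, Finset.mul_sum, Pi.smul_apply]
  refine Finset.sum_congr rfl fun s _ => Finset.sum_congr rfl fun t _ => ?_
  ring

theorem cross_dot_left (u l : Fin 3 → S) : (u ⨯₃ l) ⬝ᵥ u = 0 := by
  rw [dotProduct_comm]; exact dot_self_cross u l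

theorem qf_xx_om1 (B : Fin 3 → Matrix (Fin 3) (Fin 3) S)
    (n : Fin 3 → Fin 3 × Fin 3 → Fin 3 × Fin 3 → S) (xi l : Fin 3 → S) :
    qf n (xx l (om1 B n xi l)) (vv B xi l) (vv B xi l) = 0 := by
  rw [qf_self, xx, om1]
  exact cross_dot_left _ _

theorem xx_add (l w w' : Fin 3 → S) : xx l (w + w') = xx l w + xx l w' := by
  simp [xx]

theorem xx_smul (l : Fin 3 → S) (c : S) (w : Fin 3 → S) : xx l (c • w) = c • xx l w := by
  simp [xx]

theorem gg_add (B : Fin 3 → Matrix (Fin 3) (Fin 3) S) (xi et ze l w w' : Fin 3 → S) :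
    gg B xi et ze l (w + w') = gg B xi et ze l w + gg B xi et ze l w' := by
  rw [gg, gg, gg, ← neg_add, ← Matrix.mulVec_add]
  congr 2
  ext i
  simp [add_mul, Finset.sum_add_distrib]

theorem gg_smul (B : Fin 3 → Matrix (Fin 3) (Fin 3) S) (xi et ze l : Fin 3 → S) (c : S)
    (w : Fin 3 → S) :
    gg B xi et ze l (c • w) = c • gg B xi et ze l w := by
  rw [gg, gg, smul_neg, ← Matrix.mulVec_smul]
  congr 2
  ext i
  simp [Finset.mul_sum, mul_assoc]

theorem yy_add (B : Fin 3 → Matrix (Fin 3) (Fin 3) S) (xi et ze l w w' : Fin 3 → S) :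
    yy B xi et ze l (w + w') = yy B xi et ze l w + yy B xi et ze l w' := by
  ext i j
  simp only [yy, gg_add, Matrix.add_apply, Matrix.smul_apply, vecMulVec_apply, Pi.add_apply,
    smul_eq_mul]
  ring

theorem yy_smul (B : Fin 3 → Matrix (Fin 3) (Fin 3) S) (xi et ze l : Fin 3 → S) (c : S)
    (w : Fin 3 → S) :
    yy B xi et ze l (c • w) = c • yy B xi et ze l w := by
  ext i j
  simp only [yy, gg_smul, Matrix.add_apply, Matrix.smul_apply, vecMulVec_apply, Pi.smul_apply,
    smul_eq_mul]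
  ring

theorem yy_mulVec (B : Fin 3 → Matrix (Fin 3) (Fin 3) S) (xi et ze l w u : Fin 3 → S)
    (hu : l ⬝ᵥ u = 0) :
    yy B xi et ze l w *ᵥ u = (lam B xi et ze l * (w ⬝ᵥ u)) • aa B et ze l := by
  rw [yy, Matrix.add_mulVec, Matrix.smul_mulVec, Matrix.vecMulVec_mulVec,
    Matrix.vecMulVec_mulVec, hu]
  ext j
  simp
  ring

theorem vv_mulVec (B : Fin 3 → Matrix (Fin 3) (Fin 3) S) (xi l u : Fin 3 → S)
    (hu : l ⬝ᵥ u = 0) : vv B xi l *ᵥ u = 0 := by
  rw [vv, Matrix.vecMulVec_mulVec, hu]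
  simp

theorem dot_xx (l w : Fin 3 → S) : l ⬝ᵥ xx l w = 0 := by
  rw [xx]; exact dot_cross_self w l

end ring

section field

variable {F : Type*} [Field F] (B : Fin 3 → Matrix (Fin 3) (Fin 3) F)
  (n : Fin 3 → Fin 3 × Fin 3 → Fin 3 × Fin 3 → F) (xi et ze om l : Fin 3 → F)

theorem A2_eq_dot : A2 B n xi om l = xx l om ⬝ᵥ om1 B n xi l := rfl

/-- (b2) the two vectors are independent. -/
theorem xx_indep (hA : A2 B n xi om l ≠ 0) :
    LinearIndependent F ![xx l (om1 B n xi l), xx l om] := by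
  have h1 : xx l (om1 B n xi l) ≠ 0 := by
    intro h0
    apply hA
    have h2 : A2 B n xi om l = - (om ⬝ᵥ xx l (om1 B n xi l)) := by
      rw [A2_eq_dot, xx, xx]
      simp only [cross_apply, dotProduct, Fin.sum_univ_three, Matrix.cons_val_zero,
        Matrix.cons_val_one, Matrix.cons_val]
      ring
    rw [h2, h0, dotProduct_zero, neg_zero]
  rw [LinearIndependent.pair_iff]
  intro s t hst
  have h3 : t * A2 B n xi om l = 0 := by
    have h4 : (s • xx l (om1 B n xi l) + t • xx l om) ⬝ᵥ om1 B n xi l = 0 := by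
      rw [hst, zero_dotProduct]
    have h5 : xx l (om1 B n xi l) ⬝ᵥ om1 B n xi l = 0 := cross_dot_left _ _
    rw [add_dotProduct, smul_dotProduct, smul_dotProduct, ← A2_eq_dot B n xi om l, h5] at h4
    simpa using h4
  have ht : t = 0 := by
    rcases mul_eq_zero.mp h3 with h | h
    · exact h
    · exact absurd h hA
  refine ⟨?_, ht⟩
  rw [ht, zero_smul, add_zero] at hst
  rcases smul_eq_zero.mp hst with h | h
  · exact h
  · exact absurd h h1

/-- (b1) square values of the quartic give split conics over points of the line `l`. -/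
theorem split_of_square (h2 : (2 : F) ≠ 0) (hD : (rows B l).det = 0)
    (hlam : lam B xi et ze l ≠ 0) (ha : aa B et ze l ≠ 0) (hA : A2 B n xi om l ≠ 0)
    (s : F) (hs : s ≠ 0) (hsq : IsSquare (quart B n xi et ze om l s)) :
    xx l (om1 B n xi l) + s • xx l om ∈ Split B n := by
  obtain ⟨σ, hσ⟩ := hsq
  set w : Fin 3 → F := om1 B n xi l + s • om with hw
  have hx : xx l (om1 B n xi l) + s • xx l om = xx l w := by
    rw [hw, xx_add, xx_smul]
  have hx0 : xx l w ≠ 0 := by
    rw [← hx]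
    intro h0
    have h := LinearIndependent.pair_iff.mp (xx_indep B n xi om l hA) 1 s (by rw [one_smul]; exact h0)
    exact one_ne_zero h.1
  set b : F := B0 B n xi et ze l + B1 B n xi et ze om l * s + B2 B n xi et ze om l * s ^ 2 with hb
  set w0 : F := (-b + σ) / (2 * A2 B n xi om l * s) with hw0
  set A : Matrix (Fin 3) (Fin 3) F := w0 • vv B xi l + yy B xi et ze l w with hAdef
  have hyy : yy B xi et ze l w
      = yy B xi et ze l (om1 B n xi l) + s • yy B xi et ze l om := by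
    rw [hw, yy_add, yy_smul]
  rw [hx]
  refine ⟨hx0, A, ?_, ?_, ?_, ?_⟩
  · intro hA0
    -- a vector `u` with `l . u = 0`, `w . u ≠ 0`
    obtain ⟨k, hk⟩ : ∃ k, xx l w k ≠ 0 := by
      by_contra hcon
      push Not at hcon
      exact hx0 (funext hcon)
    set u : Fin 3 → F := l ⨯₃ (Pi.single k 1) with hu
    have hlu : l ⬝ᵥ u = 0 := dot_self_cross l _
    have hwu : w ⬝ᵥ u = xx l w k := by
      have : w ⬝ᵥ u = (Pi.single k 1) ⬝ᵥ (w ⨯₃ l) := by
        rw [hu]
        rw [triple_product_permutation]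
        rw [triple_product_permutation]
      rw [this, single_one_dotProduct]
      rfl
    have h3 : A *ᵥ u = (lam B xi et ze l * (w ⬝ᵥ u)) • aa B et ze l := by
      rw [hAdef, Matrix.add_mulVec, Matrix.smul_mulVec, vv_mulVec B xi l u hlu, smul_zero,
        zero_add, yy_mulVec B xi et ze l w u hlu]
    rw [hA0, Matrix.zero_mulVec, hwu] at h3
    rcases smul_eq_zero.mp h3.symm with h | h
    · exact (mul_ne_zero hlam hk) h
    · exact ha h
  · rw [hAdef, Matrix.add_mulVec, Matrix.smul_mulVec, vv_mulVec B xi l _ (dot_xx l w), smul_zero,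
      zero_add, yy_mulVec B xi et ze l w _ (dot_xx l w)]
    have : w ⬝ᵥ xx l w = 0 := dot_self_cross w l
    rw [this, mul_zero, zero_smul]
  · intro i
    rw [hAdef, trB_add, trB_smul, trB_vv B xi l hD, trB_yy B xi et ze l hD]
    ring
  · have hexp : qf n (xx l w) A A = s * A2 B n xi om l * w0 ^ 2 + b * w0 +
        (C0 B n xi et ze l + C1 B n xi et ze om l * s + C2 B n xi et ze om l * s ^ 2 +
          C3 B n xi et ze om l * s ^ 3) := by
      rw [hAdef, hyy, ← hx]
      simp only [qf_add_left, qf_smul_left, qf_add_mid, qf_smul_mid, qf_add_right,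
        qf_smul_right]
      rw [hb, B0, B1, B2, C0, C1, C2, C3, A2, sf, sf, sf, sf, sf, sf]
      have h0 := qf_xx_om1 B n xi l
      linear_combination w0 ^ 2 * h0
    rw [hexp]
    have hσ' : σ ^ 2 = b ^ 2 - 4 * s * A2 B n xi om l *
        (C0 B n xi et ze l + C1 B n xi et ze om l * s + C2 B n xi et ze om l * s ^ 2 +
          C3 B n xi et ze om l * s ^ 3) := by
      rw [sq, ← hσ, quart, hb]
      ring
    rw [hw0]
    field_simp
    linear_combination hσ'

end field

/-- (b5) homogeneity of `B0` in `l` -/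
theorem B0_smul {S : Type*} [CommRing S] (B : Fin 3 → Matrix (Fin 3) (Fin 3) S)
    (n : Fin 3 → Fin 3 × Fin 3 → Fin 3 × Fin 3 → S) (xi et ze l : Fin 3 → S) (c : S) :
    B0 B n xi et ze (c • l) = c ^ 23 * B0 B n xi et ze l := by
  have hrows : rows B (c • l) = c • rows B l := by
    ext i j
    simp [rows, Finset.mul_sum, mul_assoc]
  have hadj : adjugate (rows B (c • l)) = c ^ 2 • adjugate (rows B l) := by
    rw [hrows, Matrix.adjugate_smul]; rfl
  have hpp : pp B xi (c • l) = c ^ 2 • pp B xi l := by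
    rw [pp, hadj, Matrix.smul_mulVec, pp]
  have hmm : mm B et (c • l) = c ^ 2 • mm B et l := by
    rw [mm, hadj, Matrix.vecMul_smul, mm]
  have hBm : Bm B et (c • l) = c ^ 2 • Bm B et l := by
    rw [Bm, Bm, hmm, Finset.smul_sum]
    refine Finset.sum_congr rfl fun i _ => ?_
    rw [Pi.smul_apply, smul_assoc]
  have haa : aa B et ze (c • l) = c ^ 4 • aa B et ze l := by
    rw [aa, hBm, Matrix.adjugate_smul, Matrix.smul_mulVec, aa]
    congr 1
    rw [← pow_mul]
    rfl
  have hkap : kap B xi et (c • l) = c ^ 2 * kap B xi et l := by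
    rw [kap, hpp, dotProduct_smul, kap]; rfl
  have hlam : lam B xi et ze (c • l) = c ^ 3 * lam B xi et ze l := by
    rw [lam, hkap, dotProduct_smul, lam, smul_eq_mul]; ring
  have hvv : vv B xi (c • l) = c ^ 3 • vv B xi l := by
    rw [vv, hpp, vv]
    ext i j
    simp only [vecMulVec_apply, Pi.smul_apply, smul_eq_mul, Matrix.smul_apply]
    ring
  have hom1 : om1 B n xi (c • l) = c ^ 6 • om1 B n xi l := by
    rw [om1, hvv, Nrow_smul, om1, ← pow_mul]
  have hxx : xx (c • l) (om1 B n xi (c • l)) = c ^ 7 • xx l (om1 B n xi l) := by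
    rw [xx, xx, hom1]
    simp only [map_smul, LinearMap.smul_apply, smul_smul]
    congr 1
    ring
  have hRp : Rp B xi et ze (c • l) = c • Rp B xi et ze l := by
    rw [Rp, hrows, Rp, dotProduct_smul, smul_add, smul_smul]; rfl
  have hgg : gg B xi et ze (c • l) (om1 B n xi (c • l))
      = c ^ 12 • gg B xi et ze l (om1 B n xi l) := by
    have h1 : (fun i => ∑ r, ∑ c', om1 B n xi (c • l) r * B i r c' * aa B et ze (c • l) c')
        = c ^ 10 • (fun i => ∑ r, ∑ c', om1 B n xi l r * B i r c' * aa B et ze l c') := by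
      ext i
      simp only [hom1, haa, Pi.smul_apply, smul_eq_mul, Finset.mul_sum]
      refine Finset.sum_congr rfl fun r _ => Finset.sum_congr rfl fun s _ => ?_
      ring
    rw [gg, h1, hRp, Matrix.adjugate_smul, Matrix.smul_mulVec, Matrix.mulVec_smul, smul_smul, gg,
      smul_neg]
    congr 2
    rw [Fintype.card_fin]
    ring
  have hyy : yy B xi et ze (c • l) (om1 B n xi (c • l))
      = c ^ 13 • yy B xi et ze l (om1 B n xi l) := by
    rw [yy, hlam, haa, hgg, hom1, yy]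
    ext i j
    simp only [vecMulVec_apply, Pi.smul_apply, smul_eq_mul, Matrix.smul_apply, Matrix.add_apply]
    ring
  rw [B0, B0, sf, sf, hxx, hvv, hyy]
  simp only [qf_smul_left, qf_smul_mid, qf_smul_right]
  ring

end Pool.Agent.Work.D9
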