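import Mathlib
import Pool.Agent.Work.MP_b62148_ag.D9.Alg
import Pool.Agent.Work.MP_b62148_ag.D9.Maps

/-!
The explicit data of a point of the cubic of jumping lines form a configuration.
-/

namespace Pool.Agent.Work.D9

open MvPolynomial Matrix

variable {F : Type*} [Field F] (B : Fin 3 → Matrix (Fin 3) (Fin 3) F)
  (n : Fin 3 → Fin 3 × Fin 3 → Fin 3 × Fin 3 → F) (xi et ze l : Fin 3 → F)

theorem yy_of_aa_zero (h : aa B et ze l = 0) (w : Fin 3 → F) : yy B xi et ze l w = 0 := by
  have hg : gg B xi et ze l w = 0 := by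
    rw [gg, h]
    simp
    exact Matrix.mulVec_zero _
  rw [yy, hg, h]
  ext i j
  simp [vecMulVec_apply]

theorem qf_zero_mid (x : Fin 3 → F) (A : Matrix (Fin 3) (Fin 3) F) : qf n x 0 A = 0 := by
  simp [qf]

theorem qf_zero_right (x : Fin 3 → F) (A : Matrix (Fin 3) (Fin 3) F) : qf n x A 0 = 0 := by
  simp [qf]

theorem qf_zero_left (A A' : Matrix (Fin 3) (Fin 3) F) : qf n 0 A A' = 0 := by
  simp [qf]

theorem ne_of_C0 (h : C0 B n xi et ze l ≠ 0) : aa B et ze l ≠ 0 ∧ xx l (om1 B n xi l) ≠ 0 := by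
  constructor
  · intro h0
    apply h
    rw [C0, yy_of_aa_zero B xi et ze l h0, qf_zero_mid]
  · intro h0
    apply h
    rw [C0, h0, qf_zero_left]

theorem ne_of_B0 (h : B0 B n xi et ze l ≠ 0) : aa B et ze l ≠ 0 ∧ xx l (om1 B n xi l) ≠ 0 := by
  constructor
  · intro h0
    apply h
    rw [B0, yy_of_aa_zero B xi et ze l h0, sf, qf_zero_mid, qf_zero_right, add_zero]
  · intro h0
    apply h
    rw [B0, h0, sf, qf_zero_left, qf_zero_left, add_zero]

theorem yy_eq_cfg (w : Fin 3 → F) :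
    vecMulVec (lam B xi et ze l • aa B et ze l) w + vecMulVec (gg B xi et ze l w) l =
      yy B xi et ze l w := by
  rw [yy]
  ext i j
  simp [vecMulVec_apply, mul_assoc]

theorem cfg_of_data (hD : (rows B l).det = 0) (hlam : lam B xi et ze l ≠ 0)
    (haa : aa B et ze l ≠ 0) (hx : xx l (om1 B n xi l) ≠ 0) :
    Cfg B n l (pp B xi l) (mm B et l) (lam B xi et ze l • aa B et ze l)
      (gg B xi et ze l (om1 B n xi l)) := by
  have hzel : ze ⬝ᵥ l ≠ 0 := fun h0 => hlam (by rw [lam, h0, zero_mul])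
  have hkap : kap B xi et l ≠ 0 := fun h0 => hlam (by rw [lam, h0, mul_zero])
  refine ⟨?_, ?_, ?_, ?_, rows_mulVec_pp B xi l hD, vecMul_rows_mm B et l hD, ?_, hx, ?_⟩
  · rintro rfl
    exact hzel (dotProduct_zero _)
  · intro h0
    apply hkap
    rw [kap, h0, dotProduct_zero]
  · intro h0
    apply hkap
    have : kap B xi et l = mm B et l ⬝ᵥ xi := by
      rw [kap, pp, Matrix.dotProduct_mulVec]; rfl
    rw [this, h0, zero_dotProduct]
  · exact smul_ne_zero hlam haa
  · have h1 : (∑ i, mm B et l i • B i) = Bm B et l := rfl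
    rw [h1, Matrix.mulVec_smul, Bm_mulVec_aa]
    have h2 := det_Bm_mul B et l hD ze
    rw [(mul_eq_zero.1 h2).resolve_left hzel, zero_smul, smul_zero]
  · intro i
    have : Nrow n (vecMulVec (pp B xi l) l) = om1 B n xi l := rfl
    rw [this, yy_eq_cfg]
    exact trB_yy B xi et ze l hD _ i

theorem flexval_data : flexval n l (pp B xi l) (lam B xi et ze l • aa B et ze l)
    (gg B xi et ze l (om1 B n xi l)) = B0 B n xi et ze l := by
  have h : Nrow n (vecMulVec (pp B xi l) l) = om1 B n xi l := rfl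
  rw [flexval, h, yy_eq_cfg]
  rfl

theorem endval_data : endval n l (pp B xi l) (lam B xi et ze l • aa B et ze l)
    (gg B xi et ze l (om1 B n xi l)) = C0 B n xi et ze l := by
  have h : Nrow n (vecMulVec (pp B xi l) l) = om1 B n xi l := rfl
  rw [endval, h, yy_eq_cfg]
  rfl

end Pool.Agent.Work.D9
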