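import Mathlib

/-!
Generic existence of common zeros of two plane curves, from one witness, by resultants.
-/

namespace Pool.Agent.Work.D9

open Polynomial

/-- over an algebraically closed field the resultant vanishes iff there is a common zero -/
theorem res_zero_iff {K : Type*} [Field K] [IsAlgClosed K] {f g : K[X]} {m n : ℕ}
    (hf : f.natDegree = m) (hf0 : f ≠ 0) (hg : g.natDegree ≤ n) :
    resultant f g m n = 0 ↔ ∃ y, f.eval y = 0 ∧ g.eval y = 0 := by
  subst hf
  rw [resultant_eq_prod_eval f g n hg (IsAlgClosed.splits f)]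
  rw [mul_eq_zero, or_iff_right (pow_ne_zero _ (leadingCoeff_ne_zero.2 hf0)),
    Multiset.prod_eq_zero_iff, Multiset.mem_map]
  constructor
  · rintro ⟨y, hy, h⟩
    exact ⟨y, (mem_roots hf0).1 hy, h⟩
  · rintro ⟨y, hy, h⟩
    exact ⟨y, (mem_roots hf0).2 hy, h⟩

/-- Gauss: a factor in the constants that vanishes at the witness can be cancelled. -/
theorem gauss_cancel {A κ : Type*} [CommRing A] [IsDomain A] [UniqueFactorizationMonoid A]
    [Field κ] (ψ : A →+* κ) (R V : A[X]) (hR : R.map ψ ≠ 0) (c : A) (hc : c ≠ 0)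
    (h : R ∣ C c * V) : ∃ c' : A, ψ c' ≠ 0 ∧ R ∣ C c' * V := by
  revert h
  refine UniqueFactorizationMonoid.induction_on_prime (P := fun c => ∀ e : A, ψ e ≠ 0 → c ≠ 0 →
    R ∣ C (c * e) * V → ∃ c' : A, ψ c' ≠ 0 ∧ R ∣ C c' * V) c ?_ ?_ ?_ 1 (by simp) hc |> fun H => by
      simpa using H
  · intro e he h0
    exact absurd rfl h0
  · intro u hu e he _ h
    exact ⟨u * e, by rw [map_mul]; exact mul_ne_zero (hu.map ψ).ne_zero he, h⟩
  · intro a p ha hp ih e he hpa h
    by_cases hpψ : ψ p = 0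
    · refine ih e he ha ?_
      obtain ⟨Q, hQ⟩ := h
      have hCp : Prime (C p : A[X]) := prime_C_iff.2 hp
      have hdiv : C p ∣ R * Q := by
        rw [← hQ]
        exact ⟨C (a * e) * V, by rw [mul_assoc p a e, C_mul]; ring⟩
      rcases hCp.dvd_or_dvd hdiv with h1 | h1
      · obtain ⟨S, rfl⟩ := h1
        exact absurd (by rw [Polynomial.map_mul, Polynomial.map_C, hpψ, C_0, zero_mul]) hR
      · obtain ⟨S, rfl⟩ := h1
        refine ⟨S, ?_⟩
        apply mul_left_cancel₀ hCp.ne_zero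
        rw [show C p * (R * S) = R * (C p * S) by ring, ← hQ]
        simp only [C_mul]
        ring
    · refine ih (p * e) (by rw [map_mul]; exact mul_ne_zero hpψ he) ha ?_
      rwa [show a * (p * e) = p * a * e by ring]

/-- If all roots of `R` are roots of `U` then `R` divides `U ^ deg R`. -/
theorem dvd_pow_of_roots {K : Type*} [Field K] [IsAlgClosed K] (R U : K[X])
    (hR : R ≠ 0) (h : ∀ x, R.eval x = 0 → U.eval x = 0) : R ∣ U ^ R.natDegree := by
  classical
  rcases eq_or_ne U 0 with rfl | hU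
  · rcases Nat.eq_zero_or_pos R.natDegree with h0 | h0
    · rw [h0, pow_zero]
      have : IsUnit R := by
        rw [eq_C_of_natDegree_eq_zero h0]
        refine isUnit_C.2 (isUnit_iff_ne_zero.2 ?_)
        intro hc
        apply hR
        rw [eq_C_of_natDegree_eq_zero h0, hc, C_0]
      exact this.dvd
    · rw [zero_pow h0.ne']
      exact dvd_zero _
  · rw [(IsAlgClosed.splits R).dvd_iff_roots_le_roots hR (pow_ne_zero _ hU)]
    rw [Multiset.le_iff_count]
    intro a
    rw [roots_pow, Multiset.count_nsmul]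
    by_cases ha : a ∈ R.roots
    · have h1 : R.eval a = 0 := (mem_roots hR).1 ha
      have h2 : a ∈ U.roots := (mem_roots hU).2 (h a h1)
      have h3 : 1 ≤ Multiset.count a U.roots := Multiset.one_le_count_iff_mem.2 h2
      have h4 : Multiset.count a R.roots ≤ R.natDegree :=
        (Multiset.count_le_card _ _).trans (card_roots' R)
      calc Multiset.count a R.roots ≤ R.natDegree * 1 := by rw [mul_one]; exact h4
        _ ≤ _ := Nat.mul_le_mul_left _ h3
    · rw [Multiset.count_eq_zero_of_notMem ha]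
      exact Nat.zero_le _

/-- For general values of the parameters, `R` has a root which is not a root of `U`. -/
theorem generic_root {A κ : Type*} [CommRing A] [IsDomain A] [UniqueFactorizationMonoid A]
    [Field κ] (ψ : A →+* κ) (R U : A[X]) (hR : R.map ψ ≠ 0) (x₀ : κ)
    (hx : R.eval₂ ψ x₀ = 0) (hU : U.eval₂ ψ x₀ ≠ 0) :
    ∃ Φ : A, Φ ≠ 0 ∧ ∀ (Ω : Type*) [Field Ω] [IsAlgClosed Ω] (φ : A →+* Ω), φ Φ ≠ 0 →
      R.map φ ≠ 0 ∧ ∃ x : Ω, R.eval₂ φ x = 0 ∧ U.eval₂ φ x ≠ 0 := by
  classical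
  have hR0 : R ≠ 0 := by rintro rfl; exact hR (Polynomial.map_zero _)
  set m := R.natDegree with hm
  let K := FractionRing A
  let i : A →+* K := algebraMap A K
  have hi : Function.Injective i := IsFractionRing.injective A K
  have hRK : R.map i ≠ 0 := (Polynomial.map_ne_zero_iff hi).2 hR0
  set ρ := (U.map i) ^ m % (R.map i) with hρ
  obtain ⟨b₁, hb₁, hQ⟩ := IsLocalization.integerNormalization_spec (nonZeroDivisors A)
    ((U.map i) ^ m / (R.map i))
  obtain ⟨b₂, hb₂, hρ'⟩ := IsLocalization.integerNormalization_spec (nonZeroDivisors A) ρ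
  set Q := IsLocalization.integerNormalization (nonZeroDivisors A) ((U.map i) ^ m / (R.map i))
  set ρ' := IsLocalization.integerNormalization (nonZeroDivisors A) ρ
  have hb₁' : b₁ ≠ 0 := nonZeroDivisors.ne_zero hb₁
  have hb₂' : b₂ ≠ 0 := nonZeroDivisors.ne_zero hb₂
  have key : C (b₁ * b₂) * U ^ m = R * (C b₂ * Q) + C b₁ * ρ' := by
    apply Polynomial.map_injective i hi
    have h1 := EuclideanDomain.div_add_mod ((U.map i) ^ m) (R.map i)
    simp only [Polynomial.map_mul, Polynomial.map_add, Polynomial.map_pow, Polynomial.map_C,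
      map_mul]
    have h2 : Q.map i = C (i b₁) * ((U.map i) ^ m / (R.map i)) := by
      rw [hQ, Algebra.smul_def]; rfl
    have h3 : ρ'.map i = C (i b₂) * ρ := by
      rw [hρ', Algebra.smul_def]; rfl
    rw [h2, h3]
    rw [← hρ] at h1
    linear_combination -(C (i b₁) * C (i b₂)) * h1
  by_cases hρ0 : ρ = 0
  · exfalso
    have hρ'0 : ρ' = 0 := by
      apply Polynomial.map_injective i hi
      rw [hρ', hρ0, smul_zero, Polynomial.map_zero]
    rw [hρ'0, mul_zero, add_zero] at key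
    obtain ⟨c, hc, hdvd⟩ := gauss_cancel ψ R (U ^ m) hR (b₁ * b₂) (mul_ne_zero hb₁' hb₂')
      ⟨_, key⟩
    obtain ⟨S, hS⟩ := hdvd
    have h := congrArg (Polynomial.eval₂ ψ x₀) hS
    rw [eval₂_mul, eval₂_mul, eval₂_C, eval₂_pow, hx, zero_mul] at h
    exact (mul_ne_zero hc (pow_ne_zero _ hU)) h
  · have hρ'0 : C b₁ * ρ' ≠ 0 := by
      refine mul_ne_zero (C_ne_zero.2 hb₁') ?_
      intro h0
      apply hρ0
      have h3 : ρ'.map i = C (i b₂) * ρ := by
        rw [hρ', Algebra.smul_def]; rfl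
      rw [h0, Polynomial.map_zero] at h3
      have h4 := mul_eq_zero.1 h3.symm
      refine h4.resolve_left ?_
      rw [C_eq_zero]
      exact (map_ne_zero_iff i hi).2 hb₂'
    have hdeg : (C b₁ * ρ').degree < R.degree := by
      have h1 : ρ.degree < (R.map i).degree := EuclideanDomain.mod_lt _ hRK
      rw [degree_map_eq_of_injective hi] at h1
      have h3 : ρ'.map i = C (i b₂) * ρ := by
        rw [hρ', Algebra.smul_def]; rfl
      have h4 : ρ'.degree = ρ.degree := by
        rw [← degree_map_eq_of_injective hi, h3, degree_C_mul]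
        exact (map_ne_zero_iff i hi).2 hb₂'
      rw [degree_C_mul hb₁', h4]
      exact h1
    refine ⟨R.leadingCoeff * (C b₁ * ρ').leadingCoeff,
      mul_ne_zero (leadingCoeff_ne_zero.2 hR0) (leadingCoeff_ne_zero.2 hρ'0), ?_⟩
    intro Ω _ _ φ hφ
    rw [map_mul] at hφ
    have hφ1 := left_ne_zero_of_mul hφ
    have hφ2 := right_ne_zero_of_mul hφ
    have hRφ : R.map φ ≠ 0 := by
      intro h
      have := leadingCoeff_map_of_leadingCoeff_ne_zero φ hφ1
      rw [h, leadingCoeff_zero] at this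
      exact hφ1 this.symm
    refine ⟨hRφ, ?_⟩
    by_contra hno
    push Not at hno
    have hroots : ∀ x, (R.map φ).eval x = 0 → (U.map φ).eval x = 0 := by
      intro x hx
      rw [eval_map] at hx ⊢
      exact hno x hx
    have hd := dvd_pow_of_roots (R.map φ) (U.map φ) hRφ hroots
    have hnd : (R.map φ).natDegree = m := natDegree_map_of_leadingCoeff_ne_zero φ hφ1
    rw [hnd] at hd
    have key' := congrArg (Polynomial.map φ) key
    rw [Polynomial.map_mul, Polynomial.map_pow, Polynomial.map_add, Polynomial.map_mul] at key'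
    have hd2 : R.map φ ∣ (C b₁ * ρ').map φ := by
      have h1 : R.map φ ∣ (C (b₁ * b₂)).map φ * (U.map φ) ^ m := Dvd.dvd.mul_left hd _
      rw [key'] at h1
      exact (dvd_add_right (dvd_mul_right _ _)).1 h1
    have h5 : (C b₁ * ρ').map φ ≠ 0 := by
      intro h
      have := leadingCoeff_map_of_leadingCoeff_ne_zero φ hφ2
      rw [h, leadingCoeff_zero] at this
      exact hφ2 this.symm
    have h6 := degree_le_of_dvd hd2 h5
    rw [degree_map_eq_of_leadingCoeff_ne_zero φ hφ1,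
      degree_map_eq_of_leadingCoeff_ne_zero φ hφ2] at h6
    exact absurd hdeg (not_lt.2 h6)

theorem spec_deg {A Ω : Type*} [CommRing A] [Field Ω] (D : A[X][X]) (m : ℕ)
    (hDm : D.natDegree ≤ m) (d : A) (hd : D.coeff m = C d) (φ : A →+* Ω) (x : Ω) (hφ : φ d ≠ 0) :
    (D.map (eval₂RingHom φ x)).natDegree = m ∧ D.map (eval₂RingHom φ x) ≠ 0 := by
  have hc : (D.map (eval₂RingHom φ x)).coeff m = φ d := by
    rw [coeff_map, hd, coe_eval₂RingHom, eval₂_C]
  refine ⟨le_antisymm (natDegree_map_le.trans hDm) (le_natDegree_of_ne_zero ?_), ?_⟩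
  · rw [hc]; exact hφ
  · intro h
    rw [h, coeff_zero] at hc
    exact hφ hc.symm

theorem spec_iff {A Ω : Type*} [CommRing A] [Field Ω] [IsAlgClosed Ω] (D F : A[X][X]) (m : ℕ)
    (hDm : D.natDegree ≤ m) (d : A) (hd : D.coeff m = C d) (φ : A →+* Ω) (x : Ω) (hφ : φ d ≠ 0) :
    (resultant D F m F.natDegree).eval₂ φ x = 0 ↔
      ∃ y, (D.map (eval₂RingHom φ x)).eval y = 0 ∧ (F.map (eval₂RingHom φ x)).eval y = 0 := by
  obtain ⟨e1, e2⟩ := spec_deg D m hDm d hd φ x hφ
  rw [← res_zero_iff e1 e2 (n := F.natDegree) natDegree_map_le, resultant_map_map,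
    coe_eval₂RingHom]

/-- Two plane curves `D = 0`, `F = 0` over a parameter ring, `D` of degree `m` in `Y` with constant
leading coefficient, and an open condition `P ≠ 0`. If at one witness the curves have a common zero
over `x₀`, `P ≠ 0` at all points of `D = 0` over `x₀`, and `F ≠ 0` at all points over `x₁`, then for
general parameters there is a common zero with `P ≠ 0`, and the common zeros lie over finitely many
`x`. -/
theorem generic_common_zero {A κ : Type*} [CommRing A] [IsDomain A] [UniqueFactorizationMonoid A]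
    [Field κ] [IsAlgClosed κ] (ψ : A →+* κ) (D F P : A[X][X]) (m : ℕ) (hDm : D.natDegree ≤ m)
    (d : A) (hd : D.coeff m = C d) (hψd : ψ d ≠ 0) (x₀ x₁ : κ)
    (h0 : ∃ y, (D.map (eval₂RingHom ψ x₀)).eval y = 0 ∧ (F.map (eval₂RingHom ψ x₀)).eval y = 0)
    (h0' : ∀ y, (D.map (eval₂RingHom ψ x₀)).eval y = 0 → (P.map (eval₂RingHom ψ x₀)).eval y ≠ 0)
    (h1 : ∀ y, (D.map (eval₂RingHom ψ x₁)).eval y = 0 → (F.map (eval₂RingHom ψ x₁)).eval y ≠ 0)
    (hm : m ≠ 0) :
    ∃ Φ : A, Φ ≠ 0 ∧ ∀ (Ω : Type*) [Field Ω] [IsAlgClosed Ω] (φ : A →+* Ω), φ Φ ≠ 0 →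
      (∃ x y : Ω, (D.map (eval₂RingHom φ x)).eval y = 0 ∧ (F.map (eval₂RingHom φ x)).eval y = 0 ∧
        (P.map (eval₂RingHom φ x)).eval y ≠ 0) ∧
      (∃ x y : Ω, (D.map (eval₂RingHom φ x)).eval y = 0 ∧ (F.map (eval₂RingHom φ x)).eval y ≠ 0 ∧
        (P.map (eval₂RingHom φ x)).eval y ≠ 0) := by
  classical
  have hRψ : (resultant D F m F.natDegree).map ψ ≠ 0 := by
    intro h
    have h2 : (resultant D F m F.natDegree).eval₂ ψ x₁ = 0 := by rw [← eval_map, h, eval_zero]
    obtain ⟨y, hy, hy'⟩ := (spec_iff D F m hDm d hd ψ x₁ hψd).1 h2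
    exact h1 y hy hy'
  have hR0 := (spec_iff D F m hDm d hd ψ x₀ hψd).2 h0
  have hU0 : (resultant D P m P.natDegree).eval₂ ψ x₀ ≠ 0 := by
    intro h
    obtain ⟨y, hy, hy'⟩ := (spec_iff D P m hDm d hd ψ x₀ hψd).1 h
    exact h0' y hy hy'
  obtain ⟨Φ, hΦ, H⟩ := generic_root ψ _ _ hRψ x₀ hR0 hU0
  have hd0 : d ≠ 0 := by rintro rfl; exact hψd (map_zero ψ)
  refine ⟨Φ * d, mul_ne_zero hΦ hd0, ?_⟩
  intro Ω _ _ φ hφ
  rw [map_mul] at hφ
  have hφ1 := left_ne_zero_of_mul hφ
  have hφd := right_ne_zero_of_mul hφ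
  obtain ⟨hRφ, x, hx, hxU⟩ := H Ω φ hφ1
  refine ⟨?_, ?_⟩
  · obtain ⟨y, hy, hy'⟩ := (spec_iff D F m hDm d hd φ x hφd).1 hx
    refine ⟨x, y, hy, hy', ?_⟩
    intro hP
    exact hxU ((spec_iff D P m hDm d hd φ x hφd).2 ⟨y, hy, hP⟩)
  · have hUφ : (resultant D P m P.natDegree).map φ ≠ 0 := by
      intro h
      apply hxU
      rw [← eval_map, h, eval_zero]
    obtain ⟨z, hz⟩ := Polynomial.exists_eval_ne_zero_of_natDegree_lt_card
      (((resultant D F m F.natDegree).map φ) * ((resultant D P m P.natDegree).map φ))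
      (mul_ne_zero hRφ hUφ) (by
        have : Infinite Ω := IsAlgClosed.instInfinite
        exact (Cardinal.natCast_lt_aleph0).trans_le (Cardinal.aleph0_le_mk Ω))
    rw [eval_mul] at hz
    have hz1 := left_ne_zero_of_mul hz
    have hz2 := right_ne_zero_of_mul hz
    rw [eval_map] at hz1 hz2
    obtain ⟨e1, e2⟩ := spec_deg D m hDm d hd φ z hφd
    obtain ⟨y, hy⟩ := IsAlgClosed.exists_root (D.map (eval₂RingHom φ z)) (by
      rw [degree_eq_natDegree e2, e1]
      exact_mod_cast hm)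
    refine ⟨z, y, hy, ?_, ?_⟩
    · intro hF
      exact hz1 ((spec_iff D F m hDm d hd φ z hφd).2 ⟨y, hy, hF⟩)
    · intro hP
      exact hz2 ((spec_iff D P m hDm d hd φ z hφd).2 ⟨y, hy, hP⟩)

end Pool.Agent.Work.D9
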