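import Mathlib
import Pool.Agent.Work.MP_b62148_ag.D9.Maps
import Pool.Agent.Work.MP_b62148_ag.D9.GenRes

/-!
The explicit data in the affine chart `l = (1, X, Y)`, over a ring `A` of parameters.
-/

namespace Pool.Agent.Work.D9

open Matrix Polynomial

theorem mB_comp {R S T : Type*} [CommRing R] [CommRing S] [CommRing T] (φ : R →+* S) (θ : S →+* T)
    (B : Fin 3 → Matrix (Fin 3) (Fin 3) R) : mB θ (mB φ B) = mB (θ.comp φ) B := by
  funext i
  ext r j
  rfl

theorem mN_comp {R S T : Type*} [CommRing R] [CommRing S] [CommRing T] (φ : R →+* S) (θ : S →+* T)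
    (n : Fin 3 → Fin 3 × Fin 3 → Fin 3 × Fin 3 → R) : mN θ (mN φ n) = mN (θ.comp φ) n := rfl

def xiV (S : Type*) [CommRing S] : Fin 3 → S := ![0, 0, 1]

def etV (S : Type*) [CommRing S] : Fin 3 → S := ![1, 0, 0]

theorem map_xiV {S T : Type*} [CommRing S] [CommRing T] (θ : S →+* T) : θ ∘ xiV S = xiV T := by
  funext i
  fin_cases i <;> simp [xiV]

theorem map_etV {S T : Type*} [CommRing S] [CommRing T] (θ : S →+* T) : θ ∘ etV S = etV T := by
  funext i
  fin_cases i <;> simp [etV]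

noncomputable section

variable (A : Type*) [CommRing A]

/-- the constants -/
def ccT : A →+* A[X][X] := (C : A[X] →+* A[X][X]).comp (C : A →+* A[X])

/-- the point `(1, X, Y)` -/
def lT : Fin 3 → A[X][X] := ![1, C X, X]

variable {A}

/-- evaluation of the chart ring at parameters `φ` and the point `(1, x, y)` -/
def thT {K : Type*} [CommRing K] (φ : A →+* K) (x y : K) : A[X][X] →+* K :=
  (evalRingHom y).comp (mapRingHom (eval₂RingHom φ x))

theorem thT_apply {K : Type*} [CommRing K] (φ : A →+* K) (x y : K) (p : A[X][X]) :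
    (p.map (eval₂RingHom φ x)).eval y = thT φ x y p := rfl

theorem thT_cc {K : Type*} [CommRing K] (φ : A →+* K) (x y : K) :
    (thT φ x y).comp (ccT A) = φ := by
  ext a
  simp [thT, ccT]

theorem thT_l {K : Type*} [CommRing K] (φ : A →+* K) (x y : K) :
    thT φ x y ∘ lT A = ![1, x, y] := by
  funext i
  fin_cases i <;> simp [thT, lT]

theorem th_mB {K : Type*} [CommRing K] (φ : A →+* K) (x y : K)
    (B : Fin 3 → Matrix (Fin 3) (Fin 3) A) : mB (thT φ x y) (mB (ccT A) B) = mB φ B := by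
  rw [mB_comp, thT_cc]

theorem th_mN {K : Type*} [CommRing K] (φ : A →+* K) (x y : K)
    (n : Fin 3 → Fin 3 × Fin 3 → Fin 3 × Fin 3 → A) :
    mN (thT φ x y) (mN (ccT A) n) = mN φ n := by
  rw [mN_comp, thT_cc]

/-- `lam * C0` -/
def lamC0 {S : Type*} [CommRing S] (B : Fin 3 → Matrix (Fin 3) (Fin 3) S)
    (n : Fin 3 → Fin 3 × Fin 3 → Fin 3 × Fin 3 → S) (xi et ze l : Fin 3 → S) : S :=
  lam B xi et ze l * C0 B n xi et ze l

theorem map_lamC0 {S T : Type*} [CommRing S] [CommRing T] (θ : S →+* T)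
    (B : Fin 3 → Matrix (Fin 3) (Fin 3) S)
    (n : Fin 3 → Fin 3 × Fin 3 → Fin 3 × Fin 3 → S) (xi et ze l : Fin 3 → S) :
    θ (lamC0 B n xi et ze l) = lamC0 (mB θ B) (mN θ n) (θ ∘ xi) (θ ∘ et) (θ ∘ ze) (θ ∘ l) := by
  rw [lamC0, map_mul, map_lam, map_C0]
  rfl

theorem map_det_rows' {S T : Type*} [CommRing S] [CommRing T] (θ : S →+* T)
    (B : Fin 3 → Matrix (Fin 3) (Fin 3) S) (l : Fin 3 → S) :
    θ (rows B l).det = (rows (mB θ B) (θ ∘ l)).det := by
  rw [RingHom.map_det, ← map_rows]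
  rfl

variable (B : Fin 3 → Matrix (Fin 3) (Fin 3) A) (n : Fin 3 → Fin 3 × Fin 3 → Fin 3 × Fin 3 → A)

/-- the cubic of jumping lines in the chart -/
def DT : A[X][X] := (rows (mB (ccT A) B) (lT A)).det

/-- `B0` in the chart -/
def FT : A[X][X] :=
  B0 (mB (ccT A) B) (mN (ccT A) n) (xiV A[X][X]) (etV A[X][X]) (etV A[X][X]) (lT A)

/-- `lam * C0` in the chart -/
def PT : A[X][X] :=
  lamC0 (mB (ccT A) B) (mN (ccT A) n) (xiV A[X][X]) (etV A[X][X]) (etV A[X][X]) (lT A)

section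
variable {K : Type*} [CommRing K] (φ : A →+* K) (x y : K)

theorem th_DT : thT φ x y (DT B) = (rows (mB φ B) ![1, x, y]).det := by
  rw [DT, map_det_rows', th_mB, thT_l]

theorem th_FT : thT φ x y (FT B n) =
    B0 (mB φ B) (mN φ n) (xiV K) (etV K) (etV K) ![1, x, y] := by
  rw [FT, map_B0, th_mB, th_mN, thT_l, map_xiV, map_etV]

theorem th_PT : thT φ x y (PT B n) =
    lamC0 (mB φ B) (mN φ n) (xiV K) (etV K) (etV K) ![1, x, y] := by
  rw [PT, map_lamC0, th_mB, th_mN, thT_l, map_xiV, map_etV]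

end

/-- the leading coefficient of the cubic in `Y` -/
def dT : A := (Matrix.of fun i j => B i 2 j).det

theorem rows_entry (i j : Fin 3) : rows (mB (ccT A) B) (lT A) i j =
    X * C (C (B i 2 j)) + C (C (B i 0 j) + X * C (B i 1 j)) := by
  have h : rows (mB (ccT A) B) (lT A) i j = ∑ r, lT A r * C (C (B i r j)) := rfl
  have h0 : lT A 0 = 1 := rfl
  have h1 : lT A 1 = C X := rfl
  have h2 : lT A 2 = X := rfl
  rw [h, Fin.sum_univ_three, h0, h1, h2, C_add, C_mul]
  ring

theorem DT_eq : DT B = ((X : A[X][X]) • (Matrix.of fun i j => (C (B i 2 j) : A[X])).map C +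
    (Matrix.of fun i j => (C (B i 0 j) + X * C (B i 1 j) : A[X])).map C :
      Matrix (Fin 3) (Fin 3) A[X][X]).det := by
  have h : rows (mB (ccT A) B) (lT A) =
    ((X : A[X][X]) • (Matrix.of fun i j => (C (B i 2 j) : A[X])).map C +
    (Matrix.of fun i j => (C (B i 0 j) + X * C (B i 1 j) : A[X])).map C :
      Matrix (Fin 3) (Fin 3) A[X][X]) := by
    apply Matrix.ext
    intro i j
    rw [rows_entry]
    rfl
  rw [DT, h]

theorem DT_deg : (DT B).natDegree ≤ 3 := by
  rw [DT_eq]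
  have h := Polynomial.natDegree_det_X_add_C_le
    (Matrix.of fun i j => (C (B i 2 j) : A[X]))
    (Matrix.of fun i j => (C (B i 0 j) + X * C (B i 1 j) : A[X]))
  rwa [Fintype.card_fin] at h

theorem DT_coeff : (DT B).coeff 3 = C (dT B) := by
  rw [DT_eq]
  have h := Polynomial.coeff_det_X_add_C_card
    (Matrix.of fun i j => (C (B i 2 j) : A[X]))
    (Matrix.of fun i j => (C (B i 0 j) + X * C (B i 1 j) : A[X]))
  rw [Fintype.card_fin] at h
  rw [h, dT, RingHom.map_det]
  rfl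

end

end Pool.Agent.Work.D9
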