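import Mathlib
import Pool.Agent.Work.MP_b62148_ag.D9.GenCfg
import Pool.Agent.Work.MP_b62148_ag.D9.GenDef

/-!
For general parameters there are points `l₀`, `l₁` of the cubic of jumping lines as required in the
main theorem, from one witness.
-/

namespace Pool.Agent.Work.D9

open Matrix Polynomial

theorem T_abs {A κ : Type*} [CommRing A] [IsDomain A] [UniqueFactorizationMonoid A]
    [Field κ] [IsAlgClosed κ] (ψ : A →+* κ) (B : Fin 3 → Matrix (Fin 3) (Fin 3) A)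
    (n : Fin 3 → Fin 3 × Fin 3 → Fin 3 × Fin 3 → A) (hd : ψ (dT B) ≠ 0) (x₀ x₁ : κ)
    (w0 : ∃ y, (rows (mB ψ B) ![1, x₀, y]).det = 0 ∧
      B0 (mB ψ B) (mN ψ n) (xiV κ) (etV κ) (etV κ) ![1, x₀, y] = 0)
    (w0' : ∀ y, (rows (mB ψ B) ![1, x₀, y]).det = 0 →
      lamC0 (mB ψ B) (mN ψ n) (xiV κ) (etV κ) (etV κ) ![1, x₀, y] ≠ 0)
    (w1 : ∀ y, (rows (mB ψ B) ![1, x₁, y]).det = 0 →
      B0 (mB ψ B) (mN ψ n) (xiV κ) (etV κ) (etV κ) ![1, x₁, y] ≠ 0) :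
    ∃ Φ : A, Φ ≠ 0 ∧ ∀ (Ω : Type*) [Field Ω] [IsAlgClosed Ω] (φ : A →+* Ω), φ Φ ≠ 0 →
      (∃ l : Fin 3 → Ω, (rows (mB φ B) l).det = 0 ∧
        B0 (mB φ B) (mN φ n) (xiV Ω) (etV Ω) (etV Ω) l = 0 ∧
        lamC0 (mB φ B) (mN φ n) (xiV Ω) (etV Ω) (etV Ω) l ≠ 0) ∧
      (∃ l : Fin 3 → Ω, (rows (mB φ B) l).det = 0 ∧
        B0 (mB φ B) (mN φ n) (xiV Ω) (etV Ω) (etV Ω) l ≠ 0 ∧
        lamC0 (mB φ B) (mN φ n) (xiV Ω) (etV Ω) (etV Ω) l ≠ 0) := by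
  obtain ⟨Φ, hΦ, H⟩ := generic_common_zero ψ (DT B) (FT B n) (PT B n) 3 (DT_deg B) (dT B)
    (DT_coeff B) hd x₀ x₁
    (by
      obtain ⟨y, hy, hy'⟩ := w0
      refine ⟨y, ?_, ?_⟩
      · rw [thT_apply, th_DT]; exact hy
      · rw [thT_apply, th_FT]; exact hy')
    (by
      intro y hy
      rw [thT_apply, th_DT] at hy
      rw [thT_apply, th_PT]
      exact w0' y hy)
    (by
      intro y hy
      rw [thT_apply, th_DT] at hy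
      rw [thT_apply, th_FT]
      exact w1 y hy)
    (by norm_num)
  refine ⟨Φ, hΦ, ?_⟩
  intro Ω _ _ φ hφ
  obtain ⟨⟨x, y, h1, h2, h3⟩, ⟨x', y', h1', h2', h3'⟩⟩ := H Ω φ hφ
  rw [thT_apply] at h1 h2 h3 h1' h2' h3'
  rw [th_DT] at h1 h1'
  rw [th_FT] at h2 h2'
  rw [th_PT] at h3 h3'
  exact ⟨⟨_, h1, h2, h3⟩, ⟨_, h1', h2', h3'⟩⟩

/-- from the chart data to the hypotheses of the main theorem -/
theorem cfg_of_zero {Ω : Type*} [Field Ω] (B : Fin 3 → Matrix (Fin 3) (Fin 3) Ω)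
    (n : Fin 3 → Fin 3 × Fin 3 → Fin 3 × Fin 3 → Ω) (xi et ze l : Fin 3 → Ω)
    (hD : (rows B l).det = 0) (h0 : B0 B n xi et ze l = 0) (hP : lamC0 B n xi et ze l ≠ 0) :
    ∃ l₀ p₀ m₀ a₀ g₀ : Fin 3 → Ω, Cfg B n l₀ p₀ m₀ a₀ g₀ ∧ flexval n l₀ p₀ a₀ g₀ = 0 ∧
      endval n l₀ p₀ a₀ g₀ ≠ 0 := by
  have hl : lam B xi et ze l ≠ 0 := left_ne_zero_of_mul hP
  have hC : C0 B n xi et ze l ≠ 0 := right_ne_zero_of_mul hP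
  obtain ⟨ha, hx⟩ := ne_of_C0 B n xi et ze l hC
  refine ⟨l, _, _, _, _, cfg_of_data B n xi et ze l hD hl ha hx, ?_, ?_⟩
  · rw [flexval_data, h0]
  · rw [endval_data]; exact hC

theorem cfg_of_nonzero {Ω : Type*} [Field Ω] (B : Fin 3 → Matrix (Fin 3) (Fin 3) Ω)
    (n : Fin 3 → Fin 3 × Fin 3 → Fin 3 × Fin 3 → Ω) (xi et ze l : Fin 3 → Ω)
    (hD : (rows B l).det = 0) (h0 : B0 B n xi et ze l ≠ 0) (hP : lamC0 B n xi et ze l ≠ 0) :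
    ∃ l₀ p₀ m₀ a₀ g₀ : Fin 3 → Ω, Cfg B n l₀ p₀ m₀ a₀ g₀ ∧ flexval n l₀ p₀ a₀ g₀ ≠ 0 := by
  have hl : lam B xi et ze l ≠ 0 := left_ne_zero_of_mul hP
  obtain ⟨ha, hx⟩ := ne_of_B0 B n xi et ze l h0
  refine ⟨l, _, _, _, _, cfg_of_data B n xi et ze l hD hl ha hx, ?_⟩
  rw [flexval_data]
  exact h0

end Pool.Agent.Work.D9
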