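import Mathlib
import Pool.Agent.Work.MP_b62148_ag.D9.GenT

/-!
The witness for the existence of `l₀`, `l₁`.
-/

namespace Pool.Agent.Work.D9

open Matrix

section
variable (K : Type*) [CommRing K]

def wB : Fin 3 → Matrix (Fin 3) (Fin 3) K :=
  ![!![0, -1, 0; 0, 0, 0; 1, 0, 0], !![0, 0, -1; 0, 0, 0; 0, 1, 0],
    !![-1, 3, -3; 1, -3, 3; 0, 0, 1]]

def wN : Fin 3 → Fin 3 × Fin 3 → Fin 3 × Fin 3 → K := fun j s t =>
  if j = 1 ∧ s = (0, 0) ∧ t = (0, 0) then 1 else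
    if j = 2 ∧ s = (0, 1) ∧ t = (0, 1) then -1 else 0

theorem wN_zero (s t : Fin 3 × Fin 3) : wN K 0 s t = 0 := by
  simp [wN]

theorem qf_wN (x : Fin 3 → K) (A A' : Matrix (Fin 3) (Fin 3) K) :
    qf (wN K) x A A' = x 1 * (A 0 0 * A' 0 0) - x 2 * (A 0 1 * A' 0 1) := by
  have h1 : ∑ s, ∑ t, wN K 1 s t * A s.1 s.2 * A' t.1 t.2 = A 0 0 * A' 0 0 := by
    rw [Finset.sum_eq_single (0, 0)]
    · rw [Finset.sum_eq_single (0, 0)]
      · simp [wN]
      · intro t _ ht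
        simp [wN, ht]
      · simp
    · intro s _ hs
      refine Finset.sum_eq_zero fun t _ => ?_
      simp [wN, hs]
    · simp
  have h2 : ∑ s, ∑ t, wN K 2 s t * A s.1 s.2 * A' t.1 t.2 = -(A 0 1 * A' 0 1) := by
    rw [Finset.sum_eq_single (0, 1)]
    · rw [Finset.sum_eq_single (0, 1)]
      · simp [wN]
      · intro t _ ht
        simp [wN, ht]
      · simp
    · intro s _ hs
      refine Finset.sum_eq_zero fun t _ => ?_
      simp [wN, hs]
    · simp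
  rw [qf, Fin.sum_univ_three, h1, h2]
  simp only [wN_zero, zero_mul, Finset.sum_const_zero, mul_zero, zero_add]
  ring

theorem Nrow_wN (A : Matrix (Fin 3) (Fin 3) K) :
    Nrow (wN K) A = ![0, A 0 0 ^ 2, -(A 0 1 ^ 2)] := by
  funext j
  have h := qf_wN K (Pi.single j 1) A A
  have h' : qf (wN K) (Pi.single j 1) A A = Nrow (wN K) A j := by
    rw [qf_self, single_dotProduct, one_mul]
  rw [← h', h]
  fin_cases j <;> simp <;> ring

theorem rows_wB (l : Fin 3 → K) : rows (wB K) l =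
    !![l 2, -l 0, 0; 0, l 2, -l 0; -l 0 + l 1, 3 * l 0 - 3 * l 1, l 2 - 3 * l 0 + 3 * l 1] := by
  ext i j
  fin_cases i <;> fin_cases j <;> simp [rows, wB, Fin.sum_univ_three] <;> ring

theorem det_wB0 (y : K) : (rows (wB K) ![1, 0, y]).det = (y - 1) ^ 3 := by
  rw [rows_wB, det_fin_three]
  simp
  ring

theorem det_wB1 (y : K) : (rows (wB K) ![1, 1, y]).det = y ^ 3 := by
  rw [rows_wB, det_fin_three]
  simp
  ring

theorem dT_wB : dT (wB K) = 1 := by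
  rw [dT, det_fin_three]
  simp [wB]

/-! the point `l = (1, 0, 1)` -/

theorem w0_adj : adjugate (rows (wB K) ![1, 0, 1]) = !![1, -2, 1; 1, -2, 1; 1, -2, 1] := by
  rw [rows_wB, adjugate_fin_three]
  ext i j
  fin_cases i <;> fin_cases j <;> simp <;> ring

theorem w0_pp : pp (wB K) (xiV K) ![1, 0, 1] = ![1, 1, 1] := by
  rw [pp, w0_adj]
  funext i
  fin_cases i <;> simp [xiV, mulVec, dotProduct, Fin.sum_univ_three]

theorem w0_mm : mm (wB K) (etV K) ![1, 0, 1] = ![1, -2, 1] := by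
  rw [mm, w0_adj]
  funext i
  fin_cases i <;> simp [etV, vecMul, dotProduct, Fin.sum_univ_three]

theorem w0_Bm : Bm (wB K) (etV K) ![1, 0, 1] = !![-1, 2, -1; 1, -3, 3; 1, -2, 1] := by
  rw [Bm, w0_mm]
  ext i j
  fin_cases i <;> fin_cases j <;> simp [wB, Fin.sum_univ_three] <;> ring

theorem w0_aa : aa (wB K) (etV K) (etV K) ![1, 0, 1] = ![3, 2, 1] := by
  rw [aa, w0_Bm, adjugate_fin_three]
  funext i
  fin_cases i <;> simp [etV, mulVec, dotProduct, Fin.sum_univ_three] <;> ring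

theorem w0_kap : kap (wB K) (xiV K) (etV K) ![1, 0, 1] = 1 := by
  rw [kap, w0_pp]
  simp [etV, dotProduct, Fin.sum_univ_three]

theorem w0_lam : lam (wB K) (xiV K) (etV K) (etV K) ![1, 0, 1] = 1 := by
  rw [lam, w0_kap]
  simp [etV, dotProduct, Fin.sum_univ_three]

theorem w0_vv : vv (wB K) (xiV K) ![1, 0, 1] = !![1, 0, 1; 1, 0, 1; 1, 0, 1] := by
  rw [vv, w0_pp]
  ext i j
  fin_cases i <;> fin_cases j <;> simp [vecMulVec_apply]

theorem w0_om1 : om1 (wB K) (wN K) (xiV K) ![1, 0, 1] = ![0, 1, 0] := by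
  rw [om1, w0_vv, Nrow_wN]
  funext i
  fin_cases i <;> simp

theorem w0_xx : xx (![1, 0, 1] : Fin 3 → K) ![0, 1, 0] = ![1, 0, -1] := by
  rw [xx, cross_apply]
  funext i
  fin_cases i <;> simp

theorem w0_Rp : Rp (wB K) (xiV K) (etV K) (etV K) ![1, 0, 1] =
    !![1, -1, 0; 0, 1, -1; 0, 3, -2] := by
  rw [Rp, rows_wB]
  ext i j
  fin_cases i <;> fin_cases j <;>
    simp [vecMulVec_apply, etV, xiV, dotProduct, Fin.sum_univ_three] <;> ring

theorem w0_gg : gg (wB K) (xiV K) (etV K) (etV K) ![1, 0, 1] ![0, 1, 0] = 0 := by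
  rw [gg, w0_Rp, w0_aa, adjugate_fin_three]
  funext i
  fin_cases i <;> simp [wB, mulVec, dotProduct, Fin.sum_univ_three] <;> ring

theorem w0_yy : yy (wB K) (xiV K) (etV K) (etV K) ![1, 0, 1] ![0, 1, 0] =
    !![0, 3, 0; 0, 2, 0; 0, 1, 0] := by
  rw [yy, w0_gg, w0_aa, w0_lam]
  ext i j
  fin_cases i <;> fin_cases j <;> simp [vecMulVec_apply]

theorem w0_B0 : B0 (wB K) (wN K) (xiV K) (etV K) (etV K) ![1, 0, 1] = 0 := by
  rw [B0, w0_om1, w0_xx, w0_vv, w0_yy, sf, qf_wN, qf_wN]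
  simp

theorem w0_lamC0 : lamC0 (wB K) (wN K) (xiV K) (etV K) (etV K) ![1, 0, 1] = 9 := by
  rw [lamC0, w0_lam, C0, w0_om1, w0_xx, w0_yy, qf_wN]
  simp
  norm_num

/-! the point `l = (1, 1, 0)` -/

theorem w1_adj : adjugate (rows (wB K) ![1, 1, 0]) = !![0, 0, 1; 0, 0, 0; 0, 0, 0] := by
  rw [rows_wB, adjugate_fin_three]
  ext i j
  fin_cases i <;> fin_cases j <;> simp

theorem w1_pp : pp (wB K) (xiV K) ![1, 1, 0] = ![1, 0, 0] := by
  rw [pp, w1_adj]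
  funext i
  fin_cases i <;> simp [xiV, mulVec, dotProduct, Fin.sum_univ_three]

theorem w1_mm : mm (wB K) (etV K) ![1, 1, 0] = ![0, 0, 1] := by
  rw [mm, w1_adj]
  funext i
  fin_cases i <;> simp [etV, vecMul, dotProduct, Fin.sum_univ_three]

theorem w1_Bm : Bm (wB K) (etV K) ![1, 1, 0] = !![-1, 3, -3; 1, -3, 3; 0, 0, 1] := by
  rw [Bm, w1_mm]
  ext i j
  fin_cases i <;> fin_cases j <;> simp [wB, Fin.sum_univ_three]

theorem w1_aa : aa (wB K) (etV K) (etV K) ![1, 1, 0] = ![-3, -1, 0] := by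
  rw [aa, w1_Bm, adjugate_fin_three]
  funext i
  fin_cases i <;> simp [etV, mulVec, dotProduct, Fin.sum_univ_three]

theorem w1_kap : kap (wB K) (xiV K) (etV K) ![1, 1, 0] = 1 := by
  rw [kap, w1_pp]
  simp [etV, dotProduct, Fin.sum_univ_three]

theorem w1_lam : lam (wB K) (xiV K) (etV K) (etV K) ![1, 1, 0] = 1 := by
  rw [lam, w1_kap]
  simp [etV, dotProduct, Fin.sum_univ_three]

theorem w1_vv : vv (wB K) (xiV K) ![1, 1, 0] = !![1, 1, 0; 0, 0, 0; 0, 0, 0] := by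
  rw [vv, w1_pp]
  ext i j
  fin_cases i <;> fin_cases j <;> simp [vecMulVec_apply]

theorem w1_om1 : om1 (wB K) (wN K) (xiV K) ![1, 1, 0] = ![0, 1, -1] := by
  rw [om1, w1_vv, Nrow_wN]
  funext i
  fin_cases i <;> simp

theorem w1_xx : xx (![1, 1, 0] : Fin 3 → K) ![0, 1, -1] = ![1, -1, -1] := by
  rw [xx, cross_apply]
  funext i
  fin_cases i <;> simp

theorem w1_Rp : Rp (wB K) (xiV K) (etV K) (etV K) ![1, 1, 0] =
    !![0, -1, 0; 0, 0, -1; 1, 0, 0] := by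
  rw [Rp, rows_wB]
  ext i j
  fin_cases i <;> fin_cases j <;>
    simp [vecMulVec_apply, etV, xiV, dotProduct, Fin.sum_univ_three]

theorem w1_gg : gg (wB K) (xiV K) (etV K) (etV K) ![1, 1, 0] ![0, 1, -1] = ![0, 3, 1] := by
  rw [gg, w1_Rp, w1_aa, adjugate_fin_three]
  funext i
  fin_cases i <;> simp [wB, mulVec, dotProduct, Fin.sum_univ_three] <;> ring

theorem w1_yy : yy (wB K) (xiV K) (etV K) (etV K) ![1, 1, 0] ![0, 1, -1] =
    !![0, -3, 3; 3, 2, 1; 1, 1, 0] := by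
  rw [yy, w1_gg, w1_aa, w1_lam]
  ext i j
  fin_cases i <;> fin_cases j <;> simp [vecMulVec_apply] <;> ring

theorem w1_B0 : B0 (wB K) (wN K) (xiV K) (etV K) (etV K) ![1, 1, 0] = -6 := by
  rw [B0, w1_om1, w1_xx, w1_vv, w1_yy, sf, qf_wN, qf_wN]
  simp
  ring

end

end Pool.Agent.Work.D9
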