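import Mathlib
import Pool.Agent.Work.MP_b62148_ag.D9.Pipe

/-!
Module (d) of D9: the smooth cubic of jumping lines.
-/

namespace Pool.Agent.Work.D9

open MvPolynomial Matrix

/-- the cubic `det (rows B l)` as a polynomial in `l` -/
noncomputable def jc {K : Type*} [CommRing K] (B : Fin 3 → Matrix (Fin 3) (Fin 3) K) :
    MvPolynomial (Fin 3) K :=
  (rows (fun i => (B i).map (C : K →+* MvPolynomial (Fin 3) K)) (fun j => X j)).det

section

variable {Ω : Type*} [Field Ω]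

theorem eval_jc (B : Fin 3 → Matrix (Fin 3) (Fin 3) Ω) (l : Fin 3 → Ω) :
    eval l (jc B) = (rows B l).det := by
  unfold jc
  rw [RingHom.map_det]
  congr 1
  ext i j
  simp [rows]

theorem jc_hom (B : Fin 3 → Matrix (Fin 3) (Fin 3) Ω) : (jc B).IsHomogeneous 3 := by
  have h : ∀ i j, (rows (fun i => (B i).map (C : Ω →+* MvPolynomial (Fin 3) Ω))
      (fun j => X j) i j).IsHomogeneous 1 := by
    intro i j
    simp only [rows, Matrix.of_apply, Matrix.map_apply]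
    refine IsHomogeneous.sum _ _ _ fun r _ => ?_
    simpa using (isHomogeneous_X Ω r).mul (isHomogeneous_C (Fin 3) (B i r j))
  unfold jc
  rw [det_apply]
  refine IsHomogeneous.sum _ _ _ fun σ _ => ?_
  have h1 : (∏ i, rows (fun i => (B i).map (C : Ω →+* MvPolynomial (Fin 3) Ω))
      (fun j => X j) (σ i) i).IsHomogeneous 3 := by
    have := IsHomogeneous.prod (Finset.univ : Finset (Fin 3))
      (fun i => rows (fun i => (B i).map (C : Ω →+* MvPolynomial (Fin 3) Ω))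
      (fun j => X j) (σ i) i) (fun _ => 1) (fun i _ => h (σ i) i)
    simpa using this
  rcases Int.units_eq_one_or (Equiv.Perm.sign σ) with h2 | h2 <;> rw [h2]
  · simpa using h1
  · simpa using h1.neg

/-- partial derivatives of the cubic -/
theorem eval_pderiv_jc (B : Fin 3 → Matrix (Fin 3) (Fin 3) Ω) (l : Fin 3 → Ω) (k : Fin 3) :
    eval l (pderiv k (jc B)) =
      (adjugate (rows B l) * rows B (Pi.single k 1)).trace := by
  have hp : ∀ i j, pderiv k (rows (fun i => (B i).map (C : Ω →+* MvPolynomial (Fin 3) Ω))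
      (fun j => X j) i j) = C (rows B (Pi.single k 1) i j) := by
    intro i j
    simp only [rows, Matrix.of_apply, Matrix.map_apply, map_sum, Derivation.leibniz, pderiv_C,
      pderiv_X, smul_eq_mul, Pi.single_apply]
    refine Finset.sum_congr rfl fun r _ => ?_
    by_cases h : r = k
    · subst h
      simp
    · simp [h]
  have he : ∀ i j, eval l (rows (fun i => (B i).map (C : Ω →+* MvPolynomial (Fin 3) Ω))
      (fun j => X j) i j) = rows B l i j := by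
    intro i j
    simp [rows]
  unfold jc
  rw [det_fin_three]
  simp only [map_sub, map_add, Derivation.leibniz, smul_eq_mul, map_mul, hp, he, eval_C]
  rw [adjugate_fin_three, trace_fin_three]
  simp only [Matrix.mul_apply, Fin.sum_univ_three]
  simp [Matrix.of_apply, Matrix.cons_val_zero]
  ring

/-- (d1) the rank of `rows B l` is two at a smooth point of the cubic. -/
theorem adj_rows_ne (B : Fin 3 → Matrix (Fin 3) (Fin 3) Ω) (l : Fin 3 → Ω) (i : Fin 3)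
    (hi : eval l (pderiv i (jc B)) ≠ 0) : adjugate (rows B l) ≠ 0 := by
  intro h
  apply hi
  rw [eval_pderiv_jc, h, zero_mul, trace_zero]

theorem trace_adj_zero {R S : Matrix (Fin 3) (Fin 3) Ω} {m : Fin 3 → Ω} (hm : m ≠ 0)
    (h1 : m ᵥ* R = 0) (h2 : m ᵥ* S = 0) : (adjugate R * S).trace = 0 := by
  have e : ∀ j, m 0 * R 0 j + m 1 * R 1 j + m 2 * R 2 j = 0 := by
    intro j
    have := congrFun h1 j
    simpa [vecMul, dotProduct, Fin.sum_univ_three] using this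
  have f : ∀ j, m 0 * S 0 j + m 1 * S 1 j + m 2 * S 2 j = 0 := by
    intro j
    have := congrFun h2 j
    simpa [vecMul, dotProduct, Fin.sum_univ_three] using this
  have e0 := e 0
  have e1 := e 1
  have e2 := e 2
  have f0 := f 0
  have f1 := f 1
  have f2 := f 2
  have ht : (adjugate R * S).trace = (R 1 1 * R 2 2 - R 1 2 * R 2 1) * S 0 0 +
      (-(R 0 1 * R 2 2) + R 0 2 * R 2 1) * S 1 0 + (R 0 1 * R 1 2 - R 0 2 * R 1 1) * S 2 0 +
      ((-(R 1 0 * R 2 2) + R 1 2 * R 2 0) * S 0 1 + (R 0 0 * R 2 2 - R 0 2 * R 2 0) * S 1 1 +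
      (-(R 0 0 * R 1 2) + R 0 2 * R 1 0) * S 2 1) +
      ((R 1 0 * R 2 1 - R 1 1 * R 2 0) * S 0 2 + (-(R 0 0 * R 2 1) + R 0 1 * R 2 0) * S 1 2 +
      (R 0 0 * R 1 1 - R 0 1 * R 1 0) * S 2 2) := by
    rw [adjugate_fin_three, trace_fin_three]
    simp only [Matrix.mul_apply, Fin.sum_univ_three]
    simp [Matrix.of_apply, Matrix.cons_val_zero]
  rw [ht]
  obtain ⟨i, hi⟩ := Function.ne_iff.1 hm
  rw [Pi.zero_apply] at hi
  refine (mul_eq_zero.1 ?_).resolve_left hi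
  fin_cases i
  · show m 0 * _ = 0
    linear_combination (R 1 1 * R 2 2 - R 1 2 * R 2 1) * f0 + (S 1 1 * R 2 2 + R 1 1 * S 2 2 - S 1 2 * R 2 1 - R 1 2 * S 2 1) * e0 - (R 1 0 * R 2 2 - R 1 2 * R 2 0) * f1 - (S 1 0 * R 2 2 + R 1 0 * S 2 2 - S 1 2 * R 2 0 - R 1 2 * S 2 0) * e1 + (R 1 0 * R 2 1 - R 1 1 * R 2 0) * f2 + (S 1 0 * R 2 1 + R 1 0 * S 2 1 - S 1 1 * R 2 0 - R 1 1 * S 2 0) * e2
  · show m 1 * _ = 0
    linear_combination - (R 0 1 * R 2 2 - R 0 2 * R 2 1) * f0 - (S 0 1 * R 2 2 + R 0 1 * S 2 2 - S 0 2 * R 2 1 - R 0 2 * S 2 1) * e0 + (R 0 0 * R 2 2 - R 0 2 * R 2 0) * f1 + (S 0 0 * R 2 2 + R 0 0 * S 2 2 - S 0 2 * R 2 0 - R 0 2 * S 2 0) * e1 - (R 0 0 * R 2 1 - R 0 1 * R 2 0) * f2 - (S 0 0 * R 2 1 + R 0 0 * S 2 1 - S 0 1 * R 2 0 - R 0 1 * S 2 0) * e2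
  · show m 2 * _ = 0
    linear_combination (R 0 1 * R 1 2 - R 0 2 * R 1 1) * f0 + (S 0 1 * R 1 2 + R 0 1 * S 1 2 - S 0 2 * R 1 1 - R 0 2 * S 1 1) * e0 - (R 0 0 * R 1 2 - R 0 2 * R 1 0) * f1 - (S 0 0 * R 1 2 + R 0 0 * S 1 2 - S 0 2 * R 1 0 - R 0 2 * S 1 0) * e1 + (R 0 0 * R 1 1 - R 0 1 * R 1 0) * f2 + (S 0 0 * R 1 1 + R 0 0 * S 1 1 - S 0 1 * R 1 0 - R 0 1 * S 1 0) * e2

end

end Pool.Agent.Work.D9
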