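import Mathlib
import Pool.Agent.Work.MP_b62148_ag.D9.Maps
import Pool.Agent.Work.MP_b62148_ag.D9.JA

/-!
Smoothness of the cubic of jumping lines is an open condition on `B`, with an explicit witness.
-/

namespace Pool.Agent.Work.D9

namespace SG

open MvPolynomial Matrix

/-- exponents of the fifteen monomials of degree four -/
def E : Fin 15 → Fin 3 → ℕ :=
  ![![4, 0, 0], ![3, 1, 0], ![3, 0, 1], ![2, 2, 0], ![2, 1, 1], ![2, 0, 2], ![1, 3, 0],
    ![1, 2, 1], ![1, 1, 2], ![1, 0, 3], ![0, 4, 0], ![0, 3, 1], ![0, 2, 2], ![0, 1, 3],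
    ![0, 0, 4]]

/-- an index with exponent at least two -/
def ii : Fin 15 → Fin 3 := ![0, 0, 0, 0, 0, 0, 1, 1, 2, 2, 1, 1, 1, 2, 2]

/-- exponents of the monomial divided by the square of the variable `ii` -/
def Gx : Fin 15 → Fin 3 → ℕ :=
  ![![2, 0, 0], ![1, 1, 0], ![1, 0, 1], ![0, 2, 0], ![0, 1, 1], ![0, 0, 2], ![1, 1, 0],
    ![1, 0, 1], ![1, 1, 0], ![1, 0, 1], ![0, 2, 0], ![0, 1, 1], ![0, 0, 2], ![0, 1, 1],
    ![0, 0, 2]]

/-- number of the monomial `Gx f` times the variables `b` and `c` -/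
def idx : Fin 15 → Fin 3 → Fin 3 → Fin 15 :=
  ![![![0, 1, 2], ![1, 3, 4], ![2, 4, 5]], ![![1, 3, 4], ![3, 6, 7], ![4, 7, 8]],
    ![![2, 4, 5], ![4, 7, 8], ![5, 8, 9]], ![![3, 6, 7], ![6, 10, 11], ![7, 11, 12]],
    ![![4, 7, 8], ![7, 11, 12], ![8, 12, 13]], ![![5, 8, 9], ![8, 12, 13], ![9, 13, 14]],
    ![![1, 3, 4], ![3, 6, 7], ![4, 7, 8]], ![![2, 4, 5], ![4, 7, 8], ![5, 8, 9]],
    ![![1, 3, 4], ![3, 6, 7], ![4, 7, 8]], ![![2, 4, 5], ![4, 7, 8], ![5, 8, 9]],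
    ![![3, 6, 7], ![6, 10, 11], ![7, 11, 12]], ![![4, 7, 8], ![7, 11, 12], ![8, 12, 13]],
    ![![5, 8, 9], ![8, 12, 13], ![9, 13, 14]], ![![4, 7, 8], ![7, 11, 12], ![8, 12, 13]],
    ![![5, 8, 9], ![8, 12, 13], ![9, 13, 14]]]

theorem E_idx : ∀ (f : Fin 15) (b c j : Fin 3),
    E (idx f b c) j = Gx f j + (if j = b then 1 else 0) + (if j = c then 1 else 0) := by
  decide

section

variable {R : Type*} [CommRing R]

/-- coefficient of the cubic -/
def kd (B : Fin 3 → Matrix (Fin 3) (Fin 3) R) (a b c : Fin 3) : R :=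
  B 0 a 0 * (B 1 b 1 * B 2 c 2 - B 1 b 2 * B 2 c 1) -
    B 0 a 1 * (B 1 b 0 * B 2 c 2 - B 1 b 2 * B 2 c 0) +
    B 0 a 2 * (B 1 b 0 * B 2 c 1 - B 1 b 1 * B 2 c 0)

/-- coefficients of the partial derivatives -/
def ks (B : Fin 3 → Matrix (Fin 3) (Fin 3) R) (k b c : Fin 3) : R :=
  kd B k b c + kd B b k c + kd B b c k

/-- Macaulay matrix of the partial derivatives in degree four -/
def mac (B : Fin 3 → Matrix (Fin 3) (Fin 3) R) : Matrix (Fin 15) (Fin 15) R :=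
  Matrix.of fun f f' => ∑ b, ∑ c, if f' = idx f b c then ks B (ii f) b c else 0

/-- the fifteen monomials -/
def mu (l : Fin 3 → R) (f : Fin 15) : R := ∏ j, l j ^ E f j

theorem mu_idx (l : Fin 3 → R) (f : Fin 15) (b c : Fin 3) :
    mu l (idx f b c) = (∏ j, l j ^ Gx f j) * (l b * l c) := by
  unfold mu
  simp only [E_idx, pow_add, Finset.prod_mul_distrib]
  have h : ∀ b : Fin 3, ∏ j, l j ^ (if j = b then 1 else 0) = l b := by
    intro b
    rw [Finset.prod_eq_single b]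
    · simp
    · intro j _ hj
      simp [hj]
    · simp
  rw [h, h, mul_assoc]

theorem mac_mulVec (B : Fin 3 → Matrix (Fin 3) (Fin 3) R) (l : Fin 3 → R) (f : Fin 15) :
    (mac B *ᵥ mu l) f = (∏ j, l j ^ Gx f j) * ∑ b, ∑ c, ks B (ii f) b c * (l b * l c) := by
  simp only [mulVec, dotProduct, mac, Matrix.of_apply, Finset.sum_mul, ite_mul, zero_mul]
  rw [Finset.sum_comm]
  rw [Finset.mul_sum]
  refine Finset.sum_congr rfl fun b _ => ?_
  rw [Finset.sum_comm, Finset.mul_sum]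
  refine Finset.sum_congr rfl fun c _ => ?_
  rw [Finset.sum_ite_eq' Finset.univ (idx f b c), if_pos (Finset.mem_univ _), mu_idx]
  ring

theorem kd_map {S : Type*} [CommRing S] (φ : R →+* S) (B : Fin 3 → Matrix (Fin 3) (Fin 3) R)
    (a b c : Fin 3) : kd (mB φ B) a b c = φ (kd B a b c) := by
  simp only [kd, mB, Matrix.map_apply, map_add, map_sub, map_mul]

theorem mac_map {S : Type*} [CommRing S] (φ : R →+* S)
    (B : Fin 3 → Matrix (Fin 3) (Fin 3) R) : (mac B).map φ = mac (mB φ B) := by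
  ext f f'
  simp only [mac, Matrix.map_apply, Matrix.of_apply, map_sum, apply_ite φ, map_zero, ks,
    kd_map, map_add]

end

section

variable {Ω : Type*} [Field Ω]

theorem pderiv_ks (B : Fin 3 → Matrix (Fin 3) (Fin 3) Ω) (l : Fin 3 → Ω) (k : Fin 3) :
    eval l (pderiv k (jc B)) = ∑ b, ∑ c, ks B k b c * (l b * l c) := by
  rw [eval_pderiv_jc, adjugate_fin_three, trace_fin_three]
  simp only [Matrix.mul_apply, Fin.sum_univ_three, rows, Matrix.of_apply, Matrix.cons_val_zero,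
    Matrix.cons_val_one, Matrix.cons_val, ks, kd]
  fin_cases k
  · simp
    ring
  · simp
    ring
  · simp
    ring

/-- smoothness from the Macaulay determinant -/
theorem smooth_of_mac (B : Fin 3 → Matrix (Fin 3) (Fin 3) Ω) (h : (mac B).det ≠ 0) :
    ∀ l : Fin 3 → Ω, l ≠ 0 → eval l (jc B) = 0 → ∃ i, eval l (pderiv i (jc B)) ≠ 0 := by
  intro l hl _
  by_contra hcon
  push Not at hcon
  have h1 : mac B *ᵥ mu l = 0 := by
    funext f
    rw [mac_mulVec, ← pderiv_ks, hcon, mul_zero, Pi.zero_apply]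
  have h2 : mu l = 0 := by
    by_contra hne
    exact h (Matrix.exists_mulVec_eq_zero_iff.1 ⟨mu l, hne, h1⟩)
  apply hl
  funext j
  fin_cases j
  · have := congrFun h2 0
    simpa [mu, E, Fin.prod_univ_three] using this
  · have := congrFun h2 10
    simpa [mu, E, Fin.prod_univ_three] using this
  · have := congrFun h2 14
    simpa [mu, E, Fin.prod_univ_three] using this

end

/-- the witness, with cubic `l₀ l₁ l₂ + l₀³ + l₁³ + l₂³` -/
def Bz : Fin 3 → Matrix (Fin 3) (Fin 3) ℤ :=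
  ![!![1, 0, 0; 0, -1, 0; 0, 0, 1], !![0, 0, -1; 1, 0, 0; 0, 1, 0],
    !![0, 1, 0; 0, 0, 1; -1, 0, 0]]

set_option maxRecDepth 100000 in
theorem mac_dom : ∀ k : Fin 15, ∑ j ∈ Finset.univ.erase k, (mac Bz k j).natAbs <
    (mac Bz k k).natAbs := by
  decide

theorem det_mac_Bz : (mac Bz).det ≠ 0 := by
  have h : ((mac Bz).map (Int.castRingHom ℝ)).det ≠ 0 := by
    refine det_ne_zero_of_sum_row_lt_diag fun k => ?_
    have h1 := mac_dom k
    have h2 : ∀ i j, ‖(mac Bz).map (Int.castRingHom ℝ) i j‖ = ((mac Bz i j).natAbs : ℝ) := by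
      intro i j
      rw [Matrix.map_apply, eq_intCast, Real.norm_eq_abs, Nat.cast_natAbs, Int.cast_abs]
    simp only [h2]
    exact_mod_cast h1
  intro h0
  apply h
  have := RingHom.map_det (Int.castRingHom ℝ) (mac Bz)
  rw [h0, map_zero] at this
  exact this.symm

/-- smoothness is an open condition -/
theorem smooth_of_map {A Ω : Type*} [CommRing A] [Field Ω] (φ : A →+* Ω)
    (BA : Fin 3 → Matrix (Fin 3) (Fin 3) A) (h : φ (mac BA).det ≠ 0) :
    ∀ l : Fin 3 → Ω, l ≠ 0 → eval l (jc (mB φ BA)) = 0 →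
      ∃ i, eval l (pderiv i (jc (mB φ BA))) ≠ 0 := by
  refine smooth_of_mac _ ?_
  rw [← mac_map]
  have := RingHom.map_det φ (mac BA)
  intro h0
  apply h
  rw [this]
  exact h0

/-- the Macaulay determinant is not zero -/
theorem mac_ne {A κ : Type*} [CommRing A] [CommRing κ] [CharZero κ] (ψ : A →+* κ)
    (BA : Fin 3 → Matrix (Fin 3) (Fin 3) A) (h : mB ψ BA = mB (Int.castRingHom κ) Bz) :
    (mac BA).det ≠ 0 := by
  intro h0
  have h1 := RingHom.map_det ψ (mac BA)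
  have h2 := RingHom.map_det (Int.castRingHom κ) (mac Bz)
  rw [h0, map_zero] at h1
  have h3 : ψ.mapMatrix (mac BA) = (Int.castRingHom κ).mapMatrix (mac Bz) := by
    show (mac BA).map ψ = (mac Bz).map (Int.castRingHom κ)
    rw [mac_map, mac_map, h]
  rw [h3, ← h2] at h1
  have h4 : ((mac Bz).det : κ) = 0 := h1.symm
  exact det_mac_Bz (by exact_mod_cast h4)

/-- One polynomial in the entries of the `B_i` whose non vanishing makes the cubic smooth. -/
theorem smooth_generic : ∃ Φ : MvPolynomial (Fin 3 × Fin 3 × Fin 3) ℚ, Φ ≠ 0 ∧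
    ∀ (Ω : Type*) [Field Ω] [Algebra ℚ Ω] (B : Fin 3 → Matrix (Fin 3) (Fin 3) Ω),
      aeval (fun t : Fin 3 × Fin 3 × Fin 3 => B t.1 t.2.1 t.2.2) Φ ≠ 0 →
      ∀ l : Fin 3 → Ω, l ≠ 0 → eval l (jc B) = 0 → ∃ i, eval l (pderiv i (jc B)) ≠ 0 := by
  set BA : Fin 3 → Matrix (Fin 3) (Fin 3) (MvPolynomial (Fin 3 × Fin 3 × Fin 3) ℚ) :=
    fun i => Matrix.of fun r j => X (i, r, j) with hBA
  refine ⟨(mac BA).det, ?_, ?_⟩
  · refine mac_ne (aeval (fun t : Fin 3 × Fin 3 × Fin 3 => ((Bz t.1 t.2.1 t.2.2 : ℤ) : ℚ)) :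
      MvPolynomial (Fin 3 × Fin 3 × Fin 3) ℚ →ₐ[ℚ] ℚ).toRingHom BA ?_
    funext i
    ext r j
    simp [mB, hBA]
  · intro Ω _ _ B hΦ
    have h1 := smooth_of_map (aeval (fun t : Fin 3 × Fin 3 × Fin 3 => B t.1 t.2.1 t.2.2) :
      MvPolynomial (Fin 3 × Fin 3 × Fin 3) ℚ →ₐ[ℚ] Ω).toRingHom BA hΦ
    have h2 : mB (aeval (fun t : Fin 3 × Fin 3 × Fin 3 => B t.1 t.2.1 t.2.2) :
      MvPolynomial (Fin 3 × Fin 3 × Fin 3) ℚ →ₐ[ℚ] Ω).toRingHom BA = B := by
      funext i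
      ext r j
      simp [mB, hBA]
    rwa [h2] at h1

end SG

end Pool.Agent.Work.D9
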