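import Mathlib
import Pool.Agent.Work.MP_b62148_ag.D9.GenWit
import Pool.Agent.Work.MP_b62148_ag.D9.FibOpen
import Pool.Agent.Work.MP_b62148_ag.D9.SmoothGen

/-!
The hypotheses of the main theorem hold for general `(B, n)`.
-/

namespace Pool.Agent.Work.D9

open Matrix MvPolynomial

noncomputable section

/-- the generic matrices -/
def gB : Fin 3 → Matrix (Fin 3) (Fin 3) (MvPolynomial Par ℚ) := fun i => Matrix.of fun r j =>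
  X (Sum.inl (i, r, j))

/-- the generic quadratic form -/
def gN : Fin 3 → Fin 3 × Fin 3 → Fin 3 × Fin 3 → MvPolynomial Par ℚ := fun j s t =>
  X (Sum.inr (j, s, t))

theorem mB_gB {K : Type*} [Field K] [Algebra ℚ K] (B : Fin 3 → Matrix (Fin 3) (Fin 3) K)
    (n : Fin 3 → Fin 3 × Fin 3 → Fin 3 × Fin 3 → K) :
    mB (aeval (par B n) : MvPolynomial Par ℚ →ₐ[ℚ] K).toRingHom gB = B := by
  funext i
  ext r j
  show aeval (par B n) (X (Sum.inl (i, r, j)) : MvPolynomial Par ℚ) = _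
  rw [aeval_X]
  rfl

theorem mN_gN {K : Type*} [Field K] [Algebra ℚ K] (B : Fin 3 → Matrix (Fin 3) (Fin 3) K)
    (n : Fin 3 → Fin 3 × Fin 3 → Fin 3 × Fin 3 → K) :
    mN (aeval (par B n) : MvPolynomial Par ℚ →ₐ[ℚ] K).toRingHom gN = n := by
  funext j s t
  show aeval (par B n) (X (Sum.inr (j, s, t)) : MvPolynomial Par ℚ) = _
  rw [aeval_X]
  rfl

end

/-- existence of `l₀` and `l₁` for general `(B, n)` -/
theorem generic_T : ∃ Φ : MvPolynomial Par ℚ, Φ ≠ 0 ∧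
    ∀ (Ω : Type*) [Field Ω] [Algebra ℚ Ω] [IsAlgClosed Ω]
      (B : Fin 3 → Matrix (Fin 3) (Fin 3) Ω) (n : Fin 3 → Fin 3 × Fin 3 → Fin 3 × Fin 3 → Ω),
      aeval (par B n) Φ ≠ 0 →
      (∃ l₀ p₀ m₀ a₀ g₀ : Fin 3 → Ω, Cfg B n l₀ p₀ m₀ a₀ g₀ ∧ flexval n l₀ p₀ a₀ g₀ = 0 ∧
        endval n l₀ p₀ a₀ g₀ ≠ 0) ∧
      (∃ l₁ p₁ m₁ a₁ g₁ : Fin 3 → Ω, Cfg B n l₁ p₁ m₁ a₁ g₁ ∧ flexval n l₁ p₁ a₁ g₁ ≠ 0) := by
  let κ := AlgebraicClosure ℚ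
  let ψ : MvPolynomial Par ℚ →+* κ := (aeval (par (wB κ) (wN κ)) : MvPolynomial Par ℚ →ₐ[ℚ] κ).toRingHom
  have hB : mB ψ gB = wB κ := mB_gB (wB κ) (wN κ)
  have hN : mN ψ gN = wN κ := mN_gN (wB κ) (wN κ)
  have hd : ψ (dT gB) ≠ 0 := by
    have h : ψ (dT gB) = dT (mB ψ gB) := by
      rw [dT, dT, RingHom.map_det]
      rfl
    rw [h, hB, dT_wB]
    exact one_ne_zero
  obtain ⟨Φ, hΦ, H⟩ := T_abs ψ gB gN hd 0 1
    (by
      rw [hB, hN]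
      exact ⟨1, by rw [det_wB0]; ring, w0_B0 κ⟩)
    (by
      intro y hy
      rw [hB] at hy
      rw [hB, hN]
      rw [det_wB0] at hy
      have hy1 : y = 1 := sub_eq_zero.1 (pow_eq_zero_iff (by norm_num) |>.1 hy)
      rw [hy1, w0_lamC0]
      norm_num)
    (by
      intro y hy
      rw [hB] at hy
      rw [hB, hN]
      rw [det_wB1] at hy
      have hy1 : y = 0 := (pow_eq_zero_iff (by norm_num)).1 hy
      rw [hy1, w1_B0]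
      norm_num)
  refine ⟨Φ, hΦ, ?_⟩
  intro Ω _ _ _ B n hBn
  have h := H Ω (aeval (par B n) : MvPolynomial Par ℚ →ₐ[ℚ] Ω).toRingHom hBn
  rw [mB_gB, mN_gN] at h
  obtain ⟨⟨l, h1, h2, h3⟩, ⟨l', h1', h2', h3'⟩⟩ := h
  exact ⟨cfg_of_zero B n _ _ _ l h1 h2 h3, cfg_of_nonzero B n _ _ _ l' h1' h2' h3'⟩

/-- all hypotheses of the main theorem for general `(B, n)` -/
theorem generic_good : ∃ Φ : MvPolynomial Par ℚ, Φ ≠ 0 ∧
    ∀ (Ω : Type*) [Field Ω] [Algebra ℚ Ω] [IsAlgClosed Ω]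
      (B : Fin 3 → Matrix (Fin 3) (Fin 3) Ω) (n : Fin 3 → Fin 3 × Fin 3 → Fin 3 × Fin 3 → Ω),
      aeval (par B n) Φ ≠ 0 →
      (∀ l : Fin 3 → Ω, l ≠ 0 → eval l (jc B) = 0 → ∃ i, eval l (pderiv i (jc B)) ≠ 0) ∧
      SmoothFibre B n ![1, 0, 0] ∧
      (∃ l₀ p₀ m₀ a₀ g₀ : Fin 3 → Ω, Cfg B n l₀ p₀ m₀ a₀ g₀ ∧ flexval n l₀ p₀ a₀ g₀ = 0 ∧
        endval n l₀ p₀ a₀ g₀ ≠ 0) ∧
      (∃ l₁ p₁ m₁ a₁ g₁ : Fin 3 → Ω, Cfg B n l₁ p₁ m₁ a₁ g₁ ∧ flexval n l₁ p₁ a₁ g₁ ≠ 0) := by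
  obtain ⟨Φ₁, h₁, H₁⟩ := generic_T
  obtain ⟨Φ₂, h₂, H₂⟩ := SG.smooth_generic
  have h₂' : rename (Sum.inl : (Fin 3 × Fin 3 × Fin 3) → Par) Φ₂ ≠ 0 := by
    intro h
    exact h₂ ((rename_injective _ Sum.inl_injective) (by rw [h, map_zero]))
  refine ⟨Φ₁ * rename Sum.inl Φ₂ * fibPoly,
    mul_ne_zero (mul_ne_zero h₁ h₂') fibPoly_ne_zero, ?_⟩
  intro Ω _ _ _ B n hBn
  rw [map_mul, map_mul] at hBn
  have a1 := left_ne_zero_of_mul (left_ne_zero_of_mul hBn)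
  have a2 := right_ne_zero_of_mul (left_ne_zero_of_mul hBn)
  have a3 := right_ne_zero_of_mul hBn
  rw [aeval_rename] at a2
  exact ⟨H₂ Ω B a2, smoothFibre_of_fibPoly B n a3, H₁ Ω B n a1⟩

/-- the same for the base change of a member over a field -/
theorem generic_good_base : ∃ Φ : MvPolynomial Par ℚ, Φ ≠ 0 ∧
    ∀ (k Ω : Type*) [Field k] [Algebra ℚ k] [Field Ω] [Algebra k Ω] [Algebra ℚ Ω] [IsAlgClosed Ω]
      (B : Fin 3 → Matrix (Fin 3) (Fin 3) k) (n : Fin 3 → Fin 3 × Fin 3 → Fin 3 × Fin 3 → k),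
      aeval (par B n) Φ ≠ 0 →
      (∀ l : Fin 3 → Ω, l ≠ 0 → eval l (jc (mB (algebraMap k Ω) B)) = 0 →
        ∃ i, eval l (pderiv i (jc (mB (algebraMap k Ω) B))) ≠ 0) ∧
      SmoothFibre (mB (algebraMap k Ω) B) (mN (algebraMap k Ω) n) ![1, 0, 0] ∧
      (∃ l₀ p₀ m₀ a₀ g₀ : Fin 3 → Ω,
        Cfg (mB (algebraMap k Ω) B) (mN (algebraMap k Ω) n) l₀ p₀ m₀ a₀ g₀ ∧
        flexval (mN (algebraMap k Ω) n) l₀ p₀ a₀ g₀ = 0 ∧
        endval (mN (algebraMap k Ω) n) l₀ p₀ a₀ g₀ ≠ 0) ∧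
      (∃ l₁ p₁ m₁ a₁ g₁ : Fin 3 → Ω,
        Cfg (mB (algebraMap k Ω) B) (mN (algebraMap k Ω) n) l₁ p₁ m₁ a₁ g₁ ∧
        flexval (mN (algebraMap k Ω) n) l₁ p₁ a₁ g₁ ≠ 0) := by
  obtain ⟨Φ, h, H⟩ := generic_good
  refine ⟨Φ, h, ?_⟩
  intro k Ω _ _ _ _ _ _ B n hBn
  refine H Ω _ _ ?_
  have hpar : par (mB (algebraMap k Ω) B) (mN (algebraMap k Ω) n) = algebraMap k Ω ∘ par B n := by
    funext t
    rcases t with t | t <;> rfl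
  have h1 : aeval (par (mB (algebraMap k Ω) B) (mN (algebraMap k Ω) n)) Φ =
      algebraMap k Ω (aeval (par B n) Φ) := by
    rw [hpar, aeval_def, aeval_def, ← MvPolynomial.coe_eval₂Hom, ← MvPolynomial.coe_eval₂Hom]
    rw [← RingHom.comp_apply]
    congr 1
    apply MvPolynomial.ringHom_ext
    · intro r
      simp
    · intro i
      simp
  rw [h1]
  exact (map_ne_zero (algebraMap k Ω)).2 hBn

end Pool.Agent.Work.D9
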