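import Mathlib
import Pool.Agent.Work.MP_b62148_ag.D9.Pipe

/-!
The functions of `Pipe` are polynomial functions of `l`; continuity of polynomial functions for a
valuation.
-/

namespace Pool.Agent.Work.D9

open MvPolynomial Matrix

section

variable {K : Type*} [Field K] {σ : Type*}

/-- polynomial functions -/
def PF (f : (σ → K) → K) : Prop := ∃ P : MvPolynomial σ K, ∀ l, f l = eval l P

theorem PF.const (c : K) : PF (fun _ : σ → K => c) := ⟨C c, fun l => by simp⟩

theorem PF.coord (i : σ) : PF (fun l : σ → K => l i) := ⟨X i, fun l => by simp⟩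

theorem PF.add {f g : (σ → K) → K} (hf : PF f) (hg : PF g) : PF (fun l => f l + g l) := by
  obtain ⟨P, hP⟩ := hf
  obtain ⟨Q, hQ⟩ := hg
  exact ⟨P + Q, fun l => by simp only [map_add, hP, hQ]⟩

theorem PF.mul {f g : (σ → K) → K} (hf : PF f) (hg : PF g) : PF (fun l => f l * g l) := by
  obtain ⟨P, hP⟩ := hf
  obtain ⟨Q, hQ⟩ := hg
  exact ⟨P * Q, fun l => by simp only [map_mul, hP, hQ]⟩

theorem PF.neg {f : (σ → K) → K} (hf : PF f) : PF (fun l => -f l) := by
  obtain ⟨P, hP⟩ := hf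
  exact ⟨-P, fun l => by simp only [map_neg, hP]⟩

theorem PF.sub {f g : (σ → K) → K} (hf : PF f) (hg : PF g) : PF (fun l => f l - g l) := by
  obtain ⟨P, hP⟩ := hf
  obtain ⟨Q, hQ⟩ := hg
  exact ⟨P - Q, fun l => by simp only [map_sub, hP, hQ]⟩

theorem PF.pow {f : (σ → K) → K} (hf : PF f) (m : ℕ) : PF (fun l => f l ^ m) := by
  obtain ⟨P, hP⟩ := hf
  exact ⟨P ^ m, fun l => by simp only [map_pow, hP]⟩

theorem PF.sum {ι : Type*} (s : Finset ι) {f : ι → (σ → K) → K} (hf : ∀ i, PF (f i)) :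
    PF (fun l => ∑ i ∈ s, f i l) := by
  choose P hP using hf
  exact ⟨∑ i ∈ s, P i, fun l => by
    rw [map_sum]; exact Finset.sum_congr rfl fun i _ => hP i l⟩

variable {Γ₀ : Type*} [LinearOrderedCommGroupWithZero Γ₀] (v : Valuation K Γ₀)

/-- polynomial functions are continuous -/
theorem PF.cont [Finite σ] {f : (σ → K) → K} (hf : PF f) (l₀ : σ → K) (ε : K) (hε : ε ≠ 0) :
    ∃ δ : K, δ ≠ 0 ∧ ∀ l, (∀ i, v (l i - l₀ i) ≤ v δ) → v (f l - f l₀) ≤ v ε := by
  obtain ⟨P, hP⟩ := hf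
  simp only [hP]
  clear hP f
  induction P using MvPolynomial.induction_on generalizing ε with
  | C a => exact ⟨1, one_ne_zero, fun l _ => by simp⟩
  | add p q hp hq =>
    obtain ⟨δ₁, h₁, h₁'⟩ := hp ε hε
    obtain ⟨δ₂, h₂, h₂'⟩ := hq ε hε
    rcases le_total (v δ₁) (v δ₂) with h | h
    · refine ⟨δ₁, h₁, fun l hl => ?_⟩
      have : eval l (p + q) - eval l₀ (p + q) =
        (eval l p - eval l₀ p) + (eval l q - eval l₀ q) := by rw [map_add, map_add]; ring
      rw [this]
      exact le_trans (v.map_add _ _) (max_le (h₁' l hl) (h₂' l fun i => (hl i).trans h))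
    · refine ⟨δ₂, h₂, fun l hl => ?_⟩
      have : eval l (p + q) - eval l₀ (p + q) =
        (eval l p - eval l₀ p) + (eval l q - eval l₀ q) := by rw [map_add, map_add]; ring
      rw [this]
      exact le_trans (v.map_add _ _) (max_le (h₁' l fun i => (hl i).trans h) (h₂' l hl))
  | mul_X p i hp =>
    -- p(l) l_i - p(l0) l0_i = (p(l)-p(l0)) (l_i - l0_i) + (p(l) - p(l0)) l0_i + p(l0) (l_i - l0_i)
    obtain ⟨a, ha, ha'⟩ : ∃ a : K, a ≠ 0 ∧ 1 ≤ v a ∧ v (l₀ i) ≤ v a ∧ v (eval l₀ p) ≤ v a := by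
      have h1 : ∀ x y : K, ∃ z : K, z ≠ 0 ∧ v x ≤ v z ∧ v y ≤ v z ∧ 1 ≤ v z := by
        intro x y
        rcases le_total (v x) (v y) with h | h
        · rcases le_total 1 (v y) with h' | h'
          · refine ⟨y, ?_, h, le_refl _, h'⟩
            rintro rfl
            rw [map_zero] at h'
            exact absurd h' (not_le.mpr zero_lt_one)
          · exact ⟨1, one_ne_zero, by rw [map_one]; exact h.trans h', by rw [map_one]; exact h',
              by rw [map_one]⟩
        · rcases le_total 1 (v x) with h' | h'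
          · refine ⟨x, ?_, le_refl _, h, h'⟩
            rintro rfl
            rw [map_zero] at h'
            exact absurd h' (not_le.mpr zero_lt_one)
          · exact ⟨1, one_ne_zero, by rw [map_one]; exact h', by rw [map_one]; exact h.trans h',
              by rw [map_one]⟩
      obtain ⟨z, hz, h2, h3, h4⟩ := h1 (l₀ i) (eval l₀ p)
      exact ⟨z, hz, h4, h2, h3⟩
    obtain ⟨ha1, ha2, ha3⟩ := ha'
    have hva : v a ≠ 0 := (Valuation.ne_zero_iff v).mpr ha
    have hva0 : 0 < v a := zero_lt_iff.mpr hva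
    obtain ⟨δ₁, h₁, h₁'⟩ := hp (ε / a) (div_ne_zero hε ha)
    -- choose δ with v δ ≤ v δ₁, v δ ≤ v (ε / a), v δ ≤ 1
    obtain ⟨δ, hδ, hd1, hd2, hd3⟩ : ∃ δ : K, δ ≠ 0 ∧ v δ ≤ v δ₁ ∧ v δ ≤ v (ε / a) ∧ v δ ≤ 1 := by
      have hea : ε / a ≠ 0 := div_ne_zero hε ha
      rcases le_total (v δ₁) (v (ε / a)) with h | h
      · rcases le_total (v δ₁) 1 with h' | h'
        · exact ⟨δ₁, h₁, le_refl _, h, h'⟩
        · exact ⟨1, one_ne_zero, by rw [map_one]; exact h', by rw [map_one]; exact h'.trans h,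
            by rw [map_one]⟩
      · rcases le_total (v (ε / a)) 1 with h' | h'
        · exact ⟨ε / a, hea, h, le_refl _, h'⟩
        · exact ⟨1, one_ne_zero, by rw [map_one]; exact h'.trans h, by rw [map_one]; exact h',
            by rw [map_one]⟩
    refine ⟨δ, hδ, fun l hl => ?_⟩
    have e1 := h₁' l fun j => (hl j).trans hd1
    have e2 := hl i
    have : eval l (p * X i) - eval l₀ (p * X i) =
        (eval l p - eval l₀ p) * (l i - l₀ i) + ((eval l p - eval l₀ p) * l₀ i +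
          eval l₀ p * (l i - l₀ i)) := by
      rw [map_mul, map_mul, eval_X, eval_X]; ring
    rw [this]
    have hva' : v (ε / a) * v a = v ε := by rw [← map_mul, div_mul_cancel₀ _ ha]
    have hle : v (ε / a) ≤ v ε := by
      calc v (ε / a) = v (ε / a) * 1 := (mul_one _).symm
        _ ≤ v (ε / a) * v a := by gcongr
        _ = v ε := hva'
    refine le_trans (v.map_add _ _) (max_le ?_ (le_trans (v.map_add _ _) (max_le ?_ ?_)))
    · rw [map_mul]
      calc v (eval l p - eval l₀ p) * v (l i - l₀ i) ≤ v (ε / a) * 1 := by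
            gcongr
            exact e2.trans hd3
        _ = v (ε / a) := mul_one _
        _ ≤ v ε := hle
    · rw [map_mul]
      calc v (eval l p - eval l₀ p) * v (l₀ i) ≤ v (ε / a) * v a := by gcongr
        _ = v ε := hva'
    · rw [map_mul]
      calc v (eval l₀ p) * v (l i - l₀ i) ≤ v a * v (ε / a) := by
            gcongr
            exact e2.trans hd2
        _ = v ε := by rw [mul_comm]; exact hva'

end

section pipe

variable {K : Type*} [Field K] (B : Fin 3 → Matrix (Fin 3) (Fin 3) K)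
  (n : Fin 3 → Fin 3 × Fin 3 → Fin 3 × Fin 3 → K) (xi et ze om : Fin 3 → K)

theorem PF.rows (i j : Fin 3) : PF (fun l => rows B l i j) := by
  unfold D9.rows
  simp only [Matrix.of_apply]
  exact PF.sum _ fun r => (PF.coord r).mul (PF.const _)

theorem PF.adj {M : (Fin 3 → K) → Matrix (Fin 3) (Fin 3) K} (hM : ∀ i j, PF (fun l => M l i j))
    (i j : Fin 3) : PF (fun l => adjugate (M l) i j) := by
  fin_cases i <;> fin_cases j <;> simp only [adjugate_fin_three] <;>
  · simp
    first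
    | exact ((hM _ _).mul (hM _ _)).sub ((hM _ _).mul (hM _ _))
    | exact (((hM _ _).mul (hM _ _)).neg).add ((hM _ _).mul (hM _ _))

theorem PF.mulVec {M : (Fin 3 → K) → Matrix (Fin 3) (Fin 3) K} {x : (Fin 3 → K) → Fin 3 → K}
    (hM : ∀ i j, PF (fun l => M l i j)) (hx : ∀ i, PF (fun l => x l i)) (i : Fin 3) :
    PF (fun l => (M l *ᵥ x l) i) := by
  simp only [Matrix.mulVec, dotProduct]
  exact PF.sum _ fun j => (hM i j).mul (hx j)

theorem PF.vecMul {M : (Fin 3 → K) → Matrix (Fin 3) (Fin 3) K} {x : (Fin 3 → K) → Fin 3 → K}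
    (hM : ∀ i j, PF (fun l => M l i j)) (hx : ∀ i, PF (fun l => x l i)) (i : Fin 3) :
    PF (fun l => (x l ᵥ* M l) i) := by
  simp only [Matrix.vecMul, dotProduct]
  exact PF.sum _ fun j => (hx j).mul (hM j i)

theorem PF.dot {x y : (Fin 3 → K) → Fin 3 → K} (hx : ∀ i, PF (fun l => x l i))
    (hy : ∀ i, PF (fun l => y l i)) : PF (fun l => x l ⬝ᵥ y l) := by
  simp only [dotProduct]
  exact PF.sum _ fun j => (hx j).mul (hy j)

theorem PF.cross {x y : (Fin 3 → K) → Fin 3 → K} (hx : ∀ i, PF (fun l => x l i))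
    (hy : ∀ i, PF (fun l => y l i)) (i : Fin 3) : PF (fun l => (x l ⨯₃ y l) i) := by
  simp only [cross_apply]
  fin_cases i <;> simp <;> exact ((hx _).mul (hy _)).sub ((hx _).mul (hy _))

theorem PF.pp (i : Fin 3) : PF (fun l => pp B xi l i) :=
  PF.mulVec (x := fun _ => xi) (PF.adj (PF.rows B)) (fun j => PF.const (xi j)) i

theorem PF.mm (i : Fin 3) : PF (fun l => mm B et l i) :=
  PF.vecMul (x := fun _ => et) (PF.adj (PF.rows B)) (fun j => PF.const (et j)) i

theorem PF.Bm (i j : Fin 3) : PF (fun l => Bm B et l i j) := by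
  simp only [D9.Bm, Matrix.sum_apply, Matrix.smul_apply, smul_eq_mul]
  exact PF.sum _ fun r => (PF.mm B et r).mul (PF.const _)

theorem PF.aa (i : Fin 3) : PF (fun l => aa B et ze l i) :=
  PF.mulVec (x := fun _ => ze) (PF.adj (PF.Bm B et)) (fun j => PF.const (ze j)) i

theorem PF.kap : PF (fun l => kap B xi et l) :=
  PF.dot (x := fun _ => et) (fun j => PF.const (et j)) (PF.pp B xi)

theorem PF.zel : PF (fun l => ze ⬝ᵥ l) :=
  PF.dot (x := fun _ => ze) (fun j => PF.const (ze j)) PF.coord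

theorem PF.lam : PF (fun l => lam B xi et ze l) := (PF.zel ze).mul (PF.kap B xi et)

theorem PF.vecMulVec {x y : (Fin 3 → K) → Fin 3 → K} (hx : ∀ i, PF (fun l => x l i))
    (hy : ∀ i, PF (fun l => y l i)) (i j : Fin 3) :
    PF (fun l => Matrix.vecMulVec (x l) (y l) i j) := by
  simp only [Matrix.vecMulVec_apply]
  exact (hx i).mul (hy j)

theorem PF.vv (i j : Fin 3) : PF (fun l => vv B xi l i j) :=
  PF.vecMulVec (PF.pp B xi) PF.coord i j

theorem PF.om1 (i : Fin 3) : PF (fun l => om1 B n xi l i) := by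
  simp only [D9.om1, Nrow]
  exact PF.sum _ fun s => PF.sum _ fun t =>
    ((PF.const _).mul (PF.vv B xi _ _)).mul (PF.vv B xi _ _)

theorem PF.xx {w : (Fin 3 → K) → Fin 3 → K} (hw : ∀ i, PF (fun l => w l i)) (i : Fin 3) :
    PF (fun l => xx l (w l) i) := PF.cross hw PF.coord i

theorem PF.Rp (i j : Fin 3) : PF (fun l => Rp B xi et ze l i j) := by
  simp only [D9.Rp, Matrix.add_apply, Matrix.smul_apply, smul_eq_mul]
  exact (PF.rows B i j).add ((PF.zel ze).mul (PF.const _))

theorem PF.gg {w : (Fin 3 → K) → Fin 3 → K} (hw : ∀ i, PF (fun l => w l i)) (i : Fin 3) :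
    PF (fun l => gg B xi et ze l (w l) i) := by
  simp only [D9.gg, Pi.neg_apply]
  refine (PF.mulVec (PF.adj (PF.Rp B xi et ze)) (fun j => ?_) i).neg
  exact PF.sum _ fun r => PF.sum _ fun c => ((hw r).mul (PF.const _)).mul (PF.aa B et ze c)

theorem PF.yy {w : (Fin 3 → K) → Fin 3 → K} (hw : ∀ i, PF (fun l => w l i)) (i j : Fin 3) :
    PF (fun l => yy B xi et ze l (w l) i j) := by
  simp only [D9.yy, Matrix.add_apply, Matrix.smul_apply, smul_eq_mul]
  exact ((PF.lam B xi et ze).mul (PF.vecMulVec (PF.aa B et ze) hw i j)).add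
    (PF.vecMulVec (PF.gg B xi et ze hw) PF.coord i j)

theorem PF.qf {x : (Fin 3 → K) → Fin 3 → K} {A A' : (Fin 3 → K) → Matrix (Fin 3) (Fin 3) K}
    (hx : ∀ i, PF (fun l => x l i)) (hA : ∀ i j, PF (fun l => A l i j))
    (hA' : ∀ i j, PF (fun l => A' l i j)) : PF (fun l => qf n (x l) (A l) (A' l)) := by
  simp only [D9.qf]
  exact PF.sum _ fun j => (hx j).mul (PF.sum _ fun s => PF.sum _ fun t =>
    ((PF.const _).mul (hA _ _)).mul (hA' _ _))

theorem PF.sf {x : (Fin 3 → K) → Fin 3 → K} {A A' : (Fin 3 → K) → Matrix (Fin 3) (Fin 3) K}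
    (hx : ∀ i, PF (fun l => x l i)) (hA : ∀ i j, PF (fun l => A l i j))
    (hA' : ∀ i j, PF (fun l => A' l i j)) : PF (fun l => sf n (x l) (A l) (A' l)) :=
  (PF.qf n hx hA hA').add (PF.qf n hx hA' hA)

theorem PF.xo (i : Fin 3) : PF (fun l => D9.xx l om i) :=
  PF.xx (w := fun _ => om) (fun j => PF.const (om j)) i

theorem PF.x1 (i : Fin 3) : PF (fun l => D9.xx l (D9.om1 B n xi l) i) :=
  PF.xx (w := fun l => D9.om1 B n xi l) (PF.om1 B n xi) i

theorem PF.yo (i j : Fin 3) : PF (fun l => D9.yy B xi et ze l om i j) :=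
  PF.yy B xi et ze (w := fun _ => om) (fun j => PF.const (om j)) i j

theorem PF.y1 (i j : Fin 3) : PF (fun l => D9.yy B xi et ze l (D9.om1 B n xi l) i j) :=
  PF.yy B xi et ze (w := fun l => D9.om1 B n xi l) (PF.om1 B n xi) i j

theorem PF.A2 : PF (fun l => A2 B n xi om l) := by
  unfold D9.A2
  exact PF.qf n (PF.xo om) (PF.vv B xi) (PF.vv B xi)

theorem PF.B0 : PF (fun l => B0 B n xi et ze l) := by
  unfold D9.B0
  exact PF.sf n (PF.x1 B n xi) (PF.vv B xi) (PF.y1 B n xi et ze)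

theorem PF.B1 : PF (fun l => B1 B n xi et ze om l) := by
  unfold D9.B1
  exact (PF.sf n (PF.x1 B n xi) (PF.vv B xi) (PF.yo B xi et ze om)).add
    (PF.sf n (PF.xo om) (PF.vv B xi) (PF.y1 B n xi et ze))

theorem PF.B2 : PF (fun l => B2 B n xi et ze om l) := by
  unfold D9.B2
  exact PF.sf n (PF.xo om) (PF.vv B xi) (PF.yo B xi et ze om)

theorem PF.C0 : PF (fun l => C0 B n xi et ze l) := by
  unfold D9.C0
  exact PF.qf n (PF.x1 B n xi) (PF.y1 B n xi et ze) (PF.y1 B n xi et ze)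

theorem PF.C1 : PF (fun l => C1 B n xi et ze om l) := by
  unfold D9.C1
  exact (PF.qf n (PF.xo om) (PF.y1 B n xi et ze) (PF.y1 B n xi et ze)).add
    (PF.sf n (PF.x1 B n xi) (PF.y1 B n xi et ze) (PF.yo B xi et ze om))

theorem PF.C2 : PF (fun l => C2 B n xi et ze om l) := by
  unfold D9.C2
  exact (PF.qf n (PF.x1 B n xi) (PF.yo B xi et ze om) (PF.yo B xi et ze om)).add
    (PF.sf n (PF.xo om) (PF.y1 B n xi et ze) (PF.yo B xi et ze om))

theorem PF.C3 : PF (fun l => C3 B n xi et ze om l) := by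
  unfold D9.C3
  exact PF.qf n (PF.xo om) (PF.yo B xi et ze om) (PF.yo B xi et ze om)

end pipe

end Pool.Agent.Work.D9
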