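import Mathlib
import Pool.Agent.Work.MP_b62148_ag.D9.Poly

/-!
Estimates near a flex.
-/

namespace Pool.Agent.Work.D9

open MvPolynomial Matrix

section

variable {K : Type*} [CommRing K] (B : Fin 3 → Matrix (Fin 3) (Fin 3) K)
  (n : Fin 3 → Fin 3 × Fin 3 → Fin 3 × Fin 3 → K) (xi et ze om : Fin 3 → K)

/-- coefficients of `quart` -/
def qd (l : Fin 3 → K) : K :=
  2 * B0 B n xi et ze l * B1 B n xi et ze om l - 4 * A2 B n xi om l * C0 B n xi et ze l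

def qc (l : Fin 3 → K) : K :=
  B1 B n xi et ze om l ^ 2 + 2 * B0 B n xi et ze l * B2 B n xi et ze om l -
    4 * A2 B n xi om l * C1 B n xi et ze om l

def qb (l : Fin 3 → K) : K :=
  2 * B1 B n xi et ze om l * B2 B n xi et ze om l - 4 * A2 B n xi om l * C2 B n xi et ze om l

def qa (l : Fin 3 → K) : K :=
  B2 B n xi et ze om l ^ 2 - 4 * A2 B n xi om l * C3 B n xi et ze om l

theorem quart_eq (l : Fin 3 → K) (s : K) : quart B n xi et ze om l s =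
    B0 B n xi et ze l ^ 2 + qd B n xi et ze om l * s + qc B n xi et ze om l * s ^ 2 +
      qb B n xi et ze om l * s ^ 3 + qa B n xi et ze om l * s ^ 4 := rfl

end

section

variable {K : Type*} [Field K] (B : Fin 3 → Matrix (Fin 3) (Fin 3) K)
  (n : Fin 3 → Fin 3 × Fin 3 → Fin 3 × Fin 3 → K) (xi et ze om : Fin 3 → K)

theorem PF.qd : PF (fun l => qd B n xi et ze om l) := by
  unfold D9.qd
  exact (((PF.const 2).mul (PF.B0 B n xi et ze)).mul (PF.B1 B n xi et ze om)).sub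
    (((PF.const 4).mul (PF.A2 B n xi om)).mul (PF.C0 B n xi et ze))

theorem PF.qc : PF (fun l => qc B n xi et ze om l) := by
  unfold D9.qc
  exact (((PF.B1 B n xi et ze om).pow 2).add
    (((PF.const 2).mul (PF.B0 B n xi et ze)).mul (PF.B2 B n xi et ze om))).sub
    (((PF.const 4).mul (PF.A2 B n xi om)).mul (PF.C1 B n xi et ze om))

theorem PF.qb : PF (fun l => qb B n xi et ze om l) := by
  unfold D9.qb
  exact (((PF.const 2).mul (PF.B1 B n xi et ze om)).mul (PF.B2 B n xi et ze om)).sub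
    (((PF.const 4).mul (PF.A2 B n xi om)).mul (PF.C2 B n xi et ze om))

theorem PF.qa : PF (fun l => qa B n xi et ze om l) := by
  unfold D9.qa
  exact ((PF.B2 B n xi et ze om).pow 2).sub
    (((PF.const 4).mul (PF.A2 B n xi om)).mul (PF.C3 B n xi et ze om))

variable {Γ₀ : Type*} [LinearOrderedCommGroupWithZero Γ₀] (v : Valuation K Γ₀)

theorem min_val {x y : K} (hx : x ≠ 0) (hy : y ≠ 0) : ∃ z : K, z ≠ 0 ∧ v z ≤ v x ∧ v z ≤ v y := by
  rcases le_total (v x) (v y) with h | h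
  · exact ⟨x, hx, le_refl _, h⟩
  · exact ⟨y, hy, h, le_refl _⟩

theorem max_val {x y : K} (hx : x ≠ 0) : ∃ z : K, z ≠ 0 ∧ v x ≤ v z ∧ v y ≤ v z := by
  rcases le_total (v x) (v y) with h | h
  · refine ⟨y, ?_, h, le_refl _⟩
    rintro rfl
    rw [map_zero] at h
    exact hx ((Valuation.zero_iff v).mp (le_antisymm h zero_le))
  · exact ⟨x, hx, le_refl _, h⟩

/-- non vanishing is an open condition -/
theorem PF.open_ne (h2 : v 2 < 1) {f : (Fin 3 → K) → K} (hf : PF f) (l₀ : Fin 3 → K)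
    (h : f l₀ ≠ 0) (h20 : (2 : K) ≠ 0) :
    ∃ δ : K, δ ≠ 0 ∧ ∀ l, (∀ i, v (l i - l₀ i) ≤ v δ) → v (f l) = v (f l₀) := by
  obtain ⟨δ, hδ, hδ'⟩ := hf.cont v l₀ (2 * f l₀) (mul_ne_zero h20 h)
  refine ⟨δ, hδ, fun l hl => ?_⟩
  have h1 := hδ' l hl
  have hpos : 0 < v (f l₀) := zero_lt_iff.mpr ((Valuation.ne_zero_iff v).mpr h)
  have h3 : v (f l - f l₀) < v (f l₀) := by
    refine lt_of_le_of_lt h1 ?_
    rw [map_mul]
    calc v 2 * v (f l₀) < 1 * v (f l₀) := mul_lt_mul_of_pos_right h2 hpos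
      _ = v (f l₀) := one_mul _
  have h4 : f l = f l₀ + (f l - f l₀) := by ring
  rw [h4]
  exact Valuation.map_add_eq_of_lt_left v h3

theorem PF.bound {f : (Fin 3 → K) → K} (hf : PF f) (l₀ : Fin 3 → K) (C : K)
    (h1 : 1 ≤ v C) (h : v (f l₀) ≤ v C) :
    ∃ δ : K, δ ≠ 0 ∧ ∀ l, (∀ i, v (l i - l₀ i) ≤ v δ) → v (f l) ≤ v C := by
  obtain ⟨δ, hδ, hδ'⟩ := hf.cont v l₀ 1 one_ne_zero
  refine ⟨δ, hδ, fun l hl => ?_⟩
  have h2 := hδ' l hl
  rw [map_one] at h2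
  have h4 : f l = f l₀ + (f l - f l₀) := by ring
  rw [h4]
  exact le_trans (v.map_add _ _) (max_le h (h2.trans h1))

theorem near_good [CharZero K] (h2 : v 2 < 1) (l₀ : Fin 3 → K)
    (hB0 : B0 B n xi et ze l₀ = 0) (hC0 : C0 B n xi et ze l₀ ≠ 0)
    (hA : A2 B n xi om l₀ ≠ 0) (hlam : lam B xi et ze l₀ ≠ 0) (haa : aa B et ze l₀ ≠ 0) :
    ∃ ε : K, ε ≠ 0 ∧ ∀ l : Fin 3 → K, (∀ i, v (l i - l₀ i) ≤ v ε) →
      lam B xi et ze l ≠ 0 ∧ aa B et ze l ≠ 0 ∧ A2 B n xi om l ≠ 0 ∧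
      ∃ C : K, 1 ≤ v C ∧ v (B0 B n xi et ze l) ≤ v C ∧ v (qd B n xi et ze om l) ≤ v C ∧
        v (qc B n xi et ze om l) ≤ v C ∧ v (qb B n xi et ze om l) ≤ v C ∧
        v (qa B n xi et ze om l) ≤ v C ∧
        v (B0 B n xi et ze l) * v C < v (qd B n xi et ze om l) := by
  have h20 : (2 : K) ≠ 0 := two_ne_zero
  have hd0 : qd B n xi et ze om l₀ ≠ 0 := by
    unfold qd
    rw [hB0]
    simp only [mul_zero, zero_mul, zero_sub, neg_ne_zero]
    exact mul_ne_zero (mul_ne_zero (by norm_num) hA) hC0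
  obtain ⟨j, hj⟩ : ∃ j, aa B et ze l₀ j ≠ 0 := by
    by_contra hcon
    push Not at hcon
    exact haa (funext hcon)
  obtain ⟨C1, hC1, ha1, hb1⟩ := max_val v (x := 1) (y := qd B n xi et ze om l₀) one_ne_zero
  obtain ⟨C2, hC2, ha2, hb2⟩ := max_val v (x := C1) (y := qc B n xi et ze om l₀) hC1
  obtain ⟨C3, hC3, ha3, hb3⟩ := max_val v (x := C2) (y := qb B n xi et ze om l₀) hC2
  obtain ⟨C, hC, ha4, hb4⟩ := max_val v (x := C3) (y := qa B n xi et ze om l₀) hC3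
  have hone : 1 ≤ v C := by
    rw [← map_one v]; exact ha1.trans (ha2.trans (ha3.trans ha4))
  have hdC : v (qd B n xi et ze om l₀) ≤ v C := hb1.trans (ha2.trans (ha3.trans ha4))
  have hcC : v (qc B n xi et ze om l₀) ≤ v C := hb2.trans (ha3.trans ha4)
  have hbC : v (qb B n xi et ze om l₀) ≤ v C := hb3.trans ha4
  have haC : v (qa B n xi et ze om l₀) ≤ v C := hb4
  have hvC : 0 < v C := lt_of_lt_of_le zero_lt_one hone
  have hvd : 0 < v (qd B n xi et ze om l₀) :=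
    zero_lt_iff.mpr ((Valuation.ne_zero_iff v).mpr hd0)
  -- closeness data
  obtain ⟨d1, hd1, k1⟩ := (PF.lam B xi et ze).open_ne v h2 l₀ hlam h20
  obtain ⟨d2, hd2, k2⟩ := (PF.aa B et ze j).open_ne v h2 l₀ hj h20
  obtain ⟨d3, hd3, k3⟩ := (PF.A2 B n xi om).open_ne v h2 l₀ hA h20
  obtain ⟨d4, hd4, k4⟩ := (PF.qd B n xi et ze om).open_ne v h2 l₀ hd0 h20
  obtain ⟨d5, hd5, k5⟩ := (PF.qc B n xi et ze om).bound v l₀ C hone hcC
  obtain ⟨d6, hd6, k6⟩ := (PF.qb B n xi et ze om).bound v l₀ C hone hbC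
  obtain ⟨d7, hd7, k7⟩ := (PF.qa B n xi et ze om).bound v l₀ C hone haC
  obtain ⟨d8, hd8, k8⟩ := (PF.B0 B n xi et ze).cont v l₀ (2 * qd B n xi et ze om l₀ / C)
    (div_ne_zero (mul_ne_zero h20 hd0) hC)
  obtain ⟨e1, he1, p1, p1'⟩ := min_val v hd1 hd2
  obtain ⟨e2, he2, p2, p2'⟩ := min_val v he1 hd3
  obtain ⟨e3, he3, p3, p3'⟩ := min_val v he2 hd4
  obtain ⟨e4, he4, p4, p4'⟩ := min_val v he3 hd5
  obtain ⟨e5, he5, p5, p5'⟩ := min_val v he4 hd6
  obtain ⟨e6, he6, p6, p6'⟩ := min_val v he5 hd7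
  obtain ⟨e7, he7, p7, p7'⟩ := min_val v he6 hd8
  refine ⟨e7, he7, fun l hl => ?_⟩
  have q6 : ∀ i, v (l i - l₀ i) ≤ v e6 := fun i => (hl i).trans p7
  have q5 : ∀ i, v (l i - l₀ i) ≤ v e5 := fun i => (q6 i).trans p6
  have q4 : ∀ i, v (l i - l₀ i) ≤ v e4 := fun i => (q5 i).trans p5
  have q3 : ∀ i, v (l i - l₀ i) ≤ v e3 := fun i => (q4 i).trans p4
  have q2 : ∀ i, v (l i - l₀ i) ≤ v e2 := fun i => (q3 i).trans p3
  have q1 : ∀ i, v (l i - l₀ i) ≤ v e1 := fun i => (q2 i).trans p2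
  have r1 := k1 l fun i => (q1 i).trans p1
  have r2 := k2 l fun i => (q1 i).trans p1'
  have r3 := k3 l fun i => (q2 i).trans p2'
  have r4 := k4 l fun i => (q3 i).trans p3'
  have r5 := k5 l fun i => (q4 i).trans p4'
  have r6 := k6 l fun i => (q5 i).trans p5'
  have r7 := k7 l fun i => (q6 i).trans p6'
  have r8 := k8 l fun i => (hl i).trans p7'
  rw [hB0, sub_zero, map_div₀, map_mul] at r8
  have hne : ∀ {x y : K}, v x = v y → y ≠ 0 → x ≠ 0 := by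
    intro x y hxy hy hx
    rw [hx, map_zero] at hxy
    exact hy ((Valuation.zero_iff v).mp hxy.symm)
  have hq1 : v (B0 B n xi et ze l) ≤ 1 := by
    refine r8.trans ?_
    rw [div_le_iff₀ hvC, one_mul]
    calc v 2 * v (qd B n xi et ze om l₀) ≤ 1 * v C := by gcongr
      _ = v C := one_mul _
  refine ⟨hne r1 hlam, ?_, hne r3 hA, C, hone, hq1.trans hone, by rw [r4]; exact hdC, r5, r6, r7,
    ?_⟩
  · intro h0
    exact hne r2 hj (congrFun h0 j)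
  · rw [r4]
    calc v (B0 B n xi et ze l) * v C ≤ v 2 * v (qd B n xi et ze om l₀) / v C * v C := by gcongr
      _ = v 2 * v (qd B n xi et ze om l₀) := div_mul_cancel₀ _ hvC.ne'
      _ < 1 * v (qd B n xi et ze om l₀) := mul_lt_mul_of_pos_right h2 hvd
      _ = _ := one_mul _

end

end Pool.Agent.Work.D9
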