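import Mathlib
import Pool.Agent.Work.MP_b62148_ag.Core

/-!
A genus one curve `w^2 = q^2 + d s + c s^2 + b s^3 + a s^4` over a field with a valuation of residue
characteristic two: if `q` is small compared with `d` there are infinitely many points.
-/

namespace Pool.Agent.Work.D9

variable {F : Type*} [Field F] {Γ₀ : Type*} [LinearOrderedCommGroupWithZero Γ₀]

theorem step_two (v : Valuation F Γ₀) (h2 : v 2 < 1) (hc2 : (2 : F) ≠ 0)
    {A B x y : F} (h : y ^ 2 = x ^ 3 + A * x + B)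
    (hA : v A < v x ^ 2) (hB : v B < v x ^ 3) :
    ∃ x' y' : F, y' ^ 2 = x' ^ 3 + A * x' + B ∧ v x < v x' := by
  have hM0 : 0 < v x := by
    rcases eq_or_ne (v x) 0 with h0 | h0
    · rw [h0] at hA
      simp at hA
    · exact zero_lt_iff.mpr h0
  have hM3 : v (x ^ 3) = v x ^ 3 := map_pow v x 3
  have hAx : v (A * x) < v x ^ 3 := by
    rw [map_mul, pow_succ]
    exact mul_lt_mul_of_pos_right hA hM0
  have hy2 : v (y ^ 2) = v x ^ 3 := by
    rw [h, add_assoc, ← hM3]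
    apply Valuation.map_add_eq_of_lt_left
    rw [hM3]
    exact lt_of_le_of_lt (v.map_add _ _) (max_lt hAx hB)
  have hy : y ≠ 0 := by
    rintro rfl
    have h0 : v ((0 : F) ^ 2) = 0 := by simp
    rw [h0] at hy2
    exact (pow_pos hM0 3).ne hy2
  obtain ⟨x', y', h', hx'⟩ := PD.double_on hc2 hy h
  refine ⟨x', y', h', ?_⟩
  have hv2 : v (2 : F) ≤ 1 := h2.le
  have h8 : v (8 : F) ≤ 1 := by
    have : (8 : F) = 2 ^ 3 := by norm_num
    rw [this, map_pow]; exact pow_le_one₀ zero_le hv2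
  have h4 : v (4 : F) < 1 := by
    have : (4 : F) = 2 ^ 2 := by norm_num
    rw [this, map_pow]; exact pow_lt_one₀ zero_le h2 (by norm_num)
  have h40 : 0 < v (4 : F) := by
    have : (4 : F) = 2 ^ 2 := by norm_num
    rw [this]; exact zero_lt_iff.mpr ((Valuation.ne_zero_iff v).mpr (pow_ne_zero 2 hc2))
  have e1 : v (2 * A * x ^ 2) < v x ^ 4 := by
    rw [map_mul, map_mul, map_pow]
    calc v 2 * v A * v x ^ 2 ≤ 1 * v A * v x ^ 2 := by gcongr
      _ = v A * v x ^ 2 := by rw [one_mul]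
      _ < v x ^ 2 * v x ^ 2 := mul_lt_mul_of_pos_right hA (pow_pos hM0 2)
      _ = v x ^ 4 := by rw [← pow_add]
  have e2 : v (8 * B * x) < v x ^ 4 := by
    rw [map_mul, map_mul]
    calc v 8 * v B * v x ≤ 1 * v B * v x := by gcongr
      _ = v B * v x := by rw [one_mul]
      _ < v x ^ 3 * v x := mul_lt_mul_of_pos_right hB hM0
      _ = v x ^ 4 := by rw [← pow_succ]
  have e3 : v (A ^ 2) < v x ^ 4 := by
    rw [map_pow]
    calc v A ^ 2 < (v x ^ 2) ^ 2 := pow_lt_pow_left₀ hA zero_le (by norm_num)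
      _ = v x ^ 4 := by rw [← pow_mul]
  have hnum : v (x ^ 4 - 2 * A * x ^ 2 - 8 * B * x + A ^ 2) = v x ^ 4 := by
    have : x ^ 4 - 2 * A * x ^ 2 - 8 * B * x + A ^ 2 =
        x ^ 4 + (-(2 * A * x ^ 2) + (-(8 * B * x) + A ^ 2)) := by ring
    rw [this, ← map_pow v x 4]
    apply Valuation.map_add_eq_of_lt_left
    rw [map_pow]
    refine lt_of_le_of_lt (v.map_add _ _) (max_lt ?_ (lt_of_le_of_lt (v.map_add _ _)
      (max_lt ?_ e3)))
    · rw [Valuation.map_neg]; exact e1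
    · rw [Valuation.map_neg]; exact e2
  have hk := congrArg v hx'
  rw [hnum, map_mul, map_mul, hy2] at hk
  -- v x' * (v 4 * v x ^ 3) = v x ^ 4
  have hk2 : v x' * v 4 = v x := by
    have h3 : v x ^ 3 ≠ 0 := (pow_pos hM0 3).ne'
    apply mul_right_cancel₀ h3
    rw [mul_assoc, hk, ← pow_succ']
  by_contra hcon
  push Not at hcon
  have : v x' * v 4 < v x := by
    calc v x' * v 4 ≤ v x * v 4 := by gcongr
      _ < v x * 1 := mul_lt_mul_of_pos_left h4 hM0
      _ = v x := mul_one _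
  exact this.ne hk2

theorem infinite_x_two (v : Valuation F Γ₀) (h2 : v 2 < 1) (hc2 : (2 : F) ≠ 0)
    {A B x y : F} (h : y ^ 2 = x ^ 3 + A * x + B)
    (hA : v A < v x ^ 2) (hB : v B < v x ^ 3) :
    {x : F | ∃ y, y ^ 2 = x ^ 3 + A * x + B}.Infinite := by
  intro hfin
  have hfin' : ({z : F | ∃ y, y ^ 2 = z ^ 3 + A * z + B} ∩ {z | v x ≤ v z}).Finite :=
    hfin.subset Set.inter_subset_left
  obtain ⟨z, ⟨⟨w, hw⟩, hz⟩, hmax⟩ := Set.exists_max_image _ (fun z => v z) hfin'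
    ⟨x, ⟨y, h⟩, le_refl _⟩
  obtain ⟨z', w', hw', hz'⟩ := step_two v h2 hc2 hw
    (lt_of_lt_of_le hA (pow_le_pow_left₀ zero_le hz 2))
    (lt_of_lt_of_le hB (pow_le_pow_left₀ zero_le hz 3))
  exact absurd (hmax z' ⟨⟨w', hw'⟩, le_trans hz hz'.le⟩) (not_le.mpr hz')

/-- (a1) main criterion. -/
theorem infinite_quartic_two (v : Valuation F Γ₀) (h2 : v 2 < 1) (hc2 : (2 : F) ≠ 0)
    {q d c b a : F} (hq : q ≠ 0) (C : Γ₀) (hC : 1 ≤ C) (hqC : v q ≤ C) (hdC : v d ≤ C)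
    (hcC : v c ≤ C) (hbC : v b ≤ C) (haC : v a ≤ C) (h : v q * C < v d) :
    {s : F | IsSquare (q ^ 2 + d * s + c * s ^ 2 + b * s ^ 3 + a * s ^ 4)}.Infinite := by
  have hv3 : v (3 : F) = 1 := by
    have : (3 : F) = 1 + 2 := by norm_num
    rw [this]
    have h1 : v (2 : F) < v (1 : F) := by rw [map_one]; exact h2
    rw [Valuation.map_add_eq_of_lt_left v h1, map_one]
  have hc3 : (3 : F) ≠ 0 := by
    rintro h0
    rw [h0, map_zero] at hv3
    exact zero_ne_one hv3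
  have hq0 : 0 < v q := zero_lt_iff.mpr ((Valuation.ne_zero_iff v).mpr hq)
  have hC0 : 0 < C := lt_of_lt_of_le zero_lt_one hC
  have hint : ∀ m : ℕ, v (m : F) ≤ 1 := by
    intro m
    induction m with
    | zero => simp
    | succ m ih =>
      rw [Nat.cast_succ]
      exact le_trans (v.map_add _ _) (max_le ih (by rw [map_one]))
  have hC2 : C ≤ C ^ 2 := by
    calc C = C * 1 := (mul_one _).symm
      _ ≤ C * C := by gcongr
      _ = C ^ 2 := (sq C).symm
  have hmon : ∀ i j : ℕ, i ≤ j → C ^ i ≤ C ^ j := fun i j hij => pow_le_pow_right₀ hC hij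
  refine PD.infinite_s hq hc2 hc3 ?_
  have hst := PD.start_point (q := q) (d := d) (c := c) (b := b) (a := a) hq hc2 hc3
  have hv4 : v (4 : F) < 1 := by
    have : (4 : F) = 2 ^ 2 := by norm_num
    rw [this, map_pow]; exact pow_lt_one₀ zero_le h2 (by norm_num)
  have hv40 : 0 < v (4 : F) := by
    have : (4 : F) = 2 ^ 2 := by norm_num
    rw [this]; exact zero_lt_iff.mpr ((Valuation.ne_zero_iff v).mpr (pow_ne_zero 2 hc2))
  have h4q : (4 * q ^ 2 : F) ≠ 0 := by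
    refine mul_ne_zero ?_ (pow_ne_zero 2 hq)
    have : (4 : F) = 2 ^ 2 := by norm_num
    rw [this]; exact pow_ne_zero 2 hc2
  have hx1 : C ^ 2 < v (d ^ 2 / (4 * q ^ 2)) := by
    rw [map_div₀, map_pow, map_mul, map_pow, lt_div_iff₀ (mul_pos hv40 (pow_pos hq0 2))]
    calc C ^ 2 * (v 4 * v q ^ 2) = v 4 * (v q * C) ^ 2 := by
          rw [mul_pow]; ac_rfl
      _ ≤ 1 * (v q * C) ^ 2 := by gcongr
      _ = (v q * C) ^ 2 := one_mul _
      _ < v d ^ 2 := pow_lt_pow_left₀ h zero_le (by norm_num)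
  have hx2 : v (2 * c / 3) ≤ C ^ 2 := by
    rw [map_div₀, hv3, div_one, map_mul]
    calc v 2 * v c ≤ 1 * C := by gcongr
      _ = C := one_mul _
      _ ≤ C ^ 2 := hC2
  have hx : C ^ 2 < v (d ^ 2 / (4 * q ^ 2) - 2 * c / 3) := by
    have : v (d ^ 2 / (4 * q ^ 2) - 2 * c / 3) = v (d ^ 2 / (4 * q ^ 2)) := by
      rw [sub_eq_add_neg]
      apply Valuation.map_add_eq_of_lt_left
      rw [Valuation.map_neg]
      exact lt_of_le_of_lt hx2 hx1
    rw [this]; exact hx1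
  have h27 : v (27 : F) = 1 := by
    have : (27 : F) = 3 ^ 3 := by norm_num
    rw [this, map_pow, hv3, one_pow]
  have t : ∀ (m : ℕ) (z : F) (D : Γ₀), v z ≤ D → v ((m : F) * z) ≤ D := by
    intro m z D hz
    rw [map_mul]
    calc v (m : F) * v z ≤ 1 * D := by gcongr; exact hint m
      _ = D := one_mul D
  have hq2 : v (q ^ 2) ≤ C ^ 2 := by rw [map_pow]; gcongr
  have haq : v (a * q ^ 2) ≤ C ^ 3 := by
    rw [map_mul]
    calc v a * v (q ^ 2) ≤ C * C ^ 2 := by gcongr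
      _ = C ^ 3 := by rw [← pow_succ']
  have hbd : v (b * d) ≤ C ^ 3 := by
    rw [map_mul]
    calc v b * v d ≤ C * C := by gcongr
      _ = C ^ 2 := (sq C).symm
      _ ≤ C ^ 3 := hmon 2 3 (by norm_num)
  have hcc : v (c ^ 2) ≤ C ^ 3 := by
    rw [map_pow]
    calc v c ^ 2 ≤ C ^ 2 := by gcongr
      _ ≤ C ^ 3 := hmon 2 3 (by norm_num)
  have hA : v (PD.coeffA (q ^ 2) d c b a) ≤ C ^ 3 := by
    unfold PD.coeffA
    rw [map_div₀, hv3, div_one, Valuation.map_neg]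
    have : 12 * a * q ^ 2 - 3 * b * d + c ^ 2 =
      ((12 : ℕ) : F) * (a * q ^ 2) + (-(((3 : ℕ) : F) * (b * d)) + c ^ 2) := by push_cast; ring
    rw [this]
    refine le_trans (v.map_add _ _) (max_le (t 12 _ _ haq) (le_trans (v.map_add _ _)
      (max_le ?_ hcc)))
    rw [Valuation.map_neg]; exact t 3 _ _ hbd
  have m3 : ∀ x y z : F, v x ≤ C → v y ≤ C → v z ≤ C → v (x * y * z) ≤ C ^ 3 := by
    intro x y z hx hy hz
    rw [map_mul, map_mul]
    calc v x * v y * v z ≤ C * C * C := by gcongr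
      _ = C ^ 3 := by rw [pow_succ, sq]
  have hB : v (PD.coeffB (q ^ 2) d c b a) ≤ C ^ 4 := by
    unfold PD.coeffB
    rw [map_div₀, h27, div_one, Valuation.map_neg]
    have : 72 * a * c * q ^ 2 + 9 * b * c * d - 27 * a * d ^ 2 - 27 * q ^ 2 * b ^ 2 - 2 * c ^ 3 =
      ((72 : ℕ) : F) * (a * q ^ 2 * c) + (((9 : ℕ) : F) * (b * c * d) +
        (-(((27 : ℕ) : F) * (a * d * d)) + (-(((27 : ℕ) : F) * (q ^ 2 * (b * b))) +
        -(((2 : ℕ) : F) * (c * c * c))))) := by push_cast; ring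
    rw [this]
    have c4 : C ^ 3 ≤ C ^ 4 := hmon 3 4 (by norm_num)
    refine le_trans (v.map_add _ _) (max_le (t 72 _ _ ?_) (le_trans (v.map_add _ _)
      (max_le (t 9 _ _ ?_) (le_trans (v.map_add _ _) (max_le ?_ (le_trans (v.map_add _ _)
      (max_le ?_ ?_)))))))
    · rw [map_mul]
      calc v (a * q ^ 2) * v c ≤ C ^ 3 * C := by gcongr
        _ = C ^ 4 := by rw [← pow_succ]
    · exact (m3 _ _ _ hbC hcC hdC).trans c4
    · rw [Valuation.map_neg]
      exact t 27 _ _ ((m3 _ _ _ haC hdC hdC).trans c4)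
    · rw [Valuation.map_neg]
      refine t 27 _ _ ?_
      rw [map_mul, map_mul]
      calc v (q ^ 2) * (v b * v b) ≤ C ^ 2 * (C * C) := by gcongr
        _ = C ^ 4 := by rw [← sq, ← pow_add]
    · rw [Valuation.map_neg]
      exact t 2 _ _ ((m3 _ _ _ hcC hcC hcC).trans c4)
  have hxp : 0 < v (d ^ 2 / (4 * q ^ 2) - 2 * c / 3) := lt_of_le_of_lt zero_le hx
  refine infinite_x_two v h2 hc2 hst (lt_of_le_of_lt hA ?_) (lt_of_le_of_lt hB ?_)
  · calc C ^ 3 ≤ C ^ 4 := hmon 3 4 (by norm_num)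
      _ = (C ^ 2) ^ 2 := by rw [← pow_mul]
      _ < _ := pow_lt_pow_left₀ hx zero_le (by norm_num)
  · calc C ^ 4 ≤ C ^ 6 := hmon 4 6 (by norm_num)
      _ = (C ^ 2) ^ 3 := by rw [← pow_mul]
      _ < _ := pow_lt_pow_left₀ hx zero_le (by norm_num)

end Pool.Agent.Work.D9
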