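import Mathlib
import Pool.Agent.Work.MP_b62148_ag.D9.Near
import Pool.Agent.Work.MP_b62148_ag.D9.TwoAdic
import Pool.Agent.Work.MP_b62148_ag.D9.Alg
import Pool.Agent.Work.MP_b62148_ag.D9.ModC

/-!
From infinitely many good jumping lines to a dense set of split conics.
-/

namespace Pool.Agent.Work.D9

open MvPolynomial Matrix

section

variable {L : Type*} [Field L]

theorem line_zero (G : MvPolynomial (Fin 3) L) (u w : Fin 3 → L) (T : Set L) (hT : T.Infinite)
    (h : ∀ s ∈ T, eval (u + s • w) G = 0) (s : L) : eval (u + s • w) G = 0 := by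
  let P : Polynomial L := aeval (fun i => Polynomial.C (u i) + Polynomial.X * Polynomial.C (w i)) G
  have hP : ∀ t : L, P.eval t = eval (u + t • w) G := by
    intro t
    have h1 := MvPolynomial.comp_aeval_apply (f := fun i : Fin 3 =>
      Polynomial.C (u i) + Polynomial.X * Polynomial.C (w i)) (Polynomial.aeval (R := L) t) G
    rw [Polynomial.coe_aeval_eq_eval] at h1
    show P.eval t = _
    rw [h1, ← MvPolynomial.coe_aeval_eq_eval]
    have h2 : (fun i => u i + w i * t) = u + t • w := by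
      funext i; simp [mul_comm]
    simp [h2]
  have h0 : P = 0 := by
    apply Polynomial.eq_zero_of_infinite_isRoot
    exact hT.mono fun t ht => by
      show P.IsRoot t
      rw [Polynomial.IsRoot.def, hP]
      exact h t ht
  rw [← hP, h0, Polynomial.eval_zero]

theorem two_param [CharZero L] (G : MvPolynomial (Fin 3) L) (u w : Fin 3 → L) (T : Set L)
    (hT : T.Infinite) (h : ∀ s ∈ T, ∀ c : L, c ≠ 0 → eval (c • (u + s • w)) G = 0) (α β : L) :
    eval (α • u + β • w) G = 0 := by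
  have h1 : ∀ α : L, α ≠ 0 → ∀ t : L, eval (α • u + t • w) G = 0 := by
    intro α hα t
    refine line_zero G (α • u) w ((fun s => α * s) '' T)
      (hT.image fun a _ b _ hab => mul_left_cancel₀ hα hab) ?_ t
    rintro _ ⟨s, hs, rfl⟩
    have := h s hs α hα
    rw [smul_add, smul_smul] at this
    exact this
  have hinf : ({0}ᶜ : Set L).Infinite := by
    have : Infinite L := Infinite.of_injective (Nat.cast : ℕ → L) Nat.cast_injective
    exact (Set.finite_singleton (0 : L)).infinite_compl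
  have h2 := line_zero G (β • w) u {0}ᶜ hinf (fun a ha => by
    rw [add_comm]; exact h1 a ha β) α
  rwa [add_comm] at h2

theorem split_smul {B : Fin 3 → Matrix (Fin 3) (Fin 3) L}
    {n : Fin 3 → Fin 3 × Fin 3 → Fin 3 × Fin 3 → L} {x : Fin 3 → L} (hx : x ∈ Split B n) (c : L)
    (hc : c ≠ 0) : c • x ∈ Split B n := by
  obtain ⟨hx0, A, hA, hk, ht, hq⟩ := hx
  refine ⟨smul_ne_zero hc hx0, A, hA, ?_, ht, ?_⟩
  · rw [Matrix.mulVec_smul, hk, smul_zero]
  · have : qf n (c • x) A A = c * qf n x A A := by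
      simp only [qf, Pi.smul_apply, smul_eq_mul, Finset.mul_sum]
      refine Finset.sum_congr rfl fun j _ => ?_
      refine Finset.sum_congr rfl fun s _ => ?_
      refine Finset.sum_congr rfl fun t _ => ?_
      ring
    rw [this, hq, mul_zero]

theorem cross_basis (w1 w2 l x : Fin 3 → L) (h : l ⬝ᵥ x = 0) :
    ((w2 ⨯₃ l) ⬝ᵥ w1) • x = (-(x ⬝ᵥ w2)) • (w1 ⨯₃ l) + (x ⬝ᵥ w1) • (w2 ⨯₃ l) := by
  have h' : l 0 * x 0 + l 1 * x 1 + l 2 * x 2 = 0 := by
    have := h
    simp only [dotProduct, Fin.sum_univ_three] at this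
    exact this
  funext i
  simp only [cross_apply, dotProduct, Fin.sum_univ_three, Pi.smul_apply, Pi.add_apply, smul_eq_mul]
  fin_cases i
  · simp
    linear_combination (w1 1 * w2 2 - w1 2 * w2 1) * h'
  · simp
    linear_combination (w1 2 * w2 0 - w1 0 * w2 2) * h'
  · simp
    linear_combination (w1 0 * w2 1 - w1 1 * w2 0) * h'

theorem A2_eq (B : Fin 3 → Matrix (Fin 3) (Fin 3) L)
    (n : Fin 3 → Fin 3 × Fin 3 → Fin 3 × Fin 3 → L) (xi om l : Fin 3 → L) :
    A2 B n xi om l = (om ⨯₃ l) ⬝ᵥ om1 B n xi l := rfl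

variable {Γ₀ : Type*} [LinearOrderedCommGroupWithZero Γ₀]

theorem split_dense [CharZero L] (w : Valuation L Γ₀) (h2 : w 2 < 1)
    (B : Fin 3 → Matrix (Fin 3) (Fin 3) L) (n : Fin 3 → Fin 3 × Fin 3 → Fin 3 × Fin 3 → L)
    (xi et ze om : Fin 3 → L) (S : Set (Fin 3 → L)) (hS : S.Infinite)
    (hpair : ∀ l ∈ S, ∀ l' ∈ S, ∀ c : L, l = c • l' → l = l')
    (hD : ∀ l ∈ S, (rows B l).det = 0) (hlam : ∀ l ∈ S, lam B xi et ze l ≠ 0)
    (haa : ∀ l ∈ S, aa B et ze l ≠ 0) (hA : ∀ l ∈ S, A2 B n xi om l ≠ 0)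
    (hB : ∀ l ∈ S, B0 B n xi et ze l ≠ 0)
    (hC : ∀ l ∈ S, ∃ C : Γ₀, 1 ≤ C ∧ w (B0 B n xi et ze l) ≤ C ∧ w (qd B n xi et ze om l) ≤ C ∧
        w (qc B n xi et ze om l) ≤ C ∧ w (qb B n xi et ze om l) ≤ C ∧
        w (qa B n xi et ze om l) ≤ C ∧ w (B0 B n xi et ze l) * C < w (qd B n xi et ze om l))
    (G : MvPolynomial (Fin 3) L) (hG : ∀ x ∈ Split B n, eval x G = 0) : G = 0 := by
  refine MC.planes G S hS hpair fun l hl x hx => ?_
  obtain ⟨C, hC1, c1, c2, c3, c4, c5, c6⟩ := hC l hl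
  have hinf := infinite_quartic_two w h2 two_ne_zero (hB l hl) C hC1 c1 c2 c3 c4 c5 c6
  have hinf' := hinf.sdiff (Set.finite_singleton (0 : L))
  have key := two_param G (xx l (om1 B n xi l)) (xx l om) _ hinf' (by
    rintro s ⟨hs, hs0⟩ c hc
    refine hG _ (split_smul ?_ c hc)
    refine split_of_square B n xi et ze om l two_ne_zero (hD l hl) (hlam l hl) (haa l hl)
      (hA l hl) s (by simpa using hs0) ?_
    rw [quart_eq]
    exact hs)
  have hA' := hA l hl
  rw [A2_eq] at hA'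
  have hcb := cross_basis (om1 B n xi l) om l x hx
  have hx' : x = (((om ⨯₃ l) ⬝ᵥ om1 B n xi l)⁻¹ * (-(x ⬝ᵥ om))) • xx l (om1 B n xi l) +
      (((om ⨯₃ l) ⬝ᵥ om1 B n xi l)⁻¹ * (x ⬝ᵥ om1 B n xi l)) • xx l om := by
    rw [mul_smul, mul_smul, ← smul_add]
    show x = _ • ((-(x ⬝ᵥ om)) • (om1 B n xi l ⨯₃ l) + (x ⬝ᵥ om1 B n xi l) • (om ⨯₃ l))
    rw [← hcb, smul_smul, inv_mul_cancel₀ hA', one_smul]
  rw [hx']
  exact key _ _

end

end Pool.Agent.Work.D9
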