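import Pool.Agent.Work.MP_b62148_ag.D9.NearCubic

/-!
Module (a) of D9: points of a plane cubic near a given smooth point, over one finitely generated
field.
-/

namespace Pool.Agent.Work.D9

open MvPolynomial Matrix

variable {Ω : Type*} [Field Ω]

/-- a cubic form through a trilinear form -/
theorem cubic_form [CharZero Ω] (D : MvPolynomial (Fin 3) Ω) (hD : D.IsHomogeneous 3) :
    ∃ κ : Fin 3 → Fin 3 → Fin 3 → Ω, D = ∑ i, ∑ j, ∑ k, C (κ i j k) * (X i * X j * X k) := by
  have h3 : ∑ i, X i * pderiv i D = (3 : ℕ) • D := hD.sum_X_mul_pderiv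
  have h2 : ∀ i, ∑ j, X j * pderiv j (pderiv i D) = (2 : ℕ) • pderiv i D := fun i =>
    (hD.pderiv (i := i)).sum_X_mul_pderiv
  have h1 : ∀ i j, ∑ k, X k * pderiv k (pderiv j (pderiv i D)) =
      (1 : ℕ) • pderiv j (pderiv i D) := fun i j =>
    ((hD.pderiv (i := i)).pderiv (i := j)).sum_X_mul_pderiv
  have h0 : ∀ i j k, pderiv k (pderiv j (pderiv i D)) =
      C (coeff 0 (pderiv k (pderiv j (pderiv i D)))) := fun i j k =>
    totalDegree_eq_zero_iff_eq_C.1 ((totalDegree_zero_iff_isHomogeneous _).2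
      (((hD.pderiv (i := i)).pderiv (i := j)).pderiv (i := k)))
  refine ⟨fun i j k => coeff 0 (pderiv k (pderiv j (pderiv i D))) / 6, ?_⟩
  have key : (6 : MvPolynomial (Fin 3) Ω) * D =
      ∑ i, ∑ j, ∑ k, X i * (X j * (X k * pderiv k (pderiv j (pderiv i D)))) := by
    have a1 : ∀ i j, ∑ k, X i * (X j * (X k * pderiv k (pderiv j (pderiv i D)))) =
        X i * (X j * pderiv j (pderiv i D)) := by
      intro i j
      rw [← Finset.mul_sum, ← Finset.mul_sum, h1, one_smul]
    have a2 : ∀ i, ∑ j, X i * (X j * pderiv j (pderiv i D)) = 2 * (X i * pderiv i D) := by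
      intro i
      rw [← Finset.mul_sum, h2, nsmul_eq_mul]
      push_cast
      ring
    simp only [a1, a2]
    rw [← Finset.mul_sum, h3, nsmul_eq_mul]
    push_cast
    ring
  have h6 : (C (1 / 6 : Ω) : MvPolynomial (Fin 3) Ω) * 6 = 1 := by
    rw [← map_ofNat (C : Ω →+* MvPolynomial (Fin 3) Ω) 6, ← C_mul]
    norm_num
  calc D = C (1 / 6 : Ω) * (6 * D) := by rw [← mul_assoc, h6, one_mul]
    _ = _ := by
      rw [key, Finset.mul_sum]
      refine Finset.sum_congr rfl fun i _ => ?_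
      rw [Finset.mul_sum]
      refine Finset.sum_congr rfl fun j _ => ?_
      rw [Finset.mul_sum]
      refine Finset.sum_congr rfl fun k _ => ?_
      rw [h0 i j k]
      beta_reduce
      rw [div_eq_mul_one_div (coeff 0 (pderiv k (pderiv j (pderiv i D)))) 6, C_mul]
      ring

/-- the trilinear form -/
def T3 (κ : Fin 3 → Fin 3 → Fin 3 → Ω) (u w z : Fin 3 → Ω) : Ω :=
  ∑ i, ∑ j, ∑ k, κ i j k * (u i * w j * z k)

section
variable (κ : Fin 3 → Fin 3 → Fin 3 → Ω) (u u' w w' z z' : Fin 3 → Ω) (c : Ω)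

theorem T3_add₁ : T3 κ (u + u') w z = T3 κ u w z + T3 κ u' w z := by
  simp only [T3, Pi.add_apply, ← Finset.sum_add_distrib]
  refine Finset.sum_congr rfl fun i _ => Finset.sum_congr rfl fun j _ =>
    Finset.sum_congr rfl fun k _ => by ring

theorem T3_add₂ : T3 κ u (w + w') z = T3 κ u w z + T3 κ u w' z := by
  simp only [T3, Pi.add_apply, ← Finset.sum_add_distrib]
  refine Finset.sum_congr rfl fun i _ => Finset.sum_congr rfl fun j _ =>
    Finset.sum_congr rfl fun k _ => by ring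

theorem T3_add₃ : T3 κ u w (z + z') = T3 κ u w z + T3 κ u w z' := by
  simp only [T3, Pi.add_apply, ← Finset.sum_add_distrib]
  refine Finset.sum_congr rfl fun i _ => Finset.sum_congr rfl fun j _ =>
    Finset.sum_congr rfl fun k _ => by ring

theorem T3_smul₁ : T3 κ (c • u) w z = c * T3 κ u w z := by
  simp only [T3, Pi.smul_apply, smul_eq_mul, Finset.mul_sum]
  refine Finset.sum_congr rfl fun i _ => Finset.sum_congr rfl fun j _ =>
    Finset.sum_congr rfl fun k _ => by ring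

theorem T3_smul₂ : T3 κ u (c • w) z = c * T3 κ u w z := by
  simp only [T3, Pi.smul_apply, smul_eq_mul, Finset.mul_sum]
  refine Finset.sum_congr rfl fun i _ => Finset.sum_congr rfl fun j _ =>
    Finset.sum_congr rfl fun k _ => by ring

theorem T3_smul₃ : T3 κ u w (c • z) = c * T3 κ u w z := by
  simp only [T3, Pi.smul_apply, smul_eq_mul, Finset.mul_sum]
  refine Finset.sum_congr rfl fun i _ => Finset.sum_congr rfl fun j _ =>
    Finset.sum_congr rfl fun k _ => by ring

end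

theorem eval_cubic (κ : Fin 3 → Fin 3 → Fin 3 → Ω) (z : Fin 3 → Ω) :
    eval z (∑ i, ∑ j, ∑ k, C (κ i j k) * (X i * X j * X k)) = T3 κ z z z := by
  simp [T3, map_sum]

theorem grad_cubic (κ : Fin 3 → Fin 3 → Fin 3 → Ω) (l u : Fin 3 → Ω) :
    ∑ m, u m * eval l (pderiv m (∑ i, ∑ j, ∑ k, C (κ i j k) * (X i * X j * X k))) =
      T3 κ u l l + T3 κ l u l + T3 κ l l u := by
  classical
  have h : ∀ i j k : Fin 3, ∑ m, u m * eval l (pderiv m (C (κ i j k) * (X i * X j * X k))) =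
      κ i j k * (u i * l j * l k) + κ i j k * (l i * u j * l k) + κ i j k * (l i * l j * u k) := by
    intro i j k
    simp only [pderiv_mul, pderiv_C, pderiv_X, map_add, map_mul, eval_C, eval_X, zero_mul, zero_add,
      Pi.single_apply]
    fin_cases i <;> fin_cases j <;> fin_cases k <;> simp [Fin.sum_univ_three] <;> ring
  simp only [map_sum, Finset.mul_sum]
  rw [Finset.sum_comm]
  simp only [T3, ← Finset.sum_add_distrib]
  refine Finset.sum_congr rfl fun i _ => ?_
  rw [Finset.sum_comm]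
  refine Finset.sum_congr rfl fun j _ => ?_
  rw [Finset.sum_comm]
  refine Finset.sum_congr rfl fun k _ => ?_
  exact h i j k

/-- Taylor expansion of a cubic form along a plane through a point -/
theorem cubic_expand [CharZero Ω] (D : MvPolynomial (Fin 3) Ω) (hD : D.IsHomogeneous 3)
    (l e₁ e₂ : Fin 3 → Ω) :
    ∃ a b c d e f g : Ω, ∀ x y : Ω, eval (l + x • e₁ + y • e₂) D =
      eval l D + x * (∑ m, e₁ m * eval l (pderiv m D)) + y * (∑ m, e₂ m * eval l (pderiv m D)) +
      (a * x ^ 2 + b * x * y + c * y ^ 2 + d * x ^ 3 + e * x ^ 2 * y + f * x * y ^ 2 +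
        g * y ^ 3) := by
  obtain ⟨κ, rfl⟩ := cubic_form D hD
  refine ⟨T3 κ e₁ e₁ l + T3 κ e₁ l e₁ + T3 κ l e₁ e₁,
    T3 κ e₁ e₂ l + T3 κ e₂ e₁ l + T3 κ e₁ l e₂ + T3 κ e₂ l e₁ + T3 κ l e₁ e₂ + T3 κ l e₂ e₁,
    T3 κ e₂ e₂ l + T3 κ e₂ l e₂ + T3 κ l e₂ e₂, T3 κ e₁ e₁ e₁,
    T3 κ e₁ e₁ e₂ + T3 κ e₁ e₂ e₁ + T3 κ e₂ e₁ e₁,
    T3 κ e₁ e₂ e₂ + T3 κ e₂ e₁ e₂ + T3 κ e₂ e₂ e₁, T3 κ e₂ e₂ e₂, ?_⟩
  intro x y
  rw [grad_cubic, grad_cubic, eval_cubic, eval_cubic]
  simp only [T3_add₁, T3_add₂, T3_add₃, T3_smul₁, T3_smul₂, T3_smul₃]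
  ring

/-- a basis adapted to a smooth point -/
theorem exists_basis [CharZero Ω] (D : MvPolynomial (Fin 3) Ω) (hD : D.IsHomogeneous 3)
    (l₀ : Fin 3 → Ω) (hl₀ : eval l₀ D = 0) (i : Fin 3) (hi : eval l₀ (pderiv i D) ≠ 0) :
    ∃ e₁ e₂ : Fin 3 → Ω, LinearIndependent Ω ![l₀, e₁, e₂] ∧
      ∑ m, e₁ m * eval l₀ (pderiv m D) = 0 ∧ ∑ m, e₂ m * eval l₀ (pderiv m D) = 1 := by
  classical
  let G : (Fin 3 → Ω) →ₗ[Ω] Ω :=
    ∑ m, (eval l₀ (pderiv m D)) • LinearMap.proj m
  have hG : ∀ u, G u = ∑ m, u m * eval l₀ (pderiv m D) := by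
    intro u
    simp [G, mul_comm]
  have hGl : G l₀ = 0 := by
    rw [hG]
    have h := congrArg (eval l₀) hD.sum_X_mul_pderiv
    simp only [map_sum, map_mul, eval_X, nsmul_eq_mul, hl₀, mul_zero] at h
    exact h
  have hi' : G (Pi.single i 1) = eval l₀ (pderiv i D) := by
    rw [hG]
    simp [Pi.single_apply]
  have hl0 : l₀ ≠ 0 := by
    rintro rfl
    refine hi ?_
    have h := congrArg (eval (0 : Fin 3 → Ω)) (hD.pderiv (i := i)).sum_X_mul_pderiv
    simp only [map_sum, map_mul, eval_X, Pi.zero_apply, zero_mul, Finset.sum_const_zero,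
      nsmul_eq_mul, map_natCast] at h
    have h' := h.symm
    rcases mul_eq_zero.1 h' with h'' | h''
    · norm_num at h''
    · exact h''
  have hfin : Module.finrank Ω (LinearMap.ker G) = 2 := by
    have h1 := LinearMap.finrank_range_add_finrank_ker G
    have h2 : LinearMap.range G = ⊤ := by
      rw [LinearMap.range_eq_top]
      intro c
      refine ⟨(c / eval l₀ (pderiv i D)) • Pi.single i 1, ?_⟩
      rw [map_smul, hi', smul_eq_mul, div_mul_cancel₀ _ hi]
    rw [h2, finrank_top, Module.finrank_self, Module.finrank_fin_fun] at h1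
    omega
  obtain ⟨y, hy⟩ := exists_linearIndependent_pair_of_one_lt_finrank
    (R := Ω) (M := LinearMap.ker G) (x := ⟨l₀, hGl⟩) (by rw [hfin]; norm_num)
    (by intro h; exact hl0 (congrArg Subtype.val h))
  refine ⟨y.1, (eval l₀ (pderiv i D))⁻¹ • Pi.single i 1, ?_, ?_, ?_⟩
  · rw [Fintype.linearIndependent_iff]
    intro c hc
    simp only [Fin.sum_univ_three, Matrix.cons_val_zero, Matrix.cons_val_one,
      Matrix.cons_val_two, Matrix.head_cons, Matrix.tail_cons] at hc
    have h2 : c 2 = 0 := by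
      have := congrArg G hc
      rw [map_add, map_add, map_smul, map_smul, map_smul, map_smul, hGl, hi', y.2, map_zero] at this
      simpa [inv_mul_cancel₀ hi] using this
    rw [h2, zero_smul, add_zero] at hc
    have h01 := LinearIndependent.pair_iff.1 hy (c 0) (c 1) (Subtype.ext hc)
    intro j
    fin_cases j
    · exact h01.1
    · exact h01.2
    · exact h2
  · rw [← hG]; exact y.2
  · rw [← hG, map_smul, hi', smul_eq_mul, inv_mul_cancel₀ hi]

/-- (a2) A plane cubic with a smooth point `l₀` over an algebraically closed field with a valuation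
with `v 2 < 1` (any rank) has, over the field generated by finitely many elements, infinitely many
points in any neighbourhood of `l₀`. -/
theorem near_points {Ω Γ₀ : Type*} [Field Ω] [CharZero Ω] [IsAlgClosed Ω]
    [LinearOrderedCommGroupWithZero Γ₀] (v : Valuation Ω Γ₀) (h2 : v 2 < 1)
    (D : MvPolynomial (Fin 3) Ω) (hD : D.IsHomogeneous 3) (l₀ : Fin 3 → Ω)
    (hl₀ : eval l₀ D = 0) (i : Fin 3) (hi : eval l₀ (pderiv i D) ≠ 0) (ε : Ω) (hε : ε ≠ 0) :
    ∃ (Z : Finset Ω) (e₁ e₂ : Fin 3 → Ω), LinearIndependent Ω ![l₀, e₁, e₂] ∧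
      (∀ j, l₀ j ∈ Z ∧ e₁ j ∈ Z ∧ e₂ j ∈ Z) ∧
      ∀ E : Subfield Ω, (Z : Set Ω) ⊆ (E : Set Ω) →
        {XY : Ω × Ω | XY.1 ∈ E ∧ XY.2 ∈ E ∧ eval (l₀ + XY.1 • e₁ + XY.2 • e₂) D = 0 ∧
          ∀ j, v ((XY.1 • e₁ + XY.2 • e₂) j) ≤ v ε}.Infinite := by
  classical
  obtain ⟨e₁, e₂, hind, hG1, hG2⟩ := exists_basis D hD l₀ hl₀ i hi
  obtain ⟨a, b, c, d, e, f, g, hexp⟩ := cubic_expand D hD l₀ e₁ e₂
  obtain ⟨r, r0, r1, hr⟩ := exists_scale v (Finset.univ.image e₁ ∪ Finset.univ.image e₂) hε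
  obtain ⟨Z, hZ⟩ := near_pol v h2 a b c d e f g r0
  refine ⟨Z ∪ (Finset.univ.image l₀ ∪ Finset.univ.image e₁ ∪ Finset.univ.image e₂), e₁, e₂, hind,
    ?_, ?_⟩
  · intro j
    refine ⟨?_, ?_, ?_⟩
    · exact Finset.mem_union_right _ (Finset.mem_union_left _ (Finset.mem_union_left _
        (Finset.mem_image_of_mem _ (Finset.mem_univ _))))
    · exact Finset.mem_union_right _ (Finset.mem_union_left _ (Finset.mem_union_right _
        (Finset.mem_image_of_mem _ (Finset.mem_univ _))))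
    · exact Finset.mem_union_right _ (Finset.mem_union_right _
        (Finset.mem_image_of_mem _ (Finset.mem_univ _)))
  · intro E hE
    have hE' : (Z : Set Ω) ⊆ (E : Set Ω) := by
      refine Set.Subset.trans ?_ hE
      rw [Finset.coe_union]
      exact Set.subset_union_left
    refine (hZ E hE').mono ?_
    rintro ⟨x, y⟩ ⟨h1, h2', h3, h4, h5⟩
    refine ⟨h1, h2', ?_, ?_⟩
    · simp only at h3 ⊢
      rw [hexp, hl₀, hG1, hG2]
      rw [pol] at h3
      linear_combination h3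
    · intro j
      simp only [Pi.add_apply, Pi.smul_apply, smul_eq_mul]
      simp only at h4 h5
      refine Valuation.map_add_le v ?_ ?_
      · refine le_trans ?_ (hr (e₁ j) (Finset.mem_union_left _
          (Finset.mem_image_of_mem _ (Finset.mem_univ _))))
        rw [map_mul, map_mul, mul_comm]
        exact mul_le_mul' le_rfl h4
      · refine le_trans ?_ (hr (e₂ j) (Finset.mem_union_right _
          (Finset.mem_image_of_mem _ (Finset.mem_univ _))))
        rw [map_mul, map_mul, mul_comm]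
        exact mul_le_mul' le_rfl h5

end Pool.Agent.Work.D9
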