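import Mathlib

/-!
Every field of characteristic zero has a valuation with `v 2 < 1`.
-/

namespace Pool.Agent.Work.D9

theorem exists_val_two (K : Type*) [Field K] [CharZero K] :
    ∃ A : ValuationSubring K, A.valuation (2 : K) < 1 := by
  let R : Subring K := (Int.castRingHom K).range
  let I : Ideal R := Ideal.span {⟨(2 : K), ⟨2, by simp⟩⟩}
  have hI : I ≠ ⊤ := by
    intro h
    have h1 : (1 : R) ∈ I := by rw [h]; trivial
    obtain ⟨⟨y, m, hm⟩, hy⟩ := Ideal.mem_span_singleton.mp h1
    have h2 := congrArg Subtype.val hy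
    have h3 : (1 : K) = 2 * y := h2
    rw [← hm] at h3
    have h4 : ((1 : ℤ) : K) = ((2 * m : ℤ) : K) := by push_cast; simpa using h3
    have h5 := Int.cast_injective h4
    omega
  obtain ⟨V, -, hV⟩ := Ideal.image_subset_nonunits_valuationSubring I hI
  refine ⟨V, ?_⟩
  rw [← ValuationSubring.mem_nonunits_iff]
  exact hV ⟨⟨(2 : K), ⟨2, by simp⟩⟩, Ideal.mem_span_singleton_self _, rfl⟩

end Pool.Agent.Work.D9
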