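import Mathlib
import Pool.Agent.Work.MP_b62148_ag.D9.Core9
import Pool.Agent.Work.MP_b62148_ag.D9.Maps
import Pool.Agent.Work.MP_b62148_ag.D9.Val2
import Pool.Agent.Work.MP_b62148_ag.D9.NearPoints
import Pool.Agent.Work.MP_b62148_ag.D9.JA

/-!
Assembly of D9 with weak hypotheses: one good common zero of the cubic and of `B0`, and finitely
many common zeros in the charts through it.
-/

namespace Pool.Agent.Work.D9

open MvPolynomial Matrix

section

variable {k : Type*} [Field k] [CharZero k] {Ω : Type*} [Field Ω] [Algebra k Ω] [IsAlgClosed Ω]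
  [Algebra.IsAlgebraic k Ω]

theorem split_main (B : Fin 3 → Matrix (Fin 3) (Fin 3) k)
    (n : Fin 3 → Fin 3 × Fin 3 → Fin 3 × Fin 3 → k)
    (xi et ze om l₀ : Fin 3 → Ω)
    (hD₀ : eval l₀ (jc (mB (algebraMap k Ω) B)) = 0)
    (i₀ : Fin 3) (hi₀ : eval l₀ (pderiv i₀ (jc (mB (algebraMap k Ω) B))) ≠ 0)
    (hB0 : B0 (mB (algebraMap k Ω) B) (mN (algebraMap k Ω) n) xi et ze l₀ = 0)
    (hC0 : C0 (mB (algebraMap k Ω) B) (mN (algebraMap k Ω) n) xi et ze l₀ ≠ 0)
    (hA : A2 (mB (algebraMap k Ω) B) (mN (algebraMap k Ω) n) xi om l₀ ≠ 0)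
    (hl₀ : lam (mB (algebraMap k Ω) B) xi et ze l₀ ≠ 0)
    (haa : aa (mB (algebraMap k Ω) B) et ze l₀ ≠ 0)
    (hfinall : ∀ e₁ e₂ : Fin 3 → Ω, LinearIndependent Ω ![l₀, e₁, e₂] →
      {XY : Ω × Ω | eval (l₀ + XY.1 • e₁ + XY.2 • e₂) (jc (mB (algebraMap k Ω) B)) = 0 ∧
        B0 (mB (algebraMap k Ω) B) (mN (algebraMap k Ω) n) xi et ze
          (l₀ + XY.1 • e₁ + XY.2 • e₂) = 0}.Finite) :
    ∃ L : IntermediateField k Ω, FiniteDimensional k L ∧
      ∀ G : MvPolynomial (Fin 3) L,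
        (∀ x ∈ Split (mB (algebraMap k L) B) (mN (algebraMap k L) n), eval x G = 0) → G = 0 := by
  classical
  have : CharZero Ω := charZero_of_injective_algebraMap (algebraMap k Ω).injective
  obtain ⟨V, hV⟩ := exists_val_two Ω
  set v := V.valuation with hv
  set BO := mB (algebraMap k Ω) B with hBO
  set nO := mN (algebraMap k Ω) n with hnO
  obtain ⟨ε, hε, hgood⟩ := near_good BO nO xi et ze om v hV l₀ hB0 hC0 hA hl₀ haa
  obtain ⟨Z, e₁, e₂, hlin, hZ, hinf⟩ := near_points v hV (jc BO) (jc_hom BO) l₀ hD₀ i₀ hi₀ ε hε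
  obtain ⟨Φ, hΦ⟩ := PF.B0 BO nO xi et ze
  replace hΦ : ∀ l, B0 BO nO xi et ze l = eval l Φ := hΦ
  have hfin : {XY : Ω × Ω | eval (l₀ + XY.1 • e₁ + XY.2 • e₂) (jc BO) = 0 ∧
      eval (l₀ + XY.1 • e₁ + XY.2 • e₂) Φ = 0}.Finite := by
    have := hfinall e₁ e₂ hlin
    simpa only [hΦ] using this
  -- the field
  let W : Set Ω := (Z : Set Ω) ∪ (Set.range xi ∪ (Set.range et ∪ (Set.range ze ∪ Set.range om)))
  have hWfin : W.Finite := Z.finite_toSet.union ((Set.finite_range xi).union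
    ((Set.finite_range et).union ((Set.finite_range ze).union (Set.finite_range om))))
  let L : IntermediateField k Ω := IntermediateField.adjoin k W
  have hWL : W ⊆ L := IntermediateField.subset_adjoin k W
  have hfd : FiniteDimensional k L := by
    have : Finite W := hWfin
    exact IntermediateField.finiteDimensional_adjoin fun x _ => Algebra.IsIntegral.isIntegral x
  refine ⟨L, hfd, ?_⟩
  let ι : L →+* Ω := algebraMap L Ω
  have hιinj : Function.Injective ι := (algebraMap L Ω).injective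
  have hcomp : ∀ a : k, ι (algebraMap k L a) = algebraMap k Ω a := fun a => rfl
  set BL := mB (algebraMap k L) B with hBL
  set nL := mN (algebraMap k L) n with hnL
  have hBLO : mB ι BL = BO := by
    funext i; ext r c; simp [mB, hBL, hBO, hcomp]
  have hnLO : mN ι nL = nO := by
    funext j s t; simp [mN, hnL, hnO, hcomp]
  have hmem : ∀ {x : Ω}, x ∈ W → ∃ y : L, ι y = x := fun {x} hx => ⟨⟨x, hWL hx⟩, rfl⟩
  choose xiL hxiL using fun j => hmem (x := xi j) (Or.inr (Or.inl ⟨j, rfl⟩))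
  choose etL hetL using fun j => hmem (x := et j) (Or.inr (Or.inr (Or.inl ⟨j, rfl⟩)))
  choose zeL hzeL using fun j => hmem (x := ze j) (Or.inr (Or.inr (Or.inr (Or.inl ⟨j, rfl⟩))))
  choose omL homL using fun j => hmem (x := om j) (Or.inr (Or.inr (Or.inr (Or.inr ⟨j, rfl⟩))))
  choose l₀L hl₀L using fun j => hmem (x := l₀ j) (Or.inl (hZ j).1)
  choose e₁L he₁L using fun j => hmem (x := e₁ j) (Or.inl (hZ j).2.1)
  choose e₂L he₂L using fun j => hmem (x := e₂ j) (Or.inl (hZ j).2.2)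
  have fxi : ι ∘ xiL = xi := funext hxiL
  have fet : ι ∘ etL = et := funext hetL
  have fze : ι ∘ zeL = ze := funext hzeL
  have fom : ι ∘ omL = om := funext homL
  -- the set of good points
  have hinf1 := (hinf L.toSubfield (fun x hx => hWL (Or.inl hx))).sdiff hfin
  let S : Set (Fin 3 → L) := {l | ∃ X Y : L, l = l₀L + X • e₁L + Y • e₂L ∧
    eval (ι ∘ l) (jc BO) = 0 ∧ (∀ j, v (ι (l j) - l₀ j) ≤ v ε) ∧ eval (ι ∘ l) Φ ≠ 0}
  have hch : ∀ X Y : L, ι ∘ (l₀L + X • e₁L + Y • e₂L) = l₀ + ι X • e₁ + ι Y • e₂ := by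
    intro X Y
    funext j
    simp [Function.comp, hl₀L, he₁L, he₂L]
  have hchinj : ∀ (X Y X' Y' : Ω) (c : Ω),
      l₀ + X • e₁ + Y • e₂ = c • (l₀ + X' • e₁ + Y' • e₂) → c = 1 ∧ X = X' ∧ Y = Y' := by
    intro X Y X' Y' c h
    have h1 := Fintype.linearIndependent_iff.mp hlin ![1 - c, X - c * X', Y - c * Y'] (by
      simp only [Fin.sum_univ_three, Matrix.cons_val_zero, Matrix.cons_val_one, Matrix.cons_val]
      have : (1 - c) • l₀ + (X - c * X') • e₁ + (Y - c * Y') • e₂ =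
        (l₀ + X • e₁ + Y • e₂) - c • (l₀ + X' • e₁ + Y' • e₂) := by
        simp only [sub_smul, smul_add, mul_smul, one_smul]
        abel
      rw [this, h, sub_self])
    have a0 : 1 - c = 0 := h1 0
    have a1 : X - c * X' = 0 := h1 1
    have a2 : Y - c * Y' = 0 := h1 2
    have hc : c = 1 := (sub_eq_zero.mp a0).symm
    rw [hc, one_mul] at a1 a2
    exact ⟨hc, sub_eq_zero.mp a1, sub_eq_zero.mp a2⟩
  have hSinf : S.Infinite := by
    intro hSfin
    apply hinf1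
    refine Set.Finite.subset ((hSfin.image fun l => ι ∘ l).preimage
      (f := fun XY : Ω × Ω => l₀ + XY.1 • e₁ + XY.2 • e₂) ?_) ?_
    · rintro ⟨X, Y⟩ _ ⟨X', Y'⟩ _ h
      have h' : l₀ + X • e₁ + Y • e₂ = (1 : Ω) • (l₀ + X' • e₁ + Y' • e₂) := by
        rw [one_smul]; exact h
      obtain ⟨-, h1, h2⟩ := hchinj _ _ _ _ _ h'
      rw [h1, h2]
    · rintro ⟨X, Y⟩ ⟨⟨hX, hY, hz, hcl⟩, hnot⟩
      refine ⟨l₀L + (⟨X, hX⟩ : L) • e₁L + (⟨Y, hY⟩ : L) • e₂L, ⟨⟨X, hX⟩, ⟨Y, hY⟩, rfl, ?_, ?_, ?_⟩,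
        ?_⟩
      · rw [hch]; exact hz
      · intro j
        have h1 := congrFun (hch ⟨X, hX⟩ ⟨Y, hY⟩) j
        simp only [Function.comp] at h1
        rw [h1]
        have h2 := hcl j
        have h3 : (l₀ + ι ⟨X, hX⟩ • e₁ + ι ⟨Y, hY⟩ • e₂) j - l₀ j = (X • e₁ + Y • e₂) j := by
          show l₀ j + X * e₁ j + Y * e₂ j - l₀ j = X * e₁ j + Y * e₂ j
          ring
        rw [h3]; exact h2
      · intro h0
        apply hnot
        rw [hch] at h0
        exact ⟨hz, h0⟩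
      · exact hch _ _
  have hT : ∀ G : MvPolynomial (Fin 3) L, (∀ x ∈ Split BL nL, eval x G = 0) → G = 0 := by
    intro G hG
    have hgl : ∀ l ∈ S, ∀ i, v ((ι ∘ l) i - l₀ i) ≤ v ε := by
      rintro l ⟨X, Y, -, -, h, -⟩
      exact h
    refine split_dense (v.comap ι) (by show v (ι 2) < 1; rw [map_ofNat]; exact hV) BL nL xiL etL zeL omL S hSinf ?_ ?_ ?_ ?_
      ?_ ?_ ?_ G hG
    · rintro l ⟨X, Y, rfl, -⟩ l' ⟨X', Y', rfl, -⟩ c h
      have h1 : ι ∘ (l₀L + X • e₁L + Y • e₂L) = ι c • (ι ∘ (l₀L + X' • e₁L + Y' • e₂L)) := by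
        rw [h]; funext j; simp [Function.comp]
      rw [hch, hch] at h1
      obtain ⟨-, h2, h3⟩ := hchinj _ _ _ _ _ h1
      rw [hιinj h2, hιinj h3]
    · rintro l ⟨X, Y, -, h, -, -⟩
      rw [eval_jc] at h
      apply hιinj
      rw [map_det_rows, hBLO, map_zero]
      exact h
    · intro l hl h0
      have h1 := (hgood _ (hgl l hl)).1
      rw [← fxi, ← fet, ← fze, ← hBLO, ← map_lam, h0, map_zero] at h1
      exact h1 rfl
    · intro l hl h0
      have h1 := (hgood _ (hgl l hl)).2.1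
      rw [← fet, ← fze, ← hBLO, ← map_aa, h0] at h1
      exact h1 (by funext j; simp)
    · intro l hl h0
      have h1 := (hgood _ (hgl l hl)).2.2.1
      rw [← fxi, ← fom, ← hBLO, ← hnLO, ← map_A2, h0, map_zero] at h1
      exact h1 rfl
    · rintro l ⟨X, Y, -, -, -, h⟩ h0
      apply h
      rw [← hΦ, ← fxi, ← fet, ← fze, ← hBLO, ← hnLO, ← map_B0, h0, map_zero]
    · intro l hl
      obtain ⟨C, k1, k2, k3, k4, k5, k6, k7⟩ := (hgood _ (hgl l hl)).2.2.2
      have tB0 : B0 BO nO xi et ze (ι ∘ l) = ι (B0 BL nL xiL etL zeL l) := by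
        rw [map_B0, hBLO, hnLO, fxi, fet, fze]
      have tqd : qd BO nO xi et ze om (ι ∘ l) = ι (qd BL nL xiL etL zeL omL l) := by
        unfold qd
        simp only [map_sub, map_mul, map_B0, map_B1, map_A2, map_C0, hBLO, hnLO, fxi, fet, fze,
          fom, map_ofNat]
      have tqc : qc BO nO xi et ze om (ι ∘ l) = ι (qc BL nL xiL etL zeL omL l) := by
        unfold qc
        simp only [map_sub, map_add, map_mul, map_pow, map_B0, map_B1, map_B2, map_A2, map_C1,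
          hBLO, hnLO, fxi, fet, fze, fom, map_ofNat]
      have tqb : qb BO nO xi et ze om (ι ∘ l) = ι (qb BL nL xiL etL zeL omL l) := by
        unfold qb
        simp only [map_sub, map_mul, map_B1, map_B2, map_A2, map_C2, hBLO, hnLO, fxi, fet, fze,
          fom, map_ofNat]
      have tqa : qa BO nO xi et ze om (ι ∘ l) = ι (qa BL nL xiL etL zeL omL l) := by
        unfold qa
        simp only [map_sub, map_mul, map_pow, map_B2, map_A2, map_C3, hBLO, hnLO, fxi, fet, fze,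
          fom, map_ofNat]
      rw [tB0] at k2 k7
      rw [tqd] at k3 k7
      rw [tqc] at k4
      rw [tqb] at k5
      rw [tqa] at k6
      exact ⟨v C, k1, k2, k3, k4, k5, k6, k7⟩
  exact hT

theorem main0 (B : Fin 3 → Matrix (Fin 3) (Fin 3) k)
    (n : Fin 3 → Fin 3 × Fin 3 → Fin 3 × Fin 3 → k)
    (xi et ze om l₀ : Fin 3 → Ω)
    (hD₀ : eval l₀ (jc (mB (algebraMap k Ω) B)) = 0)
    (i₀ : Fin 3) (hi₀ : eval l₀ (pderiv i₀ (jc (mB (algebraMap k Ω) B))) ≠ 0)
    (hB0 : B0 (mB (algebraMap k Ω) B) (mN (algebraMap k Ω) n) xi et ze l₀ = 0)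
    (hC0 : C0 (mB (algebraMap k Ω) B) (mN (algebraMap k Ω) n) xi et ze l₀ ≠ 0)
    (hA : A2 (mB (algebraMap k Ω) B) (mN (algebraMap k Ω) n) xi om l₀ ≠ 0)
    (hl₀ : lam (mB (algebraMap k Ω) B) xi et ze l₀ ≠ 0)
    (haa : aa (mB (algebraMap k Ω) B) et ze l₀ ≠ 0)
    (hfinall : ∀ e₁ e₂ : Fin 3 → Ω, LinearIndependent Ω ![l₀, e₁, e₂] →
      {XY : Ω × Ω | eval (l₀ + XY.1 • e₁ + XY.2 • e₂) (jc (mB (algebraMap k Ω) B)) = 0 ∧
        B0 (mB (algebraMap k Ω) B) (mN (algebraMap k Ω) n) xi et ze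
          (l₀ + XY.1 • e₁ + XY.2 • e₂) = 0}.Finite)
    (x₀ : Fin 3 → Ω) (hfib : SmoothFibre (mB (algebraMap k Ω) B) (mN (algebraMap k Ω) n) x₀) :
    ∃ L : IntermediateField k Ω, FiniteDimensional k L ∧
      ∀ G : MvPolynomial (Fin 3 ⊕ (Fin 3 × Fin 3)) L,
        (∀ (x : Fin 3 → L) (A : Matrix (Fin 3) (Fin 3) L), x ≠ 0 → A ≠ 0 →
          IsPt (mB (algebraMap k L) B) (mN (algebraMap k L) n) x A → eval (join x A) G = 0) →
        ∃ h : MvPolynomial (Fin 3) L, h ≠ 0 ∧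
          ∀ (x : Fin 3 → Ω) (A : Matrix (Fin 3) (Fin 3) Ω),
            IsPt (mB (algebraMap k Ω) B) (mN (algebraMap k Ω) n) x A →
            aeval x h * aeval (join x A) G = 0 := by
  obtain ⟨L, hfd, hT⟩ := split_main B n xi et ze om l₀ hD₀ i₀ hi₀ hB0 hC0 hA hl₀ haa hfinall
  refine ⟨L, hfd, ?_⟩
  have hcomp : ∀ a : k, algebraMap L Ω (algebraMap k L a) = algebraMap k Ω a := fun a => rfl
  have h1 : (fun i => (mB (algebraMap k L) B i).map (algebraMap L Ω)) = mB (algebraMap k Ω) B := by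
    funext i; ext r c; simp [mB, hcomp]
  have h2 : (fun j s t => algebraMap L Ω (mN (algebraMap k L) n j s t)) =
      mN (algebraMap k Ω) n := by
    funext j s t; simp [mN, hcomp]
  intro G hG
  have hfib' : SmoothFibre (fun i => (mB (algebraMap k L) B i).map (algebraMap L Ω))
      (fun j s t => algebraMap L Ω (mN (algebraMap k L) n j s t)) x₀ := by
    rw [h1, h2]; exact hfib
  obtain ⟨h, hh, hh'⟩ := MC.dense_of_split _ _ hT x₀ hfib' G hG
  refine ⟨h, hh, fun x A hA => hh' x A ?_⟩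
  rw [h1, h2]; exact hA

end

end Pool.Agent.Work.D9
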