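import Mathlib
import Pool.Agent.Work.MP_b62148_ag.D9.Main0
import Pool.Agent.Work.MP_b62148_ag.D9.ModC2

/-!
Assembly of D9 with weak hypotheses and the strong conclusion: every point of `X` over a point of
the plane at which the six linear equations are independent and the quadratic form is not zero on
their solutions is in the closure of the rational points.
-/

namespace Pool.Agent.Work.D9

open MvPolynomial Matrix

section

variable {k : Type*} [Field k] [CharZero k] {Ω : Type*} [Field Ω] [Algebra k Ω] [IsAlgClosed Ω]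
  [Algebra.IsAlgebraic k Ω]

theorem main0' (B : Fin 3 → Matrix (Fin 3) (Fin 3) k)
    (n : Fin 3 → Fin 3 × Fin 3 → Fin 3 × Fin 3 → k)
    (xi et ze om l₀ : Fin 3 → Ω)
    (hD₀ : eval l₀ (jc (mB (algebraMap k Ω) B)) = 0)
    (i₀ : Fin 3) (hi₀ : eval l₀ (pderiv i₀ (jc (mB (algebraMap k Ω) B))) ≠ 0)
    (hB0 : B0 (mB (algebraMap k Ω) B) (mN (algebraMap k Ω) n) xi et ze l₀ = 0)
    (hC0 : C0 (mB (algebraMap k Ω) B) (mN (algebraMap k Ω) n) xi et ze l₀ ≠ 0)
    (hA : A2 (mB (algebraMap k Ω) B) (mN (algebraMap k Ω) n) xi om l₀ ≠ 0)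
    (hl₀ : lam (mB (algebraMap k Ω) B) xi et ze l₀ ≠ 0)
    (haa : aa (mB (algebraMap k Ω) B) et ze l₀ ≠ 0)
    (hfinall : ∀ e₁ e₂ : Fin 3 → Ω, LinearIndependent Ω ![l₀, e₁, e₂] →
      {XY : Ω × Ω | eval (l₀ + XY.1 • e₁ + XY.2 • e₂) (jc (mB (algebraMap k Ω) B)) = 0 ∧
        B0 (mB (algebraMap k Ω) B) (mN (algebraMap k Ω) n) xi et ze
          (l₀ + XY.1 • e₁ + XY.2 • e₂) = 0}.Finite)
    (x₀ : Fin 3 → Ω) (hfib : SmoothFibre (mB (algebraMap k Ω) B) (mN (algebraMap k Ω) n) x₀) :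
    ∃ L : IntermediateField k Ω, FiniteDimensional k L ∧
      ∀ G : MvPolynomial (Fin 3 ⊕ (Fin 3 × Fin 3)) L,
        (∀ (x : Fin 3 → L) (A : Matrix (Fin 3) (Fin 3) L), x ≠ 0 → A ≠ 0 →
          IsPt (mB (algebraMap k L) B) (mN (algebraMap k L) n) x A → eval (join x A) G = 0) →
        ∀ (x : Fin 3 → Ω) (A : Matrix (Fin 3) (Fin 3) Ω),
          IsPt (mB (algebraMap k Ω) B) (mN (algebraMap k Ω) n) x A →
          (∀ y z : Fin 3 → Ω, ∃ A' : Matrix (Fin 3) (Fin 3) Ω, A' *ᵥ x = y ∧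
            ∀ i, trB (mB (algebraMap k Ω) B) i A' = z i) →
          (∃ A' : Matrix (Fin 3) (Fin 3) Ω, A' *ᵥ x = 0 ∧
            (∀ i, trB (mB (algebraMap k Ω) B) i A' = 0) ∧
            qf (mN (algebraMap k Ω) n) x A' A' ≠ 0) →
          aeval (join x A) G = 0 := by
  obtain ⟨L, hfd, hT⟩ := split_main B n xi et ze om l₀ hD₀ i₀ hi₀ hB0 hC0 hA hl₀ haa hfinall
  have : CharZero Ω := charZero_of_injective_algebraMap (algebraMap k Ω).injective
  refine ⟨L, hfd, ?_⟩
  have hcomp : ∀ a : k, algebraMap L Ω (algebraMap k L a) = algebraMap k Ω a := fun a => rfl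
  have h1 : (fun i => (mB (algebraMap k L) B i).map (algebraMap L Ω)) = mB (algebraMap k Ω) B := by
    funext i; ext r c; simp [mB, hcomp]
  have h2 : (fun j s t => algebraMap L Ω (mN (algebraMap k L) n j s t)) =
      mN (algebraMap k Ω) n := by
    funext j s t; simp [mN, hcomp]
  intro G hG x A hIs hs hq
  have hfib' : SmoothFibre (fun i => (mB (algebraMap k L) B i).map (algebraMap L Ω))
      (fun j s t => algebraMap L Ω (mN (algebraMap k L) n j s t)) x₀ := by
    rw [h1, h2]; exact hfib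
  refine MC.dense_of_split' _ _ hT x₀ hfib' G hG x A ?_ ?_ ?_
  · rw [h1, h2]; exact hIs
  · rw [h1]; exact hs
  · rw [h1, h2]; exact hq

end

end Pool.Agent.Work.D9
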