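import Mathlib
import Pool.Agent.Work.MP_b62148_ag.D9.Alg

/-!
Module (b) of D9: comparison with intrinsic data.
-/

namespace Pool.Agent.Work.D9

open MvPolynomial Matrix

theorem adj_col_cross {S : Type*} [CommRing S] (R : Matrix (Fin 3) (Fin 3) S) (u : Fin 3 → S)
    (h : R *ᵥ u = 0) (j : Fin 3) : (fun i => adjugate R i j) ⨯₃ u = 0 := by
  have h0 := congrFun h 0
  have h1 := congrFun h 1
  have h2 := congrFun h 2
  rw [mulVec_ext_fin3] at h0 h1 h2
  simp only [Pi.zero_apply] at h0 h1 h2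
  rw [Matrix.adjugate_fin_three]
  ext k
  fin_cases j <;> fin_cases k <;> simp [cross_apply]
  · linear_combination (R 2 0) * h1 - (R 1 0) * h2
  · linear_combination (R 2 1) * h1 - (R 1 1) * h2
  · linear_combination (R 2 2) * h1 - (R 1 2) * h2
  · linear_combination (R 0 0) * h2 - (R 2 0) * h0
  · linear_combination (R 0 1) * h2 - (R 2 1) * h0
  · linear_combination (R 0 2) * h2 - (R 2 2) * h0
  · linear_combination (R 1 0) * h0 - (R 0 0) * h1
  · linear_combination (R 1 1) * h0 - (R 0 1) * h1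
  · linear_combination (R 1 2) * h0 - (R 0 2) * h1

section field

variable {F : Type*} [Field F]

theorem ker_one_dim (R : Matrix (Fin 3) (Fin 3) F) (hR : adjugate R ≠ 0) (u v : Fin 3 → F)
    (hu0 : u ≠ 0) (hu : R *ᵥ u = 0) (hv : R *ᵥ v = 0) : ∃ c : F, v = c • u := by
  obtain ⟨j, hj⟩ : ∃ j, (fun i => adjugate R i j) ≠ 0 := by
    by_contra hcon
    push Not at hcon
    apply hR
    ext i j
    exact congrFun (hcon j) i
  have key : ∀ z : Fin 3 → F, R *ᵥ z = 0 → ∃ a : F, a • (fun i => adjugate R i j) = z := by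
    intro z hz
    have h1 := adj_col_cross R z hz j
    by_contra hcon
    push Not at hcon
    have h2 : LinearIndependent F ![(fun i => adjugate R i j), z] :=
      (LinearIndependent.pair_iff' hj).mpr hcon
    exact (crossProduct_ne_zero_iff_linearIndependent.mpr h2) h1
  obtain ⟨a, ha⟩ := key u hu
  obtain ⟨b, hb⟩ := key v hv
  have ha0 : a ≠ 0 := by
    rintro rfl
    apply hu0
    rw [← ha, zero_smul]
  refine ⟨b / a, ?_⟩
  rw [← ha, ← hb, smul_smul, div_mul_cancel₀ b ha0]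

theorem lker_one_dim (R : Matrix (Fin 3) (Fin 3) F) (hR : adjugate R ≠ 0) (u v : Fin 3 → F)
    (hu0 : u ≠ 0) (hu : u ᵥ* R = 0) (hv : v ᵥ* R = 0) : ∃ c : F, v = c • u := by
  refine ker_one_dim Rᵀ ?_ u v hu0 ?_ ?_
  · rw [← Matrix.adjugate_transpose]
    intro h
    apply hR
    rw [← Matrix.transpose_transpose (adjugate R), h, Matrix.transpose_zero]
  · rw [Matrix.mulVec_transpose]; exact hu
  · rw [Matrix.mulVec_transpose]; exact hv

/-- the adjugate of a matrix with kernels `a`, `l` is `γ a lᵀ` -/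
theorem adj_rank_one (M : Matrix (Fin 3) (Fin 3) F) (hM : adjugate M ≠ 0) (a l : Fin 3 → F)
    (ha0 : a ≠ 0) (hl0 : l ≠ 0) (ha : M *ᵥ a = 0) (hl : l ᵥ* M = 0) :
    ∃ γ : F, γ ≠ 0 ∧ adjugate M = γ • vecMulVec a l := by
  have hdet : M.det = 0 := Matrix.exists_mulVec_eq_zero_iff.mp ⟨a, ha0, ha⟩
  have h1 : ∀ j, ∃ c : F, (adjugate M *ᵥ Pi.single j 1) = c • a := by
    intro j
    refine ker_one_dim M hM a _ ha0 ha ?_
    rw [Matrix.mulVec_mulVec, Matrix.mul_adjugate, hdet, zero_smul, Matrix.zero_mulVec]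
  choose z hz using h1
  have h2 : adjugate M = vecMulVec a z := by
    ext i j
    have := congrFun (hz j) i
    rw [Matrix.mulVec_single_one] at this
    simp only [Matrix.col_apply, Pi.smul_apply, smul_eq_mul] at this
    rw [this, vecMulVec_apply, mul_comm]
  have h3 : z ᵥ* M = 0 := by
    have h4 : adjugate M * M = 0 := by rw [Matrix.adjugate_mul, hdet, zero_smul]
    rw [h2, Matrix.vecMulVec_mul] at h4
    obtain ⟨k, hk⟩ : ∃ k, a k ≠ 0 := by
      by_contra hcon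
      push Not at hcon
      exact ha0 (funext hcon)
    ext j
    have h5 := congrFun (congrFun h4 k) j
    rw [vecMulVec_apply] at h5
    rcases mul_eq_zero.mp h5 with h | h
    · exact absurd h hk
    · exact h
  obtain ⟨γ, hγ⟩ := lker_one_dim M hM l z hl0 hl h3
  refine ⟨γ, ?_, ?_⟩
  · rintro rfl
    apply hM
    rw [h2, hγ, zero_smul]
    ext i j
    simp [vecMulVec_apply]
  · rw [h2, hγ]
    ext i j
    simp only [vecMulVec_apply, Matrix.smul_apply, Pi.smul_apply, smul_eq_mul]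
    ring

variable (B : Fin 3 → Matrix (Fin 3) (Fin 3) F)
  (n : Fin 3 → Fin 3 × Fin 3 → Fin 3 × Fin 3 → F) (xi et ze l : Fin 3 → F)

/-- (b3) comparison with intrinsic data: `B0` is a non zero multiple of `flexval` and, if `flexval`
vanishes, `C0` is a non zero multiple of `endval`. -/
theorem compare (p m a g : Fin 3 → F) (h : Cfg B n l p m a g)
    (hR : adjugate (rows B l) ≠ 0) (hB : adjugate (∑ i, m i • B i) ≠ 0)
    (hlam : lam B xi et ze l ≠ 0) :
    aa B et ze l ≠ 0 ∧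
    (∃ c : F, c ≠ 0 ∧ B0 B n xi et ze l = c * flexval n l p a g) ∧
    (flexval n l p a g = 0 → ∃ c : F, c ≠ 0 ∧ C0 B n xi et ze l = c * endval n l p a g) ∧
    (∃ c : F, c ≠ 0 ∧ xx l (om1 B n xi l) = c • (Nrow n (vecMulVec p l) ⨯₃ l)) := by
  have hdet : (rows B l).det = 0 := Matrix.exists_mulVec_eq_zero_iff.mp ⟨p, h.p0, h.hp⟩
  have hzel : ze ⬝ᵥ l ≠ 0 := fun h0 => hlam (by rw [lam, h0, zero_mul])
  have hkap : kap B xi et l ≠ 0 := fun h0 => hlam (by rw [lam, h0, mul_zero])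
  -- `pp = c1 p`
  obtain ⟨c1, hc1⟩ := ker_one_dim (rows B l) hR p (pp B xi l) h.p0 h.hp
    (rows_mulVec_pp B xi l hdet)
  have hc10 : c1 ≠ 0 := by
    rintro rfl
    apply hkap
    rw [kap, hc1, zero_smul, dotProduct_zero]
  -- `mm = d m`
  obtain ⟨d, hd⟩ := lker_one_dim (rows B l) hR m (mm B et l) h.m0 h.hm
    (vecMul_rows_mm B et l hdet)
  have hd0 : d ≠ 0 := by
    rintro rfl
    apply hkap
    have : kap B xi et l = mm B et l ⬝ᵥ xi := by
      rw [kap, pp, Matrix.dotProduct_mulVec]; rfl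
    rw [this, hd, zero_smul, zero_dotProduct]
  -- `aa = c2 a`
  have hBm : Bm B et l = d • ∑ i, m i • B i := by
    rw [Bm, hd, Finset.smul_sum]
    refine Finset.sum_congr rfl fun i _ => ?_
    rw [Pi.smul_apply, smul_assoc]
  obtain ⟨γ, hγ0, hγ⟩ := adj_rank_one (∑ i, m i • B i) hB a l h.a0 h.l0 h.ha
    (by rw [vecMul_comb]; exact h.hm)
  obtain ⟨c2, hc20, hc2⟩ : ∃ c2 : F, c2 ≠ 0 ∧ aa B et ze l = c2 • a := by
    refine ⟨d ^ 2 * γ * (l ⬝ᵥ ze), ?_, ?_⟩
    · refine mul_ne_zero (mul_ne_zero (pow_ne_zero 2 hd0) hγ0) ?_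
      rw [dotProduct_comm]; exact hzel
    · rw [aa, hBm, Matrix.adjugate_smul, hγ, Matrix.smul_mulVec, Matrix.smul_mulVec,
        Matrix.vecMulVec_mulVec]
      ext j
      simp
      ring
  -- `vv = c1 v`
  have hvv : vv B xi l = c1 • vecMulVec p l := by
    rw [vv, hc1]
    ext i j
    simp only [vecMulVec_apply, Pi.smul_apply, smul_eq_mul, Matrix.smul_apply]
    ring
  have hom1 : om1 B n xi l = c1 ^ 2 • Nrow n (vecMulVec p l) := by
    rw [om1, hvv, Nrow_smul]
  have hxx : xx l (om1 B n xi l) = c1 ^ 2 • (Nrow n (vecMulVec p l) ⨯₃ l) := by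
    rw [hom1, xx_smul]; rfl
  -- `yy = γ' y + c3 v`
  set y : Matrix (Fin 3) (Fin 3) F :=
    vecMulVec a (Nrow n (vecMulVec p l)) + vecMulVec g l with hy
  set γ' : F := lam B xi et ze l * c2 * c1 ^ 2 with hγ'
  have hγ'0 : γ' ≠ 0 := mul_ne_zero (mul_ne_zero hlam hc20) (pow_ne_zero 2 hc10)
  have hdiff : yy B xi et ze l (om1 B n xi l) =
      γ' • y + vecMulVec (gg B xi et ze l (om1 B n xi l) - γ' • g) l := by
    rw [yy, hc2, hy]
    nth_rw 1 [hom1]
    ext i j
    simp only [vecMulVec_apply, Pi.smul_apply, smul_eq_mul, Matrix.smul_apply, Matrix.add_apply,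
      Pi.sub_apply]
    rw [hγ']
    ring
  obtain ⟨c3, hc3⟩ : ∃ c3 : F, gg B xi et ze l (om1 B n xi l) - γ' • g = c3 • p := by
    refine ker_one_dim (rows B l) hR p _ h.p0 h.hp ?_
    ext i
    rw [← trB_vecMulVec]
    have h1 := trB_yy B xi et ze l hdet (om1 B n xi l) i
    rw [hdiff, trB_add, trB_smul, hy, h.tr i, mul_zero, zero_add] at h1
    exact h1
  have hyy : yy B xi et ze l (om1 B n xi l) = γ' • y + c3 • vecMulVec p l := by
    rw [hdiff, hc3]
    congr 1
    ext i j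
    simp only [vecMulVec_apply, Pi.smul_apply, smul_eq_mul, Matrix.smul_apply]
    ring
  have hq0 : qf n (Nrow n (vecMulVec p l) ⨯₃ l) (vecMulVec p l) (vecMulVec p l) = 0 := by
    rw [qf_self]
    exact cross_dot_left _ _
  refine ⟨?_, ⟨c1 ^ 3 * γ', mul_ne_zero (pow_ne_zero 3 hc10) hγ'0, ?_⟩, ?_,
    ⟨c1 ^ 2, pow_ne_zero 2 hc10, hxx⟩⟩
  · rw [hc2]
    exact smul_ne_zero hc20 h.a0
  · rw [B0, sf, hxx, hvv, hyy]
    simp only [qf_smul_left, qf_smul_mid, qf_smul_right, qf_add_mid, qf_add_right, hq0]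
    rw [flexval, sf, ← hy]
    ring
  · intro hf
    refine ⟨c1 ^ 2 * γ' ^ 2, mul_ne_zero (pow_ne_zero 2 hc10) (pow_ne_zero 2 hγ'0), ?_⟩
    rw [flexval, sf, ← hy] at hf
    rw [C0, hxx, hyy]
    simp only [qf_smul_left, qf_smul_mid, qf_smul_right, qf_add_mid, qf_add_right, hq0]
    rw [endval, ← hy]
    linear_combination (c1 ^ 2 * γ' * c3) * hf

end field

end Pool.Agent.Work.D9
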