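import Mathlib
import Pool.Agent.Work.MP_b62148_ag.D9.JA

/-!
Module (d) of D9: combinations of the `B_i` have rank at least two; auxiliary vectors.
-/

namespace Pool.Agent.Work.D9

open MvPolynomial Matrix

section

variable {Ω : Type*} [Field Ω]

theorem minors_zero {M : Matrix (Fin 3) (Fin 3) Ω} (h : adjugate M = 0) (i r c j : Fin 3) :
    M i c * M r j = M i j * M r c := by
  rw [adjugate_fin_three] at h
  have h00 := congrFun (congrFun h 0) 0
  have h01 := congrFun (congrFun h 0) 1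
  have h02 := congrFun (congrFun h 0) 2
  have h10 := congrFun (congrFun h 1) 0
  have h11 := congrFun (congrFun h 1) 1
  have h12 := congrFun (congrFun h 1) 2
  have h20 := congrFun (congrFun h 2) 0
  have h21 := congrFun (congrFun h 2) 1
  have h22 := congrFun (congrFun h 2) 2
  simp [Matrix.of_apply, Matrix.cons_val_zero] at h00 h01 h02 h10 h11 h12 h20 h21 h22
  fin_cases i <;> fin_cases r <;> fin_cases c <;> fin_cases j <;>
    simp only [Fin.zero_eta, Fin.mk_one, Fin.reduceFinMk] <;>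
    first
    | ring1
    | linear_combination h00
    | linear_combination (-1 : Ω) * h00
    | linear_combination h01
    | linear_combination (-1 : Ω) * h01
    | linear_combination h02
    | linear_combination (-1 : Ω) * h02
    | linear_combination h10
    | linear_combination (-1 : Ω) * h10
    | linear_combination h11
    | linear_combination (-1 : Ω) * h11
    | linear_combination h12
    | linear_combination (-1 : Ω) * h12
    | linear_combination h20
    | linear_combination (-1 : Ω) * h20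
    | linear_combination h21
    | linear_combination (-1 : Ω) * h21
    | linear_combination h22
    | linear_combination (-1 : Ω) * h22

theorem exists_plane {M : Matrix (Fin 3) (Fin 3) Ω} (h : adjugate M = 0) :
    ∃ u : Fin 3 → Ω, u ≠ 0 ∧ ∀ l : Fin 3 → Ω, l ⬝ᵥ u = 0 → l ᵥ* M = 0 := by
  by_cases hM : M = 0
  · refine ⟨Pi.single 0 1, ?_, fun l _ => ?_⟩
    · intro h1
      have := congrFun h1 0
      simp at this
    · rw [hM, vecMul_zero]
  · obtain ⟨r, hr⟩ := Function.ne_iff.1 hM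
    obtain ⟨c, hc⟩ := Function.ne_iff.1 hr
    have hc' : M r c ≠ 0 := hc
    refine ⟨fun i => M i c, fun h1 => hc' (congrFun h1 r), fun l hl => ?_⟩
    funext j
    have h2 : M r c * (l ᵥ* M) j = 0 := by
      have h3 : M r c * (l ᵥ* M) j = M r j * (l ⬝ᵥ fun i => M i c) := by
        simp only [vecMul, dotProduct, Finset.mul_sum]
        refine Finset.sum_congr rfl fun i _ => ?_
        have := minors_zero h i r c j
        linear_combination (-l i) * this
      rw [h3, hl, mul_zero]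
    exact (mul_eq_zero.1 h2).resolve_left hc'

theorem rows_vecMul (B : Fin 3 → Matrix (Fin 3) (Fin 3) Ω) (m l : Fin 3 → Ω) :
    m ᵥ* rows B l = l ᵥ* ∑ i, m i • B i := by
  funext j
  simp only [vecMul, dotProduct, rows, Matrix.of_apply, Matrix.sum_apply, Matrix.smul_apply,
    smul_eq_mul, Fin.sum_univ_three]
  ring

theorem rows_add (B : Fin 3 → Matrix (Fin 3) (Fin 3) Ω) (a b : Fin 3 → Ω) :
    rows B (a + b) = rows B a + rows B b := by
  ext i j
  simp only [rows, Matrix.of_apply, Matrix.add_apply, Pi.add_apply, add_mul,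
    Finset.sum_add_distrib]

theorem rows_smul (B : Fin 3 → Matrix (Fin 3) (Fin 3) Ω) (c : Ω) (a : Fin 3 → Ω) :
    rows B (c • a) = c • rows B a := by
  ext i j
  simp only [rows, Matrix.of_apply, Matrix.smul_apply, Pi.smul_apply, smul_eq_mul,
    Finset.mul_sum, mul_assoc]

theorem quad_trace (R R' S : Matrix (Fin 3) (Fin 3) Ω) :
    ∃ α β γ : Ω, ∀ s t : Ω, (adjugate (s • R + t • R') * S).trace =
      α * s ^ 2 + β * (s * t) + γ * t ^ 2 := by
  refine ⟨(adjugate R * S).trace, (adjugate (R + R') * S).trace - (adjugate R * S).trace -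
    (adjugate R' * S).trace, (adjugate R' * S).trace, fun s t => ?_⟩
  simp only [adjugate_fin_three, trace_fin_three, Matrix.mul_apply, Fin.sum_univ_three,
    Matrix.of_apply, Matrix.add_apply, Matrix.smul_apply, smul_eq_mul]
  simp
  ring

theorem binary_zero [IsAlgClosed Ω] (α β γ : Ω) :
    ∃ s t : Ω, (s ≠ 0 ∨ t ≠ 0) ∧ α * s ^ 2 + β * (s * t) + γ * t ^ 2 = 0 := by
  by_cases hγ : γ = 0
  · exact ⟨0, 1, Or.inr one_ne_zero, by rw [hγ]; ring⟩
  · obtain ⟨t, ht⟩ := IsAlgClosed.exists_root (Polynomial.C γ * Polynomial.X ^ 2 +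
      Polynomial.C β * Polynomial.X + Polynomial.C α) (by
        rw [Polynomial.degree_quadratic hγ]
        norm_num)
    refine ⟨1, t, Or.inl one_ne_zero, ?_⟩
    have h1 : γ * t ^ 2 + β * t + α = 0 := by simpa [Polynomial.IsRoot.def] using ht
    linear_combination h1

/-- (d2) if the cubic is smooth, all non zero combinations of the `B_i` have rank at least two. -/
theorem adj_comb_ne [IsAlgClosed Ω] (B : Fin 3 → Matrix (Fin 3) (Fin 3) Ω)
    (hs : ∀ l : Fin 3 → Ω, l ≠ 0 → eval l (jc B) = 0 → ∃ i, eval l (pderiv i (jc B)) ≠ 0)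
    (m : Fin 3 → Ω) (hm : m ≠ 0) : adjugate (∑ i, m i • B i) ≠ 0 := by
  intro hadj
  obtain ⟨u, hu, hker⟩ := exists_plane hadj
  have hker' : ∀ l : Fin 3 → Ω, l ⬝ᵥ u = 0 → m ᵥ* rows B l = 0 := fun l hl => by
    rw [rows_vecMul]
    exact hker l hl
  obtain ⟨r, hr⟩ := Function.ne_iff.1 hu
  rw [Pi.zero_apply] at hr
  -- vectors of the plane
  set w : Fin 3 → Fin 3 → Ω := fun i => u r • Pi.single i 1 - u i • Pi.single r 1 with hw
  have hwu : ∀ i, w i ⬝ᵥ u = 0 := by
    intro i
    rw [hw]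
    simp only [sub_dotProduct, smul_dotProduct, single_dotProduct, one_mul, smul_eq_mul]
    ring
  obtain ⟨α, β, γ, hq⟩ := quad_trace (rows B (w (r + 1))) (rows B (w (r + 2)))
    (rows B (Pi.single r 1))
  obtain ⟨s, t, hst, h0⟩ := binary_zero α β γ
  set l : Fin 3 → Ω := s • w (r + 1) + t • w (r + 2) with hl
  have hlu : l ⬝ᵥ u = 0 := by
    rw [hl, add_dotProduct, smul_dotProduct, smul_dotProduct, hwu, hwu, smul_zero, smul_zero,
      add_zero]
  have hr1 : r + 1 ≠ r := by fin_cases r <;> decide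
  have hr2 : r + 2 ≠ r := by fin_cases r <;> decide
  have hr12 : r + 1 ≠ r + 2 := by fin_cases r <;> decide
  have hl0 : l ≠ 0 := by
    intro h
    rcases hst with hs' | ht'
    · have := congrFun h (r + 1)
      simp [hl, hw, hr1, hr12] at this
      rcases this with h1 | h1
      · exact hs' h1
      · exact hr h1
    · have := congrFun h (r + 2)
      simp [hl, hw, hr2, hr12.symm] at this
      rcases this with h1 | h1
      · exact ht' h1
      · exact hr h1
  have hdet : eval l (jc B) = 0 := by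
    rw [eval_jc]
    exact (Matrix.exists_vecMul_eq_zero_iff).1 ⟨m, hm, hker' l hlu⟩
  obtain ⟨i, hi⟩ := hs l hl0 hdet
  apply hi
  rw [eval_pderiv_jc]
  have hr0 : (adjugate (rows B l) * rows B (Pi.single r 1)).trace = 0 := by
    rw [hl, rows_add, rows_smul, rows_smul, hq, h0]
  have hi0 : (adjugate (rows B l) * rows B (w i)).trace = 0 :=
    trace_adj_zero hm (hker' l hlu) (hker' _ (hwu i))
  have hlin : (adjugate (rows B l) * rows B (w i)).trace =
      u r * (adjugate (rows B l) * rows B (Pi.single i 1)).trace -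
      u i * (adjugate (rows B l) * rows B (Pi.single r 1)).trace := by
    have hrw : rows B (w i) = u r • rows B (Pi.single i 1) +
        (-u i) • rows B (Pi.single r 1) := by
      rw [← rows_smul, ← rows_smul, ← rows_add, neg_smul, ← sub_eq_add_neg]
    rw [hrw, Matrix.mul_add, Matrix.mul_smul, Matrix.mul_smul,
      trace_add, trace_smul, trace_smul, smul_eq_mul, smul_eq_mul]
    ring
  rw [hi0, hr0, mul_zero, sub_zero] at hlin
  exact (mul_eq_zero.1 hlin.symm).resolve_left hr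

/-! ### auxiliary vectors -/

theorem exists_two {E F G : Type*} [AddCommGroup E] [AddCommGroup F] [AddCommGroup G]
    (f : E →+ F) (g : E →+ G) (hf : ∃ v, f v ≠ 0) (hg : ∃ v, g v ≠ 0) :
    ∃ v, f v ≠ 0 ∧ g v ≠ 0 := by
  obtain ⟨v, hv⟩ := hf
  obtain ⟨w, hw⟩ := hg
  by_cases h1 : g v = 0
  · by_cases h2 : f w = 0
    · exact ⟨v + w, by rw [map_add, h2, add_zero]; exact hv,
        by rw [map_add, h1, zero_add]; exact hw⟩
    · exact ⟨w, h2, hw⟩
  · exact ⟨v, hv, h1⟩

theorem exists_dot {a : Fin 3 → Ω} (ha : a ≠ 0) : ∃ v : Fin 3 → Ω, v ⬝ᵥ a ≠ 0 := by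
  obtain ⟨i, hi⟩ := Function.ne_iff.1 ha
  exact ⟨Pi.single i 1, by rw [single_dotProduct, one_mul]; exact hi⟩

theorem exists_dot_two {a b : Fin 3 → Ω} (ha : a ≠ 0) (hb : b ≠ 0) :
    ∃ v : Fin 3 → Ω, v ⬝ᵥ a ≠ 0 ∧ v ⬝ᵥ b ≠ 0 := by
  have h := exists_two (E := Fin 3 → Ω)
    (AddMonoidHom.mk' (fun v : Fin 3 → Ω => v ⬝ᵥ a) (fun x y => add_dotProduct x y a))
    (AddMonoidHom.mk' (fun v : Fin 3 → Ω => v ⬝ᵥ b) (fun x y => add_dotProduct x y b))
    (exists_dot ha) (exists_dot hb)
  exact h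

theorem exists_mulVec {M : Matrix (Fin 3) (Fin 3) Ω} (hM : M ≠ 0) :
    ∃ v : Fin 3 → Ω, M *ᵥ v ≠ 0 := by
  obtain ⟨r, hr⟩ := Function.ne_iff.1 hM
  obtain ⟨c, hc⟩ := Function.ne_iff.1 hr
  refine ⟨Pi.single c 1, fun h => hc ?_⟩
  have := congrFun h r
  simpa using this

/-- (d4) choice of the auxiliary vectors. -/
theorem exists_aux (B : Fin 3 → Matrix (Fin 3) (Fin 3) Ω) (l₀ l₁ : Fin 3 → Ω)
    (h0 : l₀ ≠ 0) (h1 : l₁ ≠ 0) (hR0 : adjugate (rows B l₀) ≠ 0)
    (hR1 : adjugate (rows B l₁) ≠ 0) :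
    ∃ xi et ze : Fin 3 → Ω, lam B xi et ze l₀ ≠ 0 ∧ lam B xi et ze l₁ ≠ 0 := by
  obtain ⟨xi, hx0, hx1⟩ : ∃ v : Fin 3 → Ω, adjugate (rows B l₀) *ᵥ v ≠ 0 ∧
      adjugate (rows B l₁) *ᵥ v ≠ 0 := by
    have h := exists_two (E := Fin 3 → Ω)
      (AddMonoidHom.mk' (fun v : Fin 3 → Ω => adjugate (rows B l₀) *ᵥ v)
        (fun x y => mulVec_add _ x y))
      (AddMonoidHom.mk' (fun v : Fin 3 → Ω => adjugate (rows B l₁) *ᵥ v)
        (fun x y => mulVec_add _ x y))
      (exists_mulVec hR0) (exists_mulVec hR1)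
    exact h
  obtain ⟨et, he0, he1⟩ := exists_dot_two hx0 hx1
  obtain ⟨ze, hz0, hz1⟩ := exists_dot_two h0 h1
  exact ⟨xi, et, ze, mul_ne_zero hz0 he0, mul_ne_zero hz1 he1⟩

end

end Pool.Agent.Work.D9
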