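import Mathlib
import Pool.Agent.Work.MP_b62148_ag.HS
import Pool.Agent.Work.MP_b62148_ag.Quintic.IrredQ

/-!
Module (d) of D9: a smooth plane cubic and a form not vanishing on it have finitely many common
zeros.
-/

namespace Pool.Agent.Work.D9

open MvPolynomial

section

variable {Ω : Type*} [Field Ω]

theorem irred_cubic [IsAlgClosed Ω] (D : MvPolynomial (Fin 3) Ω) (hD : D.IsHomogeneous 3)
    (hs : ∀ l : Fin 3 → Ω, l ≠ 0 → eval l D = 0 → ∃ i, eval l (pderiv i D) ≠ 0) :
    Irreducible D := by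
  classical
  have hF0 : D ≠ 0 := by
    rintro rfl
    obtain ⟨i, hi⟩ := hs (fun _ => 1) (fun h => one_ne_zero (congrFun h 0)) (map_zero _)
    simp at hi
  have hc0 : coeff 0 D = 0 := hD.coeff_eq_zero (by simp)
  refine ⟨?_, ?_⟩
  · intro hu
    rw [isUnit_iff_totalDegree_of_isReduced, hc0] at hu
    exact not_isUnit_zero hu.1
  · intro a b hab
    by_cases ha : coeff 0 a = 0
    · by_cases hb : coeff 0 b = 0
      · exfalso
        have hz : ∀ p : MvPolynomial (Fin 3) Ω, coeff 0 p = 0 → eval 0 p = 0 := by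
          intro p hp
          rw [← constantCoeff_eq] at hp
          rw [← hp]
          simp
        obtain ⟨x, hx0, hx⟩ := PD.exists_common_zero (n := 3) (m := 2) (by omega) ![a, b] (by
          intro i
          fin_cases i
          · exact hz a ha
          · exact hz b hb)
        have hxa : eval x a = 0 := hx 0
        have hxb : eval x b = 0 := hx 1
        obtain ⟨i, hi⟩ := hs x hx0 (by rw [hab, map_mul, hxa, zero_mul])
        apply hi
        rw [hab, pderiv_mul, map_add, map_mul, map_mul, hxa, hxb, zero_mul, mul_zero, add_zero]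
      · right
        exact PD5.isUnit_of_coeff_ne_zero hD hF0 (by rw [hab, mul_comm]) hb
    · left
      exact PD5.isUnit_of_coeff_ne_zero hD hF0 hab ha

/-- the ideal of the line through `0` and `l` -/
noncomputable def lineIdeal (l : Fin 3 → Ω) : Ideal (MvPolynomial (Fin 3) Ω) :=
  RingHom.ker (aeval (fun i => Polynomial.C (l i) * Polynomial.X) :
    MvPolynomial (Fin 3) Ω →ₐ[Ω] Polynomial Ω)

instance (l : Fin 3 → Ω) : (lineIdeal l).IsPrime := RingHom.ker_isPrime _

theorem eval_line (l : Fin 3 → Ω) (c : Ω) (p : MvPolynomial (Fin 3) Ω) :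
    Polynomial.eval c (aeval (fun i => Polynomial.C (l i) * Polynomial.X) p) =
      eval (c • l) p := by
  induction p using MvPolynomial.induction_on with
  | C a => simp
  | add p q hp hq => simp [hp, hq]
  | mul_X p i hp =>
    rw [map_mul, Polynomial.eval_mul, hp, map_mul, aeval_X, eval_X, Polynomial.eval_mul,
      Polynomial.eval_C, Polynomial.eval_X, Pi.smul_apply, smul_eq_mul, mul_comm c]

theorem mem_lineIdeal [Infinite Ω] (l : Fin 3 → Ω) (p : MvPolynomial (Fin 3) Ω) :
    p ∈ lineIdeal l ↔ ∀ c : Ω, eval (c • l) p = 0 := by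
  unfold lineIdeal
  rw [RingHom.mem_ker]
  constructor
  · intro h c
    rw [← eval_line]
    have h' : aeval (fun i => Polynomial.C (l i) * Polynomial.X) p = (0 : Polynomial Ω) := h
    rw [h', Polynomial.eval_zero]
  · intro h
    refine Polynomial.funext fun c => ?_
    rw [Polynomial.eval_zero]
    exact (eval_line l c p).trans (h c)

theorem height_lineIdeal [IsAlgClosed Ω] {l : Fin 3 → Ω} (hl : l ≠ 0) :
    (lineIdeal l).height ≤ 2 := by
  have : Infinite Ω := IsAlgClosed.instInfinite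
  let M : Ideal (MvPolynomial (Fin 3) Ω) := vanishingIdeal Ω {(0 : Fin 3 → Ω)}
  have hMmax : M.IsMaximal := isMaximal_iff_eq_vanishingIdeal_singleton.mpr ⟨0, rfl⟩
  have hMp : M.IsPrime := hMmax.isPrime
  have hlt : lineIdeal l < M := by
    refine lt_of_le_of_ne ?_ ?_
    · intro p hp
      rw [mem_lineIdeal] at hp
      have h0 := hp 0
      rw [zero_smul] at h0
      show p ∈ vanishingIdeal Ω {(0 : Fin 3 → Ω)}
      rw [mem_vanishingIdeal_singleton_iff]
      exact h0
    · intro h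
      obtain ⟨i, hi⟩ := Function.ne_iff.1 hl
      apply hi
      have h1 : (X i : MvPolynomial (Fin 3) Ω) ∈ M := by
        show X i ∈ vanishingIdeal Ω {(0 : Fin 3 → Ω)}
        rw [mem_vanishingIdeal_singleton_iff]
        simp
      rw [← h, mem_lineIdeal] at h1
      have := h1 1
      simpa using this
  have h1 := Ideal.height_add_one_le_of_lt_of_isPrime hlt
  have h3 : M.height ≤ ((3 : ℕ) : ℕ∞) := by
    have h3 := Ideal.height_le_ringKrullDim_of_isPrime (I := M)
    rw [MvPolynomial.ringKrullDim_of_isNoetherianRing, ringKrullDim_eq_zero_of_field, zero_add,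
      Nat.card_eq_fintype_card, Fintype.card_fin] at h3
    exact WithBot.coe_le_coe.1 h3
  have h4 : (lineIdeal l).height + 1 ≤ 2 + 1 := h1.trans (h3.trans (by norm_num))
  exact (ENat.add_le_add_iff_right (by simp)).1 h4

theorem eval_smul_cubic {D : MvPolynomial (Fin 3) Ω} {m : ℕ} (hD : D.IsHomogeneous m) (c : Ω)
    (l : Fin 3 → Ω) : eval (c • l) D = c ^ m * eval l D := by
  rw [eval_eq, eval_eq, Finset.mul_sum]
  refine Finset.sum_congr rfl fun d hd => ?_
  have h1 : ∏ i ∈ d.support, (c • l) i ^ d i = c ^ m * ∏ i ∈ d.support, l i ^ d i := by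
    simp only [Pi.smul_apply, smul_eq_mul, mul_pow, Finset.prod_mul_distrib,
      Finset.prod_pow_eq_pow_sum]
    congr 2
    have := hD (mem_support_iff.1 hd)
    rw [← this, Finsupp.weight_apply, Finsupp.sum]
    simp
  rw [h1]
  ring

theorem two_le_height (D Φ : MvPolynomial (Fin 3) Ω) (hD : Prime D) (hΦ : ¬ D ∣ Φ)
    (q : Ideal (MvPolynomial (Fin 3) Ω)) [q.IsPrime] (h1 : D ∈ q) (h2 : Φ ∈ q) :
    2 ≤ q.height := by
  have hp : (Ideal.span {D}).IsPrime := (Ideal.span_singleton_prime hD.ne_zero).2 hD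
  have hb : (⊥ : Ideal (MvPolynomial (Fin 3) Ω)) < Ideal.span {D} := by
    rw [bot_lt_iff_ne_bot, Ne, Ideal.span_singleton_eq_bot]
    exact hD.ne_zero
  have hq : Ideal.span {D} < q := by
    refine lt_of_le_of_ne ((Ideal.span_singleton_le_iff_mem q).2 h1) ?_
    intro h
    rw [← h, Ideal.mem_span_singleton] at h2
    exact hΦ h2
  have e1 := Ideal.height_add_one_le_of_lt_of_isPrime hb
  have e2 := Ideal.height_add_one_le_of_lt_of_isPrime hq
  rw [Ideal.height_bot, zero_add] at e1
  calc (2 : ℕ∞) = 1 + 1 := by norm_num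
    _ ≤ (Ideal.span {D}).height + 1 := add_le_add_left e1 1
    _ ≤ q.height := e2

theorem finite_lines [IsAlgClosed Ω] (D Φ : MvPolynomial (Fin 3) Ω)
    (hD : D.IsHomogeneous 3)
    (hs : ∀ l : Fin 3 → Ω, l ≠ 0 → eval l D = 0 → ∃ i, eval l (pderiv i D) ≠ 0)
    (N : ℕ) (hΦ : ∀ (c : Ω) (l : Fin 3 → Ω), eval (c • l) Φ = c ^ N * eval l Φ)
    (l₁ : Fin 3 → Ω) (h₁ : eval l₁ D = 0) (h₁' : eval l₁ Φ ≠ 0) :
    ∀ l : Fin 3 → Ω, l ≠ 0 → eval l D = 0 → eval l Φ = 0 →
      lineIdeal l ∈ (Ideal.span {D, Φ}).minimalPrimes := by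
  intro l hl h1 h2
  have : Infinite Ω := IsAlgClosed.instInfinite
  have hirr := irred_cubic D hD hs
  have hprime : Prime D := hirr.prime
  have hnd : ¬ D ∣ Φ := by
    rintro ⟨c, hc⟩
    apply h₁'
    rw [hc, map_mul, h₁, zero_mul]
  have hle : Ideal.span {D, Φ} ≤ lineIdeal l := by
    rw [Ideal.span_le]
    rintro p hp
    rcases hp with rfl | hp
    · rw [SetLike.mem_coe, mem_lineIdeal]
      intro c
      rw [eval_smul_cubic hD, h1, mul_zero]
    · rw [Set.mem_singleton_iff.1 hp, SetLike.mem_coe, mem_lineIdeal]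
      intro c
      rw [hΦ, h2, mul_zero]
  obtain ⟨q, hq, hql⟩ := Ideal.exists_minimalPrimes_le hle
  have hqp : q.IsPrime := hq.1.1
  have hDq : D ∈ q := hq.1.2 (Ideal.subset_span (Set.mem_insert _ _))
  have hΦq : Φ ∈ q := hq.1.2 (Ideal.subset_span (Set.mem_insert_of_mem _ rfl))
  have e1 := two_le_height D Φ hprime hnd q hDq hΦq
  have e2 := height_lineIdeal hl
  have : q = lineIdeal l := Ideal.eq_of_le_of_height_le q hql (e2.trans e1)
  rw [← this]
  exact hq

/-- (d3) a smooth ternary cubic and a form not vanishing on it have finitely many common zeros in an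
affine chart of the plane. -/
theorem finite_chart [IsAlgClosed Ω] (D Φ : MvPolynomial (Fin 3) Ω)
    (hD : D.IsHomogeneous 3)
    (hs : ∀ l : Fin 3 → Ω, l ≠ 0 → eval l D = 0 → ∃ i, eval l (pderiv i D) ≠ 0)
    (N : ℕ) (hΦ : ∀ (c : Ω) (l : Fin 3 → Ω), eval (c • l) Φ = c ^ N * eval l Φ)
    (l₁ : Fin 3 → Ω) (h₁ : eval l₁ D = 0) (h₁' : eval l₁ Φ ≠ 0)
    (l₀ e₁ e₂ : Fin 3 → Ω) (hb : LinearIndependent Ω ![l₀, e₁, e₂]) :
    {XY : Ω × Ω | eval (l₀ + XY.1 • e₁ + XY.2 • e₂) D = 0 ∧
      eval (l₀ + XY.1 • e₁ + XY.2 • e₂) Φ = 0}.Finite := by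
  have : Infinite Ω := IsAlgClosed.instInfinite
  have hcoef : ∀ a b c : Ω, a • l₀ + b • e₁ + c • e₂ = 0 → a = 0 ∧ b = 0 ∧ c = 0 := by
    intro a b c h
    have := Fintype.linearIndependent_iff.1 hb ![a, b, c] (by
      simpa [Fin.sum_univ_three] using h)
    exact ⟨this 0, this 1, this 2⟩
  have hne : ∀ a b : Ω, l₀ + a • e₁ + b • e₂ ≠ 0 := by
    intro a b h
    have := hcoef 1 a b (by rw [one_smul]; exact h)
    exact one_ne_zero this.1
  refine Set.Finite.of_injOn (f := fun XY : Ω × Ω => lineIdeal (l₀ + XY.1 • e₁ + XY.2 • e₂))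
    (t := (Ideal.span {D, Φ}).minimalPrimes) ?_ ?_
    (Ideal.finite_minimalPrimes_of_isNoetherianRing _ _)
  · rintro ⟨a, b⟩ ⟨h1, h2⟩
    exact finite_lines D Φ hD hs N hΦ l₁ h₁ h₁' _ (hne a b) h1 h2
  · rintro ⟨a, b⟩ - ⟨a', b'⟩ - h
    simp only at h
    set l := l₀ + a • e₁ + b • e₂ with hl
    set l' := l₀ + a' • e₁ + b' • e₂ with hl'
    have hprop : ∀ i j, l j * l' i = l i * l' j := by
      intro i j
      have h1 : (C (l j) * X i - C (l i) * X j : MvPolynomial (Fin 3) Ω) ∈ lineIdeal l := by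
        rw [mem_lineIdeal]
        intro c
        simp
        ring
      rw [h, mem_lineIdeal] at h1
      have h2 := h1 1
      simp at h2
      linear_combination h2
    obtain ⟨j, hj⟩ := Function.ne_iff.1 (hne a b)
    have hj' : l j ≠ 0 := hj
    have heq : l j • l' = l' j • l := by
      funext i
      simp only [Pi.smul_apply, smul_eq_mul]
      rw [hprop i j, mul_comm]
    have h3 := hcoef (l j - l' j) (l j * a' - l' j * a) (l j * b' - l' j * b) (by
      funext i
      have h4 := congrFun heq i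
      have h5 : l i = l₀ i + a * e₁ i + b * e₂ i := rfl
      have h6 : l' i = l₀ i + a' * e₁ i + b' * e₂ i := rfl
      simp only [Pi.add_apply, Pi.smul_apply, smul_eq_mul, Pi.zero_apply] at h4 ⊢
      rw [h5, h6] at h4
      linear_combination h4)
    obtain ⟨e1, e2, e3⟩ := h3
    have e1' : l' j = l j := (sub_eq_zero.1 e1).symm
    rw [e1'] at e2 e3
    have f2 : l j * (a' - a) = 0 := by linear_combination e2
    have f3 : l j * (b' - b) = 0 := by linear_combination e3
    have g2 := (mul_eq_zero.1 f2).resolve_left hj'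
    have g3 := (mul_eq_zero.1 f3).resolve_left hj'
    rw [Prod.mk.injEq]
    exact ⟨(sub_eq_zero.1 g2).symm, (sub_eq_zero.1 g3).symm⟩

end

end Pool.Agent.Work.D9
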