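import Mathlib
import Pool.Agent.Work.MP_b62148_ag.D9.Core9
import Pool.Agent.Work.MP_b62148_ag.D9.Maps
import Pool.Agent.Work.MP_b62148_ag.D9.Val2
import Pool.Agent.Work.MP_b62148_ag.D9.NearPoints
import Pool.Agent.Work.MP_b62148_ag.D9.Cmp
import Pool.Agent.Work.MP_b62148_ag.D9.JB
import Pool.Agent.Work.MP_b62148_ag.D9.JC

/-!
Assembly of D9.
-/

namespace Pool.Agent.Work.D9

open MvPolynomial Matrix

section

theorem exists_om {F : Type*} [Field F] (B : Fin 3 → Matrix (Fin 3) (Fin 3) F)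
    (n : Fin 3 → Fin 3 × Fin 3 → Fin 3 × Fin 3 → F) (xi l : Fin 3 → F)
    (h : xx l (om1 B n xi l) ≠ 0) : ∃ om : Fin 3 → F, A2 B n xi om l ≠ 0 := by
  obtain ⟨j, hj⟩ : ∃ j, xx l (om1 B n xi l) j ≠ 0 := by
    by_contra hcon
    push Not at hcon
    exact h (funext hcon)
  refine ⟨Pi.single j 1, ?_⟩
  have : A2 B n xi (Pi.single j 1) l = -(xx l (om1 B n xi l) j) := by
    rw [A2_eq]
    unfold xx
    simp only [cross_apply, dotProduct, Fin.sum_univ_three]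
    fin_cases j <;> simp <;> ring
  rw [this]
  exact neg_ne_zero.mpr hj

theorem det_of_ker {F : Type*} [Field F] (M : Matrix (Fin 3) (Fin 3) F) (p : Fin 3 → F)
    (hp : p ≠ 0) (h : M *ᵥ p = 0) : M.det = 0 :=
  Matrix.exists_mulVec_eq_zero_iff.mp ⟨p, hp, h⟩

variable {k : Type*} [Field k] [CharZero k] {Ω : Type*} [Field Ω] [Algebra k Ω] [IsAlgClosed Ω]
  [Algebra.IsAlgebraic k Ω]

theorem main (B : Fin 3 → Matrix (Fin 3) (Fin 3) k)
    (n : Fin 3 → Fin 3 × Fin 3 → Fin 3 × Fin 3 → k)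
    (hs : ∀ l : Fin 3 → Ω, l ≠ 0 → eval l (jc (mB (algebraMap k Ω) B)) = 0 →
      ∃ i, eval l (pderiv i (jc (mB (algebraMap k Ω) B))) ≠ 0)
    (x₀ : Fin 3 → Ω) (hfib : SmoothFibre (mB (algebraMap k Ω) B) (mN (algebraMap k Ω) n) x₀)
    (l₀ p₀ m₀ a₀ g₀ : Fin 3 → Ω)
    (hc₀ : Cfg (mB (algebraMap k Ω) B) (mN (algebraMap k Ω) n) l₀ p₀ m₀ a₀ g₀)
    (hf₀ : flexval (mN (algebraMap k Ω) n) l₀ p₀ a₀ g₀ = 0)
    (he₀ : endval (mN (algebraMap k Ω) n) l₀ p₀ a₀ g₀ ≠ 0)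
    (l₁ p₁ m₁ a₁ g₁ : Fin 3 → Ω)
    (hc₁ : Cfg (mB (algebraMap k Ω) B) (mN (algebraMap k Ω) n) l₁ p₁ m₁ a₁ g₁)
    (hf₁ : flexval (mN (algebraMap k Ω) n) l₁ p₁ a₁ g₁ ≠ 0) :
    ∃ L : IntermediateField k Ω, FiniteDimensional k L ∧
      ∀ G : MvPolynomial (Fin 3 ⊕ (Fin 3 × Fin 3)) L,
        (∀ (x : Fin 3 → L) (A : Matrix (Fin 3) (Fin 3) L), x ≠ 0 → A ≠ 0 →
          IsPt (mB (algebraMap k L) B) (mN (algebraMap k L) n) x A → eval (join x A) G = 0) →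
        ∃ h : MvPolynomial (Fin 3) L, h ≠ 0 ∧
          ∀ (x : Fin 3 → Ω) (A : Matrix (Fin 3) (Fin 3) Ω),
            IsPt (mB (algebraMap k Ω) B) (mN (algebraMap k Ω) n) x A →
            aeval x h * aeval (join x A) G = 0 := by
  classical
  have : CharZero Ω := charZero_of_injective_algebraMap (algebraMap k Ω).injective
  obtain ⟨V, hV⟩ := exists_val_two Ω
  set v := V.valuation with hv
  set BO := mB (algebraMap k Ω) B with hBO
  set nO := mN (algebraMap k Ω) n with hnO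
  have hD₀ : eval l₀ (jc BO) = 0 := by rw [eval_jc]; exact det_of_ker _ p₀ hc₀.p0 hc₀.hp
  have hD₁ : eval l₁ (jc BO) = 0 := by rw [eval_jc]; exact det_of_ker _ p₁ hc₁.p0 hc₁.hp
  obtain ⟨i₀, hi₀⟩ := hs l₀ hc₀.l0 hD₀
  obtain ⟨i₁, hi₁⟩ := hs l₁ hc₁.l0 hD₁
  have hR₀ := adj_rows_ne BO l₀ i₀ hi₀
  have hR₁ := adj_rows_ne BO l₁ i₁ hi₁
  have hm₀ := adj_comb_ne BO hs m₀ hc₀.m0
  have hm₁ := adj_comb_ne BO hs m₁ hc₁.m0
  obtain ⟨xi, et, ze, hl₀, hl₁⟩ := exists_aux BO l₀ l₁ hc₀.l0 hc₁.l0 hR₀ hR₁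
  obtain ⟨haa, ⟨c, -, hcB⟩, hend, ⟨c', hc', hx'⟩⟩ :=
    compare BO nO xi et ze l₀ p₀ m₀ a₀ g₀ hc₀ hR₀ hm₀ hl₀
  obtain ⟨-, ⟨c₁, hc₁0, hcB₁⟩, -, -⟩ := compare BO nO xi et ze l₁ p₁ m₁ a₁ g₁ hc₁ hR₁ hm₁ hl₁
  have hB0 : B0 BO nO xi et ze l₀ = 0 := by rw [hcB, hf₀, mul_zero]
  have hC0 : C0 BO nO xi et ze l₀ ≠ 0 := by
    obtain ⟨c₂, hc₂, h⟩ := hend hf₀
    rw [h]; exact mul_ne_zero hc₂ he₀
  have hB1 : B0 BO nO xi et ze l₁ ≠ 0 := by rw [hcB₁]; exact mul_ne_zero hc₁0 hf₁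
  have hxx : xx l₀ (om1 BO nO xi l₀) ≠ 0 := by rw [hx']; exact smul_ne_zero hc' hc₀.x0
  obtain ⟨om, hA⟩ := exists_om BO nO xi l₀ hxx
  obtain ⟨ε, hε, hgood⟩ := near_good BO nO xi et ze om v hV l₀ hB0 hC0 hA hl₀ haa
  obtain ⟨Z, e₁, e₂, hlin, hZ, hinf⟩ := near_points v hV (jc BO) (jc_hom BO) l₀ hD₀ i₀ hi₀ ε hε
  obtain ⟨Φ, hΦ⟩ := PF.B0 BO nO xi et ze
  replace hΦ : ∀ l, B0 BO nO xi et ze l = eval l Φ := hΦ
  have hΦ' : ∀ (c : Ω) (l : Fin 3 → Ω), eval (c • l) Φ = c ^ 23 * eval l Φ := by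
    intro c l
    rw [← hΦ, ← hΦ, B0_smul]
  have hfin := finite_chart (jc BO) Φ (jc_hom BO) hs 23 hΦ' l₁ hD₁ (by rw [← hΦ]; exact hB1)
    l₀ e₁ e₂ hlin
  -- the field
  let W : Set Ω := (Z : Set Ω) ∪ (Set.range xi ∪ (Set.range et ∪ (Set.range ze ∪ Set.range om)))
  have hWfin : W.Finite := Z.finite_toSet.union ((Set.finite_range xi).union
    ((Set.finite_range et).union ((Set.finite_range ze).union (Set.finite_range om))))
  let L : IntermediateField k Ω := IntermediateField.adjoin k W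
  have hWL : W ⊆ L := IntermediateField.subset_adjoin k W
  have hfd : FiniteDimensional k L := by
    have : Finite W := hWfin
    exact IntermediateField.finiteDimensional_adjoin fun x _ => Algebra.IsIntegral.isIntegral x
  refine ⟨L, hfd, ?_⟩
  let ι : L →+* Ω := algebraMap L Ω
  have hιinj : Function.Injective ι := (algebraMap L Ω).injective
  have hcomp : ∀ a : k, ι (algebraMap k L a) = algebraMap k Ω a := fun a => rfl
  set BL := mB (algebraMap k L) B with hBL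
  set nL := mN (algebraMap k L) n with hnL
  have hBLO : mB ι BL = BO := by
    funext i; ext r c; simp [mB, hBL, hBO, hcomp]
  have hnLO : mN ι nL = nO := by
    funext j s t; simp [mN, hnL, hnO, hcomp]
  have hmem : ∀ {x : Ω}, x ∈ W → ∃ y : L, ι y = x := fun {x} hx => ⟨⟨x, hWL hx⟩, rfl⟩
  choose xiL hxiL using fun j => hmem (x := xi j) (Or.inr (Or.inl ⟨j, rfl⟩))
  choose etL hetL using fun j => hmem (x := et j) (Or.inr (Or.inr (Or.inl ⟨j, rfl⟩)))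
  choose zeL hzeL using fun j => hmem (x := ze j) (Or.inr (Or.inr (Or.inr (Or.inl ⟨j, rfl⟩))))
  choose omL homL using fun j => hmem (x := om j) (Or.inr (Or.inr (Or.inr (Or.inr ⟨j, rfl⟩))))
  choose l₀L hl₀L using fun j => hmem (x := l₀ j) (Or.inl (hZ j).1)
  choose e₁L he₁L using fun j => hmem (x := e₁ j) (Or.inl (hZ j).2.1)
  choose e₂L he₂L using fun j => hmem (x := e₂ j) (Or.inl (hZ j).2.2)
  have fxi : ι ∘ xiL = xi := funext hxiL
  have fet : ι ∘ etL = et := funext hetL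
  have fze : ι ∘ zeL = ze := funext hzeL
  have fom : ι ∘ omL = om := funext homL
  -- the set of good points
  have hinf1 := (hinf L.toSubfield (fun x hx => hWL (Or.inl hx))).sdiff hfin
  let S : Set (Fin 3 → L) := {l | ∃ X Y : L, l = l₀L + X • e₁L + Y • e₂L ∧
    eval (ι ∘ l) (jc BO) = 0 ∧ (∀ j, v (ι (l j) - l₀ j) ≤ v ε) ∧ eval (ι ∘ l) Φ ≠ 0}
  have hch : ∀ X Y : L, ι ∘ (l₀L + X • e₁L + Y • e₂L) = l₀ + ι X • e₁ + ι Y • e₂ := by
    intro X Y
    funext j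
    simp [Function.comp, hl₀L, he₁L, he₂L]
  have hchinj : ∀ (X Y X' Y' : Ω) (c : Ω),
      l₀ + X • e₁ + Y • e₂ = c • (l₀ + X' • e₁ + Y' • e₂) → c = 1 ∧ X = X' ∧ Y = Y' := by
    intro X Y X' Y' c h
    have h1 := Fintype.linearIndependent_iff.mp hlin ![1 - c, X - c * X', Y - c * Y'] (by
      simp only [Fin.sum_univ_three, Matrix.cons_val_zero, Matrix.cons_val_one, Matrix.cons_val]
      have : (1 - c) • l₀ + (X - c * X') • e₁ + (Y - c * Y') • e₂ =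
        (l₀ + X • e₁ + Y • e₂) - c • (l₀ + X' • e₁ + Y' • e₂) := by
        simp only [sub_smul, smul_add, mul_smul, one_smul]
        abel
      rw [this, h, sub_self])
    have a0 : 1 - c = 0 := h1 0
    have a1 : X - c * X' = 0 := h1 1
    have a2 : Y - c * Y' = 0 := h1 2
    have hc : c = 1 := (sub_eq_zero.mp a0).symm
    rw [hc, one_mul] at a1 a2
    exact ⟨hc, sub_eq_zero.mp a1, sub_eq_zero.mp a2⟩
  have hSinf : S.Infinite := by
    intro hSfin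
    apply hinf1
    refine Set.Finite.subset ((hSfin.image fun l => ι ∘ l).preimage
      (f := fun XY : Ω × Ω => l₀ + XY.1 • e₁ + XY.2 • e₂) ?_) ?_
    · rintro ⟨X, Y⟩ _ ⟨X', Y'⟩ _ h
      have h' : l₀ + X • e₁ + Y • e₂ = (1 : Ω) • (l₀ + X' • e₁ + Y' • e₂) := by
        rw [one_smul]; exact h
      obtain ⟨-, h1, h2⟩ := hchinj _ _ _ _ _ h'
      rw [h1, h2]
    · rintro ⟨X, Y⟩ ⟨⟨hX, hY, hz, hcl⟩, hnot⟩
      refine ⟨l₀L + (⟨X, hX⟩ : L) • e₁L + (⟨Y, hY⟩ : L) • e₂L, ⟨⟨X, hX⟩, ⟨Y, hY⟩, rfl, ?_, ?_, ?_⟩,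
        ?_⟩
      · rw [hch]; exact hz
      · intro j
        have h1 := congrFun (hch ⟨X, hX⟩ ⟨Y, hY⟩) j
        simp only [Function.comp] at h1
        rw [h1]
        have h2 := hcl j
        have h3 : (l₀ + ι ⟨X, hX⟩ • e₁ + ι ⟨Y, hY⟩ • e₂) j - l₀ j = (X • e₁ + Y • e₂) j := by
          show l₀ j + X * e₁ j + Y * e₂ j - l₀ j = X * e₁ j + Y * e₂ j
          ring
        rw [h3]; exact h2
      · intro h0
        apply hnot
        rw [hch] at h0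
        exact ⟨hz, h0⟩
      · exact hch _ _
  have hT : ∀ G : MvPolynomial (Fin 3) L, (∀ x ∈ Split BL nL, eval x G = 0) → G = 0 := by
    intro G hG
    have hgl : ∀ l ∈ S, ∀ i, v ((ι ∘ l) i - l₀ i) ≤ v ε := by
      rintro l ⟨X, Y, -, -, h, -⟩
      exact h
    refine split_dense (v.comap ι) (by show v (ι 2) < 1; rw [map_ofNat]; exact hV) BL nL xiL etL zeL omL S hSinf ?_ ?_ ?_ ?_
      ?_ ?_ ?_ G hG
    · rintro l ⟨X, Y, rfl, -⟩ l' ⟨X', Y', rfl, -⟩ c h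
      have h1 : ι ∘ (l₀L + X • e₁L + Y • e₂L) = ι c • (ι ∘ (l₀L + X' • e₁L + Y' • e₂L)) := by
        rw [h]; funext j; simp [Function.comp]
      rw [hch, hch] at h1
      obtain ⟨-, h2, h3⟩ := hchinj _ _ _ _ _ h1
      rw [hιinj h2, hιinj h3]
    · rintro l ⟨X, Y, -, h, -, -⟩
      rw [eval_jc] at h
      apply hιinj
      rw [map_det_rows, hBLO, map_zero]
      exact h
    · intro l hl h0
      have h1 := (hgood _ (hgl l hl)).1
      rw [← fxi, ← fet, ← fze, ← hBLO, ← map_lam, h0, map_zero] at h1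
      exact h1 rfl
    · intro l hl h0
      have h1 := (hgood _ (hgl l hl)).2.1
      rw [← fet, ← fze, ← hBLO, ← map_aa, h0] at h1
      exact h1 (by funext j; simp)
    · intro l hl h0
      have h1 := (hgood _ (hgl l hl)).2.2.1
      rw [← fxi, ← fom, ← hBLO, ← hnLO, ← map_A2, h0, map_zero] at h1
      exact h1 rfl
    · rintro l ⟨X, Y, -, -, -, h⟩ h0
      apply h
      rw [← hΦ, ← fxi, ← fet, ← fze, ← hBLO, ← hnLO, ← map_B0, h0, map_zero]
    · intro l hl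
      obtain ⟨C, k1, k2, k3, k4, k5, k6, k7⟩ := (hgood _ (hgl l hl)).2.2.2
      have tB0 : B0 BO nO xi et ze (ι ∘ l) = ι (B0 BL nL xiL etL zeL l) := by
        rw [map_B0, hBLO, hnLO, fxi, fet, fze]
      have tqd : qd BO nO xi et ze om (ι ∘ l) = ι (qd BL nL xiL etL zeL omL l) := by
        unfold qd
        simp only [map_sub, map_mul, map_B0, map_B1, map_A2, map_C0, hBLO, hnLO, fxi, fet, fze,
          fom, map_ofNat]
      have tqc : qc BO nO xi et ze om (ι ∘ l) = ι (qc BL nL xiL etL zeL omL l) := by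
        unfold qc
        simp only [map_sub, map_add, map_mul, map_pow, map_B0, map_B1, map_B2, map_A2, map_C1,
          hBLO, hnLO, fxi, fet, fze, fom, map_ofNat]
      have tqb : qb BO nO xi et ze om (ι ∘ l) = ι (qb BL nL xiL etL zeL omL l) := by
        unfold qb
        simp only [map_sub, map_mul, map_B1, map_B2, map_A2, map_C2, hBLO, hnLO, fxi, fet, fze,
          fom, map_ofNat]
      have tqa : qa BO nO xi et ze om (ι ∘ l) = ι (qa BL nL xiL etL zeL omL l) := by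
        unfold qa
        simp only [map_sub, map_mul, map_pow, map_B2, map_A2, map_C3, hBLO, hnLO, fxi, fet, fze,
          fom, map_ofNat]
      rw [tB0] at k2 k7
      rw [tqd] at k3 k7
      rw [tqc] at k4
      rw [tqb] at k5
      rw [tqa] at k6
      exact ⟨v C, k1, k2, k3, k4, k5, k6, k7⟩
  intro G hG
  have hfib' : SmoothFibre (fun i => (BL i).map (algebraMap L Ω))
      (fun j s t => algebraMap L Ω (nL j s t)) x₀ := by
    have h1 : (fun i => (BL i).map (algebraMap L Ω)) = BO := hBLO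
    have h2 : (fun j s t => algebraMap L Ω (nL j s t)) = nO := hnLO
    rw [h1, h2]; exact hfib
  obtain ⟨h, hh, hh'⟩ := MC.dense_of_split BL nL hT x₀ hfib' G hG
  refine ⟨h, hh, fun x A hA => hh' x A ?_⟩
  have h1 : (fun i => (BL i).map (algebraMap L Ω)) = BO := hBLO
  have h2 : (fun j s t => algebraMap L Ω (nL j s t)) = nO := hnLO
  rw [h1, h2]; exact hA

end

end Pool.Agent.Work.D9
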