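import Mathlib
import Pool.Agent.Work.MP_b62148_ag.D9.JB

/-!
If the cubic of jumping lines is smooth, the fibre of `X` over every point of the plane is a conic in
a plane: the map `A ↦ (A x, tr (B_i A))` is surjective for every `x ≠ 0`.
-/

namespace Pool.Agent.Work.D9

open MvPolynomial Matrix

theorem surj_of_smooth {Ω : Type*} [Field Ω] [IsAlgClosed Ω]
    (B : Fin 3 → Matrix (Fin 3) (Fin 3) Ω)
    (hs : ∀ l : Fin 3 → Ω, l ≠ 0 → eval l (jc B) = 0 → ∃ i, eval l (pderiv i (jc B)) ≠ 0)
    (x : Fin 3 → Ω) (hx : x ≠ 0) (y z : Fin 3 → Ω) :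
    ∃ A : Matrix (Fin 3) (Fin 3) Ω, A *ᵥ x = y ∧ ∀ i, trB B i A = z i := by
  classical
  let T : Matrix (Fin 3) (Fin 3) Ω →ₗ[Ω] (Fin 3 → Ω) × (Fin 3 → Ω) :=
    { toFun := fun A => (A *ᵥ x, fun i => trB B i A)
      map_add' := by
        intro A A'
        ext i
        · simp [Matrix.add_mulVec]
        · simp [trB, mul_add, Finset.sum_add_distrib]
      map_smul' := by
        intro c A
        ext i
        · simp [Matrix.smul_mulVec]
        · simp only [trB, RingHom.id_apply, Prod.smul_mk, Pi.smul_apply, smul_eq_mul,
            Matrix.smul_apply, Finset.mul_sum]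
          refine Finset.sum_congr rfl fun r _ => Finset.sum_congr rfl fun c _ => by ring }
  have hT : LinearMap.range T = ⊤ := by
    by_contra hne
    obtain ⟨f, hf0, hf⟩ := Submodule.exists_le_ker_of_lt_top (LinearMap.range T)
      (lt_top_iff_ne_top.2 hne)
    set eta : Fin 3 → Ω := fun i => f (Pi.single i 1, 0) with heta
    set nu : Fin 3 → Ω := fun i => f (0, Pi.single i 1) with hnu
    have hfe : ∀ u w : Fin 3 → Ω, f (u, w) = ∑ i, u i * eta i + ∑ i, w i * nu i := by
      intro u w
      have h1 : (u, w) = ∑ i, u i • ((Pi.single i 1 : Fin 3 → Ω), (0 : Fin 3 → Ω)) +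
          ∑ i, w i • ((0 : Fin 3 → Ω), (Pi.single i 1 : Fin 3 → Ω)) := by
        ext j
        · simp [Prod.fst_sum, Finset.sum_apply, Pi.single_apply]
        · simp [Prod.snd_sum, Finset.sum_apply, Pi.single_apply]
      rw [h1, map_add, map_sum, map_sum]
      simp only [map_smul, smul_eq_mul, heta, hnu]
    have hz : ∀ r c, x c * eta r + ∑ i, B i c r * nu i = 0 := by
      intro r c
      have h1 : T (Matrix.single r c 1) ∈ LinearMap.ker f := hf ⟨_, rfl⟩
      have h2 : T (Matrix.single r c 1) = (Pi.single r (x c), fun i => B i c r) := by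
        ext i
        · show (Matrix.single r c (1 : Ω) *ᵥ x) i = (Pi.single r (x c) : Fin 3 → Ω) i
          rw [Matrix.single_mulVec]
          simp [Function.update_apply, Pi.single_apply]
        · show trB B i (Matrix.single r c 1) = B i c r
          simp only [trB, Matrix.single_apply]
          rw [Finset.sum_eq_single c]
          · rw [Finset.sum_eq_single r]
            · simp
            · intro b _ hb
              simp [hb.symm]
            · simp
          · intro b _ hb
            refine Finset.sum_eq_zero fun j _ => ?_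
            simp [hb.symm]
          · simp
      rw [LinearMap.mem_ker, h2, hfe] at h1
      simpa [Pi.single_apply] using h1
    have hB : ∑ i, nu i • B i = - vecMulVec x eta := by
      ext c r
      have h1 := hz r c
      simp only [Matrix.sum_apply, Matrix.smul_apply, smul_eq_mul, Matrix.neg_apply, vecMulVec_apply]
      have h2 : ∑ i, nu i * B i c r = ∑ i, B i c r * nu i :=
        Finset.sum_congr rfl fun i _ => mul_comm _ _
      rw [h2]
      linear_combination h1
    by_cases hnu0 : nu = 0
    · have heta0 : eta = 0 := by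
        obtain ⟨c, hc⟩ := Function.ne_iff.1 hx
        funext r
        have h1 := hz r c
        rw [hnu0] at h1
        simp only [Pi.zero_apply, mul_zero, Finset.sum_const_zero, add_zero] at h1
        exact (mul_eq_zero.1 h1).resolve_left hc
      apply hf0
      ext i
      all_goals simp [hfe, hnu0, heta0]
    · refine adj_comb_ne B hs nu hnu0 ?_
      rw [hB, adjugate_fin_three]
      ext i j
      fin_cases i <;> fin_cases j <;> simp [vecMulVec_apply] <;> ring
  obtain ⟨A, hA⟩ := LinearMap.range_eq_top.1 hT (y, z)
  refine ⟨A, congrArg Prod.fst hA, fun i => ?_⟩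
  exact congrFun (congrArg Prod.snd hA) i

end Pool.Agent.Work.D9
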