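import Mathlib
import Pool.Agent.Work.MP_b62148_ag.D9.Main9
import Pool.Agent.Work.MP_b62148_ag.D9.Main0b
import Pool.Agent.Work.MP_b62148_ag.D9.Surj

/-!
D9 with the strong conclusion: every point of `X` over a point of the plane at which the quadratic
form is not zero on the solutions of the linear equations is in the closure of the rational points.
-/

namespace Pool.Agent.Work.D9

open MvPolynomial Matrix

section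

variable {k : Type*} [Field k] [CharZero k] {Ω : Type*} [Field Ω] [Algebra k Ω] [IsAlgClosed Ω]
  [Algebra.IsAlgebraic k Ω]

theorem main9' (B : Fin 3 → Matrix (Fin 3) (Fin 3) k)
    (n : Fin 3 → Fin 3 × Fin 3 → Fin 3 × Fin 3 → k)
    (hs : ∀ l : Fin 3 → Ω, l ≠ 0 → eval l (jc (mB (algebraMap k Ω) B)) = 0 →
      ∃ i, eval l (pderiv i (jc (mB (algebraMap k Ω) B))) ≠ 0)
    (x₀ : Fin 3 → Ω) (hfib : SmoothFibre (mB (algebraMap k Ω) B) (mN (algebraMap k Ω) n) x₀)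
    (l₀ p₀ m₀ a₀ g₀ : Fin 3 → Ω)
    (hc₀ : Cfg (mB (algebraMap k Ω) B) (mN (algebraMap k Ω) n) l₀ p₀ m₀ a₀ g₀)
    (hf₀ : flexval (mN (algebraMap k Ω) n) l₀ p₀ a₀ g₀ = 0)
    (he₀ : endval (mN (algebraMap k Ω) n) l₀ p₀ a₀ g₀ ≠ 0)
    (l₁ p₁ m₁ a₁ g₁ : Fin 3 → Ω)
    (hc₁ : Cfg (mB (algebraMap k Ω) B) (mN (algebraMap k Ω) n) l₁ p₁ m₁ a₁ g₁)
    (hf₁ : flexval (mN (algebraMap k Ω) n) l₁ p₁ a₁ g₁ ≠ 0) :
    ∃ L : IntermediateField k Ω, FiniteDimensional k L ∧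
      ∀ G : MvPolynomial (Fin 3 ⊕ (Fin 3 × Fin 3)) L,
        (∀ (x : Fin 3 → L) (A : Matrix (Fin 3) (Fin 3) L), x ≠ 0 → A ≠ 0 →
          IsPt (mB (algebraMap k L) B) (mN (algebraMap k L) n) x A → eval (join x A) G = 0) →
        ∀ (x : Fin 3 → Ω) (A : Matrix (Fin 3) (Fin 3) Ω), x ≠ 0 →
          IsPt (mB (algebraMap k Ω) B) (mN (algebraMap k Ω) n) x A →
          (∃ A' : Matrix (Fin 3) (Fin 3) Ω, A' *ᵥ x = 0 ∧
            (∀ i, trB (mB (algebraMap k Ω) B) i A' = 0) ∧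
            qf (mN (algebraMap k Ω) n) x A' A' ≠ 0) →
          aeval (join x A) G = 0 := by
  classical
  have : CharZero Ω := charZero_of_injective_algebraMap (algebraMap k Ω).injective
  set BO := mB (algebraMap k Ω) B with hBO
  set nO := mN (algebraMap k Ω) n with hnO
  have hD₀ : eval l₀ (jc BO) = 0 := by rw [eval_jc]; exact det_of_ker _ p₀ hc₀.p0 hc₀.hp
  have hD₁ : eval l₁ (jc BO) = 0 := by rw [eval_jc]; exact det_of_ker _ p₁ hc₁.p0 hc₁.hp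
  obtain ⟨i₀, hi₀⟩ := hs l₀ hc₀.l0 hD₀
  obtain ⟨i₁, hi₁⟩ := hs l₁ hc₁.l0 hD₁
  have hR₀ := adj_rows_ne BO l₀ i₀ hi₀
  have hR₁ := adj_rows_ne BO l₁ i₁ hi₁
  have hm₀ := adj_comb_ne BO hs m₀ hc₀.m0
  have hm₁ := adj_comb_ne BO hs m₁ hc₁.m0
  obtain ⟨xi, et, ze, hl₀, hl₁⟩ := exists_aux BO l₀ l₁ hc₀.l0 hc₁.l0 hR₀ hR₁
  obtain ⟨haa, ⟨c, -, hcB⟩, hend, ⟨c', hc', hx'⟩⟩ :=
    compare BO nO xi et ze l₀ p₀ m₀ a₀ g₀ hc₀ hR₀ hm₀ hl₀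
  obtain ⟨-, ⟨c₁, hc₁0, hcB₁⟩, -, -⟩ := compare BO nO xi et ze l₁ p₁ m₁ a₁ g₁ hc₁ hR₁ hm₁ hl₁
  have hB0 : B0 BO nO xi et ze l₀ = 0 := by rw [hcB, hf₀, mul_zero]
  have hC0 : C0 BO nO xi et ze l₀ ≠ 0 := by
    obtain ⟨c₂, hc₂, h⟩ := hend hf₀
    rw [h]; exact mul_ne_zero hc₂ he₀
  have hB1 : B0 BO nO xi et ze l₁ ≠ 0 := by rw [hcB₁]; exact mul_ne_zero hc₁0 hf₁
  have hxx : xx l₀ (om1 BO nO xi l₀) ≠ 0 := by rw [hx']; exact smul_ne_zero hc' hc₀.x0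
  obtain ⟨om, hA⟩ := exists_om BO nO xi l₀ hxx
  obtain ⟨Φ, hΦ⟩ := PF.B0 BO nO xi et ze
  replace hΦ : ∀ l, B0 BO nO xi et ze l = eval l Φ := hΦ
  have hΦ' : ∀ (c : Ω) (l : Fin 3 → Ω), eval (c • l) Φ = c ^ 23 * eval l Φ := by
    intro c l
    rw [← hΦ, ← hΦ, B0_smul]
  have hfinall : ∀ e₁ e₂ : Fin 3 → Ω, LinearIndependent Ω ![l₀, e₁, e₂] →
      {XY : Ω × Ω | eval (l₀ + XY.1 • e₁ + XY.2 • e₂) (jc BO) = 0 ∧
        B0 BO nO xi et ze (l₀ + XY.1 • e₁ + XY.2 • e₂) = 0}.Finite := by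
    intro e₁ e₂ hlin
    simpa only [hΦ] using finite_chart (jc BO) Φ (jc_hom BO) hs 23 hΦ' l₁ hD₁
      (by rw [← hΦ]; exact hB1) l₀ e₁ e₂ hlin
  obtain ⟨L, hfd, hL⟩ := main0' B n xi et ze om l₀ hD₀ i₀ hi₀ hB0 hC0 hA hl₀ haa hfinall x₀ hfib
  refine ⟨L, hfd, fun G hG x A hx hIs hq => hL G hG x A hIs ?_ hq⟩
  exact surj_of_smooth BO hs x hx

end

end Pool.Agent.Work.D9
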