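import Mathlib
import Pool.Agent.Work.MP_b62148_ag.D9.Main9b
import Pool.Agent.Work.MP_b62148_ag.D9.GenGood
import Pool.Agent.Work.MP_b62148_ag.D9.NoPlane

/-!
D9 for the general `(B, n)`.
-/

namespace Pool.Agent.Work.D9

open MvPolynomial Matrix

/-- Outside the zeros of one nonzero polynomial in the coefficients, the points of `X` over some
finite extension are Zariski dense in `X`. -/
theorem general : ∃ Φ : MvPolynomial Par ℚ, Φ ≠ 0 ∧
    ∀ (k Ω : Type*) [Field k] [CharZero k] [Field Ω] [Algebra k Ω] [IsAlgClosed Ω]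
      [Algebra.IsAlgebraic k Ω]
      (B : Fin 3 → Matrix (Fin 3) (Fin 3) k) (n : Fin 3 → Fin 3 × Fin 3 → Fin 3 × Fin 3 → k),
      aeval (par B n) Φ ≠ 0 →
      (∀ x : Fin 3 → Ω, x ≠ 0 →
        (∀ y z : Fin 3 → Ω, ∃ A : Matrix (Fin 3) (Fin 3) Ω, A *ᵥ x = y ∧
          ∀ i, trB (mB (algebraMap k Ω) B) i A = z i) ∧
        ∃ A : Matrix (Fin 3) (Fin 3) Ω, A *ᵥ x = 0 ∧ (∀ i, trB (mB (algebraMap k Ω) B) i A = 0) ∧
          qf (mN (algebraMap k Ω) n) x A A ≠ 0) ∧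
      SmoothFibre (mB (algebraMap k Ω) B) (mN (algebraMap k Ω) n) ![1, 0, 0] ∧
      ∃ L : IntermediateField k Ω, FiniteDimensional k L ∧
        ∀ G : MvPolynomial (Fin 3 ⊕ (Fin 3 × Fin 3)) L,
          (∀ (x : Fin 3 → L) (A : Matrix (Fin 3) (Fin 3) L), x ≠ 0 → A ≠ 0 →
            IsPt (mB (algebraMap k L) B) (mN (algebraMap k L) n) x A → eval (join x A) G = 0) →
          ∀ (x : Fin 3 → Ω) (A : Matrix (Fin 3) (Fin 3) Ω), x ≠ 0 →
            IsPt (mB (algebraMap k Ω) B) (mN (algebraMap k Ω) n) x A →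
            aeval (join x A) G = 0 := by
  obtain ⟨Φ₁, h₁, H₁⟩ := generic_good_base
  obtain ⟨Φ₂, h₂, H₂⟩ := NP.noplane_generic
  refine ⟨Φ₁ * Φ₂, mul_ne_zero h₁ h₂, ?_⟩
  intro k Ω _ _ _ _ _ _ B n hBn
  have : CharZero Ω := charZero_of_injective_algebraMap (algebraMap k Ω).injective
  rw [map_mul] at hBn
  obtain ⟨hs, hfib, ⟨l₀, p₀, m₀, a₀, g₀, hc₀, hf₀, he₀⟩, ⟨l₁, p₁, m₁, a₁, g₁, hc₁, hf₁⟩⟩ :=
    H₁ k Ω B n (left_ne_zero_of_mul hBn)
  have hpar : par (mB (algebraMap k Ω) B) (mN (algebraMap k Ω) n) = algebraMap k Ω ∘ par B n := by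
    funext t
    rcases t with t | t <;> rfl
  have hev : ∀ P : MvPolynomial Par ℚ, aeval (par (mB (algebraMap k Ω) B) (mN (algebraMap k Ω) n)) P
      = algebraMap k Ω (aeval (par B n) P) := by
    intro P
    rw [hpar, aeval_def, aeval_def, ← MvPolynomial.coe_eval₂Hom, ← MvPolynomial.coe_eval₂Hom,
      ← RingHom.comp_apply]
    congr 1
    apply MvPolynomial.ringHom_ext
    · intro r
      simp
    · intro i
      simp
  have hq : ∀ x : Fin 3 → Ω, x ≠ 0 →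
      ∃ A : Matrix (Fin 3) (Fin 3) Ω, A *ᵥ x = 0 ∧ (∀ i, trB (mB (algebraMap k Ω) B) i A = 0) ∧
        qf (mN (algebraMap k Ω) n) x A A ≠ 0 := by
    refine H₂ Ω (mB (algebraMap k Ω) B) (mN (algebraMap k Ω) n) ?_
    have h3 : OF.prm (mB (algebraMap k Ω) B) (mN (algebraMap k Ω) n)
        = par (mB (algebraMap k Ω) B) (mN (algebraMap k Ω) n) := rfl
    rw [h3, hev]
    intro h0
    exact (right_ne_zero_of_mul hBn) ((map_eq_zero _).mp h0)
  refine ⟨fun x hx => ⟨surj_of_smooth _ hs x hx, hq x hx⟩, hfib, ?_⟩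
  obtain ⟨L, hfd, hL⟩ := main9' B n hs _ hfib l₀ p₀ m₀ a₀ g₀ hc₀ hf₀ he₀ l₁ p₁ m₁ a₁ g₁ hc₁ hf₁
  exact ⟨L, hfd, fun G hG x A hx hIs => hL G hG x A hx hIs (hq x hx)⟩

end Pool.Agent.Work.D9
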