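import Mathlib
import Pool.Agent.Work.MP_b62148_ag.D9.TwoAdic

/-!
Function field engine: a genus one curve over the function field of a curve on which two
rational points coincide at one place has infinitely many points; specialisation of points over
the function field.
-/

namespace Pool.Agent.Work.D9

section evrel

variable {R K T : Type*} [CommRing R] [IsDomain R] [Field K] [Algebra R K] [IsFractionRing R K]
  [CommRing T] [IsDomain T] [CharZero T]

/-- `x = r / d ^ N` with `ev r = m * (ev d) ^ N` -/
def EvRel (ev : R →+* T) (d : R) (x : K) (m : ℤ) : Prop :=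
  ∃ (N : ℕ) (r : R), x * algebraMap R K d ^ N = algebraMap R K r ∧ ev r = m * ev d ^ N

omit [IsDomain R] [IsFractionRing R K] [IsDomain T] [CharZero T] in
theorem EvRel.add {ev : R →+* T} {d : R} {x y : K} {m m' : ℤ} (hx : EvRel ev d x m)
    (hy : EvRel ev d y m') : EvRel ev d (x + y) (m + m') := by
  obtain ⟨N, r, h1, h2⟩ := hx
  obtain ⟨N', r', h1', h2'⟩ := hy
  refine ⟨N + N', r * d ^ N' + r' * d ^ N, ?_, ?_⟩
  · rw [map_add, map_mul, map_mul, map_pow, map_pow, ← h1, ← h1']
    ring
  · rw [map_add, map_mul, map_mul, map_pow, map_pow, h2, h2']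
    push_cast
    ring

omit [IsDomain R] [IsFractionRing R K] [IsDomain T] [CharZero T] in
theorem EvRel.mul {ev : R →+* T} {d : R} {x y : K} {m m' : ℤ} (hx : EvRel ev d x m)
    (hy : EvRel ev d y m') : EvRel ev d (x * y) (m * m') := by
  obtain ⟨N, r, h1, h2⟩ := hx
  obtain ⟨N', r', h1', h2'⟩ := hy
  refine ⟨N + N', r * r', ?_, ?_⟩
  · rw [map_mul, ← h1, ← h1']
    ring
  · rw [map_mul, h2, h2']
    push_cast
    ring

omit [IsDomain R] [IsFractionRing R K] [IsDomain T] [CharZero T] in
theorem EvRel.int (ev : R →+* T) (d : R) (m : ℤ) : EvRel ev d (m : K) m :=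
  ⟨0, (m : R), by simp, by simp⟩

/-- the subring of elements with an integral value -/
def evSub (K : Type*) [Field K] [Algebra R K] (ev : R →+* T) (d : R) : Subring K where
  carrier := {x | ∃ m : ℤ, EvRel ev d x m}
  mul_mem' := by
    rintro x y ⟨m, hx⟩ ⟨m', hy⟩
    exact ⟨_, hx.mul hy⟩
  one_mem' := ⟨1, by simpa using EvRel.int (K := K) ev d 1⟩
  add_mem' := by
    rintro x y ⟨m, hx⟩ ⟨m', hy⟩
    exact ⟨_, hx.add hy⟩
  zero_mem' := ⟨0, by simpa using EvRel.int (K := K) ev d 0⟩
  neg_mem' := by
    rintro x ⟨m, hx⟩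
    refine ⟨(-1) * m, ?_⟩
    have := (EvRel.int (K := K) ev d (-1)).mul hx
    simpa using this

/-- the ideal of elements with an even value -/
def evIdeal (K : Type*) [Field K] [Algebra R K] (ev : R →+* T) (d : R) :
    Ideal (evSub K ev d) where
  carrier := {x | ∃ m : ℤ, EvRel ev d (x : K) (2 * m)}
  add_mem' := by
    rintro x y ⟨m, hx⟩ ⟨m', hy⟩
    refine ⟨m + m', ?_⟩
    have := hx.add hy
    rw [← mul_add] at this
    exact this
  zero_mem' := ⟨0, by simpa using EvRel.int (K := K) ev d 0⟩
  smul_mem' := by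
    rintro ⟨c, m', hc⟩ x ⟨m, hx⟩
    refine ⟨m' * m, ?_⟩
    have := hc.mul hx
    rw [mul_left_comm] at this
    exact this

theorem evIdeal_ne_top (ev : R →+* T) (d : R) (hd : ev d ≠ 0) : evIdeal K ev d ≠ ⊤ := by
  intro h
  have h1 : (1 : evSub K ev d) ∈ evIdeal K ev d := by rw [h]; trivial
  obtain ⟨m, N, r, h2, h3⟩ := h1
  have h4 : algebraMap R K (d ^ N) = algebraMap R K r := by
    rw [map_pow, ← h2]
    show algebraMap R K d ^ N = ((1 : evSub K ev d) : K) * _
    rw [Subring.coe_one, one_mul]
  have h5 := IsFractionRing.injective R K h4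
  rw [← h5, map_pow] at h3
  have h6 : ((1 : T) - ((2 * m : ℤ) : T)) * ev d ^ N = 0 := by
    rw [sub_mul, one_mul, ← h3, sub_self]
  have h7 := (mul_eq_zero.mp h6).resolve_right (pow_ne_zero N hd)
  have h8 : ((1 - 2 * m : ℤ) : T) = 0 := by push_cast; push_cast at h7; exact h7
  have h9 : (1 - 2 * m : ℤ) = 0 := by exact_mod_cast h8
  omega

theorem mul_max_lt {Γ₀ : Type*} [LinearOrderedCommGroupWithZero Γ₀] {x a b z : Γ₀}
    (ha : x * a < z) (hb : x * b < z) : x * max a b < z := by
  rcases le_total a b with h | h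
  · rw [max_eq_right h]; exact hb
  · rw [max_eq_left h]; exact ha

/-- (E1) If the constant term vanishes and the linear term does not vanish at one place, the genus
one curve has infinitely many points over the function field. -/
theorem infinite_fraction (ev : R →+* T) (q d c b a : R) (hq : ev q = 0) (hd : ev d ≠ 0)
    (hq0 : q ≠ 0) :
    {s : K | IsSquare (algebraMap R K q ^ 2 + algebraMap R K d * s + algebraMap R K c * s ^ 2 +
      algebraMap R K b * s ^ 3 + algebraMap R K a * s ^ 4)}.Infinite := by
  have hinj := IsFractionRing.injective R K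
  have hd0 : d ≠ 0 := by
    rintro rfl
    exact hd (map_zero ev)
  have hdK : algebraMap R K d ≠ 0 := fun h => hd0 (hinj (by rw [h, map_zero]))
  have hqK : algebraMap R K q ≠ 0 := fun h => hq0 (hinj (by rw [h, map_zero]))
  have h2R : (2 : R) ≠ 0 := by
    intro h
    have : ev 2 = 0 := by rw [h, map_zero]
    rw [map_ofNat] at this
    exact two_ne_zero this
  have h2K : (2 : K) ≠ 0 := by
    intro h
    apply h2R
    apply hinj
    rw [map_zero, map_ofNat, h]
  obtain ⟨V, hAV, hIV⟩ := Ideal.image_subset_nonunits_valuationSubring (evIdeal K ev d)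
    (evIdeal_ne_top ev d hd)
  have hmem : ∀ (x : K) (m : ℤ), EvRel ev d x (2 * m) → V.valuation x < 1 := by
    intro x m hx
    rw [← ValuationSubring.mem_nonunits_iff]
    exact hIV ⟨⟨x, 2 * m, hx⟩, ⟨m, hx⟩, rfl⟩
  have h2 : V.valuation (2 : K) < 1 := by
    refine hmem 2 1 ?_
    have := EvRel.int (K := K) ev d 2
    simpa using this
  have hy : ∀ y : R, V.valuation (algebraMap R K q) * V.valuation (algebraMap R K y) <
      V.valuation (algebraMap R K d) := by
    intro y
    have h1 : V.valuation (algebraMap R K q * algebraMap R K y / algebraMap R K d) < 1 := by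
      refine hmem _ 0 ⟨1, q * y, ?_, ?_⟩
      · rw [pow_one, div_mul_cancel₀ _ hdK, map_mul]
      · rw [map_mul, hq]; simp
    have hpos : 0 < V.valuation (algebraMap R K d) :=
      zero_lt_iff.mpr ((Valuation.ne_zero_iff _).mpr hdK)
    rw [map_div₀, map_mul, div_lt_one₀ hpos] at h1
    exact h1
  have h1 := hy 1
  rw [map_one, map_one] at h1
  refine infinite_quartic_two V.valuation h2 h2K hqK
    (max 1 (max (V.valuation (algebraMap R K q)) (max (V.valuation (algebraMap R K d))
      (max (V.valuation (algebraMap R K c)) (max (V.valuation (algebraMap R K b))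
        (V.valuation (algebraMap R K a)))))))
    (le_max_left _ _) ?_ ?_ ?_ ?_ ?_ ?_
  · exact le_max_of_le_right (le_max_left _ _)
  · exact le_max_of_le_right (le_max_of_le_right (le_max_left _ _))
  · exact le_max_of_le_right (le_max_of_le_right (le_max_of_le_right (le_max_left _ _)))
  · exact le_max_of_le_right (le_max_of_le_right (le_max_of_le_right
      (le_max_of_le_right (le_max_left _ _))))
  · exact le_max_of_le_right (le_max_of_le_right (le_max_of_le_right
      (le_max_of_le_right (le_max_right _ _))))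
  · exact mul_max_lt h1 (mul_max_lt (hy q) (mul_max_lt (hy d) (mul_max_lt (hy c)
      (mul_max_lt (hy b) (hy a)))))

end evrel

section spec

variable {R : Type*} [CommRing R] [IsDomain R] {K : Type*} [Field K] [Algebra R K]
  [IsFractionRing R K] {k : Type*} [Field k]

/-- (E2) specialisation of finitely many elements of the function field at a `k`-point. -/
theorem exists_spec (P : Set (R →+* k)) (hP : ∀ r : R, (∀ p ∈ P, p r = 0) → r = 0)
    (Z : Finset K) :
    ∃ p ∈ P, ∃ (f : R) (j : Localization.Away f →+* K) (φ : Localization.Away f →+* k),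
      Function.Injective j ∧ j.comp (algebraMap R (Localization.Away f)) = algebraMap R K ∧
      φ.comp (algebraMap R (Localization.Away f)) = p ∧ ∀ z ∈ Z, ∃ y, j y = z := by
  have hinj := IsFractionRing.injective R K
  obtain ⟨⟨f, hf⟩, hZ⟩ := IsLocalization.exist_integer_multiples_of_finset (nonZeroDivisors R) Z
  have hf0 : f ≠ 0 := nonZeroDivisors.ne_zero hf
  obtain ⟨p, hpP, hp⟩ : ∃ p ∈ P, p f ≠ 0 := by
    by_contra hcon
    push Not at hcon
    exact hf0 (hP f hcon)
  have hfK : algebraMap R K f ≠ 0 := fun h => hf0 (hinj (by rw [h, map_zero]))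
  let j : Localization.Away f →+* K :=
    IsLocalization.Away.lift (g := algebraMap R K) f (IsUnit.mk0 _ hfK)
  let φ : Localization.Away f →+* k := IsLocalization.Away.lift (g := p) f (IsUnit.mk0 _ hp)
  have hj : j.comp (algebraMap R (Localization.Away f)) = algebraMap R K :=
    IsLocalization.Away.lift_comp f (IsUnit.mk0 _ hfK)
  have hφ : φ.comp (algebraMap R (Localization.Away f)) = p :=
    IsLocalization.Away.lift_comp f (IsUnit.mk0 _ hp)
  refine ⟨p, hpP, f, j, φ, ?_, hj, hφ, ?_⟩
  · rw [injective_iff_map_eq_zero]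
    intro x hx
    obtain ⟨⟨r, s⟩, hrs⟩ := IsLocalization.surj (Submonoid.powers f) x
    have h1 := congrArg j hrs
    rw [map_mul, hx, zero_mul] at h1
    have h2 : j (algebraMap R (Localization.Away f) r) = algebraMap R K r := by
      rw [← hj]; rfl
    rw [h2] at h1
    have hr : r = 0 := hinj (by rw [← h1, map_zero])
    rw [hr, map_zero] at hrs
    have hs : IsUnit (algebraMap R (Localization.Away f) s) := IsLocalization.map_units _ s
    exact (hs.mul_left_eq_zero).mp hrs
  · intro z hz
    obtain ⟨r, hr⟩ := hZ z hz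
    refine ⟨IsLocalization.mk' (Localization.Away f) r
      (⟨f, Submonoid.mem_powers f⟩ : Submonoid.powers f), ?_⟩
    have h1 : j (IsLocalization.mk' (Localization.Away f) r
        (⟨f, Submonoid.mem_powers f⟩ : Submonoid.powers f)) * algebraMap R K f =
        algebraMap R K r := by
      have h2 : ∀ x, j (algebraMap R (Localization.Away f) x) = algebraMap R K x := by
        intro x; rw [← hj]; rfl
      rw [← h2 f, ← h2 r, ← map_mul, IsLocalization.mk'_spec]
    have h3 : algebraMap R K r = algebraMap R K f * z := by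
      rw [hr]
      show f • z = _
      rw [Algebra.smul_def]
    rw [h3, mul_comm] at h1
    exact mul_left_cancel₀ hfK h1

end spec

end Pool.Agent.Work.D9
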