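import Mathlib
import Pool.Agent.Work.MP_b62148_ag.D9.Engine
import Pool.Agent.Work.MP_b62148_ag.D9.Core9
import Pool.Agent.Work.MP_b62148_ag.D9.Maps
import Pool.Agent.Work.MP_b62148_ag.D9.JC

/-!
Even class over the given field: if the cubic of jumping lines has infinitely many points over `k`,
then the points of `X` over `k` are Zariski dense.
-/

namespace Pool.Agent.Work.D9

open MvPolynomial Matrix

section maps

variable {S T U : Type*} [CommRing S] [CommRing T] [CommRing U] (φ : S →+* T) (ψ : T →+* U)
  (B : Fin 3 → Matrix (Fin 3) (Fin 3) S)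
  (n : Fin 3 → Fin 3 × Fin 3 → Fin 3 × Fin 3 → S) (xi et ze om l : Fin 3 → S)

theorem mB_mB : mB ψ (mB φ B) = mB (ψ.comp φ) B := by
  funext i; ext r c; simp [mB]

theorem mN_mN : mN ψ (mN φ n) = mN (ψ.comp φ) n := by
  funext j s t; simp [mN]

theorem mB_id : mB (RingHom.id S) B = B := by
  funext i; ext r c; simp [mB]

theorem mN_id : mN (RingHom.id S) n = n := by
  funext j s t; simp [mN]

theorem map_qd : φ (qd B n xi et ze om l) =
    qd (mB φ B) (mN φ n) (φ ∘ xi) (φ ∘ et) (φ ∘ ze) (φ ∘ om) (φ ∘ l) := by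
  unfold qd
  simp only [map_sub, map_mul, map_B0, map_B1, map_A2, map_C0, map_ofNat]

theorem map_qc : φ (qc B n xi et ze om l) =
    qc (mB φ B) (mN φ n) (φ ∘ xi) (φ ∘ et) (φ ∘ ze) (φ ∘ om) (φ ∘ l) := by
  unfold qc
  simp only [map_sub, map_add, map_mul, map_pow, map_B0, map_B1, map_B2, map_A2, map_C1,
    map_ofNat]

theorem map_qb : φ (qb B n xi et ze om l) =
    qb (mB φ B) (mN φ n) (φ ∘ xi) (φ ∘ et) (φ ∘ ze) (φ ∘ om) (φ ∘ l) := by
  unfold qb
  simp only [map_sub, map_mul, map_B1, map_B2, map_A2, map_C2, map_ofNat]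

theorem map_qa : φ (qa B n xi et ze om l) =
    qa (mB φ B) (mN φ n) (φ ∘ xi) (φ ∘ et) (φ ∘ ze) (φ ∘ om) (φ ∘ l) := by
  unfold qa
  simp only [map_sub, map_mul, map_pow, map_B2, map_A2, map_C3, map_ofNat]

theorem map_quart (s : S) : φ (quart B n xi et ze om l s) =
    quart (mB φ B) (mN φ n) (φ ∘ xi) (φ ∘ et) (φ ∘ ze) (φ ∘ om) (φ ∘ l) (φ s) := by
  rw [quart_eq, quart_eq]
  simp only [map_add, map_mul, map_pow, map_B0, map_qd, map_qc, map_qb, map_qa]

theorem A2_smul (c : S) : A2 B n xi om (c • l) = c ^ 7 * A2 B n xi om l := by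
  have hrows : rows B (c • l) = c • rows B l := by
    ext i j
    simp [rows, Finset.mul_sum, mul_assoc]
  have hadj : adjugate (rows B (c • l)) = c ^ 2 • adjugate (rows B l) := by
    rw [hrows, Matrix.adjugate_smul]; rfl
  have hpp : pp B xi (c • l) = c ^ 2 • pp B xi l := by
    rw [pp, hadj, Matrix.smul_mulVec, pp]
  have hvv : vv B xi (c • l) = c ^ 3 • vv B xi l := by
    rw [vv, hpp, vv]
    ext i j
    simp only [vecMulVec_apply, Pi.smul_apply, Matrix.smul_apply, smul_eq_mul]
    ring
  have hxx : xx (c • l) om = c • xx l om := by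
    funext i
    unfold xx
    simp only [cross_apply, Pi.smul_apply, smul_eq_mul]
    fin_cases i <;> simp <;> ring
  rw [A2, hxx, hvv, A2]
  simp only [qf, Pi.smul_apply, Matrix.smul_apply, smul_eq_mul, Finset.mul_sum]
  refine Finset.sum_congr rfl fun j _ => Finset.sum_congr rfl fun s _ =>
    Finset.sum_congr rfl fun t _ => ?_
  ring

end maps

section forms

variable {Ω : Type*} [Field Ω]

/-- a form vanishing at infinitely many points of a smooth plane cubic is a multiple of it -/
theorem dvd_of_infinite [IsAlgClosed Ω] (D Φ : MvPolynomial (Fin 3) Ω) (hD : D.IsHomogeneous 3)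
    (hs : ∀ l : Fin 3 → Ω, l ≠ 0 → eval l D = 0 → ∃ i, eval l (pderiv i D) ≠ 0)
    (N : ℕ) (hΦ : Φ.IsHomogeneous N) (S : Set (Fin 3 → Ω)) (hS : S.Infinite)
    (hpair : ∀ l ∈ S, ∀ l' ∈ S, ∀ c : Ω, l = c • l' → l = l')
    (h : ∀ l ∈ S, l ≠ 0 ∧ eval l D = 0 ∧ eval l Φ = 0) : D ∣ Φ := by
  by_contra hnd
  have : Infinite Ω := IsAlgClosed.instInfinite
  have hprime : Prime D := (irred_cubic D hD hs).prime
  apply hS
  refine Set.Finite.of_injOn (f := lineIdeal) (t := (Ideal.span {D, Φ}).minimalPrimes) ?_ ?_
    (Ideal.finite_minimalPrimes_of_isNoetherianRing _ _)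
  · intro l hl
    obtain ⟨h0, h1, h2⟩ := h l hl
    have hle : Ideal.span {D, Φ} ≤ lineIdeal l := by
      rw [Ideal.span_le]
      rintro p hp
      rcases hp with rfl | hp
      · rw [SetLike.mem_coe, mem_lineIdeal]
        intro c
        rw [eval_smul_cubic hD, h1, mul_zero]
      · rw [Set.mem_singleton_iff.1 hp, SetLike.mem_coe, mem_lineIdeal]
        intro c
        rw [eval_smul_cubic hΦ, h2, mul_zero]
    obtain ⟨q, hq, hql⟩ := Ideal.exists_minimalPrimes_le hle
    have hqp : q.IsPrime := hq.1.1
    have hDq : D ∈ q := hq.1.2 (Ideal.subset_span (Set.mem_insert _ _))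
    have hΦq : Φ ∈ q := hq.1.2 (Ideal.subset_span (Set.mem_insert_of_mem _ rfl))
    have e1 := two_le_height D Φ hprime hnd q hDq hΦq
    have e2 := height_lineIdeal h0
    have : q = lineIdeal l := Ideal.eq_of_le_of_height_le q hql (e2.trans e1)
    rw [← this]
    exact hq
  · intro l hl l' hl' heq
    have heq : lineIdeal l = lineIdeal l' := heq
    have hprop : ∀ i j, l j * l' i = l i * l' j := by
      intro i j
      have h1 : (C (l j) * X i - C (l i) * X j : MvPolynomial (Fin 3) Ω) ∈ lineIdeal l := by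
        rw [mem_lineIdeal]
        intro c
        simp
        ring
      rw [heq, mem_lineIdeal] at h1
      have h2 := h1 1
      simp at h2
      linear_combination h2
    obtain ⟨j, hj⟩ := Function.ne_iff.1 (h l' hl').1
    have hj' : l' j ≠ 0 := hj
    refine hpair l hl l' hl' (l j / l' j) ?_
    funext i
    rw [Pi.smul_apply, smul_eq_mul, div_mul_eq_mul_div, hprop i j, mul_div_cancel_right₀ _ hj']

variable {k : Type*} [Field k] [CharZero k] [Algebra k Ω]

/-- a polynomial vanishing at all `k`-points of the cone over a smooth plane cubic with infinitely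
many points is a multiple of the cubic -/
theorem dvd_of_cone [IsAlgClosed Ω] (D : MvPolynomial (Fin 3) k) (hD : D.IsHomogeneous 3)
    (hs : ∀ l : Fin 3 → Ω, l ≠ 0 → eval l (map (algebraMap k Ω) D) = 0 →
      ∃ i, eval l (pderiv i (map (algebraMap k Ω) D)) ≠ 0)
    (S : Set (Fin 3 → k)) (hS : S.Infinite)
    (hpair : ∀ l ∈ S, ∀ l' ∈ S, ∀ c : k, l = c • l' → l = l')
    (hSD : ∀ l ∈ S, l ≠ 0 ∧ eval l D = 0) (N : MvPolynomial (Fin 3) k)
    (hN : ∀ l : Fin 3 → k, l ≠ 0 → eval l D = 0 → eval l N = 0) :
    map (algebraMap k Ω) D ∣ map (algebraMap k Ω) N := by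
  classical
  have hinj : Function.Injective (algebraMap k Ω) := (algebraMap k Ω).injective
  have hev : ∀ (l : Fin 3 → k) (p : MvPolynomial (Fin 3) k),
      eval (algebraMap k Ω ∘ l) (map (algebraMap k Ω) p) = algebraMap k Ω (eval l p) := by
    intro l p
    rw [eval_map]
    exact (eval₂_comp_left (algebraMap k Ω) (RingHom.id k) l p).symm
  -- homogeneous components vanish
  have hcomp : ∀ i, ∀ l ∈ S, eval l (homogeneousComponent i N) = 0 := by
    intro i l hl
    obtain ⟨h0, h1⟩ := hSD l hl
    let p : Polynomial k := ∑ i ∈ Finset.range (N.totalDegree + 1),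
      Polynomial.C (eval l (homogeneousComponent i N)) * Polynomial.X ^ i
    have hp : ∀ c : k, p.eval c = eval (c • l) N := by
      intro c
      conv_rhs => rw [← sum_homogeneousComponent N]
      rw [map_sum, Polynomial.eval_finsetSum]
      refine Finset.sum_congr rfl fun i _ => ?_
      rw [Polynomial.eval_mul, Polynomial.eval_C, Polynomial.eval_pow, Polynomial.eval_X,
        eval_smul_cubic (homogeneousComponent_isHomogeneous i N), mul_comm]
    have hp0 : p = 0 := by
      apply Polynomial.eq_zero_of_infinite_isRoot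
      have : ({0}ᶜ : Set k).Infinite := by
        have : Infinite k := Infinite.of_injective (Nat.cast : ℕ → k) Nat.cast_injective
        exact (Set.finite_singleton (0 : k)).infinite_compl
      refine this.mono fun c hc => ?_
      show p.IsRoot c
      rw [Polynomial.IsRoot.def, hp]
      refine hN _ (smul_ne_zero hc h0) ?_
      rw [eval_smul_cubic hD, h1, mul_zero]
    by_cases hi : i < N.totalDegree + 1
    · have h2 := congrArg (fun q => Polynomial.coeff q i) hp0
      simp only [Polynomial.coeff_zero] at h2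
      rw [← h2]
      simp only [p, Polynomial.finsetSum_coeff, Polynomial.coeff_C_mul, Polynomial.coeff_X_pow]
      rw [Finset.sum_eq_single i]
      · simp
      · intro j _ hj
        rw [if_neg (Ne.symm hj), mul_zero]
      · intro h3
        exact absurd (Finset.mem_range.mpr hi) h3
    · rw [homogeneousComponent_eq_zero i N (by omega), map_zero]
  have hdv : ∀ i, map (algebraMap k Ω) D ∣ map (algebraMap k Ω) (homogeneousComponent i N) := by
    intro i
    refine dvd_of_infinite (map (algebraMap k Ω) D) _ (hD.map _) hs i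
      ((homogeneousComponent_isHomogeneous i N).map _) ((fun l => algebraMap k Ω ∘ l) '' S) ?_ ?_ ?_
    · refine hS.image fun l _ l' _ h => ?_
      funext j
      exact hinj (congrFun h j)
    · rintro _ ⟨l, hl, rfl⟩ _ ⟨l', hl', rfl⟩ c hc
      obtain ⟨j, hj⟩ := Function.ne_iff.1 (hSD l' hl').1
      have hj' : l' j ≠ 0 := hj
      have h1 : c = algebraMap k Ω (l j / l' j) := by
        have := congrFun hc j
        simp only [Function.comp, Pi.smul_apply, smul_eq_mul] at this
        rw [map_div₀, eq_div_iff (fun h => hj' (hinj (by rw [h, map_zero]))), this]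
      have h2 : l = (l j / l' j) • l' := by
        funext i
        apply hinj
        have := congrFun hc i
        simp only [Function.comp, Pi.smul_apply, smul_eq_mul] at this ⊢
        rw [this, map_mul, ← h1]
      have h3 := hpair l hl l' hl' _ h2
      simp only [h3]
    · rintro _ ⟨l, hl, rfl⟩
      refine ⟨?_, ?_, ?_⟩
      · intro h0
        apply (hSD l hl).1
        funext j
        apply hinj
        have := congrFun h0 j
        simpa using this
      · rw [hev, (hSD l hl).2, map_zero]
      · rw [hev, hcomp i l hl, map_zero]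
  rw [← sum_homogeneousComponent N, map_sum]
  exact Finset.dvd_sum fun i _ => hdv i

end forms

end Pool.Agent.Work.D9
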