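import Mathlib
import Pool.Agent.Work.MP_b62148_ag.D9.JA
import Pool.Agent.Work.MP_b62148_ag.D9.Same

/-!
Even class: the split conics are dense as soon as the cubic of jumping lines has infinitely many
points over the given field.
-/

namespace Pool.Agent.Work.D9

open MvPolynomial Matrix

theorem cross_cross_single {F : Type*} [Field F] (l x : Fin 3 → F) (h : l ⬝ᵥ x = 0) (j : Fin 3) :
    l ⨯₃ ((Pi.single j 1 : Fin 3 → F) ⨯₃ x) = -(l j • x) := by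
  have h' : l 0 * x 0 + l 1 * x 1 + l 2 * x 2 = 0 := by
    have := h
    simp only [dotProduct, Fin.sum_univ_three] at this
    exact this
  funext i
  fin_cases j <;> fin_cases i <;>
    simp [cross_apply] <;> linear_combination h'

section

variable {k : Type*} [Field k]

/-- the generic conic point specialises to a split conic -/
theorem spec_not_unit [CharZero k] (B : Fin 3 → Matrix (Fin 3) (Fin 3) k)
    (n : Fin 3 → Fin 3 × Fin 3 → Fin 3 × Fin 3 → k) (xi et ze om : Fin 3 → k)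
    (G : MvPolynomial (Fin 3) k) (hG : ∀ x ∈ Split B n, eval x G = 0)
    {A : Type*} [CommRing A] (φ : A →+* k) (κ : k →+* A) (hφ : φ.comp κ = RingHom.id k)
    (l : Fin 3 → A) (hdet : (rows B (φ ∘ l)).det = 0) (s c : A) (hs : IsUnit s) (hc : IsUnit c)
    (hlam : IsUnit (lam (mB κ B) (κ ∘ xi) (κ ∘ et) (κ ∘ ze) l))
    (i : Fin 3) (haa : IsUnit (aa (mB κ B) (κ ∘ et) (κ ∘ ze) l i))
    (hA2 : IsUnit (A2 (mB κ B) (mN κ n) (κ ∘ xi) (κ ∘ om) l))
    (hsq : IsSquare (quart (mB κ B) (mN κ n) (κ ∘ xi) (κ ∘ et) (κ ∘ ze) (κ ∘ om) l s)) :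
    ¬ IsUnit (eval (c • (xx l (om1 (mB κ B) (mN κ n) (κ ∘ xi) l) + s • xx l (κ ∘ om)))
      (map κ G)) := by
  have hκ : ∀ v : Fin 3 → k, φ ∘ (κ ∘ v) = v := by
    intro v
    funext i
    exact congrArg (fun f : k →+* k => f (v i)) hφ
  have hB : mB φ (mB κ B) = B := by rw [mB_mB, hφ, mB_id]
  have hn : mN φ (mN κ n) = n := by rw [mN_mN, hφ, mN_id]
  have h1 := hlam.map φ
  rw [map_lam, hB, hκ, hκ, hκ] at h1
  have h2 := haa.map φ
  have h2' : aa B et ze (φ ∘ l) ≠ 0 := by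
    intro h0
    have h3 := congrFun (map_aa φ (mB κ B) (κ ∘ et) (κ ∘ ze) l) i
    rw [hB, hκ, hκ, h0] at h3
    rw [show φ (aa (mB κ B) (κ ∘ et) (κ ∘ ze) l i) = 0 from h3] at h2
    exact not_isUnit_zero h2
  have h3 := hA2.map φ
  rw [map_A2, hB, hn, hκ, hκ] at h3
  have h4 : IsSquare (quart B n xi et ze om (φ ∘ l) (φ s)) := by
    obtain ⟨r, hr⟩ := hsq
    refine ⟨φ r, ?_⟩
    have := congrArg φ hr
    rw [map_quart, hB, hn, hκ, hκ, hκ, hκ, map_mul] at this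
    exact this
  have h5 := split_of_square B n xi et ze om (φ ∘ l) two_ne_zero hdet h1.ne_zero h2' h3.ne_zero
    (φ s) (hs.map φ).ne_zero h4
  have h6 := hG _ (split_smul h5 (φ c) (hc.map φ).ne_zero)
  intro hu
  have h7 := hu.map φ
  have h8 : φ (eval (c • (xx l (om1 (mB κ B) (mN κ n) (κ ∘ xi) l) + s • xx l (κ ∘ om)))
      (map κ G)) = eval (φ c • (xx (φ ∘ l) (om1 B n xi (φ ∘ l)) + φ s • xx (φ ∘ l) om)) G := by
    have e1 : ∀ w : Fin 3 → A, φ (eval w (map κ G)) = eval (φ ∘ w) G := by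
      intro w
      rw [eval_map, eval₂_comp_left φ κ w G, hφ]
      rfl
    rw [e1]
    congr 1
    congr 1
    funext i
    have e2 := congrFun (map_xx φ l (om1 (mB κ B) (mN κ n) (κ ∘ xi) l)) i
    have e3 := congrFun (map_xx φ l (κ ∘ om)) i
    rw [map_om1, hB, hn, hκ] at e2
    rw [hκ] at e3
    simp only [Function.comp, Pi.smul_apply, Pi.add_apply, smul_eq_mul, map_mul, map_add] at e2 e3 ⊢
    rw [e2, e3]
  rw [h8, h6] at h7
  exact not_isUnit_zero h7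

end

section

variable {k : Type*} [Field k] [CharZero k] {Ω : Type*} [Field Ω] [Algebra k Ω] [IsAlgClosed Ω]

theorem split_dense_same (B : Fin 3 → Matrix (Fin 3) (Fin 3) k)
    (n : Fin 3 → Fin 3 × Fin 3 → Fin 3 × Fin 3 → k)
    (hs : ∀ l : Fin 3 → Ω, l ≠ 0 → eval l (jc (mB (algebraMap k Ω) B)) = 0 →
      ∃ i, eval l (pderiv i (jc (mB (algebraMap k Ω) B))) ≠ 0)
    (xi et ze om : Fin 3 → k) (l₀ : Fin 3 → Ω)
    (hD₀ : (rows (mB (algebraMap k Ω) B) l₀).det = 0)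
    (hB0 : B0 (mB (algebraMap k Ω) B) (mN (algebraMap k Ω) n) (algebraMap k Ω ∘ xi)
      (algebraMap k Ω ∘ et) (algebraMap k Ω ∘ ze) l₀ = 0)
    (hC0 : C0 (mB (algebraMap k Ω) B) (mN (algebraMap k Ω) n) (algebraMap k Ω ∘ xi)
      (algebraMap k Ω ∘ et) (algebraMap k Ω ∘ ze) l₀ ≠ 0)
    (hA : A2 (mB (algebraMap k Ω) B) (mN (algebraMap k Ω) n) (algebraMap k Ω ∘ xi)
      (algebraMap k Ω ∘ om) l₀ ≠ 0)
    (hlam : lam (mB (algebraMap k Ω) B) (algebraMap k Ω ∘ xi)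
      (algebraMap k Ω ∘ et) (algebraMap k Ω ∘ ze) l₀ ≠ 0)
    (haa : aa (mB (algebraMap k Ω) B) (algebraMap k Ω ∘ et) (algebraMap k Ω ∘ ze) l₀ ≠ 0)
    (l₁ : Fin 3 → Ω) (hD₁ : (rows (mB (algebraMap k Ω) B) l₁).det = 0)
    (hB1 : B0 (mB (algebraMap k Ω) B) (mN (algebraMap k Ω) n) (algebraMap k Ω ∘ xi)
      (algebraMap k Ω ∘ et) (algebraMap k Ω ∘ ze) l₁ ≠ 0)
    (S : Set (Fin 3 → k)) (hS : S.Infinite)
    (hpair : ∀ l ∈ S, ∀ l' ∈ S, ∀ c : k, l = c • l' → l = l')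
    (hSD : ∀ l ∈ S, l ≠ 0 ∧ (rows B l).det = 0)
    (G : MvPolynomial (Fin 3) k) (hG : ∀ x ∈ Split B n, eval x G = 0) : G = 0 := by
  classical
  have : CharZero Ω := charZero_of_injective_algebraMap (algebraMap k Ω).injective
  set i₀ := algebraMap k Ω with hi₀
  have hi₀inj : Function.Injective i₀ := (algebraMap k Ω).injective
  set D := jc B with hDdef
  have hmapD : map i₀ D = jc (mB i₀ B) := by
    rw [hDdef]
    unfold jc
    rw [RingHom.map_det]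
    congr 1
    ext i j
    simp [rows, mB]
  have hev : ∀ (l : Fin 3 → k) (p : MvPolynomial (Fin 3) k),
      eval (i₀ ∘ l) (map i₀ p) = i₀ (eval l p) := by
    intro l p
    rw [eval_map]
    exact (eval₂_comp_left i₀ (RingHom.id k) l p).symm
  have hprime : Prime (map i₀ D) := by
    rw [hmapD]
    exact (irred_cubic _ (jc_hom _) hs).prime
  -- the coordinate ring
  let J : Ideal (MvPolynomial (Fin 3) k) := Ideal.comap (map i₀) (Ideal.span {map i₀ D})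
  have hJmem : ∀ p, p ∈ J ↔ map i₀ D ∣ map i₀ p := by
    intro p
    rw [Ideal.mem_comap, Ideal.mem_span_singleton]
  have hJprime : J.IsPrime := by
    have : (Ideal.span {map i₀ D}).IsPrime := (Ideal.span_singleton_prime hprime.ne_zero).2 hprime
    exact Ideal.comap_isPrime _ _
  let R := MvPolynomial (Fin 3) k ⧸ J
  let pi : MvPolynomial (Fin 3) k →+* R := Ideal.Quotient.mk J
  have hpi : Function.Surjective pi := Ideal.Quotient.mk_surjective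
  have hpi0 : ∀ p, pi p = 0 ↔ map i₀ D ∣ map i₀ p := by
    intro p
    rw [← hJmem]
    exact Ideal.Quotient.eq_zero_iff_mem
  -- places
  have hplace : ∀ l : Fin 3 → Ω, (rows (mB i₀ B) l).det = 0 → ∀ p ∈ J,
      ((eval l).comp (map i₀)) p = 0 := by
    intro l hl p hp
    obtain ⟨H, hH⟩ := (hJmem p).1 hp
    show eval l (map i₀ p) = 0
    rw [hH, map_mul, hmapD, eval_jc, hl, zero_mul]
  have hpt : ∀ l : Fin 3 → k, (rows B l).det = 0 → ∀ p ∈ J,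
      (eval l : MvPolynomial (Fin 3) k →+* k) p = 0 := by
    intro l hl p hp
    obtain ⟨H, hH⟩ := (hJmem p).1 hp
    apply hi₀inj
    rw [← hev, hH, map_mul, hev, hDdef, eval_jc, hl, map_zero, zero_mul]
  let ev₀ : R →+* Ω := Ideal.Quotient.lift J ((eval l₀).comp (map i₀)) (hplace l₀ hD₀)
  let ev₁ : R →+* Ω := Ideal.Quotient.lift J ((eval l₁).comp (map i₀)) (hplace l₁ hD₁)
  let P : Set (R →+* k) := {p | ∃ l : Fin 3 → k, l ≠ 0 ∧ (rows B l).det = 0 ∧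
    p.comp pi = eval l}
  have hP : ∀ r : R, (∀ p ∈ P, p r = 0) → r = 0 := by
    intro r hr
    obtain ⟨N, rfl⟩ := hpi r
    rw [hpi0]
    refine dvd_of_cone D (jc_hom B) ?_ S hS hpair ?_ N ?_
    · rw [hmapD]; exact hs
    · intro l hl
      exact ⟨(hSD l hl).1, by rw [hDdef, eval_jc]; exact (hSD l hl).2⟩
    · intro l hl hDl
      have hdet : (rows B l).det = 0 := by rw [hDdef, eval_jc] at hDl; exact hDl
      have hmem : (Ideal.Quotient.lift J (eval l) (hpt l hdet) : R →+* k) ∈ P := by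
        exact ⟨l, hl, hdet, RingHom.ext fun q => rfl⟩
      have := hr _ hmem
      exact this
  let κ : k →+* R := pi.comp C
  let lR : Fin 3 → R := fun i => pi (X i)
  let K := FractionRing R
  let a : R →+* K := algebraMap R K
  have hainj : Function.Injective a := IsFractionRing.injective R K
  have hev₀κ : ev₀.comp κ = i₀ := by
    ext c
    show eval l₀ (map i₀ (C c)) = _
    rw [map_C, eval_C]
  have hev₁κ : ev₁.comp κ = i₀ := by
    ext c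
    show eval l₁ (map i₀ (C c)) = _
    rw [map_C, eval_C]
  have hev₀l : ev₀ ∘ lR = l₀ := by
    funext i
    show eval l₀ (map i₀ (X i)) = _
    rw [map_X, eval_X]
  have hev₁l : ev₁ ∘ lR = l₁ := by
    funext i
    show eval l₁ (map i₀ (X i)) = _
    rw [map_X, eval_X]
  have hcv : ∀ {T : Type _} [CommRing T] (φ : R →+* T) (ψ : k →+* T), φ.comp κ = ψ →
      ∀ v : Fin 3 → k, φ ∘ (κ ∘ v) = ψ ∘ v := by
    intro T _ φ ψ h v
    rw [← h]; rfl
  -- the data over R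
  let qR : R := B0 (mB κ B) (mN κ n) (κ ∘ xi) (κ ∘ et) (κ ∘ ze) lR
  let dR : R := qd (mB κ B) (mN κ n) (κ ∘ xi) (κ ∘ et) (κ ∘ ze) (κ ∘ om) lR
  let cR : R := qc (mB κ B) (mN κ n) (κ ∘ xi) (κ ∘ et) (κ ∘ ze) (κ ∘ om) lR
  let bR : R := qb (mB κ B) (mN κ n) (κ ∘ xi) (κ ∘ et) (κ ∘ ze) (κ ∘ om) lR
  let aR : R := qa (mB κ B) (mN κ n) (κ ∘ xi) (κ ∘ et) (κ ∘ ze) (κ ∘ om) lR
  have e1 : ev₀ qR = 0 := by
    show ev₀ (B0 (mB κ B) (mN κ n) (κ ∘ xi) (κ ∘ et) (κ ∘ ze) lR) = 0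
    rw [map_B0, mB_mB, mN_mN, hev₀κ, hev₀l, hcv ev₀ i₀ hev₀κ, hcv ev₀ i₀ hev₀κ,
      hcv ev₀ i₀ hev₀κ]
    exact hB0
  have e2 : ev₀ dR ≠ 0 := by
    show ev₀ (qd (mB κ B) (mN κ n) (κ ∘ xi) (κ ∘ et) (κ ∘ ze) (κ ∘ om) lR) ≠ 0
    rw [map_qd, mB_mB, mN_mN, hev₀κ, hev₀l, hcv ev₀ i₀ hev₀κ, hcv ev₀ i₀ hev₀κ,
      hcv ev₀ i₀ hev₀κ, hcv ev₀ i₀ hev₀κ]
    unfold qd
    rw [hB0]
    simp only [mul_zero, zero_mul, zero_sub, neg_ne_zero]
    exact mul_ne_zero (mul_ne_zero (by norm_num) hA) hC0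
  have e3 : qR ≠ 0 := by
    intro h0
    apply hB1
    have h1 : ev₁ qR = 0 := by rw [h0, map_zero]
    have h2 : ev₁ (B0 (mB κ B) (mN κ n) (κ ∘ xi) (κ ∘ et) (κ ∘ ze) lR) = 0 := h1
    rw [map_B0, mB_mB, mN_mN, hev₁κ, hev₁l, hcv ev₁ i₀ hev₁κ, hcv ev₁ i₀ hev₁κ,
      hcv ev₁ i₀ hev₁κ] at h2
    exact h2
  have hinf := infinite_fraction (K := K) ev₀ qR dR cR bR aR e1 e2 e3
  -- non vanishing over R
  have hlamR : lam (mB κ B) (κ ∘ xi) (κ ∘ et) (κ ∘ ze) lR ≠ 0 := by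
    intro h0
    apply hlam
    have h1 := congrArg ev₀ h0
    rw [map_lam, mB_mB, hev₀κ, hev₀l, hcv ev₀ i₀ hev₀κ, hcv ev₀ i₀ hev₀κ,
      hcv ev₀ i₀ hev₀κ, map_zero] at h1
    exact h1
  have hA2R : A2 (mB κ B) (mN κ n) (κ ∘ xi) (κ ∘ om) lR ≠ 0 := by
    intro h0
    apply hA
    have h1 := congrArg ev₀ h0
    rw [map_A2, mB_mB, mN_mN, hev₀κ, hev₀l, hcv ev₀ i₀ hev₀κ, hcv ev₀ i₀ hev₀κ,
      map_zero] at h1
    exact h1
  obtain ⟨i, hi⟩ : ∃ i, aa (mB κ B) (κ ∘ et) (κ ∘ ze) lR i ≠ 0 := by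
    by_contra hcon
    push Not at hcon
    apply haa
    have h1 := map_aa ev₀ (mB κ B) (κ ∘ et) (κ ∘ ze) lR
    rw [mB_mB, hev₀κ, hev₀l, hcv ev₀ i₀ hev₀κ, hcv ev₀ i₀ hev₀κ] at h1
    rw [← h1]
    funext i
    show ev₀ (aa (mB κ B) (κ ∘ et) (κ ∘ ze) lR i) = 0
    rw [hcon i, map_zero]
  -- the data over K
  let κK : k →+* K := a.comp κ
  let lK : Fin 3 → K := a ∘ lR
  have haκ : ∀ v : Fin 3 → k, a ∘ (κ ∘ v) = κK ∘ v := fun v => rfl
  have haB : mB a (mB κ B) = mB κK B := mB_mB κ a B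
  have han : mN a (mN κ n) = mN κK n := mN_mN κ a n
  let uK : Fin 3 → K := xx lK (om1 (mB κK B) (mN κK n) (κK ∘ xi) lK)
  let wK : Fin 3 → K := xx lK (κK ∘ om)
  have hlamK : lam (mB κK B) (κK ∘ xi) (κK ∘ et) (κK ∘ ze) lK ≠ 0 := by
    intro h0
    apply hlamR
    apply hainj
    rw [map_zero, map_lam, haB]
    exact h0
  have hA2K : A2 (mB κK B) (mN κK n) (κK ∘ xi) (κK ∘ om) lK ≠ 0 := by
    intro h0
    apply hA2R
    apply hainj
    rw [map_zero, map_A2, haB, han]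
    exact h0
  have haaK : aa (mB κK B) (κK ∘ et) (κK ∘ ze) lK i ≠ 0 := by
    intro h0
    apply hi
    apply hainj
    have h1 := congrFun (map_aa a (mB κ B) (κ ∘ et) (κ ∘ ze) lR) i
    rw [haB] at h1
    rw [map_zero]
    exact h1.trans h0
  have hsqK : ∀ s : K, IsSquare (a qR ^ 2 + a dR * s + a cR * s ^ 2 + a bR * s ^ 3 +
      a aR * s ^ 4) → IsSquare (quart (mB κK B) (mN κK n) (κK ∘ xi) (κK ∘ et) (κK ∘ ze)
        (κK ∘ om) lK s) := by
    intro s h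
    rw [quart_eq]
    have g1 : a qR = B0 (mB κK B) (mN κK n) (κK ∘ xi) (κK ∘ et) (κK ∘ ze) lK := by
      show a (B0 (mB κ B) (mN κ n) (κ ∘ xi) (κ ∘ et) (κ ∘ ze) lR) = _
      rw [map_B0, haB, han]; rfl
    have g2 : a dR = qd (mB κK B) (mN κK n) (κK ∘ xi) (κK ∘ et) (κK ∘ ze) (κK ∘ om) lK := by
      show a (qd (mB κ B) (mN κ n) (κ ∘ xi) (κ ∘ et) (κ ∘ ze) (κ ∘ om) lR) = _
      rw [map_qd, haB, han]; rfl
    have g3 : a cR = qc (mB κK B) (mN κK n) (κK ∘ xi) (κK ∘ et) (κK ∘ ze) (κK ∘ om) lK := by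
      show a (qc (mB κ B) (mN κ n) (κ ∘ xi) (κ ∘ et) (κ ∘ ze) (κ ∘ om) lR) = _
      rw [map_qc, haB, han]; rfl
    have g4 : a bR = qb (mB κK B) (mN κK n) (κK ∘ xi) (κK ∘ et) (κK ∘ ze) (κK ∘ om) lK := by
      show a (qb (mB κ B) (mN κ n) (κ ∘ xi) (κ ∘ et) (κ ∘ ze) (κ ∘ om) lR) = _
      rw [map_qb, haB, han]; rfl
    have g5 : a aR = qa (mB κK B) (mN κK n) (κK ∘ xi) (κK ∘ et) (κK ∘ ze) (κK ∘ om) lK := by
      show a (qa (mB κ B) (mN κ n) (κ ∘ xi) (κ ∘ et) (κ ∘ ze) (κ ∘ om) lR) = _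
      rw [map_qa, haB, han]; rfl
    rw [← g1, ← g2, ← g3, ← g4, ← g5]
    exact h
  -- the generic line
  have hgen : ∀ s : K, IsSquare (quart (mB κK B) (mN κK n) (κK ∘ xi) (κK ∘ et) (κK ∘ ze)
        (κK ∘ om) lK s) → s ≠ 0 → ∀ c : K, c ≠ 0 →
      eval (c • (uK + s • wK)) (map κK G) = 0 := by
    intro s hsq hs0 c hc
    by_contra hval
    obtain ⟨r, hr⟩ := hsq
    obtain ⟨p, ⟨l, hl0, hldet, hpl⟩, f, j, φ, hj, hja, hφp, hZ⟩ := exists_spec (K := K) P hP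
      {s, s⁻¹, r, c, c⁻¹, (lam (mB κK B) (κK ∘ xi) (κK ∘ et) (κK ∘ ze) lK)⁻¹,
        (A2 (mB κK B) (mN κK n) (κK ∘ xi) (κK ∘ om) lK)⁻¹,
        (aa (mB κK B) (κK ∘ et) (κK ∘ ze) lK i)⁻¹,
        (eval (c • (uK + s • wK)) (map κK G))⁻¹}
    let A := Localization.Away f
    let ι : R →+* A := algebraMap R A
    let κA : k →+* A := ι.comp κ
    let lA : Fin 3 → A := ι ∘ lR
    have hjκ : j.comp κA = κK := by
      show j.comp (ι.comp κ) = _
      rw [← RingHom.comp_assoc]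
      exact congrArg (fun g : R →+* K => g.comp κ) hja
    have hjl : j ∘ lA = lK := by
      funext x
      exact congrArg (fun g : R →+* K => g (lR x)) hja
    have hjv : ∀ v : Fin 3 → k, j ∘ (κA ∘ v) = κK ∘ v := by
      intro v
      rw [← hjκ]; rfl
    have hφκ : φ.comp κA = RingHom.id k := by
      ext x
      have h1 : φ (ι (κ x)) = p (κ x) := congrArg (fun g : R →+* k => g (κ x)) hφp
      have h2 : p (κ x) = eval l (C x) := congrArg (fun g : MvPolynomial (Fin 3) k →+* k => g (C x))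
        hpl
      show φ (ι (κ x)) = x
      rw [h1, h2, eval_C]
    have hφl : φ ∘ lA = l := by
      funext x
      have h1 : φ (ι (lR x)) = p (lR x) := congrArg (fun g : R →+* k => g (lR x)) hφp
      have h2 : p (lR x) = eval l (X x) := congrArg (fun g : MvPolynomial (Fin 3) k →+* k => g (X x))
        hpl
      show φ (ι (lR x)) = l x
      rw [h1, h2, eval_X]
    have hunit : ∀ (x : A) (y : K), j x = y → y ≠ 0 → (∃ z : A, j z = y⁻¹) → IsUnit x := by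
      rintro x y rfl hy ⟨z, hz⟩
      refine IsUnit.of_mul_eq_one z ?_
      apply hj
      rw [map_mul, hz, map_one, mul_inv_cancel₀ hy]
    obtain ⟨s', hs'⟩ := hZ s (by simp)
    obtain ⟨r', hr'⟩ := hZ r (by simp)
    obtain ⟨c', hc'⟩ := hZ c (by simp)
    have u1 : IsUnit s' := hunit s' s hs' hs0 (hZ s⁻¹ (by simp))
    have u2 : IsUnit c' := hunit c' c hc' hc (hZ c⁻¹ (by simp))
    have u3 : IsUnit (lam (mB κA B) (κA ∘ xi) (κA ∘ et) (κA ∘ ze) lA) := by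
      refine hunit _ (lam (mB κK B) (κK ∘ xi) (κK ∘ et) (κK ∘ ze) lK) ?_ hlamK (hZ _ (by simp))
      rw [map_lam, mB_mB, hjκ, hjl, hjv, hjv, hjv]
    have u4 : IsUnit (A2 (mB κA B) (mN κA n) (κA ∘ xi) (κA ∘ om) lA) := by
      refine hunit _ (A2 (mB κK B) (mN κK n) (κK ∘ xi) (κK ∘ om) lK) ?_ hA2K (hZ _ (by simp))
      rw [map_A2, mB_mB, mN_mN, hjκ, hjl, hjv, hjv]
    have u5 : IsUnit (aa (mB κA B) (κA ∘ et) (κA ∘ ze) lA i) := by
      refine hunit _ (aa (mB κK B) (κK ∘ et) (κK ∘ ze) lK i) ?_ haaK (hZ _ (by simp))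
      have h1 := congrFun (map_aa j (mB κA B) (κA ∘ et) (κA ∘ ze) lA) i
      rw [mB_mB, hjκ, hjl, hjv, hjv] at h1
      exact h1
    have u6 : IsSquare (quart (mB κA B) (mN κA n) (κA ∘ xi) (κA ∘ et) (κA ∘ ze) (κA ∘ om)
        lA s') := by
      refine ⟨r', hj ?_⟩
      rw [map_quart, mB_mB, mN_mN, hjκ, hjl, hjv, hjv, hjv, hjv, hs', map_mul, hr']
      exact hr
    refine spec_not_unit B n xi et ze om G hG φ κA hφκ lA (by rw [hφl]; exact hldet) s' c' u1 u2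
      u3 i u5 u4 u6 ?_
    have e9 : ∀ w : Fin 3 → A, j (eval w (map κA G)) = eval (j ∘ w) (map κK G) := by
      intro w
      rw [eval_map, eval_map, eval₂_comp_left j κA w G, hjκ]
    have e10 : j ∘ (c' • (xx lA (om1 (mB κA B) (mN κA n) (κA ∘ xi) lA) + s' • xx lA (κA ∘ om))) =
        c • (uK + s • wK) := by
      funext x
      have g2 := congrFun (map_xx j lA (om1 (mB κA B) (mN κA n) (κA ∘ xi) lA)) x
      have g3 := congrFun (map_xx j lA (κA ∘ om)) x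
      rw [map_om1, mB_mB, mN_mN, hjκ, hjl, hjv] at g2
      rw [hjl, hjv] at g3
      have g2' : j (xx lA (om1 (mB κA B) (mN κA n) (κA ∘ xi) lA) x) = uK x := g2
      have g3' : j (xx lA (κA ∘ om) x) = wK x := g3
      show j (c' * (xx lA (om1 (mB κA B) (mN κA n) (κA ∘ xi) lA) x + s' * xx lA (κA ∘ om) x)) =
        c * (uK x + s * wK x)
      rw [map_mul, map_add, map_mul, hc', hs', g2', g3']
    refine hunit _ (eval (c • (uK + s • wK)) (map κK G)) ?_ hval (hZ _ (by simp))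
    rw [e9, e10]
  have hcharK : CharZero K := charZero_of_injective_ringHom (f := κK) κK.injective
  have hT := hinf.sdiff (Set.finite_singleton (0 : K))
  have key := two_param (map κK G) uK wK _ hT (by
    rintro s ⟨hs1, hs0⟩ c hc
    exact hgen s (hsqK s hs1) (by simpa using hs0) c hc)
  refine MC.planes G S hS hpair fun l hl x hx => ?_
  obtain ⟨hl0, hldet⟩ := hSD l hl
  obtain ⟨j, hj⟩ := Function.ne_iff.1 hl0
  have hj' : l j ≠ 0 := hj
  let y : Fin 3 → k := (-(l j)⁻¹) • ((Pi.single j 1 : Fin 3 → k) ⨯₃ x)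
  have hy : l ⨯₃ y = x := by
    show l ⨯₃ ((-(l j)⁻¹) • ((Pi.single j 1 : Fin 3 → k) ⨯₃ x)) = x
    rw [LinearMap.map_smul, cross_cross_single l x hx j, smul_neg, smul_smul, neg_mul,
      inv_mul_cancel₀ hj', neg_smul, one_smul, neg_neg]
  have h1 : eval (lK ⨯₃ (κK ∘ y)) (map κK G) = 0 := by
    have hdot : lK ⬝ᵥ (lK ⨯₃ (κK ∘ y)) = 0 := dot_self_cross _ _
    have hcb := cross_basis (om1 (mB κK B) (mN κK n) (κK ∘ xi) lK) (κK ∘ om) lK _ hdot
    have hA3 : ((κK ∘ om) ⨯₃ lK) ⬝ᵥ om1 (mB κK B) (mN κK n) (κK ∘ xi) lK ≠ 0 := hA2K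
    have hx' : lK ⨯₃ (κK ∘ y) =
        ((((κK ∘ om) ⨯₃ lK) ⬝ᵥ om1 (mB κK B) (mN κK n) (κK ∘ xi) lK)⁻¹ *
          (-((lK ⨯₃ (κK ∘ y)) ⬝ᵥ (κK ∘ om)))) • uK +
        ((((κK ∘ om) ⨯₃ lK) ⬝ᵥ om1 (mB κK B) (mN κK n) (κK ∘ xi) lK)⁻¹ *
          ((lK ⨯₃ (κK ∘ y)) ⬝ᵥ om1 (mB κK B) (mN κK n) (κK ∘ xi) lK)) • wK := by
      rw [mul_smul, mul_smul, ← smul_add]
      show _ = _ • ((-((lK ⨯₃ (κK ∘ y)) ⬝ᵥ (κK ∘ om))) •
        (om1 (mB κK B) (mN κK n) (κK ∘ xi) lK ⨯₃ lK) +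
        ((lK ⨯₃ (κK ∘ y)) ⬝ᵥ om1 (mB κK B) (mN κK n) (κK ∘ xi) lK) • ((κK ∘ om) ⨯₃ lK))
      rw [← hcb, smul_smul, inv_mul_cancel₀ hA3, one_smul]
    rw [hx']
    exact key _ _
  have h2 : eval (lR ⨯₃ (κ ∘ y)) (map κ G) = 0 := by
    apply hainj
    rw [map_zero, eval_map, eval₂_comp_left a κ, map_cross, ← eval_map]
    exact h1
  let p : R →+* k := Ideal.Quotient.lift J (eval l) (hpt l hldet)
  have hpκ : p.comp κ = RingHom.id k := by
    ext c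
    show eval l (C c) = c
    rw [eval_C]
  have hpl : p ∘ lR = l := by
    funext i
    show eval l (X i) = l i
    rw [eval_X]
  have h3 := congrArg p h2
  rw [map_zero, eval_map, eval₂_comp_left p κ, hpκ, map_cross, hpl,
    show p ∘ (κ ∘ y) = y from by
      funext i; exact congrArg (fun f : k →+* k => f (y i)) hpκ, hy] at h3
  exact h3

end

end Pool.Agent.Work.D9
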