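import Mathlib
import Pool.Agent.Work.MP_b62148_ag.D9.SameEven
import Pool.Agent.Work.MP_b62148_ag.D9.General9

/-!
Even class: same-field density and potential density.
-/

namespace Pool.Agent.Work.D9

open MvPolynomial Matrix

section aux

variable {k : Type*} [Field k] {Ω : Type*} [Field Ω] [Algebra k Ω]

theorem exists_dot_k {a : Fin 3 → Ω} (ha : a ≠ 0) :
    ∃ v : Fin 3 → k, (algebraMap k Ω ∘ v) ⬝ᵥ a ≠ 0 := by
  classical
  obtain ⟨i, hi⟩ := Function.ne_iff.1 ha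
  refine ⟨Pi.single i 1, ?_⟩
  have : algebraMap k Ω ∘ (Pi.single i 1 : Fin 3 → k) = Pi.single i 1 := by
    funext j
    by_cases h : j = i
    · subst h; simp
    · simp [Pi.single_eq_of_ne h]
  rw [this, single_dotProduct, one_mul]
  exact hi

theorem comp_add_k (x y : Fin 3 → k) :
    algebraMap k Ω ∘ (x + y) = algebraMap k Ω ∘ x + algebraMap k Ω ∘ y := by
  funext i; simp

theorem exists_dot_two_k {a b : Fin 3 → Ω} (ha : a ≠ 0) (hb : b ≠ 0) :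
    ∃ v : Fin 3 → k, (algebraMap k Ω ∘ v) ⬝ᵥ a ≠ 0 ∧ (algebraMap k Ω ∘ v) ⬝ᵥ b ≠ 0 := by
  have h := exists_two (E := Fin 3 → k)
    (AddMonoidHom.mk' (fun v : Fin 3 → k => (algebraMap k Ω ∘ v) ⬝ᵥ a)
      (fun x y => by rw [comp_add_k, add_dotProduct]))
    (AddMonoidHom.mk' (fun v : Fin 3 → k => (algebraMap k Ω ∘ v) ⬝ᵥ b)
      (fun x y => by rw [comp_add_k, add_dotProduct]))
    (exists_dot_k ha) (exists_dot_k hb)
  exact h

theorem exists_mulVec_k {M : Matrix (Fin 3) (Fin 3) Ω} (hM : M ≠ 0) :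
    ∃ v : Fin 3 → k, M *ᵥ (algebraMap k Ω ∘ v) ≠ 0 := by
  classical
  obtain ⟨r, hr⟩ := Function.ne_iff.1 hM
  obtain ⟨c, hc⟩ := Function.ne_iff.1 hr
  refine ⟨Pi.single c 1, fun h => hc ?_⟩
  have h1 : algebraMap k Ω ∘ (Pi.single c 1 : Fin 3 → k) = Pi.single c 1 := by
    funext j
    by_cases h : j = c
    · subst h; simp
    · simp [Pi.single_eq_of_ne h]
  rw [h1] at h
  have := congrFun h r
  simpa using this

theorem exists_aux_k (B : Fin 3 → Matrix (Fin 3) (Fin 3) Ω) (l₀ l₁ : Fin 3 → Ω)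
    (h0 : l₀ ≠ 0) (h1 : l₁ ≠ 0) (hR0 : adjugate (rows B l₀) ≠ 0)
    (hR1 : adjugate (rows B l₁) ≠ 0) :
    ∃ xi et ze : Fin 3 → k,
      lam B (algebraMap k Ω ∘ xi) (algebraMap k Ω ∘ et) (algebraMap k Ω ∘ ze) l₀ ≠ 0 ∧
      lam B (algebraMap k Ω ∘ xi) (algebraMap k Ω ∘ et) (algebraMap k Ω ∘ ze) l₁ ≠ 0 := by
  obtain ⟨xi, hx0, hx1⟩ : ∃ v : Fin 3 → k, adjugate (rows B l₀) *ᵥ (algebraMap k Ω ∘ v) ≠ 0 ∧
      adjugate (rows B l₁) *ᵥ (algebraMap k Ω ∘ v) ≠ 0 := by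
    have h := exists_two (E := Fin 3 → k)
      (AddMonoidHom.mk' (fun v : Fin 3 → k => adjugate (rows B l₀) *ᵥ (algebraMap k Ω ∘ v))
        (fun x y => by rw [comp_add_k, mulVec_add]))
      (AddMonoidHom.mk' (fun v : Fin 3 → k => adjugate (rows B l₁) *ᵥ (algebraMap k Ω ∘ v))
        (fun x y => by rw [comp_add_k, mulVec_add]))
      (exists_mulVec_k hR0) (exists_mulVec_k hR1)
    exact h
  obtain ⟨et, he0, he1⟩ := exists_dot_two_k (k := k) hx0 hx1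
  obtain ⟨ze, hz0, hz1⟩ := exists_dot_two_k (k := k) h0 h1
  exact ⟨xi, et, ze, mul_ne_zero hz0 he0, mul_ne_zero hz1 he1⟩

theorem exists_om_k (B : Fin 3 → Matrix (Fin 3) (Fin 3) Ω)
    (n : Fin 3 → Fin 3 × Fin 3 → Fin 3 × Fin 3 → Ω) (xi l : Fin 3 → Ω)
    (h : xx l (om1 B n xi l) ≠ 0) : ∃ om : Fin 3 → k, A2 B n xi (algebraMap k Ω ∘ om) l ≠ 0 := by
  classical
  obtain ⟨j, hj⟩ : ∃ j, xx l (om1 B n xi l) j ≠ 0 := by
    by_contra hcon
    push Not at hcon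
    exact h (funext hcon)
  refine ⟨Pi.single j 1, ?_⟩
  have h1 : algebraMap k Ω ∘ (Pi.single j 1 : Fin 3 → k) = Pi.single j 1 := by
    funext i
    by_cases h : i = j
    · subst h; simp
    · simp [Pi.single_eq_of_ne h]
  rw [h1]
  have : A2 B n xi (Pi.single j 1) l = -(xx l (om1 B n xi l) j) := by
    rw [A2_eq]
    unfold xx
    simp only [cross_apply, dotProduct, Fin.sum_univ_three]
    fin_cases j <;> simp <;> ring
  rw [this]
  exact neg_ne_zero.mpr hj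

theorem map_jc {S T : Type*} [CommRing S] [CommRing T] (φ : S →+* T)
    (B : Fin 3 → Matrix (Fin 3) (Fin 3) S) : map φ (jc B) = jc (mB φ B) := by
  unfold jc
  rw [RingHom.map_det]
  congr 1
  ext i j
  simp [rows, mB]

end aux

section

variable {k : Type*} [Field k] [CharZero k] {Ω : Type*} [Field Ω] [Algebra k Ω] [IsAlgClosed Ω]

/-- same-field density: if the cubic of jumping lines has infinitely many points over `k`, then the
points of `X` over `k` are dense. -/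
theorem main_same (B : Fin 3 → Matrix (Fin 3) (Fin 3) k)
    (n : Fin 3 → Fin 3 × Fin 3 → Fin 3 × Fin 3 → k)
    (hs : ∀ l : Fin 3 → Ω, l ≠ 0 → eval l (jc (mB (algebraMap k Ω) B)) = 0 →
      ∃ i, eval l (pderiv i (jc (mB (algebraMap k Ω) B))) ≠ 0)
    (x₀ : Fin 3 → Ω) (hfib : SmoothFibre (mB (algebraMap k Ω) B) (mN (algebraMap k Ω) n) x₀)
    (l₀ p₀ m₀ a₀ g₀ : Fin 3 → Ω)
    (hc₀ : Cfg (mB (algebraMap k Ω) B) (mN (algebraMap k Ω) n) l₀ p₀ m₀ a₀ g₀)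
    (hf₀ : flexval (mN (algebraMap k Ω) n) l₀ p₀ a₀ g₀ = 0)
    (he₀ : endval (mN (algebraMap k Ω) n) l₀ p₀ a₀ g₀ ≠ 0)
    (l₁ p₁ m₁ a₁ g₁ : Fin 3 → Ω)
    (hc₁ : Cfg (mB (algebraMap k Ω) B) (mN (algebraMap k Ω) n) l₁ p₁ m₁ a₁ g₁)
    (hf₁ : flexval (mN (algebraMap k Ω) n) l₁ p₁ a₁ g₁ ≠ 0)
    (S : Set (Fin 3 → k)) (hS : S.Infinite)
    (hpair : ∀ l ∈ S, ∀ l' ∈ S, ∀ c : k, l = c • l' → l = l')
    (hSD : ∀ l ∈ S, l ≠ 0 ∧ (rows B l).det = 0)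
    (G : MvPolynomial (Fin 3 ⊕ (Fin 3 × Fin 3)) k)
    (hG : ∀ (x : Fin 3 → k) (A : Matrix (Fin 3) (Fin 3) k), x ≠ 0 → A ≠ 0 → IsPt B n x A →
      eval (join x A) G = 0)
    (x : Fin 3 → Ω) (A : Matrix (Fin 3) (Fin 3) Ω) (hx : x ≠ 0)
    (hA : IsPt (mB (algebraMap k Ω) B) (mN (algebraMap k Ω) n) x A)
    (hq : ∃ A' : Matrix (Fin 3) (Fin 3) Ω, A' *ᵥ x = 0 ∧
      (∀ i, trB (mB (algebraMap k Ω) B) i A' = 0) ∧
      qf (mN (algebraMap k Ω) n) x A' A' ≠ 0) :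
    aeval (join x A) G = 0 := by
  classical
  have : CharZero Ω := charZero_of_injective_algebraMap (algebraMap k Ω).injective
  set BO := mB (algebraMap k Ω) B with hBO
  set nO := mN (algebraMap k Ω) n with hnO
  have hD₀ : (rows BO l₀).det = 0 := det_of_ker _ p₀ hc₀.p0 hc₀.hp
  have hD₁ : (rows BO l₁).det = 0 := det_of_ker _ p₁ hc₁.p0 hc₁.hp
  obtain ⟨i₀, hi₀⟩ := hs l₀ hc₀.l0 (by rw [eval_jc]; exact hD₀)
  obtain ⟨i₁, hi₁⟩ := hs l₁ hc₁.l0 (by rw [eval_jc]; exact hD₁)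
  have hR₀ := adj_rows_ne BO l₀ i₀ hi₀
  have hR₁ := adj_rows_ne BO l₁ i₁ hi₁
  have hm₀ := adj_comb_ne BO hs m₀ hc₀.m0
  have hm₁ := adj_comb_ne BO hs m₁ hc₁.m0
  obtain ⟨xi, et, ze, hl₀, hl₁⟩ := exists_aux_k (k := k) BO l₀ l₁ hc₀.l0 hc₁.l0 hR₀ hR₁
  obtain ⟨haa, ⟨c, -, hcB⟩, hend, ⟨c', hc', hx'⟩⟩ :=
    compare BO nO _ _ _ l₀ p₀ m₀ a₀ g₀ hc₀ hR₀ hm₀ hl₀
  obtain ⟨-, ⟨c₁, hc₁0, hcB₁⟩, -, -⟩ := compare BO nO _ _ _ l₁ p₁ m₁ a₁ g₁ hc₁ hR₁ hm₁ hl₁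
  have hB0 : B0 BO nO (algebraMap k Ω ∘ xi) (algebraMap k Ω ∘ et) (algebraMap k Ω ∘ ze) l₀ = 0 := by
    rw [hcB, hf₀, mul_zero]
  have hC0 : C0 BO nO (algebraMap k Ω ∘ xi) (algebraMap k Ω ∘ et) (algebraMap k Ω ∘ ze) l₀ ≠ 0 := by
    obtain ⟨c₂, hc₂, h⟩ := hend hf₀
    rw [h]; exact mul_ne_zero hc₂ he₀
  have hB1 : B0 BO nO (algebraMap k Ω ∘ xi) (algebraMap k Ω ∘ et) (algebraMap k Ω ∘ ze) l₁ ≠ 0 := by
    rw [hcB₁]; exact mul_ne_zero hc₁0 hf₁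
  have hxx : xx l₀ (om1 BO nO (algebraMap k Ω ∘ xi) l₀) ≠ 0 := by
    rw [hx']; exact smul_ne_zero hc' hc₀.x0
  obtain ⟨om, hA2⟩ := exists_om_k (k := k) BO nO _ l₀ hxx
  have hT : ∀ G : MvPolynomial (Fin 3) k, (∀ x ∈ Split B n, eval x G = 0) → G = 0 :=
    fun G hG => split_dense_same B n hs xi et ze om l₀ hD₀ hB0 hC0 hA2 hl₀ haa l₁ hD₁ hB1 S hS hpair
      hSD G hG
  exact MC.dense_of_split' B n hT x₀ hfib G hG x A hA (surj_of_smooth BO hs x hx) hq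

/-- a plane cubic with a smooth point acquires infinitely many points over a finite extension -/
theorem cubic_infinite [Algebra.IsAlgebraic k Ω] (B : Fin 3 → Matrix (Fin 3) (Fin 3) k)
    (l₀ : Fin 3 → Ω) (h0 : (rows (mB (algebraMap k Ω) B) l₀).det = 0) (i : Fin 3)
    (hi : eval l₀ (pderiv i (jc (mB (algebraMap k Ω) B))) ≠ 0) :
    ∃ L : IntermediateField k Ω, FiniteDimensional k L ∧
      ∃ S : Set (Fin 3 → L), S.Infinite ∧
        (∀ l ∈ S, ∀ l' ∈ S, ∀ c : L, l = c • l' → l = l') ∧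
        ∀ l ∈ S, l ≠ 0 ∧ (rows (mB (algebraMap k L) B) l).det = 0 := by
  classical
  have : CharZero Ω := charZero_of_injective_algebraMap (algebraMap k Ω).injective
  obtain ⟨V, hV⟩ := exists_val_two Ω
  obtain ⟨Z, e₁, e₂, hlin, hZ, hinf⟩ := near_points V.valuation hV (jc (mB (algebraMap k Ω) B))
    (jc_hom _) l₀ (by rw [eval_jc]; exact h0) i hi 1 one_ne_zero
  let L : IntermediateField k Ω := IntermediateField.adjoin k (Z : Set Ω)
  have hWL : (Z : Set Ω) ⊆ L := IntermediateField.subset_adjoin k _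
  have hfd : FiniteDimensional k L := by
    have : Finite (Z : Set Ω) := Z.finite_toSet
    exact IntermediateField.finiteDimensional_adjoin fun x _ => Algebra.IsIntegral.isIntegral x
  refine ⟨L, hfd, ?_⟩
  let ι : L →+* Ω := algebraMap L Ω
  have hιinj : Function.Injective ι := (algebraMap L Ω).injective
  choose l₀L hl₀L using fun j => (⟨⟨l₀ j, hWL (hZ j).1⟩, rfl⟩ : ∃ y : L, ι y = l₀ j)
  choose e₁L he₁L using fun j => (⟨⟨e₁ j, hWL (hZ j).2.1⟩, rfl⟩ : ∃ y : L, ι y = e₁ j)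
  choose e₂L he₂L using fun j => (⟨⟨e₂ j, hWL (hZ j).2.2⟩, rfl⟩ : ∃ y : L, ι y = e₂ j)
  have hch : ∀ X Y : L, ι ∘ (l₀L + X • e₁L + Y • e₂L) = l₀ + ι X • e₁ + ι Y • e₂ := by
    intro X Y
    funext j
    simp [Function.comp, hl₀L, he₁L, he₂L]
  have hchinj : ∀ (X Y X' Y' : Ω) (c : Ω),
      l₀ + X • e₁ + Y • e₂ = c • (l₀ + X' • e₁ + Y' • e₂) → X = X' ∧ Y = Y' := by
    intro X Y X' Y' c h
    have h1 := Fintype.linearIndependent_iff.mp hlin ![1 - c, X - c * X', Y - c * Y'] (by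
      simp only [Fin.sum_univ_three, Matrix.cons_val_zero, Matrix.cons_val_one, Matrix.cons_val]
      have : (1 - c) • l₀ + (X - c * X') • e₁ + (Y - c * Y') • e₂ =
        (l₀ + X • e₁ + Y • e₂) - c • (l₀ + X' • e₁ + Y' • e₂) := by
        simp only [sub_smul, smul_add, mul_smul, one_smul]
        abel
      rw [this, h, sub_self])
    have a0 : 1 - c = 0 := h1 0
    have a1 : X - c * X' = 0 := h1 1
    have a2 : Y - c * Y' = 0 := h1 2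
    have hc : c = 1 := (sub_eq_zero.mp a0).symm
    rw [hc, one_mul] at a1 a2
    exact ⟨sub_eq_zero.mp a1, sub_eq_zero.mp a2⟩
  let S : Set (Fin 3 → L) := {l | ∃ X Y : L, l = l₀L + X • e₁L + Y • e₂L ∧
    (rows (mB (algebraMap k L) B) l).det = 0}
  have hdet : ∀ l : Fin 3 → L, ι (rows (mB (algebraMap k L) B) l).det =
      (rows (mB (algebraMap k Ω) B) (ι ∘ l)).det := by
    intro l
    rw [map_det_rows ι, mB_mB]
    rfl
  refine ⟨S, ?_, ?_, ?_⟩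
  · intro hSfin
    apply hinf L.toSubfield (fun x hx => hWL hx)
    refine Set.Finite.subset ((hSfin.image fun l => ι ∘ l).preimage
      (f := fun XY : Ω × Ω => l₀ + XY.1 • e₁ + XY.2 • e₂) ?_) ?_
    · rintro ⟨X, Y⟩ _ ⟨X', Y'⟩ _ h
      have h' : l₀ + X • e₁ + Y • e₂ = (1 : Ω) • (l₀ + X' • e₁ + Y' • e₂) := by
        rw [one_smul]; exact h
      obtain ⟨h1, h2⟩ := hchinj _ _ _ _ _ h'
      rw [h1, h2]
    · rintro ⟨X, Y⟩ ⟨hX, hY, hz, -⟩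
      refine ⟨l₀L + (⟨X, hX⟩ : L) • e₁L + (⟨Y, hY⟩ : L) • e₂L, ⟨⟨X, hX⟩, ⟨Y, hY⟩, rfl, ?_⟩,
        hch _ _⟩
      apply hιinj
      rw [hdet, hch, map_zero, ← eval_jc]
      exact hz
  · rintro _ ⟨X, Y, rfl, -⟩ _ ⟨X', Y', rfl, -⟩ c h
    have h1 : ι ∘ (l₀L + X • e₁L + Y • e₂L) = ι c • (ι ∘ (l₀L + X' • e₁L + Y' • e₂L)) := by
      rw [h]; funext j; simp [Function.comp]
    rw [hch, hch] at h1
    obtain ⟨h2, h3⟩ := hchinj _ _ _ _ _ h1
    rw [hιinj h2, hιinj h3]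
  · rintro _ ⟨X, Y, rfl, h⟩
    refine ⟨?_, h⟩
    intro h4
    have h5 := hch X Y
    rw [h4] at h5
    have h6 := Fintype.linearIndependent_iff.mp hlin ![1, ι X, ι Y] (by
      simp only [Fin.sum_univ_three, Matrix.cons_val_zero, Matrix.cons_val_one, Matrix.cons_val,
        one_smul]
      rw [← h5]
      funext j
      simp) 0
    exact one_ne_zero h6

end

/-- infinitely many jumping lines over the given field -/
def InfJ {k : Type*} [Field k] (B : Fin 3 → Matrix (Fin 3) (Fin 3) k) : Prop :=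
  ∃ S : Set (Fin 3 → k), S.Infinite ∧ (∀ l ∈ S, ∀ l' ∈ S, ∀ c : k, l = c • l' → l = l') ∧
    ∀ l ∈ S, l ≠ 0 ∧ (rows B l).det = 0

/-- Outside the zeros of one nonzero polynomial in the coefficients: if the cubic of jumping lines
has infinitely many points over `k`, the `k`-points of `X` are Zariski dense in `X`; and the cubic
has infinitely many points over some finite extension. -/
theorem general_same : ∃ Φ : MvPolynomial Par ℚ, Φ ≠ 0 ∧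
    ∀ (k Ω : Type*) [Field k] [CharZero k] [Field Ω] [Algebra k Ω] [IsAlgClosed Ω]
      (B : Fin 3 → Matrix (Fin 3) (Fin 3) k) (n : Fin 3 → Fin 3 × Fin 3 → Fin 3 × Fin 3 → k),
      aeval (par B n) Φ ≠ 0 →
      (∀ x : Fin 3 → Ω, x ≠ 0 →
        (∀ y z : Fin 3 → Ω, ∃ A : Matrix (Fin 3) (Fin 3) Ω, A *ᵥ x = y ∧
          ∀ i, trB (mB (algebraMap k Ω) B) i A = z i) ∧
        ∃ A : Matrix (Fin 3) (Fin 3) Ω, A *ᵥ x = 0 ∧ (∀ i, trB (mB (algebraMap k Ω) B) i A = 0) ∧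
          qf (mN (algebraMap k Ω) n) x A A ≠ 0) ∧
      SmoothFibre (mB (algebraMap k Ω) B) (mN (algebraMap k Ω) n) ![1, 0, 0] ∧
      (InfJ B → ∀ G : MvPolynomial (Fin 3 ⊕ (Fin 3 × Fin 3)) k,
          (∀ (x : Fin 3 → k) (A : Matrix (Fin 3) (Fin 3) k), x ≠ 0 → A ≠ 0 →
            IsPt B n x A → eval (join x A) G = 0) →
          ∀ (x : Fin 3 → Ω) (A : Matrix (Fin 3) (Fin 3) Ω), x ≠ 0 →
            IsPt (mB (algebraMap k Ω) B) (mN (algebraMap k Ω) n) x A →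
            aeval (join x A) G = 0) ∧
      (Algebra.IsAlgebraic k Ω → ∃ L : IntermediateField k Ω, FiniteDimensional k L ∧
        InfJ (mB (algebraMap k L) B)) := by
  obtain ⟨Φ₁, h₁, H₁⟩ := generic_good_base
  obtain ⟨Φ₂, h₂, H₂⟩ := NP.noplane_generic
  refine ⟨Φ₁ * Φ₂, mul_ne_zero h₁ h₂, ?_⟩
  intro k Ω _ _ _ _ _ B n hBn
  have : CharZero Ω := charZero_of_injective_algebraMap (algebraMap k Ω).injective
  rw [map_mul] at hBn
  obtain ⟨hs, hfib, ⟨l₀, p₀, m₀, a₀, g₀, hc₀, hf₀, he₀⟩, ⟨l₁, p₁, m₁, a₁, g₁, hc₁, hf₁⟩⟩ :=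
    H₁ k Ω B n (left_ne_zero_of_mul hBn)
  have hpar : par (mB (algebraMap k Ω) B) (mN (algebraMap k Ω) n) = algebraMap k Ω ∘ par B n := by
    funext t
    rcases t with t | t <;> rfl
  have hev : ∀ P : MvPolynomial Par ℚ, aeval (par (mB (algebraMap k Ω) B) (mN (algebraMap k Ω) n)) P
      = algebraMap k Ω (aeval (par B n) P) := by
    intro P
    rw [hpar, aeval_def, aeval_def, ← MvPolynomial.coe_eval₂Hom, ← MvPolynomial.coe_eval₂Hom,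
      ← RingHom.comp_apply]
    congr 1
    apply MvPolynomial.ringHom_ext
    · intro r
      simp
    · intro i
      simp
  have hq : ∀ x : Fin 3 → Ω, x ≠ 0 →
      ∃ A : Matrix (Fin 3) (Fin 3) Ω, A *ᵥ x = 0 ∧ (∀ i, trB (mB (algebraMap k Ω) B) i A = 0) ∧
        qf (mN (algebraMap k Ω) n) x A A ≠ 0 := by
    refine H₂ Ω (mB (algebraMap k Ω) B) (mN (algebraMap k Ω) n) ?_
    have h3 : OF.prm (mB (algebraMap k Ω) B) (mN (algebraMap k Ω) n)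
        = par (mB (algebraMap k Ω) B) (mN (algebraMap k Ω) n) := rfl
    rw [h3, hev]
    intro h0
    exact (right_ne_zero_of_mul hBn) ((map_eq_zero _).mp h0)
  refine ⟨fun x hx => ⟨surj_of_smooth _ hs x hx, hq x hx⟩, hfib, ?_, ?_⟩
  · rintro ⟨S, hS, hpair, hSD⟩ G hG x A hx hA
    exact main_same B n hs _ hfib l₀ p₀ m₀ a₀ g₀ hc₀ hf₀ he₀ l₁ p₁ m₁ a₁ g₁ hc₁ hf₁ S hS hpair hSD
      G hG x A hx hA (hq x hx)
  · intro halg
    have hD₀ : (rows (mB (algebraMap k Ω) B) l₀).det = 0 := det_of_ker _ p₀ hc₀.p0 hc₀.hp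
    obtain ⟨i₀, hi₀⟩ := hs l₀ hc₀.l0 (by rw [eval_jc]; exact hD₀)
    exact cubic_infinite B l₀ hD₀ i₀ hi₀

end Pool.Agent.Work.D9
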