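import Mathlib
import Pool.Agent.Work.MP_b62148_ag.D9.ModC2

/-!
Density of the rational points on a conic bundle given by a ternary quadratic form with polynomial
coefficients, from a dense set of points of the base over which the conic has a point.
-/

namespace Pool.Agent.Work.D9.CD

open MvPolynomial Matrix Pool.Agent.Work.D9.MC

section

variable {L K τ : Type*} [Field L] [Field K] [Algebra L K]

/-- values of the quadratic form -/
lemma qq_aeval {T : Type*} [CommRing T] [Algebra L T] (Q : Matrix (Fin 3) (Fin 3) (MvPolynomial τ L))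
    (x : τ → T) (w : Fin 3 → MvPolynomial τ L) :
    aeval x (qq Q w) = qq (Q.map (aeval x)) (fun i => aeval x (w i)) := by
  have h := qq_map ((aeval x : MvPolynomial τ L →ₐ[L] T) : MvPolynomial τ L →+* T) Q w
  rw [RingHom.coe_coe] at h
  exact h.symm

/-- division by the conic, at points -/
lemma exists_div (Q : Matrix (Fin 3) (Fin 3) (MvPolynomial τ L)) (v : Fin 3 → L)
    (G : MvPolynomial (τ ⊕ Fin 3) L) :
    ∃ (N : ℕ) (r1 r0 : MvPolynomial (τ ⊕ Fin 3) L), ∀ (x : τ → K) (u : Fin 3 → K) (s : K),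
      qq (Q.map (aeval x)) (u + s • fun i => algebraMap L K (v i)) = 0 →
      qq (Q.map (aeval x)) (fun i => algebraMap L K (v i)) ^ N *
        aeval (Sum.elim x (u + s • fun i => algebraMap L K (v i))) G
      = aeval (Sum.elim x u) r1 * s + aeval (Sum.elim x u) r0 := by
  let T := MvPolynomial (τ ⊕ Fin 3) L
  let QS : Matrix (Fin 3) (Fin 3) T := Q.map (rename Sum.inl)
  let uS : Fin 3 → T := fun i => X (Sum.inr i)
  let vS : Fin 3 → T := fun i => C (v i)
  obtain ⟨N, r1, r0, h⟩ := division (K := K) (qq QS vS) (bb QS uS vS) (qq QS uS)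
    (Sum.elim (fun t => X (Sum.inl t)) uS) (Sum.elim (fun _ => 0) vS) G
  refine ⟨N, r1, r0, fun x u s hs => ?_⟩
  let ψ : T →ₐ[L] K := aeval (Sum.elim x u)
  have hQ : QS.map (ψ : T →+* K) = Q.map (aeval x) := by
    ext i j
    rw [Matrix.map_apply, Matrix.map_apply]
    show aeval (Sum.elim x u) (rename Sum.inl (Q i j)) = _
    rw [aeval_rename]
    rfl
  have hu : (fun i => ψ (uS i)) = u := by
    funext i
    exact aeval_X _ _
  have hv : (fun i => ψ (vS i)) = fun i => algebraMap L K (v i) := by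
    funext i
    exact MvPolynomial.aeval_C _ _
  have e1 : ψ (qq QS vS) = qq (Q.map (aeval x)) (fun i => algebraMap L K (v i)) := by
    have h0 := qq_map (ψ : T →+* K) QS vS
    rw [RingHom.coe_coe] at h0
    rw [← h0, hv]
    congr 1
  have e2 : ψ (qq QS uS) = qq (Q.map (aeval x)) u := by
    have h0 := qq_map (ψ : T →+* K) QS uS
    rw [RingHom.coe_coe] at h0
    rw [← h0, hu]
    congr 1
  have e3 : ψ (bb QS uS vS) = bb (Q.map (aeval x)) u (fun i => algebraMap L K (v i)) := by
    have h0 := bb_map (ψ : T →+* K) QS uS vS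
    rw [RingHom.coe_coe] at h0
    rw [← h0, hu, hv]
    congr 1
  have h1 := h ψ s
  rw [e1, e2, e3] at h1
  have hq : qq (Q.map (aeval x)) (u + s • fun i => algebraMap L K (v i))
      = qq (Q.map (aeval x)) (fun i => algebraMap L K (v i)) * s ^ 2
        + bb (Q.map (aeval x)) u (fun i => algebraMap L K (v i)) * s
        + qq (Q.map (aeval x)) u := by
    have := qq_comb (Q.map (aeval x)) u (fun i => algebraMap L K (v i)) 1 s
    rw [one_smul] at this
    rw [this]
    ring
  have h2 := h1 (by rw [← hq]; exact hs)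
  have h3 : (fun j => ψ ((Sum.elim (fun t => X (Sum.inl t)) uS : τ ⊕ Fin 3 → T) j)
      + s * ψ ((Sum.elim (fun _ => 0) vS : τ ⊕ Fin 3 → T) j))
      = Sum.elim x (u + s • fun i => algebraMap L K (v i)) := by
    funext j
    rcases j with j | j
    · show ψ (X (Sum.inl j)) + s * ψ 0 = x j
      rw [map_zero, mul_zero, add_zero]
      exact aeval_X _ _
    · have a1 := congrFun hu j
      have a2 := congrFun hv j
      simp only [Sum.elim_inr, Pi.add_apply, Pi.smul_apply, smul_eq_mul] at a1 a2 ⊢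
      rw [a1, a2]
  rw [h3] at h2
  exact h2

/-- the remainders vanish over a good split point -/
lemma rem_zero [CharZero L] [IsAlgClosed K] (Q : Matrix (Fin 3) (Fin 3) (MvPolynomial τ L))
    (v : Fin 3 → L) (G : MvPolynomial (τ ⊕ Fin 3) L) (x : τ → L)
    (hG : ∀ u : Fin 3 → L, u ≠ 0 → qq (Q.map (eval x)) u = 0 → eval (Sum.elim x u) G = 0)
    (N : ℕ) (r1 r0 : MvPolynomial (τ ⊕ Fin 3) L)
    (hdiv : ∀ (x : τ → K) (u : Fin 3 → K) (s : K),
      qq (Q.map (aeval x)) (u + s • fun i => algebraMap L K (v i)) = 0 →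
      qq (Q.map (aeval x)) (fun i => algebraMap L K (v i)) ^ N *
        aeval (Sum.elim x (u + s • fun i => algebraMap L K (v i))) G
      = aeval (Sum.elim x u) r1 * s + aeval (Sum.elim x u) r0)
    (hsp : ∃ u : Fin 3 → L, u ≠ 0 ∧ qq (Q.map (eval x)) u = 0)
    (hds : (Q.map (eval x) + (Q.map (eval x))ᵀ).det ≠ 0)
    (hv : qq (Q.map (eval x)) v ≠ 0) (u : Fin 3 → L)
    (hu : bb (Q.map (eval x)) v u ^ 2 - 4 * qq (Q.map (eval x)) v * qq (Q.map (eval x)) u ≠ 0) :
    eval (Sum.elim x u) r1 = 0 ∧ eval (Sum.elim x u) r0 = 0 := by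
  have : CharZero K := charZero_of_injective_algebraMap (algebraMap L K).injective
  obtain ⟨a, ha0, haq⟩ := hsp
  let P := MvPolynomial (Fin 3) L
  let g : P := aeval (Sum.elim (fun t => C (x t)) X : τ ⊕ Fin 3 → P) G
  have hgK : ∀ w : Fin 3 → K, aeval w g = aeval (Sum.elim (fun t => algebraMap L K (x t)) w) G := by
    intro w
    show aeval w (aeval (Sum.elim (fun t => C (x t)) X : τ ⊕ Fin 3 → P) G) = _
    rw [← AlgHom.comp_apply]
    congr 1
    apply MvPolynomial.algHom_ext
    intro j
    rw [AlgHom.comp_apply, aeval_X, aeval_X]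
    rcases j with j | j
    · rw [Sum.elim_inl, Sum.elim_inl]
      exact MvPolynomial.aeval_C _ _
    · rw [Sum.elim_inr, Sum.elim_inr, aeval_X]
  have hgL : ∀ w : Fin 3 → L, eval w g = eval (Sum.elim x w) G := by
    intro w
    show (aeval w : P →ₐ[L] L) (aeval (Sum.elim (fun t => C (x t)) X : τ ⊕ Fin 3 → P) G)
      = (aeval (Sum.elim x w) : MvPolynomial (τ ⊕ Fin 3) L →ₐ[L] L) G
    rw [← AlgHom.comp_apply]
    congr 1
    apply MvPolynomial.algHom_ext
    intro j
    rw [AlgHom.comp_apply, aeval_X, aeval_X]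
    rcases j with j | j
    · rw [Sum.elim_inl, Sum.elim_inl]
      exact MvPolynomial.aeval_C _ _
    · rw [Sum.elim_inr, Sum.elim_inr, aeval_X]
  set xK : τ → K := fun t => algebraMap L K (x t) with hxK
  have hval : ∀ r : MvPolynomial τ L, aeval xK r = algebraMap L K (eval x r) := fun r =>
    MvPolynomial.aeval_algebraMap_apply K x r
  have hQK : Q.map (aeval xK) = (Q.map (eval x)).map (algebraMap L K) := by
    ext i j
    rw [Matrix.map_apply, Matrix.map_apply, Matrix.map_apply, hval]
  have hcone : ∀ w : Fin 3 → K, qq (Q.map (aeval xK)) w = 0 → aeval w g = 0 := by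
    intro w hw
    apply cone_zero (Q.map (eval x)) hds a ha0 haq g ?_ w ?_
    · intro w' hw0 hw'
      rw [hgL]
      exact hG w' hw0 hw'
    · rw [← hQK]
      exact hw
  set uK : Fin 3 → K := fun i => algebraMap L K (u i) with huK
  set vK : Fin 3 → K := fun i => algebraMap L K (v i) with hvK
  have hal : qq (Q.map (aeval xK)) vK = algebraMap L K (qq (Q.map (eval x)) v) := by
    rw [hQK, hvK, qq_map]
  have hga : qq (Q.map (aeval xK)) uK = algebraMap L K (qq (Q.map (eval x)) u) := by
    rw [hQK, huK, qq_map]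
  have hbe : bb (Q.map (aeval xK)) uK vK = algebraMap L K (bb (Q.map (eval x)) v u) := by
    rw [bb_comm, hQK, huK, hvK, bb_map]
  set al : K := algebraMap L K (qq (Q.map (eval x)) v) with hal'
  set be : K := algebraMap L K (bb (Q.map (eval x)) v u) with hbe'
  set ga : K := algebraMap L K (qq (Q.map (eval x)) u) with hga'
  have hal0 : al ≠ 0 := by
    rw [hal']
    intro h
    exact hv ((map_eq_zero _).mp h)
  have hD : be ^ 2 - 4 * al * ga ≠ 0 := by
    intro h
    apply hu
    apply (algebraMap L K).injective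
    rw [map_zero, ← h, hal', hbe', hga']
    rw [map_sub, map_pow, map_mul, map_mul, map_ofNat]
  obtain ⟨δ, hδ⟩ := IsAlgClosed.exists_pow_nat_eq (be ^ 2 - 4 * al * ga) (n := 2) (by norm_num)
  have hδ0 : δ ≠ 0 := by
    intro h
    apply hD
    rw [← hδ, h]
    ring
  have hq : ∀ s : K, qq (Q.map (aeval xK)) (uK + s • vK) = al * s ^ 2 + be * s + ga := by
    intro s
    have := qq_comb (Q.map (aeval xK)) uK vK 1 s
    rw [one_smul] at this
    rw [this, hal, hga, hbe]
    ring
  have hroot : ∀ s : K, al * s ^ 2 + be * s + ga = 0 →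
      aeval (Sum.elim xK uK) r1 * s + aeval (Sum.elim xK uK) r0 = 0 := by
    intro s hs
    have h1 := hdiv xK uK s (by rw [hq]; exact hs)
    rw [← h1]
    have h2 := hcone (uK + s • vK) (by rw [hq]; exact hs)
    rw [hgK] at h2
    rw [h2, mul_zero]
  have e1 := hroot ((-be + δ) / (2 * al)) (by field_simp; linear_combination hδ)
  have e2 := hroot ((-be - δ) / (2 * al)) (by field_simp; linear_combination hδ)
  have h1 : aeval (Sum.elim xK uK) r1 = 0 := by
    have h3 : aeval (Sum.elim xK uK) r1 * (δ / al) = 0 := by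
      have h4 : (-be + δ) / (2 * al) - (-be - δ) / (2 * al) = δ / al := by
        field_simp; ring
      rw [← h4]
      linear_combination e1 - e2
    rcases mul_eq_zero.mp h3 with h5 | h5
    · exact h5
    · exact absurd h5 (div_ne_zero hδ0 hal0)
  have h0 : aeval (Sum.elim xK uK) r0 = 0 := by
    rw [h1] at e1
    linear_combination e1
  have hval2 : ∀ r : MvPolynomial (τ ⊕ Fin 3) L,
      aeval (Sum.elim xK uK) r = algebraMap L K (eval (Sum.elim x u) r) := by
    intro r
    have h3 : (Sum.elim xK uK : τ ⊕ Fin 3 → K)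
        = fun j => algebraMap L K ((Sum.elim x u : τ ⊕ Fin 3 → L) j) := by
      funext j
      rcases j with j | j <;> rfl
    have h4 := MvPolynomial.aeval_algebraMap_apply K (Sum.elim x u) r
    rw [h3]
    exact h4
  rw [hval2] at h1 h0
  exact ⟨(map_eq_zero _).mp h1, (map_eq_zero _).mp h0⟩

end

/-- with an auxiliary algebraically closed field -/
theorem dense_core {L Ω τ : Type*} (K : Type*) [Field L] [CharZero L] [Field Ω] [Algebra L Ω]
    [Field K] [Algebra L K] [Algebra Ω K] [IsScalarTower L Ω K] [IsAlgClosed K]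
    (Q : Matrix (Fin 3) (Fin 3) (MvPolynomial τ L)) (hdet : (Q + Qᵀ).det ≠ 0)
    (S : Set (τ → L)) (hS : ∀ G : MvPolynomial τ L, (∀ x ∈ S, eval x G = 0) → G = 0)
    (hsplit : ∀ x ∈ S, ∃ u : Fin 3 → L, u ≠ 0 ∧ qq (Q.map (eval x)) u = 0)
    (G : MvPolynomial (τ ⊕ Fin 3) L)
    (hG : ∀ x ∈ S, ∀ u : Fin 3 → L, u ≠ 0 → qq (Q.map (eval x)) u = 0 →
      eval (Sum.elim x u) G = 0)
    (v : Fin 3 → L) (x : τ → Ω) (u : Fin 3 → Ω) (hu : qq (Q.map (aeval x)) u = 0)
    (hv : qq (Q.map (aeval x)) (fun i => algebraMap L Ω (v i)) ≠ 0) :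
    aeval (Sum.elim x u) G = 0 := by
  let P := MvPolynomial τ L
  set al : P := qq Q (fun i => C (v i)) with hal
  have halx : aeval x al = qq (Q.map (aeval x)) (fun i => algebraMap L Ω (v i)) := by
    rw [hal, qq_aeval]
    congr 1
    funext i
    exact MvPolynomial.aeval_C _ _
  have hal0 : al ≠ 0 := by
    intro h
    apply hv
    rw [← halx, h, map_zero]
  obtain ⟨N, r1, r0, hdiv⟩ := exists_div (K := K) Q v G
  have eds : ∀ x : τ → L, eval x (Q + Qᵀ).det = (Q.map (eval x) + (Q.map (eval x))ᵀ).det := by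
    intro x
    have h := RingHom.map_det (eval x) (Q + Qᵀ)
    rw [h, RingHom.mapMatrix_apply]
    congr 1
    ext i j
    simp
  have eal : ∀ x : τ → L, eval x al = qq (Q.map (eval x)) v := by
    intro x
    have h := qq_map (eval x) Q (fun i => C (v i))
    rw [hal, ← h]
    congr 1
    funext i
    rw [eval_C]
  let T := MvPolynomial (τ ⊕ Fin 3) L
  let QS : Matrix (Fin 3) (Fin 3) T := Q.map (rename Sum.inl)
  let uS : Fin 3 → T := fun i => X (Sum.inr i)
  let vS : Fin 3 → T := fun i => C (v i)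
  let DS : T := bb QS vS uS ^ 2 - 4 * qq QS vS * qq QS uS
  have eDS : ∀ (x : τ → L) (u : Fin 3 → L), eval (Sum.elim x u) DS
      = bb (Q.map (eval x)) v u ^ 2 - 4 * qq (Q.map (eval x)) v * qq (Q.map (eval x)) u := by
    intro x u
    have hQ' : QS.map (eval (Sum.elim x u)) = Q.map (eval x) := by
      ext i j
      rw [Matrix.map_apply, Matrix.map_apply]
      show eval (Sum.elim x u) (rename Sum.inl (Q i j)) = _
      rw [eval_rename]
      rfl
    have hu' : (fun i => eval (Sum.elim x u) (uS i)) = u := by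
      funext i; simp [uS]
    have hv' : (fun i => eval (Sum.elim x u) (vS i)) = v := by
      funext i; simp [vS]
    have e1 := qq_map (eval (Sum.elim x u)) QS vS
    have e2 := qq_map (eval (Sum.elim x u)) QS uS
    have e3 := bb_map (eval (Sum.elim x u)) QS vS uS
    rw [hQ', hv'] at e1
    rw [hQ', hu'] at e2
    rw [hQ', hu', hv'] at e3
    simp only [DS]
    rw [map_sub, map_pow, map_mul, map_mul, map_ofNat, ← e1, ← e2, ← e3]
  have hDS0 : DS ≠ 0 := by
    intro h0
    apply mul_ne_zero hdet hal0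
    apply MvPolynomial.funext
    intro x
    rw [map_mul, eds, eal, map_zero]
    by_contra hcon
    obtain ⟨h2, h3⟩ := mul_ne_zero_iff.mp hcon
    obtain ⟨u, hu⟩ := disc_exists (Q.map (eval x)) h2 v h3
    apply hu
    rw [← eDS, h0, map_zero]
  have hrem : ∀ r : T, (∀ x ∈ S, (Q.map (eval x) + (Q.map (eval x))ᵀ).det ≠ 0 →
      qq (Q.map (eval x)) v ≠ 0 → ∀ u : Fin 3 → L, eval (Sum.elim x u) DS ≠ 0 →
      eval (Sum.elim x u) r = 0) → r = 0 := by
    intro r hr
    have h1 : r * DS = 0 := by
      apply MvPolynomial.funext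
      intro y
      let x : τ → L := fun i => y (Sum.inl i)
      let u : Fin 3 → L := fun i => y (Sum.inr i)
      have hy : y = Sum.elim x u := by
        funext j
        rcases j with j | j <;> rfl
      let PL : P := aeval (Sum.elim X (fun i => C (u i)) : τ ⊕ Fin 3 → P) (r * DS)
      have hPL : ∀ x' : τ → L, eval x' PL = eval (Sum.elim x' u) (r * DS) := by
        intro x'
        show (aeval x' : P →ₐ[L] L) (aeval (Sum.elim X (fun i => C (u i)) : τ ⊕ Fin 3 → P)
          (r * DS)) = (aeval (Sum.elim x' u) : T →ₐ[L] L) (r * DS)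
        rw [← AlgHom.comp_apply]
        congr 1
        apply MvPolynomial.algHom_ext
        intro j
        rw [AlgHom.comp_apply, aeval_X, aeval_X]
        rcases j with j | j
        · rw [Sum.elim_inl, Sum.elim_inl, aeval_X]
        · rw [Sum.elim_inr, Sum.elim_inr]
          exact MvPolynomial.aeval_C _ _
      have hzero : PL * ((Q + Qᵀ).det * al) = 0 := by
        apply hS
        intro x' hx'
        rw [map_mul, map_mul, eds, eal, hPL, map_mul]
        by_contra hcon
        obtain ⟨h2, h3⟩ := mul_ne_zero_iff.mp hcon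
        obtain ⟨h4, h5⟩ := mul_ne_zero_iff.mp h3
        obtain ⟨h8, h9⟩ := mul_ne_zero_iff.mp h2
        exact h8 (hr x' hx' h4 h5 u h9)
      have hPL0 : PL = 0 := (mul_eq_zero.mp hzero).resolve_right (mul_ne_zero hdet hal0)
      rw [hy, ← hPL, hPL0, map_zero, map_zero]
    exact (mul_eq_zero.mp h1).resolve_right hDS0
  have hr1 : r1 = 0 := hrem r1 (fun x hx h1 h2 u hu =>
    (rem_zero (K := K) Q v G x (hG x hx) N r1 r0 hdiv (hsplit x hx) h1 h2 u
      (by rw [← eDS]; exact hu)).1)
  have hr0 : r0 = 0 := hrem r0 (fun x hx h1 h2 u hu =>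
    (rem_zero (K := K) Q v G x (hG x hx) N r1 r0 hdiv (hsplit x hx) h1 h2 u
      (by rw [← eDS]; exact hu)).2)
  -- conclusion
  let ι : Ω →ₐ[L] K := IsScalarTower.toAlgHom L Ω K
  have hιL : ∀ l : L, ι (algebraMap L Ω l) = algebraMap L K l := fun l => ι.commutes l
  have hιinj : Function.Injective ι := ι.toRingHom.injective
  have hQι : Q.map (aeval fun t => ι (x t)) = (Q.map (aeval x)).map (ι : Ω →+* K) := by
    ext i j
    rw [Matrix.map_apply, Matrix.map_apply, Matrix.map_apply, RingHom.coe_coe]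
    rw [← AlgHom.comp_apply, MvPolynomial.comp_aeval]
  have hq : ∀ w : Fin 3 → Ω, qq (Q.map (aeval fun t => ι (x t))) (fun i => ι (w i))
      = ι (qq (Q.map (aeval x)) w) := by
    intro w
    rw [hQι]
    exact qq_map (ι : Ω →+* K) _ w
  have h2 := hdiv (fun t => ι (x t)) (fun i => ι (u i)) 0 (by
    rw [zero_smul, add_zero, hq, hu, map_zero])
  rw [hr1, hr0, map_zero, zero_mul, add_zero, zero_smul, add_zero] at h2
  have h3 : (Sum.elim (fun t => ι (x t)) (fun i => ι (u i)) : τ ⊕ Fin 3 → K)
      = fun j => ι (Sum.elim x u j) := by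
    funext j
    rcases j with j | j <;> rfl
  have h4 : aeval (fun j => ι (Sum.elim x u j)) G = ι (aeval (Sum.elim x u) G) := by
    rw [← AlgHom.comp_apply, MvPolynomial.comp_aeval]
  have h5 : qq (Q.map (aeval fun t => ι (x t))) (fun i => algebraMap L K (v i))
      = ι (aeval x al) := by
    rw [halx, ← hq]
    simp only [hιL]
  rw [h3, h4, h5, ← map_pow, ← map_mul] at h2
  have h6 : aeval x al ^ N * aeval (Sum.elim x u) G = 0 := by
    apply hιinj
    rw [h2, map_zero]
  rcases mul_eq_zero.mp h6 with h7 | h7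
  · exfalso
    apply hv
    rw [← halx]
    by_contra h9
    exact pow_ne_zero N h9 h7
  · exact h7

/-- **(C)** A conic bundle given by a ternary quadratic form `Q` with polynomial coefficients over
`L` in the coordinates of the base, with non zero discriminant; `S` a Zariski dense set of points of
the base over `L` at which the conic has a point over `L`. A polynomial vanishing at all the points
over `L` of the conics over `S` vanishes at every point over `Ω` of the conic bundle, over every
point of the base at which `Q` is not zero. -/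
theorem dense_conic {L Ω τ : Type*} [Field L] [CharZero L] [Field Ω] [Algebra L Ω]
    (Q : Matrix (Fin 3) (Fin 3) (MvPolynomial τ L)) (hdet : (Q + Qᵀ).det ≠ 0)
    (S : Set (τ → L)) (hS : ∀ G : MvPolynomial τ L, (∀ x ∈ S, eval x G = 0) → G = 0)
    (hsplit : ∀ x ∈ S, ∃ u : Fin 3 → L, u ≠ 0 ∧ qq (Q.map (eval x)) u = 0)
    (G : MvPolynomial (τ ⊕ Fin 3) L)
    (hG : ∀ x ∈ S, ∀ u : Fin 3 → L, u ≠ 0 → qq (Q.map (eval x)) u = 0 →
      eval (Sum.elim x u) G = 0)
    (x : τ → Ω) (u : Fin 3 → Ω) (hu : qq (Q.map (aeval x)) u = 0)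
    (hQ : ∃ u' : Fin 3 → Ω, qq (Q.map (aeval x)) u' ≠ 0) :
    aeval (Sum.elim x u) G = 0 := by
  obtain ⟨u', hu'⟩ := hQ
  obtain ⟨v, hv⟩ := exists_dir_base (L := L) (Q.map (aeval x)) u' hu'
  exact dense_core (AlgebraicClosure Ω) Q hdet S hS hsplit G hG v x u hu hv

end Pool.Agent.Work.D9.CD
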