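import Mathlib
import Pool.Agent.Work.MP_b62148_ag.D9.ModC2
import Pool.Agent.Work.MP_b62148_ag.D9.ConicDense

/-!
`X` is irreducible: if a product of two polynomials vanishes on `X`, one of them does.
-/

namespace Pool.Agent.Work.D9.IR

open MvPolynomial Matrix MC

section cone

variable {Ω : Type*} [Field Ω] [CharZero Ω]

theorem exists_isotropic [IsAlgClosed Ω] (Q : Matrix (Fin 3) (Fin 3) Ω) :
    ∃ a : Fin 3 → Ω, a ≠ 0 ∧ qq Q a = 0 := by
  by_cases h : qq Q ![1, 0, 0] = 0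
  · refine ⟨![1, 0, 0], fun h0 => ?_, h⟩
    have := congrFun h0 0
    simp at this
  · obtain ⟨δ, hδ⟩ := IsAlgClosed.exists_pow_nat_eq
      (bb Q ![1, 0, 0] ![0, 1, 0] ^ 2 - 4 * qq Q ![1, 0, 0] * qq Q ![0, 1, 0]) (n := 2)
      (by norm_num)
    set al := qq Q ![1, 0, 0] with hal
    set be := bb Q ![1, 0, 0] ![0, 1, 0] with hbe
    set ga := qq Q ![0, 1, 0] with hga
    refine ⟨((-be + δ) / (2 * al)) • ![1, 0, 0] + (1 : Ω) • ![0, 1, 0], fun h0 => ?_, ?_⟩
    · have := congrFun h0 1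
      simp at this
    · rw [qq_comb, ← hal, ← hbe, ← hga]
      field_simp
      linear_combination hδ

theorem exists_perp (Q : Matrix (Fin 3) (Fin 3) Ω) (hQ : (Q + Qᵀ).det ≠ 0) (a : Fin 3 → Ω)
    (ha : a ≠ 0) (haq : qq Q a = 0) : ∃ t, bb Q a t = 0 ∧ qq Q t ≠ 0 := by
  by_contra hcon
  push Not at hcon
  set c : Fin 3 → Ω := vecMul a (Q + Qᵀ) with hc
  have hbb : ∀ t, bb Q a t = c ⬝ᵥ t := by
    intro t
    simp only [bb, c]
    rw [Matrix.dotProduct_mulVec]
  have key : ∀ t : Fin 3 → Ω, c ⬝ᵥ t = 0 → ∃ κ : Ω, t = κ • a := by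
    intro t ht
    have h1 : bb Q a t = 0 := by rw [hbb, ht]
    exact isotropic_prop Q hQ a t ha haq (hcon t h1) h1
  obtain ⟨κ0, h0⟩ := key ![0, c 2, -c 1] (by simp [dotProduct, Fin.sum_univ_three]; ring)
  obtain ⟨κ1, h1⟩ := key ![-c 2, 0, c 0] (by simp [dotProduct, Fin.sum_univ_three]; ring)
  obtain ⟨κ2, h2⟩ := key ![c 1, -c 0, 0] (by simp [dotProduct, Fin.sum_univ_three]; ring)
  have e00 := congrFun h0 0
  have e01 := congrFun h0 1
  have e02 := congrFun h0 2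
  have e10 := congrFun h1 0
  have e11 := congrFun h1 1
  have e12 := congrFun h1 2
  have e20 := congrFun h2 0
  have e21 := congrFun h2 1
  have e22 := congrFun h2 2
  simp only [Matrix.cons_val_zero, Matrix.cons_val_one, Matrix.cons_val, Pi.smul_apply,
    smul_eq_mul] at e00 e01 e02 e10 e11 e12 e20 e21 e22
  have c0 : c 0 = 0 := by
    by_contra hne
    have hκ : κ1 ≠ 0 := by
      rintro rfl
      apply hne
      rw [e12, zero_mul]
    have ha1 : a 1 = 0 := (mul_eq_zero.1 e11.symm).resolve_left hκ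
    apply hne
    rw [ha1, mul_zero] at e21
    exact neg_eq_zero.1 e21
  have c1 : c 1 = 0 := by
    by_contra hne
    have hκ : κ2 ≠ 0 := by
      rintro rfl
      apply hne
      rw [e20, zero_mul]
    have ha2 : a 2 = 0 := (mul_eq_zero.1 e22.symm).resolve_left hκ
    apply hne
    rw [ha2, mul_zero] at e02
    exact neg_eq_zero.1 e02
  have c2 : c 2 = 0 := by
    by_contra hne
    have hκ : κ0 ≠ 0 := by
      rintro rfl
      apply hne
      rw [e01, zero_mul]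
    have ha0 : a 0 = 0 := (mul_eq_zero.1 e00.symm).resolve_left hκ
    apply hne
    rw [ha0, mul_zero] at e10
    exact neg_eq_zero.1 e10
  obtain ⟨t, ht⟩ := nondeg_exists Q hQ a ha
  apply ht
  rw [hbb, dotProduct, Fin.sum_univ_three, c0, c1, c2]
  ring

/-- the cone over a smooth conic is irreducible -/
theorem cone_irred [IsAlgClosed Ω] (Q : Matrix (Fin 3) (Fin 3) Ω) (hQ : (Q + Qᵀ).det ≠ 0)
    (g1 g2 : MvPolynomial (Fin 3) Ω)
    (h : ∀ w, qq Q w = 0 → eval w g1 * eval w g2 = 0) :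
    (∀ w, qq Q w = 0 → eval w g1 = 0) ∨ (∀ w, qq Q w = 0 → eval w g2 = 0) := by
  obtain ⟨a, ha, haq⟩ := exists_isotropic Q
  let T := MvPolynomial (Fin 3 ⊕ Unit) Ω
  let y : Fin 3 → T := fun j => X (Sum.inr ()) *
    yy (Q.map (C : Ω →+* T)) (fun i => C (a i)) (fun i => X (Sum.inl i)) j
  let Pg : MvPolynomial (Fin 3) Ω → T := fun g => aeval y g
  have hP : ∀ (g : MvPolynomial (Fin 3) Ω) (z : Fin 3 ⊕ Unit → Ω),
      eval z (Pg g) = eval (z (Sum.inr ()) • yy Q a (fun i => z (Sum.inl i))) g := by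
    intro g z
    show (aeval z : T →ₐ[Ω] Ω) (aeval y g) = (aeval _ : MvPolynomial (Fin 3) Ω →ₐ[Ω] Ω) g
    rw [← AlgHom.comp_apply]
    congr 1
    apply MvPolynomial.algHom_ext
    intro j
    rw [AlgHom.comp_apply, aeval_X, aeval_X, Pi.smul_apply, smul_eq_mul]
    show eval z (X (Sum.inr ()) *
      yy (Q.map (C : Ω →+* T)) (fun i => C (a i)) (fun i => X (Sum.inl i)) j) = _
    rw [map_mul, eval_X, ← yy_map]
    have e1 : (Q.map (C : Ω →+* T)).map (eval z) = Q := by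
      ext r c
      simp
    have e2 : (fun i => eval z (C (a i) : T)) = a := by
      funext i
      simp
    have e3 : (fun i => eval z (X (Sum.inl i) : T)) = fun i => z (Sum.inl i) := by
      funext i
      simp
    rw [e1, e2, e3]
  have hsm : ∀ (c : Ω) (w : Fin 3 → Ω), qq Q (c • w) = c ^ 2 * qq Q w := by
    intro c w
    simp only [qq, dotProduct, mulVec, Fin.sum_univ_three, Pi.smul_apply, smul_eq_mul]
    ring
  have h12 : Pg g1 * Pg g2 = 0 := by
    apply MvPolynomial.funext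
    intro z
    rw [map_mul, hP, hP, map_zero]
    apply h
    rw [hsm, qq_yy Q a _ haq, mul_zero]
  have main : ∀ g, Pg g = 0 → ∀ w, qq Q w = 0 → eval w g = 0 := by
    intro g hg w hw
    have hz : ∀ (c : Ω) (t : Fin 3 → Ω), eval (c • yy Q a t) g = 0 := by
      intro c t
      have := hP g (Sum.elim t (fun _ => c))
      rw [hg, map_zero] at this
      exact this.symm
    by_cases haw : bb Q a w = 0
    · obtain ⟨κ, hκ⟩ := isotropic_prop Q hQ a w ha haq hw haw
      obtain ⟨t, ht1, ht2⟩ := exists_perp Q hQ a ha haq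
      have h1 := hz (κ / qq Q t) t
      have h2 : (κ / qq Q t) • yy Q a t = w := by
        rw [hκ, yy, ht1, neg_zero, zero_smul, add_zero, smul_smul, div_mul_cancel₀ _ ht2]
      rw [h2] at h1
      exact h1
    · have h1 := hz (-(bb Q a w)⁻¹) w
      have h2 : (-(bb Q a w)⁻¹) • yy Q a w = w := by
        rw [yy, hw, zero_smul, zero_add, smul_smul, neg_mul_neg, inv_mul_cancel₀ haw, one_smul]
      rw [h2] at h1
      exact h1
  rcases mul_eq_zero.1 h12 with h1 | h1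
  · exact Or.inl (main g1 h1)
  · exact Or.inr (main g2 h1)

end cone

section fibre

variable {Ω : Type*} [Field Ω] [CharZero Ω] [IsAlgClosed Ω]

omit [CharZero Ω] [IsAlgClosed Ω] in
theorem BB_self (B : Fin 3 → Matrix (Fin 3) (Fin 3) Ω) : BB Ω B = B := by
  funext i
  ext r c
  simp [BB]

omit [CharZero Ω] [IsAlgClosed Ω] in
theorem NN_self (n : Fin 3 → I9 → I9 → Ω) : NN Ω n = n := by
  funext j s t
  simp [NN]

/-- a smooth fibre is irreducible -/
theorem fibre_irred (B : Fin 3 → Matrix (Fin 3) (Fin 3) Ω) (n : Fin 3 → I9 → I9 → Ω)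
    (x : Fin 3 → Ω) (hx : SmoothFibre B n x) (G1 G2 : MvPolynomial (Fin 3 ⊕ I9) Ω)
    (h : ∀ A, IsPt B n x A → eval (join x A) G1 * eval (join x A) G2 = 0) :
    (∀ A, IsPt B n x A → eval (join x A) G1 = 0) ∨
      (∀ A, IsPt B n x A → eval (join x A) G2 = 0) := by
  obtain ⟨θ, hθ⟩ := exists_theta_base (L := Ω) B x (by rw [BB_self]; exact hx.surj)
  have hds := ds_ne B θ n x hθ (by rw [BB_self, NN_self]; exact hx)
  let P := MvPolynomial (Fin 3) Ω
  let g : MvPolynomial (Fin 3 ⊕ I9) Ω → P := fun G =>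
    aeval (join (fun i => C (x i)) (Ln P B θ (fun i => C (x i)) X)) G
  have hg : ∀ (G : MvPolynomial (Fin 3 ⊕ I9) Ω) (w : Fin 3 → Ω),
      eval w (g G) = eval (join x (Ln Ω B θ x w)) G := by
    intro G w
    show (aeval w : P →ₐ[Ω] Ω) (aeval (join (fun i => C (x i)) (Ln P B θ (fun i => C (x i)) X)) G) =
      (aeval (join x (Ln Ω B θ x w)) : MvPolynomial (Fin 3 ⊕ I9) Ω →ₐ[Ω] Ω) G
    rw [← AlgHom.comp_apply]
    congr 1
    apply MvPolynomial.algHom_ext
    intro j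
    rw [AlgHom.comp_apply, aeval_X, aeval_X]
    rcases j with j | j
    · simp only [join, Sum.elim_inl]
      exact MvPolynomial.aeval_C _ _
    · simp only [join, Sum.elim_inr]
      rw [Ln_map]
      congr 2
      · funext i; exact MvPolynomial.aeval_C _ _
      · funext i; exact aeval_X _ _
  have hpt : ∀ w, qq (Gr Ω B θ n x) w = 0 → IsPt B n x (Ln Ω B θ x w) := by
    intro w hw
    have := Ln_pt B θ n x w hw
    rwa [BB_self, NN_self] at this
  have hco : ∀ A, IsPt B n x A → ∃ w, A = Ln Ω B θ x w ∧ qq (Gr Ω B θ n x) w = 0 := by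
    intro A hA
    exact exists_coord B θ n x hθ A (by rw [BB_self, NN_self]; exact hA)
  rcases cone_irred (Gr Ω B θ n x) hds (g G1) (g G2) (fun w hw => by
    rw [hg, hg]
    exact h _ (hpt w hw)) with h1 | h1
  · left
    intro A hA
    obtain ⟨w, rfl, hw⟩ := hco A hA
    rw [← hg]
    exact h1 w hw
  · right
    intro A hA
    obtain ⟨w, rfl, hw⟩ := hco A hA
    rw [← hg]
    exact h1 w hw

/-- vanishing over a dense set of points of the plane -/
theorem dense_fibres (B : Fin 3 → Matrix (Fin 3) (Fin 3) Ω) (n : Fin 3 → I9 → I9 → Ω)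
    (x₀ : Fin 3 → Ω) (hx₀ : SmoothFibre B n x₀) (G : MvPolynomial (Fin 3 ⊕ I9) Ω)
    (hS : ∀ H : MvPolynomial (Fin 3) Ω,
      (∀ x, (∀ A, IsPt B n x A → eval (join x A) G = 0) → eval x H = 0) → H = 0)
    (x : Fin 3 → Ω)
    (hs : ∀ y z : Fin 3 → Ω, ∃ A' : Matrix (Fin 3) (Fin 3) Ω, A' *ᵥ x = y ∧
      ∀ i, trB B i A' = z i)
    (hq : ∃ A' : Matrix (Fin 3) (Fin 3) Ω, A' *ᵥ x = 0 ∧ (∀ i, trB B i A' = 0) ∧
      qf n x A' A' ≠ 0) (A : Matrix (Fin 3) (Fin 3) Ω) (hA : IsPt B n x A) :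
    eval (join x A) G = 0 := by
  obtain ⟨θ, hθ, hθx⟩ := exists_theta_two (L := Ω) (Ω := Ω) B x₀ x
    (by rw [BB_self]; exact hx₀.surj) (by rw [BB_self]; exact hs)
  have hds := ds_ne B θ n x₀ hθ (by rw [BB_self, NN_self]; exact hx₀)
  let P := MvPolynomial (Fin 3) Ω
  let Q : Matrix (Fin 3) (Fin 3) P := Gr P B θ n X
  have hQm : ∀ x : Fin 3 → Ω, Q.map (eval x) = Gr Ω B θ n x := by
    intro x
    have h1 := Gr_map (aeval x : P →ₐ[Ω] Ω) B θ n X
    have h2 : (fun i => (aeval x : P →ₐ[Ω] Ω) (X i)) = x := by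
      funext i
      exact aeval_X _ _
    rw [h2] at h1
    exact h1
  have hdet : (Q + Qᵀ).det ≠ 0 := by
    intro h0
    apply hds
    have h1 := ds_map (aeval x₀ : P →ₐ[Ω] Ω) B θ n X
    have h2 : (fun i => (aeval x₀ : P →ₐ[Ω] Ω) (X i)) = x₀ := by
      funext i
      exact aeval_X _ _
    rw [h2] at h1
    rw [← h1]
    have h3 : ds B θ n (X : Fin 3 → P) = (Q + Qᵀ).det := rfl
    rw [h3, h0, map_zero]
  let T := MvPolynomial (Fin 3 ⊕ Fin 3) Ω
  let xS : Fin 3 → T := fun i => X (Sum.inl i)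
  let uS : Fin 3 → T := fun i => X (Sum.inr i)
  let G' : T := aeval (Sum.elim xS (fun s => Ln T B θ xS uS s.1 s.2)) G
  have hG' : ∀ x u : Fin 3 → Ω, eval (Sum.elim x u) G' = eval (join x (Ln Ω B θ x u)) G := by
    intro x u
    show (aeval (Sum.elim x u) : T →ₐ[Ω] Ω)
      (aeval (Sum.elim xS (fun s => Ln T B θ xS uS s.1 s.2)) G) =
      (aeval (join x (Ln Ω B θ x u)) : MvPolynomial (Fin 3 ⊕ I9) Ω →ₐ[Ω] Ω) G
    rw [← AlgHom.comp_apply]
    congr 1
    apply MvPolynomial.algHom_ext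
    intro j
    rw [AlgHom.comp_apply, aeval_X, aeval_X]
    have h1 : (fun i => (aeval (Sum.elim x u) : T →ₐ[Ω] Ω) (xS i)) = x := by
      funext i
      simp [xS]
    have h2 : (fun i => (aeval (Sum.elim x u) : T →ₐ[Ω] Ω) (uS i)) = u := by
      funext i
      simp [uS]
    rcases j with j | j
    · simp [join, xS]
    · simp only [join, Sum.elim_inr]
      rw [Ln_map, h1, h2]
  have hpt : ∀ x w, qq (Gr Ω B θ n x) w = 0 → IsPt B n x (Ln Ω B θ x w) := by
    intro x w hw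
    have := Ln_pt B θ n x w hw
    rwa [BB_self, NN_self] at this
  obtain ⟨w, hAw, hw⟩ := exists_coord B θ n x hθx A (by rw [BB_self, NN_self]; exact hA)
  have key := CD.dense_conic (L := Ω) (Ω := Ω) Q hdet
    {x | ∀ A, IsPt B n x A → eval (join x A) G = 0} hS
    (fun x _ => exists_isotropic _) G' (fun x hx u _ hu => by
      rw [hG']
      rw [hQm] at hu
      exact hx _ (hpt x u hu)) x w
    (by
      have h1 : Q.map (aeval x) = Gr Ω B θ n x := hQm x
      rw [h1]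
      exact hw)
    (by
      have h1 : Q.map (aeval x) = Gr Ω B θ n x := hQm x
      rw [h1]
      obtain ⟨A', hA1, hA2, hA3⟩ := hq
      have hlin := eq_lin (BB Ω B) (TH Ω θ) x hθx A' hA1 (by rw [BB_self]; exact hA2)
      refine ⟨fun j => (∑ s : I9, TH Ω θ j s * A' s.1 s.2) /
        (eqMat (BB Ω B) (TH Ω θ) x).det, ?_⟩
      intro h0
      apply hA3
      rw [hlin]
      have h2 : qf (NN Ω n) x (lin (BB Ω B) (TH Ω θ) x
          (fun j => (∑ s : I9, TH Ω θ j s * A' s.1 s.2) / (eqMat (BB Ω B) (TH Ω θ) x).det))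
          (lin (BB Ω B) (TH Ω θ) x
          (fun j => (∑ s : I9, TH Ω θ j s * A' s.1 s.2) / (eqMat (BB Ω B) (TH Ω θ) x).det)) = 0 := by
        rw [qf_lin_self]
        exact h0
      rwa [NN_self] at h2)
  have h3 : eval (Sum.elim x w) G' = 0 := key
  rw [hG'] at h3
  rw [hAw]
  exact h3

/-- `X` is irreducible -/
theorem irreducible (B : Fin 3 → Matrix (Fin 3) (Fin 3) Ω) (n : Fin 3 → I9 → I9 → Ω)
    (D : MvPolynomial (Fin 3) Ω) (hD0 : D ≠ 0)
    (hD : ∀ x, eval x D ≠ 0 → SmoothFibre B n x)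
    (hs : ∀ x : Fin 3 → Ω, x ≠ 0 → ∀ y z : Fin 3 → Ω, ∃ A' : Matrix (Fin 3) (Fin 3) Ω,
      A' *ᵥ x = y ∧ ∀ i, trB B i A' = z i)
    (hq : ∀ x : Fin 3 → Ω, x ≠ 0 → ∃ A' : Matrix (Fin 3) (Fin 3) Ω, A' *ᵥ x = 0 ∧
      (∀ i, trB B i A' = 0) ∧ qf n x A' A' ≠ 0)
    (G1 G2 : MvPolynomial (Fin 3 ⊕ I9) Ω)
    (h : ∀ x A, x ≠ 0 → IsPt B n x A → eval (join x A) G1 * eval (join x A) G2 = 0) :
    (∀ x A, x ≠ 0 → IsPt B n x A → eval (join x A) G1 = 0) ∨
      (∀ x A, x ≠ 0 → IsPt B n x A → eval (join x A) G2 = 0) := by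
  obtain ⟨x₀, hx₀⟩ : ∃ x₀, eval x₀ D ≠ 0 := by
    by_contra hcon
    push Not at hcon
    apply hD0
    apply MvPolynomial.funext
    intro x
    rw [hcon, map_zero]
  by_cases h1 : ∀ H : MvPolynomial (Fin 3) Ω,
      (∀ x, (∀ A, IsPt B n x A → eval (join x A) G1 = 0) → eval x H = 0) → H = 0
  · left
    intro x A hx hA
    exact dense_fibres B n x₀ (hD x₀ hx₀) G1 h1 x (hs x hx) (hq x hx) A hA
  by_cases h2 : ∀ H : MvPolynomial (Fin 3) Ω,
      (∀ x, (∀ A, IsPt B n x A → eval (join x A) G2 = 0) → eval x H = 0) → H = 0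
  · right
    intro x A hx hA
    exact dense_fibres B n x₀ (hD x₀ hx₀) G2 h2 x (hs x hx) (hq x hx) A hA
  exfalso
  push Not at h1 h2
  obtain ⟨H1, hH1, hH1'⟩ := h1
  obtain ⟨H2, hH2, hH2'⟩ := h2
  have h3 : H1 * H2 * D * X 0 = 0 := by
    apply MvPolynomial.funext
    intro x
    rw [map_mul, map_mul, map_mul, eval_X, map_zero]
    by_cases hx : x = 0
    · rw [hx]; simp
    by_cases hDx : eval x D = 0
    · rw [hDx]; ring
    rcases fibre_irred B n x (hD x hDx) G1 G2 (fun A hA => h x A hx hA) with h4 | h4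
    · rw [hH1 x h4]; ring
    · rw [hH2 x h4]; ring
  exact mul_ne_zero (mul_ne_zero (mul_ne_zero hH1' hH2') hD0) (X_ne_zero 0) h3

end fibre

end Pool.Agent.Work.D9.IR
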