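import Mathlib
import Pool.Agent.Work.MP_b62148_ag.D9.Even9
import Pool.Agent.Work.MP_b62148_ag.D9.DiscGen
import Pool.Agent.Work.MP_b62148_ag.D9.Irred9

/-!
Even class: the full statement, with the discriminant curve, the smoothness of `X`, the same-field
density and the potential density.
-/

namespace Pool.Agent.Work.D9

open MvPolynomial Matrix

/-- the `k`-points of `X` are Zariski dense in `X`: every polynomial over `k` in the twelve
coordinates which vanishes at the `k`-points vanishes at all points over `Ω` -/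
def DensePts (k Ω : Type*) [Field k] [Field Ω] [Algebra k Ω] (B : Fin 3 → Matrix (Fin 3) (Fin 3) k)
    (n : Fin 3 → Fin 3 × Fin 3 → Fin 3 × Fin 3 → k) : Prop :=
  ∀ G : MvPolynomial (Fin 3 ⊕ (Fin 3 × Fin 3)) k,
    (∀ (x : Fin 3 → k) (A : Matrix (Fin 3) (Fin 3) k), x ≠ 0 → A ≠ 0 →
      IsPt B n x A → eval (join x A) G = 0) →
    ∀ (x : Fin 3 → Ω) (A : Matrix (Fin 3) (Fin 3) Ω), x ≠ 0 →
      IsPt (mB (algebraMap k Ω) B) (mN (algebraMap k Ω) n) x A → aeval (join x A) G = 0

/-- geometry of `X` over a field: over every point of the plane the six linear equations are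
independent and the quadratic form is not zero on their solutions; the discriminant form is
homogeneous of degree nine, its partial derivatives have no common zero, and it vanishes exactly at
the points over which the fibre is not a smooth conic; the derivative of the seven equations is onto
at every point of `X`; `X` is irreducible -/
structure Geometry {Ω : Type*} [Field Ω] (B : Fin 3 → Matrix (Fin 3) (Fin 3) Ω)
    (n : Fin 3 → Fin 3 × Fin 3 → Fin 3 × Fin 3 → Ω) : Prop where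
  indep : ∀ x : Fin 3 → Ω, x ≠ 0 → ∀ y z : Fin 3 → Ω, ∃ A : Matrix (Fin 3) (Fin 3) Ω,
    A *ᵥ x = y ∧ ∀ i, trB B i A = z i
  conic : ∀ x : Fin 3 → Ω, x ≠ 0 → ∃ A : Matrix (Fin 3) (Fin 3) Ω, A *ᵥ x = 0 ∧
    (∀ i, trB B i A = 0) ∧ qf n x A A ≠ 0
  degree : (DS.disc B n).IsHomogeneous 9
  curve : ∀ x : Fin 3 → Ω, x ≠ 0 → ∃ j, eval x (pderiv j (DS.disc B n)) ≠ 0
  fibre : ∀ x : Fin 3 → Ω, SmoothFibre B n x ↔ eval x (DS.disc B n) ≠ 0
  smooth : ∀ (x : Fin 3 → Ω) (A : Matrix (Fin 3) (Fin 3) Ω), x ≠ 0 → A ≠ 0 → IsPt B n x A →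
    ∀ (y z : Fin 3 → Ω) (c : Ω), ∃ (x' : Fin 3 → Ω) (A' : Matrix (Fin 3) (Fin 3) Ω),
      A' *ᵥ x + A *ᵥ x' = y ∧ (∀ i, trB B i A' = z i) ∧
        qf n x' A A + (qf n x A' A + qf n x A A') = c
  irred : ∀ G₁ G₂ : MvPolynomial (Fin 3 ⊕ (Fin 3 × Fin 3)) Ω,
    (∀ x A, x ≠ 0 → IsPt B n x A → eval (join x A) G₁ * eval (join x A) G₂ = 0) →
    (∀ x A, x ≠ 0 → IsPt B n x A → eval (join x A) G₁ = 0) ∨
      (∀ x A, x ≠ 0 → IsPt B n x A → eval (join x A) G₂ = 0)

theorem aeval_par {k Ω : Type*} [Field k] [CharZero k] [Field Ω] [CharZero Ω] [Algebra k Ω]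
    (B : Fin 3 → Matrix (Fin 3) (Fin 3) k) (n : Fin 3 → Fin 3 × Fin 3 → Fin 3 × Fin 3 → k)
    (P : MvPolynomial Par ℚ) :
    aeval (par (mB (algebraMap k Ω) B) (mN (algebraMap k Ω) n)) P =
      algebraMap k Ω (aeval (par B n) P) := by
  have hpar : par (mB (algebraMap k Ω) B) (mN (algebraMap k Ω) n) = algebraMap k Ω ∘ par B n := by
    funext t
    rcases t with t | t <;> rfl
  rw [hpar, aeval_def, aeval_def, ← MvPolynomial.coe_eval₂Hom, ← MvPolynomial.coe_eval₂Hom,
    ← RingHom.comp_apply]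
  congr 1
  apply MvPolynomial.ringHom_ext
  · intro r
    simp
  · intro i
    simp

/-- Outside the zeros of one nonzero polynomial in the coefficients: `X` is a smooth threefold whose
fibres over the plane are conics, with a smooth discriminant curve of degree nine; if the cubic of
jumping lines has infinitely many points over `k`, the `k`-points of `X` are Zariski dense in `X`;
and there is a finite extension over which this is so. -/
theorem even_full : ∃ Φ : MvPolynomial Par ℚ, Φ ≠ 0 ∧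
    ∀ (k Ω : Type*) [Field k] [CharZero k] [Field Ω] [Algebra k Ω] [IsAlgClosed Ω]
      (B : Fin 3 → Matrix (Fin 3) (Fin 3) k) (n : Fin 3 → Fin 3 × Fin 3 → Fin 3 × Fin 3 → k),
      aeval (par B n) Φ ≠ 0 →
      Geometry (mB (algebraMap k Ω) B) (mN (algebraMap k Ω) n) ∧
      (InfJ B → DensePts k Ω B n) ∧
      (Algebra.IsAlgebraic k Ω → ∃ L : IntermediateField k Ω, FiniteDimensional k L ∧
        InfJ (mB (algebraMap k L) B) ∧
        DensePts L Ω (mB (algebraMap k L) B) (mN (algebraMap k L) n)) := by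
  obtain ⟨Φ₁, h₁, H₁⟩ := general_same
  obtain ⟨Φ₂, h₂, H₂⟩ := DG.disc_generic
  obtain ⟨Φ₃, h₃, H₃⟩ := general_same
  refine ⟨Φ₁ * Φ₂ * Φ₃, mul_ne_zero (mul_ne_zero h₁ h₂) h₃, ?_⟩
  intro k Ω _ _ _ _ _ B n hBn
  have : CharZero Ω := charZero_of_injective_algebraMap (algebraMap k Ω).injective
  rw [map_mul, map_mul] at hBn
  have a1 := left_ne_zero_of_mul (left_ne_zero_of_mul hBn)
  have a2 := right_ne_zero_of_mul (left_ne_zero_of_mul hBn)
  have a3 := right_ne_zero_of_mul hBn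
  obtain ⟨g1, g2, g3, g4⟩ := H₁ k Ω B n a1
  have hd : ∀ x : Fin 3 → Ω, x ≠ 0 →
      ∃ j, eval x (pderiv j (DS.disc (mB (algebraMap k Ω) B) (mN (algebraMap k Ω) n))) ≠ 0 := by
    refine H₂ Ω (mB (algebraMap k Ω) B) (mN (algebraMap k Ω) n) ?_
    have h4 : OF.prm (mB (algebraMap k Ω) B) (mN (algebraMap k Ω) n)
        = par (mB (algebraMap k Ω) B) (mN (algebraMap k Ω) n) := rfl
    rw [h4, aeval_par]
    intro h0
    exact a2 ((map_eq_zero _).mp h0)
  have hD0 : DS.disc (mB (algebraMap k Ω) B) (mN (algebraMap k Ω) n) ≠ 0 := by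
    intro h0
    have h4 := (DS.smoothFibre_iff _ _ _).1 g2
    rw [h0, map_zero] at h4
    exact h4 rfl
  refine ⟨⟨fun x hx => (g1 x hx).1, fun x hx => (g1 x hx).2, DS.disc_hom _ _, hd,
    DS.smoothFibre_iff _ _, fun x A hx hA0 hA y z c => DS.smooth_of_disc _ _ x (hd x hx) A hA0 hA
      y z c, fun G₁ G₂ h => IR.irreducible _ _ _ hD0 (fun x hx => (DS.smoothFibre_iff _ _ x).2 hx)
      (fun x hx => (g1 x hx).1) (fun x hx => (g1 x hx).2) G₁ G₂ h⟩, g3, ?_⟩
  intro halg
  obtain ⟨L, hfd, hinf⟩ := g4 halg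
  refine ⟨L, hfd, hinf, ?_⟩
  have hcomp : ∀ a : k, algebraMap L Ω (algebraMap k L a) = algebraMap k Ω a := fun a => rfl
  have hB : mB (algebraMap L Ω) (mB (algebraMap k L) B) = mB (algebraMap k Ω) B := by
    funext i; ext r c; simp [mB, hcomp]
  have hN : mN (algebraMap L Ω) (mN (algebraMap k L) n) = mN (algebraMap k Ω) n := by
    funext j s t; simp [mN, hcomp]
  have hL := (H₃ L Ω (mB (algebraMap k L) B) (mN (algebraMap k L) n) (by
    rw [aeval_par]
    intro h0
    exact a3 ((map_eq_zero _).mp h0))).2.2.1 hinf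
  exact hL

end Pool.Agent.Work.D9
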