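import Mathlib
import Pool.Agent.Work.MP_b62148_ag.D9.Full9

/-!
Over an algebraically closed field every fibre has a point, and irreducibility of `X` can be tested
at the points with `A ≠ 0`.
-/

namespace Pool.Agent.Work.D9.IN

open MvPolynomial Matrix

variable {K : Type*} [Field K] {B : Fin 3 → Matrix (Fin 3) (Fin 3) K}
  {n : Fin 3 → Fin 3 × Fin 3 → Fin 3 × Fin 3 → K}

theorem qf_add (x : Fin 3 → K) (A A' A'' : Matrix (Fin 3) (Fin 3) K) :
    qf n x (A + A') A'' = qf n x A A'' + qf n x A' A'' := by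
  simp only [qf, Matrix.add_apply, ← Finset.sum_add_distrib, ← mul_add]
  refine Finset.sum_congr rfl fun j _ => ?_
  congr 1
  refine Finset.sum_congr rfl fun s _ => Finset.sum_congr rfl fun t _ => ?_
  ring

theorem qf_smul (x : Fin 3 → K) (c : K) (A A'' : Matrix (Fin 3) (Fin 3) K) :
    qf n x (c • A) A'' = c * qf n x A A'' := by
  simp only [qf, Matrix.smul_apply, smul_eq_mul, Finset.mul_sum]
  refine Finset.sum_congr rfl fun j _ => Finset.sum_congr rfl fun s _ =>
    Finset.sum_congr rfl fun t _ => ?_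
  ring

theorem qf_add' (x : Fin 3 → K) (A A' A'' : Matrix (Fin 3) (Fin 3) K) :
    qf n x A (A' + A'') = qf n x A A' + qf n x A A'' := by
  simp only [qf, Matrix.add_apply, ← Finset.sum_add_distrib, ← mul_add]

theorem qf_smul' (x : Fin 3 → K) (c : K) (A A'' : Matrix (Fin 3) (Fin 3) K) :
    qf n x A (c • A'') = c * qf n x A A'' := by
  simp only [qf, Matrix.smul_apply, smul_eq_mul, Finset.mul_sum]
  refine Finset.sum_congr rfl fun j _ => Finset.sum_congr rfl fun s _ =>
    Finset.sum_congr rfl fun t _ => ?_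
  ring

theorem trB_add (i : Fin 3) (A A' : Matrix (Fin 3) (Fin 3) K) :
    trB B i (A + A') = trB B i A + trB B i A' := by
  simp only [trB, Matrix.add_apply, ← Finset.sum_add_distrib, ← mul_add]

theorem trB_smul (i : Fin 3) (c : K) (A : Matrix (Fin 3) (Fin 3) K) :
    trB B i (c • A) = c * trB B i A := by
  simp only [trB, Matrix.smul_apply, smul_eq_mul, Finset.mul_sum]
  refine Finset.sum_congr rfl fun r _ => Finset.sum_congr rfl fun c' _ => ?_
  ring

/-- the linear equations together with the polar of `A₀` -/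
def lin (B : Fin 3 → Matrix (Fin 3) (Fin 3) K) (n : Fin 3 → Fin 3 × Fin 3 → Fin 3 × Fin 3 → K)
    (x : Fin 3 → K) (A₀ : Matrix (Fin 3) (Fin 3) K) :
    Matrix (Fin 3) (Fin 3) K →ₗ[K] (Fin 3 → K) × (Fin 3 → K) × K where
  toFun A := (A *ᵥ x, fun i => trB B i A, qf n x A A₀ + qf n x A₀ A)
  map_add' A A' := by
    simp only [Matrix.add_mulVec, trB_add, qf_add, qf_add', Prod.mk_add_mk, Prod.mk.injEq,
      true_and]
    exact ⟨rfl, by ring⟩
  map_smul' c A := by
    simp only [Matrix.smul_mulVec, trB_smul, qf_smul, qf_smul', Prod.smul_mk, Prod.mk.injEq,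
      RingHom.id_apply, smul_eq_mul, true_and]
    exact ⟨rfl, by ring⟩

theorem exists_point [IsAlgClosed K] [CharZero K] (x : Fin 3 → K)
    (h : ∃ A : Matrix (Fin 3) (Fin 3) K, A *ᵥ x = 0 ∧ (∀ i, trB B i A = 0) ∧ qf n x A A ≠ 0) :
    ∃ A, A ≠ 0 ∧ IsPt B n x A := by
  obtain ⟨A₀, h0, h0', h1⟩ := h
  have h2 : (lin B n x A₀).ker ≠ ⊥ := by
    apply LinearMap.ker_ne_bot_of_finrank_lt
    simp [Module.finrank_prod, Module.finrank_matrix]
  obtain ⟨A₁, h3, h4⟩ := Submodule.exists_mem_ne_zero_of_ne_bot h2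
  have h5 : A₁ *ᵥ x = 0 := congrArg Prod.fst h3
  have h6 : ∀ i, trB B i A₁ = 0 := fun i =>
    congrFun (congrArg Prod.fst (congrArg Prod.snd h3)) i
  have h7 : qf n x A₁ A₀ + qf n x A₀ A₁ = 0 := congrArg Prod.snd (congrArg Prod.snd h3)
  obtain ⟨t, ht⟩ := IsAlgClosed.exists_pow_nat_eq (-(qf n x A₁ A₁ / qf n x A₀ A₀))
    (n := 2) two_pos
  have h8 : ∀ c : K, qf n x (A₁ + c • A₀) A₀ + qf n x A₀ (A₁ + c • A₀) =
      2 * c * qf n x A₀ A₀ := by
    intro c
    rw [qf_add, qf_smul, qf_add', qf_smul']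
    linear_combination h7
  refine ⟨A₁ + t • A₀, ?_, ?_, ?_, ?_⟩
  · intro h9
    have h10 := h8 t
    rw [h9] at h10
    have h11 : qf n x (0 : Matrix (Fin 3) (Fin 3) K) A₀ = 0 := by
      simpa using qf_smul (n := n) x 0 0 A₀
    have h12 : qf n x A₀ (0 : Matrix (Fin 3) (Fin 3) K) = 0 := by
      simpa using qf_smul' (n := n) x 0 A₀ 0
    rw [h11, h12, add_zero] at h10
    have h13 : t = 0 := by
      rcases mul_eq_zero.1 h10.symm with h | h
      · exact (mul_eq_zero.1 h).resolve_left two_ne_zero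
      · exact absurd h h1
    rw [h13, zero_smul, add_zero] at h9
    exact h4 h9
  · rw [Matrix.add_mulVec, Matrix.smul_mulVec, h5, h0, smul_zero, add_zero]
  · intro i
    rw [trB_add, trB_smul, h6 i, h0' i, mul_zero, add_zero]
  · rw [qf_add, qf_smul, qf_add', qf_add', qf_smul', qf_smul']
    have h14 : t ^ 2 * qf n x A₀ A₀ = -qf n x A₁ A₁ := by
      rw [ht]
      field_simp
    linear_combination h14 + t * h7

/-- a polynomial which vanishes at `(x, c A)` for all `c ≠ 0` vanishes at `(x, 0)` -/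
theorem eval_join_zero [Infinite K] (G : MvPolynomial (Fin 3 ⊕ (Fin 3 × Fin 3)) K)
    (x : Fin 3 → K) (A : Matrix (Fin 3) (Fin 3) K)
    (h : ∀ c : K, c ≠ 0 → eval (join x (c • A)) G = 0) : eval (join x 0) G = 0 := by
  set P : Polynomial K := aeval (Sum.elim (fun i => Polynomial.C (x i))
    fun s : Fin 3 × Fin 3 => Polynomial.X * Polynomial.C (A s.1 s.2)) G with hP
  have h1 : ∀ c : K, P.eval c = eval (join x (c • A)) G := by
    intro c
    rw [hP, ← Polynomial.coe_evalRingHom, aeval_def, ← coe_eval₂Hom, ← RingHom.comp_apply]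
    have h2 : (Polynomial.evalRingHom c).comp (eval₂Hom (algebraMap K (Polynomial K))
        (Sum.elim (fun i => Polynomial.C (x i))
          fun s : Fin 3 × Fin 3 => Polynomial.X * Polynomial.C (A s.1 s.2))) =
        eval (join x (c • A)) := by
      apply MvPolynomial.ringHom_ext
      · intro r
        simp
      · rintro (i | s)
        · simp [join]
        · simp only [join, coe_eval₂Hom, eval₂_X, Sum.elim_inr, RingHom.comp_apply,
            Polynomial.coe_evalRingHom, Polynomial.eval_mul, Polynomial.eval_X,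
            Polynomial.eval_C, eval_X, Matrix.smul_apply, smul_eq_mul]
    rw [h2]
  have h3 : P = 0 := by
    apply Polynomial.eq_zero_of_infinite_isRoot
    refine (Set.Finite.infinite_compl (Set.finite_singleton (0 : K))).mono ?_
    intro c hc
    exact (h1 c).trans (h c hc)
  have h4 := h1 0
  rw [h3, Polynomial.eval_zero, zero_smul] at h4
  exact h4.symm

theorem irred_ne [IsAlgClosed K] [CharZero K] (g : Geometry B n)
    (G₁ G₂ : MvPolynomial (Fin 3 ⊕ (Fin 3 × Fin 3)) K)
    (h : ∀ x A, x ≠ 0 → A ≠ 0 → IsPt B n x A → eval (join x A) (G₁ * G₂) = 0) :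
    (∀ x A, x ≠ 0 → IsPt B n x A → eval (join x A) G₁ = 0) ∨
      (∀ x A, x ≠ 0 → IsPt B n x A → eval (join x A) G₂ = 0) := by
  refine g.irred G₁ G₂ fun x A hx hA => ?_
  rw [← map_mul]
  by_cases hA0 : A = 0
  · obtain ⟨A', h1, h2⟩ := exists_point x (g.conic x hx)
    subst hA0
    refine eval_join_zero _ x A' fun c hc => h x _ hx (smul_ne_zero hc h1) ⟨?_, fun i => ?_, ?_⟩
    · rw [Matrix.smul_mulVec, h2.ker, smul_zero]
    · rw [trB_smul, h2.tr i, mul_zero]
    · rw [qf_smul, qf_smul', h2.quad, mul_zero, mul_zero]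
  · exact h x A hx hA0 hA

end Pool.Agent.Work.D9.IN
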