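import Mathlib

/-!
The Jacobian criterion of algebraic independence in characteristic zero.
-/

namespace Pool.Agent.Work.D9

open MvPolynomial

section

variable {k : Type*} [Field k] {ι σ : Type*}

/-- chain rule -/
theorem pderiv_aeval [Fintype ι] (F : ι → MvPolynomial σ k) (G : MvPolynomial ι k) (j : σ) :
    pderiv j (aeval F G) = ∑ i, aeval F (pderiv i G) * pderiv j (F i) := by
  classical
  induction G using MvPolynomial.induction_on with
  | C a =>
    have h1 : aeval F (C a : MvPolynomial ι k) = C a := by simp
    rw [h1]
    simp only [pderiv_C, map_zero, zero_mul, Finset.sum_const_zero]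
  | add p q hp hq =>
    rw [map_add, map_add, hp, hq, ← Finset.sum_add_distrib]
    refine Finset.sum_congr rfl fun i _ => ?_
    rw [map_add, map_add]
    ring
  | mul_X p l hp =>
    rw [map_mul, aeval_X, pderiv_mul, hp, Finset.sum_mul]
    have h : ∀ i, aeval F (pderiv i (p * X l)) * pderiv j (F i) =
        aeval F (pderiv i p) * pderiv j (F i) * F l +
          (if i = l then aeval F p * pderiv j (F l) else 0) := by
      intro i
      rw [pderiv_mul, map_add, map_mul, aeval_X, pderiv_X]
      by_cases hi : i = l
      · subst hi
        rw [if_pos rfl, Pi.single_eq_same, mul_one]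
        ring
      · rw [if_neg hi, Pi.single_eq_of_ne (Ne.symm hi), mul_zero, map_zero]
        ring
    rw [Finset.sum_congr rfl fun i _ => h i, Finset.sum_add_distrib, Finset.sum_ite_eq']
    simp

theorem totalDegree_pderiv_lt (G : MvPolynomial ι k) (i : ι) (h : pderiv i G ≠ 0) :
    (pderiv i G).totalDegree < G.totalDegree := by
  classical
  obtain ⟨m, hm, hdeg⟩ := (pderiv i G).support.exists_mem_eq_sup
    (by rwa [Finset.nonempty_iff_ne_empty, Ne, MvPolynomial.support_eq_empty])
    (fun s => s.sum fun _ e => e)
  have h1 : (pderiv i G).totalDegree = m.sum fun _ e => e := hdeg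
  rw [h1]
  have h2 : coeff (m + Finsupp.single i 1) G ≠ 0 := by
    intro h0
    rw [mem_support_iff, coeff_pderiv, h0, zero_mul] at hm
    exact hm rfl
  have h3 := MvPolynomial.le_totalDegree (mem_support_iff.mpr h2)
  rw [Finsupp.sum_add_index' (fun _ => rfl) (fun _ _ _ => rfl), Finsupp.sum_single_index rfl] at h3
  omega

theorem eq_C_of_pderiv [CharZero k] (G : MvPolynomial ι k) (h : ∀ i, pderiv i G = 0) :
    G = C (coeff 0 G) := by
  classical
  ext m
  rw [coeff_C]
  by_cases hm : 0 = m
  · rw [if_pos hm, hm]
  · rw [if_neg hm]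
    obtain ⟨i, hi⟩ : ∃ i, m i ≠ 0 := by
      by_contra hcon
      push Not at hcon
      exact hm (Finsupp.ext fun i => (hcon i).symm)
    have h1 := coeff_pderiv (i := i) G (m - Finsupp.single i 1)
    rw [h i, coeff_zero] at h1
    have h2 : m - Finsupp.single i 1 + Finsupp.single i 1 = m := by
      ext j
      simp only [Finsupp.coe_add, Finsupp.coe_tsub, Pi.add_apply, Pi.sub_apply,
        Finsupp.single_apply]
      by_cases hj : i = j
      · subst hj
        simp only [if_true]
        omega
      · simp [hj]
    rw [h2] at h1
    have h3 : (((m - Finsupp.single i 1 : ι →₀ ℕ) i : ℕ) : k) + 1 ≠ 0 :=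
      Nat.cast_add_one_ne_zero _
    exact (mul_eq_zero.mp h1.symm).resolve_right h3

/-- **Jacobian criterion.** -/
theorem algInd_of_jacobian [CharZero k] [Fintype ι] [DecidableEq ι] (F : ι → MvPolynomial σ k)
    (e : ι → σ) (h : (Matrix.of fun i j => pderiv (e j) (F i)).det ≠ 0) :
    AlgebraicIndependent k F := by
  rw [algebraicIndependent_iff]
  have key : ∀ (n : ℕ) (G : MvPolynomial ι k), G.totalDegree < n → aeval F G = 0 → G = 0 := by
    intro n
    induction n with
    | zero => intro G hG; exact absurd hG (Nat.not_lt_zero _)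
    | succ n ih =>
      intro G hG hF
      have h1 : ∀ i, pderiv i G = 0 := by
        have h2 : (fun i => aeval F (pderiv i G)) = 0 := by
          apply Matrix.eq_zero_of_vecMul_eq_zero h
          funext j
          have h3 := pderiv_aeval F G (e j)
          rw [hF, map_zero] at h3
          simp only [Matrix.vecMul, dotProduct, Matrix.of_apply, Pi.zero_apply]
          exact h3.symm
        intro i
        by_contra hne
        exact hne (ih _ (by have := totalDegree_pderiv_lt G i hne; omega) (congrFun h2 i))
      rw [eq_C_of_pderiv G h1] at hF ⊢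
      have h4 : aeval F (C (coeff 0 G) : MvPolynomial ι k) = C (coeff 0 G) := by simp
      rw [h4] at hF
      have h5 := (MvPolynomial.C_eq_zero).mp hF
      rw [h5, C_0]
  intro G hG
  exact key (G.totalDegree + 1) G (Nat.lt_succ_self _) hG

end

end Pool.Agent.Work.D9
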