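import Mathlib
import Pool.Agent.Work.MP_b62148_ag.D9.JacInd

/-!
Algebraically independent polynomials define a dominant map; points over an algebraically closed
field in an explicit open set of the target lift.
-/

namespace Pool.Agent.Work.D9

open MvPolynomial

section extend

theorem lift_of_injective {R S M : Type*} [CommRing R] [IsDomain R] [CommRing S] [IsDomain S]
    [Field M] [IsAlgClosed M] (i : R →+* S) (hi : Function.Injective i) (hint : i.IsIntegral)
    (j : R →+* M) (hj : Function.Injective j) : ∃ g : S →+* M, g.comp i = j := by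
  let _ := i.toAlgebra
  let _ := j.toAlgebra
  have h1 : Algebra.IsIntegral R S := ⟨hint⟩
  have t1 : FaithfulSMul R S := (faithfulSMul_iff_algebraMap_injective _ _).mpr hi
  have t2 : FaithfulSMul R M := (faithfulSMul_iff_algebraMap_injective _ _).mpr hj
  let g : S →ₐ[R] M := IsAlgClosed.lift
  refine ⟨g.toRingHom, ?_⟩
  ext a
  exact g.commutes a

/-- homomorphisms to an algebraically closed field extend to integral extensions -/
theorem extend_integral {A C Ω : Type*} [CommRing A] [CommRing C] [Algebra A C]
    [Algebra.IsIntegral A C] (hinj : Function.Injective (algebraMap A C)) [Field Ω]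
    [IsAlgClosed Ω] (φ : A →+* Ω) : ∃ ψ : C →+* Ω, ψ.comp (algebraMap A C) = φ := by
  let P : Ideal A := RingHom.ker φ
  have hP : P.IsPrime := RingHom.ker_isPrime φ
  obtain ⟨Q, -, hQ, hQP⟩ := Ideal.exists_ideal_over_prime_of_isIntegral (S := C) P ⊥ (by
    intro a ha
    rw [Ideal.mem_comap, Ideal.mem_bot] at ha
    have : a = 0 := hinj (by rw [ha, map_zero])
    rw [this]
    exact P.zero_mem)
  let i : A ⧸ P →+* C ⧸ Q := Ideal.quotientMap Q (algebraMap A C) (le_of_eq hQP.symm)
  have hi : Function.Injective i := Ideal.quotientMap_injective' (le_of_eq hQP)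
  let j : A ⧸ P →+* Ω := Ideal.Quotient.lift P φ (fun a ha => ha)
  have hj : Function.Injective j := by
    rw [injective_iff_map_eq_zero]
    intro x hx
    obtain ⟨a, rfl⟩ := Ideal.Quotient.mk_surjective x
    rw [Ideal.Quotient.eq_zero_iff_mem]
    exact hx
  have hint : i.IsIntegral := by
    intro x
    obtain ⟨c, rfl⟩ := Ideal.Quotient.mk_surjective x
    obtain ⟨p, hp, hpc⟩ := Algebra.IsIntegral.isIntegral (R := A) c
    refine ⟨p.map (Ideal.Quotient.mk P), hp.map _, ?_⟩
    rw [Polynomial.eval₂_map]
    have h1 : i.comp (Ideal.Quotient.mk P) = (Ideal.Quotient.mk Q).comp (algebraMap A C) := by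
      ext a; rfl
    rw [h1, ← Polynomial.hom_eval₂, hpc, map_zero]
  have hdC : IsDomain (C ⧸ Q) := Ideal.Quotient.isDomain Q
  have hdA : IsDomain (A ⧸ P) := Ideal.Quotient.isDomain P
  obtain ⟨g, hg⟩ := lift_of_injective i hi hint j hj
  refine ⟨g.comp (Ideal.Quotient.mk Q), ?_⟩
  ext a
  exact RingHom.congr_fun hg (Ideal.Quotient.mk P a)

/-- extension of points along an algebraic extension of finite type -/
theorem extend_point {A B : Type*} [CommRing A] [IsDomain A] [CommRing B] [IsDomain B]
    [Algebra A B] [Algebra.IsAlgebraic A B] (hinj : Function.Injective (algebraMap A B))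
    (s : Finset B) (hs : Algebra.adjoin A (s : Set B) = ⊤) (v : B) (hv : v ≠ 0) :
    ∃ u : A, u ≠ 0 ∧ ∀ (Ω : Type*) [Field Ω] [IsAlgClosed Ω] (φ : A →+* Ω), φ u ≠ 0 →
      ∃ χ : B →+* Ω, χ.comp (algebraMap A B) = φ ∧ χ v ≠ 0 := by
  classical
  have hf : FaithfulSMul A B := (faithfulSMul_iff_algebraMap_injective _ _).mpr hinj
  let K := FractionRing B
  have hBK := IsFractionRing.injective B K
  have halg : Algebra.IsAlgebraic A K := (IsFractionRing.isAlgebraic_iff' A B K).1 inferInstance
  obtain ⟨u, hu, hint⟩ := Algebra.IsAlgebraic.exists_integral_multiples A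
    (s.image (algebraMap B K) ∪ {(algebraMap B K v)⁻¹})
  refine ⟨u, hu, fun Ω _ _ φ hφ => ?_⟩
  have hAK : Function.Injective (algebraMap A K) := by
    rw [IsScalarTower.algebraMap_eq A B K]
    exact hBK.comp hinj
  have huK : algebraMap A K u ≠ 0 := fun h => hu (hAK (by rw [h, map_zero]))
  let A' := Localization.Away u
  let l : A' →+* K := IsLocalization.Away.lift (g := algebraMap A K) u (IsUnit.mk0 _ huK)
  have hl : l.comp (algebraMap A A') = algebraMap A K :=
    IsLocalization.Away.lift_comp u (IsUnit.mk0 _ huK)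
  let _ := l.toAlgebra
  have : IsScalarTower A A' K := IsScalarTower.of_algebraMap_eq' hl.symm
  have hlinj : Function.Injective (algebraMap A' K) := by
    rw [injective_iff_map_eq_zero]
    intro x hx
    obtain ⟨⟨r, s⟩, hrs⟩ := IsLocalization.surj (Submonoid.powers u) x
    have h1 := congrArg (algebraMap A' K) hrs
    rw [map_mul, hx, zero_mul, ← IsScalarTower.algebraMap_apply] at h1
    have hr : r = 0 := hAK (by rw [← h1, map_zero])
    rw [hr, map_zero] at hrs
    have hs : IsUnit (algebraMap A A' s) := IsLocalization.map_units _ s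
    exact (hs.mul_left_eq_zero).mp hrs
  let C := integralClosure A' K
  have hC : Algebra.IsIntegral A' C := inferInstance
  have hCinj : Function.Injective (algebraMap A' C) := by
    intro x y hxy
    apply hlinj
    exact congrArg (algebraMap C K) hxy
  let φ' : A' →+* Ω := IsLocalization.Away.lift (g := φ) u (IsUnit.mk0 _ hφ)
  have hφ' : φ'.comp (algebraMap A A') = φ := IsLocalization.Away.lift_comp u (IsUnit.mk0 _ hφ)
  obtain ⟨ψ, hψ⟩ := extend_integral hCinj φ'
  -- elements of `K` integral over `A'`
  have hmem : ∀ z : K, IsIntegral A (u • z) → z ∈ C := by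
    intro z hz
    have h1 : IsIntegral A' (u • z) := hz.tower_top
    have h2 : z = (IsLocalization.Away.invSelf u : A') • (u • z) := by
      rw [Algebra.smul_def, Algebra.smul_def, ← mul_assoc]
      have h3 : algebraMap A' K (IsLocalization.Away.invSelf u : A') * algebraMap A K u = 1 := by
        rw [IsScalarTower.algebraMap_apply A A' K, ← map_mul, mul_comm,
          IsLocalization.Away.mul_invSelf, map_one]
      rw [h3, one_mul]
    rw [h2]
    exact h1.smul _
  have hB : ∀ b : B, algebraMap B K b ∈ C := by
    intro b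
    have hb : b ∈ Algebra.adjoin A (s : Set B) := by rw [hs]; trivial
    induction hb using Algebra.adjoin_induction with
    | mem x hx => exact hmem _ (hint _ (by
        rw [Finset.mem_union]
        exact Or.inl (Finset.mem_image_of_mem _ hx)))
    | algebraMap r =>
      rw [← IsScalarTower.algebraMap_apply A B K, IsScalarTower.algebraMap_apply A A' K]
      exact C.algebraMap_mem _
    | add x y _ _ hx hy => rw [map_add]; exact C.add_mem hx hy
    | mul x y _ _ hx hy => rw [map_mul]; exact C.mul_mem hx hy
  let τ : B →+* C := (algebraMap B K).codRestrict C.toSubring hB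
  have hvi : (algebraMap B K v)⁻¹ ∈ C := hmem _ (hint _ (by simp))
  have hvK : algebraMap B K v ≠ 0 := fun h => hv (hBK (by rw [h, map_zero]))
  refine ⟨ψ.comp τ, ?_, ?_⟩
  · rw [← hφ', ← hψ]
    ext a
    show ψ (τ (algebraMap A B a)) = ψ (algebraMap A' C (algebraMap A A' a))
    congr 1
    apply Subtype.ext
    show algebraMap B K (algebraMap A B a) = algebraMap A' K (algebraMap A A' a)
    rw [← IsScalarTower.algebraMap_apply, ← IsScalarTower.algebraMap_apply]
  · intro h0
    have h1 : τ v * ⟨(algebraMap B K v)⁻¹, hvi⟩ = (1 : C) := by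
      apply Subtype.ext
      show algebraMap B K v * (algebraMap B K v)⁻¹ = 1
      exact mul_inv_cancel₀ hvK
    have h2 := congrArg ψ h1
    rw [map_mul, map_one] at h2
    have h3 : ψ (τ v) = 0 := h0
    rw [h3, zero_mul] at h2
    exact zero_ne_one h2

end extend

section dominant

variable {k : Type*} [Field k] {ι σ : Type*}

/-- algebraically independent polynomials: points outside a hypersurface lift -/
theorem lift_points [Finite σ] (F : ι → MvPolynomial σ k) (hF : AlgebraicIndependent k F)
    (Φ : MvPolynomial σ k) (hΦ : Φ ≠ 0) :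
    ∃ Ψ : MvPolynomial ι k, Ψ ≠ 0 ∧ ∀ (Ω : Type*) [Field Ω] [IsAlgClosed Ω] [Algebra k Ω]
      (y : ι → Ω), aeval y Ψ ≠ 0 →
        ∃ x : σ → Ω, (∀ i, aeval x (F i) = y i) ∧ aeval x Φ ≠ 0 := by
  classical
  have := Fintype.ofFinite σ
  -- a transcendence basis containing the `F i`
  have htop : Algebra.adjoin k (Set.range F ∪ Set.range (X : σ → MvPolynomial σ k)) = ⊤ := by
    rw [eq_top_iff, ← MvPolynomial.adjoin_range_X]
    exact Algebra.adjoin_mono Set.subset_union_right
  have halg : Algebra.IsAlgebraic
      (Algebra.adjoin k (Set.range F ∪ Set.range (X : σ → MvPolynomial σ k)))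
      (MvPolynomial σ k) := by
    rw [htop]
    refine ⟨fun x => ?_⟩
    exact isAlgebraic_algebraMap (⟨x, trivial⟩ : (⊤ : Subalgebra k (MvPolynomial σ k)))
  have hFon : AlgebraicIndepOn k id (Set.range F) := hF.coe_range
  obtain ⟨T, hFT, -, hT⟩ := exists_isTranscendenceBasis_between (R := k)
    (Set.range F) (Set.range F ∪ Set.range (X : σ → MvPolynomial σ k)) Set.subset_union_left hFon
  let A := Algebra.adjoin k (Set.range (Subtype.val : T → MvPolynomial σ k))
  have halgA : Algebra.IsAlgebraic A (MvPolynomial σ k) := hT.isAlgebraic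
  have hAinj : Function.Injective (algebraMap A (MvPolynomial σ k)) := Subtype.val_injective
  have hgen : Algebra.adjoin A
      ((Finset.univ.image (X : σ → MvPolynomial σ k) : Finset (MvPolynomial σ k)) :
        Set (MvPolynomial σ k)) = ⊤ := by
    rw [eq_top_iff]
    intro p _
    have hp : p ∈ Algebra.adjoin k (Set.range (X : σ → MvPolynomial σ k)) := by
      rw [MvPolynomial.adjoin_range_X]; trivial
    induction hp using Algebra.adjoin_induction with
    | mem x hx =>
      apply Algebra.subset_adjoin
      obtain ⟨j, rfl⟩ := hx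
      simp
    | algebraMap r =>
      have : algebraMap k (MvPolynomial σ k) r =
        algebraMap A (MvPolynomial σ k) (algebraMap k A r) := rfl
      rw [this]
      exact Subalgebra.algebraMap_mem _ _
    | add x y _ _ hx hy => exact Subalgebra.add_mem _ (hx trivial) (hy trivial)
    | mul x y _ _ hx hy => exact Subalgebra.mul_mem _ (hx trivial) (hy trivial)
  obtain ⟨u, hu, hext⟩ := extend_point hAinj _ hgen Φ hΦ
  -- the polynomial `U` in the variables `T`
  let E := hT.1.aevalEquiv
  set U : MvPolynomial T k := E.symm u with hU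
  have hU0 : U ≠ 0 := by
    intro h
    apply hu
    have := congrArg E h
    rw [hU, AlgEquiv.apply_symm_apply, map_zero] at this
    exact this
  -- the variables `F i` of `T`
  let f : ι → T := fun i => ⟨F i, hFT ⟨i, rfl⟩⟩
  have hf : Function.Injective f := by
    intro i j h
    exact hF.injective (congrArg Subtype.val h)
  let V : MvPolynomial T (MvPolynomial ι k) :=
    aeval (fun τ : T => if h : ∃ i, f i = τ then C (X h.choose) else X τ) U
  have hV : V ≠ 0 := by
    intro h
    apply hU0
    let θ : MvPolynomial T (MvPolynomial ι k) →+* MvPolynomial T k :=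
      eval₂Hom (aeval (fun i => X (f i)) : MvPolynomial ι k →ₐ[k] MvPolynomial T k).toRingHom X
    have h1 : θ V = U := by
      have h2 : θ V = eval₂Hom (θ.comp (algebraMap k _)) (fun τ : T => θ
          (if h : ∃ i, f i = τ then C (X h.choose) else X τ)) U := by
        show θ (eval₂Hom _ _ U) = _
        rw [← RingHom.comp_apply, MvPolynomial.comp_eval₂Hom]
      rw [h2]
      have h3 : (fun τ : T => θ (if h : ∃ i, f i = τ then C (X h.choose) else X τ)) = X := by
        funext τ
        by_cases hτ : ∃ i, f i = τ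
        · rw [dif_pos hτ]
          show eval₂Hom _ _ (C (X hτ.choose)) = _
          rw [eval₂Hom_C]
          show aeval (fun i => (X (f i) : MvPolynomial T k)) (X hτ.choose) = _
          rw [aeval_X, hτ.choose_spec]
        · rw [dif_neg hτ]
          exact eval₂Hom_X' _ _ _
      have h4 : θ.comp (algebraMap k (MvPolynomial T (MvPolynomial ι k))) = C := by
        ext1 a
        show θ (C (C a)) = C a
        show eval₂Hom _ _ (C (C a)) = _
        rw [eval₂Hom_C]
        show aeval (fun i => (X (f i) : MvPolynomial T k)) (C a) = _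
        simp
      rw [h3, h4]
      exact MvPolynomial.eval₂_eta U
    rw [← h1, h, map_zero]
  obtain ⟨m, hm⟩ := MvPolynomial.ne_zero_iff.mp hV
  refine ⟨coeff m V, hm, fun Ω _ _ _ y hy => ?_⟩
  -- a point of the remaining variables
  let V' : MvPolynomial T Ω := map (aeval y : MvPolynomial ι k →ₐ[k] Ω).toRingHom V
  have hV' : V' ≠ 0 := by
    intro h
    apply hy
    have := congrArg (coeff m) h
    rw [coeff_map, coeff_zero] at this
    exact this
  obtain ⟨w, hw⟩ : ∃ w : T → Ω, eval w V' ≠ 0 := by
    by_contra hcon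
    push Not at hcon
    apply hV'
    apply MvPolynomial.funext
    intro w
    rw [hcon w, map_zero]
  let p : T → Ω := fun τ => if h : ∃ i, f i = τ then y h.choose else w τ
  have hp : aeval p U = eval w V' := by
    have h1 : eval w V' = ((eval w).comp (map (aeval y : MvPolynomial ι k →ₐ[k] Ω).toRingHom))
        V := rfl
    rw [h1]
    show _ = ((eval w).comp (map (aeval y : MvPolynomial ι k →ₐ[k] Ω).toRingHom))
      (eval₂Hom _ _ U)
    rw [← RingHom.comp_apply, MvPolynomial.comp_eval₂Hom]
    show eval₂Hom _ _ U = _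
    congr 2
    · ext1 a
      show algebraMap k Ω a = eval w (map _ (C (C a)))
      rw [map_C, eval_C]
      show _ = aeval y (C a)
      simp
    · funext τ
      by_cases hτ : ∃ i, f i = τ
      · show (if h : ∃ i, f i = τ then y h.choose else w τ) = eval w (map _
          (if h : ∃ i, f i = τ then C (X h.choose) else X τ))
        rw [dif_pos hτ, dif_pos hτ, map_C, eval_C]
        show _ = aeval y (X hτ.choose)
        rw [aeval_X]
      · show (if h : ∃ i, f i = τ then y h.choose else w τ) = eval w (map _
          (if h : ∃ i, f i = τ then C (X h.choose) else X τ))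
        rw [dif_neg hτ, dif_neg hτ, map_X, eval_X]
  let φ : A →ₐ[k] Ω := (aeval p : MvPolynomial T k →ₐ[k] Ω).comp E.symm.toAlgHom
  have hφu : φ.toRingHom u ≠ 0 := by
    show aeval p (E.symm u) ≠ 0
    rw [← hU, hp]
    exact hw
  obtain ⟨χ, hχ, hχΦ⟩ := hext Ω φ.toRingHom hφu
  have hχA : ∀ a : A, χ (a : MvPolynomial σ k) = φ a := fun a => RingHom.congr_fun hχ a
  have hχk : χ.comp C = algebraMap k Ω := by
    ext1 a
    show χ (C a) = _
    have h1 := hχA (algebraMap k A a)
    rw [AlgHom.commutes] at h1
    exact h1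
  have hχe : ∀ q : MvPolynomial σ k, χ q = aeval (fun j => χ (X j)) q := by
    intro q
    have h1 : χ = eval₂Hom (algebraMap k Ω) (fun j => χ (X j)) := by
      apply MvPolynomial.ringHom_ext
      · intro a
        rw [eval₂Hom_C, ← hχk]; rfl
      · intro j
        rw [eval₂Hom_X']
    conv_lhs => rw [h1]
    rfl
  refine ⟨fun j => χ (X j), fun i => ?_, ?_⟩
  · rw [← hχe]
    have h1 : (F i) = ((E (X (f i)) : A) : MvPolynomial σ k) := by
      have h2 := hT.1.algebraMap_aevalEquiv (X (f i))
      rw [aeval_X] at h2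
      exact h2.symm
    rw [h1, hχA]
    show aeval p (E.symm (E (X (f i)))) = y i
    rw [AlgEquiv.symm_apply_apply, aeval_X]
    have h3 : ∃ j, f j = f i := ⟨i, rfl⟩
    show (if h : ∃ j, f j = f i then y h.choose else w (f i)) = y i
    rw [dif_pos h3]
    congr 1
    exact hf h3.choose_spec
  · rw [← hχe]
    exact hχΦ

/-- **Dominance from one non vanishing Jacobian minor.** -/
theorem dominant [CharZero k] [Fintype ι] [DecidableEq ι] [Finite σ] (F : ι → MvPolynomial σ k)
    (e : ι → σ) (h : (Matrix.of fun i j => pderiv (e j) (F i)).det ≠ 0) (Φ : MvPolynomial σ k)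
    (hΦ : Φ ≠ 0) :
    ∃ Ψ : MvPolynomial ι k, Ψ ≠ 0 ∧ ∀ (Ω : Type*) [Field Ω] [IsAlgClosed Ω] [Algebra k Ω]
      (y : ι → Ω), aeval y Ψ ≠ 0 →
        ∃ x : σ → Ω, (∀ i, aeval x (F i) = y i) ∧ aeval x Φ ≠ 0 :=
  lift_points F (algInd_of_jacobian F e h) Φ hΦ

end dominant

end Pool.Agent.Work.D9
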