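import Mathlib
import Pool.Agent.Work.MP_b62148_ag.D9.JA
import Pool.Agent.Work.MP_b62148_ag.D9.Maps

/-!
An explicit instance of the hypotheses of D9, with coefficients in `ℤ`: the curve of jumping lines is
`5 l₀ l₁ l₂ = l₀³ + l₁³ + l₂³`.
-/

namespace Pool.Agent.Work.D9

open MvPolynomial Matrix

section

/-- the matrices: `rows exB l` is the Moore matrix with entries `l`, `l`, `2 l` -/
def exB (S : Type*) [CommRing S] : Fin 3 → Matrix (Fin 3) (Fin 3) S :=
  ![!![1, 0, 0; 0, 1, 0; 0, 0, 2], !![0, 0, 1; 2, 0, 0; 0, 1, 0], !![0, 2, 0; 0, 0, 1; 1, 0, 0]]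

/-- coefficients of `N_0 = A₀₁ A₂₂ - A₀₂ A₁₁`, `N_1 = A₀₂ A₂₀ + A₀₂ A₁₀ - A₂₁²`,
`N_2 = A₀₀ A₂₂ + A₀₀ A₀₁` -/
def exNZ (j : Fin 3) (s t : Fin 3 × Fin 3) : ℤ :=
  if (j, s, t) = (0, (0, 1), (2, 2)) then 1 else
  if (j, s, t) = (0, (0, 2), (1, 1)) then -1 else
  if (j, s, t) = (1, (0, 2), (2, 0)) then 1 else
  if (j, s, t) = (1, (0, 2), (1, 0)) then 1 else
  if (j, s, t) = (1, (2, 1), (2, 1)) then -1 else
  if (j, s, t) = (2, (0, 0), (2, 2)) then 1 else
  if (j, s, t) = (2, (0, 0), (0, 1)) then 1 else 0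

/-- the same over a ring -/
def exN (S : Type*) [CommRing S] : Fin 3 → Fin 3 × Fin 3 → Fin 3 × Fin 3 → S :=
  fun j s t => (exNZ j s t : S)

theorem mB_exB {S T : Type*} [CommRing S] [CommRing T] (φ : S →+* T) : mB φ (exB S) = exB T := by
  funext i
  ext r c
  have h2 : φ 2 = 2 := map_ofNat φ 2
  fin_cases i <;> fin_cases r <;> fin_cases c <;> simp [mB, exB, h2]

theorem mN_exN {S T : Type*} [CommRing S] [CommRing T] (φ : S →+* T) : mN φ (exN S) = exN T := by
  funext j s t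
  simp [mN, exN]

variable {S : Type*} [CommRing S]

theorem Nrow_exN (A : Matrix (Fin 3) (Fin 3) S) : Nrow (exN S) A =
    ![A 0 1 * A 2 2 - A 0 2 * A 1 1, A 0 2 * A 2 0 + A 0 2 * A 1 0 - A 2 1 * A 2 1,
      A 0 0 * A 2 2 + A 0 0 * A 0 1] := by
  funext j
  fin_cases j <;>
    simp [Nrow, exN, exNZ, Fintype.sum_prod_type, Fin.sum_univ_three] <;> ring

theorem qf_exN (x : Fin 3 → S) (A A' : Matrix (Fin 3) (Fin 3) S) : qf (exN S) x A A' =
    x 0 * (A 0 1 * A' 2 2 - A 0 2 * A' 1 1) +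
    x 1 * (A 0 2 * A' 2 0 + A 0 2 * A' 1 0 - A 2 1 * A' 2 1) +
    x 2 * (A 0 0 * A' 2 2 + A 0 0 * A' 0 1) := by
  simp [qf, exN, exNZ, Fintype.sum_prod_type, Fin.sum_univ_three]
  ring

theorem rows_exB (l : Fin 3 → S) : rows (exB S) l =
    !![l 0, l 1, 2 * l 2; 2 * l 1, l 2, l 0; l 2, 2 * l 0, l 1] := by
  ext i j
  fin_cases i <;> fin_cases j <;> simp [rows, exB, Fin.sum_univ_three] <;> ring

theorem trB_exB (A : Matrix (Fin 3) (Fin 3) S) :
    trB (exB S) 0 A = A 0 0 + A 1 1 + 2 * A 2 2 ∧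
    trB (exB S) 1 A = A 2 0 + 2 * A 0 1 + A 1 2 ∧
    trB (exB S) 2 A = 2 * A 1 0 + A 2 1 + A 0 2 := by
  refine ⟨?_, ?_, ?_⟩ <;> simp [trB, exB, Fin.sum_univ_three]

end

section field

variable {F : Type*} [Field F] [CharZero F]

/-- the curve of jumping lines is smooth -/
theorem ex_smooth (l : Fin 3 → F) (hl : l ≠ 0) (_h : eval l (jc (exB F)) = 0) :
    ∃ i, eval l (pderiv i (jc (exB F))) ≠ 0 := by
  by_contra hcon
  push Not at hcon
  have h0 := hcon 0
  have h1 := hcon 1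
  have h2 := hcon 2
  rw [eval_pderiv_jc, rows_exB, rows_exB, adjugate_fin_three, trace_fin_three] at h0 h1 h2
  simp [Matrix.mul_apply, Fin.sum_univ_three] at h0 h1 h2
  have e0 : 5 * (l 1 * l 2) = 3 * l 0 ^ 2 := by linear_combination h0 / 2
  have e1 : 5 * (l 0 * l 2) = 3 * l 1 ^ 2 := by linear_combination h1 / 2
  have e2 : 5 * (l 0 * l 1) = 3 * l 2 ^ 2 := by linear_combination h2 / 2
  have hP : (l 0 * l 1 * l 2) ^ 2 = 0 := by
    have h3 : 125 * (l 0 * l 1 * l 2) ^ 2 = 27 * (l 0 * l 1 * l 2) ^ 2 := by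
      calc 125 * (l 0 * l 1 * l 2) ^ 2
          = (5 * (l 1 * l 2)) * (5 * (l 0 * l 2)) * (5 * (l 0 * l 1)) := by ring
        _ = 27 * (l 0 * l 1 * l 2) ^ 2 := by rw [e0, e1, e2]; ring
    have h4 : (98 : F) * (l 0 * l 1 * l 2) ^ 2 = 0 := by linear_combination h3
    rcases mul_eq_zero.mp h4 with h | h
    · exact absurd h (by norm_num)
    · exact h
  have hP' : l 0 * l 1 * l 2 = 0 := by simpa using hP
  have c0 : l 0 = 0 := by
    have : l 0 ^ 3 = 0 := by linear_combination (5 / 3) * hP' - (l 0 / 3) * e0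
    simpa using this
  have c1 : l 1 = 0 := by
    have : l 1 ^ 3 = 0 := by linear_combination (5 / 3) * hP' - (l 1 / 3) * e1
    simpa using this
  have c2 : l 2 = 0 := by
    have : l 2 ^ 3 = 0 := by linear_combination (5 / 3) * hP' - (l 2 / 3) * e2
    simpa using this
  apply hl
  funext i
  fin_cases i
  · exact c0
  · exact c1
  · exact c2

/-- a smooth fibre -/
theorem ex_fibre : SmoothFibre (exB F) (exN F) ![1, 0, -1] := by
  refine ⟨fun y z => ?_, fun A hA ht hq => ?_⟩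
  · refine ⟨!![0, (z 1 + y 1) / 2, -y 0; 0, z 0 + 2 * y 2, -y 1; 0, z 2 + y 0, -y 2], ?_, ?_⟩
    · funext i
      fin_cases i <;> simp [Matrix.mulVec, dotProduct, Fin.sum_univ_three]
    · obtain ⟨h0, h1, h2⟩ := trB_exB
        (!![0, (z 1 + y 1) / 2, -y 0; 0, z 0 + 2 * y 2, -y 1; 0, z 2 + y 0, -y 2])
      intro i
      fin_cases i
      · refine h0.trans ?_
        simp
      · refine h1.trans ?_
        simp
        ring
      · refine h2.trans ?_
        simp
  · obtain ⟨t0, t1, t2⟩ := trB_exB A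
    rw [ht] at t0 t1 t2
    have a0 := congrFun hA 0
    have a1 := congrFun hA 1
    have a2 := congrFun hA 2
    simp [Matrix.mulVec, dotProduct, Fin.sum_univ_three] at a0 a1 a2
    have key : ∀ u v w : F, qf (exN F) ![1, 0, -1] A
          !![u, -(w + v) / 2, u; v, -u - 2 * w, v; w, -2 * v - u, w] +
        qf (exN F) ![1, 0, -1] !![u, -(w + v) / 2, u; v, -u - 2 * w, v; w, -2 * v - u, w] A = 0 := by
      intro u v w
      refine hq _ ?_ ?_
      · funext i
        fin_cases i <;> simp [Matrix.mulVec, dotProduct, Fin.sum_univ_three]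
      · obtain ⟨h0, h1, h2⟩ := trB_exB
          (!![u, -(w + v) / 2, u; v, -u - 2 * w, v; w, -2 * v - u, w])
        intro i
        fin_cases i
        · refine h0.trans ?_
          simp
          ring
        · refine h1.trans ?_
          simp
          ring
        · refine h2.trans ?_
          simp
          ring
    have k0 := key 1 0 0
    have k1 := key 0 1 0
    have k2 := key 0 0 1
    rw [qf_exN, qf_exN] at k0 k1 k2
    simp at k0 k1 k2
    have b0 : A 0 2 = A 0 0 := by linear_combination -a0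
    have b1 : A 1 2 = A 1 0 := by linear_combination -a1
    have b2 : A 2 2 = A 2 0 := by linear_combination -a2
    have b3 : A 1 1 = -A 0 0 - 2 * A 2 0 := by linear_combination -t0 - 2 * b2
    have b4 : A 0 1 = -(A 2 0 + A 1 0) / 2 := by linear_combination (-t1 - b1) / 2
    have b5 : A 2 1 = -2 * A 1 0 - A 0 0 := by linear_combination -t2 - b0
    rw [b0, b2, b3, b4] at k0
    rw [b2] at k1
    rw [b0, b2, b4] at k2
    have c0 : A 0 0 = A 2 0 := by linear_combination 2 * k1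
    have c1 : A 1 0 = A 0 0 := by linear_combination -2 * k2 + 2 * c0
    have c2 : A 0 0 = 0 := by linear_combination (1 / 4) * k0 - (1 / 8) * c1 + (3 / 8) * c0
    ext i j
    fin_cases i <;> fin_cases j
    · exact c2
    · refine b4.trans ?_
      rw [c1, ← c0, c2]
      simp
    · exact b0.trans c2
    · exact c1.trans c2
    · refine b3.trans ?_
      rw [← c0, c2]
      simp
    · exact b1.trans (c1.trans c2)
    · exact c0.symm.trans c2
    · refine b5.trans ?_
      rw [c1, c2]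
      simp
    · exact b2.trans (c0.symm.trans c2)

/-- `l₀ = (0, 1, -1)` -/
theorem ex_cfg_zero : Cfg (exB F) (exN F) ![0, 1, -1] ![1, 2, 1] ![1, 1, 2] ![-1, 0, 1]
    ![-1, 1, 0] where
  l0 h := by simpa using congrFun h 1
  p0 h := by simpa using congrFun h 0
  m0 h := by simpa using congrFun h 0
  a0 h := by simpa using congrFun h 2
  hp := by
    rw [rows_exB]
    funext i
    fin_cases i <;> simp [Matrix.mulVec, dotProduct, Fin.sum_univ_three]
  hm := by
    rw [rows_exB]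
    funext i
    fin_cases i <;> simp [Matrix.vecMul, dotProduct, Fin.sum_univ_three]
  ha := by
    funext i
    fin_cases i <;>
      simp [Matrix.mulVec, dotProduct, Fin.sum_univ_three, exB, Matrix.add_apply]
  x0 h := by
    rw [Nrow_exN] at h
    have := congrFun h 0
    simp [cross_apply, vecMulVec_apply] at this
  tr i := by
    rw [Nrow_exN]
    obtain ⟨h0, h1, h2⟩ := trB_exB (vecMulVec (![-1, 0, 1] : Fin 3 → F)
      ![vecMulVec ![1, 2, 1] ![0, 1, -1] 0 1 * vecMulVec ![1, 2, 1] ![0, 1, -1] 2 2 -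
        vecMulVec ![1, 2, 1] ![0, 1, -1] 0 2 * vecMulVec ![1, 2, 1] ![0, 1, -1] 1 1,
      vecMulVec ![1, 2, 1] ![0, 1, -1] 0 2 * vecMulVec ![1, 2, 1] ![0, 1, -1] 2 0 +
        vecMulVec ![1, 2, 1] ![0, 1, -1] 0 2 * vecMulVec ![1, 2, 1] ![0, 1, -1] 1 0 -
        vecMulVec ![1, 2, 1] ![0, 1, -1] 2 1 * vecMulVec ![1, 2, 1] ![0, 1, -1] 2 1,
      vecMulVec ![1, 2, 1] ![0, 1, -1] 0 0 * vecMulVec ![1, 2, 1] ![0, 1, -1] 2 2 +
        vecMulVec ![1, 2, 1] ![0, 1, -1] 0 0 * vecMulVec ![1, 2, 1] ![0, 1, -1] 0 1] +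
      vecMulVec ![-1, 1, 0] ![0, 1, -1])
    fin_cases i
    · refine h0.trans ?_
      simp [vecMulVec_apply]
      try norm_num
    · refine h1.trans ?_
      simp [vecMulVec_apply]
      try norm_num
    · refine h2.trans ?_
      simp [vecMulVec_apply]
      try norm_num

theorem ex_flex_zero : flexval (exN F) ![0, 1, -1] ![1, 2, 1] ![-1, 0, 1] ![-1, 1, 0] = 0 := by
  rw [flexval, sf, qf_exN, qf_exN, Nrow_exN]
  simp [cross_apply, vecMulVec_apply]
  try norm_num

theorem ex_end_zero : endval (exN F) ![0, 1, -1] ![1, 2, 1] ![-1, 0, 1] ![-1, 1, 0] ≠ 0 := by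
  rw [endval, qf_exN, Nrow_exN]
  simp [cross_apply, vecMulVec_apply]
  try norm_num

/-- `l₁ = (1, 0, -1)` -/
theorem ex_cfg_one : Cfg (exB F) (exN F) ![1, 0, -1] ![2, 1, 1] ![1, 2, 1] ![0, -1, 1]
    ![0, 2, 0] where
  l0 h := by simpa using congrFun h 0
  p0 h := by simpa using congrFun h 1
  m0 h := by simpa using congrFun h 0
  a0 h := by simpa using congrFun h 2
  hp := by
    rw [rows_exB]
    funext i
    fin_cases i <;> simp [Matrix.mulVec, dotProduct, Fin.sum_univ_three]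
  hm := by
    rw [rows_exB]
    funext i
    fin_cases i <;> simp [Matrix.vecMul, dotProduct, Fin.sum_univ_three]
  ha := by
    funext i
    fin_cases i <;>
      simp [Matrix.mulVec, dotProduct, Fin.sum_univ_three, exB, Matrix.add_apply]
  x0 h := by
    rw [Nrow_exN] at h
    have := congrFun h 0
    simp [cross_apply, vecMulVec_apply] at this
  tr i := by
    rw [Nrow_exN]
    obtain ⟨h0, h1, h2⟩ := trB_exB (vecMulVec (![0, -1, 1] : Fin 3 → F)
      ![vecMulVec ![2, 1, 1] ![1, 0, -1] 0 1 * vecMulVec ![2, 1, 1] ![1, 0, -1] 2 2 -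
        vecMulVec ![2, 1, 1] ![1, 0, -1] 0 2 * vecMulVec ![2, 1, 1] ![1, 0, -1] 1 1,
      vecMulVec ![2, 1, 1] ![1, 0, -1] 0 2 * vecMulVec ![2, 1, 1] ![1, 0, -1] 2 0 +
        vecMulVec ![2, 1, 1] ![1, 0, -1] 0 2 * vecMulVec ![2, 1, 1] ![1, 0, -1] 1 0 -
        vecMulVec ![2, 1, 1] ![1, 0, -1] 2 1 * vecMulVec ![2, 1, 1] ![1, 0, -1] 2 1,
      vecMulVec ![2, 1, 1] ![1, 0, -1] 0 0 * vecMulVec ![2, 1, 1] ![1, 0, -1] 2 2 +
        vecMulVec ![2, 1, 1] ![1, 0, -1] 0 0 * vecMulVec ![2, 1, 1] ![1, 0, -1] 0 1] +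
      vecMulVec ![0, 2, 0] ![1, 0, -1])
    fin_cases i
    · refine h0.trans ?_
      simp [vecMulVec_apply]
      try norm_num
    · refine h1.trans ?_
      simp [vecMulVec_apply]
      try norm_num
    · refine h2.trans ?_
      simp [vecMulVec_apply]
      try norm_num

theorem ex_flex_one : flexval (exN F) ![1, 0, -1] ![2, 1, 1] ![0, -1, 1] ![0, 2, 0] ≠ 0 := by
  rw [flexval, sf, qf_exN, qf_exN, Nrow_exN]
  simp [cross_apply, vecMulVec_apply]
  try norm_num

end field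

end Pool.Agent.Work.D9
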