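import Mathlib
import Pool.Agent.Work.MP_b62148_ag.D9.JC

/-!
From finitely many common zeros in one chart (projection from a point off the cubic) to finitely
many common zeros in every chart.
-/

namespace Pool.Agent.Work.D9

open MvPolynomial

section

variable {Ω : Type*} [Field Ω]

theorem eval_affine (D : MvPolynomial (Fin 3) Ω) (w c : Fin 3 → Ω) (y : Ω) :
    Polynomial.eval y (aeval (fun i => Polynomial.C (w i) + Polynomial.X * Polynomial.C (c i)) D) =
      eval (w + y • c) D := by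
  induction D using MvPolynomial.induction_on with
  | C a => simp
  | add p q hp hq => rw [map_add, Polynomial.eval_add, hp, hq, map_add]
  | mul_X p i hp =>
    rw [map_mul, Polynomial.eval_mul, hp, map_mul, aeval_X, eval_X, Polynomial.eval_add,
      Polynomial.eval_mul, Polynomial.eval_C, Polynomial.eval_X, Polynomial.eval_C, Pi.add_apply,
      Pi.smul_apply, smul_eq_mul]

theorem finite_line [Infinite Ω] {D : MvPolynomial (Fin 3) Ω} {m : ℕ} (hD : D.IsHomogeneous m)
    {c : Fin 3 → Ω} (hc : eval c D ≠ 0) (w : Fin 3 → Ω) :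
    {y : Ω | eval (w + y • c) D = 0}.Finite := by
  classical
  set p : Polynomial Ω :=
    aeval (fun i => Polynomial.C (w i) + Polynomial.X * Polynomial.C (c i)) D with hp
  have hp0 : p ≠ 0 := by
    intro h0
    have h1 : ∀ y : Ω, eval (w + y • c) D = 0 := by
      intro y
      rw [← eval_affine, ← hp, h0, Polynomial.eval_zero]
    set q : Polynomial Ω :=
      aeval (fun i => Polynomial.C (c i) + Polynomial.X * Polynomial.C (w i)) D with hq
    have hq0 : Polynomial.X * q = 0 := by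
      refine Polynomial.funext fun s => ?_
      rw [Polynomial.eval_mul, Polynomial.eval_X, Polynomial.eval_zero, hq, eval_affine]
      by_cases hs : s = 0
      · rw [hs, zero_mul]
      · have h2 : c + s • w = s • (w + s⁻¹ • c) := by
          rw [smul_add, smul_smul, mul_inv_cancel₀ hs, one_smul, add_comm]
        rw [h2, eval_smul_cubic hD, h1, mul_zero, mul_zero]
    have hq1 : q = 0 := (mul_eq_zero.1 hq0).resolve_left Polynomial.X_ne_zero
    apply hc
    have h3 := eval_affine D c w 0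
    rw [← hq, hq1, Polynomial.eval_zero, zero_smul, add_zero] at h3
    exact h3.symm
  refine Set.Finite.subset p.roots.toFinset.finite_toSet ?_
  intro y hy
  rw [Finset.mem_coe, Multiset.mem_toFinset, Polynomial.mem_roots hp0, Polynomial.IsRoot.def, hp,
    eval_affine]
  exact hy

/-- finitely many common zeros in every chart -/
theorem fin_of_chart [Infinite Ω] (D : MvPolynomial (Fin 3) Ω) {m : ℕ}
    (hD : D.IsHomogeneous m)
    (F : (Fin 3 → Ω) → Ω) (N : ℕ) (hF : ∀ (c : Ω) (l : Fin 3 → Ω), F (c • l) = c ^ N * F l)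
    (u₀ u₁ c : Fin 3 → Ω) (hb : LinearIndependent Ω ![u₀, u₁, c]) (hc : eval c D ≠ 0)
    (T : Set Ω) (hTf : T.Finite)
    (hT : ∀ x y : Ω, eval (u₀ + x • u₁ + y • c) D = 0 → F (u₀ + x • u₁ + y • c) = 0 → x ∈ T)
    (l₀ e₁ e₂ : Fin 3 → Ω) (hl : LinearIndependent Ω ![l₀, e₁, e₂]) :
    {XY : Ω × Ω | eval (l₀ + XY.1 • e₁ + XY.2 • e₂) D = 0 ∧
      F (l₀ + XY.1 • e₁ + XY.2 • e₂) = 0}.Finite := by
  classical
  set bas := basisOfLinearIndependentOfCardEqFinrank hb (by simp) with hbas
  have hrep : ∀ v : Fin 3 → Ω, v = bas.repr v 0 • u₀ + bas.repr v 1 • u₁ + bas.repr v 2 • c := by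
    intro v
    have h := bas.sum_repr v
    rw [Fin.sum_univ_three] at h
    simp only [hbas, coe_basisOfLinearIndependentOfCardEqFinrank] at h
    exact h.symm
  have hne : ∀ X Y : Ω, l₀ + X • e₁ + Y • e₂ ≠ 0 := by
    intro X Y h
    have := Fintype.linearIndependent_iff.1 hl ![1, X, Y] (by
      simpa [Fin.sum_univ_three] using h)
    exact one_ne_zero (this 0)
  have hinj : ∀ (X Y X' Y' s : Ω),
      l₀ + X • e₁ + Y • e₂ = s • (l₀ + X' • e₁ + Y' • e₂) → X = X' ∧ Y = Y' := by
    intro X Y X' Y' s h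
    have h1 := Fintype.linearIndependent_iff.mp hl ![1 - s, X - s * X', Y - s * Y'] (by
      simp only [Fin.sum_univ_three, Matrix.cons_val_zero, Matrix.cons_val_one, Matrix.cons_val]
      have : (1 - s) • l₀ + (X - s * X') • e₁ + (Y - s * Y') • e₂ =
        (l₀ + X • e₁ + Y • e₂) - s • (l₀ + X' • e₁ + Y' • e₂) := by
        simp only [sub_smul, smul_add, mul_smul, one_smul]
        abel
      rw [this, h, sub_self])
    have a0 : 1 - s = 0 := h1 0
    have a1 : X - s * X' = 0 := h1 1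
    have a2 : Y - s * Y' = 0 := h1 2
    have hs : s = 1 := (sub_eq_zero.mp a0).symm
    rw [hs, one_mul] at a1 a2
    exact ⟨sub_eq_zero.mp a1, sub_eq_zero.mp a2⟩
  -- the finite set of normalised vectors
  set S : Set (Fin 3 → Ω) :=
    (⋃ x ∈ T, (fun y => u₀ + x • u₁ + y • c) '' {y : Ω | eval ((u₀ + x • u₁) + y • c) D = 0}) ∪
      (fun y => u₁ + y • c) '' {y : Ω | eval (u₁ + y • c) D = 0} with hS
  have hSf : S.Finite := by
    refine Set.Finite.union (hTf.biUnion fun x _ => ?_) ?_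
    · exact (finite_line hD hc _).image _
    · exact (finite_line hD hc _).image _
  have hkey : ∀ v : Fin 3 → Ω, v ≠ 0 → eval v D = 0 → F v = 0 →
      ∃ w ∈ S, ∃ s : Ω, s ≠ 0 ∧ v = s • w := by
    intro v hv h1 h2
    set α := bas.repr v 0
    set β := bas.repr v 1
    set γ := bas.repr v 2
    have hv' : v = α • u₀ + β • u₁ + γ • c := hrep v
    by_cases hα : α = 0
    · by_cases hβ : β = 0
      · exfalso
        rw [hα, hβ, zero_smul, zero_smul, zero_add, zero_add] at hv'
        have hγ : γ ≠ 0 := by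
          intro h
          rw [h, zero_smul] at hv'
          exact hv hv'
        rw [hv', eval_smul_cubic hD] at h1
        exact (mul_ne_zero (pow_ne_zero _ hγ) hc) h1
      · refine ⟨u₁ + (β⁻¹ * γ) • c, Or.inr ⟨β⁻¹ * γ, ?_, rfl⟩, β, hβ, ?_⟩
        · have h3 : v = β • (u₁ + (β⁻¹ * γ) • c) := by
            rw [smul_add, smul_smul, mul_inv_cancel_left₀ hβ, hv', hα, zero_smul, zero_add]
          rw [h3, eval_smul_cubic hD] at h1
          exact (mul_eq_zero.1 h1).resolve_left (pow_ne_zero _ hβ)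
        · rw [smul_add, smul_smul, mul_inv_cancel_left₀ hβ, hv', hα, zero_smul, zero_add]
    · have h3 : v = α • (u₀ + (α⁻¹ * β) • u₁ + (α⁻¹ * γ) • c) := by
        rw [smul_add, smul_add, smul_smul, smul_smul, mul_inv_cancel_left₀ hα,
          mul_inv_cancel_left₀ hα]
        exact hv'
      have h4 : eval (u₀ + (α⁻¹ * β) • u₁ + (α⁻¹ * γ) • c) D = 0 := by
        rw [h3, eval_smul_cubic hD] at h1
        exact (mul_eq_zero.1 h1).resolve_left (pow_ne_zero _ hα)
      have h5 : F (u₀ + (α⁻¹ * β) • u₁ + (α⁻¹ * γ) • c) = 0 := by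
        rw [h3, hF] at h2
        exact (mul_eq_zero.1 h2).resolve_left (pow_ne_zero _ hα)
      refine ⟨_, Or.inl ?_, α, hα, h3⟩
      rw [Set.mem_iUnion₂]
      exact ⟨α⁻¹ * β, hT _ _ h4 h5, α⁻¹ * γ, h4, rfl⟩
  -- choose the normalised vector
  have hch : ∀ XY : Ω × Ω, (eval (l₀ + XY.1 • e₁ + XY.2 • e₂) D = 0 ∧
      F (l₀ + XY.1 • e₁ + XY.2 • e₂) = 0) → ∃ w ∈ S, ∃ s : Ω, s ≠ 0 ∧
        l₀ + XY.1 • e₁ + XY.2 • e₂ = s • w := fun XY h => hkey _ (hne _ _) h.1 h.2
  choose! f hfS s hs0 hfs using hch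
  refine Set.Finite.of_injOn (f := f) (t := S) (fun XY h => hfS XY h) ?_ hSf
  intro XY h XY' h' heq
  have h1 := hfs XY h
  have h2 := hfs XY' h'
  have h3 : l₀ + XY.1 • e₁ + XY.2 • e₂ =
      (s XY * (s XY')⁻¹) • (l₀ + XY'.1 • e₁ + XY'.2 • e₂) := by
    rw [h1, h2, smul_smul, inv_mul_cancel_right₀ (hs0 XY' h'), heq]
  obtain ⟨e1, e2⟩ := hinj _ _ _ _ _ h3
  exact Prod.ext e1 e2

end

end Pool.Agent.Work.D9
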