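import Pool.Agent.Work.MP_b62148_ag.D9.NearStep

/-!
Points of an affine cubic near a smooth point at the origin, over one finitely generated field.
-/

namespace Pool.Agent.Work.D9

theorem infinite_image_of_step {α β Γ : Type*} [Preorder Γ] (S : Set α) (g : α → Γ) (k : α → β)
    (step : α → α) (hS : ∀ a ∈ S, step a ∈ S) (hlt : ∀ a ∈ S, g (step a) < g a)
    (hk : ∀ a ∈ S, ∀ b ∈ S, k a = k b → g a = g b) (hne : S.Nonempty) :
    (k '' S).Infinite := by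
  obtain ⟨a₀, h₀⟩ := hne
  have hmem : ∀ n, (step^[n]) a₀ ∈ S := by
    intro n
    induction n with
    | zero => simpa using h₀
    | succ n ih => rw [Function.iterate_succ_apply']; exact hS _ ih
  have hanti : StrictAnti fun n => g ((step^[n]) a₀) := by
    refine strictAnti_nat_of_succ_lt fun n => ?_
    simp only [Function.iterate_succ_apply']
    exact hlt _ (hmem n)
  have hinj : Function.Injective fun n => k ((step^[n]) a₀) := by
    intro m n h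
    exact hanti.injective (hk _ (hmem m) _ (hmem n) h)
  refine (Set.infinite_range_of_injective hinj).mono ?_
  rintro _ ⟨n, rfl⟩
  exact ⟨_, hmem n, rfl⟩

variable {Ω Γ₀ : Type*} [Field Ω] [LinearOrderedCommGroupWithZero Γ₀] (v : Valuation Ω Γ₀)

theorem exists_scale (S : Finset Ω) {δ : Ω} (hδ : δ ≠ 0) :
    ∃ r : Ω, r ≠ 0 ∧ v r ≤ 1 ∧ ∀ c ∈ S, v (c * r) ≤ v δ := by
  classical
  induction S using Finset.induction_on with
  | empty => exact ⟨1, one_ne_zero, by simp, by simp⟩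
  | insert c S hc ih =>
    obtain ⟨r, r0, r1, hr⟩ := ih
    rcases eq_or_ne c 0 with rfl | hc0
    · refine ⟨r, r0, r1, ?_⟩
      intro c' hc'
      rcases Finset.mem_insert.1 hc' with rfl | h
      · simp
      · exact hr _ h
    · rcases le_total (v r) (v (δ / c)) with hle | hle
      · refine ⟨r, r0, r1, ?_⟩
        intro c' hc'
        rcases Finset.mem_insert.1 hc' with rfl | h
        · rw [map_mul]
          refine (mul_le_mul' le_rfl hle).trans_eq ?_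
          rw [← map_mul]; congr 1; field_simp
        · exact hr _ h
      · refine ⟨δ / c, div_ne_zero hδ hc0, hle.trans r1, ?_⟩
        intro c' hc'
        rcases Finset.mem_insert.1 hc' with rfl | h
        · rw [mul_div_cancel₀ δ hc0]
        · refine le_trans ?_ (hr _ h)
          rw [map_mul, map_mul]
          exact mul_le_mul' le_rfl hle

/-- an affine cubic with smooth point `(0, 0)` and tangent line `Y = 0` -/
def pol (a b c d e f g X Y : Ω) : Ω :=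
  Y + a * X ^ 2 + b * X * Y + c * Y ^ 2 + d * X ^ 3 + e * X ^ 2 * Y + f * X * Y ^ 2 + g * Y ^ 3

theorem qStep_mem (E : Subfield Ω) {f₁ f₂ f₃ f₄ t s : Ω} (h₁ : f₁ ∈ E) (h₂ : f₂ ∈ E) (h₃ : f₃ ∈ E)
    (h₄ : f₄ ∈ E) (ht : t ∈ E) (hs : s ∈ E) :
    (qStep f₁ f₂ f₃ f₄ (t, s)).1 ∈ E ∧ (qStep f₁ f₂ f₃ f₄ (t, s)).2 ∈ E := by
  have e2 : (2 : Ω) ∈ E := ofNat_mem E 2
  have e3 : (3 : Ω) ∈ E := ofNat_mem E 3
  have e4 : (4 : Ω) ∈ E := ofNat_mem E 4
  have e1 : (1 : Ω) ∈ E := E.one_mem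
  have hr : qR f₁ f₂ f₃ f₄ t s ∈ E := by
    rw [qR]
    repeat' first
      | assumption
      | apply E.div_mem
      | apply E.add_mem
      | apply E.mul_mem
      | apply E.pow_mem
  have hG : qG s (qR f₁ f₂ f₃ f₄ t s) ∈ E := by
    rw [qG]; exact E.sub_mem (E.sub_mem hr hs) e1
  have hA : qA s (qR f₁ f₂ f₃ f₄ t s) ∈ E := by
    rw [qA]; exact E.sub_mem (E.mul_mem e2 (E.add_mem hs e1)) hr
  have hH : qH f₄ t s (qR f₁ f₂ f₃ f₄ t s) ∈ E := by
    rw [qH]; exact E.sub_mem (E.pow_mem hG 2) (E.mul_mem h₄ (E.pow_mem ht 4))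
  have hK : qK f₁ t s (qR f₁ f₂ f₃ f₄ t s) ∈ E := by
    rw [qK]; exact E.add_mem (E.mul_mem e2 hA) (E.mul_mem h₁ ht)
  have hu := E.div_mem hK hH
  simp only [qStep]
  exact ⟨E.mul_mem ht hu, E.sub_mem (E.sub_mem e1 (E.mul_mem hA hu))
    (E.mul_mem hG (E.pow_mem hu 2))⟩

theorem wStep_mem (E : Subfield Ω) {k₂ k₁ x w : Ω} (h₂ : k₂ ∈ E) (h₁ : k₁ ∈ E) (hx : x ∈ E)
    (hw : w ∈ E) : (wStep k₂ k₁ (x, w)).1 ∈ E ∧ (wStep k₂ k₁ (x, w)).2 ∈ E := by
  have e2 : (2 : Ω) ∈ E := ofNat_mem E 2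
  have e3 : (3 : Ω) ∈ E := ofNat_mem E 3
  have hm : wM k₂ k₁ x w ∈ E := by
    rw [wM]
    repeat' first
      | assumption
      | apply E.div_mem
      | apply E.add_mem
      | apply E.mul_mem
      | apply E.pow_mem
  have hx' : wM k₂ k₁ x w ^ 2 - k₂ - 2 * x ∈ E :=
    E.sub_mem (E.sub_mem (E.pow_mem hm 2) h₂) (E.mul_mem e2 hx)
  simp only [wStep]
  exact ⟨hx', E.add_mem hw (E.mul_mem hm (E.sub_mem hx' hx))⟩

/-- the set of points of the affine cubic near the origin with coordinates in `E` -/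
def NearSet (E : Subfield Ω) (a b c d e f g ε : Ω) : Set (Ω × Ω) :=
  {XY | XY.1 ∈ E ∧ XY.2 ∈ E ∧ pol a b c d e f g XY.1 XY.2 = 0 ∧ v XY.1 ≤ v ε ∧ v XY.2 ≤ v ε}

/-- the origin is not a flex -/
theorem near_a [CharZero Ω] [IsAlgClosed Ω] (h2 : v 2 < 1) (a b c d e f g : Ω) (ha : a ≠ 0)
    {ε : Ω} (hε : ε ≠ 0) :
    ∃ Z : Finset Ω, ∀ E : Subfield Ω, (Z : Set Ω) ⊆ (E : Set Ω) →
      (NearSet v E a b c d e f g ε).Infinite := by
  classical
  obtain ⟨l, l0, l1, hl⟩ := exists_scale v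
    {(2 * a * b - 4 * d) / a ^ 2, (b ^ 2 + 2 * a * c - 4 * e) / a ^ 2,
      (2 * b * c - 4 * f) / a ^ 2, (c ^ 2 - 4 * g) / a ^ 2, b / a, c / a, 32 / (a * ε)}
    (δ := (32 : Ω)) (by norm_num)
  simp only [Finset.mem_insert, Finset.mem_singleton, forall_eq_or_imp, forall_eq] at hl
  obtain ⟨c1, c2, c3, c4, cb, cc, cε⟩ := hl
  have v2pos : 0 < v 2 := by
    rw [zero_lt_iff]; exact (Valuation.ne_zero_iff v).2 two_ne_zero
  have v8 : v 8 = v 2 ^ 3 := by rw [← map_pow]; norm_num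
  have v16 : v 16 = v 2 ^ 4 := by rw [← map_pow]; norm_num
  have v32 : v 32 = v 2 ^ 5 := by rw [← map_pow]; norm_num
  have v32pos : 0 < v 32 := by rw [v32]; exact pow_pos v2pos 5
  have mono : ∀ {m n : ℕ}, m ≤ n → v 2 ^ n ≤ v 2 ^ m := fun h => pow_le_pow_right_of_le_one' h2.le h
  have smono : ∀ {m n : ℕ}, m < n → v 2 ^ n < v 2 ^ m := fun h =>
    pow_lt_pow_right_of_lt_one₀ v2pos h2 h
  have hlp : ∀ n : ℕ, v (l ^ n) ≤ 1 := fun n => by rw [map_pow]; exact pow_le_one' l1 n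
  set f₁ : Ω := (2 * a * b - 4 * d) / a ^ 2 * l with hf₁
  set f₂ : Ω := (b ^ 2 + 2 * a * c - 4 * e) / a ^ 2 * l * l ^ 1 with hf₂
  set f₃ : Ω := (2 * b * c - 4 * f) / a ^ 2 * l * l ^ 2 with hf₃
  set f₄ : Ω := (c ^ 2 - 4 * g) / a ^ 2 * l * l ^ 3 with hf₄
  have b₁ : v f₁ ≤ v 32 := c1
  have bn : ∀ (x : Ω) (n : ℕ), v x ≤ v 32 → v (x * l ^ n) ≤ v 32 := fun x n hx => by
    rw [map_mul]; exact (mul_le_mul' hx (hlp n)).trans_eq (mul_one _)
  have b₂ : v f₂ ≤ v 32 := bn _ _ c2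
  have b₃ : v f₃ ≤ v 32 := bn _ _ c3
  have b₄ : v f₄ ≤ v 32 := bn _ _ c4
  -- the starting point
  obtain ⟨s, hs⟩ : ∃ s : Ω, s ^ 2 = 1 + f₁ + f₂ + f₃ + f₄ := IsAlgClosed.exists_pow_nat_eq _ two_pos
  obtain ⟨s₀, hs₀, hle⟩ : ∃ s₀ : Ω, s₀ ^ 2 = 1 + f₁ + f₂ + f₃ + f₄ ∧ v (s₀ - 1) ≤ v (s₀ + 1) := by
    rcases le_total (v (s - 1)) (v (s + 1)) with h | h
    · exact ⟨s, hs, h⟩
    · refine ⟨-s, by rw [neg_sq, hs], ?_⟩
      rw [show -s - 1 = -(s + 1) by ring, show -s + 1 = -(s - 1) by ring, Valuation.map_neg,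
        Valuation.map_neg]
      exact h
  have hv2 : v 2 ≤ v (s₀ + 1) := by
    have : (2 : Ω) = (s₀ + 1) - (s₀ - 1) := by ring
    rw [this]
    exact Valuation.map_sub_le v le_rfl hle
  have hv8 : v (s₀ - 1) ≤ v 8 := by
    have h1 : v (s₀ - 1) * v (s₀ + 1) ≤ v 32 := by
      rw [← map_mul, show (s₀ - 1) * (s₀ + 1) = f₁ + f₂ + f₃ + f₄ by linear_combination hs₀]
      exact Valuation.map_add_le v (Valuation.map_add_le v (Valuation.map_add_le v b₁ b₂) b₃) b₄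
    have h3 : v (s₀ - 1) * v 2 ≤ v 16 * v 2 := by
      refine (mul_le_mul' le_rfl hv2).trans (h1.trans_eq ?_)
      rw [v16, v32]; exact pow_succ _ _
    have h4 : v (s₀ - 1) ≤ v 16 := le_of_mul_le_mul_right h3 v2pos
    refine h4.trans ?_
    rw [v16, v8]; exact mono (by norm_num)
  refine ⟨{a, b, c, d, e, f, g, l, s₀}, ?_⟩
  intro E hE
  have hmem : ∀ z ∈ ({a, b, c, d, e, f, g, l, s₀} : Finset Ω), z ∈ E := fun z hz => hE hz
  simp only [Finset.mem_insert, Finset.mem_singleton, forall_eq_or_imp, forall_eq] at hmem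
  obtain ⟨ma, mb, mc, md, me, mf, mg, ml, ms⟩ := hmem
  have e2 : (2 : Ω) ∈ E := ofNat_mem E 2
  have e4 : (4 : Ω) ∈ E := ofNat_mem E 4
  have m₁ : f₁ ∈ E := by
    rw [hf₁]
    repeat' first
      | assumption
      | apply E.div_mem
      | apply E.add_mem
      | apply E.sub_mem
      | apply E.mul_mem
      | apply E.pow_mem
  have m₂ : f₂ ∈ E := by
    rw [hf₂]
    repeat' first
      | assumption
      | apply E.div_mem
      | apply E.add_mem
      | apply E.sub_mem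
      | apply E.mul_mem
      | apply E.pow_mem
  have m₃ : f₃ ∈ E := by
    rw [hf₃]
    repeat' first
      | assumption
      | apply E.div_mem
      | apply E.add_mem
      | apply E.sub_mem
      | apply E.mul_mem
      | apply E.pow_mem
  have m₄ : f₄ ∈ E := by
    rw [hf₄]
    repeat' first
      | assumption
      | apply E.div_mem
      | apply E.add_mem
      | apply E.sub_mem
      | apply E.mul_mem
      | apply E.pow_mem
  let S : Set (Ω × Ω) := {p | p.1 ∈ E ∧ p.2 ∈ E ∧ p.1 ≠ 0 ∧ v p.1 ≤ 1 ∧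
    p.2 ^ 2 = 1 + f₁ * p.1 + f₂ * p.1 ^ 2 + f₃ * p.1 ^ 3 + f₄ * p.1 ^ 4 ∧ v (p.2 - 1) ≤ v 8}
  have hSstep : ∀ p ∈ S, qStep f₁ f₂ f₃ f₄ p ∈ S ∧ v (qStep f₁ f₂ f₃ f₄ p).1 = v 2 * v p.1 := by
    rintro ⟨t, s⟩ ⟨h1, h2', h3, h4, h5, h6⟩
    simp only at h1 h2' h3 h4 h5 h6
    obtain ⟨t', s', hp⟩ : ∃ t' s', qStep f₁ f₂ f₃ f₄ (t, s) = (t', s') := ⟨_, _, rfl⟩
    obtain ⟨s0, H0, vt, vs⟩ := qStep_val v h2 b₁ b₂ b₃ b₄ h4 h6 hp
    have hm := qStep_mem E m₁ m₂ m₃ m₄ h1 h2'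
    have hc := qStep_curve s0 h5 H0 hp
    rw [hp] at hm ⊢
    refine ⟨⟨hm.1, hm.2, ?_, ?_, hc, vs⟩, vt⟩
    · intro h0
      simp only at h0
      rw [h0, map_zero] at vt
      exact (mul_ne_zero v2pos.ne' ((Valuation.ne_zero_iff v).2 h3)) vt.symm
    · simp only
      rw [vt]
      exact mul_le_one' h2.le h4
  -- the parametrisation
  let k : Ω × Ω → Ω × Ω := fun p =>
    (-(2 * (l * p.1)) / (a + b * (l * p.1) + c * (l * p.1) ^ 2 + a * p.2),
      l * p.1 * (-(2 * (l * p.1)) / (a + b * (l * p.1) + c * (l * p.1) ^ 2 + a * p.2)))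
  have hden : ∀ p ∈ S, v (a + b * (l * p.1) + c * (l * p.1) ^ 2 + a * p.2) = v 2 * v a := by
    rintro ⟨t, s⟩ ⟨-, -, h3, h4, h5, h6⟩
    simp only at h3 h4 h5 h6 ⊢
    have e : a + b * (l * t) + c * (l * t) ^ 2 + a * s =
        2 * a * (1 + (b / a * l * t + c / a * l * (l * t ^ 2) + (s - 1)) / 2) := by
      field_simp
      ring
    rw [e, map_mul, map_mul, Valuation.map_one_add_of_lt v, mul_one]
    rw [map_div₀, div_lt_one₀ v2pos]
    have l4 : v 32 < v 2 := by rw [v32]; simpa using smono (m := 1) (n := 5) (by norm_num)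
    have l5 : v 8 < v 2 := by rw [v8]; simpa using smono (m := 1) (n := 3) (by norm_num)
    refine Valuation.map_add_lt v (Valuation.map_add_lt v ?_ ?_) (h6.trans_lt l5)
    · rw [map_mul]
      exact ((mul_le_mul' cb h4).trans_eq (mul_one _)).trans_lt l4
    · rw [map_mul]
      have : v (l * t ^ 2) ≤ 1 := by
        rw [map_mul, map_pow]; exact mul_le_one' l1 (pow_le_one' h4 2)
      exact ((mul_le_mul' cc this).trans_eq (mul_one _)).trans_lt l4
  have hden0 : ∀ p ∈ S, a + b * (l * p.1) + c * (l * p.1) ^ 2 + a * p.2 ≠ 0 := by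
    intro p hp h0
    have := hden p hp
    rw [h0, map_zero] at this
    exact (mul_ne_zero v2pos.ne' ((Valuation.ne_zero_iff v).2 ha)) this.symm
  have hk1 : ∀ p ∈ S, (k p).1 ≠ 0 := by
    intro p hp
    exact div_ne_zero (neg_ne_zero.2 (mul_ne_zero two_ne_zero (mul_ne_zero l0 hp.2.2.1)))
      (hden0 p hp)
  have hinf := infinite_image_of_step S (fun p => v p.1) k (qStep f₁ f₂ f₃ f₄)
    (fun p hp => (hSstep p hp).1)
    (fun p hp => by
      show v (qStep f₁ f₂ f₃ f₄ p).1 < v p.1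
      rw [(hSstep p hp).2]
      calc v 2 * v p.1 < 1 * v p.1 :=
            mul_lt_mul_of_pos_right h2 (zero_lt_iff.2 ((Valuation.ne_zero_iff v).2 hp.2.2.1))
        _ = v p.1 := one_mul _)
    (fun p hp q hq hpq => by
      show v p.1 = v q.1
      have h1 : (k p).1 = (k q).1 := by rw [hpq]
      have h2' : l * p.1 * (k p).1 = l * q.1 * (k q).1 := congrArg Prod.snd hpq
      rw [h1] at h2'
      rw [mul_left_cancel₀ l0 (mul_right_cancel₀ (hk1 q hq) h2')])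
    ⟨(1, s₀), E.one_mem, ms, one_ne_zero, by simp, by simpa using hs₀, hv8⟩
  refine hinf.mono ?_
  rintro _ ⟨p, hp, rfl⟩
  obtain ⟨h1, h2', h3, h4, h5, h6⟩ := id hp
  have mX : (k p).1 ∈ E := by
    show -(2 * (l * p.1)) / (a + b * (l * p.1) + c * (l * p.1) ^ 2 + a * p.2) ∈ E
    repeat' first
      | assumption
      | apply E.div_mem
      | apply E.add_mem
      | apply E.neg_mem
      | apply E.mul_mem
      | apply E.pow_mem
  have hlt1 : v (l * p.1) ≤ 1 := by rw [map_mul]; exact mul_le_one' l1 h4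
  have vX : v (k p).1 ≤ v ε := by
    show v (-(2 * (l * p.1)) / (a + b * (l * p.1) + c * (l * p.1) ^ 2 + a * p.2)) ≤ v ε
    rw [map_div₀, hden p hp, Valuation.map_neg, map_mul, map_mul]
    have va : 0 < v a := zero_lt_iff.2 ((Valuation.ne_zero_iff v).2 ha)
    rw [div_le_iff₀ (mul_pos v2pos va)]
    have h7 : v l ≤ v (a * ε) := by
      have h8 : v (32 / (a * ε) * l) ≤ v 32 := cε
      have e9 : (32 : Ω) / (a * ε) * l = 32 * (l / (a * ε)) := by field_simp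
      rw [e9, map_mul, map_div₀] at h8
      have h10 : v l / v (a * ε) ≤ 1 := by
        have : v 32 * (v l / v (a * ε)) ≤ v 32 * 1 := by rw [mul_one]; exact h8
        exact le_of_mul_le_mul_left this v32pos
      exact (div_le_one₀ (zero_lt_iff.2 ((Valuation.ne_zero_iff v).2 (mul_ne_zero ha hε)))).1 h10
    calc v 2 * (v l * v p.1) ≤ v 2 * (v (a * ε) * 1) := by gcongr
      _ = v ε * (v 2 * v a) := by rw [map_mul, mul_one, mul_comm (v ε), mul_assoc]
  refine ⟨mX, E.mul_mem (E.mul_mem ml h1) mX, ?_, vX, ?_⟩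
  · have hF : (a * p.2) ^ 2 = (a + b * (l * p.1) + c * (l * p.1) ^ 2) ^ 2 -
        4 * (l * p.1) * (d + e * (l * p.1) + f * (l * p.1) ^ 2 + g * (l * p.1) ^ 3) := by
      rw [mul_pow, h5, hf₁, hf₂, hf₃, hf₄]
      field_simp
      ring
    have hd := hden0 p hp
    show pol a b c d e f g
      (-(2 * (l * p.1)) / (a + b * (l * p.1) + c * (l * p.1) ^ 2 + a * p.2))
      (l * p.1 * (-(2 * (l * p.1)) / (a + b * (l * p.1) + c * (l * p.1) ^ 2 + a * p.2))) = 0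
    set T := l * p.1 with hT
    set D2 := a + b * T + c * T ^ 2 with hD2
    set X := -(2 * T) / (D2 + a * p.2) with hX
    have hXm : X * (D2 + a * p.2) = -(2 * T) := by rw [hX]; field_simp
    have hq : (D2 + a * p.2) ^ 2 * (T + X * D2 + X ^ 2 * (d + e * T + f * T ^ 2 + g * T ^ 3)) = 0 := by
      have : (D2 + a * p.2) ^ 2 * (T + X * D2 + X ^ 2 * (d + e * T + f * T ^ 2 + g * T ^ 3)) =
          (D2 + a * p.2) ^ 2 * T + (X * (D2 + a * p.2)) * (D2 + a * p.2) * D2 +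
            (X * (D2 + a * p.2)) ^ 2 * (d + e * T + f * T ^ 2 + g * T ^ 3) := by ring
      rw [this, hXm]
      linear_combination T * hF
    have hq' := (mul_eq_zero.1 hq).resolve_left (pow_ne_zero 2 hd)
    rw [pol]
    linear_combination X * hq'
  · show v (l * p.1 * (k p).1) ≤ v ε
    rw [map_mul]
    exact (mul_le_mul' hlt1 vX).trans_eq (one_mul _)

/-- the origin is a flex whose tangent line is not in the cubic -/
theorem near_d [CharZero Ω] [IsAlgClosed Ω] (h2 : v 2 < 1) (b c d e f g : Ω) (hd : d ≠ 0)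
    {ε : Ω} (hε : ε ≠ 0) :
    ∃ Z : Finset Ω, ∀ E : Subfield Ω, (Z : Set Ω) ⊆ (E : Set Ω) →
      (NearSet v E 0 b c d e f g ε).Infinite := by
  classical
  obtain ⟨r, r0, r1, hr⟩ := exists_scale v
    {(b ^ 2 - 4 * e) / (-4 * d), (2 * b * c - 4 * f) / (-4 * d), (c ^ 2 - 4 * g) / (-4 * d),
      b ^ 2 / (-4 * d), c ^ 2 / (-4 * d), 2 / (d * ε ^ 2)}
    (δ := (2 : Ω)) two_ne_zero
  simp only [Finset.mem_insert, Finset.mem_singleton, forall_eq_or_imp, forall_eq] at hr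
  obtain ⟨c2, c1, c0, cb, cc, cε⟩ := hr
  have v2pos : 0 < v 2 := by
    rw [zero_lt_iff]; exact (Valuation.ne_zero_iff v).2 two_ne_zero
  have hrp : ∀ n : ℕ, v (r ^ n) ≤ 1 := fun n => by rw [map_pow]; exact pow_le_one' r1 n
  set k₂ : Ω := (b ^ 2 - 4 * e) / (-4 * d) * r with hk₂
  set k₁ : Ω := (2 * b * c - 4 * f) / (-4 * d) * r * r ^ 1 with hk₁
  set k₀ : Ω := (c ^ 2 - 4 * g) / (-4 * d) * r * r ^ 2 with hk₀
  have bn : ∀ (x y : Ω), v x ≤ v 2 → v y ≤ 1 → v (x * y) < 1 := fun x y hx hy => by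
    rw [map_mul]; exact ((mul_le_mul' hx hy).trans_eq (mul_one _)).trans_lt h2
  have b₂ : v k₂ < 1 := c2.trans_lt h2
  have b₁ : v k₁ < 1 := bn _ _ c1 (hrp 1)
  have b₀ : v k₀ < 1 := bn _ _ c0 (hrp 2)
  obtain ⟨w₀, hw₀⟩ : ∃ s : Ω, s ^ 2 = 1 + k₂ + k₁ + k₀ := IsAlgClosed.exists_pow_nat_eq _ two_pos
  obtain ⟨ρ, hρ⟩ : ∃ s : Ω, s ^ 2 = -4 * d / r ^ 3 := IsAlgClosed.exists_pow_nat_eq _ two_pos
  have hd4 : (-4 * d : Ω) ≠ 0 := mul_ne_zero (by norm_num) hd
  refine ⟨{b, c, d, e, f, g, r, w₀, ρ}, ?_⟩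
  intro E hE
  have hmem : ∀ z ∈ ({b, c, d, e, f, g, r, w₀, ρ} : Finset Ω), z ∈ E := fun z hz => hE hz
  simp only [Finset.mem_insert, Finset.mem_singleton, forall_eq_or_imp, forall_eq] at hmem
  obtain ⟨mb, mc, md, me, mf, mg, mr, mw, mρ⟩ := hmem
  have e2 : (2 : Ω) ∈ E := ofNat_mem E 2
  have e4 : (4 : Ω) ∈ E := ofNat_mem E 4
  have m₂ : k₂ ∈ E := by
    rw [hk₂]
    repeat' first
      | assumption
      | apply E.div_mem
      | apply E.add_mem
      | apply E.sub_mem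
      | apply E.mul_mem
      | apply E.neg_mem
      | apply E.pow_mem
  have m₁ : k₁ ∈ E := by
    rw [hk₁]
    repeat' first
      | assumption
      | apply E.div_mem
      | apply E.add_mem
      | apply E.sub_mem
      | apply E.mul_mem
      | apply E.neg_mem
      | apply E.pow_mem
  let S : Set (Ω × Ω) := {p | p.1 ∈ E ∧ p.2 ∈ E ∧ 1 ≤ v p.1 ∧
    p.2 ^ 2 = p.1 ^ 3 + k₂ * p.1 ^ 2 + k₁ * p.1 + k₀}
  have hSstep : ∀ p ∈ S, wStep k₂ k₁ p ∈ S ∧ v p.1 < v (wStep k₂ k₁ p).1 := by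
    rintro ⟨x, w⟩ ⟨h1, h2', h3, h4⟩
    simp only at h1 h2' h3 h4
    obtain ⟨x', w', hp⟩ : ∃ x' w', wStep k₂ k₁ (x, w) = (x', w') := ⟨_, _, rfl⟩
    obtain ⟨w0, vx⟩ := wStep_val v h2 b₂ b₁ b₀ h3 h4 hp
    have hm := wStep_mem E m₂ m₁ h1 h2'
    have hc := wStep_curve w0 h4 hp
    rw [hp] at hm ⊢
    exact ⟨⟨hm.1, hm.2, h3.trans vx.le, hc⟩, vx⟩
  -- the parametrisation
  let yy : Ω × Ω → Ω := fun p => (ρ * p.2 - b * (p.1 / r) - c) / 2
  let k : Ω × Ω → Ω × Ω := fun p => (p.1 / r / yy p, 1 / yy p)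
  have hx0 : ∀ p ∈ S, p.1 ≠ 0 := by
    rintro p hp h0
    have := hp.2.2.1
    rw [h0, map_zero] at this
    exact absurd this (not_le.2 zero_lt_one)
  have hvx : ∀ p ∈ S, v (r / p.1) ≤ 1 := by
    rintro p hp
    rw [map_div₀]
    have := hp.2.2.1
    exact (div_le_one₀ (zero_lt_one.trans_le this)).2 (r1.trans this)
  -- `w ^ 2 = - 4 d x ^ 3 (1 + small)`
  have hw2 : ∀ p ∈ S, v ((ρ * p.2) ^ 2) = v (-4 * d * (p.1 / r) ^ 3) := by
    rintro p hp
    have h0 := hx0 p hp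
    have e : (ρ * p.2) ^ 2 = -4 * d * (p.1 / r) ^ 3 *
        (1 + (k₂ * p.1⁻¹ ^ 1 + k₁ * p.1⁻¹ ^ 2 + k₀ * p.1⁻¹ ^ 3)) := by
      rw [mul_pow, hρ, hp.2.2.2]
      field_simp
      ring
    have hyn : ∀ n : ℕ, v (p.1⁻¹ ^ n) ≤ 1 := fun n => by
      rw [map_pow, map_inv₀]; exact pow_le_one' (inv_le_one_of_one_le₀ hp.2.2.1) n
    have lt1 : ∀ (a b : Ω), v a < 1 → v b ≤ 1 → v (a * b) < 1 := fun a b ha hb => by
      rw [map_mul]; exact (mul_le_mul' le_rfl hb).trans_lt (by rwa [mul_one])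
    rw [e, map_mul, Valuation.map_one_add_of_lt v, mul_one]
    exact Valuation.map_add_lt v (Valuation.map_add_lt v (lt1 _ _ b₂ (hyn 1))
      (lt1 _ _ b₁ (hyn 2))) (lt1 _ _ b₀ (hyn 3))
  have hW0 : ∀ p ∈ S, v (-4 * d * (p.1 / r) ^ 3) ≠ 0 := fun p hp =>
    (Valuation.ne_zero_iff v).2 (mul_ne_zero hd4 (pow_ne_zero 3 (div_ne_zero (hx0 p hp) r0)))
  have hyy : ∀ p ∈ S, v (2 * yy p) = v (ρ * p.2) := by
    rintro p hp
    have h0 := hx0 p hp
    have e : 2 * yy p = ρ * p.2 - (b * (p.1 / r) + c) := by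
      show 2 * ((ρ * p.2 - b * (p.1 / r) - c) / 2) = _
      ring
    rw [e]
    refine Valuation.map_sub_eq_of_lt_left v ?_
    have sq : ∀ z : Ω, v (z ^ 2) < v ((ρ * p.2) ^ 2) → v z < v (ρ * p.2) := fun z hz => by
      rw [map_pow, map_pow] at hz
      exact lt_of_pow_lt_pow_left₀ 2 zero_le hz
    refine Valuation.map_add_lt v (sq _ ?_) (sq _ ?_)
    · rw [hw2 p hp]
      have e3 : (b * (p.1 / r)) ^ 2 = -4 * d * (p.1 / r) ^ 3 *
          (b ^ 2 / (-4 * d) * r * p.1⁻¹ ) := by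
        field_simp
      rw [e3, map_mul]
      have : v (b ^ 2 / (-4 * d) * r * p.1⁻¹) < 1 :=
        bn _ _ cb (by rw [map_inv₀]; exact inv_le_one_of_one_le₀ hp.2.2.1)
      calc v (-4 * d * (p.1 / r) ^ 3) * v (b ^ 2 / (-4 * d) * r * p.1⁻¹)
          < v (-4 * d * (p.1 / r) ^ 3) * 1 :=
            mul_lt_mul_of_pos_left this (zero_lt_iff.2 (hW0 p hp))
        _ = _ := mul_one _
    · rw [hw2 p hp]
      have e3 : c ^ 2 = -4 * d * (p.1 / r) ^ 3 *
          (c ^ 2 / (-4 * d) * r * (p.1⁻¹ * (r / p.1) ^ 2)) := by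
        field_simp
      rw [e3, map_mul]
      have : v (c ^ 2 / (-4 * d) * r * (p.1⁻¹ * (r / p.1) ^ 2)) < 1 := by
        refine bn _ _ cc ?_
        rw [map_mul, map_inv₀, map_pow]
        exact mul_le_one' (inv_le_one_of_one_le₀ hp.2.2.1) (pow_le_one' (hvx p hp) 2)
      calc v (-4 * d * (p.1 / r) ^ 3) * v (c ^ 2 / (-4 * d) * r * (p.1⁻¹ * (r / p.1) ^ 2))
          < v (-4 * d * (p.1 / r) ^ 3) * 1 :=
            mul_lt_mul_of_pos_left this (zero_lt_iff.2 (hW0 p hp))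
        _ = _ := mul_one _
  have hyy0 : ∀ p ∈ S, yy p ≠ 0 := by
    rintro p hp h0
    have h1 := hyy p hp
    rw [h0, mul_zero, map_zero] at h1
    have h3 := hw2 p hp
    rw [map_pow, ← h1, zero_pow two_ne_zero] at h3
    exact hW0 p hp h3.symm
  have hinf := infinite_image_of_step (Γ := Γ₀ᵒᵈ) S (fun p => OrderDual.toDual (v p.1)) k
    (wStep k₂ k₁) (fun p hp => (hSstep p hp).1)
    (fun p hp => OrderDual.toDual_lt_toDual.2 (hSstep p hp).2)
    (fun p hp q hq hpq => by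
      show OrderDual.toDual (v p.1) = OrderDual.toDual (v q.1)
      have h1 : p.1 / r / yy p = q.1 / r / yy q := congrArg Prod.fst hpq
      have h2' : 1 / yy p = 1 / yy q := congrArg Prod.snd hpq
      have hy1 := hyy0 p hp
      have hy2 := hyy0 q hq
      have h3 : yy p = yy q := by
        field_simp at h2'
        exact h2'.symm
      rw [h3] at h1
      have h4 : p.1 = q.1 := by
        field_simp at h1
        exact h1
      rw [h4])
    ⟨(1, w₀), E.one_mem, mw, by simp, by simpa using hw₀⟩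
  refine hinf.mono ?_
  rintro _ ⟨p, hp, rfl⟩
  obtain ⟨h1, h2', h3, h4⟩ := id hp
  have my : yy p ∈ E := by
    show (ρ * p.2 - b * (p.1 / r) - c) / 2 ∈ E
    repeat' first
      | assumption
      | apply E.div_mem
      | apply E.sub_mem
      | apply E.mul_mem
  have p0 := hx0 p hp
  have y0 := hyy0 p hp
  have vε : v (r / (d * ε ^ 2)) ≤ 1 := by
    have e9 : (2 : Ω) / (d * ε ^ 2) * r = 2 * (r / (d * ε ^ 2)) := by field_simp
    rw [e9, map_mul] at cε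
    have : v 2 * v (r / (d * ε ^ 2)) ≤ v 2 * 1 := by rw [mul_one]; exact cε
    exact le_of_mul_le_mul_left this v2pos
  have vy2 : v (yy p ^ 2) = v (d * (p.1 / r) ^ 3) := by
    have h5 : v ((2 * yy p) ^ 2) = v (-4 * d * (p.1 / r) ^ 3) := by
      rw [map_pow, hyy p hp, ← map_pow, hw2 p hp]
    rw [show (2 * yy p) ^ 2 = 4 * yy p ^ 2 by ring,
      show -4 * d * (p.1 / r) ^ 3 = -(4 * (d * (p.1 / r) ^ 3)) by ring, Valuation.map_neg,
      map_mul, map_mul v 4] at h5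
    have h40 : v 4 ≠ 0 := (Valuation.ne_zero_iff v).2 (by norm_num)
    exact mul_left_cancel₀ h40 h5
  have hsq : ∀ z : Ω, v (z ^ 2) ≤ v (ε ^ 2) → v z ≤ v ε := fun z hz => by
    rw [map_pow, map_pow] at hz
    exact le_of_pow_le_pow_left₀ two_ne_zero zero_le hz
  have vX : v (p.1 / r / yy p) ≤ v ε := by
    refine hsq _ ?_
    have e5 : v ((p.1 / r / yy p) ^ 2) = v (ε ^ 2 * (r / (d * ε ^ 2) * p.1⁻¹)) := by
      rw [div_pow, map_div₀, vy2, ← map_div₀]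
      congr 1
      field_simp
    rw [e5, map_mul]
    refine (mul_le_mul' le_rfl ?_).trans_eq (mul_one _)
    rw [map_mul, map_inv₀]
    exact mul_le_one' vε (inv_le_one_of_one_le₀ h3)
  refine ⟨?_, E.div_mem E.one_mem my, ?_, vX, ?_⟩
  · exact E.div_mem (E.div_mem h1 mr) my
  · show pol 0 b c d e f g (p.1 / r / yy p) (1 / yy p) = 0
    set x := p.1 / r with hx
    have hw : (2 * yy p + b * x + c) ^ 2 =
        -4 * d * x ^ 3 + (b ^ 2 - 4 * e) * x ^ 2 + (2 * b * c - 4 * f) * x + (c ^ 2 - 4 * g) := by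
      have e6 : 2 * yy p + b * x + c = ρ * p.2 := by
        show 2 * ((ρ * p.2 - b * x - c) / 2) + b * x + c = _
        ring
      rw [e6, mul_pow, hρ, h4, hk₂, hk₁, hk₀, hx]
      field_simp
      ring
    have hq : yy p ^ 2 + b * x * yy p + c * yy p + d * x ^ 3 + e * x ^ 2 + f * x + g = 0 := by
      have h44 : (4 : Ω) ≠ 0 := by norm_num
      apply mul_left_cancel₀ h44
      linear_combination hw
    rw [pol]
    have : 1 / yy p + 0 * (x / yy p) ^ 2 + b * (x / yy p) * (1 / yy p) + c * (1 / yy p) ^ 2 +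
        d * (x / yy p) ^ 3 + e * (x / yy p) ^ 2 * (1 / yy p) + f * (x / yy p) * (1 / yy p) ^ 2 +
        g * (1 / yy p) ^ 3 =
        (yy p ^ 2 + b * x * yy p + c * yy p + d * x ^ 3 + e * x ^ 2 + f * x + g) / yy p ^ 3 := by
      field_simp
      ring
    rw [this, hq, zero_div]
  · show v (1 / yy p) ≤ v ε
    have e7 : 1 / yy p = (r / p.1) * (p.1 / r / yy p) := by field_simp
    rw [e7, map_mul]
    exact (mul_le_mul' (hvx p hp) vX).trans_eq (one_mul _)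

/-- the tangent line at the origin is contained in the cubic -/
theorem near_0 [CharZero Ω] (h2 : v 2 < 1) (b c e f g : Ω) {ε : Ω} (hε : ε ≠ 0) :
    ∃ Z : Finset Ω, ∀ E : Subfield Ω, (Z : Set Ω) ⊆ (E : Set Ω) →
      (NearSet v E 0 b c 0 e f g ε).Infinite := by
  refine ⟨{ε}, fun E hE => ?_⟩
  have mε : ε ∈ E := hE (by simp)
  have e2 : (2 : Ω) ∈ E := ofNat_mem E 2
  have hinj : Function.Injective fun n : ℕ => ((ε * 2 ^ n, 0) : Ω × Ω) := by
    intro m n h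
    have h1 : ε * 2 ^ m = ε * 2 ^ n := congrArg Prod.fst h
    have h2 : (2 : Ω) ^ m = 2 ^ n := mul_left_cancel₀ hε h1
    have h3 : (2 : ℕ) ^ m = 2 ^ n := by exact_mod_cast h2
    exact Nat.pow_right_injective le_rfl h3
  refine (Set.infinite_range_of_injective hinj).mono ?_
  rintro _ ⟨n, rfl⟩
  refine ⟨E.mul_mem mε (E.pow_mem e2 n), E.zero_mem, ?_, ?_, ?_⟩
  · simp [pol]
  · show v (ε * 2 ^ n) ≤ v ε
    rw [map_mul, map_pow]
    exact (mul_le_mul' le_rfl (pow_le_one' h2.le n)).trans_eq (mul_one _)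
  · simp

theorem near_pol [CharZero Ω] [IsAlgClosed Ω] (h2 : v 2 < 1) (a b c d e f g : Ω)
    {ε : Ω} (hε : ε ≠ 0) :
    ∃ Z : Finset Ω, ∀ E : Subfield Ω, (Z : Set Ω) ⊆ (E : Set Ω) →
      (NearSet v E a b c d e f g ε).Infinite := by
  rcases eq_or_ne a 0 with rfl | ha
  · rcases eq_or_ne d 0 with rfl | hd
    · exact near_0 v h2 b c e f g hε
    · exact near_d v h2 b c d e f g hd hε
  · exact near_a v h2 a b c d e f g ha hε

end Pool.Agent.Work.D9
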