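import Mathlib

/-!
Two contractions on curves of genus one over a field with a valuation `v`, `v 2 < 1` (any rank):
the map `P ↦ 2 P - P₀` on a quartic model near a rational point, and doubling on a cubic model near
infinity.
-/

namespace Pool.Agent.Work.D9

theorem infinite_of_step {α Γ : Type*} [Preorder Γ] (S : Set α) (g : α → Γ) (step : α → α)
    (hS : ∀ a ∈ S, step a ∈ S) (hlt : ∀ a ∈ S, g (step a) < g a) (hne : S.Nonempty) :
    S.Infinite := by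
  obtain ⟨a₀, h₀⟩ := hne
  have hmem : ∀ n, (step^[n]) a₀ ∈ S := by
    intro n
    induction n with
    | zero => simpa using h₀
    | succ n ih => rw [Function.iterate_succ_apply']; exact hS _ ih
  have hanti : StrictAnti fun n => g ((step^[n]) a₀) := by
    refine strictAnti_nat_of_succ_lt fun n => ?_
    simp only [Function.iterate_succ_apply']
    exact hlt _ (hmem n)
  have hinj : Function.Injective fun n => (step^[n]) a₀ := by
    intro m n h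
    exact hanti.injective (congrArg g h)
  exact (Set.infinite_range_of_injective hinj).mono (by rintro _ ⟨n, rfl⟩; exact hmem n)

variable {Ω Γ₀ : Type*} [Field Ω] [LinearOrderedCommGroupWithZero Γ₀] (v : Valuation Ω Γ₀)

/-- the parabola step: `r = t s'` -/
def qR (f₁ f₂ f₃ f₄ t s : Ω) : Ω := (f₁ * t + 2 * f₂ * t ^ 2 + 3 * f₃ * t ^ 3 + 4 * f₄ * t ^ 4) / (2 * s)

def qA (s r : Ω) : Ω := 2 * (s + 1) - r

def qG (s r : Ω) : Ω := r - s - 1

def qH (f₄ t s r : Ω) : Ω := qG s r ^ 2 - f₄ * t ^ 4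

def qK (f₁ t s r : Ω) : Ω := 2 * qA s r + f₁ * t

/-- the map `P ↦ 2 P - P₀` on `s ^ 2 = 1 + f₁ t + f₂ t ^ 2 + f₃ t ^ 3 + f₄ t ^ 4`, `P₀ = (0, 1)` -/
def qStep (f₁ f₂ f₃ f₄ : Ω) (p : Ω × Ω) : Ω × Ω :=
  let r := qR f₁ f₂ f₃ f₄ p.1 p.2
  let u := qK f₁ p.1 p.2 r / qH f₄ p.1 p.2 r
  (p.1 * u, 1 - qA p.2 r * u - qG p.2 r * u ^ 2)

theorem qStep_curve [CharZero Ω] {f₁ f₂ f₃ f₄ t s : Ω} (hs0 : s ≠ 0)
    (hs : s ^ 2 = 1 + f₁ * t + f₂ * t ^ 2 + f₃ * t ^ 3 + f₄ * t ^ 4)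
    (hH : qH f₄ t s (qR f₁ f₂ f₃ f₄ t s) ≠ 0) {t' s' : Ω}
    (hp : qStep f₁ f₂ f₃ f₄ (t, s) = (t', s')) :
    s' ^ 2 = 1 + f₁ * t' + f₂ * t' ^ 2 + f₃ * t' ^ 3 + f₄ * t' ^ 4 := by
  simp only [qStep, Prod.mk.injEq] at hp
  obtain ⟨h1, h2⟩ := hp
  set r := qR f₁ f₂ f₃ f₄ t s with hr
  have hr2 : 2 * s * r = f₁ * t + 2 * f₂ * t ^ 2 + 3 * f₃ * t ^ 3 + 4 * f₄ * t ^ 4 := by
    rw [hr, qR]; field_simp
  set u := qK f₁ t s r / qH f₄ t s r with hu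
  have hKu : qH f₄ t s r * u = qK f₁ t s r := by rw [hu]; field_simp
  have ha3 : f₃ * t ^ 3 = 2 * s * r - 2 * s ^ 2 + 2 + f₁ * t - 2 * (f₄ * t ^ 4) := by
    linear_combination -hr2 + 2 * hs
  have ha2 : f₂ * t ^ 2 = 3 * s ^ 2 - 3 - 2 * (f₁ * t) - 2 * s * r + f₄ * t ^ 4 := by
    linear_combination hr2 - 3 * hs
  rw [← h1, ← h2]
  simp only [mul_pow]
  have key : (1 - qA s r * u - qG s r * u ^ 2) ^ 2 -
      (1 + (f₁ * t) * u + (f₂ * t ^ 2) * u ^ 2 + (f₃ * t ^ 3) * u ^ 3 + (f₄ * t ^ 4) * u ^ 4) =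
      u * (u - 1) ^ 2 * (qH f₄ t s r * u - qK f₁ t s r) := by
    rw [ha3, ha2, qH, qK, qA, qG]
    ring
  rw [hKu, sub_self, mul_zero, sub_eq_zero] at key
  rw [key]
  ring

theorem qStep_val [CharZero Ω] (h2 : v 2 < 1) {f₁ f₂ f₃ f₄ t s : Ω}
    (h₁ : v f₁ ≤ v 32) (h₂ : v f₂ ≤ v 32) (h₃ : v f₃ ≤ v 32) (h₄ : v f₄ ≤ v 32)
    (ht : v t ≤ 1) (hs : v (s - 1) ≤ v 8) {t' s' : Ω}
    (hp : qStep f₁ f₂ f₃ f₄ (t, s) = (t', s')) :
    s ≠ 0 ∧ qH f₄ t s (qR f₁ f₂ f₃ f₄ t s) ≠ 0 ∧ v t' = v 2 * v t ∧ v (s' - 1) ≤ v 8 := by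
  simp only [qStep, Prod.mk.injEq] at hp
  obtain ⟨e1, e2⟩ := hp
  have v2pos : 0 < v 2 := by
    rw [zero_lt_iff]; exact (Valuation.ne_zero_iff v).2 two_ne_zero
  have v4 : v 4 = v 2 ^ 2 := by rw [← map_pow]; norm_num
  have v8 : v 8 = v 2 ^ 3 := by rw [← map_pow]; norm_num
  have v16 : v 16 = v 2 ^ 4 := by rw [← map_pow]; norm_num
  have v32 : v 32 = v 2 ^ 5 := by rw [← map_pow]; norm_num
  have v64 : v 64 = v 2 ^ 6 := by rw [← map_pow]; norm_num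
  have mono : ∀ {m n : ℕ}, m ≤ n → v 2 ^ n ≤ v 2 ^ m := fun h => pow_le_pow_right_of_le_one' h2.le h
  have smono : ∀ {m n : ℕ}, m < n → v 2 ^ n < v 2 ^ m := fun h =>
    pow_lt_pow_right_of_lt_one₀ v2pos h2 h
  have hpow : ∀ n : ℕ, v (t ^ n) ≤ 1 := fun n => by
    rw [map_pow]; exact pow_le_one' ht n
  have hft : ∀ (f : Ω) (n : ℕ), v f ≤ v 32 → v (f * t ^ n) ≤ v 32 := fun f n hf => by
    rw [map_mul]; exact (mul_le_mul' hf (hpow n)).trans_eq (mul_one _)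
  have hnat : ∀ n : ℕ, v (n : Ω) ≤ 1 := fun n => by
    induction n with
    | zero => simp
    | succ n ih => push_cast; exact Valuation.map_add_le v ih (by rw [map_one])
  have hnm : ∀ (n : ℕ) (x : Ω) (g : Γ₀), v x ≤ g → v ((n : Ω) * x) ≤ g := fun n x g hx => by
    rw [map_mul]; exact (mul_le_mul' (hnat n) hx).trans_eq (one_mul _)
  have vs : v s = 1 := by
    have : v (s - 1) < v 1 := by
      rw [map_one]; refine hs.trans_lt ?_; rw [v8]; exact pow_lt_one₀ v2pos.le h2 (by norm_num)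
    rw [Valuation.map_eq_of_sub_lt v this, map_one]
  have s0 : s ≠ 0 := by
    rintro rfl; rw [map_zero] at vs; exact zero_ne_one vs
  set r := qR f₁ f₂ f₃ f₄ t s with hr
  have vr : v r ≤ v 16 := by
    have h5 : v (f₁ * t + 2 * f₂ * t ^ 2 + 3 * f₃ * t ^ 3 + 4 * f₄ * t ^ 4) ≤ v 32 := by
      refine Valuation.map_add_le v (Valuation.map_add_le v (Valuation.map_add_le v ?_ ?_) ?_) ?_
      · simpa using hft f₁ 1 h₁
      · have := hnm 2 _ _ (hft f₂ 2 h₂)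
        push_cast at this
        rwa [← mul_assoc] at this
      · have := hnm 3 _ _ (hft f₃ 3 h₃)
        push_cast at this
        rwa [← mul_assoc] at this
      · have := hnm 4 _ _ (hft f₄ 4 h₄)
        push_cast at this
        rwa [← mul_assoc] at this
    rw [hr, qR, map_div₀, map_mul, vs, mul_one]
    rw [div_le_iff₀ v2pos]
    refine h5.trans_eq ?_
    rw [v32, v16]; exact pow_succ _ _
  have hA : v (qA s r - 4) ≤ v 16 := by
    have : qA s r - 4 = 2 * (s - 1) - r := by rw [qA]; ring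
    rw [this]
    refine Valuation.map_sub_le v ?_ vr
    rw [map_mul, v16]
    refine (mul_le_mul' le_rfl hs).trans_eq ?_
    rw [v8]; exact (pow_succ' _ _).symm
  have hG : v (qG s r + 2) ≤ v 8 := by
    have : qG s r + 2 = r - (s - 1) := by rw [qG]; ring
    rw [this]
    refine Valuation.map_sub_le v (vr.trans ?_) hs
    rw [v16, v8]; exact mono (by norm_num)
  have vA : v (qA s r) = v 4 := by
    refine Valuation.map_eq_of_sub_lt v (hA.trans_lt ?_)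
    rw [v16, v4]; exact smono (by norm_num)
  have vG : v (qG s r) = v 2 := by
    have : v (qG s r) = v (-2 : Ω) := by
      refine Valuation.map_eq_of_sub_lt v ?_
      rw [sub_neg_eq_add, Valuation.map_neg]
      refine hG.trans_lt ?_
      rw [v8]; simpa using smono (m := 1) (n := 3) (by norm_num)
    rw [this, Valuation.map_neg]
  have hH : v (qH f₄ t s r - 4) ≤ v 32 := by
    have e : qH f₄ t s r - 4 = (qG s r - 2) * (qG s r + 2) - f₄ * t ^ 4 := by rw [qH]; ring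
    rw [e]
    refine Valuation.map_sub_le v ?_ (hft f₄ 4 h₄)
    have hG2 : v (qG s r - 2) ≤ v 4 := by
      have : qG s r - 2 = (qG s r + 2) - 4 := by ring
      rw [this]
      refine Valuation.map_sub_le v (hG.trans ?_) le_rfl
      rw [v8, v4]; exact mono (by norm_num)
    rw [map_mul]
    refine (mul_le_mul' hG2 hG).trans_eq ?_
    rw [v4, v8, v32]; exact (pow_add _ _ _).symm
  have vH : v (qH f₄ t s r) = v 4 := by
    refine Valuation.map_eq_of_sub_lt v (hH.trans_lt ?_)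
    rw [v32, v4]; exact smono (by norm_num)
  have hK : v (qK f₁ t s r - 8) ≤ v 32 := by
    have e : qK f₁ t s r - 8 = 2 * (qA s r - 4) + f₁ * t ^ 1 := by rw [qK]; ring
    rw [e]
    refine Valuation.map_add_le v ?_ (hft f₁ 1 h₁)
    rw [map_mul]
    refine (mul_le_mul' le_rfl hA).trans_eq ?_
    rw [v16, v32]; exact (pow_succ' _ _).symm
  have vK : v (qK f₁ t s r) = v 8 := by
    refine Valuation.map_eq_of_sub_lt v (hK.trans_lt ?_)
    rw [v32, v8]; exact smono (by norm_num)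
  have H0 : qH f₄ t s r ≠ 0 := by
    intro h
    rw [h, map_zero, v4] at vH
    exact (pow_pos v2pos 2).ne vH
  set u := qK f₁ t s r / qH f₄ t s r with hu
  have vu : v u = v 2 := by
    rw [hu, map_div₀, vK, vH, v8, v4]
    field_simp
  refine ⟨s0, H0, ?_, ?_⟩
  · rw [← e1, map_mul, vu, mul_comm]
  · rw [← e2]
    have e : 1 - qA s r * u - qG s r * u ^ 2 - 1 = -(qA s r * u + qG s r * u ^ 2) := by ring
    rw [e, Valuation.map_neg]
    refine Valuation.map_add_le v ?_ ?_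
    · rw [map_mul, vA, vu, v4, v8]; exact le_of_eq (pow_succ _ _).symm
    · rw [map_mul, map_pow, vG, vu, v8]; exact le_of_eq (pow_succ' _ _).symm

/-- slope of the tangent of `w ^ 2 = x ^ 3 + k₂ x ^ 2 + k₁ x + k₀` -/
def wM (k₂ k₁ x w : Ω) : Ω := (3 * x ^ 2 + 2 * k₂ * x + k₁) / (2 * w)

/-- doubling on `w ^ 2 = x ^ 3 + k₂ x ^ 2 + k₁ x + k₀` (up to sign) -/
def wStep (k₂ k₁ : Ω) (p : Ω × Ω) : Ω × Ω :=
  let m := wM k₂ k₁ p.1 p.2
  let x' := m ^ 2 - k₂ - 2 * p.1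
  (x', p.2 + m * (x' - p.1))

theorem wStep_curve [CharZero Ω] {k₂ k₁ k₀ x w : Ω} (hw : w ≠ 0)
    (h : w ^ 2 = x ^ 3 + k₂ * x ^ 2 + k₁ * x + k₀) {x' w' : Ω}
    (hp : wStep k₂ k₁ (x, w) = (x', w')) :
    w' ^ 2 = x' ^ 3 + k₂ * x' ^ 2 + k₁ * x' + k₀ := by
  simp only [wStep, Prod.mk.injEq] at hp
  obtain ⟨h1, h2⟩ := hp
  set m := wM k₂ k₁ x w with hm
  have hm2 : 2 * w * m = 3 * x ^ 2 + 2 * k₂ * x + k₁ := by
    rw [hm, wM]; field_simp
  rw [h1] at h2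
  rw [← h2]
  have key : (w + m * (x' - x)) ^ 2 - (x' ^ 3 + k₂ * x' ^ 2 + k₁ * x' + k₀) =
      (x' - x) ^ 2 * (m ^ 2 - k₂ - 2 * x - x') := by
    linear_combination h + (x' - x) * hm2
  rw [h1, sub_self, mul_zero, sub_eq_zero] at key
  exact key

theorem wStep_val [CharZero Ω] (h2 : v 2 < 1) {k₂ k₁ k₀ x w : Ω} (hk₂ : v k₂ < 1) (hk₁ : v k₁ < 1)
    (hk₀ : v k₀ < 1) (hx : 1 ≤ v x) (h : w ^ 2 = x ^ 3 + k₂ * x ^ 2 + k₁ * x + k₀) {x' w' : Ω}
    (hp : wStep k₂ k₁ (x, w) = (x', w')) :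
    w ≠ 0 ∧ v x < v x' := by
  simp only [wStep, Prod.mk.injEq] at hp
  obtain ⟨h1, -⟩ := hp
  have x0 : x ≠ 0 := by
    rintro rfl; rw [map_zero] at hx; exact absurd hx (not_le.2 zero_lt_one)
  have hnat : ∀ n : ℕ, v (n : Ω) ≤ 1 := fun n => by
    induction n with
    | zero => simp
    | succ n ih => push_cast; exact Valuation.map_add_le v ih (by rw [map_one])
  have hyn : ∀ n : ℕ, v (x⁻¹ ^ n) ≤ 1 := fun n => by
    rw [map_pow, map_inv₀]; exact pow_le_one' (inv_le_one_of_one_le₀ hx) n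
  have lt1 : ∀ (a b : Ω), v a < 1 → v b ≤ 1 → v (a * b) < 1 := fun a b ha hb => by
    rw [map_mul]; exact (mul_le_mul' le_rfl hb).trans_lt (by rwa [mul_one])
  have e1 : w ^ 2 = x ^ 3 * (1 + (k₂ * x⁻¹ ^ 1 + k₁ * x⁻¹ ^ 2 + k₀ * x⁻¹ ^ 3)) := by
    rw [h]; field_simp; ring
  have v1 : v (w ^ 2) = v (x ^ 3) := by
    rw [e1, map_mul, Valuation.map_one_add_of_lt v, mul_one]
    exact Valuation.map_add_lt v (Valuation.map_add_lt v (lt1 _ _ hk₂ (hyn 1))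
      (lt1 _ _ hk₁ (hyn 2))) (lt1 _ _ hk₀ (hyn 3))
  have w0 : w ≠ 0 := by
    rintro rfl
    rw [zero_pow two_ne_zero, map_zero] at v1
    exact (pow_ne_zero 3 x0) ((Valuation.zero_iff v).1 v1.symm)
  set m := wM k₂ k₁ x w with hm
  have hm2 : 2 * w * m = 3 * x ^ 2 + 2 * k₂ * x + k₁ := by
    rw [hm, wM]; field_simp
  have e2 : 4 * w ^ 2 * x' = x ^ 4 * (1 + (k₁ * (((2 : ℕ) : Ω) * x⁻¹ ^ 2) * (-1) +
      k₀ * (((8 : ℕ) : Ω) * x⁻¹ ^ 3) * (-1) + (k₁ * (k₁ * x⁻¹ ^ 4) -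
      k₀ * (((4 : ℕ) : Ω) * (k₂ * x⁻¹ ^ 4))))) := by
    have : x ^ 4 * (1 + (k₁ * (((2 : ℕ) : Ω) * x⁻¹ ^ 2) * (-1) +
      k₀ * (((8 : ℕ) : Ω) * x⁻¹ ^ 3) * (-1) + (k₁ * (k₁ * x⁻¹ ^ 4) -
      k₀ * (((4 : ℕ) : Ω) * (k₂ * x⁻¹ ^ 4))))) =
      x ^ 4 - 2 * k₁ * x ^ 2 - 8 * k₀ * x + (k₁ ^ 2 - 4 * k₀ * k₂) := by
      push_cast
      field_simp
      ring
    rw [this, ← h1]
    linear_combination (2 * w * m + 3 * x ^ 2 + 2 * k₂ * x + k₁) * hm2 - 4 * (k₂ + 2 * x) * h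
  have v2 : v (4 * w ^ 2 * x') = v (x ^ 4) := by
    rw [e2, map_mul, Valuation.map_one_add_of_lt v, mul_one]
    have hm1 : v (-1 : Ω) ≤ 1 := by rw [Valuation.map_neg, map_one]
    have le1 : ∀ (a b : Ω), v a ≤ 1 → v b ≤ 1 → v (a * b) ≤ 1 := fun a b ha hb => by
      rw [map_mul]; exact mul_le_one' ha hb
    refine Valuation.map_add_lt v (Valuation.map_add_lt v ?_ ?_) (Valuation.map_sub_lt v ?_ ?_)
    · exact lt1 _ _ (lt1 _ _ hk₁ (le1 _ _ (hnat 2) (hyn 2))) hm1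
    · exact lt1 _ _ (lt1 _ _ hk₀ (le1 _ _ (hnat 8) (hyn 3))) hm1
    · exact lt1 _ _ hk₁ (le1 _ _ hk₁.le (hyn 4))
    · exact lt1 _ _ hk₀ (le1 _ _ (hnat 4) (le1 _ _ hk₂.le (hyn 4)))
  refine ⟨w0, ?_⟩
  rw [map_mul, map_mul, v1, map_pow, map_pow] at v2
  have vx0 : 0 < v x := zero_lt_one.trans_le hx
  have v4 : v 4 < 1 := by
    have : v 4 = v 2 ^ 2 := by rw [← map_pow]; norm_num
    rw [this]; exact pow_lt_one₀ zero_le h2 (by norm_num)
  have hx' : v 4 * v x' = v x := by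
    have h3 : v x ^ 3 ≠ 0 := pow_ne_zero 3 vx0.ne'
    apply mul_left_cancel₀ h3
    rw [← pow_succ, ← v2]
    rw [← mul_assoc, mul_comm (v x ^ 3) (v 4)]
  rcases eq_or_ne (v x') 0 with h0 | h0
  · rw [h0, mul_zero] at hx'; exact absurd hx' vx0.ne
  · rw [← hx']
    calc v 4 * v x' < 1 * v x' := by
          exact mul_lt_mul_of_pos_right v4 (zero_lt_iff.2 h0)
      _ = v x' := one_mul _

end Pool.Agent.Work.D9
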